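import Mathlib
import Pool.Agent.Lib.MP_6d896a_gt.FP.Defs

/-!
Project LG (isoperimetry of general log-concave measures with a power of the logarithm of the
dimension): definitions. Tilted measures, cumulants, a random walk approximation of stochastic
localisation and the calculus of its functionals.
-/

set_option autoImplicit false

namespace Pool.Agent.Lib.MP_6d896a_gt.LG

open MeasureTheory Filter Topology Set Matrix
open scoped ENNReal NNReal

abbrev Eu (n : ℕ) := EuclideanSpace ℝ (Fin n)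
abbrev Mat (n : ℕ) := Matrix (Fin n) (Fin n) ℝ
/-- states: tilt vector and matrix factor -/
abbrev St (n : ℕ) := Eu n × Mat n

variable {n : ℕ}

/-! ### measures -/

/-- support in the closed ball of radius `R` -/
def BS (R : ℝ) (μ : Measure (Eu n)) : Prop := ∀ᵐ x ∂μ, ‖x‖ ≤ R

/-- uniform log-concavity: the density with respect to a Gaussian of covariance `1 / t` is
log-concave -/
def ULC (t : ℝ) (μ : Measure (Eu n)) : Prop :=
  FP.PLm (μ.withDensity fun x => ENNReal.ofReal (Real.exp (t / 2 * ‖x‖ ^ 2)))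

/-- covariance of two functions -/
noncomputable def Cv (ν : Measure (Eu n)) (f g : Eu n → ℝ) : ℝ :=
  ∫ x, f x * g x ∂ν - (∫ x, f x ∂ν) * ∫ x, g x ∂ν

/-- the mean -/
noncomputable def mn (ν : Measure (Eu n)) : Eu n := WithLp.toLp 2 (fun i => ∫ x, x i ∂ν)

/-- the covariance matrix -/
noncomputable def Am (ν : Measure (Eu n)) : Mat n :=
  fun i j => Cv ν (fun x => x i) (fun x => x j)

/-- the third cumulants -/
noncomputable def Hm (ν : Measure (Eu n)) (k : Fin n) : Mat n :=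
  fun i j => ∫ x, (x k - mn ν k) * ((x i - mn ν i) * (x j - mn ν j)) ∂ν

/-- covariances of the coordinates with a vector field -/
noncomputable def Nv (ν : Measure (Eu n)) (φ : Fin n → Eu n → ℝ) : Mat n :=
  fun i j => Cv ν (fun x => x i) (φ j)

/-- third cumulants in a basis -/
noncomputable def T3 (ν : Measure (Eu n)) (b : Fin n → Eu n) (i j k : Fin n) : ℝ :=
  ∫ x, inner ℝ (x - mn ν) (b i) * (inner ℝ (x - mn ν) (b j) * inner ℝ (x - mn ν) (b k)) ∂ν

/-- `κ(x) = √x / (1 + √x)` -/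
noncomputable def kap (x : ℝ) : ℝ := Real.sqrt x / (1 + Real.sqrt x)

/-- `b` is an orthonormal basis of eigenvectors of the covariance with eigenvalues `a` -/
def Eig (ν : Measure (Eu n)) (b : OrthonormalBasis (Fin n) ℝ (Eu n)) (a : Fin n → ℝ) : Prop :=
  ∀ i j, Cv ν (fun x => inner ℝ x (b i)) (fun x => inner ℝ x (b j)) = if i = j then a i else 0

/-- the bound of covariances with vector fields -/
def SIn (n : ℕ) (C : ℝ) : Prop :=
  ∀ (ν : Measure (Eu n)) (R : ℝ), IsProbabilityMeasure ν → FP.PLm ν → BS R ν →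
    ∀ φ : Fin n → Eu n → ℝ, (∀ j, ContDiff ℝ 1 (φ j)) →
      (∑ i, Cv ν (fun x => x i) (φ i)) ^ 2 ≤
        C * (Am ν * Am ν).trace * ∫ x, ∑ j, ‖fderiv ℝ (φ j) x‖ ^ 2 ∂ν

/-- the weighted thin shell bound -/
def Thin (n : ℕ) (C : ℝ) : Prop :=
  ∀ (ν : Measure (Eu n)) (R : ℝ), IsProbabilityMeasure ν → FP.PLm ν → BS R ν →
    Cv ν (fun x => ‖x - mn ν‖ ^ 2) (fun x => ‖x - mn ν‖ ^ 2) ≤ C * (Am ν * Am ν).trace

/-- the tilted measure, proportional to `exp (⟨c, x⟩ - t |x|² / 2) μ` -/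
noncomputable def tl (μ : Measure (Eu n)) (t : ℝ) (c : Eu n) : Measure (Eu n) :=
  μ.tilted (fun x => inner ℝ c x - t / 2 * ‖x‖ ^ 2)

/-! ### the random walk -/

/-- signs -/
def sg (b : Bool) : ℝ := if b then 1 else -1

/-- the average over all signs -/
noncomputable def av (F : (Fin n → Bool) → ℝ) : ℝ := (2 ^ n : ℝ)⁻¹ * ∑ e, F e

/-- one step; the length of the time step is `d ^ 2` -/
noncomputable def stp (μ : Measure (Eu n)) (d t : ℝ) (s : St n) (e : Fin n → Bool) : St n :=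
  (s.1 + d ^ 2 • mn (tl μ t s.1) + d • WithLp.toLp 2 (fun i => sg (e i)),
    s.2 + d ^ 2 • (Am (tl μ t s.1) * s.2))

/-- the expectation of a function of the state after `k` steps -/
noncomputable def Ev (μ : Measure (Eu n)) (d : ℝ) : ℕ → (St n → ℝ) → ℝ
  | 0, F => F (0, 1)
  | k + 1, F => Ev μ d k (fun s => av (fun e => F (stp μ d (k * d ^ 2) s e)))

/-- limits along a fixed ultrafilter -/
noncomputable def ul (u : ℕ → ℝ) : ℝ := limUnder (hyperfilter ℕ : Filter ℕ) u

/-- square root of the time step for `N + 1` steps in `[0, T]` -/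
noncomputable def dl (T : ℝ) (N : ℕ) : ℝ := Real.sqrt (T / (N + 1))

/-- expectation at time `T` -/
noncomputable def EE (μ : Measure (Eu n)) (T : ℝ) (F : St n → ℝ) : ℝ :=
  ul fun N => Ev μ (dl T N) (N + 1) F

/-- expectation of the integral over the time interval `[0, T]` -/
noncomputable def JJ (μ : Measure (Eu n)) (T : ℝ) (G : ℝ → St n → ℝ) : ℝ :=
  ul fun N => dl T N ^ 2 * ∑ k ∈ Finset.range (N + 1), Ev μ (dl T N) k (G (k * dl T N ^ 2))

/-- states which can be reached at time `t` -/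
def Rg (B t : ℝ) (s : St n) : Prop :=
  (s.2 * s.2ᵀ - 1).PosSemidef ∧ ∀ i j, |s.2 i j| ≤ Real.exp (B * t)

/-- boundedness on the reachable states -/
def Bd (B T : ℝ) (G : ℝ → St n → ℝ) : Prop :=
  ∃ C : ℝ, ∀ t s, 0 ≤ t → t ≤ T → Rg B t s → |G t s| ≤ C

/-- boundedness on the states which can be reached at time `T` -/
def Bt (B T : ℝ) (F : St n → ℝ) : Prop := ∃ C : ℝ, ∀ s, Rg B T s → |F s| ≤ C

/-- `F` has drift `b` and diffusion coefficients `σ` -/
structure It (μ : Measure (Eu n)) (B T : ℝ) (F b : ℝ → St n → ℝ)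
    (σ : ℝ → St n → Fin n → ℝ) : Prop where
  ex : ∃ C : ℝ, 0 ≤ C ∧
    (∀ t s, 0 ≤ t → t ≤ T → Rg B t s → |F t s| ≤ C ∧ |b t s| ≤ C ∧ ∀ k, |σ t s k| ≤ C) ∧
    ∀ d t s, 0 ≤ d → d ≤ 1 → 0 ≤ t → t + d ^ 2 ≤ T → Rg B t s →
      (∀ e, |F (t + d ^ 2) (stp μ d t s e) - F t s - d * ∑ k, sg (e k) * σ t s k| ≤
        C * d ^ 2) ∧
      |av (fun e => F (t + d ^ 2) (stp μ d t s e)) - F t s - d ^ 2 * b t s| ≤ C * d ^ 3

/-- matrix version of `It` -/
def MIt (μ : Measure (Eu n)) (B T : ℝ) (F b : ℝ → St n → Mat n)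
    (σ : ℝ → St n → Fin n → Mat n) : Prop :=
  ∀ i j, It μ B T (fun t s => F t s i j) (fun t s => b t s i j) (fun t s k => σ t s k i j)

/-- the standing assumptions -/
structure Nm (μ : Measure (Eu n)) (R B : ℝ) : Prop where
  pr : IsProbabilityMeasure μ
  R0 : 0 ≤ R
  bs : BS R μ
  B1 : 2 * n * R ^ 2 ≤ B

end Pool.Agent.Lib.MP_6d896a_gt.LG
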