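import Mathlib
import Pool.Agent.Lib.MP_6d896a_gt.LG.Defs

/-!
Project LG: definitions of steps IV and V.
-/

set_option autoImplicit false

namespace Pool.Agent.Lib.MP_6d896a_gt.LG

open MeasureTheory Filter Topology Set Matrix

variable {n : ℕ}

/-- covariance at most `s` -/
def CovL (ν : Measure (Eu n)) (s : ℝ) : Prop :=
  ∀ w : Eu n, Cv ν (fun x => inner ℝ x w) (fun x => inner ℝ x w) ≤ s * ‖w‖ ^ 2

/-- the potential of step IV -/
noncomputable def fq (q : ℕ) (ν : Measure (Eu n)) : ℝ :=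
  (Am ν ^ q).trace / (1 + (Am ν ^ q).trace / 4 ^ q)

end Pool.Agent.Lib.MP_6d896a_gt.LG
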