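import Mathlib
import Pool.Agent.Lib.MP_6d896a_gt.LG.Defs
import Pool.Agent.Lib.MP_6d896a_gt.UR.Defs

/-!
Project LG: strongly convex potentials of probability densities (smooth level of the pieces PA1,
PA2, PA3).
-/

set_option autoImplicit false

namespace Pool.Agent.Lib.MP_6d896a_gt.LG

open MeasureTheory Filter Topology Set Matrix
open scoped ENNReal NNReal

variable {n : ℕ}

/-- strongly convex potentials of probability densities, with some Poincare constant `c0` -/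
structure SP (V : Eu n → ℝ) (κ Λ c0 : ℝ) : Prop where
  kpos : 0 < κ
  cd : ContDiff ℝ 2 V
  conv : ∀ x v, κ * ‖v‖ ^ 2 ≤ fderiv ℝ (fderiv ℝ V) x v v
  bd : ∀ x v, fderiv ℝ (fderiv ℝ V) x v v ≤ Λ * ‖v‖ ^ 2
  mass : UC.Ex V (fun _ => 1) = 1
  int4 : Integrable (fun x : Eu n => (1 + ‖x‖) ^ 4 * Real.exp (-V x))
  cpos : 0 < c0
  hp : UC.UR.HP V c0

/-- variance of a function with respect to `exp (-V)` -/
noncomputable def VarE (V f : Eu n → ℝ) : ℝ :=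
  UC.Ex V (fun x => f x ^ 2) - UC.Ex V f ^ 2

/-- the directional variances are at most `s` -/
def CovLe (V : Eu n → ℝ) (s : ℝ) : Prop :=
  ∀ w : Eu n, VarE V (fun x => inner ℝ x w) ≤ s * ‖w‖ ^ 2

/-- the smooth level of A-P1 -/
def P1s (n : ℕ) : Prop :=
  ∀ (V : Eu n → ℝ) (κ Λ c0 : ℝ), SP V κ Λ c0 → ∀ f : Eu n → ℝ, UC.TT f →
    VarE V f ≤ 1 / κ * UC.Df V f f

/-- the smooth level of A-P2 -/
def P2s (n : ℕ) : Prop :=
  ∀ (V : Eu n → ℝ) (κ Λ c0 s : ℝ), SP V κ Λ c0 → 0 < s → CovLe V s → ∀ f : Eu n → ℝ, UC.TT f →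
    VarE V f ≤ Real.sqrt (s / κ) * UC.Df V f f

/-- the smooth level of A-P3 -/
def P3s (n : ℕ) : Prop :=
  ∀ (V : Eu n → ℝ) (κ Λ c0 s : ℝ), SP V κ Λ c0 → 0 < s → CovLe V s → ∀ f : Eu n → ℝ, UC.TT f →
    (VarE V f - ∑ i, UC.Ex V (UC.pd i f) *
      (UC.Ex V (fun x => x i * f x) - UC.Ex V (fun x => x i) * UC.Ex V f)) ^ 2 ≤
    Real.sqrt (s / κ) / (1 + κ * Real.sqrt (s / κ)) * UC.Df V f f * VarE V f

end Pool.Agent.Lib.MP_6d896a_gt.LG
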