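import Mathlib
import Pool.Agent.Lib.MP_6d896a_gt.LG.SPDefs
import Pool.Agent.Lib.MP_6d896a_gt.UR.StepR

/-!
Project LG, piece PA1: strongly convex smooth potentials. Bochner's inequality, density of the
range of the generator, and the improved Lichnerowicz inequalities.
-/

set_option autoImplicit false
set_option linter.unusedVariables false

namespace Pool.Agent.Lib.MP_6d896a_gt.LG

open MeasureTheory Filter Topology Set
open Pool.Agent.Lib.MP_6d896a_gt.UC Pool.Agent.Lib.MP_6d896a_gt.UC.UR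
open scoped ENNReal NNReal ContDiff

variable {n : ℕ} {V f g h u : Eu n → ℝ} {κ Λ c0 : ℝ}

/-- continuous functions with finite second moment -/
def SqV (V f : Eu n → ℝ) : Prop :=
  Continuous f ∧ Integrable (fun x => f x ^ 2 * Real.exp (-V x))

/-! ### functions with finite second moment -/

lemma SqV.mul_int (hV : Continuous V) (hf : SqV V f) (hg : SqV V g) :
    Integrable (fun x => (f x * g x) * Real.exp (-V x)) := by
  refine (hf.2.add hg.2).mono' ?_ (Eventually.of_forall fun x => ?_)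
  · exact ((hf.1.mul hg.1).mul (Real.continuous_exp.comp hV.neg)).aestronglyMeasurable
  · rw [norm_mul, Real.norm_of_nonneg (Real.exp_pos _).le, Real.norm_eq_abs]
    simp only [Pi.add_apply]
    rw [← add_mul]
    refine mul_le_mul_of_nonneg_right ?_ (Real.exp_pos _).le
    rw [abs_le]
    constructor <;> nlinarith [sq_nonneg (f x - g x), sq_nonneg (f x + g x), sq_nonneg (f x),
      sq_nonneg (g x)]

lemma SqV.cmul (hf : SqV V f) (c : ℝ) : SqV V (fun x => c * f x) := by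
  refine ⟨continuous_const.mul hf.1, ?_⟩
  have e : (fun x => (c * f x) ^ 2 * Real.exp (-V x)) =
      fun x => c ^ 2 * (f x ^ 2 * Real.exp (-V x)) := by
    funext x; ring
  rw [e]
  exact hf.2.const_mul _

lemma SqV.add (hV : Continuous V) (hf : SqV V f) (hg : SqV V g) :
    SqV V (fun x => f x + g x) := by
  refine ⟨hf.1.add hg.1, ?_⟩
  have e : (fun x => (f x + g x) ^ 2 * Real.exp (-V x)) = fun x => f x ^ 2 * Real.exp (-V x) +
      (2 * ((f x * g x) * Real.exp (-V x)) + g x ^ 2 * Real.exp (-V x)) := by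
    funext x; ring
  rw [e]
  exact hf.2.add (((hf.mul_int hV hg).const_mul 2).add hg.2)

lemma SqV.sub (hV : Continuous V) (hf : SqV V f) (hg : SqV V g) :
    SqV V (fun x => f x - g x) := by
  have h1 := hf.add hV (hg.cmul (-1))
  have e : (fun x => f x + -1 * g x) = fun x => f x - g x := by
    funext x; ring
  rw [e] at h1
  exact h1

lemma SqV.of_cc (hV : Continuous V) (hf : Continuous f) (hc : HasCompactSupport f) :
    SqV V f := by
  refine ⟨hf, int_cs hV (hf.pow 2) ?_⟩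
  have : (fun x => f x ^ 2) = fun x => f x * f x := funext fun x => sq _
  rw [this]
  exact hc.mul_left

lemma SqV.of_TT (hV : Continuous V) (hf : UC.TT f) : SqV V f :=
  SqV.of_cc hV hf.continuous hf.cs

lemma SP.cont (h : SP V κ Λ c0) : Continuous V := h.cd.continuous

lemma SP.cd1 (h : SP V κ Λ c0) : ContDiff ℝ 1 V := h.cd.of_le (by norm_num)

lemma SP.int (hs : SP V κ Λ c0) : Integrable (fun x => Real.exp (-V x)) := by
  refine hs.int4.mono' (Real.continuous_exp.comp hs.cont.neg).aestronglyMeasurable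
    (Eventually.of_forall fun x => ?_)
  rw [Real.norm_of_nonneg (Real.exp_pos _).le]
  have h1 : (1 : ℝ) ≤ (1 + ‖x‖) ^ 4 := one_le_pow₀ (by linarith [norm_nonneg x])
  calc Real.exp (-V x) = 1 * Real.exp (-V x) := (one_mul _).symm
    _ ≤ (1 + ‖x‖) ^ 4 * Real.exp (-V x) := mul_le_mul_of_nonneg_right h1 (Real.exp_pos _).le

lemma SP.const (hs : SP V κ Λ c0) (c : ℝ) : SqV V (fun _ : Eu n => c) :=
  ⟨continuous_const, hs.int.const_mul _⟩

lemma SqV.int (hs : SP V κ Λ c0) (hf : SqV V f) : Integrable (fun x => f x * Real.exp (-V x)) := by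
  have h1 := hf.mul_int hs.cont (hs.const 1)
  simpa using h1

lemma SP.sq_inner (hs : SP V κ Λ c0) (w : Eu n) : SqV V (fun x : Eu n => inner ℝ x w) := by
  have hc : Continuous fun x : Eu n => (inner ℝ x w : ℝ) := by fun_prop
  refine ⟨hc, ?_⟩
  refine (hs.int4.const_mul (‖w‖ ^ 2)).mono' ?_ (Eventually.of_forall fun x => ?_)
  · exact ((hc.pow 2).mul (Real.continuous_exp.comp hs.cont.neg)).aestronglyMeasurable
  · rw [Real.norm_of_nonneg (by positivity), ← mul_assoc]
    refine mul_le_mul_of_nonneg_right ?_ (Real.exp_pos _).le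
    have h1 : (inner ℝ x w : ℝ) ^ 2 ≤ (‖x‖ * ‖w‖) ^ 2 := by
      rw [← sq_abs]
      exact pow_le_pow_left₀ (abs_nonneg _) (abs_real_inner_le_norm x w) 2
    have h2 : ‖x‖ ^ 2 ≤ (1 + ‖x‖) ^ 4 := by
      have h3 := norm_nonneg x
      have h4 : ‖x‖ ^ 2 ≤ (1 + ‖x‖) ^ 2 := pow_le_pow_left₀ h3 (by linarith) 2
      have h5 : (1 + ‖x‖) ^ 2 ≤ (1 + ‖x‖) ^ 4 := pow_le_pow_right₀ (by linarith) (by norm_num)
      linarith
    calc (inner ℝ x w : ℝ) ^ 2 ≤ (‖x‖ * ‖w‖) ^ 2 := h1
      _ = ‖w‖ ^ 2 * ‖x‖ ^ 2 := by ring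
      _ ≤ ‖w‖ ^ 2 * (1 + ‖x‖) ^ 4 := mul_le_mul_of_nonneg_left h2 (sq_nonneg _)

/-- Cauchy-Schwarz -/
lemma SqV.cs (hV : Continuous V) (hf : SqV V f) (hg : SqV V g) :
    |UC.Ex V (fun x => f x * g x)| ≤
      Real.sqrt (UC.Ex V (fun x => f x ^ 2)) * Real.sqrt (UC.Ex V (fun x => g x ^ 2)) := by
  rw [← Real.sqrt_mul (Ex_nonneg fun x => sq_nonneg _)]
  exact Real.abs_le_sqrt (Ex_cs hf.2 hg.2 (hf.mul_int hV hg))

lemma SP.Ex_add (hs : SP V κ Λ c0) (hf : SqV V f) (hg : SqV V g) :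
    UC.Ex V (fun x => f x + g x) = UC.Ex V f + UC.Ex V g :=
  UC.Ex_add (hf.int hs) (hg.int hs)

lemma SP.Ex_sub (hs : SP V κ Λ c0) (hf : SqV V f) (hg : SqV V g) :
    UC.Ex V (fun x => f x - g x) = UC.Ex V f - UC.Ex V g :=
  UC.Ex_sub (hf.int hs) (hg.int hs)

lemma SP.Ex_const (hs : SP V κ Λ c0) (c : ℝ) : UC.Ex V (fun _ => c) = c := by
  have h1 := Ex_const_mul V (fun _ => (1 : ℝ)) c
  rw [hs.mass] at h1
  simpa using h1

lemma SP.Ex_mul_sub (hs : SP V κ Λ c0) (hf : SqV V f) (hg : SqV V g) (hh : SqV V h) :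
    UC.Ex V (fun x => f x * (g x - h x)) =
      UC.Ex V (fun x => f x * g x) - UC.Ex V (fun x => f x * h x) := by
  rw [← UC.Ex_sub (hf.mul_int hs.cont hg) (hf.mul_int hs.cont hh)]
  congr 1
  funext x
  ring

lemma SP.Ex_mul_add (hs : SP V κ Λ c0) (hf : SqV V f) (hg : SqV V g) (hh : SqV V h) :
    UC.Ex V (fun x => f x * (g x + h x)) =
      UC.Ex V (fun x => f x * g x) + UC.Ex V (fun x => f x * h x) := by
  rw [← UC.Ex_add (hf.mul_int hs.cont hg) (hf.mul_int hs.cont hh)]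
  congr 1
  funext x
  ring

lemma SP.Ex_mul_const (hs : SP V κ Λ c0) (c : ℝ) :
    UC.Ex V (fun x => f x * c) = c * UC.Ex V f := by
  rw [← Ex_const_mul]
  congr 1
  funext x
  ring

/-- the variance as a second moment -/
lemma SP.VarE_eq (hs : SP V κ Λ c0) (hf : SqV V f) :
    UC.Ex V (fun x => (f x - UC.Ex V f) ^ 2) = VarE V f := by
  have hc := hs.const (UC.Ex V f)
  have e1 : (fun x => (f x - UC.Ex V f) ^ 2) = fun x => (f x ^ 2 - 2 * UC.Ex V f * f x) +
      (UC.Ex V f) ^ 2 := by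
    funext x; ring
  have i1 : Integrable (fun x => (f x ^ 2 - 2 * UC.Ex V f * f x) * Real.exp (-V x)) := by
    have := hf.2.sub (((hf.cmul (2 * UC.Ex V f)).int hs))
    refine this.congr (Eventually.of_forall fun x => ?_)
    simp only [Pi.sub_apply]
    ring
  have i2 : Integrable (fun x => (UC.Ex V f) ^ 2 * Real.exp (-V x)) := hs.int.const_mul _
  rw [e1, UC.Ex_add i1 i2, UC.Ex_sub hf.2 ((hf.cmul (2 * UC.Ex V f)).int hs), Ex_const_mul,
    hs.Ex_const]
  unfold VarE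
  ring

lemma SP.VarE_nonneg (hs : SP V κ Λ c0) (hf : SqV V f) : 0 ≤ VarE V f := by
  rw [← hs.VarE_eq hf]
  exact Ex_nonneg fun x => sq_nonneg _

lemma SP.VarE_le (hs : SP V κ Λ c0) (f : Eu n → ℝ) : VarE V f ≤ UC.Ex V (fun x => f x ^ 2) := by
  unfold VarE
  linarith [sq_nonneg (UC.Ex V f)]

/-- covariance bounded by the variances, one function centred -/
lemma SP.cov_le (hs : SP V κ Λ c0) (hf : SqV V f) (hg : SqV V g) (h0 : UC.Ex V g = 0) :
    |UC.Ex V (fun x => f x * g x)| ≤ Real.sqrt (VarE V f) * Real.sqrt (UC.Ex V (fun x => g x ^ 2)) := by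
  have hc := hs.const (UC.Ex V f)
  have hfc : SqV V (fun x => f x - UC.Ex V f) := hf.sub hs.cont hc
  have h1 := hfc.cs hs.cont hg
  rw [hs.VarE_eq hf] at h1
  have e : UC.Ex V (fun x => (f x - UC.Ex V f) * g x) = UC.Ex V (fun x => f x * g x) := by
    have e1 : (fun x => (f x - UC.Ex V f) * g x) = fun x => g x * (f x - UC.Ex V f) := by
      funext x; ring
    rw [e1, hs.Ex_mul_sub hg hf hc, hs.Ex_mul_const, h0, mul_zero, sub_zero]
    congr 1
    funext x
    ring
  rwa [e] at h1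

lemma SP.LL_sq (hs : SP V κ Λ c0) (hu : UC.TT u) : SqV V (LL V u) :=
  SqV.of_cc hs.cont (LL_cont hs.cd1 hu).1 (LL_cont hs.cd1 hu).2

/-! ### Bochner's inequality -/

theorem SP.bochner (hs : SP V κ Λ c0) (hu : UC.TT u) :
    ∑ j, UC.Df V (pd j u) (pd j u) + κ * UC.Df V u u ≤ UC.Ex V (fun x => LL V u x ^ 2) :=
  bochR hs.cd hs.conv hu

/-! ### density -/

/-- density of the range of `l - L` -/
theorem esa_sq (hV : ContDiff ℝ 2 V) {l : ℝ} (hl : 0 < l) (hg : SqV V g) {ε : ℝ} (hε : 0 < ε) :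
    ∃ u : Eu n → ℝ, UC.TT u ∧ UC.Ex V (fun x => (l * u x - LL V u x - g x) ^ 2) ≤ ε := by
  have hV1 : ContDiff ℝ 1 V := hV.of_le (by norm_num)
  have htop : (esaK V l).topologicalClosure = ⊤ :=
    (Submodule.topologicalClosure_eq_top_iff).2 (esaK_orth hV hl)
  have hGc : Continuous (fun x => g x * Real.exp (-V x / 2)) :=
    hg.1.mul (Real.continuous_exp.comp (hV1.continuous.neg.div_const 2))
  have hee : ∀ x, Real.exp (-V x) = Real.exp (-V x / 2) * Real.exp (-V x / 2) := by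
    intro x
    rw [← Real.exp_add]
    congr 1
    ring
  have hGm : MemLp (fun x => g x * Real.exp (-V x / 2)) 2 volume := by
    rw [memLp_two_iff_integrable_sq hGc.aestronglyMeasurable]
    refine hg.2.congr (Eventually.of_forall fun x => ?_)
    show g x ^ 2 * Real.exp (-V x) = (g x * Real.exp (-V x / 2)) ^ 2
    rw [hee]
    ring
  have hmem : hGm.toLp _ ∈ closure (esaK V l : Set (Lp ℝ 2 (volume : Measure (Eu n)))) := by
    rw [← Submodule.topologicalClosure_coe, htop]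
    trivial
  obtain ⟨p, ⟨u, hu, hh⟩, hd⟩ := Metric.mem_closure_iff.1 hmem (Real.sqrt ε) (Real.sqrt_pos.2 hε)
  refine ⟨u, hu, ?_⟩
  have h1 : ‖hGm.toLp _ - p‖ ^ 2 ≤ ε := by
    rw [dist_eq_norm] at hd
    calc ‖hGm.toLp _ - p‖ ^ 2 ≤ Real.sqrt ε ^ 2 :=
          pow_le_pow_left₀ (norm_nonneg _) hd.le 2
      _ = ε := Real.sq_sqrt hε.le
  rw [← real_inner_self_eq_norm_sq, L2.inner_def] at h1
  refine le_trans (le_of_eq ?_) h1
  unfold UC.Ex
  refine integral_congr_ae ?_
  filter_upwards [hGm.coeFn_toLp, hh, Lp.coeFn_sub (hGm.toLp _) p] with x h2 h3 h4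
  rw [h4]
  simp only [RCLike.inner_apply, conj_trivial, Pi.sub_apply]
  rw [h2, h3]
  unfold esaR
  rw [hee]
  ring

private lemma pa1_real {l c0 δ M W D N : ℝ} (hl : 0 < l) (hc0 : 0 < c0) (hW : 0 ≤ W)
    (hD : 0 ≤ D) (hWD : W ≤ c0 * D) (hDN : D ≤ Real.sqrt W * Real.sqrt N) (hN0 : 0 ≤ N)
    (hN : N ≤ 2 * (δ ^ 2 + M)) : l ^ 2 * W ≤ l ^ 2 * (c0 ^ 2 * (2 * (δ ^ 2 + M))) := by
  refine mul_le_mul_of_nonneg_left ?_ (sq_nonneg _)
  have h1 : D ^ 2 ≤ W * N := by
    have h2 : D ^ 2 ≤ (Real.sqrt W * Real.sqrt N) ^ 2 := pow_le_pow_left₀ hD hDN 2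
    rwa [mul_pow, Real.sq_sqrt hW, Real.sq_sqrt hN0] at h2
  have h3 : D ≤ c0 * N := by
    by_contra hc
    push Not at hc
    have h4 : 0 < D := lt_of_le_of_lt (by positivity) hc
    have h5 : D ^ 2 ≤ c0 * D * N := h1.trans (mul_le_mul_of_nonneg_right hWD hN0)
    nlinarith
  calc W ≤ c0 * D := hWD
    _ ≤ c0 * (c0 * N) := mul_le_mul_of_nonneg_left h3 hc0.le
    _ = c0 ^ 2 * N := by ring
    _ ≤ c0 ^ 2 * (2 * (δ ^ 2 + M)) := mul_le_mul_of_nonneg_left hN (sq_nonneg _)

/-- density of the range of the generator -/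
theorem SP.dense_sq (hs : SP V κ Λ c0) (hf : SqV V f) {ε : ℝ} (hε : 0 < ε) :
    ∃ u : Eu n → ℝ, UC.TT u ∧
      UC.Ex V (fun x => (LL V u x + (f x - UC.Ex V f)) ^ 2) ≤ ε := by
  have hc0 := hs.cpos
  have hP := hs.hp
  have hV := hs.cont
  set M := UC.Ex V (fun x => f x ^ 2) with hM
  have hM0 : 0 ≤ M := Ex_nonneg fun x => sq_nonneg _
  -- the parameters
  obtain ⟨δ, hδ, hδ1, hδε⟩ : ∃ δ : ℝ, 0 < δ ∧ δ ≤ 1 ∧ 2 * δ ^ 2 ≤ ε / 2 := by
    refine ⟨min 1 (ε / 4), lt_min one_pos (by positivity), min_le_left _ _, ?_⟩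
    have h1 : min 1 (ε / 4) ≤ 1 := min_le_left _ _
    have h2 : min 1 (ε / 4) ≤ ε / 4 := min_le_right _ _
    have h3 : 0 < min 1 (ε / 4) := lt_min one_pos (by positivity)
    nlinarith
  obtain ⟨l, hl, hlε⟩ : ∃ l : ℝ, 0 < l ∧ 2 * (l ^ 2 * (c0 ^ 2 * (2 * (δ ^ 2 + M)))) ≤ ε / 2 := by
    set q := c0 ^ 2 * (2 * (δ ^ 2 + M)) with hq
    have hq0 : 0 < q := by positivity
    refine ⟨Real.sqrt (ε / (4 * q)), Real.sqrt_pos.2 (by positivity), ?_⟩
    rw [Real.sq_sqrt (by positivity)]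
    apply le_of_eq
    field_simp
    ring
  obtain ⟨u, hu, hres⟩ := esa_sq hs.cd hl hf (pow_pos hδ 2)
  refine ⟨u, hu, ?_⟩
  set r : Eu n → ℝ := fun x => l * u x - LL V u x - f x with hr
  have su : SqV V u := SqV.of_TT hV hu
  have sL : SqV V (LL V u) := hs.LL_sq hu
  have sr : SqV V r := ((su.cmul l).sub hV sL).sub hV hf
  have srf : SqV V (fun x => r x + f x) := sr.add hV hf
  have hLL0 : UC.Ex V (LL V u) = 0 := Ex_LL hs.cd1 hu
  have hmr : UC.Ex V r = l * UC.Ex V u - UC.Ex V f := by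
    rw [hr, hs.Ex_sub ((su.cmul l).sub hV sL) hf, hs.Ex_sub (su.cmul l) sL, Ex_const_mul, hLL0]
    ring
  set W := VarE V u with hW
  have hW0 : 0 ≤ W := hs.VarE_nonneg su
  have hWD : W ≤ c0 * UC.Df V u u := hP u hu
  have hD0 : 0 ≤ UC.Df V u u := Df_nonneg V u
  -- the Dirichlet form
  have hgr : UC.Ex V (fun x => LL V u x * u x) = - UC.Df V u u := green hs.cd1 hu hu
  set N := UC.Ex V (fun x => (r x + f x - l * u x) ^ 2) with hN
  have hDN : UC.Df V u u ≤ Real.sqrt W * Real.sqrt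
      (UC.Ex V (fun x => (r x + f x) ^ 2)) := by
    have hc := hs.const (UC.Ex V u)
    have suc : SqV V (fun x => u x - UC.Ex V u) := su.sub hV hc
    have h1 := suc.cs hV srf
    rw [hs.VarE_eq su] at h1
    have h2 : UC.Ex V (fun x => (u x - UC.Ex V u) * (r x + f x)) =
        UC.Df V u u + l * W := by
      have e1 : (fun x => (u x - UC.Ex V u) * (r x + f x)) =
          fun x => (u x - UC.Ex V u) * (l * u x - LL V u x) := by
        funext x
        rw [hr]
        ring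
      rw [e1, hs.Ex_mul_sub suc (su.cmul l) sL]
      have e2 : UC.Ex V (fun x => (u x - UC.Ex V u) * (l * u x)) = l * W := by
        have e3 : (fun x => (u x - UC.Ex V u) * (l * u x)) =
            fun x => (l * u x) * (u x - UC.Ex V u) := by
          funext x; ring
        rw [e3, hs.Ex_mul_sub (su.cmul l) su hc, hs.Ex_mul_const, Ex_const_mul]
        have e4 : (fun x => l * u x * u x) = fun x => l * u x ^ 2 := by
          funext x; ring
        rw [e4, Ex_const_mul, hW]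
        unfold VarE
        ring
      have e5 : UC.Ex V (fun x => (u x - UC.Ex V u) * LL V u x) = - UC.Df V u u := by
        have e3 : (fun x => (u x - UC.Ex V u) * LL V u x) =
            fun x => LL V u x * (u x - UC.Ex V u) := by
          funext x; ring
        rw [e3, hs.Ex_mul_sub sL su hc, hs.Ex_mul_const, hLL0, hgr]
        ring
      rw [e2, e5]
      ring
    rw [h2] at h1
    have h3 := le_abs_self (UC.Df V u u + l * W)
    have h4 : 0 ≤ l * W := by positivity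
    linarith
  have hN' : UC.Ex V (fun x => (r x + f x) ^ 2) ≤ 2 * (δ ^ 2 + M) := by
    have i1 : Integrable (fun x => (2 * (r x ^ 2 + f x ^ 2)) * Real.exp (-V x)) := by
      refine ((sr.2.add hf.2).const_mul 2).congr (Eventually.of_forall fun x => ?_)
      simp only [Pi.add_apply]
      ring
    refine (Ex_mono srf.2 i1 fun x => ?_).trans ?_
    · nlinarith [sq_nonneg (r x - f x)]
    · rw [Ex_const_mul, UC.Ex_add sr.2 hf.2]
      have : UC.Ex V (fun x => r x ^ 2) ≤ δ ^ 2 := hres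
      linarith
  have hlW := pa1_real hl hc0 hW0 hD0 hWD hDN (Ex_nonneg fun x => sq_nonneg _) hN'
  -- conclusion
  have hru : SqV V (fun x => r x - UC.Ex V r) := sr.sub hV (hs.const _)
  have huu : SqV V (fun x => u x - UC.Ex V u) := su.sub hV (hs.const _)
  have hid : ∀ x, LL V u x + (f x - UC.Ex V f) =
      l * (u x - UC.Ex V u) - (r x - UC.Ex V r) := by
    intro x
    rw [hmr, hr]
    ring
  have i1 : Integrable (fun x => (2 * (l ^ 2 * (u x - UC.Ex V u) ^ 2) +
      2 * (r x - UC.Ex V r) ^ 2) * Real.exp (-V x)) := by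
    refine (((huu.2.const_mul (2 * l ^ 2))).add (hru.2.const_mul 2)).congr
      (Eventually.of_forall fun x => ?_)
    simp only [Pi.add_apply]
    ring
  have i2 : Integrable (fun x => (LL V u x + (f x - UC.Ex V f)) ^ 2 * Real.exp (-V x)) :=
    (sL.add hV (hf.sub hV (hs.const _))).2
  refine (Ex_mono i2 i1 fun x => ?_).trans ?_
  · rw [hid]
    nlinarith [sq_nonneg (l * (u x - UC.Ex V u) + (r x - UC.Ex V r))]
  · have i3 : Integrable (fun x => 2 * (l ^ 2 * (u x - UC.Ex V u) ^ 2) * Real.exp (-V x)) := by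
      refine (huu.2.const_mul (2 * l ^ 2)).congr (Eventually.of_forall fun x => ?_)
      ring
    have i4 : Integrable (fun x => 2 * (r x - UC.Ex V r) ^ 2 * Real.exp (-V x)) := by
      refine (hru.2.const_mul 2).congr (Eventually.of_forall fun x => ?_)
      ring
    rw [UC.Ex_add i3 i4, Ex_const_mul, Ex_const_mul, Ex_const_mul, hs.VarE_eq su, hs.VarE_eq sr]
    have h1 : VarE V r ≤ δ ^ 2 := (hs.VarE_le r).trans hres
    linarith

/-- density of the range of the generator, for test functions -/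
theorem SP.dense (hs : SP V κ Λ c0) (hf : UC.TT f) {ε : ℝ} (hε : 0 < ε) :
    ∃ u : Eu n → ℝ, UC.TT u ∧
      UC.Ex V (fun x => (LL V u x + (f x - UC.Ex V f)) ^ 2) ≤ ε :=
  hs.dense_sq (SqV.of_TT hs.cont hf) hε

/-! ### first moments of the gradient -/

private lemma pa_pdx (j k : Fin n) (x : Eu n) :
    pd k (fun x : Eu n => x j) x = if k = j then 1 else 0 := by
  have h1 : HasFDerivAt (fun x : Eu n => x j)
      (EuclideanSpace.proj (𝕜 := ℝ) j : Eu n →L[ℝ] ℝ) x :=
    (EuclideanSpace.proj (𝕜 := ℝ) j : Eu n →L[ℝ] ℝ).hasFDerivAt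
  unfold pd
  rw [h1.fderiv]
  by_cases hk : k = j
  · subst hk; simp [ej]
  · simp [ej, hk, Ne.symm hk]

lemma SP.sq_coord (hs : SP V κ Λ c0) (j : Fin n) : SqV V (fun x : Eu n => x j) := by
  have h := hs.sq_inner (ej j)
  have e : (fun x : Eu n => (inner ℝ x (ej j) : ℝ)) = fun x => x j := by
    funext x
    simp [ej, EuclideanSpace.inner_single_right]
  rwa [e] at h

lemma SP.sq_pd (hs : SP V κ Λ c0) (hu : UC.TT u) (j : Fin n) : SqV V (pd j u) :=
  SqV.of_TT hs.cont (hu.pd j)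

/-- integration by parts against a coordinate -/
theorem SP.Ex_pd (hs : SP V κ Λ c0) (hu : UC.TT u) (j : Fin n) :
    UC.Ex V (pd j u) = - UC.Ex V (fun x => x j * LL V u x) := by
  have hV := hs.cont
  have hV1 := hs.cd1
  have hxc : Continuous fun x : Eu n => x j := by fun_prop
  have hxd : ContDiff ℝ 1 fun x : Eu n => x j := by fun_prop
  have hpdV : ∀ k, Continuous (pd k V) := fun k =>
    (UC.pd_contDiff (m := 0) hV1 (by norm_num) k).continuous
  have h1 : ∀ k, UC.Ex V (fun x => pd k (fun x : Eu n => x j) x * pd k u x) =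
      - UC.Ex V (fun x => x j * (pd k (pd k u) x - pd k V x * pd k u x)) := fun k =>
    ibp hV1 hxd ((hu.pd k).cd.of_le (by exact_mod_cast le_top)) (hu.pd k).cs k
  have h2 : ∑ k, UC.Ex V (fun x => pd k (fun x : Eu n => x j) x * pd k u x) =
      UC.Ex V (pd j u) := by
    rw [Finset.sum_eq_single j]
    · congr 1
      funext x
      rw [pa_pdx]; simp
    · intro k _ hk
      have : (fun x => pd k (fun x : Eu n => x j) x * pd k u x) = fun _ => (0 : ℝ) := by
        funext x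
        rw [pa_pdx]; simp [hk]
      rw [this]
      unfold UC.Ex
      simp
    · intro h; exact absurd (Finset.mem_univ j) h
  rw [← h2, Finset.sum_congr rfl fun k _ => h1 k, Finset.sum_neg_distrib]
  congr 1
  rw [← Ex_sum (V := V) Finset.univ
    (F := fun k x => x j * (pd k (pd k u) x - pd k V x * pd k u x))
    fun k _ => int_cs hV (hxc.mul (((hu.pd k).pd k).continuous.sub
      ((hpdV k).mul (hu.pd k).continuous)))
      ((((hu.pd k).pd k).cs.sub (hu.pd k).cs.mul_left).mul_left)]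
  congr 1
  funext x
  rw [← Finset.mul_sum, Finset.sum_sub_distrib]
  rfl

lemma SP.sum_coord (hs : SP V κ Λ c0) (hg : SqV V g) (w : Eu n) :
    UC.Ex V (fun x => inner ℝ x w * g x) = ∑ j, w j * UC.Ex V (fun x => x j * g x) := by
  have h1 : ∀ j : Fin n, w j * UC.Ex V (fun x => x j * g x) =
      UC.Ex V (fun x => w j * (x j * g x)) := fun j => (Ex_const_mul V _ _).symm
  rw [Finset.sum_congr rfl fun j _ => h1 j, ← Ex_sum (V := V) Finset.univ
    (F := fun j x => w j * (x j * g x)) fun j _ => by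
      refine (((hs.sq_coord j).mul_int hs.cont hg).const_mul (w j)).congr
        (Eventually.of_forall fun x => ?_)
      ring]
  congr 1
  funext x
  rw [PiLp.inner_apply, Finset.sum_mul]
  refine Finset.sum_congr rfl fun j _ => ?_
  simp only [RCLike.inner_apply, conj_trivial]
  ring

/-- the vector of the covariances with the coordinates -/
theorem SP.vec (hs : SP V κ Λ c0) {s : ℝ} (hs0 : 0 ≤ s) (hc : CovLe V s) (hg : SqV V g)
    (h0 : UC.Ex V g = 0) :
    ∑ j : Fin n, (UC.Ex V (fun x => x j * g x)) ^ 2 ≤ s * UC.Ex V (fun x => g x ^ 2) := by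
  set w : Eu n := WithLp.toLp 2 (fun j => UC.Ex V (fun x => x j * g x)) with hw
  set A := ∑ j : Fin n, (UC.Ex V (fun x => x j * g x)) ^ 2 with hA
  set G := UC.Ex V (fun x => g x ^ 2) with hG
  have hA0 : 0 ≤ A := Finset.sum_nonneg fun j _ => sq_nonneg _
  have hG0 : 0 ≤ G := Ex_nonneg fun x => sq_nonneg _
  have hwj : ∀ j, w j = UC.Ex V (fun x => x j * g x) := fun j => rfl
  have hwn : ‖w‖ ^ 2 = A := by
    rw [EuclideanSpace.norm_sq_eq]
    refine Finset.sum_congr rfl fun j _ => ?_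
    rw [hwj, Real.norm_eq_abs, sq_abs]
  have h1 : UC.Ex V (fun x => inner ℝ x w * g x) = A := by
    rw [hs.sum_coord hg w, hA]
    refine Finset.sum_congr rfl fun j _ => ?_
    rw [hwj]
    ring
  have h2 := hs.cov_le (hs.sq_inner w) hg h0
  rw [h1, abs_of_nonneg hA0] at h2
  have h3 : A ^ 2 ≤ (s * A) * G := by
    have h4 : A ^ 2 ≤ (Real.sqrt (VarE V fun x => inner ℝ x w) * Real.sqrt G) ^ 2 :=
      pow_le_pow_left₀ hA0 h2 2
    rw [mul_pow, Real.sq_sqrt (hs.VarE_nonneg (hs.sq_inner w)), Real.sq_sqrt hG0] at h4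
    refine h4.trans (mul_le_mul_of_nonneg_right ?_ hG0)
    have := hc w
    rwa [hwn] at this
  rcases hA0.eq_or_lt with h4 | h4
  · rw [← h4]
    positivity
  · by_contra h5
    push Not at h5
    nlinarith

/-! ### Cauchy-Schwarz for fields -/

lemma exCS (hV : Continuous V) {a b : Fin n → Eu n → ℝ} (ha : ∀ j, SqV V (a j))
    (hb : ∀ j, SqV V (b j)) :
    (∑ j, UC.Ex V (fun x => a j x * b j x)) ^ 2 ≤
      (∑ j, UC.Ex V (fun x => a j x ^ 2)) * ∑ j, UC.Ex V (fun x => b j x ^ 2) := by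
  have h1 : |∑ j, UC.Ex V (fun x => a j x * b j x)| ≤
      ∑ j, Real.sqrt (UC.Ex V (fun x => a j x ^ 2)) * Real.sqrt (UC.Ex V (fun x => b j x ^ 2)) :=
    (Finset.abs_sum_le_sum_abs _ _).trans (Finset.sum_le_sum fun j _ => (ha j).cs hV (hb j))
  have h2 := Finset.sum_mul_sq_le_sq_mul_sq Finset.univ
    (fun j => Real.sqrt (UC.Ex V (fun x => a j x ^ 2)))
    (fun j => Real.sqrt (UC.Ex V (fun x => b j x ^ 2)))
  have h3 : ∀ c : Fin n → Eu n → ℝ, ∑ j, Real.sqrt (UC.Ex V (fun x => c j x ^ 2)) ^ 2 =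
      ∑ j, UC.Ex V (fun x => c j x ^ 2) := fun c =>
    Finset.sum_congr rfl fun j _ => Real.sq_sqrt (Ex_nonneg fun x => sq_nonneg _)
  rw [h3, h3] at h2
  refine le_trans ?_ h2
  rw [← sq_abs]
  exact pow_le_pow_left₀ (abs_nonneg _) h1 2

lemma Df_self (V f : Eu n → ℝ) : UC.Df V f f = ∑ j, UC.Ex V (fun x => pd j f x ^ 2) := by
  unfold UC.Df
  refine Finset.sum_congr rfl fun j _ => ?_
  congr 1
  funext x
  ring

theorem SP.Df_cs (hs : SP V κ Λ c0) (hu : UC.TT u) (hf : UC.TT f) :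
    UC.Df V u f ^ 2 ≤ UC.Df V u u * UC.Df V f f := by
  rw [Df_self V u, Df_self V f]
  exact exCS hs.cont (hs.sq_pd hu) (hs.sq_pd hf)

/-- the centred form -/
theorem SP.Df_cs' (hs : SP V κ Λ c0) (hu : UC.TT u) (hf : UC.TT f) :
    (UC.Df V u f - ∑ j, UC.Ex V (pd j f) * UC.Ex V (pd j u)) ^ 2 ≤
      (UC.Df V u u - ∑ j, UC.Ex V (pd j u) ^ 2) * UC.Df V f f := by
  have hc : ∀ j, SqV V (fun x => pd j u x - UC.Ex V (pd j u)) := fun j =>
    (hs.sq_pd hu j).sub hs.cont (hs.const _)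
  have h1 := exCS hs.cont hc (hs.sq_pd hf)
  have e1 : ∑ j, UC.Ex V (fun x => (pd j u x - UC.Ex V (pd j u)) * pd j f x) =
      UC.Df V u f - ∑ j, UC.Ex V (pd j f) * UC.Ex V (pd j u) := by
    unfold UC.Df
    rw [← Finset.sum_sub_distrib]
    refine Finset.sum_congr rfl fun j _ => ?_
    have e2 : (fun x => (pd j u x - UC.Ex V (pd j u)) * pd j f x) =
        fun x => pd j f x * (pd j u x - UC.Ex V (pd j u)) := by
      funext x; ring
    rw [e2, hs.Ex_mul_sub (hs.sq_pd hf j) (hs.sq_pd hu j) (hs.const _), hs.Ex_mul_const]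
    have e3 : (fun x => pd j f x * pd j u x) = fun x => pd j u x * pd j f x := by
      funext x; ring
    rw [e3]
    ring
  have e4 : ∑ j, UC.Ex V (fun x => (pd j u x - UC.Ex V (pd j u)) ^ 2) =
      UC.Df V u u - ∑ j, UC.Ex V (pd j u) ^ 2 := by
    rw [Df_self, ← Finset.sum_sub_distrib]
    refine Finset.sum_congr rfl fun j _ => ?_
    rw [hs.VarE_eq (hs.sq_pd hu j)]
    rfl
  rw [e1, e4, ← Df_self] at h1
  exact h1

/-! ### the core -/

/-- the approximate solution of the Poisson equation -/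
theorem SP.core (hs : SP V κ Λ c0) (hf : UC.TT f) {δ : ℝ} (hδ : 0 < δ) :
    ∃ u : Eu n → ℝ, UC.TT u ∧
      UC.Ex V (fun x => (LL V u x + (f x - UC.Ex V f)) ^ 2) ≤ δ ^ 2 ∧
      UC.Ex V (fun x => LL V u x ^ 2) ≤ (Real.sqrt (VarE V f) + δ) ^ 2 ∧
      |UC.Df V u f - VarE V f| ≤ δ * Real.sqrt (VarE V f) := by
  obtain ⟨u, hu, hr⟩ := hs.dense hf (pow_pos hδ 2)
  have hV := hs.cont
  have sf : SqV V f := SqV.of_TT hV hf
  have sL : SqV V (LL V u) := hs.LL_sq hu
  have hc := hs.const (UC.Ex V f)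
  have sfc : SqV V (fun x => f x - UC.Ex V f) := sf.sub hV hc
  set r : Eu n → ℝ := fun x => LL V u x + (f x - UC.Ex V f) with hrd
  have sr : SqV V r := sL.add hV sfc
  have hLL0 : UC.Ex V (LL V u) = 0 := Ex_LL hs.cd1 hu
  have hfc0 : UC.Ex V (fun x => f x - UC.Ex V f) = 0 := by
    rw [hs.Ex_sub sf hc, hs.Ex_const, sub_self]
  have hr0 : UC.Ex V r = 0 := by
    rw [hrd, hs.Ex_add sL sfc, hLL0, hfc0, add_zero]
  have hv0 := hs.VarE_nonneg sf
  have hrs : Real.sqrt (UC.Ex V (fun x => r x ^ 2)) ≤ δ := by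
    rw [← Real.sqrt_sq hδ.le]
    exact Real.sqrt_le_sqrt hr
  have hcr : |UC.Ex V (fun x => f x * r x)| ≤ δ * Real.sqrt (VarE V f) := by
    have h1 := hs.cov_le sf sr hr0
    refine h1.trans ?_
    rw [mul_comm]
    exact mul_le_mul_of_nonneg_right hrs (Real.sqrt_nonneg _)
  have hmr : UC.Ex V (fun x => r x * UC.Ex V f) = 0 := by
    rw [hs.Ex_mul_const, hr0, mul_zero]
  have hrfc : UC.Ex V (fun x => r x * (f x - UC.Ex V f)) = UC.Ex V (fun x => f x * r x) := by
    rw [hs.Ex_mul_sub sr sf hc, hmr, sub_zero]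
    congr 1
    funext x
    ring
  refine ⟨u, hu, hr, ?_, ?_⟩
  · have e1 : (fun x => LL V u x ^ 2) = fun x => (r x ^ 2 - 2 * (r x * (f x - UC.Ex V f))) +
        (f x - UC.Ex V f) ^ 2 := by
      funext x
      rw [hrd]
      ring
    have i1 : Integrable (fun x => 2 * (r x * (f x - UC.Ex V f)) * Real.exp (-V x)) := by
      refine ((sr.mul_int hV sfc).const_mul 2).congr (Eventually.of_forall fun x => ?_)
      ring
    have i2 : Integrable (fun x => (r x ^ 2 - 2 * (r x * (f x - UC.Ex V f))) *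
        Real.exp (-V x)) := by
      refine (sr.2.sub i1).congr (Eventually.of_forall fun x => ?_)
      simp only [Pi.sub_apply]
      ring
    rw [e1, UC.Ex_add i2 sfc.2, UC.Ex_sub sr.2 i1, Ex_const_mul, hs.VarE_eq sf, hrfc]
    have h1 := neg_abs_le (UC.Ex V (fun x => f x * r x))
    have h2 : (Real.sqrt (VarE V f) + δ) ^ 2 = VarE V f + 2 * (δ * Real.sqrt (VarE V f)) +
        δ ^ 2 := by
      rw [add_sq, Real.sq_sqrt hv0]
      ring
    rw [h2]
    linarith
  · have h1 : UC.Ex V (fun x => LL V u x * f x) = - UC.Df V u f := green hs.cd1 hu hf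
    have h2 : UC.Ex V (fun x => LL V u x * f x) = UC.Ex V (fun x => f x * r x) - VarE V f := by
      have e1 : (fun x => LL V u x * f x) = fun x => f x * r x - f x * (f x - UC.Ex V f) := by
        funext x
        rw [hrd]
        ring
      have e2 : UC.Ex V (fun x => f x * (f x - UC.Ex V f)) = VarE V f := by
        rw [hs.Ex_mul_sub sf sf hc, hs.Ex_mul_const]
        have e3 : (fun x => f x * f x) = fun x => f x ^ 2 := by
          funext x; ring
        rw [e3]
        unfold VarE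
        ring
      rw [e1, UC.Ex_sub (sf.mul_int hV sr) (sf.mul_int hV sfc), e2]
    have h3 : UC.Df V u f - VarE V f = - UC.Ex V (fun x => f x * r x) := by
      linarith
    rw [h3, abs_neg]
    exact hcr

private lemma pa_lim {a b c : ℝ} (h : ∀ δ : ℝ, 0 < δ → a ≤ b + δ * c) : a ≤ b := by
  have h1 : Tendsto (fun δ : ℝ => b + δ * c) (𝓝[>] 0) (𝓝 (b + 0 * c)) := by
    refine Tendsto.mono_left ?_ nhdsWithin_le_nhds
    exact (continuous_const.add (continuous_id.mul continuous_const)).tendsto 0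
  rw [zero_mul, add_zero] at h1
  refine ge_of_tendsto h1 ?_
  filter_upwards [self_mem_nhdsWithin] with δ hδ
  exact h δ hδ

/-- a bound of the Dirichlet form of the solutions gives a Poincare inequality -/
private lemma SP.pa_close (hs : SP V κ Λ c0) (hf : UC.TT f) {c : ℝ} (hc : 0 ≤ c)
    (h : ∀ u : Eu n → ℝ, UC.TT u → UC.Df V u u ≤ c * UC.Ex V (fun x => LL V u x ^ 2)) :
    VarE V f ≤ c * UC.Df V f f := by
  set v := VarE V f with hv
  have hv0 : 0 ≤ v := hs.VarE_nonneg (SqV.of_TT hs.cont hf)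
  set E := UC.Df V f f with hE
  have hE0 : 0 ≤ E := Df_nonneg V f
  have hcE : 0 ≤ c * E := mul_nonneg hc hE0
  have key : v ≤ Real.sqrt (c * E) * Real.sqrt v := by
    refine pa_lim (c := Real.sqrt (c * E) + Real.sqrt v) fun δ hδ => ?_
    obtain ⟨u, hu, -, hL, hF⟩ := hs.core hf hδ
    have h1 : UC.Df V u f ^ 2 ≤ (Real.sqrt (c * E) * (Real.sqrt v + δ)) ^ 2 := by
      rw [mul_pow, Real.sq_sqrt hcE]
      calc UC.Df V u f ^ 2 ≤ UC.Df V u u * E := hs.Df_cs hu hf
        _ ≤ (c * UC.Ex V (fun x => LL V u x ^ 2)) * E :=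
            mul_le_mul_of_nonneg_right (h u hu) hE0
        _ ≤ (c * (Real.sqrt v + δ) ^ 2) * E :=
            mul_le_mul_of_nonneg_right (mul_le_mul_of_nonneg_left hL hc) hE0
        _ = c * E * (Real.sqrt v + δ) ^ 2 := by ring
    have h2 : UC.Df V u f ≤ Real.sqrt (c * E) * (Real.sqrt v + δ) :=
      (le_abs_self _).trans (abs_le_of_sq_le_sq h1 (by positivity))
    have h3 := (abs_le.1 hF).1
    linarith
  have h1 : v * v ≤ c * E * v := by
    have h2 : v * v ≤ (Real.sqrt (c * E) * Real.sqrt v) * (Real.sqrt (c * E) * Real.sqrt v) :=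
      mul_le_mul key key hv0 (by positivity)
    have h3 : (Real.sqrt (c * E) * Real.sqrt v) * (Real.sqrt (c * E) * Real.sqrt v) =
        Real.sqrt (c * E) ^ 2 * Real.sqrt v ^ 2 := by ring
    rwa [h3, Real.sq_sqrt hcE, Real.sq_sqrt hv0] at h2
  rcases hv0.eq_or_lt with h2 | h2
  · rw [← h2]
    exact hcE
  · exact le_of_mul_le_mul_right h1 h2

/-! ### the improved inequalities -/

/-- P1 -/
theorem p1s : P1s n := by
  intro V κ Λ c0 hs f hf
  refine hs.pa_close hf (by have := hs.kpos; positivity) fun u hu => ?_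
  have h1 := hs.bochner hu
  have h2 : 0 ≤ ∑ j, UC.Df V (pd j u) (pd j u) := Finset.sum_nonneg fun j _ => Df_nonneg V _
  rw [div_mul_eq_mul_div, one_mul, le_div_iff₀ hs.kpos]
  linarith

/-- the spectral gap of the gradients -/
lemma SP.gap_grad (hs : SP V κ Λ c0) {K : ℝ} (hK : HP V K) (hu : UC.TT u) :
    UC.Df V u u - ∑ j, UC.Ex V (pd j u) ^ 2 ≤ K * ∑ j, UC.Df V (pd j u) (pd j u) := by
  rw [Df_self, ← Finset.sum_sub_distrib, Finset.mul_sum]
  exact Finset.sum_le_sum fun j _ => hK _ (hu.pd j)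

lemma SP.q_le (hs : SP V κ Λ c0) {s : ℝ} (hs0 : 0 ≤ s) (hc : CovLe V s) (hu : UC.TT u) :
    ∑ j, UC.Ex V (pd j u) ^ 2 ≤ s * UC.Ex V (fun x => LL V u x ^ 2) := by
  have h1 := hs.vec hs0 hc (hs.LL_sq hu) (Ex_LL hs.cd1 hu)
  refine le_trans (le_of_eq ?_) h1
  refine Finset.sum_congr rfl fun j _ => ?_
  rw [hs.Ex_pd hu j, neg_sq]

/-- one step of the improved Lichnerowicz inequality -/
theorem SP.step (hs : SP V κ Λ c0) {s K : ℝ} (hs0 : 0 ≤ s) (hc : CovLe V s) (hK0 : 0 ≤ K)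
    (hK : HP V K) : HP V ((K + s) / (1 + κ * K)) := by
  intro f hf
  have hk := hs.kpos
  have hd : 0 < 1 + κ * K := by positivity
  refine hs.pa_close hf (by positivity) fun u hu => ?_
  have h1 := hs.bochner hu
  have h2 := hs.gap_grad hK hu
  have h3 := hs.q_le hs0 hc hu
  rw [div_mul_eq_mul_div, le_div_iff₀ hd]
  have h4 := mul_le_mul_of_nonneg_left h1 hK0
  nlinarith

/-- P2 -/
theorem p2s : P2s n := by
  intro V κ Λ c0 s hs hs0 hc f hf
  have hk := hs.kpos
  set S : Set ℝ := {K | 0 ≤ K ∧ HP V K} with hS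
  have hne : S.Nonempty := ⟨c0, hs.cpos.le, hs.hp⟩
  have hbd : BddBelow S := ⟨0, fun K hK => hK.1⟩
  set c := sInf S with hcd
  have hc0 : 0 ≤ c := le_csInf hne fun K hK => hK.1
  have hmem : HP V c := by
    intro g hg
    have hD := Df_nonneg V g
    refine pa_lim (c := UC.Df V g g) fun δ hδ => ?_
    obtain ⟨K, hK, hKc⟩ := exists_lt_of_csInf_lt hne (show sInf S < c + δ by linarith)
    have h1 := hK.2 g hg
    have h2 : K * UC.Df V g g ≤ (c + δ) * UC.Df V g g := mul_le_mul_of_nonneg_right hKc.le hD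
    linarith
  have hd : 0 < 1 + κ * c := by positivity
  have h1 : c ≤ (c + s) / (1 + κ * c) :=
    csInf_le hbd ⟨by positivity, hs.step hs0.le hc hc0 hmem⟩
  rw [le_div_iff₀ hd] at h1
  have h2 : c ^ 2 ≤ s / κ := by
    rw [le_div_iff₀ hk]
    nlinarith
  have h3 : c ≤ Real.sqrt (s / κ) := Real.le_sqrt_of_sq_le h2
  exact (hmem f hf).trans (mul_le_mul_of_nonneg_right h3 (Df_nonneg V f))

/-- P3 -/
theorem p3s : P3s n := by
  intro V κ Λ c0 s hs hs0 hc f hf
  have hk := hs.kpos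
  have hV := hs.cont
  set K := Real.sqrt (s / κ) with hKd
  have hK0 : 0 ≤ K := Real.sqrt_nonneg _
  have hK : HP V K := fun g hg => p2s V κ Λ c0 s hs hs0 hc g hg
  have hd : 0 < 1 + κ * K := by positivity
  have sf : SqV V f := SqV.of_TT hV hf
  set v := VarE V f with hv
  have hv0 : 0 ≤ v := hs.VarE_nonneg sf
  set E := UC.Df V f f with hE
  have hE0 : 0 ≤ E := Df_nonneg V f
  set C := K / (1 + κ * K) with hCd
  have hC0 : 0 ≤ C := by positivity
  have hCE : 0 ≤ C * E := mul_nonneg hC0 hE0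
  set X := v - ∑ i, UC.Ex V (pd i f) * (UC.Ex V (fun x => x i * f x) -
    UC.Ex V (fun x => x i) * UC.Ex V f) with hX
  set W := ∑ i, UC.Ex V (pd i f) ^ 2 with hW
  have hW0 : 0 ≤ W := Finset.sum_nonneg fun j _ => sq_nonneg _
  have key : |X| ≤ Real.sqrt (C * E) * Real.sqrt v := by
    refine pa_lim (c := Real.sqrt (C * E) + Real.sqrt v + Real.sqrt (W * s)) fun δ hδ => ?_
    obtain ⟨u, hu, hr, hL, hF⟩ := hs.core hf hδ
    have sL : SqV V (LL V u) := hs.LL_sq hu
    have hcc := hs.const (UC.Ex V f)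
    have sfc : SqV V (fun x => f x - UC.Ex V f) := sf.sub hV hcc
    have sr : SqV V (fun x => LL V u x + (f x - UC.Ex V f)) := sL.add hV sfc
    have hr0 : UC.Ex V (fun x => LL V u x + (f x - UC.Ex V f)) = 0 := by
      rw [hs.Ex_add sL sfc, Ex_LL hs.cd1 hu, hs.Ex_sub sf hcc, hs.Ex_const]
      ring
    have hdiff : ∀ i : Fin n, UC.Ex V (pd i u) - (UC.Ex V (fun x => x i * f x) -
        UC.Ex V (fun x => x i) * UC.Ex V f) =
        - UC.Ex V (fun x => x i * (LL V u x + (f x - UC.Ex V f))) := by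
      intro i
      rw [hs.Ex_pd hu i, hs.Ex_mul_add (hs.sq_coord i) sL sfc,
        hs.Ex_mul_sub (hs.sq_coord i) sf hcc, hs.Ex_mul_const]
      ring
    have hsum : ∑ i : Fin n, (UC.Ex V (pd i u) - (UC.Ex V (fun x => x i * f x) -
        UC.Ex V (fun x => x i) * UC.Ex V f)) ^ 2 ≤ s * δ ^ 2 := by
      have h1 := hs.vec hs0.le hc sr hr0
      refine le_trans (le_of_eq ?_) (h1.trans (mul_le_mul_of_nonneg_left hr hs0.le))
      refine Finset.sum_congr rfl fun i _ => ?_
      rw [hdiff i, neg_sq]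
    -- the error in the scalar product
    have herr : |∑ i, UC.Ex V (pd i f) * UC.Ex V (pd i u) -
        ∑ i, UC.Ex V (pd i f) * (UC.Ex V (fun x => x i * f x) -
          UC.Ex V (fun x => x i) * UC.Ex V f)| ≤ Real.sqrt (W * s) * δ := by
      rw [← Finset.sum_sub_distrib]
      have e1 : ∀ i : Fin n, UC.Ex V (pd i f) * UC.Ex V (pd i u) -
          UC.Ex V (pd i f) * (UC.Ex V (fun x => x i * f x) -
            UC.Ex V (fun x => x i) * UC.Ex V f) =
          UC.Ex V (pd i f) * (UC.Ex V (pd i u) - (UC.Ex V (fun x => x i * f x) -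
            UC.Ex V (fun x => x i) * UC.Ex V f)) := fun i => by ring
      rw [Finset.sum_congr rfl fun i _ => e1 i]
      refine abs_le_of_sq_le_sq ?_ (by positivity)
      rw [mul_pow, Real.sq_sqrt (by positivity)]
      refine (Finset.sum_mul_sq_le_sq_mul_sq _ _ _).trans ?_
      calc W * _ ≤ W * (s * δ ^ 2) := mul_le_mul_of_nonneg_left hsum hW0
        _ = W * s * δ ^ 2 := by ring
    -- the centred Cauchy-Schwarz inequality
    have hG : UC.Df V u u - ∑ j, UC.Ex V (pd j u) ^ 2 ≤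
        C * UC.Ex V (fun x => LL V u x ^ 2) := by
      have h1 := hs.bochner hu
      have h2 := hs.gap_grad hK hu
      have h3 : 0 ≤ ∑ j, UC.Ex V (pd j u) ^ 2 := Finset.sum_nonneg fun j _ => sq_nonneg _
      rw [hCd, div_mul_eq_mul_div, le_div_iff₀ hd]
      have h4 := mul_le_mul_of_nonneg_left h1 hK0
      have h5 : 0 ≤ K * κ * ∑ j, UC.Ex V (pd j u) ^ 2 := by positivity
      nlinarith
    have hcs : |UC.Df V u f - ∑ j, UC.Ex V (pd j f) * UC.Ex V (pd j u)| ≤
        Real.sqrt (C * E) * (Real.sqrt v + δ) := by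
      refine abs_le_of_sq_le_sq ?_ (by positivity)
      rw [mul_pow, Real.sq_sqrt hCE]
      calc _ ≤ (UC.Df V u u - ∑ j, UC.Ex V (pd j u) ^ 2) * E := hs.Df_cs' hu hf
        _ ≤ (C * UC.Ex V (fun x => LL V u x ^ 2)) * E := mul_le_mul_of_nonneg_right hG hE0
        _ ≤ (C * (Real.sqrt v + δ) ^ 2) * E :=
            mul_le_mul_of_nonneg_right (mul_le_mul_of_nonneg_left hL hC0) hE0
        _ = C * E * (Real.sqrt v + δ) ^ 2 := by ring
    rw [abs_le] at hcs herr hF ⊢
    rw [hX]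
    constructor
    · linarith [hcs.1, herr.1, hF.2]
    · linarith [hcs.2, herr.2, hF.1]
  have h1 : X ^ 2 ≤ (Real.sqrt (C * E) * Real.sqrt v) ^ 2 := by
    rw [← sq_abs]
    exact pow_le_pow_left₀ (abs_nonneg _) key 2
  rwa [mul_pow, Real.sq_sqrt hCE, Real.sq_sqrt hv0] at h1

end Pool.Agent.Lib.MP_6d896a_gt.LG
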