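import Mathlib
import Pool.Agent.Lib.MP_6d896a_gt.LG.Defs
import Pool.Agent.Lib.MP_6d896a_gt.FP.PLm

/-!
Basic facts on covariances and tilted measures with bounded support.
-/

set_option autoImplicit false

namespace Pool.Agent.Lib.MP_6d896a_gt.LG

open MeasureTheory Filter Topology Set Matrix
open scoped ENNReal NNReal

variable {n : ℕ} {μ ν : Measure (Eu n)} {R B T η : ℝ}

/-- essentially bounded measurable functions -/
def BM (ν : Measure (Eu n)) (f : Eu n → ℝ) : Prop :=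
  AEStronglyMeasurable f ν ∧ ∃ M : ℝ, ∀ᵐ x ∂ν, |f x| ≤ M

lemma BM.int [IsFiniteMeasure ν] {f : Eu n → ℝ} (hf : BM ν f) : Integrable f ν := by
  obtain ⟨h1, M, h2⟩ := hf
  exact Integrable.of_bound h1 M (by simpa [Real.norm_eq_abs] using h2)

lemma BM.const (a : ℝ) : BM ν (fun _ => a) :=
  ⟨aestronglyMeasurable_const, |a|, ae_of_all _ fun _ => le_rfl⟩

lemma BM.add {f g : Eu n → ℝ} (hf : BM ν f) (hg : BM ν g) : BM ν (fun x => f x + g x) := by
  obtain ⟨h1, M, h2⟩ := hf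
  obtain ⟨k1, N, k2⟩ := hg
  refine ⟨h1.add k1, M + N, ?_⟩
  filter_upwards [h2, k2] with x hx kx
  exact (abs_add_le _ _).trans (add_le_add hx kx)

lemma BM.mul {f g : Eu n → ℝ} (hf : BM ν f) (hg : BM ν g) : BM ν (fun x => f x * g x) := by
  obtain ⟨h1, M, h2⟩ := hf
  obtain ⟨k1, N, k2⟩ := hg
  refine ⟨h1.mul k1, |M| * |N|, ?_⟩
  filter_upwards [h2, k2] with x hx kx
  rw [abs_mul]
  exact mul_le_mul (hx.trans (le_abs_self M)) (kx.trans (le_abs_self N)) (abs_nonneg _)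
    (abs_nonneg _)

lemma BM.cmul {f : Eu n → ℝ} (hf : BM ν f) (a : ℝ) : BM ν (fun x => a * f x) :=
  (BM.const a).mul hf

lemma BM.neg {f : Eu n → ℝ} (hf : BM ν f) : BM ν (fun x => - f x) := by
  obtain ⟨h1, M, h2⟩ := hf
  exact ⟨h1.neg, M, by simpa using h2⟩

lemma BM.sub {f g : Eu n → ℝ} (hf : BM ν f) (hg : BM ν g) : BM ν (fun x => f x - g x) := by
  simpa [sub_eq_add_neg] using hf.add hg.neg

lemma BM.sum {ι : Type*} (S : Finset ι) {f : ι → Eu n → ℝ} (hf : ∀ i ∈ S, BM ν (f i)) :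
    BM ν (fun x => ∑ i ∈ S, f i x) := by
  classical
  induction S using Finset.induction_on with
  | empty => simpa using BM.const (ν := ν) 0
  | insert a S ha ih =>
    simp only [Finset.sum_insert ha]
    exact (hf a (Finset.mem_insert_self _ _)).add
      (ih fun i hi => hf i (Finset.mem_insert_of_mem hi))

lemma BM.cont (hR : BS R ν) {f : Eu n → ℝ} (hf : Continuous f) : BM ν f := by
  refine ⟨hf.aestronglyMeasurable, ?_⟩
  obtain ⟨M, hM⟩ := (isCompact_closedBall (0 : Eu n) R).exists_bound_of_continuousOn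
    hf.continuousOn
  refine ⟨M, ?_⟩
  filter_upwards [hR] with x hx
  have := hM x (by rwa [mem_closedBall_zero_iff])
  rwa [Real.norm_eq_abs] at this

lemma coord_le (x : Eu n) (i : Fin n) : |x i| ≤ ‖x‖ := by
  have := PiLp.norm_apply_le x i
  rwa [Real.norm_eq_abs] at this

lemma BM.coord (hR : BS R ν) (i : Fin n) : BM ν (fun x => x i) :=
  BM.cont hR (by fun_prop)

lemma BM.inner (hR : BS R ν) (w : Eu n) : BM ν (fun x => inner ℝ x w) :=
  BM.cont hR (by fun_prop)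

lemma int_le [IsProbabilityMeasure ν] {f : Eu n → ℝ} {M : ℝ} (hf : ∀ᵐ x ∂ν, |f x| ≤ M) :
    |∫ x, f x ∂ν| ≤ M := by
  have := norm_integral_le_of_norm_le_const (μ := ν) (f := f) (C := M)
    (by simpa [Real.norm_eq_abs] using hf)
  simpa [Real.norm_eq_abs] using this

/-! ### covariances -/

lemma Cv_comm (f g : Eu n → ℝ) : Cv ν f g = Cv ν g f := by
  unfold Cv
  rw [mul_comm (∫ x, f x ∂ν)]
  simp only [mul_comm]

lemma Cv_add_left [IsProbabilityMeasure ν] {f g k : Eu n → ℝ} (hf : BM ν f) (hg : BM ν g)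
    (hk : BM ν k) : Cv ν (fun x => f x + g x) k = Cv ν f k + Cv ν g k := by
  unfold Cv
  rw [integral_add hf.int hg.int]
  simp only [add_mul]
  rw [integral_add (hf.mul hk).int (hg.mul hk).int]
  ring

lemma Cv_cmul_left [IsProbabilityMeasure ν] (a : ℝ) (f k : Eu n → ℝ) :
    Cv ν (fun x => a * f x) k = a * Cv ν f k := by
  unfold Cv
  rw [integral_const_mul]
  simp only [mul_assoc]
  rw [integral_const_mul]
  ring

lemma Cv_const_left [IsProbabilityMeasure ν] (a : ℝ) (k : Eu n → ℝ) :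
    Cv ν (fun _ => a) k = 0 := by
  unfold Cv
  rw [integral_const_mul]
  simp

lemma Cv_sum_left [IsProbabilityMeasure ν] {ι : Type*} (S : Finset ι) {f : ι → Eu n → ℝ}
    (hf : ∀ i ∈ S, BM ν (f i)) {k : Eu n → ℝ} (hk : BM ν k) :
    Cv ν (fun x => ∑ i ∈ S, f i x) k = ∑ i ∈ S, Cv ν (f i) k := by
  classical
  induction S using Finset.induction_on with
  | empty => simpa using Cv_const_left (ν := ν) 0 k
  | insert a S ha ih =>
    simp only [Finset.sum_insert ha]
    rw [Cv_add_left (hf a (Finset.mem_insert_self _ _))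
      (BM.sum S fun i hi => hf i (Finset.mem_insert_of_mem hi)) hk,
      ih fun i hi => hf i (Finset.mem_insert_of_mem hi)]

lemma Cv_add_right [IsProbabilityMeasure ν] {f g k : Eu n → ℝ} (hf : BM ν f) (hg : BM ν g)
    (hk : BM ν k) : Cv ν k (fun x => f x + g x) = Cv ν k f + Cv ν k g := by
  rw [Cv_comm, Cv_add_left hf hg hk, Cv_comm f, Cv_comm g]

lemma Cv_cmul_right [IsProbabilityMeasure ν] (a : ℝ) (f k : Eu n → ℝ) :
    Cv ν k (fun x => a * f x) = a * Cv ν k f := by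
  rw [Cv_comm, Cv_cmul_left, Cv_comm]

lemma Cv_const_right [IsProbabilityMeasure ν] (a : ℝ) (k : Eu n → ℝ) :
    Cv ν k (fun _ => a) = 0 := by
  rw [Cv_comm, Cv_const_left]

lemma Cv_sum_right [IsProbabilityMeasure ν] {ι : Type*} (S : Finset ι) {f : ι → Eu n → ℝ}
    (hf : ∀ i ∈ S, BM ν (f i)) {k : Eu n → ℝ} (hk : BM ν k) :
    Cv ν k (fun x => ∑ i ∈ S, f i x) = ∑ i ∈ S, Cv ν k (f i) := by
  rw [Cv_comm, Cv_sum_left S hf hk]
  exact Finset.sum_congr rfl fun i _ => Cv_comm _ _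

lemma Cv_sub_left [IsProbabilityMeasure ν] {f g k : Eu n → ℝ} (hf : BM ν f) (hg : BM ν g)
    (hk : BM ν k) : Cv ν (fun x => f x - g x) k = Cv ν f k - Cv ν g k := by
  have h1 : (fun x => f x - g x) = fun x => f x + (-1) * g x := by funext x; ring
  rw [h1, Cv_add_left hf (hg.cmul (-1)) hk, Cv_cmul_left]
  ring

lemma Cv_sub_right [IsProbabilityMeasure ν] {f g k : Eu n → ℝ} (hf : BM ν f) (hg : BM ν g)
    (hk : BM ν k) : Cv ν k (fun x => f x - g x) = Cv ν k f - Cv ν k g := by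
  rw [Cv_comm, Cv_sub_left hf hg hk, Cv_comm f, Cv_comm g]

/-- centred form -/
lemma Cv_self [IsProbabilityMeasure ν] {f : Eu n → ℝ} (hf : BM ν f) :
    Cv ν f f = ∫ x, (f x - ∫ y, f y ∂ν) ^ 2 ∂ν := by
  set m := ∫ y, f y ∂ν with hm
  have h1 : ∀ x, (f x - m) ^ 2 = f x * f x - 2 * m * f x + m ^ 2 := fun x => by ring
  simp only [h1]
  rw [integral_add ((hf.mul hf).sub (hf.cmul (2 * m))).int (BM.const _).int,
    integral_sub (hf.mul hf).int (hf.cmul (2 * m)).int, integral_const_mul, ← hm]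
  unfold Cv
  rw [← hm]
  simp
  ring

lemma Cv_self_nonneg [IsProbabilityMeasure ν] {f : Eu n → ℝ} (hf : BM ν f) : 0 ≤ Cv ν f f := by
  rw [Cv_self hf]
  exact integral_nonneg fun x => sq_nonneg _

/-- Cauchy-Schwarz inequality -/
lemma Cv_sq_le [IsProbabilityMeasure ν] {f g : Eu n → ℝ} (hf : BM ν f) (hg : BM ν g) :
    Cv ν f g ^ 2 ≤ Cv ν f f * Cv ν g g := by
  have key : ∀ s : ℝ, 0 ≤ Cv ν f f - 2 * s * Cv ν f g + s ^ 2 * Cv ν g g := by
    intro s
    have h1 := Cv_self_nonneg (hf.sub (hg.cmul s))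
    rw [Cv_sub_left hf (hg.cmul s) (hf.sub (hg.cmul s)), Cv_sub_right hf (hg.cmul s) hf,
      Cv_cmul_left, Cv_sub_right hf (hg.cmul s) hg, Cv_cmul_right, Cv_cmul_right,
      Cv_comm g f] at h1
    linarith
  have hg0 := Cv_self_nonneg hg
  rcases hg0.eq_or_lt with h0 | h0
  · by_contra hcon
    push Not at hcon
    rw [← h0, mul_zero] at hcon
    have hne : Cv ν f g ≠ 0 := by
      intro h
      rw [h] at hcon
      norm_num at hcon
    have h2 := key ((Cv ν f f + 1) / (2 * Cv ν f g))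
    rw [← h0] at h2
    have h3 : 2 * ((Cv ν f f + 1) / (2 * Cv ν f g)) * Cv ν f g = Cv ν f f + 1 := by
      field_simp
    rw [h3] at h2
    linarith
  · have h2 := key (Cv ν f g / Cv ν g g)
    have h3 : Cv ν f f - 2 * (Cv ν f g / Cv ν g g) * Cv ν f g +
        (Cv ν f g / Cv ν g g) ^ 2 * Cv ν g g = Cv ν f f - Cv ν f g ^ 2 / Cv ν g g := by
      field_simp
      ring
    rw [h3] at h2
    have h4 : Cv ν f g ^ 2 / Cv ν g g ≤ Cv ν f f := by linarith
    rwa [div_le_iff₀ h0] at h4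

/-! ### the covariance matrix -/

lemma Am_symm (ν : Measure (Eu n)) (i j : Fin n) : Am ν i j = Am ν j i := Cv_comm _ _

lemma Am_herm (ν : Measure (Eu n)) : (Am ν).IsHermitian := by
  ext i j
  simp only [conjTranspose_apply, star_trivial]
  exact Am_symm ν j i

lemma Am_transpose (ν : Measure (Eu n)) : (Am ν)ᵀ = Am ν := by
  ext i j
  exact Am_symm ν j i

/-- the quadratic form of the covariance matrix -/
lemma Am_quad [IsProbabilityMeasure ν] (hR : BS R ν) (v w : Fin n → ℝ) :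
    v ⬝ᵥ (Am ν *ᵥ w) = Cv ν (fun x => ∑ i, v i * x i) (fun x => ∑ j, w j * x j) := by
  rw [Cv_sum_left _ (fun i _ => (BM.coord hR i).cmul (v i))
    (BM.sum _ fun i _ => (BM.coord hR i).cmul (w i))]
  unfold dotProduct mulVec
  refine Finset.sum_congr rfl fun i _ => ?_
  rw [Cv_cmul_left, Cv_sum_right _ (fun i _ => (BM.coord hR i).cmul (w i)) (BM.coord hR i)]
  congr 1
  unfold dotProduct
  refine Finset.sum_congr rfl fun j _ => ?_
  rw [Cv_cmul_right, mul_comm]
  rfl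

lemma Am_psd [IsProbabilityMeasure ν] (hR : BS R ν) : (Am ν).PosSemidef := by
  refine PosSemidef.of_dotProduct_mulVec_nonneg (Am_herm ν) fun v => ?_
  rw [star_trivial, Am_quad hR]
  exact Cv_self_nonneg (BM.sum _ fun i _ => (BM.coord hR i).cmul (v i))

lemma Cv_abs_le [IsProbabilityMeasure ν] {f g : Eu n → ℝ} {M N : ℝ} (hM : 0 ≤ M) (_hN : 0 ≤ N)
    (hf : ∀ᵐ x ∂ν, |f x| ≤ M) (hg : ∀ᵐ x ∂ν, |g x| ≤ N) : |Cv ν f g| ≤ 2 * (M * N) := by
  unfold Cv
  have h1 : |∫ x, f x * g x ∂ν| ≤ M * N := by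
    apply int_le
    filter_upwards [hf, hg] with x hx hy
    rw [abs_mul]
    exact mul_le_mul hx hy (abs_nonneg _) hM
  have h2 : |(∫ x, f x ∂ν) * ∫ x, g x ∂ν| ≤ M * N := by
    rw [abs_mul]
    exact mul_le_mul (int_le hf) (int_le hg) (abs_nonneg _) hM
  calc _ ≤ |∫ x, f x * g x ∂ν| + |(∫ x, f x ∂ν) * ∫ x, g x ∂ν| := abs_sub _ _
    _ ≤ _ := by linarith

lemma BS.coord_ae (hR : BS R ν) (i : Fin n) : ∀ᵐ x ∂ν, |x i| ≤ R := by
  filter_upwards [hR] with x hx
  exact (coord_le x i).trans hx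

lemma Am_abs_le [IsProbabilityMeasure ν] (hR0 : 0 ≤ R) (hR : BS R ν) (i j : Fin n) :
    |Am ν i j| ≤ 2 * R ^ 2 := by
  have := Cv_abs_le (ν := ν) hR0 hR0 (hR.coord_ae i) (hR.coord_ae j)
  rw [sq]
  exact this

/-! ### tilted measures -/

lemma tl_exp_int (h : Nm μ R B) (t : ℝ) (c : Eu n) :
    Integrable (fun x => Real.exp (inner ℝ c x - t / 2 * ‖x‖ ^ 2)) μ := by
  have := h.pr
  exact (BM.cont h.bs (by fun_prop)).int

theorem tl_prob (h : Nm μ R B) (t : ℝ) (c : Eu n) : IsProbabilityMeasure (tl μ t c) := by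
  have := h.pr
  exact isProbabilityMeasure_tilted (tl_exp_int h t c)

theorem tl_BS (h : Nm μ R B) (t : ℝ) (c : Eu n) : BS R (tl μ t c) :=
  (tilted_absolutelyContinuous μ _).ae_le h.bs

theorem tl_zero (h : Nm μ R B) : tl μ 0 0 = μ := by
  have := h.pr
  unfold tl
  simp

private lemma lcf_exp_lin (c : Eu n) {z : ℝ} (hz : 0 < z) :
    FP.LCf (fun x : Eu n => ENNReal.ofReal (Real.exp (inner ℝ c x) / z)) := by
  intro x y l h0 h1
  have e1 : Real.exp (inner ℝ c ((1 - l) • x + l • y)) / z =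
      (Real.exp (inner ℝ c x) / z) ^ (1 - l) * (Real.exp (inner ℝ c y) / z) ^ l := by
    rw [Real.div_rpow (Real.exp_pos _).le hz.le, Real.div_rpow (Real.exp_pos _).le hz.le,
      ← Real.exp_mul, ← Real.exp_mul, inner_add_right, real_inner_smul_right,
      real_inner_smul_right, Real.exp_add]
    have e2 : z = z ^ (1 - l) * z ^ l := by
      rw [← Real.rpow_add hz]
      simp
    conv_lhs => rw [e2]
    rw [div_mul_div_comm, mul_comm (1 - l), mul_comm l]
  show ENNReal.ofReal (Real.exp (inner ℝ c x) / z) ^ (1 - l) *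
    ENNReal.ofReal (Real.exp (inner ℝ c y) / z) ^ l ≤
    ENNReal.ofReal (Real.exp (inner ℝ c ((1 - l) • x + l • y)) / z)
  rw [e1, ENNReal.ofReal_mul (by positivity), ← ENNReal.ofReal_rpow_of_pos (by positivity),
    ← ENNReal.ofReal_rpow_of_pos (by positivity)]

theorem tl_ULC (h : Nm μ R B) (hu : ULC η μ) (t : ℝ) (c : Eu n) : ULC (η + t) (tl μ t c) := by
  have := h.pr
  unfold ULC at hu ⊢
  unfold tl Measure.tilted
  set z := ∫ x, Real.exp (inner ℝ c x - t / 2 * ‖x‖ ^ 2) ∂μ with hz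
  have hz0 : 0 < z := integral_exp_pos (tl_exp_int h t c)
  have e1 : (μ.withDensity fun x => ENNReal.ofReal
      (Real.exp (inner ℝ c x - t / 2 * ‖x‖ ^ 2) / z)).withDensity
      (fun x => ENNReal.ofReal (Real.exp ((η + t) / 2 * ‖x‖ ^ 2))) =
      (μ.withDensity fun x => ENNReal.ofReal (Real.exp (η / 2 * ‖x‖ ^ 2))).withDensity
        (fun x => ENNReal.ofReal (Real.exp (inner ℝ c x) / z)) := by
    rw [← withDensity_mul _ (by fun_prop) (by fun_prop),
      ← withDensity_mul _ (by fun_prop) (by fun_prop)]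
    congr 1
    funext x
    simp only [Pi.mul_apply]
    rw [← ENNReal.ofReal_mul (by positivity), ← ENNReal.ofReal_mul (by positivity)]
    congr 1
    rw [div_mul_eq_mul_div, ← Real.exp_add, mul_div_assoc', ← Real.exp_add]
    congr 2
    ring
  rw [e1]
  exact hu.withDensity (by fun_prop) (lcf_exp_lin c hz0)

/-- log-concavity is uniform log-concavity with constant `0` -/
lemma ulc_zero_iff : ULC 0 μ ↔ FP.PLm μ := by
  unfold ULC
  simp

/-- uniformly log-concave measures are log-concave -/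
lemma ULC.plm (h : Nm μ R B) (hη : 0 ≤ η) (hu : ULC η μ) : FP.PLm μ := by
  have h1 := tl_ULC h hu (-η) 0
  have h2 : FP.PLm ((μ.withDensity fun x => ENNReal.ofReal (Real.exp (η / 2 * ‖x‖ ^ 2))).withDensity
      (fun x => ENNReal.ofReal (Real.exp (-(η / 2 * ‖x‖ ^ 2))))) := by
    refine FP.PLm.withDensity hu (by fun_prop) ?_
    intro x y l h0 h1
    show ENNReal.ofReal (Real.exp (-(η / 2 * ‖x‖ ^ 2))) ^ (1 - l) *
      ENNReal.ofReal (Real.exp (-(η / 2 * ‖y‖ ^ 2))) ^ l ≤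
      ENNReal.ofReal (Real.exp (-(η / 2 * ‖(1 - l) • x + l • y‖ ^ 2)))
    rw [ENNReal.ofReal_rpow_of_pos (Real.exp_pos _), ENNReal.ofReal_rpow_of_pos (Real.exp_pos _),
      ← ENNReal.ofReal_mul (by positivity), ← Real.exp_mul, ← Real.exp_mul, ← Real.exp_add]
    apply ENNReal.ofReal_le_ofReal
    apply Real.exp_le_exp.mpr
    have h3 : ‖(1 - l) • x + l • y‖ ^ 2 = (1 - l) * ‖x‖ ^ 2 + l * ‖y‖ ^ 2 -
        l * (1 - l) * ‖x - y‖ ^ 2 := by
      rw [norm_add_sq_real, norm_sub_sq_real, norm_smul, norm_smul, real_inner_smul_left,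
        real_inner_smul_right, Real.norm_of_nonneg (by linarith : (0 : ℝ) ≤ 1 - l),
        Real.norm_of_nonneg h0.le]
      ring
    rw [h3]
    have h4 : 0 ≤ η / 2 * (l * (1 - l) * ‖x - y‖ ^ 2) := by
      have : 0 ≤ 1 - l := by linarith
      positivity
    linarith
  rw [← withDensity_mul _ (by fun_prop) (by fun_prop)] at h2
  have e : ((fun x : Eu n => ENNReal.ofReal (Real.exp (η / 2 * ‖x‖ ^ 2))) *
      fun x => ENNReal.ofReal (Real.exp (-(η / 2 * ‖x‖ ^ 2)))) = 1 := by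
    funext x
    simp only [Pi.mul_apply, Pi.one_apply]
    rw [← ENNReal.ofReal_mul (by positivity), ← Real.exp_add]
    simp
  rw [e, withDensity_one] at h2
  exact h2

end Pool.Agent.Lib.MP_6d896a_gt.LG
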