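import Mathlib
import Pool.Agent.Lib.MP_6d896a_gt.LG.SPDefs
import Pool.Agent.Lib.MP_6d896a_gt.UR.VpGP
import Pool.Agent.Lib.MP_6d896a_gt.FP.ApCheeger

/-!
Project LG, piece PA2, first part: approximation of uniformly log-concave measures with bounded
support by smooth ones.
-/

set_option autoImplicit false

namespace Pool.Agent.Lib.MP_6d896a_gt.LG

open MeasureTheory ProbabilityTheory Filter Topology Metric
open scoped ENNReal NNReal
open UC (Ex Df TT)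
open UC.UR (HP Vp_apriori)

variable {n : ℕ}

section vp
variable {m : Measure (Eu n)} [IsFiniteMeasure m] {d R s : ℝ}

private lemma va_Qp_lower (hd : 0 < d) (hm0 : m ≠ 0) (hR : ∀ᵐ z ∂m, ‖z‖ ≤ R) (hpl : FP.PLm m)
    (x v : Eu n) : 2 * s * ‖v‖ ^ 2 ≤ FP.Qp m d s x v v := by
  have h1 := FP.line_deriv (FP.Pp_hasFDerivAt hd hm0 hR s 0) x v 0
  have h2 : HasDerivAt (fun t : ℝ => FP.Pp m d s 0 (x + t • v) v) (FP.Qp m d s x v v) 0 := by
    have h3 := h1.clm_apply (hasDerivAt_const (0 : ℝ) v)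
    simpa using h3
  have h4 := h2.tendsto_slope_zero_right
  apply ge_of_tendsto h4
  filter_upwards [self_mem_nhdsWithin] with t ht
  have ht' : (0 : ℝ) < t := ht
  have h5 := FP.Pp_mono hd hm0 hR hpl s 0 (x + t • v) x
  have e : x + t • v - x = t • v := by abel
  rw [e, map_smul, norm_smul, Real.norm_eq_abs, mul_pow, sq_abs, smul_eq_mul] at h5
  simp only [zero_add, zero_smul, add_zero, smul_eq_mul]
  rw [← _root_.sub_apply, ← div_eq_inv_mul, le_div_iff₀ ht']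
  have h6 : t * (2 * s * ‖v‖ ^ 2 * t) ≤
      t * ((FP.Pp m d s 0 (x + t • v) - FP.Pp m d s 0 x) v) := by
    linarith
  exact le_of_mul_le_mul_left h6 ht'

/-- the normalised potential -/
noncomputable def vaV (m : Measure (Eu n)) (d s : ℝ) (x : Eu n) : ℝ :=
  FP.Vp m d s 0 x + Real.log ((tgt (FP.Vp m d s 0)).real Set.univ)

private lemma va_fd (hd : 0 < d) (hm0 : m ≠ 0) (hR : ∀ᵐ z ∂m, ‖z‖ ≤ R) :
    fderiv ℝ (vaV m d s) = FP.Pp m d s 0 :=
  funext fun x => ((FP.Vp_hasFDerivAt hd hm0 hR s 0 x).add_const _).fderiv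

private lemma va_fd2 (hd : 0 < d) (hm0 : m ≠ 0) (hR : ∀ᵐ z ∂m, ‖z‖ ≤ R) :
    fderiv ℝ (fderiv ℝ (vaV m d s)) = FP.Qp m d s := by
  rw [va_fd hd hm0 hR]
  exact funext fun x => (FP.Pp_hasFDerivAt hd hm0 hR s 0 x).fderiv

private lemma va_cd (hd : 0 < d) (hm0 : m ≠ 0) (hR : ∀ᵐ z ∂m, ‖z‖ ≤ R) :
    ContDiff ℝ 2 (vaV m d s) := by
  have hV := FP.Vp_hasFDerivAt hd hm0 hR s 0
  have hP := FP.Pp_hasFDerivAt hd hm0 hR s 0
  have hQc : Continuous (FP.Qp m d s) := by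
    have hk : ∀ x y : Eu n, dist (FP.Qp m d s x) (FP.Qp m d s y) ≤
        (6 * ((2 * d * R) * ((2 * d * R) * (2 * d * R)))) * dist x y := by
      intro x y
      have h1 := FP.Qp_lip hd hm0 hR s x y
      have h2 := dist_eq_norm (E := Eu n →L[ℝ] Eu n →L[ℝ] ℝ) (FP.Qp m d s x) (FP.Qp m d s y)
      rw [h2, dist_eq_norm x y]
      exact h1
    exact (LipschitzWith.of_dist_le' hk).continuous
  have hP1 : ContDiff ℝ 1 (FP.Pp m d s 0) := by
    rw [contDiff_one_iff_fderiv]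
    refine ⟨fun x => (hP x).differentiableAt, ?_⟩
    have : fderiv ℝ (FP.Pp m d s 0) = FP.Qp m d s := funext fun x => (hP x).fderiv
    rw [this]
    exact hQc
  rw [show (2 : WithTop ℕ∞) = 1 + 1 from by norm_num, contDiff_succ_iff_fderiv]
  refine ⟨fun x => ((hV x).add_const _).differentiableAt, by simp, ?_⟩
  rw [va_fd hd hm0 hR]
  exact hP1

private lemma va_int4 (hd : 0 < d) (hm0 : m ≠ 0) (hR : ∀ᵐ z ∂m, ‖z‖ ≤ R) (hs : 0 < s)
    (hpl : FP.PLm m) (hR0 : 0 ≤ R) :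
    Integrable (fun x : Eu n => (1 + ‖x‖) ^ 4 * Real.exp (-FP.Vp m d s 0 x)) := by
  have hpot := FP.Vp_pot hd hm0 hR0 hR hpl hs (0 : Eu n)
  have hcV := hpot.cV
  refine ⟨(Continuous.aestronglyMeasurable (by fun_prop)), ?_⟩
  rw [hasFiniteIntegral_iff_ofReal (ae_of_all _ fun x => by positivity)]
  have h1 := hpot.mom
  simpa only [mul_comm] using h1

private lemma va_int0 (hd : 0 < d) (hm0 : m ≠ 0) (hR : ∀ᵐ z ∂m, ‖z‖ ≤ R) (hs : 0 < s)
    (hpl : FP.PLm m) (hR0 : 0 ≤ R) :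
    Integrable (fun x : Eu n => Real.exp (-FP.Vp m d s 0 x)) := by
  have hcV := (FP.Vp_pot hd hm0 hR0 hR hpl hs (0 : Eu n)).cV
  refine (va_int4 hd hm0 hR hs hpl hR0).mono' (Continuous.aestronglyMeasurable (by fun_prop))
    (ae_of_all _ fun x => ?_)
  rw [Real.norm_eq_abs, abs_of_pos (Real.exp_pos _)]
  have h1 : (1 : ℝ) ≤ (1 + ‖x‖) ^ 4 := one_le_pow₀ (by linarith [norm_nonneg x])
  exact le_mul_of_one_le_left (Real.exp_pos _).le h1

private lemma va_mass (hd : 0 < d) (hm0 : m ≠ 0) (hR : ∀ᵐ z ∂m, ‖z‖ ≤ R) (hs : 0 < s)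
    (hpl : FP.PLm m) (hR0 : 0 ≤ R) :
    (tgt (FP.Vp m d s 0)).real Set.univ = ∫ y, Real.exp (-FP.Vp m d s 0 y) := by
  have hcV := (FP.Vp_pot hd hm0 hR0 hR hpl hs (0 : Eu n)).cV
  have h1 : (tgt (FP.Vp m d s 0)).real Set.univ = ∫ _y, (1 : ℝ) ∂(tgt (FP.Vp m d s 0)) := by
    simp
  rw [h1, integral_tgt hcV]
  simp

private lemma va_M (hd : 0 < d) (hm0 : m ≠ 0) (hR : ∀ᵐ z ∂m, ‖z‖ ≤ R) (hs : 0 < s)
    (hpl : FP.PLm m) (hR0 : 0 ≤ R) : 0 < (tgt (FP.Vp m d s 0)).real Set.univ := by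
  rw [va_mass hd hm0 hR hs hpl hR0]
  exact integral_exp_pos (va_int0 hd hm0 hR hs hpl hR0)

private lemma va_exp (hd : 0 < d) (hm0 : m ≠ 0) (hR : ∀ᵐ z ∂m, ‖z‖ ≤ R) (hs : 0 < s)
    (hpl : FP.PLm m) (hR0 : 0 ≤ R) (x : Eu n) : Real.exp (-vaV m d s x) =
      ((tgt (FP.Vp m d s 0)).real Set.univ)⁻¹ * Real.exp (-FP.Vp m d s 0 x) := by
  unfold vaV
  rw [neg_add, Real.exp_add, Real.exp_neg (Real.log _),
    Real.exp_log (va_M hd hm0 hR hs hpl hR0)]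
  ring

/-- the potential of the smoothed measure is strongly convex -/
theorem va_SP (hd : 0 < d) (hm0 : m ≠ 0) (hR : ∀ᵐ z ∂m, ‖z‖ ≤ R) (hs : 0 < s)
    (hpl : FP.PLm m) (hR0 : 0 ≤ R) :
    ∃ c0 : ℝ, SP (vaV m d s) (2 * s) (2 * s + (2 * d + 2 * ((2 * d * R) * (2 * d * R)))) c0 := by
  obtain ⟨c0, hc0, hHP⟩ := Vp_apriori hd hm0 hR hs hpl hR0
  have hexp := va_exp hd hm0 hR hs hpl hR0
  have hM := va_M hd hm0 hR hs hpl hR0
  refine ⟨c0, by positivity, va_cd hd hm0 hR, ?_, ?_, ?_, ?_, hc0, hHP⟩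
  · intro x v
    rw [va_fd2 hd hm0 hR]
    exact va_Qp_lower hd hm0 hR hpl x v
  · intro x v
    rw [va_fd2 hd hm0 hR]
    have h1 : ‖FP.Qp m d s x v v‖ ≤ ‖FP.Qp m d s x‖ * ‖v‖ * ‖v‖ :=
      ContinuousLinearMap.le_opNorm₂ _ _ _
    have h2 := FP.Qp_bound hd hm0 hR hs x
    rw [Real.norm_eq_abs] at h1
    calc FP.Qp m d s x v v ≤ ‖FP.Qp m d s x‖ * ‖v‖ * ‖v‖ := (le_abs_self _).trans h1
      _ = ‖FP.Qp m d s x‖ * ‖v‖ ^ 2 := by ring
      _ ≤ _ := mul_le_mul_of_nonneg_right h2 (sq_nonneg _)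
  · unfold Ex
    simp only [one_mul, hexp]
    rw [integral_const_mul, ← va_mass hd hm0 hR hs hpl hR0, inv_mul_cancel₀ hM.ne']
  · refine ((va_int4 hd hm0 hR hs hpl hR0).const_mul
      ((tgt (FP.Vp m d s 0)).real Set.univ)⁻¹).congr (ae_of_all _ fun x => ?_)
    simp only [hexp]
    ring

/-- expectations with respect to the smoothed measure -/
theorem va_Ex {t : ℝ} (ht : 0 < t) (hdt : 1 / (2 * t ^ 2) = d) (hm0 : m ≠ 0)
    (hR : ∀ᵐ z ∂m, ‖z‖ ≤ R) (hs : 0 < s)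
    (hpl : FP.PLm m) (hR0 : 0 ≤ R) (F : Eu n → ℝ) :
    Ex (vaV m d s) F = (∫ x, F x * Real.exp (-s * ‖x‖ ^ 2) ∂(FP.cv m t)) /
      ∫ x, Real.exp (-s * ‖x‖ ^ 2) ∂(FP.cv m t) := by
  have hd : 0 < d := by rw [← hdt]; positivity
  have hexp := va_exp hd hm0 hR hs hpl hR0
  have hM := va_M hd hm0 hR hs hpl hR0
  have hZ : 0 < (gZ (Eu n) s)⁻¹ := inv_pos.mpr (gZ_pos hs)
  have h1 : ∀ G : Eu n → ℝ, ∫ x, G x * Real.exp (-FP.Vp m d s 0 x) =
      (gZ (Eu n) s)⁻¹ * ∫ x, G x * Real.exp (-s * ‖x‖ ^ 2) ∂(FP.cv m t) := by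
    intro G
    rw [FP.cv_integral ht hdt, ← integral_const_mul]
    congr 1
    funext x
    rw [FP.exp_neg_Vp hd hm0 hR hs 0 x, sub_zero]
    unfold gk
    ring
  have h2 : (tgt (FP.Vp m d s 0)).real Set.univ =
      (gZ (Eu n) s)⁻¹ * ∫ x, Real.exp (-s * ‖x‖ ^ 2) ∂(FP.cv m t) := by
    rw [va_mass hd hm0 hR hs hpl hR0]
    have := h1 (fun _ => 1)
    simpa using this
  have h3 : Ex (vaV m d s) F = ((tgt (FP.Vp m d s 0)).real Set.univ)⁻¹ *
      ∫ x, F x * Real.exp (-FP.Vp m d s 0 x) := by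
    unfold Ex
    rw [← integral_const_mul]
    congr 1
    funext x
    rw [hexp]
    ring
  rw [h3, h1, h2]
  rw [h2] at hM
  have h4 : (∫ x, Real.exp (-s * ‖x‖ ^ 2) ∂(FP.cv m t)) ≠ 0 := by
    intro h0
    rw [h0, mul_zero] at hM
    exact lt_irrefl _ hM
  revert h4
  generalize (∫ x, Real.exp (-s * ‖x‖ ^ 2) ∂(FP.cv m t)) = B
  generalize (∫ x, F x * Real.exp (-s * ‖x‖ ^ 2) ∂(FP.cv m t)) = A
  intro h4
  have hZ' := hZ.ne'
  generalize (gZ (Eu n) s)⁻¹ = z at hZ'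
  field_simp

end vp

/-- the log-concave factor of a uniformly log-concave measure -/
noncomputable def ulcFac (τ : ℝ) (ν : Measure (Eu n)) : Measure (Eu n) :=
  ν.withDensity fun x => ENNReal.ofReal (Real.exp (τ / 2 * ‖x‖ ^ 2))

section ufac
variable {ν : Measure (Eu n)} {R τ : ℝ}

lemma ulcFac_int (F : Eu n → ℝ) :
    ∫ x, F x * Real.exp (-(τ / 2) * ‖x‖ ^ 2) ∂(ulcFac τ ν) = ∫ x, F x ∂ν := by
  unfold ulcFac
  have hm : Measurable (fun x : Eu n => Real.exp (τ / 2 * ‖x‖ ^ 2)) := by fun_prop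
  have e3 : (fun x : Eu n => ENNReal.ofReal (Real.exp (τ / 2 * ‖x‖ ^ 2))) =
      fun x => ((Real.toNNReal (Real.exp (τ / 2 * ‖x‖ ^ 2)) : NNReal) : ℝ≥0∞) := rfl
  rw [e3, integral_withDensity_eq_integral_smul hm.real_toNNReal]
  congr 1
  funext x
  rw [NNReal.smul_def, Real.coe_toNNReal _ (Real.exp_pos _).le, smul_eq_mul]
  have : Real.exp (τ / 2 * ‖x‖ ^ 2) * Real.exp (-(τ / 2) * ‖x‖ ^ 2) = 1 := by
    rw [← Real.exp_add, ← Real.exp_zero]
    congr 1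
    ring
  calc _ = F x * (Real.exp (τ / 2 * ‖x‖ ^ 2) * Real.exp (-(τ / 2) * ‖x‖ ^ 2)) := by ring
    _ = F x := by rw [this, mul_one]

lemma ulcFac_BS (hR : BS R ν) : ∀ᵐ x ∂(ulcFac τ ν), ‖x‖ ≤ R :=
  (withDensity_absolutelyContinuous _ _).ae_le hR

lemma ulcFac_finite [IsProbabilityMeasure ν] (hR : BS R ν) (hτ : 0 < τ) :
    IsFiniteMeasure (ulcFac τ ν) := by
  constructor
  unfold ulcFac
  rw [withDensity_apply _ MeasurableSet.univ, Measure.restrict_univ]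
  calc ∫⁻ x, ENNReal.ofReal (Real.exp (τ / 2 * ‖x‖ ^ 2)) ∂ν
      ≤ ∫⁻ _x, ENNReal.ofReal (Real.exp (τ / 2 * R ^ 2)) ∂ν := by
        apply lintegral_mono_ae
        filter_upwards [hR] with x hx
        apply ENNReal.ofReal_le_ofReal
        apply Real.exp_le_exp.mpr
        have := pow_le_pow_left₀ (norm_nonneg _) hx 2
        nlinarith
    _ < ⊤ := by
        rw [lintegral_const, measure_univ, mul_one]
        exact ENNReal.ofReal_lt_top

end ufac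

/-- approximation by smooth strongly convex potentials -/
theorem ulc_approx {ν : Measure (Eu n)} {R τ : ℝ} (hν : IsProbabilityMeasure ν) (hR : BS R ν)
    (hτ : 0 < τ) (hu : ULC τ ν) :
    ∃ V : ℕ → Eu n → ℝ, (∀ k, ∃ Λ c0, SP (V k) τ Λ c0) ∧
      ∀ F : Eu n → ℝ, Continuous F → (∃ B, ∀ x, |F x| * Real.exp (-(τ / 2) * ‖x‖ ^ 2) ≤ B) →
        Tendsto (fun k => Ex (V k) F) atTop (𝓝 (∫ x, F x ∂ν)) := by
  set m : Measure (Eu n) := ulcFac τ ν with hm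
  have hfin : IsFiniteMeasure m := ulcFac_finite hR hτ
  have hpl : FP.PLm m := hu
  set t : ℕ → ℝ := fun k => 1 / ((k : ℝ) + 1) with ht
  have ht0 : ∀ k, 0 < t k := fun k => by rw [ht]; positivity
  have htlim : Tendsto t atTop (𝓝 0) := tendsto_one_div_add_atTop_nhds_zero_nat
  set mk : ℕ → Measure (Eu n) := fun k => m.restrict (closedBall 0 (k : ℝ)) with hmk
  set J : ℕ → (Eu n → ℝ) → ℝ := fun k F =>
    ∫ x, F x * Real.exp (-(τ / 2) * ‖x‖ ^ 2) ∂(FP.cv (mk k) (t k)) with hJ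
  have hlimJ : ∀ (F : Eu n → ℝ), Continuous F →
      (∃ B, ∀ x, |F x| * Real.exp (-(τ / 2) * ‖x‖ ^ 2) ≤ B) →
      Tendsto (fun k => J k F) atTop (𝓝 (∫ x, F x ∂ν)) := by
    intro F hF hB
    obtain ⟨B, hB⟩ := hB
    rw [← ulcFac_int (τ := τ) F]
    apply FP.cv_tendsto m (C := B) (H := fun k x => F x * Real.exp (-(τ / 2) * ‖x‖ ^ 2))
    · intro k
      exact (hF.mul (by fun_prop)).measurable
    · intro k x
      rw [abs_mul, abs_of_pos (Real.exp_pos _)]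
      exact hB x
    · intro p
      have l1 : Tendsto (fun k => p.1 + t k • p.2) atTop (𝓝 (p.1 + (0 : ℝ) • p.2)) :=
        (htlim.smul_const p.2).const_add p.1
      rw [zero_smul, add_zero] at l1
      have hc : Continuous (fun x : Eu n => F x * Real.exp (-(τ / 2) * ‖x‖ ^ 2)) :=
        hF.mul (by fun_prop)
      exact (hc.tendsto p.1).comp l1
  have hJ1 : Tendsto (fun k => J k (fun _ => 1)) atTop (𝓝 1) := by
    have := hlimJ (fun _ => 1) continuous_const ⟨1, fun x => by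
      rw [abs_one, one_mul]
      apply Real.exp_le_one_iff.mpr
      nlinarith [sq_nonneg ‖x‖]⟩
    simpa using this
  obtain ⟨K, hK⟩ := eventually_atTop.mp
    (hJ1.eventually (lt_mem_nhds (by norm_num : (1 / 2 : ℝ) < 1)))
  have hne : ∀ k, K ≤ k → mk k ≠ 0 := by
    intro k hk h0
    have h1 := hK k hk
    have : J k (fun _ => 1) = 0 := by
      rw [hJ]
      simp only []
      rw [h0]
      unfold FP.cv
      simp
    linarith
  have hRk : ∀ k : ℕ, ∀ᵐ z ∂(mk k), ‖z‖ ≤ (k : ℝ) := by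
    intro k
    rw [hmk]
    filter_upwards [ae_restrict_mem (isClosed_closedBall (x := (0 : Eu n))
      (ε := (k : ℝ))).measurableSet] with z hz
    rwa [mem_closedBall_zero_iff] at hz
  have hplk : ∀ k : ℕ, FP.PLm (mk k) := fun k => hpl.restrict_ball k
  have hτ2 : 0 < τ / 2 := by positivity
  refine ⟨fun k => vaV (mk (k + K)) (1 / (2 * t (k + K) ^ 2)) (τ / 2), fun k => ?_,
    fun F hF hB => ?_⟩
  · have hd : 0 < 1 / (2 * t (k + K) ^ 2) := by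
      have := ht0 (k + K)
      positivity
    obtain ⟨c0, hc0⟩ := va_SP (m := mk (k + K)) hd (hne (k + K) (by omega)) (hRk (k + K)) hτ2
      (hplk (k + K)) (Nat.cast_nonneg _)
    have e : 2 * (τ / 2) = τ := by ring
    rw [e] at hc0
    exact ⟨_, _, hc0⟩
  · have h1 : ∀ k, Ex (vaV (mk (k + K)) (1 / (2 * t (k + K) ^ 2)) (τ / 2)) F =
        J (k + K) F / J (k + K) (fun _ => 1) := by
      intro k
      rw [va_Ex (ht0 (k + K)) rfl (hne (k + K) (by omega)) (hRk (k + K)) hτ2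
        (hplk (k + K)) (Nat.cast_nonneg _) F]
      simp only [hJ, one_mul]
    simp only [h1]
    have h2 := (hlimJ F hF hB).div hJ1 one_ne_zero
    rw [div_one] at h2
    exact h2.comp (tendsto_add_atTop_nat K)

end Pool.Agent.Lib.MP_6d896a_gt.LG
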