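import Mathlib
import Pool.Agent.Lib.MP_6d896a_gt.LG.SPDefs
import Pool.Agent.Lib.MP_6d896a_gt.UC.Basic

/-!
Project LG, piece PA2, second part: approximation of `C^1` functions by test functions on bounded
sets.
-/

set_option autoImplicit false

namespace Pool.Agent.Lib.MP_6d896a_gt.LG

open MeasureTheory ProbabilityTheory Filter Topology Metric
open scoped ENNReal NNReal ContDiff Convolution
open UC (Ex Df TT pd)

variable {n : ℕ}

/-- mollifiers -/
private noncomputable def pbb (n k : ℕ) : ContDiffBump (0 : Eu n) where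
  rIn := 1 / (2 * ((k : ℝ) + 1))
  rOut := 1 / ((k : ℝ) + 1)
  rIn_pos := by positivity
  rIn_lt_rOut := by
    rw [div_lt_div_iff₀ (by positivity) (by positivity)]
    have : (0 : ℝ) ≤ k := Nat.cast_nonneg k
    linarith

private lemma pbb_tendsto (n : ℕ) : Tendsto (fun k => (pbb n k).rOut) atTop (𝓝 0) :=
  tendsto_one_div_add_atTop_nhds_zero_nat

/-- mollified function -/
private noncomputable def pbm (k : ℕ) (g : Eu n → ℝ) (x : Eu n) : ℝ :=
  ((pbb n k).normed volume ⋆[ContinuousLinearMap.lsmul ℝ ℝ, volume] g) x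

private lemma pbm_TT (k : ℕ) {g : Eu n → ℝ} (hg : Continuous g) (hc : HasCompactSupport g) :
    TT (pbm k g) where
  cd := (pbb n k).hasCompactSupport_normed.contDiff_convolution_left _ (pbb n k).contDiff_normed
    hg.locallyIntegrable
  cs := (pbb n k).hasCompactSupport_normed.convolution _ hc

private lemma pbm_fderiv (k : ℕ) {g : Eu n → ℝ} (hg : ContDiff ℝ 1 g) (hc : HasCompactSupport g)
    (x : Eu n) : fderiv ℝ (pbm k g) x =
      ((pbb n k).normed volume ⋆[ContinuousLinearMap.lsmul ℝ ℝ, volume] (fderiv ℝ g)) x := by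
  have h := hc.hasFDerivAt_convolution_right (ContinuousLinearMap.lsmul ℝ ℝ)
    (μ := (volume : Measure (Eu n)))
    ((pbb n k).continuous_normed (μ := (volume : Measure (Eu n)))).locallyIntegrable hg x
  have h2 : fderiv ℝ (pbm k g) x = _ := h.fderiv
  rw [h2]
  unfold convolution
  apply integral_congr_ae
  filter_upwards with t
  ext v
  simp [ContinuousLinearMap.precompR_apply]

private lemma pbm_bound {F : Type*} [NormedAddCommGroup F] [NormedSpace ℝ F] [CompleteSpace F]
    (k : ℕ) {G : Eu n → F} {B : ℝ} (hB : ∀ x, ‖G x‖ ≤ B) (x : Eu n) :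
    ‖((pbb n k).normed volume ⋆[ContinuousLinearMap.lsmul ℝ ℝ, volume] G) x‖ ≤ B := by
  unfold convolution
  have hi := (pbb n k).integrable_normed (μ := (volume : Measure (Eu n)))
  calc ‖∫ t, (ContinuousLinearMap.lsmul ℝ ℝ) ((pbb n k).normed volume t) (G (x - t))‖
      ≤ ∫ t, ‖(ContinuousLinearMap.lsmul ℝ ℝ) ((pbb n k).normed volume t) (G (x - t))‖ :=
        norm_integral_le_integral_norm _
    _ ≤ ∫ t, (pbb n k).normed volume t * B := by
        apply integral_mono_of_nonneg
        · filter_upwards with t using norm_nonneg _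
        · exact hi.mul_const B
        · filter_upwards with t
          rw [ContinuousLinearMap.lsmul_apply, norm_smul, Real.norm_eq_abs,
            abs_of_nonneg ((pbb n k).nonneg_normed t)]
          exact mul_le_mul_of_nonneg_left (hB _) ((pbb n k).nonneg_normed t)
    _ = B := by
        rw [integral_mul_const, (pbb n k).integral_normed, one_mul]

/-- approximation of `C^1` functions by test functions on balls -/
theorem c1_approx {f : Eu n → ℝ} (hf : ContDiff ℝ 1 f) (R : ℝ) :
    ∃ g : ℕ → Eu n → ℝ, (∀ k, TT (g k)) ∧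
      (∃ B, ∀ k x, |g k x| ≤ B ∧ ‖fderiv ℝ (g k) x‖ ≤ B) ∧
      ∀ x, ‖x‖ ≤ R → Tendsto (fun k => g k x) atTop (𝓝 (f x)) ∧
        Tendsto (fun k => fderiv ℝ (g k) x) atTop (𝓝 (fderiv ℝ f x)) := by
  let χ : ContDiffBump (0 : Eu n) := ⟨|R| + 1, |R| + 2, by positivity, by linarith⟩
  set h : Eu n → ℝ := fun x => χ x * f x with hh
  have hc1 : ContDiff ℝ 1 h := (χ.contDiff.of_le (by exact_mod_cast le_top)).mul hf
  have hcs : HasCompactSupport h := χ.hasCompactSupport.mul_right
  obtain ⟨B, hB⟩ := hcs.exists_bound_of_continuous hc1.continuous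
  obtain ⟨B', hB'⟩ := (hcs.fderiv ℝ).exists_bound_of_continuous
    (hc1.continuous_fderiv (by simp))
  refine ⟨fun k => pbm k h, fun k => pbm_TT k hc1.continuous hcs, ⟨max B B', fun k x => ⟨?_, ?_⟩⟩,
    fun x hx => ⟨?_, ?_⟩⟩
  · exact (pbm_bound k hB x).trans (le_max_left _ _)
  · rw [pbm_fderiv k hc1 hcs]
    exact (pbm_bound k hB' x).trans (le_max_right _ _)
  · have h1 : h x = f x := by
      have : χ x = 1 := χ.one_of_mem_closedBall (by
        rw [mem_closedBall_zero_iff]
        change ‖x‖ ≤ |R| + 1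
        linarith [le_abs_self R])
      rw [hh]
      simp only [this, one_mul]
    rw [← h1]
    exact ContDiffBump.convolution_tendsto_right_of_continuous (pbb_tendsto n) hc1.continuous x
  · have h1 : fderiv ℝ h x = fderiv ℝ f x := by
      apply Filter.EventuallyEq.fderiv_eq
      have hx' : x ∈ ball (0 : Eu n) (|R| + 1) := by
        rw [mem_ball_zero_iff]
        linarith [le_abs_self R]
      filter_upwards [isOpen_ball.mem_nhds hx'] with y hy
      have : χ y = 1 := χ.one_of_mem_closedBall (by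
        rw [mem_closedBall_zero_iff]
        rw [mem_ball_zero_iff] at hy
        exact hy.le)
      rw [hh]
      simp only [this, one_mul]
    rw [← h1]
    have h2 := ContDiffBump.convolution_tendsto_right_of_continuous
      (μ := (volume : Measure (Eu n))) (pbb_tendsto n)
      (hc1.continuous_fderiv (by simp)) x
    refine h2.congr (fun k => ?_)
    rw [pbm_fderiv k hc1 hcs]

/-- dominated convergence on bounded sets -/
theorem bs_lim {ν : Measure (Eu n)} {R : ℝ} [IsFiniteMeasure ν] (hR : BS R ν)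
    {F : ℕ → Eu n → ℝ} {G : Eu n → ℝ} (hF : ∀ k, Continuous (F k)) {B : ℝ}
    (hB : ∀ k x, ‖x‖ ≤ R → |F k x| ≤ B)
    (hl : ∀ x, ‖x‖ ≤ R → Tendsto (fun k => F k x) atTop (𝓝 (G x))) :
    Tendsto (fun k => ∫ x, F k x ∂ν) atTop (𝓝 (∫ x, G x ∂ν)) := by
  apply tendsto_integral_of_dominated_convergence (fun _ => B)
  · intro k
    exact (hF k).aestronglyMeasurable
  · exact integrable_const B
  · intro k
    filter_upwards [hR] with x hx
    exact hB k x hx
  · filter_upwards [hR] with x hx
    exact hl x hx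

/-- continuous functions are integrable -/
theorem bs_int {ν : Measure (Eu n)} {R : ℝ} [IsFiniteMeasure ν] (hR : BS R ν)
    {F : Eu n → ℝ} (hF : Continuous F) : Integrable F ν := by
  obtain ⟨B, hB⟩ := (isCompact_closedBall (0 : Eu n) R).exists_bound_of_continuousOn
    hF.continuousOn
  refine (integrable_const B).mono' hF.aestronglyMeasurable ?_
  filter_upwards [hR] with x hx
  exact hB x (by rwa [mem_closedBall_zero_iff])

lemma pd_continuous {f : Eu n → ℝ} (hf : ContDiff ℝ 1 f) (i : Fin n) : Continuous (pd i f) :=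
  (hf.continuous_fderiv (by simp)).clm_apply continuous_const

lemma abs_pd_le (f : Eu n → ℝ) (i : Fin n) (x : Eu n) : |pd i f x| ≤ ‖fderiv ℝ f x‖ := by
  have h1 := UC.norm_fderiv_sq f x
  have h2 : pd i f x ^ 2 ≤ ∑ j, pd j f x ^ 2 :=
    Finset.single_le_sum (f := fun j => pd j f x ^ 2) (fun j _ => sq_nonneg _) (Finset.mem_univ i)
  exact abs_le_of_sq_le_sq (by linarith) (norm_nonneg _)

/-- from test functions to `C^1` functions for measures with bounded support -/
theorem c1_limits {ν : Measure (Eu n)} {R : ℝ} [IsProbabilityMeasure ν] (hR : BS R ν)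
    {f : Eu n → ℝ} (hf : ContDiff ℝ 1 f) :
    ∃ g : ℕ → Eu n → ℝ, (∀ k, TT (g k)) ∧
      Tendsto (fun k => Cv ν (g k) (g k)) atTop (𝓝 (Cv ν f f)) ∧
      Tendsto (fun k => ∫ x, ‖fderiv ℝ (g k) x‖ ^ 2 ∂ν) atTop
        (𝓝 (∫ x, ‖fderiv ℝ f x‖ ^ 2 ∂ν)) ∧
      (∀ i, Tendsto (fun k => ∫ x, pd i (g k) x ∂ν) atTop (𝓝 (∫ x, pd i f x ∂ν))) ∧
      (∀ i, Tendsto (fun k => Cv ν (fun x => x i) (g k)) atTop (𝓝 (Cv ν (fun x => x i) f))) := by
  obtain ⟨g, hg, ⟨B, hB⟩, hl⟩ := c1_approx hf R
  have hB0 : 0 ≤ B := (abs_nonneg _).trans (hB 0 0).1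
  have hR0 : 0 ≤ R := by
    obtain ⟨x, hx⟩ := hR.exists
    exact (norm_nonneg x).trans hx
  have hgc : ∀ k, ContDiff ℝ 1 (g k) := fun k => (hg k).cd.of_le (by exact_mod_cast le_top)
  have h1 : Tendsto (fun k => ∫ x, g k x ∂ν) atTop (𝓝 (∫ x, f x ∂ν)) :=
    bs_lim hR (fun k => (hg k).continuous) (fun k x _ => (hB k x).1) (fun x hx => (hl x hx).1)
  refine ⟨g, hg, ?_, ?_, fun i => ?_, fun i => ?_⟩
  · unfold Cv
    refine Tendsto.sub ?_ (h1.mul h1)
    apply bs_lim hR (B := B * B) (F := fun k x => g k x * g k x)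
      (fun k => (hg k).continuous.mul (hg k).continuous)
    · intro k x _
      rw [abs_mul]
      exact mul_le_mul (hB k x).1 (hB k x).1 (abs_nonneg _) hB0
    · intro x hx
      exact (hl x hx).1.mul (hl x hx).1
  · apply bs_lim hR (B := B ^ 2) (F := fun k x => ‖fderiv ℝ (g k) x‖ ^ 2)
      (fun k => ((hgc k).continuous_fderiv (by simp)).norm.pow 2)
    · intro k x _
      rw [abs_of_nonneg (by positivity)]
      exact pow_le_pow_left₀ (norm_nonneg _) (hB k x).2 2
    · intro x hx
      exact (hl x hx).2.norm.pow 2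
  · apply bs_lim hR (B := B) (fun k => pd_continuous (hgc k) i)
    · intro k x _
      exact (abs_pd_le _ i x).trans (hB k x).2
    · intro x hx
      exact (ContinuousLinearMap.apply ℝ ℝ (ej i)).continuous.continuousAt.tendsto.comp
        (hl x hx).2
  · unfold Cv
    refine Tendsto.sub ?_ (h1.const_mul _)
    apply bs_lim hR (B := R * B) (fun k => by
      have := (hg k).continuous
      fun_prop)
    · intro k x hx
      rw [abs_mul]
      have h2 : |x i| ≤ ‖x‖ := by
        rw [← Real.norm_eq_abs]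
        exact PiLp.norm_apply_le x i
      exact mul_le_mul (h2.trans hx) (hB k x).1 (abs_nonneg _) hR0
    · intro x hx
      exact (hl x hx).1.const_mul _

end Pool.Agent.Lib.MP_6d896a_gt.LG
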