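import Mathlib
import Pool.Agent.Lib.MP_6d896a_gt.LG.PA2a
import Pool.Agent.Lib.MP_6d896a_gt.LG.PA2b

/-!
Project LG, piece PA2: Poincare inequalities for uniformly log-concave measures with bounded
support, from their smooth level.
-/

set_option autoImplicit false

namespace Pool.Agent.Lib.MP_6d896a_gt.LG

open MeasureTheory ProbabilityTheory Filter Topology Metric
open scoped ENNReal NNReal ContDiff
open UC (Ex Df pd)

variable {n : ℕ}

private lemma coord_cont (i : Fin n) : Continuous (fun x : Eu n => x i) := by fun_prop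

private lemma coord_le (x : Eu n) (i : Fin n) : |x i| ≤ ‖x‖ := by
  rw [← Real.norm_eq_abs]
  exact PiLp.norm_apply_le x i

/-- functions with quadratic growth -/
private lemma quad_bdd {c : ℝ} (hc : 0 < c) {F : Eu n → ℝ} {A : ℝ}
    (hA : ∀ x, |F x| ≤ A * (1 + ‖x‖ ^ 2)) (hA0 : 0 ≤ A) :
    ∃ B, ∀ x, |F x| * Real.exp (-c * ‖x‖ ^ 2) ≤ B := by
  refine ⟨A * (1 + 1 / c), fun x => ?_⟩
  have h1 : Real.exp (-c * ‖x‖ ^ 2) ≤ 1 := by
    apply Real.exp_le_one_iff.mpr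
    nlinarith [sq_nonneg ‖x‖]
  have h2 : ‖x‖ ^ 2 * Real.exp (-c * ‖x‖ ^ 2) ≤ 1 / c := by
    rw [le_div_iff₀ hc]
    have h3 := Real.add_one_le_exp (c * ‖x‖ ^ 2)
    have h4 : Real.exp (c * ‖x‖ ^ 2) * Real.exp (-c * ‖x‖ ^ 2) = 1 := by
      rw [← Real.exp_add, ← Real.exp_zero]
      congr 1
      ring
    have h5 := Real.exp_pos (-c * ‖x‖ ^ 2)
    nlinarith
  have h6 := Real.exp_pos (-c * ‖x‖ ^ 2)
  calc |F x| * Real.exp (-c * ‖x‖ ^ 2) ≤ A * (1 + ‖x‖ ^ 2) * Real.exp (-c * ‖x‖ ^ 2) :=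
        mul_le_mul_of_nonneg_right (hA x) h6.le
    _ = A * (Real.exp (-c * ‖x‖ ^ 2) + ‖x‖ ^ 2 * Real.exp (-c * ‖x‖ ^ 2)) := by ring
    _ ≤ A * (1 + 1 / c) := by gcongr

private lemma cs_bdd {c : ℝ} (hc : 0 < c) {F : Eu n → ℝ} (hF : Continuous F)
    (hs : HasCompactSupport F) : ∃ B, ∀ x, |F x| * Real.exp (-c * ‖x‖ ^ 2) ≤ B := by
  obtain ⟨B, hB⟩ := hs.exists_bound_of_continuous hF
  have hB0 : 0 ≤ B := (norm_nonneg _).trans (hB 0)
  refine quad_bdd hc (A := B) (fun x => ?_) hB0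
  have h1 := hB x
  rw [Real.norm_eq_abs] at h1
  nlinarith [sq_nonneg ‖x‖]

/-- the conclusion of `ulc_approx` -/
private def Apx (ν : Measure (Eu n)) (τ : ℝ) (V : ℕ → Eu n → ℝ) : Prop :=
  ∀ F : Eu n → ℝ, Continuous F → (∃ B, ∀ x, |F x| * Real.exp (-(τ / 2) * ‖x‖ ^ 2) ≤ B) →
    Tendsto (fun k => Ex (V k) F) atTop (𝓝 (∫ x, F x ∂ν))

section lim
variable {ν : Measure (Eu n)} {τ : ℝ} {V : ℕ → Eu n → ℝ}

private lemma lim_cs (hV : Apx ν τ V) (hτ : 0 < τ) {F : Eu n → ℝ} (hF : Continuous F)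
    (hs : HasCompactSupport F) : Tendsto (fun k => Ex (V k) F) atTop (𝓝 (∫ x, F x ∂ν)) :=
  hV F hF (cs_bdd (by positivity) hF hs)

private lemma lim_coord (hV : Apx ν τ V) (hτ : 0 < τ) (i : Fin n) :
    Tendsto (fun k => Ex (V k) (fun x => x i)) atTop (𝓝 (∫ x, x i ∂ν)) := by
  apply hV _ (coord_cont i)
  refine quad_bdd (by positivity) (A := 1) (fun x => ?_) zero_le_one
  have := coord_le x i
  nlinarith [sq_nonneg (‖x‖ - 1), norm_nonneg x]

private lemma lim_coord2 (hV : Apx ν τ V) (hτ : 0 < τ) (i j : Fin n) :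
    Tendsto (fun k => Ex (V k) (fun x => x i * x j)) atTop (𝓝 (∫ x, x i * x j ∂ν)) := by
  apply hV _ ((coord_cont i).mul (coord_cont j))
  refine quad_bdd (by positivity) (A := 1) (fun x => ?_) zero_le_one
  have h0 : |x i * x j| = |x i| * |x j| := abs_mul _ _
  have h1 := mul_le_mul (coord_le x i) (coord_le x j) (abs_nonneg _) (norm_nonneg _)
  change |x i * x j| ≤ _
  rw [h0]
  nlinarith

private lemma lim_tt (hV : Apx ν τ V) (hτ : 0 < τ) (hVc : ∀ k, Continuous (V k))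
    {f : Eu n → ℝ} (hf : UC.TT f) :
    Tendsto (fun k => VarE (V k) f) atTop (𝓝 (Cv ν f f)) ∧
    Tendsto (fun k => Df (V k) f f) atTop (𝓝 (∫ x, ‖fderiv ℝ f x‖ ^ 2 ∂ν)) ∧
    (∀ i, Tendsto (fun k => Ex (V k) (pd i f)) atTop (𝓝 (∫ x, pd i f x ∂ν))) ∧
    (∀ i, Tendsto (fun k => Ex (V k) (fun x => x i * f x) - Ex (V k) (fun x => x i) *
      Ex (V k) f) atTop (𝓝 (Cv ν (fun x => x i) f))) := by
  have h0 := lim_cs hV hτ hf.continuous hf.cs
  refine ⟨?_, ?_, fun i => ?_, fun i => ?_⟩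
  · have h1 := (lim_cs hV hτ hf.sq.continuous hf.sq.cs).sub (h0.pow 2)
    have e : Cv ν f f = ∫ x, f x ^ 2 ∂ν - (∫ x, f x ∂ν) ^ 2 := by
      unfold Cv
      simp only [sq]
    rw [e]
    exact h1
  · have h1 : ∀ k, Df (V k) f f = Ex (V k) (fun x => ‖fderiv ℝ f x‖ ^ 2) := by
      intro k
      rw [UC.Df_eq _ hf (hVc k)]
      rfl
    simp only [h1]
    have hc : Continuous (fun x => ‖fderiv ℝ f x‖ ^ 2) :=
      (hf.cd.continuous_fderiv (by simp)).norm.pow 2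
    have h2 := (hf.cs.fderiv ℝ).norm
    have hk : HasCompactSupport (fun x => ‖fderiv ℝ f x‖ ^ 2) :=
      h2.comp_left (g := fun y : ℝ => y ^ 2) (by norm_num)
    exact lim_cs hV hτ hc hk
  · exact lim_cs hV hτ (hf.pd i).continuous (hf.pd i).cs
  · unfold Cv
    refine Tendsto.sub ?_ ((lim_coord hV hτ i).mul h0)
    exact lim_cs hV hτ ((coord_cont i).mul hf.continuous) hf.cs.mul_left

end lim

/-- variances of linear functions -/
private lemma var_lin {ρ : Measure (Eu n)} (h1 : ∀ i, Integrable (fun x : Eu n => x i) ρ)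
    (h2 : ∀ i j, Integrable (fun x : Eu n => x i * x j) ρ) (w : Eu n) :
    ∫ x, inner ℝ x w * inner ℝ x w ∂ρ - (∫ x, inner ℝ x w ∂ρ) * ∫ x, inner ℝ x w ∂ρ =
      ∑ i, ∑ j, w i * w j * (∫ x, x i * x j ∂ρ - (∫ x, x i ∂ρ) * ∫ x, x j ∂ρ) := by
  have e0 : ∀ x : Eu n, inner ℝ x w = ∑ i, w i * x i := by
    intro x
    rw [PiLp.inner_apply]
    exact Finset.sum_congr rfl fun i _ => by simp
  have e1 : ∫ x, inner ℝ x w ∂ρ = ∑ i, w i * ∫ x, x i ∂ρ := by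
    simp only [e0]
    rw [integral_finsetSum _ (fun i _ => (h1 i).const_mul _)]
    exact Finset.sum_congr rfl fun i _ => integral_const_mul _ _
  have e2 : ∫ x, inner ℝ x w * inner ℝ x w ∂ρ =
      ∑ i, ∑ j, w i * w j * ∫ x, x i * x j ∂ρ := by
    have e3 : ∀ x : Eu n, inner ℝ x w * inner ℝ x w = ∑ i, ∑ j, w i * w j * (x i * x j) := by
      intro x
      rw [e0, Finset.sum_mul_sum]
      exact Finset.sum_congr rfl fun i _ => Finset.sum_congr rfl fun j _ => by ring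
    simp only [e3]
    rw [integral_finsetSum _ (fun i _ => integrable_finsetSum _
      fun j _ => (h2 i j).const_mul _)]
    refine Finset.sum_congr rfl fun i _ => ?_
    rw [integral_finsetSum _ (fun j _ => (h2 i j).const_mul _)]
    exact Finset.sum_congr rfl fun j _ => integral_const_mul _ _
  rw [e1, e2, Finset.sum_mul_sum, ← Finset.sum_sub_distrib]
  refine Finset.sum_congr rfl fun i _ => ?_
  rw [← Finset.sum_sub_distrib]
  exact Finset.sum_congr rfl fun j _ => by ring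

/-- difference of the covariances -/
private lemma quad_diff (C C' : Fin n → Fin n → ℝ) (w : Eu n) :
    ∑ i, ∑ j, w i * w j * C i j ≤ ∑ i, ∑ j, w i * w j * C' i j +
      (∑ i, ∑ j, |C i j - C' i j|) * ‖w‖ ^ 2 := by
  have h1 : ∑ i, ∑ j, w i * w j * C i j - ∑ i, ∑ j, w i * w j * C' i j =
      ∑ i, ∑ j, w i * w j * (C i j - C' i j) := by
    rw [← Finset.sum_sub_distrib]
    refine Finset.sum_congr rfl fun i _ => ?_
    rw [← Finset.sum_sub_distrib]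
    exact Finset.sum_congr rfl fun j _ => by ring
  have h2 : ∑ i, ∑ j, w i * w j * (C i j - C' i j) ≤
      ∑ i, ∑ j, |C i j - C' i j| * ‖w‖ ^ 2 := by
    refine Finset.sum_le_sum fun i _ => Finset.sum_le_sum fun j _ => ?_
    have h3 : |w i * w j| ≤ ‖w‖ ^ 2 := by
      rw [abs_mul, sq]
      exact mul_le_mul (coord_le w i) (coord_le w j) (abs_nonneg _) (norm_nonneg _)
    calc w i * w j * (C i j - C' i j) ≤ |w i * w j * (C i j - C' i j)| := le_abs_self _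
      _ = |C i j - C' i j| * |w i * w j| := by rw [abs_mul, mul_comm]
      _ ≤ _ := mul_le_mul_of_nonneg_left h3 (abs_nonneg _)
  have h4 : ∑ i, ∑ j, |C i j - C' i j| * ‖w‖ ^ 2 =
      (∑ i, ∑ j, |C i j - C' i j|) * ‖w‖ ^ 2 := by
    rw [Finset.sum_mul]
    exact Finset.sum_congr rfl fun i _ => by rw [Finset.sum_mul]
  linarith

section int
variable {V : Eu n → ℝ} {κ Λ c0 : ℝ}

private lemma sp_int (h : SP V κ Λ c0) {F : Eu n → ℝ} (hF : Continuous F)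
    (hb : ∀ x, |F x| ≤ (1 + ‖x‖) ^ 4) : Integrable F (tgt V) := by
  have hV := h.cd.continuous
  have h1 : Integrable (fun x => F x * Real.exp (-V x)) := by
    refine h.int4.mono' (by fun_prop) (ae_of_all _ fun x => ?_)
    rw [Real.norm_eq_abs, abs_mul, Real.abs_exp]
    exact mul_le_mul_of_nonneg_right (hb x) (Real.exp_pos _).le
  unfold tgt
  have e3 : (fun x : Eu n => ENNReal.ofReal (Real.exp (-V x))) =
      fun x => ((Real.toNNReal (Real.exp (-V x)) : NNReal) : ℝ≥0∞) := rfl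
  have hm : Measurable (fun x : Eu n => Real.exp (-V x)) := by fun_prop
  rw [e3, integrable_withDensity_iff_integrable_smul hm.real_toNNReal]
  refine h1.congr (ae_of_all _ fun x => ?_)
  simp only [NNReal.smul_def, Real.coe_toNNReal _ (Real.exp_pos _).le, smul_eq_mul]
  ring

private lemma sp_int1 (h : SP V κ Λ c0) (i : Fin n) :
    Integrable (fun x : Eu n => x i) (tgt V) := by
  apply sp_int h (coord_cont i)
  intro x
  have h1 := coord_le x i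
  have h2 : 1 + ‖x‖ ≤ (1 + ‖x‖) ^ 4 :=
    le_self_pow₀ (by linarith [norm_nonneg x]) (by norm_num)
  linarith

private lemma sp_int2 (h : SP V κ Λ c0) (i j : Fin n) :
    Integrable (fun x : Eu n => x i * x j) (tgt V) := by
  apply sp_int h ((coord_cont i).mul (coord_cont j))
  intro x
  change |x i * x j| ≤ _
  rw [abs_mul]
  have h1 := mul_le_mul (coord_le x i) (coord_le x j) (abs_nonneg _) (norm_nonneg _)
  have h2 : (1 + ‖x‖) ^ 2 ≤ (1 + ‖x‖) ^ 4 :=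
    pow_le_pow_right₀ (by linarith [norm_nonneg x]) (by norm_num)
  nlinarith [norm_nonneg x]

private lemma sp_tgt (h : SP V κ Λ c0) (F : Eu n → ℝ) : ∫ x, F x ∂(tgt V) = Ex V F :=
  integral_tgt h.cd.continuous F

private lemma sp_varlin (h : SP V κ Λ c0) (w : Eu n) :
    VarE V (fun x => inner ℝ x w) = ∑ i, ∑ j, w i * w j *
      (Ex V (fun x => x i * x j) - Ex V (fun x => x i) * Ex V (fun x => x j)) := by
  have h1 := var_lin (sp_int1 h) (sp_int2 h) w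
  simp only [sp_tgt h] at h1
  unfold VarE
  simp only [sq]
  exact h1

end int

/-- approximation with control of the covariance -/
private lemma cov_approx {ν : Measure (Eu n)} {R τ : ℝ} [IsProbabilityMeasure ν] (hR : BS R ν)
    (hτ : 0 < τ) {V : ℕ → Eu n → ℝ} (hV : Apx ν τ V) (hSP : ∀ k, ∃ Λ c0, SP (V k) τ Λ c0)
    {s : ℝ} (hs0 : 0 ≤ s)
    (hs : ∀ w : Eu n, Cv ν (fun x => inner ℝ x w) (fun x => inner ℝ x w) ≤ s * ‖w‖ ^ 2) :
    ∃ S : ℕ → ℝ, (∀ k, 0 < S k) ∧ (∀ k, CovLe (V k) (S k)) ∧ Tendsto S atTop (𝓝 s) := by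
  set C : ℕ → Fin n → Fin n → ℝ := fun k i j =>
    Ex (V k) (fun x => x i * x j) - Ex (V k) (fun x => x i) * Ex (V k) (fun x => x j) with hC
  set C' : Fin n → Fin n → ℝ := fun i j =>
    ∫ x, x i * x j ∂ν - (∫ x, x i ∂ν) * ∫ x, x j ∂ν with hC'
  have hlim : ∀ i j, Tendsto (fun k => C k i j) atTop (𝓝 (C' i j)) := fun i j =>
    (lim_coord2 hV hτ i j).sub ((lim_coord hV hτ i).mul (lim_coord hV hτ j))
  refine ⟨fun k => s + ∑ i, ∑ j, |C k i j - C' i j| + 1 / ((k : ℝ) + 1), fun k => ?_,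
    fun k w => ?_, ?_⟩
  · have h1 : 0 ≤ ∑ i, ∑ j, |C k i j - C' i j| :=
      Finset.sum_nonneg fun i _ => Finset.sum_nonneg fun j _ => abs_nonneg _
    have h2 : (0 : ℝ) < 1 / ((k : ℝ) + 1) := by positivity
    linarith
  · obtain ⟨Λ, c0, hk⟩ := hSP k
    rw [sp_varlin hk]
    have h1 := quad_diff (C k) C' w
    have h2 := var_lin (ρ := ν) (fun i => bs_int hR (coord_cont i))
      (fun i j => bs_int hR ((coord_cont i).mul (coord_cont j))) w
    have h3 := hs w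
    unfold Cv at h3
    rw [h2] at h3
    have h4 : 0 ≤ 1 / ((k : ℝ) + 1) * ‖w‖ ^ 2 := by positivity
    calc ∑ i, ∑ j, w i * w j * C k i j ≤ ∑ i, ∑ j, w i * w j * C' i j +
          (∑ i, ∑ j, |C k i j - C' i j|) * ‖w‖ ^ 2 := h1
      _ ≤ s * ‖w‖ ^ 2 + (∑ i, ∑ j, |C k i j - C' i j|) * ‖w‖ ^ 2 +
          1 / ((k : ℝ) + 1) * ‖w‖ ^ 2 := by linarith
      _ = _ := by ring
  · have h1 : Tendsto (fun k => ∑ i, ∑ j, |C k i j - C' i j|) atTop (𝓝 0) := by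
      have h2 : Tendsto (fun k => ∑ i, ∑ j, |C k i j - C' i j|) atTop
          (𝓝 (∑ i, ∑ j, |C' i j - C' i j|)) :=
        tendsto_finsetSum _ fun i _ => tendsto_finsetSum _ fun j _ =>
          ((hlim i j).sub_const _).abs
      simpa using h2
    have h3 := (h1.const_add s).add tendsto_one_div_add_atTop_nhds_zero_nat
    simpa using h3

variable {ν : Measure (Eu n)} {R τ : ℝ}

/-- A-P1 from its smooth level -/
theorem ulc_poincare_of (p1 : P1s n) (hν : IsProbabilityMeasure ν) (hR : BS R ν) (hτ : 0 < τ)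
    (hu : ULC τ ν) {f : Eu n → ℝ} (hf : ContDiff ℝ 1 f) :
    Cv ν f f ≤ 1 / τ * ∫ x, ‖fderiv ℝ f x‖ ^ 2 ∂ν := by
  obtain ⟨V, hSP, hV⟩ := ulc_approx hν hR hτ hu
  have hVc : ∀ k, Continuous (V k) := fun k => by
    obtain ⟨Λ, c0, h⟩ := hSP k
    exact h.cd.continuous
  have htt : ∀ g : Eu n → ℝ, UC.TT g → Cv ν g g ≤ 1 / τ * ∫ x, ‖fderiv ℝ g x‖ ^ 2 ∂ν := by
    intro g hg
    obtain ⟨l1, l2, -, -⟩ := lim_tt hV hτ hVc hg
    refine le_of_tendsto_of_tendsto' l1 (l2.const_mul _) fun k => ?_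
    obtain ⟨Λ, c0, h⟩ := hSP k
    exact p1 _ _ _ _ h g hg
  obtain ⟨g, hg, l1, l2, -, -⟩ := c1_limits hR hf
  exact le_of_tendsto_of_tendsto' l1 (l2.const_mul _) fun k => htt _ (hg k)

/-- A-P2 from its smooth level -/
theorem ulc_improved_of (p2 : P2s n) (hν : IsProbabilityMeasure ν) (hR : BS R ν) (hτ : 0 < τ)
    (hu : ULC τ ν) {s : ℝ} (hs0 : 0 ≤ s)
    (hs : ∀ w : Eu n, Cv ν (fun x => inner ℝ x w) (fun x => inner ℝ x w) ≤ s * ‖w‖ ^ 2)
    {f : Eu n → ℝ} (hf : ContDiff ℝ 1 f) :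
    Cv ν f f ≤ Real.sqrt (s / τ) * ∫ x, ‖fderiv ℝ f x‖ ^ 2 ∂ν := by
  obtain ⟨V, hSP, hV⟩ := ulc_approx hν hR hτ hu
  have hVc : ∀ k, Continuous (V k) := fun k => by
    obtain ⟨Λ, c0, h⟩ := hSP k
    exact h.cd.continuous
  obtain ⟨S, hS0, hS, hSl⟩ := cov_approx hR hτ hV hSP hs0 hs
  have hsq : Tendsto (fun k => Real.sqrt (S k / τ)) atTop (𝓝 (Real.sqrt (s / τ))) :=
    (hSl.div_const τ).sqrt
  have htt : ∀ g : Eu n → ℝ, UC.TT g →
      Cv ν g g ≤ Real.sqrt (s / τ) * ∫ x, ‖fderiv ℝ g x‖ ^ 2 ∂ν := by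
    intro g hg
    obtain ⟨l1, l2, -, -⟩ := lim_tt hV hτ hVc hg
    refine le_of_tendsto_of_tendsto' l1 (hsq.mul l2) fun k => ?_
    obtain ⟨Λ, c0, h⟩ := hSP k
    exact p2 _ _ _ _ _ h (hS0 k) (hS k) g hg
  obtain ⟨g, hg, l1, l2, -, -⟩ := c1_limits hR hf
  exact le_of_tendsto_of_tendsto' l1 (l2.const_mul _) fun k => htt _ (hg k)

/-- general form of A-P3 from its smooth level -/
theorem ulc_covform_of (p3 : P3s n) (hν : IsProbabilityMeasure ν) (hR : BS R ν) (hτ : 0 < τ)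
    (hu : ULC τ ν) {s : ℝ} (hs0 : 0 ≤ s)
    (hs : ∀ w : Eu n, Cv ν (fun x => inner ℝ x w) (fun x => inner ℝ x w) ≤ s * ‖w‖ ^ 2)
    {f : Eu n → ℝ} (hf : ContDiff ℝ 1 f) :
    (Cv ν f f - ∑ i, (∫ x, pd i f x ∂ν) * Cv ν (fun x => x i) f) ^ 2 ≤
      Real.sqrt (s / τ) / (1 + τ * Real.sqrt (s / τ)) * (∫ x, ‖fderiv ℝ f x‖ ^ 2 ∂ν) *
        Cv ν f f := by
  obtain ⟨V, hSP, hV⟩ := ulc_approx hν hR hτ hu
  have hVc : ∀ k, Continuous (V k) := fun k => by
    obtain ⟨Λ, c0, h⟩ := hSP k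
    exact h.cd.continuous
  obtain ⟨S, hS0, hS, hSl⟩ := cov_approx hR hτ hV hSP hs0 hs
  have hsq : Tendsto (fun k => Real.sqrt (S k / τ)) atTop (𝓝 (Real.sqrt (s / τ))) :=
    (hSl.div_const τ).sqrt
  have hne : 1 + τ * Real.sqrt (s / τ) ≠ 0 := by positivity
  have hK : Tendsto (fun k => Real.sqrt (S k / τ) / (1 + τ * Real.sqrt (S k / τ))) atTop
      (𝓝 (Real.sqrt (s / τ) / (1 + τ * Real.sqrt (s / τ)))) :=
    hsq.div ((hsq.const_mul τ).const_add 1) hne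
  have htt : ∀ g : Eu n → ℝ, UC.TT g →
      (Cv ν g g - ∑ i, (∫ x, pd i g x ∂ν) * Cv ν (fun x => x i) g) ^ 2 ≤
      Real.sqrt (s / τ) / (1 + τ * Real.sqrt (s / τ)) * (∫ x, ‖fderiv ℝ g x‖ ^ 2 ∂ν) *
        Cv ν g g := by
    intro g hg
    obtain ⟨l1, l2, l3, l4⟩ := lim_tt hV hτ hVc hg
    refine le_of_tendsto_of_tendsto' ((l1.sub (tendsto_finsetSum _ fun i _ =>
      (l3 i).mul (l4 i))).pow 2) ((hK.mul l2).mul l1) fun k => ?_
    obtain ⟨Λ, c0, h⟩ := hSP k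
    exact p3 _ _ _ _ _ h (hS0 k) (hS k) g hg
  obtain ⟨g, hg, l1, l2, l3, l4⟩ := c1_limits hR hf
  exact le_of_tendsto_of_tendsto' ((l1.sub (tendsto_finsetSum _ fun i _ =>
      (l3 i).mul (l4 i))).pow 2) ((l2.const_mul _).mul l1) fun k => htt _ (hg k)

/-- covariances with oneself are nonnegative -/
private lemma cv_nonneg [IsProbabilityMeasure ν] (hR : BS R ν) {f : Eu n → ℝ}
    (hf : Continuous f) : 0 ≤ Cv ν f f := by
  have hm : MemLp f 2 ν := by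
    have h1 := bs_int hR (hf.pow 2)
    exact (memLp_two_iff_integrable_sq hf.aestronglyMeasurable).2 h1
  have h2 := variance_nonneg f ν
  rw [variance_eq_sub hm] at h2
  unfold Cv
  simpa [sq] using h2

/-- A-P3 from its smooth level -/
theorem ulc_centered_of (p3 : P3s n) (hν : IsProbabilityMeasure ν) (hR : BS R ν) (hτ : 0 < τ)
    (hu : ULC τ ν) {s : ℝ} (hs0 : 0 ≤ s)
    (hs : ∀ w : Eu n, Cv ν (fun x => inner ℝ x w) (fun x => inner ℝ x w) ≤ s * ‖w‖ ^ 2)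
    {f : Eu n → ℝ} (hf : ContDiff ℝ 1 f) (h0 : ∀ w, ∫ x, fderiv ℝ f x w ∂ν = 0) :
    Cv ν f f ≤ 1 / τ * (Real.sqrt (s * τ) / (1 + Real.sqrt (s * τ))) *
      ∫ x, ‖fderiv ℝ f x‖ ^ 2 ∂ν := by
  have h1 := ulc_covform_of p3 hν hR hτ hu hs0 hs hf
  have h2 : ∀ i, ∫ x, pd i f x ∂ν = 0 := fun i => h0 (ej i)
  simp only [h2, zero_mul, Finset.sum_const_zero, sub_zero] at h1
  have e1 : Real.sqrt (s * τ) = τ * Real.sqrt (s / τ) := by
    have h3 : s * τ = τ ^ 2 * (s / τ) := by field_simp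
    rw [h3, Real.sqrt_mul (by positivity), Real.sqrt_sq hτ.le]
  have e2 : 1 / τ * (Real.sqrt (s * τ) / (1 + Real.sqrt (s * τ))) =
      Real.sqrt (s / τ) / (1 + τ * Real.sqrt (s / τ)) := by
    rw [e1]
    field_simp
  rw [e2]
  have h4 := cv_nonneg (ν := ν) hR hf.continuous
  have h5 : 0 ≤ Real.sqrt (s / τ) / (1 + τ * Real.sqrt (s / τ)) *
      ∫ x, ‖fderiv ℝ f x‖ ^ 2 ∂ν := by
    have h6 : 0 ≤ ∫ x, ‖fderiv ℝ f x‖ ^ 2 ∂ν := integral_nonneg fun x => sq_nonneg _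
    positivity
  by_contra hcon
  push Not at hcon
  nlinarith

end Pool.Agent.Lib.MP_6d896a_gt.LG
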