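import Mathlib
import Pool.Agent.Lib.MP_6d896a_gt.LG.SPDefs

/-!
Project LG, piece PQ (cubic Lichnerowicz inequality): definitions. Families of test functions,
their energy excess, and approximate resolvents.
-/

set_option autoImplicit false

namespace Pool.Agent.Lib.MP_6d896a_gt.LG

open MeasureTheory Filter Topology Set
open scoped ENNReal NNReal

variable {n : ℕ}

/-- centred coordinates -/
noncomputable def xc (V : Eu n → ℝ) (i : Fin n) (x : Eu n) : ℝ :=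
  x i - UC.Ex V (fun y => y i)

/-- the thin shell inequality for quadratic forms -/
def TSq (V : Eu n → ℝ) (Q : ℝ) : Prop :=
  ∀ B : Fin n → Fin n → ℝ, (∀ i j, B i j = B j i) →
    VarE V (fun x => ∑ i, ∑ j, B i j * (xc V i x * xc V j x)) ≤ Q * ∑ i, ∑ j, B i j ^ 2

section fam
variable {ι : Type} [Fintype ι]

/-- second moment of a family -/
noncomputable def Nn (V : Eu n → ℝ) (G : ι → Eu n → ℝ) : ℝ := ∑ J, UC.Ex V (fun x => G J x ^ 2)

/-- square of the mean of a family -/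
noncomputable def An (V : Eu n → ℝ) (G : ι → Eu n → ℝ) : ℝ := ∑ J, UC.Ex V (G J) ^ 2

/-- Dirichlet form of a family -/
noncomputable def Dn (V : Eu n → ℝ) (G : ι → Eu n → ℝ) : ℝ := ∑ J, UC.Df V (G J) (G J)

/-- energy excess of a family -/
noncomputable def en (V : Eu n → ℝ) (l : ℝ) (G : ι → Eu n → ℝ) : ℝ :=
  Dn V G / l - (Nn V G - An V G)

/-- the gradient family, normalised -/
noncomputable def nx (l : ℝ) (U : ι → Eu n → ℝ) (p : Fin n × ι) (x : Eu n) : ℝ :=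
  (Real.sqrt l)⁻¹ * UC.pd p.1 (U p.2) x

/-- families of gradients -/
def Sy (H : Fin n × ι → Eu n → ℝ) : Prop :=
  ∀ (j k : Fin n) (J : ι) (x : Eu n), UC.pd j (H (k, J)) x = UC.pd k (H (j, J)) x

/-- `U` is approximately `2 l (l - L)⁻¹ (G - E G)` -/
structure Ap (V : Eu n → ℝ) (l η : ℝ) (G U : ι → Eu n → ℝ) : Prop where
  tt : ∀ J, UC.TT (U J)
  n1 : Nn V (nx l U) ≤ Nn V G - An V G + η
  n2 : Nn V G - An V G - en V l G / 4 - η ≤ Nn V (nx l U)
  w2 : ∑ J, UC.Ex V (fun x => UC.LL V (U J) x ^ 2) ≤ l ^ 2 * (en V l G + Nn V (nx l U) + η)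
  dg : Dn V (fun J x => U J x - G J x) ≤ l * (en V l G + η)
  wg : ∑ J, UC.Ex V (fun x => (UC.LL V (U J) x + l * (G J x - UC.Ex V (G J))) ^ 2) ≤
    l ^ 2 * (en V l G / 4 + η)

end fam

/-- the smooth level of the cubic Lichnerowicz inequality -/
def P4s (n : ℕ) : Prop :=
  ∀ (V : Eu n → ℝ) (κ Λ c0 S Q : ℝ), SP V κ Λ c0 → 0 < S → 0 ≤ Q → CovLe V S → TSq V Q →
    ∀ f : Eu n → ℝ, UC.TT f →
      VarE V f ≤ (1000 * S + (5000 * (Q + S ^ 2) / κ) ^ (1 / 3 : ℝ)) * UC.Df V f f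

end Pool.Agent.Lib.MP_6d896a_gt.LG
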