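import Mathlib
import Pool.Agent.Lib.MP_6d896a_gt.LG.PQDefs
import Pool.Agent.Lib.MP_6d896a_gt.LG.PA2
import Pool.Agent.Lib.MP_6d896a_gt.LG.Basic

/-!
Project LG, piece PQ4: the thin shell inequality for quadratic forms, and the cubic Lichnerowicz
inequality for uniformly log-concave measures with bounded support from its smooth level.
-/

set_option autoImplicit false

namespace Pool.Agent.Lib.MP_6d896a_gt.LG

open MeasureTheory ProbabilityTheory Filter Topology Set Metric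
open scoped ENNReal NNReal ContDiff
open UC (Ex Df pd)

namespace PQ4

variable {n : ℕ} {ν : Measure (Eu n)} {R : ℝ}

private lemma int_inner (hν : IsProbabilityMeasure ν) (hR : BS R ν) (w : Eu n) :
    ∫ x, inner ℝ x w ∂ν = inner ℝ (mn ν) w := by
  have h1 : ∀ x : Eu n, inner ℝ x w = ∑ i, x i * w i := by
    intro x
    simp [PiLp.inner_apply, mul_comm]
  simp only [h1]
  rw [integral_finsetSum]
  · simp only [integral_mul_const]
    rfl
  · intro i _
    exact bs_int hR (by fun_prop)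

/-- the thin shell bound for a linear image (helper94, PB3) -/
private lemma thin_app {C : ℝ} (hW : Thin n C) (hν : IsProbabilityMeasure ν) (hR : BS R ν)
    (hpl : FP.PLm ν) (w : Fin n → Eu n) (σ : Fin n → ℝ) (hσ : ∀ k, 0 ≤ σ k) :
    Cv ν (fun x => ∑ k, σ k * inner ℝ (x - mn ν) (w k) ^ 2)
      (fun x => ∑ k, σ k * inner ℝ (x - mn ν) (w k) ^ 2) ≤
    C * ∑ k, ∑ l, σ k * σ l *
      Cv ν (fun x => inner ℝ x (w k)) (fun x => inner ℝ x (w l)) ^ 2 := by
  let L0 : Eu n →ₗ[ℝ] Eu n :=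
    { toFun := fun x => WithLp.toLp 2 (fun k => Real.sqrt (σ k) * inner ℝ x (w k))
      map_add' := by
        intro x y
        ext k
        simp [inner_add_left, mul_add]
      map_smul' := by
        intro c x
        ext k
        simp [inner_smul_left]
        ring }
  let L : Eu n →L[ℝ] Eu n := LinearMap.toContinuousLinearMap L0
  have hL : ∀ x k, (L x) k = Real.sqrt (σ k) * inner ℝ x (w k) := fun x k => rfl
  have hLc : Continuous L := L.continuous
  have hLm : Measurable L := hLc.measurable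
  set ν' := ν.map L with hν'
  have hp : IsProbabilityMeasure ν' := Measure.isProbabilityMeasure_map hLm.aemeasurable
  have hpl' : FP.PLm ν' := FP.PLm.map hpl L0 hLm
  have hR' : BS (‖L‖ * R) ν' := by
    unfold BS
    rw [hν', ae_map_iff hLm.aemeasurable (measurableSet_le measurable_norm measurable_const)]
    filter_upwards [hR] with x hx
    exact (L.le_opNorm x).trans (by gcongr)
  have hint : ∀ f : Eu n → ℝ, Continuous f → ∫ y, f y ∂ν' = ∫ x, f (L x) ∂ν := by
    intro f hf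
    rw [hν', integral_map hLm.aemeasurable hf.aestronglyMeasurable]
  have hmn : mn ν' = L (mn ν) := by
    ext k
    have h1 : (mn ν') k = ∫ y, y k ∂ν' := rfl
    rw [h1, hint _ (by fun_prop), hL, ← int_inner hν hR, ← integral_const_mul]
    rfl
  have hcv : ∀ f g : Eu n → ℝ, Continuous f → Continuous g →
      Cv ν' f g = Cv ν (fun x => f (L x)) (fun x => g (L x)) := by
    intro f g hf hg
    rw [Cv, hint _ (by fun_prop), hint _ hf, hint _ hg]
    rfl
  have hnorm : ∀ x, ‖L x - mn ν'‖ ^ 2 = ∑ k, σ k * inner ℝ (x - mn ν) (w k) ^ 2 := by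
    intro x
    rw [hmn, ← map_sub, EuclideanSpace.norm_sq_eq]
    refine Finset.sum_congr rfl fun k _ => ?_
    rw [hL, Real.norm_eq_abs, sq_abs, mul_pow, Real.sq_sqrt (hσ k)]
  have hA : ∀ k l, Am ν' k l = Real.sqrt (σ k) * Real.sqrt (σ l) *
      Cv ν (fun x => inner ℝ x (w k)) (fun x => inner ℝ x (w l)) := by
    intro k l
    have h1 : Am ν' k l = Cv ν' (fun x => x k) (fun x => x l) := rfl
    rw [h1, hcv _ _ (by fun_prop) (by fun_prop)]
    simp only [hL, Cv]
    have h2 : ∀ x : Eu n, Real.sqrt (σ k) * inner ℝ x (w k) * (Real.sqrt (σ l) * inner ℝ x (w l))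
        = Real.sqrt (σ k) * Real.sqrt (σ l) * (inner ℝ x (w k) * inner ℝ x (w l)) := by
      intro x; ring
    simp only [h2, integral_const_mul]
    ring
  have h3 := hW ν' (‖L‖ * R) hp hpl' hR'
  rw [hcv _ _ (by fun_prop) (by fun_prop)] at h3
  simp only [hnorm] at h3
  refine h3.trans (le_of_eq ?_)
  congr 1
  rw [Matrix.trace]
  refine Finset.sum_congr rfl fun k _ => ?_
  rw [Matrix.diag_apply, Matrix.mul_apply]
  refine Finset.sum_congr rfl fun l _ => ?_
  rw [hA, hA]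
  have h4 : Cv ν (fun x => inner ℝ x (w l)) (fun x => inner ℝ x (w k)) =
      Cv ν (fun x => inner ℝ x (w k)) (fun x => inner ℝ x (w l)) := Cv_comm _ _
  rw [h4]
  have h5 := Real.mul_self_sqrt (hσ k)
  have h6 := Real.mul_self_sqrt (hσ l)
  calc _ = (Real.sqrt (σ k) * Real.sqrt (σ k)) * (Real.sqrt (σ l) * Real.sqrt (σ l)) *
        Cv ν (fun x => inner ℝ x (w k)) (fun x => inner ℝ x (w l)) ^ 2 := by ring
    _ = _ := by rw [h5, h6]

private lemma cv_sub (hν : IsProbabilityMeasure ν) {f g : Eu n → ℝ}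
    (hf : BM ν f) (hg : BM ν g) :
    Cv ν (fun x => f x - g x) (fun x => f x - g x) ≤ 2 * Cv ν f f + 2 * Cv ν g g := by
  have h1 := Cv_self_nonneg (hf.add hg)
  rw [Cv_add_left hf hg (hf.add hg), Cv_add_right hf hg hf, Cv_add_right hf hg hg,
    Cv_comm g f] at h1
  rw [Cv_sub_left hf hg (hf.sub hg), Cv_sub_right hf hg hf, Cv_sub_right hf hg hg, Cv_comm g f]
  linarith

end PQ4

/-- PQ4a: the thin shell inequality for quadratic forms of `ν` -/
theorem thin_quad {n : ℕ} {C : ℝ} (hC : 0 ≤ C) (hW : Thin n C) {ν : Measure (Eu n)} {R s : ℝ}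
    (hν : IsProbabilityMeasure ν) (hR : BS R ν) (hpl : FP.PLm ν)
    (hs : ∀ w : Eu n, Cv ν (fun x => inner ℝ x w) (fun x => inner ℝ x w) ≤ s * ‖w‖ ^ 2)
    (B : Fin n → Fin n → ℝ) (hB : ∀ i j, B i j = B j i) :
    Cv ν (fun x => ∑ i, ∑ j, B i j * ((x i - mn ν i) * (x j - mn ν j)))
      (fun x => ∑ i, ∑ j, B i j * ((x i - mn ν i) * (x j - mn ν j))) ≤
      2 * C * s ^ 2 * ∑ i, ∑ j, B i j ^ 2 := by
  let M : Matrix (Fin n) (Fin n) ℝ := fun i j => B i j
  have hM : M.IsHermitian := by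
    ext i j
    rw [Matrix.conjTranspose_apply, star_trivial]
    exact hB j i
  let lam := hM.eigenvalues
  let b := hM.eigenvectorBasis
  let v : Fin n → Fin n → ℝ := fun k i => (b k) i
  have hE : ∀ k i, ∑ j, B i j * v k j = lam k * v k i := by
    intro k i
    have h1 := congrFun (hM.mulVec_eigenvectorBasis k) i
    simpa [Matrix.mulVec, dotProduct] using h1
  have hO2 : ∀ k l, ∑ i, v k i * v l i = if k = l then 1 else 0 := by
    intro k l
    have h1 := orthonormal_iff_ite.1 b.orthonormal l k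
    rw [PiLp.inner_apply] at h1
    simp only [v]
    have h2 : (if l = k then (1:ℝ) else 0) = if k = l then 1 else 0 := by
      simp only [eq_comm]
    rw [← h2, ← h1]
    refine Finset.sum_congr rfl fun i _ => ?_
    simp
  have hO1 : ∀ i j, ∑ k, v k i * v k j = if i = j then 1 else 0 := by
    have h1 : (Matrix.of v) * (Matrix.of v).transpose = 1 := by
      ext k l
      rw [Matrix.mul_apply, Matrix.one_apply, ← hO2 k l]
      rfl
    have h2 : (Matrix.of v).transpose * (Matrix.of v) = 1 := by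
      exact mul_eq_one_comm.1 h1
    intro i j
    have h3 := congrFun (congrFun h2 i) j
    rw [Matrix.mul_apply, Matrix.one_apply] at h3
    rw [← h3]
    rfl
  have hMe : ∀ i j, B i j = ∑ k, lam k * v k i * v k j := by
    intro i j
    calc B i j = ∑ l, B i l * (if l = j then 1 else 0) := by simp
      _ = ∑ l, B i l * ∑ k, v k l * v k j := by simp only [hO1]
      _ = ∑ k, (∑ l, B i l * v k l) * v k j := by
          simp only [Finset.mul_sum, Finset.sum_mul]
          rw [Finset.sum_comm]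
          refine Finset.sum_congr rfl fun k _ => Finset.sum_congr rfl fun l _ => ?_
          ring
      _ = _ := by simp only [hE]
  have hhl : ∑ i, ∑ j, B i j ^ 2 = ∑ k, lam k ^ 2 := by
    calc ∑ i, ∑ j, B i j ^ 2 = ∑ i, ∑ j, B i j * ∑ k, lam k * v k i * v k j := by
          refine Finset.sum_congr rfl fun i _ => Finset.sum_congr rfl fun j _ => ?_
          rw [← hMe]; ring
      _ = ∑ k, lam k * ∑ i, v k i * ∑ j, B i j * v k j := by
          simp only [Finset.mul_sum]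
          have e1 : ∀ i : Fin n, ∑ j, ∑ k, B i j * (lam k * v k i * v k j) =
              ∑ k, ∑ j, B i j * (lam k * v k i * v k j) := fun i => Finset.sum_comm
          simp only [e1]
          rw [Finset.sum_comm]
          refine Finset.sum_congr rfl fun k _ => Finset.sum_congr rfl fun i _ =>
            Finset.sum_congr rfl fun j _ => ?_
          ring
      _ = ∑ k, lam k ^ 2 := by
          refine Finset.sum_congr rfl fun k _ => ?_
          simp only [hE]
          have e2 : ∑ i, v k i * (lam k * v k i) = lam k * ∑ i, v k i * v k i := by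
            rw [Finset.mul_sum]
            refine Finset.sum_congr rfl fun i _ => ?_
            ring
          rw [e2, hO2, if_pos rfl]
          ring
  have hinn : ∀ (x : Eu n) k, inner ℝ x (b k) = ∑ i, v k i * x i := by
    intro x k
    rw [PiLp.inner_apply]
    refine Finset.sum_congr rfl fun i _ => ?_
    simp [v]
  have hlin : ∀ u : Eu n, BM ν (fun x => inner ℝ x u) := fun u => BM.inner hR u
  -- the covariance in the basis
  set c : Fin n → Fin n → ℝ := fun k l =>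
    Cv ν (fun x => inner ℝ x (b k)) (fun x => inner ℝ x (b l)) with hc
  have hcs : ∀ k l, c k l = c l k := fun k l => Cv_comm _ _
  have hrow : ∀ k, ∑ l, c k l ^ 2 ≤ s ^ 2 := by
    intro k
    set u : Eu n := ∑ l, c k l • b l with hu
    have hun : ‖u‖ ^ 2 = ∑ l, c k l ^ 2 := by
      rw [← real_inner_self_eq_norm_sq, hu, sum_inner]
      refine Finset.sum_congr rfl fun l _ => ?_
      rw [inner_smul_left, inner_sum]
      simp_rw [inner_smul_right, b.inner_eq_ite]
      simp [sq]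
    have hcu : Cv ν (fun x => inner ℝ x (b k)) (fun x => inner ℝ x u) = ∑ l, c k l ^ 2 := by
      have e1 : (fun x : Eu n => inner ℝ x u) = fun x => ∑ l, c k l * inner ℝ x (b l) := by
        funext x
        rw [hu, inner_sum]
        simp_rw [inner_smul_right]
      rw [e1, Cv_sum_right _ (fun l _ => (hlin _).cmul _) (hlin _)]
      refine Finset.sum_congr rfl fun l _ => ?_
      rw [Cv_cmul_right]
      simp only [hc, sq]
    have h1 := Cv_sq_le (hlin (b k)) (hlin u)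
    rw [hcu] at h1
    have h2 := hs (b k)
    have h3 := hs u
    rw [b.norm_eq_one, one_pow, mul_one] at h2
    rw [hun] at h3
    have h4 := Cv_self_nonneg (hlin (b k))
    have h5 := Cv_self_nonneg (hlin u)
    have hS0 : 0 ≤ ∑ l, c k l ^ 2 := Finset.sum_nonneg fun l _ => sq_nonneg _
    rcases hS0.eq_or_lt with h0 | h0
    · rw [← h0]; positivity
    · have h6 : (∑ l, c k l ^ 2) ^ 2 ≤ s * (s * ∑ l, c k l ^ 2) :=
        h1.trans (mul_le_mul h2 h3 h5 (h4.trans h2))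
      have h7 : (∑ l, c k l ^ 2) * ∑ l, c k l ^ 2 ≤ s ^ 2 * ∑ l, c k l ^ 2 := by
        nlinarith
      exact le_of_mul_le_mul_right h7 h0
  have hvar : ∀ σ : Fin n → ℝ, (∀ k, 0 ≤ σ k) →
      Cv ν (fun x => ∑ k, σ k * inner ℝ (x - mn ν) (b k) ^ 2)
        (fun x => ∑ k, σ k * inner ℝ (x - mn ν) (b k) ^ 2) ≤ C * (s ^ 2 * ∑ k, σ k ^ 2) := by
    intro σ hσ
    refine (PQ4.thin_app hW hν hR hpl b σ hσ).trans ?_
    refine mul_le_mul_of_nonneg_left ?_ hC
    calc ∑ k, ∑ l, σ k * σ l * c k l ^ 2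
        ≤ ∑ k, ∑ l, (σ k ^ 2 / 2 * c k l ^ 2 + σ l ^ 2 / 2 * c k l ^ 2) := by
          refine Finset.sum_le_sum fun k _ => Finset.sum_le_sum fun l _ => ?_
          have h1 : σ k * σ l ≤ σ k ^ 2 / 2 + σ l ^ 2 / 2 := by
            nlinarith [sq_nonneg (σ k - σ l)]
          have := mul_le_mul_of_nonneg_right h1 (sq_nonneg (c k l))
          linarith
      _ = ∑ k, σ k ^ 2 * ∑ l, c k l ^ 2 := by
          simp only [Finset.sum_add_distrib]
          have e1 : ∑ k, ∑ l, σ l ^ 2 / 2 * c k l ^ 2 = ∑ k, ∑ l, σ k ^ 2 / 2 * c k l ^ 2 := by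
            rw [Finset.sum_comm]
            refine Finset.sum_congr rfl fun k _ => Finset.sum_congr rfl fun l _ => ?_
            rw [hcs l k]
          rw [e1, ← Finset.sum_add_distrib]
          refine Finset.sum_congr rfl fun k _ => ?_
          rw [← Finset.mul_sum]
          ring
      _ ≤ ∑ k, σ k ^ 2 * s ^ 2 :=
          Finset.sum_le_sum fun k _ => mul_le_mul_of_nonneg_left (hrow k) (sq_nonneg _)
      _ = s ^ 2 * ∑ k, σ k ^ 2 := by rw [← Finset.sum_mul]; ring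
  -- positive and negative parts
  let σp : Fin n → ℝ := fun k => max (lam k) 0
  let σm : Fin n → ℝ := fun k => max (-lam k) 0
  let fp : Eu n → ℝ := fun x => ∑ k, σp k * inner ℝ (x - mn ν) (b k) ^ 2
  let fm : Eu n → ℝ := fun x => ∑ k, σm k * inner ℝ (x - mn ν) (b k) ^ 2
  have hvp := hvar σp (fun k => le_max_right _ _)
  have hvm := hvar σm (fun k => le_max_right _ _)
  have hcp : BM ν fp := BM.cont hR (by fun_prop)
  have hcm : BM ν fm := BM.cont hR (by fun_prop)
  have hvf := PQ4.cv_sub hν hcp hcm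
  have hsum : ∑ k, σp k ^ 2 + ∑ k, σm k ^ 2 = ∑ i, ∑ j, B i j ^ 2 := by
    rw [hhl, ← Finset.sum_add_distrib]
    refine Finset.sum_congr rfl fun k _ => ?_
    simp only [σp, σm]
    rcases le_total (lam k) 0 with h0 | h0
    · rw [max_eq_right h0, max_eq_left (by linarith)]
      ring
    · rw [max_eq_left h0, max_eq_right (by linarith)]
      ring
  have hf : (fun x : Eu n => ∑ i, ∑ j, B i j * ((x i - mn ν i) * (x j - mn ν j))) =
      fun x => fp x - fm x := by
    funext x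
    simp only [fp, fm]
    rw [← Finset.sum_sub_distrib]
    have e1 : ∀ k, σp k * inner ℝ (x - mn ν) (b k) ^ 2 - σm k * inner ℝ (x - mn ν) (b k) ^ 2 =
        ∑ i, ∑ j, lam k * v k i * v k j * ((x i - mn ν i) * (x j - mn ν j)) := by
      intro k
      have h1 : σp k - σm k = lam k := by
        simp only [σp, σm]
        rcases le_total (lam k) 0 with h0 | h0
        · rw [max_eq_right h0, max_eq_left (by linarith)]
          ring
        · rw [max_eq_left h0, max_eq_right (by linarith)]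
          ring
      rw [← sub_mul, h1, hinn, sq, Finset.sum_mul_sum, Finset.mul_sum]
      refine Finset.sum_congr rfl fun i _ => ?_
      rw [Finset.mul_sum]
      refine Finset.sum_congr rfl fun j _ => ?_
      simp only [PiLp.sub_apply]
      ring
    simp only [e1]
    have e2 : ∀ i j, B i j * ((x i - mn ν i) * (x j - mn ν j)) =
        ∑ k, lam k * v k i * v k j * ((x i - mn ν i) * (x j - mn ν j)) := by
      intro i j
      rw [hMe, Finset.sum_mul]
    simp only [e2]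
    have e3 : ∀ i : Fin n, ∑ j, ∑ k, lam k * v k i * v k j * ((x i - mn ν i) * (x j - mn ν j)) =
        ∑ k, ∑ j, lam k * v k i * v k j * ((x i - mn ν i) * (x j - mn ν j)) :=
      fun i => Finset.sum_comm
    simp only [e3]
    exact Finset.sum_comm
  rw [hf]
  refine hvf.trans ?_
  calc 2 * Cv ν fp fp + 2 * Cv ν fm fm
      ≤ 2 * (C * (s ^ 2 * ∑ k, σp k ^ 2)) + 2 * (C * (s ^ 2 * ∑ k, σm k ^ 2)) :=
        add_le_add (mul_le_mul_of_nonneg_left hvp (by norm_num))
          (mul_le_mul_of_nonneg_left hvm (by norm_num))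
    _ = _ := by rw [← hsum]; ring

namespace PQ4

variable {n : ℕ}

private lemma coord_cont (i : Fin n) : Continuous (fun x : Eu n => x i) := by fun_prop

/-- continuous functions with polynomial growth -/
private def PG (d : ℕ) (F : Eu n → ℝ) : Prop :=
  Continuous F ∧ ∃ A : ℝ, 0 ≤ A ∧ ∀ x, |F x| ≤ A * (1 + ‖x‖) ^ d

private lemma PG.mul {d e : ℕ} {F G : Eu n → ℝ} (hF : PG d F) (hG : PG e G) :
    PG (d + e) (fun x => F x * G x) := by
  obtain ⟨hc, A, hA0, hA⟩ := hF
  obtain ⟨hc', A', hA0', hA'⟩ := hG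
  refine ⟨hc.mul hc', A * A', by positivity, fun x => ?_⟩
  rw [abs_mul, pow_add]
  calc |F x| * |G x| ≤ (A * (1 + ‖x‖) ^ d) * (A' * (1 + ‖x‖) ^ e) :=
        mul_le_mul (hA x) (hA' x) (abs_nonneg _) (by positivity)
    _ = _ := by ring

private lemma PG.coord (i : Fin n) : PG 1 (fun x : Eu n => x i) := by
  refine ⟨coord_cont i, 1, zero_le_one, fun x => ?_⟩
  have := coord_le x i
  rw [pow_one, one_mul]
  linarith

private lemma PG.shift (i : Fin n) (a : ℝ) : PG 1 (fun x : Eu n => x i - a) := by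
  refine ⟨by fun_prop, 1 + |a|, by positivity, fun x => ?_⟩
  have h1 := coord_le x i
  have h2 := abs_sub (x i) a
  have h3 := norm_nonneg x
  have h4 := abs_nonneg a
  rw [pow_one]
  nlinarith

private lemma PG.mono {d e : ℕ} {F : Eu n → ℝ} (hF : PG d F) (hde : d ≤ e) : PG e F := by
  obtain ⟨hc, A, hA0, hA⟩ := hF
  refine ⟨hc, A, hA0, fun x => (hA x).trans ?_⟩
  exact mul_le_mul_of_nonneg_left (pow_le_pow_right₀ (by linarith [norm_nonneg x]) hde) hA0

private lemma PG.one : PG 0 (fun _ : Eu n => (1 : ℝ)) :=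
  ⟨continuous_const, 1, zero_le_one, fun x => by simp⟩

private lemma PG.list (g : Fin n → Eu n → ℝ) (hg : ∀ i, PG 1 (g i)) (L : List (Fin n)) :
    PG L.length (fun x => (L.map (fun i => g i x)).prod) := by
  induction L with
  | nil => simpa using PG.one
  | cons i L ih =>
    have h1 := (hg i).mul ih
    have e1 : (i :: L).length = 1 + L.length := by
      rw [List.length_cons]; omega
    rw [e1]
    simpa using h1

/-- quartic growth is dominated by Gaussians -/
private lemma PG.bdd {c : ℝ} (hc : 0 < c) {F : Eu n → ℝ} (hF : PG 4 F) :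
    ∃ B, ∀ x, |F x| * Real.exp (-c * ‖x‖ ^ 2) ≤ B := by
  obtain ⟨-, A, hA0, hA⟩ := hF
  refine ⟨A * (8 * (1 + 2 / c ^ 2)), fun x => ?_⟩
  have h0 : (1 + ‖x‖) ^ 4 ≤ 8 * (1 + ‖x‖ ^ 4) := by
    have := norm_nonneg x
    nlinarith [sq_nonneg (‖x‖ - 1), sq_nonneg (‖x‖ ^ 2 - 1), sq_nonneg (‖x‖ ^ 2 - ‖x‖),
      mul_nonneg this this, pow_nonneg this 3]
  have h1 : Real.exp (-c * ‖x‖ ^ 2) ≤ 1 := by
    apply Real.exp_le_one_iff.mpr
    nlinarith [sq_nonneg ‖x‖]
  have h2 : ‖x‖ ^ 4 * Real.exp (-c * ‖x‖ ^ 2) ≤ 2 / c ^ 2 := by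
    rw [le_div_iff₀ (by positivity)]
    have h3 := Real.quadratic_le_exp_of_nonneg (x := c * ‖x‖ ^ 2) (by positivity)
    have h4 : Real.exp (c * ‖x‖ ^ 2) * Real.exp (-c * ‖x‖ ^ 2) = 1 := by
      rw [← Real.exp_add, ← Real.exp_zero]
      congr 1
      ring
    have h5 := Real.exp_pos (-c * ‖x‖ ^ 2)
    have h6 : (c * ‖x‖ ^ 2) ^ 2 / 2 ≤ Real.exp (c * ‖x‖ ^ 2) := by
      have : 0 ≤ c * ‖x‖ ^ 2 := by positivity
      linarith
    calc ‖x‖ ^ 4 * Real.exp (-c * ‖x‖ ^ 2) * c ^ 2 =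
          2 * ((c * ‖x‖ ^ 2) ^ 2 / 2) * Real.exp (-c * ‖x‖ ^ 2) := by ring
      _ ≤ 2 * Real.exp (c * ‖x‖ ^ 2) * Real.exp (-c * ‖x‖ ^ 2) := by gcongr
      _ = 2 := by rw [mul_assoc, h4, mul_one]
  have h6 := Real.exp_pos (-c * ‖x‖ ^ 2)
  calc |F x| * Real.exp (-c * ‖x‖ ^ 2)
      ≤ A * (8 * (1 + ‖x‖ ^ 4)) * Real.exp (-c * ‖x‖ ^ 2) :=
        mul_le_mul_of_nonneg_right ((hA x).trans (mul_le_mul_of_nonneg_left h0 hA0)) h6.le
    _ = A * (8 * (Real.exp (-c * ‖x‖ ^ 2) + ‖x‖ ^ 4 * Real.exp (-c * ‖x‖ ^ 2))) := by ring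
    _ ≤ A * (8 * (1 + 2 / c ^ 2)) := by gcongr

section int
variable {V : Eu n → ℝ} {κ Λ c0 : ℝ}

private lemma sp_int (h : SP V κ Λ c0) {F : Eu n → ℝ} (hF : PG 4 F) : Integrable F (tgt V) := by
  obtain ⟨hFc, A, hA0, hA⟩ := hF
  have hV := h.cd.continuous
  have h1 : Integrable (fun x => F x * Real.exp (-V x)) := by
    refine (h.int4.const_mul A).mono' (by fun_prop) (ae_of_all _ fun x => ?_)
    rw [Real.norm_eq_abs, abs_mul, Real.abs_exp, ← mul_assoc]
    exact mul_le_mul_of_nonneg_right (hA x) (Real.exp_pos _).le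
  unfold tgt
  have e3 : (fun x : Eu n => ENNReal.ofReal (Real.exp (-V x))) =
      fun x => ((Real.toNNReal (Real.exp (-V x)) : NNReal) : ℝ≥0∞) := rfl
  have hm : Measurable (fun x : Eu n => Real.exp (-V x)) := by fun_prop
  rw [e3, integrable_withDensity_iff_integrable_smul hm.real_toNNReal]
  refine h1.congr (ae_of_all _ fun x => ?_)
  simp only [NNReal.smul_def, Real.coe_toNNReal _ (Real.exp_pos _).le, smul_eq_mul]
  ring

private lemma sp_tgt (h : SP V κ Λ c0) (F : Eu n → ℝ) : ∫ x, F x ∂(tgt V) = Ex V F :=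
  integral_tgt h.cd.continuous F

end int

/-- the conclusion of `ulc_approx` -/
private def Apx (ν : Measure (Eu n)) (τ : ℝ) (V : ℕ → Eu n → ℝ) : Prop :=
  ∀ F : Eu n → ℝ, Continuous F → (∃ B, ∀ x, |F x| * Real.exp (-(τ / 2) * ‖x‖ ^ 2) ≤ B) →
    Tendsto (fun k => Ex (V k) F) atTop (𝓝 (∫ x, F x ∂ν))

section lim
variable {ν : Measure (Eu n)} {R τ : ℝ} {V : ℕ → Eu n → ℝ}

private lemma lim_pg (hV : Apx ν τ V) (hτ : 0 < τ) {F : Eu n → ℝ} (hF : PG 4 F) :
    Tendsto (fun k => Ex (V k) F) atTop (𝓝 (∫ x, F x ∂ν)) :=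
  hV F hF.1 (hF.bdd (by positivity))

private lemma lim_cs (hV : Apx ν τ V) (hτ : 0 < τ) {F : Eu n → ℝ} (hF : Continuous F)
    (hs : HasCompactSupport F) : Tendsto (fun k => Ex (V k) F) atTop (𝓝 (∫ x, F x ∂ν)) := by
  apply lim_pg hV hτ
  obtain ⟨B, hB⟩ := hs.exists_bound_of_continuous hF
  have hB0 : 0 ≤ B := (norm_nonneg _).trans (hB 0)
  refine ⟨hF, B, hB0, fun x => ?_⟩
  have h1 := hB x
  rw [Real.norm_eq_abs] at h1
  have h2 : (1 : ℝ) ≤ (1 + ‖x‖) ^ 4 := one_le_pow₀ (by linarith [norm_nonneg x])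
  nlinarith

private lemma lim_tt (hV : Apx ν τ V) (hτ : 0 < τ) (hVc : ∀ k, Continuous (V k))
    {f : Eu n → ℝ} (hf : UC.TT f) :
    Tendsto (fun k => VarE (V k) f) atTop (𝓝 (Cv ν f f)) ∧
    Tendsto (fun k => Df (V k) f f) atTop (𝓝 (∫ x, ‖fderiv ℝ f x‖ ^ 2 ∂ν)) := by
  have h0 := lim_cs hV hτ hf.continuous hf.cs
  refine ⟨?_, ?_⟩
  · have h1 := (lim_cs hV hτ hf.sq.continuous hf.sq.cs).sub (h0.pow 2)
    have e : Cv ν f f = ∫ x, f x ^ 2 ∂ν - (∫ x, f x ∂ν) ^ 2 := by
      unfold Cv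
      simp only [sq]
    rw [e]
    exact h1
  · have h1 : ∀ k, Df (V k) f f = Ex (V k) (fun x => ‖fderiv ℝ f x‖ ^ 2) := by
      intro k
      rw [UC.Df_eq _ hf (hVc k)]
      rfl
    simp only [h1]
    have hc : Continuous (fun x => ‖fderiv ℝ f x‖ ^ 2) :=
      (hf.cd.continuous_fderiv (by simp)).norm.pow 2
    have h2 : HasCompactSupport (fun x => ‖fderiv ℝ f x‖) := (hf.cs.fderiv ℝ).norm
    have h3 : HasCompactSupport (fun x => ‖fderiv ℝ f x‖ ^ 2) :=
      h2.comp_left (g := fun y : ℝ => y ^ 2) (by norm_num)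
    exact lim_cs hV hτ hc h3

/-- convergence of centred moments -/
private lemma lim_mom [IsProbabilityMeasure ν] (hR : BS R ν) (hV : Apx ν τ V) (hτ : 0 < τ)
    (hSP : ∀ k, ∃ Λ c0, SP (V k) τ Λ c0) {a : ℕ → Fin n → ℝ} {b : Fin n → ℝ}
    (ha : ∀ i, Tendsto (fun k => a k i) atTop (𝓝 (b i))) (L : List (Fin n)) :
    ∀ M : List (Fin n), L.length + M.length ≤ 4 →
      Tendsto (fun k => Ex (V k) (fun x => (L.map (fun i => x i - a k i)).prod *
        (M.map (fun i => x i)).prod)) atTop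
        (𝓝 (∫ x, (L.map (fun i => x i - b i)).prod * (M.map (fun i => x i)).prod ∂ν)) := by
  induction L with
  | nil =>
    intro M hM
    simp only [List.map_nil, List.prod_nil, one_mul]
    apply lim_pg hV hτ
    have h1 := PG.list (n := n) (fun i x => x i) (fun i => PG.coord i) M
    exact h1.mono (by simpa using hM)
  | cons i L ih =>
    intro M hM
    have hM' : L.length + 1 + M.length ≤ 4 := by simpa using hM
    have h1 := ih (i :: M) (by rw [List.length_cons]; omega)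
    have h2 := ih M (by omega)
    have h3 := h1.sub ((ha i).mul h2)
    have gS : ∀ c : Fin n → ℝ, PG L.length
        (fun x : Eu n => (L.map (fun i => x i - c i)).prod) :=
      fun c => PG.list (fun i x => x i - c i) (fun i => PG.shift i _) L
    have gW : ∀ N : List (Fin n), PG N.length (fun x : Eu n => (N.map (fun i => x i)).prod) :=
      fun N => PG.list (fun i x => x i) (fun i => PG.coord i) N
    have e1 : ∀ (c : Fin n → ℝ) (x : Eu n), ((i :: L).map (fun i => x i - c i)).prod *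
        (M.map (fun i => x i)).prod = (L.map (fun i => x i - c i)).prod *
        ((i :: M).map (fun i => x i)).prod - c i * ((L.map (fun i => x i - c i)).prod *
        (M.map (fun i => x i)).prod) := by
      intro c x
      simp only [List.map_cons, List.prod_cons]
      ring
    simp only [e1]
    have e2 : ∫ x, ((L.map (fun i => x i - b i)).prod * ((i :: M).map (fun i => x i)).prod -
        b i * ((L.map (fun i => x i - b i)).prod * (M.map (fun i => x i)).prod)) ∂ν =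
        ∫ x, (L.map (fun i => x i - b i)).prod * ((i :: M).map (fun i => x i)).prod ∂ν -
        b i * ∫ x, (L.map (fun i => x i - b i)).prod * (M.map (fun i => x i)).prod ∂ν := by
      rw [integral_sub, integral_const_mul]
      · exact bs_int hR ((gS b).1.mul (gW (i :: M)).1)
      · exact (bs_int hR ((gS b).1.mul (gW M).1)).const_mul _
    rw [e2]
    refine h3.congr fun k => ?_
    obtain ⟨Λ, c0, hk⟩ := hSP k
    rw [← sp_tgt hk, ← sp_tgt hk, ← sp_tgt hk, integral_sub, integral_const_mul]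
    · apply sp_int hk
      exact ((gS (a k)).mul (gW (i :: M))).mono (by rw [List.length_cons]; omega)
    · refine Integrable.const_mul (sp_int hk ?_) _
      exact ((gS (a k)).mul (gW M)).mono (by omega)

end lim

/-- variances of linear combinations -/
private lemma var_fam {ι : Type} [Fintype ι] {ρ : Measure (Eu n)} {y : ι → Eu n → ℝ}
    (h1 : ∀ p, Integrable (y p) ρ) (h2 : ∀ p q, Integrable (fun x => y p x * y q x) ρ)
    (B : ι → ℝ) :
    ∫ x, (∑ p, B p * y p x) ^ 2 ∂ρ - (∫ x, ∑ p, B p * y p x ∂ρ) ^ 2 =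
      ∑ p, ∑ q, B p * B q * (∫ x, y p x * y q x ∂ρ - (∫ x, y p x ∂ρ) * ∫ x, y q x ∂ρ) := by
  have e1 : ∫ x, ∑ p, B p * y p x ∂ρ = ∑ p, B p * ∫ x, y p x ∂ρ := by
    rw [integral_finsetSum _ (fun i _ => (h1 i).const_mul _)]
    exact Finset.sum_congr rfl fun i _ => integral_const_mul _ _
  have e2 : ∫ x, (∑ p, B p * y p x) ^ 2 ∂ρ = ∑ p, ∑ q, B p * B q * ∫ x, y p x * y q x ∂ρ := by
    have e3 : ∀ x : Eu n, (∑ p, B p * y p x) ^ 2 = ∑ p, ∑ q, B p * B q * (y p x * y q x) := by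
      intro x
      rw [sq, Finset.sum_mul_sum]
      exact Finset.sum_congr rfl fun i _ => Finset.sum_congr rfl fun j _ => by ring
    simp only [e3]
    rw [integral_finsetSum _ (fun i _ => integrable_finsetSum _
      fun j _ => (h2 i j).const_mul _)]
    refine Finset.sum_congr rfl fun i _ => ?_
    rw [integral_finsetSum _ (fun j _ => (h2 i j).const_mul _)]
    exact Finset.sum_congr rfl fun j _ => integral_const_mul _ _
  rw [e1, e2, sq, Finset.sum_mul_sum, ← Finset.sum_sub_distrib]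
  refine Finset.sum_congr rfl fun i _ => ?_
  rw [← Finset.sum_sub_distrib]
  exact Finset.sum_congr rfl fun j _ => by ring

/-- difference of quadratic forms -/
private lemma quad_diff {ι : Type} [Fintype ι] (C C' : ι → ι → ℝ) (B : ι → ℝ) :
    ∑ i, ∑ j, B i * B j * C i j ≤ ∑ i, ∑ j, B i * B j * C' i j +
      (∑ i, ∑ j, |C i j - C' i j|) * ∑ i, B i ^ 2 := by
  have h1 : ∑ i, ∑ j, B i * B j * C i j - ∑ i, ∑ j, B i * B j * C' i j =
      ∑ i, ∑ j, B i * B j * (C i j - C' i j) := by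
    rw [← Finset.sum_sub_distrib]
    refine Finset.sum_congr rfl fun i _ => ?_
    rw [← Finset.sum_sub_distrib]
    exact Finset.sum_congr rfl fun j _ => by ring
  have hs : ∀ i, B i ^ 2 ≤ ∑ j, B j ^ 2 := fun i =>
    Finset.single_le_sum (f := fun j => B j ^ 2) (fun j _ => sq_nonneg _) (Finset.mem_univ i)
  have h2 : ∑ i, ∑ j, B i * B j * (C i j - C' i j) ≤
      ∑ i, ∑ j, |C i j - C' i j| * ∑ i, B i ^ 2 := by
    refine Finset.sum_le_sum fun i _ => Finset.sum_le_sum fun j _ => ?_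
    have h3 : |B i * B j| ≤ ∑ i, B i ^ 2 := by
      rw [abs_mul]
      have h4 := hs i
      have h5 := hs j
      have h6 := sq_abs (B i)
      have h7 := sq_abs (B j)
      nlinarith [sq_nonneg (|B i| - |B j|)]
    calc B i * B j * (C i j - C' i j) ≤ |B i * B j * (C i j - C' i j)| := le_abs_self _
      _ = |C i j - C' i j| * |B i * B j| := by rw [abs_mul, mul_comm]
      _ ≤ _ := mul_le_mul_of_nonneg_left h3 (abs_nonneg _)
  have h4 : ∑ i, ∑ j, |C i j - C' i j| * ∑ i, B i ^ 2 =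
      (∑ i, ∑ j, |C i j - C' i j|) * ∑ i, B i ^ 2 := by
    rw [Finset.sum_mul]
    exact Finset.sum_congr rfl fun i _ => by rw [Finset.sum_mul]
  linarith

section app
variable {ν : Measure (Eu n)} {R τ : ℝ} {V : ℕ → Eu n → ℝ}

private lemma lim_coord (hV : Apx ν τ V) (hτ : 0 < τ) (i : Fin n) :
    Tendsto (fun k => Ex (V k) (fun x => x i)) atTop (𝓝 (∫ x, x i ∂ν)) :=
  lim_pg hV hτ ((PG.coord i).mono (by norm_num))

private lemma sp_var (V : Eu n → ℝ) {κ Λ c0 : ℝ} (h : SP V κ Λ c0) {ι : Type} [Fintype ι]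
    {y : ι → Eu n → ℝ} (hy : ∀ p, PG 2 (y p)) (B : ι → ℝ) :
    VarE V (fun x => ∑ p, B p * y p x) = ∑ p, ∑ q, B p * B q *
      (Ex V (fun x => y p x * y q x) - Ex V (y p) * Ex V (y q)) := by
  have h1 := var_fam (ρ := tgt V) (y := y) (fun p => sp_int h ((hy p).mono (by norm_num)))
    (fun p q => sp_int h ((hy p).mul (hy q))) B
  simp only [sp_tgt h] at h1
  exact h1

/-- approximation with control of the covariance -/
private lemma cov_approx [IsProbabilityMeasure ν] (hR : BS R ν)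
    (hτ : 0 < τ) (hV : Apx ν τ V) (hSP : ∀ k, ∃ Λ c0, SP (V k) τ Λ c0)
    {s : ℝ} (hs0 : 0 ≤ s)
    (hs : ∀ w : Eu n, Cv ν (fun x => inner ℝ x w) (fun x => inner ℝ x w) ≤ s * ‖w‖ ^ 2) :
    ∃ S : ℕ → ℝ, (∀ k, 0 < S k) ∧ (∀ k, CovLe (V k) (S k)) ∧ Tendsto S atTop (𝓝 s) := by
  set C : ℕ → Fin n → Fin n → ℝ := fun k i j =>
    Ex (V k) (fun x => x i * x j) - Ex (V k) (fun x => x i) * Ex (V k) (fun x => x j) with hC
  set C' : Fin n → Fin n → ℝ := fun i j =>
    ∫ x, x i * x j ∂ν - (∫ x, x i ∂ν) * ∫ x, x j ∂ν with hC'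
  have hlim : ∀ i j, Tendsto (fun k => C k i j) atTop (𝓝 (C' i j)) := fun i j =>
    (lim_pg hV hτ (((PG.coord i).mul (PG.coord j)).mono (by norm_num))).sub
      ((lim_coord hV hτ i).mul (lim_coord hV hτ j))
  have hin : ∀ (w x : Eu n), inner ℝ x w = ∑ i, w i * x i := by
    intro w x
    rw [PiLp.inner_apply]
    exact Finset.sum_congr rfl fun i _ => by simp
  refine ⟨fun k => s + ∑ i, ∑ j, |C k i j - C' i j| + 1 / ((k : ℝ) + 1), fun k => ?_,
    fun k w => ?_, ?_⟩
  · have h1 : 0 ≤ ∑ i, ∑ j, |C k i j - C' i j| :=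
      Finset.sum_nonneg fun i _ => Finset.sum_nonneg fun j _ => abs_nonneg _
    have h2 : (0 : ℝ) < 1 / ((k : ℝ) + 1) := by positivity
    linarith
  · obtain ⟨Λ, c0, hk⟩ := hSP k
    have h0 := sp_var (V k) hk (y := fun i (x : Eu n) => x i)
      (fun i => (PG.coord i).mono (by norm_num)) (fun i => w i)
    simp only [hin]
    rw [h0]
    have h1 := quad_diff (C k) C' (fun i => w i)
    have h2 := var_fam (ρ := ν) (y := fun i (x : Eu n) => x i)
      (fun i => bs_int hR (coord_cont i))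
      (fun i j => bs_int hR ((coord_cont i).mul (coord_cont j))) (fun i => w i)
    have h3 := hs w
    unfold Cv at h3
    simp only [hin] at h3
    simp only [sq] at h2
    rw [h2] at h3
    rw [EuclideanSpace.norm_sq_eq] at h3 ⊢
    simp only [Real.norm_eq_abs, sq_abs] at h3 ⊢
    have h4 : 0 ≤ 1 / ((k : ℝ) + 1) * ∑ i, w i ^ 2 := by positivity
    calc ∑ i, ∑ j, w i * w j * C k i j ≤ ∑ i, ∑ j, w i * w j * C' i j +
          (∑ i, ∑ j, |C k i j - C' i j|) * ∑ i, w i ^ 2 := h1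
      _ ≤ s * ∑ i, w i ^ 2 + (∑ i, ∑ j, |C k i j - C' i j|) * ∑ i, w i ^ 2 +
          1 / ((k : ℝ) + 1) * ∑ i, w i ^ 2 := by linarith
      _ = _ := by ring
  · have h1 : Tendsto (fun k => ∑ i, ∑ j, |C k i j - C' i j|) atTop (𝓝 0) := by
      have h2 : Tendsto (fun k => ∑ i, ∑ j, |C k i j - C' i j|) atTop
          (𝓝 (∑ i, ∑ j, |C' i j - C' i j|)) :=
        tendsto_finsetSum _ fun i _ => tendsto_finsetSum _ fun j _ =>
          ((hlim i j).sub_const _).abs
      simpa using h2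
    have h3 := (h1.const_add s).add tendsto_one_div_add_atTop_nhds_zero_nat
    simpa using h3

/-- approximation with control of the thin shell constant -/
private lemma tsq_approx [IsProbabilityMeasure ν] (hR : BS R ν)
    (hτ : 0 < τ) (hV : Apx ν τ V) (hSP : ∀ k, ∃ Λ c0, SP (V k) τ Λ c0)
    {Q0 : ℝ} (hQ0 : 0 ≤ Q0)
    (hq : ∀ B : Fin n → Fin n → ℝ, (∀ i j, B i j = B j i) →
      Cv ν (fun x => ∑ i, ∑ j, B i j * ((x i - mn ν i) * (x j - mn ν j)))
      (fun x => ∑ i, ∑ j, B i j * ((x i - mn ν i) * (x j - mn ν j))) ≤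
      Q0 * ∑ i, ∑ j, B i j ^ 2) :
    ∃ Q : ℕ → ℝ, (∀ k, 0 ≤ Q k) ∧ (∀ k, TSq (V k) (Q k)) ∧ Tendsto Q atTop (𝓝 Q0) := by
  set a : ℕ → Fin n → ℝ := fun k i => Ex (V k) (fun x => x i) with ha
  set b : Fin n → ℝ := fun i => mn ν i with hb
  have hab : ∀ i, Tendsto (fun k => a k i) atTop (𝓝 (b i)) := fun i => lim_coord hV hτ i
  let y : (Fin n → ℝ) → Fin n × Fin n → Eu n → ℝ := fun c p x =>
    (x p.1 - c p.1) * (x p.2 - c p.2)
  have hy : ∀ c p, PG 2 (y c p) := fun c p => (PG.shift p.1 _).mul (PG.shift p.2 _)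
  set C : ℕ → Fin n × Fin n → Fin n × Fin n → ℝ := fun k p q =>
    Ex (V k) (fun x => y (a k) p x * y (a k) q x) - Ex (V k) (y (a k) p) * Ex (V k) (y (a k) q)
    with hC
  set C' : Fin n × Fin n → Fin n × Fin n → ℝ := fun p q =>
    ∫ x, y b p x * y b q x ∂ν - (∫ x, y b p x ∂ν) * ∫ x, y b q x ∂ν with hC'
  have l1 : ∀ p, Tendsto (fun k => Ex (V k) (y (a k) p)) atTop (𝓝 (∫ x, y b p x ∂ν)) := by
    intro p
    have h1 := lim_mom hR hV hτ hSP hab [p.1, p.2] [] (by simp)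
    simpa [y] using h1
  have l2 : ∀ p q, Tendsto (fun k => Ex (V k) (fun x => y (a k) p x * y (a k) q x)) atTop
      (𝓝 (∫ x, y b p x * y b q x ∂ν)) := by
    intro p q
    have h1 := lim_mom hR hV hτ hSP hab [p.1, p.2, q.1, q.2] [] (by simp)
    simpa [y, mul_assoc] using h1
  have hlim : ∀ p q, Tendsto (fun k => C k p q) atTop (𝓝 (C' p q)) := fun p q =>
    (l2 p q).sub ((l1 p).mul (l1 q))
  refine ⟨fun k => Q0 + ∑ p, ∑ q, |C k p q - C' p q|, fun k => ?_, fun k B hB => ?_, ?_⟩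
  · have h1 : 0 ≤ ∑ p, ∑ q, |C k p q - C' p q| :=
      Finset.sum_nonneg fun i _ => Finset.sum_nonneg fun j _ => abs_nonneg _
    linarith
  · obtain ⟨Λ, c0, hk⟩ := hSP k
    have h0 := sp_var (V k) hk (hy (a k)) (fun p => B p.1 p.2)
    have e1 : (fun x : Eu n => ∑ i, ∑ j, B i j * (xc (V k) i x * xc (V k) j x)) =
        fun x => ∑ p : Fin n × Fin n, B p.1 p.2 * y (a k) p x := by
      funext x
      rw [Fintype.sum_prod_type]
      rfl
    have e2 : ∑ i, ∑ j, B i j ^ 2 = ∑ p : Fin n × Fin n, B p.1 p.2 ^ 2 := by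
      rw [Fintype.sum_prod_type]
    rw [e1, h0, e2]
    have h1 := quad_diff (C k) C' (fun p => B p.1 p.2)
    have h2 := var_fam (ρ := ν) (y := y b)
      (fun p => bs_int hR (hy b p).1)
      (fun p q => bs_int hR ((hy b p).1.mul (hy b q).1)) (fun p => B p.1 p.2)
    have h3 := hq B hB
    have e3 : (fun x : Eu n => ∑ i, ∑ j, B i j * ((x i - mn ν i) * (x j - mn ν j))) =
        fun x => ∑ p : Fin n × Fin n, B p.1 p.2 * y b p x := by
      funext x
      rw [Fintype.sum_prod_type]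
    rw [e3, e2] at h3
    unfold Cv at h3
    simp only [sq] at h2
    rw [h2] at h3
    calc ∑ p, ∑ q, B p.1 p.2 * B q.1 q.2 * C k p q
        ≤ ∑ p, ∑ q, B p.1 p.2 * B q.1 q.2 * C' p q +
          (∑ i, ∑ j, |C k i j - C' i j|) * ∑ p : Fin n × Fin n, B p.1 p.2 ^ 2 := h1
      _ ≤ Q0 * ∑ p : Fin n × Fin n, B p.1 p.2 ^ 2 +
          (∑ i, ∑ j, |C k i j - C' i j|) * ∑ p : Fin n × Fin n, B p.1 p.2 ^ 2 := by linarith
      _ = _ := by ring
  · have h2 : Tendsto (fun k => ∑ p, ∑ q, |C k p q - C' p q|) atTop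
        (𝓝 (∑ p, ∑ q, |C' p q - C' p q|)) :=
      tendsto_finsetSum _ fun i _ => tendsto_finsetSum _ fun j _ =>
        ((hlim i j).sub_const _).abs
    have h1 : Tendsto (fun k => ∑ p, ∑ q, |C k p q - C' p q|) atTop (𝓝 0) := by
      simpa using h2
    simpa using h1.const_add Q0

end app

end PQ4

/-- PQ4b: `ulc_cubic` of Stubs3 from `P4s` -/
theorem ulc_cubic_of {C : ℝ} (hC : 1 ≤ C) (hW : ∀ n, Thin n C) (h4 : ∀ n, P4s n) :
    ∃ K1 : ℝ, 1 ≤ K1 ∧ ∀ (n : ℕ) (ν : Measure (Eu n)) (R τ : ℝ), IsProbabilityMeasure ν →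
      BS R ν → 0 < τ → τ ≤ 1 → ULC τ ν →
      (∀ w : Eu n, Cv ν (fun x => inner ℝ x w) (fun x => inner ℝ x w) ≤ 4 * ‖w‖ ^ 2) →
      ∀ f : Eu n → ℝ, ContDiff ℝ 1 f →
        Cv ν f f ≤ K1 * (1 / τ) ^ (1 / 3 : ℝ) * ∫ x, ‖fderiv ℝ f x‖ ^ 2 ∂ν := by
  have hC0 : 0 ≤ C := by linarith
  refine ⟨4000 + (5000 * (32 * C + 16)) ^ (1 / 3 : ℝ), ?_, ?_⟩
  · have h1 : 0 ≤ (5000 * (32 * C + 16)) ^ (1 / 3 : ℝ) := Real.rpow_nonneg (by positivity) _
    linarith
  intro n ν R τ hν hR hτ hτ1 hu hs f hf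
  have hR0 : 0 ≤ R := by
    obtain ⟨x, hx⟩ := hR.exists
    exact (norm_nonneg x).trans hx
  have hNm : Nm ν R (2 * n * R ^ 2) := ⟨hν, hR0, hR, le_refl _⟩
  have hpl : FP.PLm ν := ULC.plm hNm hτ.le hu
  obtain ⟨V, hSP, hV⟩ := ulc_approx hν hR hτ hu
  have hVc : ∀ k, Continuous (V k) := fun k => by
    obtain ⟨Λ, c0, h⟩ := hSP k
    exact h.cd.continuous
  obtain ⟨S, hS0, hS, hSl⟩ := PQ4.cov_approx hR hτ hV hSP (by norm_num : (0:ℝ) ≤ 4) hs
  obtain ⟨Q, hQ0, hQ, hQl⟩ := PQ4.tsq_approx hR hτ hV hSP (Q0 := 32 * C) (by positivity)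
    (fun B hB => by
      have h1 := thin_quad hC0 (hW n) hν hR hpl hs B hB
      have e1 : 2 * C * (4:ℝ) ^ 2 = 32 * C := by ring
      rwa [e1] at h1)
  have hlim : Tendsto (fun k => 1000 * S k + (5000 * (Q k + S k ^ 2) / τ) ^ (1 / 3 : ℝ)) atTop
      (𝓝 (1000 * 4 + (5000 * (32 * C + 4 ^ 2) / τ) ^ (1 / 3 : ℝ))) := by
    refine (hSl.const_mul 1000).add ?_
    exact (((hQl.add (hSl.pow 2)).const_mul 5000).div_const τ).rpow_const
      (Or.inr (by norm_num))
  have htt : ∀ g : Eu n → ℝ, UC.TT g → Cv ν g g ≤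
      (1000 * 4 + (5000 * (32 * C + 4 ^ 2) / τ) ^ (1 / 3 : ℝ)) *
        ∫ x, ‖fderiv ℝ g x‖ ^ 2 ∂ν := by
    intro g hg
    obtain ⟨l1, l2⟩ := PQ4.lim_tt hV hτ hVc hg
    refine le_of_tendsto_of_tendsto' l1 (hlim.mul l2) fun k => ?_
    obtain ⟨Λ, c0, h⟩ := hSP k
    exact h4 n (V k) τ Λ c0 (S k) (Q k) h (hS0 k) (hQ0 k) (hS k) (hQ k) g hg
  obtain ⟨g, hg, l1, l2, -, -⟩ := c1_limits hR hf
  have hmain : Cv ν f f ≤ (1000 * 4 + (5000 * (32 * C + 4 ^ 2) / τ) ^ (1 / 3 : ℝ)) *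
        ∫ x, ‖fderiv ℝ f x‖ ^ 2 ∂ν :=
    le_of_tendsto_of_tendsto' l1 (l2.const_mul _) fun k => htt _ (hg k)
  refine hmain.trans ?_
  have hI : 0 ≤ ∫ x, ‖fderiv ℝ f x‖ ^ 2 ∂ν := integral_nonneg fun x => sq_nonneg _
  refine mul_le_mul_of_nonneg_right ?_ hI
  have e1 : (5000 * (32 * C + 4 ^ 2) / τ) ^ (1 / 3 : ℝ) =
      (5000 * (32 * C + 16)) ^ (1 / 3 : ℝ) * (1 / τ) ^ (1 / 3 : ℝ) := by
    rw [← Real.mul_rpow (by positivity) (by positivity)]
    congr 1
    ring
  have e2 : 1 ≤ (1 / τ) ^ (1 / 3 : ℝ) := by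
    apply Real.one_le_rpow _ (by norm_num)
    rw [le_div_iff₀ hτ]
    linarith
  rw [e1, add_mul]
  have e3 : (1000:ℝ) * 4 ≤ 4000 * (1 / τ) ^ (1 / 3 : ℝ) := by linarith
  linarith

end Pool.Agent.Lib.MP_6d896a_gt.LG
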