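import Mathlib
import Pool.Agent.Lib.MP_6d896a_gt.LG.Basic
import Pool.Agent.Lib.MP_6d896a_gt.LG.PA2a
import Pool.Agent.Lib.MP_6d896a_gt.UC.Bochner
import Pool.Agent.Lib.MP_6d896a_gt.UC.Esa
import Pool.Agent.Lib.MP_6d896a_gt.UC.Ibp
import Pool.Agent.Lib.MP_6d896a_gt.UC.Basic

/-!
Piece PA3, part 2: the inequality `SIn` for smooth potentials.
-/

set_option autoImplicit false

namespace Pool.Agent.Lib.MP_6d896a_gt.LG

open MeasureTheory Filter Topology Set
open scoped ENNReal NNReal ContDiff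
open Pool.Agent.Lib.MP_6d896a_gt.UC (Ex Df LL pd int_cs Ex_add Ex_sub Ex_const_mul Ex_nonneg
  Ex_mono Ex_cs green Ex_LL LL_cont esa ibp bochner)
open Pool.Agent.Lib.MP_6d896a_gt.UC.UR (HP)

variable {n : ℕ} {V f g h u : Eu n → ℝ} {κ Λ c0 : ℝ}

/-! ### density of the range of the generator -/

/-- standing assumptions on the potential for the density statement -/
structure PA3N (V : Eu n → ℝ) : Prop where
  cd : ContDiff ℝ 2 V
  int : Integrable (fun x => Real.exp (-V x))
  mass : Ex V (fun _ => 1) = 1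

lemma pa3_const (hN : PA3N V) (c : ℝ) : Ex V (fun _ => c) = c := by
  have h1 := Ex_const_mul V (fun _ => 1) c
  simp only [mul_one] at h1
  rw [h1, hN.mass, mul_one]

lemma pa3_lin2 (hg : Integrable (fun x => g x * Real.exp (-V x)))
    (hh : Integrable (fun x => h x * Real.exp (-V x))) (a b : ℝ) :
    Ex V (fun x => a * g x + b * h x) = a * Ex V g + b * Ex V h := by
  have i1 : Integrable (fun x => a * g x * Real.exp (-V x)) := by
    simpa only [mul_assoc] using hg.const_mul a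
  have i2 : Integrable (fun x => b * h x * Real.exp (-V x)) := by
    simpa only [mul_assoc] using hh.const_mul b
  rw [Ex_add i1 i2, Ex_const_mul, Ex_const_mul]

lemma pa3_cint (hN : PA3N V) (c : ℝ) : Integrable (fun x => c * Real.exp (-V x)) :=
  hN.int.const_mul c

lemma pa3_addc (hN : PA3N V) (hg : Continuous g) (hgc : HasCompactSupport g) (c : ℝ) :
    Ex V (fun x => g x + c) = Ex V g + c := by
  rw [Ex_add (int_cs hN.cd.continuous hg hgc) (pa3_cint hN c), pa3_const hN]

lemma pa3_sq_sub (hN : PA3N V) (hg : Continuous g) (hgc : HasCompactSupport g) (b : ℝ) :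
    Ex V (fun x => (g x - b) ^ 2) = Ex V (fun x => g x ^ 2) - 2 * b * Ex V g + b ^ 2 := by
  have hVc := hN.cd.continuous
  have e : (fun x => (g x - b) ^ 2) = fun x => (1 * g x ^ 2 + (-2 * b) * g x) + b ^ 2 := by
    funext x; ring
  have h1 : Continuous (fun x => 1 * g x ^ 2 + (-2 * b) * g x) := by fun_prop
  have hg2 : HasCompactSupport (fun x => g x ^ 2) := by
    have : (fun x => g x ^ 2) = fun x => g x * g x := by funext x; ring
    rw [this]
    exact hgc.mul_left (f := g)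
  have h2 : HasCompactSupport (fun x => 1 * g x ^ 2 + (-2 * b) * g x) :=
    (hg2.mul_left (f := fun _ => (1 : ℝ))).add (hgc.mul_left (f := fun _ => -2 * b))
  rw [e, pa3_addc hN h1 h2, pa3_lin2 (g := fun x => g x ^ 2) (h := g)
    (int_cs hVc (hg.pow 2) hg2) (int_cs hVc hg hgc)]
  ring

lemma pa3_vr_nonneg (hN : PA3N V) (hg : Continuous g) (hgc : HasCompactSupport g) :
    0 ≤ Ex V (fun x => g x ^ 2) - (Ex V g) ^ 2 := by
  have h1 : 0 ≤ Ex V (fun x => (g x - Ex V g) ^ 2) := Ex_nonneg fun x => sq_nonneg _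
  rw [pa3_sq_sub hN hg hgc] at h1
  nlinarith

lemma pa3_vr_lin (hN : PA3N V) (hg : Continuous g) (hgc : HasCompactSupport g)
    (hh : Continuous h) (hhc : HasCompactSupport h) (t : ℝ) :
    Ex V (fun x => (t * g x + h x) ^ 2) - (Ex V (fun x => t * g x + h x)) ^ 2 =
      t ^ 2 * (Ex V (fun x => g x ^ 2) - (Ex V g) ^ 2) +
      2 * t * (Ex V (fun x => g x * h x) - Ex V g * Ex V h) +
      (Ex V (fun x => h x ^ 2) - (Ex V h) ^ 2) := by
  have hVc := hN.cd.continuous
  have hsq : ∀ {g : Eu n → ℝ}, HasCompactSupport g → HasCompactSupport (fun x => g x ^ 2) := by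
    intro g hgc
    have : (fun x => g x ^ 2) = fun x => g x * g x := by funext x; ring
    rw [this]
    exact hgc.mul_left (f := g)
  have e : (fun x => (t * g x + h x) ^ 2) =
      fun x => (t ^ 2 * g x ^ 2 + (2 * t) * (g x * h x)) + h x ^ 2 := by
    funext x; ring
  have i1 : Integrable (fun x => t ^ 2 * g x ^ 2 * Real.exp (-V x)) :=
    int_cs hVc (by fun_prop) ((hsq hgc).mul_left (f := fun _ => t ^ 2))
  have i2 : Integrable (fun x => (2 * t) * (g x * h x) * Real.exp (-V x)) :=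
    int_cs hVc (by fun_prop) ((hgc.mul_right (f' := h)).mul_left (f := fun _ => 2 * t))
  have i12 : Integrable (fun x => (t ^ 2 * g x ^ 2 + (2 * t) * (g x * h x)) *
      Real.exp (-V x)) := by
    have := i1.add i2
    refine this.congr (ae_of_all _ fun x => ?_)
    simp only [Pi.add_apply]; ring
  have i3 : Integrable (fun x => h x ^ 2 * Real.exp (-V x)) :=
    int_cs hVc (by fun_prop) (hsq hhc)
  have i4 : Integrable (fun x => t * g x * Real.exp (-V x)) :=
    int_cs hVc (by fun_prop) (hgc.mul_left (f := fun _ => t))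
  rw [e, Ex_add i12 i3, Ex_add i1 i2, Ex_const_mul, Ex_const_mul,
    Ex_add i4 (int_cs hVc hh hhc), Ex_const_mul]
  ring

lemma pa3_cov_cs (hN : PA3N V) (hg : Continuous g) (hgc : HasCompactSupport g)
    (hh : Continuous h) (hhc : HasCompactSupport h) :
    (Ex V (fun x => g x * h x) - Ex V g * Ex V h) ^ 2 ≤
      (Ex V (fun x => g x ^ 2) - (Ex V g) ^ 2) * (Ex V (fun x => h x ^ 2) - (Ex V h) ^ 2) := by
  have key : ∀ t : ℝ, 0 ≤ (Ex V (fun x => g x ^ 2) - (Ex V g) ^ 2) * (t * t) +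
      (2 * (Ex V (fun x => g x * h x) - Ex V g * Ex V h)) * t +
      (Ex V (fun x => h x ^ 2) - (Ex V h) ^ 2) := by
    intro t
    have h1 := pa3_vr_nonneg hN (g := fun x => t * g x + h x) (by fun_prop)
      ((hgc.mul_left (f := fun _ => t)).add hhc)
    rw [pa3_vr_lin hN hg hgc hh hhc] at h1
    linarith
  have h2 := discrim_le_zero key
  unfold discrim at h2
  nlinarith

/-- density of the range of the generator -/
theorem pa3_dens (hN : PA3N V) {c0 : ℝ} (hc0 : 0 < c0) (hP : HP V c0) (hf : UC.TT f) {ε : ℝ}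
    (hε : 0 < ε) :
    ∃ u : Eu n → ℝ, UC.TT u ∧ Ex V (fun x => (LL V u x + (f x - Ex V f)) ^ 2) ≤ ε := by
  have hVc := hN.cd.continuous
  have hV1 : ContDiff ℝ 1 V := hN.cd.of_le (by norm_num)
  have hfc := hf.cd.continuous
  have hsq : ∀ {g : Eu n → ℝ}, HasCompactSupport g → HasCompactSupport (fun x => g x ^ 2) := by
    intro g hgc
    have : (fun x => g x ^ 2) = fun x => g x * g x := by funext x; ring
    rw [this]
    exact hgc.mul_left (f := g)
  set F2 := Ex V (fun x => f x ^ 2) with hF2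
  have hF20 : 0 ≤ F2 := Ex_nonneg fun x => sq_nonneg _
  -- parameters
  set δ : ℝ := min 1 (ε / 4) with hδ
  have hδ0 : 0 < δ := lt_min one_pos (by positivity)
  have hδ1 : δ ≤ 1 := min_le_left _ _
  have hδε : δ ≤ ε / 4 := min_le_right _ _
  set M : ℝ := 4 * c0 ^ 2 * (F2 + 1) with hM
  have hM0 : 0 < M := by positivity
  obtain ⟨l, hl0, hl⟩ : ∃ l : ℝ, 0 < l ∧ l ^ 2 * M ≤ ε / 2 := by
    refine ⟨Real.sqrt (ε / 2 / M), Real.sqrt_pos.2 (by positivity), ?_⟩
    rw [Real.sq_sqrt (by positivity)]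
    rw [div_mul_cancel₀ _ hM0.ne']
  obtain ⟨u, hu, hr⟩ := esa hN.cd hl0 hf hδ0
  refine ⟨u, hu, ?_⟩
  have huc := hu.cd.continuous
  have hLc := LL_cont hV1 hu
  set r : Eu n → ℝ := fun x => l * u x - LL V u x - f x with hrdef
  have hrc : Continuous r := ((continuous_const.mul huc).sub hLc.1).sub hfc
  have hrs : HasCompactSupport r := ((hu.cs.mul_left (f := fun _ => l)).sub hLc.2).sub hf.cs
  have hLeq : ∀ x, LL V u x = (l * u x + (-1) * (f x + r x)) := by
    intro x
    rw [hrdef]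
    ring
  -- integrals
  have if1 : Integrable (fun x => f x * Real.exp (-V x)) := int_cs hVc hfc hf.cs
  have ir1 : Integrable (fun x => r x * Real.exp (-V x)) := int_cs hVc hrc hrs
  set G : Eu n → ℝ := fun x => f x + r x with hG
  have hGc : Continuous G := hfc.add hrc
  have hGs : HasCompactSupport G := hf.cs.add hrs
  have hEL : Ex V (LL V u) = l * Ex V u - Ex V G := by
    have e : LL V u = fun x => l * u x + (-1) * G x := funext fun x => hLeq x
    rw [e, pa3_lin2 (int_cs hVc huc hu.cs) (int_cs hVc hGc hGs)]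
    ring
  rw [Ex_LL hV1 hu] at hEL
  have hEG : Ex V G = Ex V f + Ex V r := by rw [hG, Ex_add if1 ir1]
  -- Green
  have hgr := green hV1 hu hu
  have hELu : Ex V (fun x => LL V u x * u x) =
      l * Ex V (fun x => u x ^ 2) - Ex V (fun x => G x * u x) := by
    have e : (fun x => LL V u x * u x) = fun x => l * u x ^ 2 + (-1) * (G x * u x) := by
      funext x
      rw [hLeq x]
      ring
    rw [e, pa3_lin2 (g := fun x => u x ^ 2) (h := fun x => G x * u x)
      (int_cs hVc (huc.pow 2) (hsq hu.cs)) (int_cs hVc (hGc.mul huc) hGs.mul_right)]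
    ring
  set A := Ex V (fun x => u x ^ 2) with hA
  set a := Ex V u with ha
  have hs0 : 0 ≤ A - a ^ 2 := pa3_vr_nonneg hN huc hu.cs
  have hPu := hP u hu
  have hcs := pa3_cov_cs hN hGc hGs huc hu.cs
  have hG2 : Ex V (fun x => G x ^ 2) ≤ 2 * F2 + 2 * δ := by
    have h1 : Ex V (fun x => G x ^ 2) ≤ Ex V (fun x => 2 * f x ^ 2 + 2 * r x ^ 2) := by
      refine Ex_mono (int_cs hVc (by fun_prop) (hsq hGs)) (int_cs hVc (by fun_prop)
        (((hsq hf.cs).mul_left (f := fun _ => (2 : ℝ))).add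
          ((hsq hrs).mul_left (f := fun _ => (2 : ℝ))))) fun x => ?_
      rw [hG]
      nlinarith [sq_nonneg (f x - r x)]
    rw [pa3_lin2 (g := fun x => f x ^ 2) (h := fun x => r x ^ 2)
      (int_cs hVc (hfc.pow 2) (hsq hf.cs)) (int_cs hVc (hrc.pow 2) (hsq hrs))] at h1
    have h2 : Ex V (fun x => r x ^ 2) ≤ δ := hr
    linarith
  set B := Ex V (fun x => G x ^ 2) with hB
  set W := Ex V (fun x => G x * u x) - Ex V G * a with hW
  have hB0 : 0 ≤ B := Ex_nonneg fun x => sq_nonneg _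
  -- the variance of `u`
  have hs : A - a ^ 2 ≤ c0 * W := by
    refine hPu.trans ?_
    refine mul_le_mul_of_nonneg_left ?_ hc0.le
    have h3 : Df V u u = - l * A + Ex V (fun x => G x * u x) := by
      rw [hELu] at hgr
      linarith
    have h4 : l * a = Ex V G := by linarith
    have h5 : Df V u u = -(l * (A - a ^ 2)) + W := by
      rw [h3, hW, ← h4]
      ring
    rw [h5]
    have := mul_nonneg hl0.le hs0
    linarith
  have hW2 : W ^ 2 ≤ B * (A - a ^ 2) := by
    refine hcs.trans ?_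
    refine mul_le_mul_of_nonneg_right ?_ hs0
    have := sq_nonneg (Ex V G)
    linarith
  have hs2 : A - a ^ 2 ≤ c0 ^ 2 * B := by
    rcases hs0.eq_or_lt with h0 | h0
    · rw [← h0]; positivity
    · have h6 : (A - a ^ 2) ^ 2 ≤ (c0 ^ 2 * B) * (A - a ^ 2) := by
        have h7 : (A - a ^ 2) ^ 2 ≤ (c0 * W) ^ 2 := pow_le_pow_left₀ hs0 hs 2
        nlinarith [mul_le_mul_of_nonneg_left hW2 (sq_nonneg c0)]
      have h8 : (A - a ^ 2) * (A - a ^ 2) ≤ (c0 ^ 2 * B) * (A - a ^ 2) := by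
        rw [← sq]; exact h6
      exact le_of_mul_le_mul_right h8 h0
  -- the final estimate
  have hpar1 := pa3_vr_lin hN huc hu.cs hrc hrs l
  have hpar2 := pa3_vr_lin hN huc hu.cs hrc hrs (-l)
  have hnn := pa3_vr_nonneg hN (g := fun x => l * u x + r x) (by fun_prop)
    ((hu.cs.mul_left (f := fun _ => l)).add hrs)
  have hr2 : Ex V (fun x => r x ^ 2) ≤ δ := hr
  have htarget : Ex V (fun x => (LL V u x + (f x - Ex V f)) ^ 2) =
      Ex V (fun x => (-l * u x + r x) ^ 2) - (Ex V (fun x => -l * u x + r x)) ^ 2 := by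
    have hE1 : Ex V (fun x => -l * u x + r x) = - Ex V f := by
      have e0 : (fun x => -l * u x + r x) = fun x => -l * u x + 1 * r x := by
        funext x; ring
      rw [e0, pa3_lin2 (int_cs hVc huc hu.cs) ir1]
      linarith
    have hE2 := pa3_sq_sub hN (g := fun x => -l * u x + r x) (by fun_prop)
      ((hu.cs.mul_left (f := fun _ => -l)).add hrs) (Ex V (fun x => -l * u x + r x))
    have e : (fun x => (LL V u x + (f x - Ex V f)) ^ 2) =
        fun x => ((-l * u x + r x) - Ex V (fun x => -l * u x + r x)) ^ 2 := by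
      funext x
      rw [hE1, hLeq x]
      ring
    rw [e, hE2]
    ring
  rw [htarget]
  have hl2 : l ^ 2 * (A - a ^ 2) ≤ l ^ 2 * (c0 ^ 2 * (2 * F2 + 2)) := by
    refine mul_le_mul_of_nonneg_left (hs2.trans ?_) (sq_nonneg l)
    refine mul_le_mul_of_nonneg_left ?_ (sq_nonneg c0)
    linarith
  have hl3 : l ^ 2 * (c0 ^ 2 * (2 * F2 + 2)) * 2 = l ^ 2 * M := by rw [hM]; ring
  have h9 : 0 ≤ Ex V (fun x => r x ^ 2) - (Ex V r) ^ 2 := pa3_vr_nonneg hN hrc hrs
  have h10 := sq_nonneg (Ex V r)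
  nlinarith

/-! ### convexity and log-concavity -/

lemma pa3_line_convex (hU : SP V κ Λ c0) (x v : Eu n) :
    ConvexOn ℝ univ (fun t : ℝ => V (x + t • v)) := by
  have hVd : Differentiable ℝ V := hU.cd.differentiable two_ne_zero
  have hVd2 : Differentiable ℝ (fderiv ℝ V) :=
    (hU.cd.fderiv_right (m := 1) (by norm_num)).differentiable one_ne_zero
  have hl : ∀ t : ℝ, HasDerivAt (fun t : ℝ => x + t • v) v t := by
    intro t
    have h := ((hasDerivAt_id t).smul_const v).const_add x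
    simpa using h
  have hd1 : ∀ t : ℝ, HasDerivAt (fun t : ℝ => V (x + t • v)) (fderiv ℝ V (x + t • v) v) t :=
    fun t => (hVd _).hasFDerivAt.comp_hasDerivAt t (hl t)
  have hd2 : ∀ t : ℝ, HasDerivAt (fun t : ℝ => fderiv ℝ V (x + t • v) v)
      (fderiv ℝ (fderiv ℝ V) (x + t • v) v v) t := by
    intro t
    have h1 : HasDerivAt (fun t : ℝ => fderiv ℝ V (x + t • v))
        (fderiv ℝ (fderiv ℝ V) (x + t • v) v) t :=
      (hVd2 _).hasFDerivAt.comp_hasDerivAt t (hl t)
    have h2 := h1.clm_apply (hasDerivAt_const t v)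
    simpa using h2
  have e1 : deriv (fun t : ℝ => V (x + t • v)) = fun t => fderiv ℝ V (x + t • v) v :=
    funext fun t => (hd1 t).deriv
  refine convexOn_univ_of_deriv2_nonneg (fun t => (hd1 t).differentiableAt) ?_ ?_
  · rw [e1]
    exact fun t => (hd2 t).differentiableAt
  · intro t
    have e2 : deriv^[2] (fun t : ℝ => V (x + t • v)) t = fderiv ℝ (fderiv ℝ V) (x + t • v) v v := by
      show deriv (deriv (fun t : ℝ => V (x + t • v))) t = _
      rw [e1]
      exact (hd2 t).deriv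
    rw [e2]
    refine le_trans ?_ (hU.conv _ _)
    have := hU.kpos
    positivity

lemma pa3_convex (hU : SP V κ Λ c0) : ConvexOn ℝ univ V := by
  refine ⟨convex_univ, fun x _ y _ a b ha hb hab => ?_⟩
  have hc := (pa3_line_convex hU x (y - x)).2 (mem_univ (0 : ℝ)) (mem_univ (1 : ℝ)) ha hb hab
  simp only [smul_eq_mul, mul_zero, zero_add, mul_one, zero_smul, add_zero, one_smul] at hc
  have e1 : x + b • (y - x) = a • x + b • y := by
    have : a = 1 - b := by linarith
    rw [this, smul_sub, sub_smul, one_smul]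
    abel
  have e2 : x + (y - x) = y := by abel
  rw [e1, e2] at hc
  exact hc

lemma pa3_plm (hU : SP V κ Λ c0) : FP.PLm (tgt V) := by
  have hm : Measurable fun x : Eu n => ENNReal.ofReal (Real.exp (-V x)) :=
    ENNReal.measurable_ofReal.comp (Real.continuous_exp.comp hU.cd.continuous.neg).measurable
  unfold tgt
  apply (FP.plm_haar volume).withDensity hm
  intro x y l h0 h1
  rw [ENNReal.ofReal_rpow_of_pos (Real.exp_pos _), ENNReal.ofReal_rpow_of_pos (Real.exp_pos _),
      ← ENNReal.ofReal_mul (by positivity), ← Real.exp_mul, ← Real.exp_mul, ← Real.exp_add]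
  apply ENNReal.ofReal_le_ofReal
  apply Real.exp_le_exp.2
  have h2 := (pa3_convex hU).2 (mem_univ x) (mem_univ y) (by linarith : 0 ≤ 1 - l) h0.le (by ring)
  simp only [smul_eq_mul] at h2
  linarith

lemma pa3_int0 (hU : SP V κ Λ c0) : Integrable (fun x => Real.exp (-V x)) := by
  refine hU.int4.mono' (Continuous.aestronglyMeasurable
    (Real.continuous_exp.comp hU.cd.continuous.neg)) (ae_of_all _ fun x => ?_)
  rw [Real.norm_eq_abs, abs_of_pos (Real.exp_pos _)]
  have h1 : (1 : ℝ) ≤ (1 + ‖x‖) ^ 4 := one_le_pow₀ (by linarith [norm_nonneg x])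
  exact le_mul_of_one_le_left (Real.exp_pos _).le h1

lemma pa3_tgt_Ex (hU : SP V κ Λ c0) (F : Eu n → ℝ) : ∫ x, F x ∂(tgt V) = Ex V F :=
  integral_tgt hU.cd.continuous F

lemma pa3_prob (hU : SP V κ Λ c0) : IsProbabilityMeasure (tgt V) := by
  constructor
  unfold tgt
  rw [withDensity_apply _ MeasurableSet.univ, Measure.restrict_univ,
    ← ofReal_integral_eq_lintegral_ofReal (pa3_int0 hU) (ae_of_all _ fun x => (Real.exp_pos _).le)]
  have h1 := hU.mass
  unfold Ex at h1
  simp only [one_mul] at h1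
  rw [h1, ENNReal.ofReal_one]

lemma pa3_integrable_iff (hU : SP V κ Λ c0) (F : Eu n → ℝ) :
    Integrable F (tgt V) ↔ Integrable (fun x => F x * Real.exp (-V x)) := by
  unfold tgt
  have e3 : (fun x : Eu n => ENNReal.ofReal (Real.exp (-V x))) =
      fun x => ((Real.toNNReal (Real.exp (-V x)) : NNReal) : ℝ≥0∞) := rfl
  have hm : Measurable (fun x => Real.toNNReal (Real.exp (-V x))) :=
    (Real.measurable_exp.comp hU.cd.continuous.measurable.neg).real_toNNReal
  rw [e3, integrable_withDensity_iff_integrable_smul hm]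
  have e4 : (fun x => Real.toNNReal (Real.exp (-V x)) • F x) =
      fun x => F x * Real.exp (-V x) := by
    funext x
    rw [NNReal.smul_def, Real.coe_toNNReal _ (Real.exp_pos _).le, smul_eq_mul, mul_comm]
  rw [e4]

/-- continuous functions of growth at most four are integrable -/
lemma pa3_integrable (hU : SP V κ Λ c0) {F : Eu n → ℝ} (hF : Continuous F) {C : ℝ}
    (hb : ∀ x, |F x| ≤ C * (1 + ‖x‖) ^ 4) : Integrable F (tgt V) := by
  rw [pa3_integrable_iff hU]
  refine (hU.int4.const_mul C).mono' (hF.mul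
    (Real.continuous_exp.comp hU.cd.continuous.neg)).aestronglyMeasurable (ae_of_all _ fun x => ?_)
  rw [norm_mul, Real.norm_eq_abs, Real.norm_eq_abs, abs_of_pos (Real.exp_pos _), ← mul_assoc]
  exact mul_le_mul_of_nonneg_right (hb x) (Real.exp_pos _).le

lemma pa3_integrable_cs (hU : SP V κ Λ c0) {F : Eu n → ℝ} (hF : Continuous F)
    (hs : HasCompactSupport F) : Integrable F (tgt V) := by
  rw [pa3_integrable_iff hU]
  exact int_cs hU.cd.continuous hF hs

lemma pa3_coord (hU : SP V κ Λ c0) (i : Fin n) : Integrable (fun x : Eu n => x i) (tgt V) := by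
  refine pa3_integrable hU (by fun_prop) (C := 1) fun x => ?_
  have h1 := coord_le x i
  have h2 : (1 + ‖x‖) ^ 1 ≤ (1 + ‖x‖) ^ 4 :=
    pow_le_pow_right₀ (by linarith [norm_nonneg x]) (by norm_num)
  rw [pow_one] at h2
  linarith

lemma pa3_coord2 (hU : SP V κ Λ c0) (i j : Fin n) :
    Integrable (fun x : Eu n => x i * x j) (tgt V) := by
  refine pa3_integrable hU (by fun_prop) (C := 1) fun x => ?_
  have h1 := coord_le x i
  have h1' := coord_le x j
  have h2 : (1 + ‖x‖) ^ 2 ≤ (1 + ‖x‖) ^ 4 :=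
    pow_le_pow_right₀ (by linarith [norm_nonneg x]) (by norm_num)
  have h3 : |x i * x j| ≤ ‖x‖ * ‖x‖ := by
    rw [abs_mul]
    exact mul_le_mul h1 h1' (abs_nonneg _) (norm_nonneg _)
  nlinarith [norm_nonneg x]

/-! ### restriction to balls -/

/-- conditioned on a ball -/
noncomputable def pa3r (ρ : Measure (Eu n)) (k : ℕ) : Measure (Eu n) :=
  (ρ (Metric.closedBall 0 (k : ℝ)))⁻¹ • ρ.restrict (Metric.closedBall 0 (k : ℝ))

lemma pa3r_tendsto (ρ : Measure (Eu n)) [IsProbabilityMeasure ρ] {G : Eu n → ℝ}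
    (hG : Integrable G ρ) : Tendsto (fun k => ∫ x, G x ∂(pa3r ρ k)) atTop (𝓝 (∫ x, G x ∂ρ)) := by
  have hms : ∀ k : ℕ, MeasurableSet (Metric.closedBall (0 : Eu n) (k : ℝ)) :=
    fun k => Metric.isClosed_closedBall.measurableSet
  have hmono : Monotone (fun k : ℕ => Metric.closedBall (0 : Eu n) (k : ℝ)) :=
    fun a b hab => Metric.closedBall_subset_closedBall (by exact_mod_cast hab)
  have hU : (⋃ k : ℕ, Metric.closedBall (0 : Eu n) (k : ℝ)) = univ := Metric.iUnion_closedBall_nat 0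
  have h1 : ∀ {G : Eu n → ℝ}, Integrable G ρ → Tendsto (fun k : ℕ =>
      ∫ x in Metric.closedBall (0 : Eu n) (k : ℝ), G x ∂ρ) atTop (𝓝 (∫ x, G x ∂ρ)) := by
    intro G hG
    have h := tendsto_setIntegral_of_monotone hms hmono (f := G) (μ := ρ)
      (by rw [hU]; exact hG.integrableOn)
    rw [hU, Measure.restrict_univ] at h
    exact h
  have h2 := h1 (G := fun _ => (1 : ℝ)) (integrable_const _)
  have h3 := (h2.inv₀ (by simp)).mul (h1 hG)
  have h4 : (∫ _x, (1 : ℝ) ∂ρ)⁻¹ * ∫ x, G x ∂ρ = ∫ x, G x ∂ρ := by simp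
  rw [h4] at h3
  refine h3.congr fun k => ?_
  unfold pa3r
  rw [integral_smul_measure, smul_eq_mul]
  congr 1
  simp [ENNReal.toReal_inv, Measure.real]

lemma pa3r_prob (ρ : Measure (Eu n)) [IsProbabilityMeasure ρ] {k : ℕ}
    (hk : ρ (Metric.closedBall 0 (k : ℝ)) ≠ 0) : IsProbabilityMeasure (pa3r ρ k) := by
  constructor
  unfold pa3r
  rw [Measure.smul_apply, Measure.restrict_apply_univ, smul_eq_mul]
  exact ENNReal.inv_mul_cancel hk (measure_ne_top _ _)

lemma pa3r_plm (ρ : Measure (Eu n)) [IsProbabilityMeasure ρ] (hρ : FP.PLm ρ) {k : ℕ}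
    (hk : ρ (Metric.closedBall 0 (k : ℝ)) ≠ 0) : FP.PLm (pa3r ρ k) :=
  (hρ.restrict_ball k).smul _ (ENNReal.inv_ne_zero.2 (measure_ne_top _ _))
    (ENNReal.inv_ne_top.2 hk)

lemma pa3r_BS (ρ : Measure (Eu n)) (k : ℕ) : BS (k : ℝ) (pa3r ρ k) := by
  unfold pa3r BS
  refine Measure.smul_absolutelyContinuous.ae_le ?_
  filter_upwards [ae_restrict_mem (Metric.isClosed_closedBall (x := (0 : Eu n))
        (ε := (k : ℝ))).measurableSet] with z hz
  rwa [mem_closedBall_zero_iff] at hz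

lemma pa3r_Cv (ρ : Measure (Eu n)) [IsProbabilityMeasure ρ] {f g : Eu n → ℝ}
    (hf : Integrable f ρ) (hg : Integrable g ρ) (hfg : Integrable (fun x => f x * g x) ρ) :
    Tendsto (fun k => Cv (pa3r ρ k) f g) atTop (𝓝 (Cv ρ f g)) :=
  (pa3r_tendsto ρ hfg).sub ((pa3r_tendsto ρ hf).mul (pa3r_tendsto ρ hg))

/-- the inequality for smooth potentials -/
theorem pa3_SIn {C : ℝ} (hS : SIn n C) (hU : SP V κ Λ c0) (hu : UC.TT u) :
    (∑ i, Cv (tgt V) (fun x => x i) (pd i u)) ^ 2 ≤
      C * (Am (tgt V) * Am (tgt V)).trace * ∑ j, Df V (pd j u) (pd j u) := by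
  have hP := pa3_prob hU
  set ρ := tgt V with hρ
  have hpl : FP.PLm ρ := pa3_plm hU
  -- limits
  have hcs : ∀ j, Continuous (pd j u) ∧ HasCompactSupport (pd j u) := fun j =>
    ⟨(hu.pd j).cd.continuous, (hu.pd j).cs⟩
  have l1 : Tendsto (fun k => (∑ i, Cv (pa3r ρ k) (fun x => x i) (pd i u)) ^ 2) atTop
      (𝓝 ((∑ i, Cv ρ (fun x => x i) (pd i u)) ^ 2)) := by
    refine (tendsto_finsetSum _ fun i _ => pa3r_Cv ρ (pa3_coord hU i)
      (pa3_integrable_cs hU (hcs i).1 (hcs i).2) ?_).pow 2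
    exact pa3_integrable_cs hU ((by fun_prop : Continuous fun x : Eu n => x i).mul (hcs i).1)
      (hcs i).2.mul_left
  have l2 : Tendsto (fun k => (Am (pa3r ρ k) * Am (pa3r ρ k)).trace) atTop
      (𝓝 ((Am ρ * Am ρ).trace)) := by
    unfold Matrix.trace
    simp only [Matrix.diag, Matrix.mul_apply]
    refine tendsto_finsetSum _ fun i _ => tendsto_finsetSum _ fun j _ => ?_
    exact (pa3r_Cv ρ (pa3_coord hU i) (pa3_coord hU j) (pa3_coord2 hU i j)).mul
      (pa3r_Cv ρ (pa3_coord hU j) (pa3_coord hU i) (pa3_coord2 hU j i))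
  have hfc : ∀ j, Continuous (fun x => ‖fderiv ℝ (pd j u) x‖ ^ 2) := fun j =>
    ((hu.pd j).cd.continuous_fderiv (by norm_num)).norm.pow 2
  have hfs : ∀ j, HasCompactSupport (fun x => ‖fderiv ℝ (pd j u) x‖ ^ 2) := by
    intro j
    have h1 : HasCompactSupport (fderiv ℝ (pd j u)) := (hu.pd j).cs.fderiv (𝕜 := ℝ)
    exact h1.comp_left (g := fun L : Eu n →L[ℝ] ℝ => ‖L‖ ^ 2) (by simp)
  have hint : Integrable (fun x => ∑ j, ‖fderiv ℝ (pd j u) x‖ ^ 2) ρ :=
    integrable_finsetSum _ fun j _ => pa3_integrable_cs hU (hfc j) (hfs j)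
  have l3 := pa3r_tendsto ρ hint
  have e3 : ∫ x, ∑ j, ‖fderiv ℝ (pd j u) x‖ ^ 2 ∂ρ = ∑ j, Df V (pd j u) (pd j u) := by
    rw [integral_finsetSum _ fun j _ => pa3_integrable_cs hU (hfc j) (hfs j)]
    refine Finset.sum_congr rfl fun j _ => ?_
    rw [UC.Df_eq V (hu.pd j) hU.cd.continuous, pa3_tgt_Ex hU]
    rfl
  rw [e3] at l3
  have hpos : ∀ᶠ k : ℕ in atTop, ρ (Metric.closedBall 0 (k : ℝ)) ≠ 0 := by
    have h1 : Tendsto (fun k : ℕ => ρ (Metric.closedBall (0 : Eu n) (k : ℝ))) atTop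
        (𝓝 (ρ (⋃ k : ℕ, Metric.closedBall (0 : Eu n) (k : ℝ)))) :=
      tendsto_measure_iUnion_atTop
        (fun a b hab => Metric.closedBall_subset_closedBall (by exact_mod_cast hab))
    rw [Metric.iUnion_closedBall_nat, measure_univ] at h1
    exact (h1.eventually (lt_mem_nhds (by norm_num : (0 : ℝ≥0∞) < 1))).mono fun k hk => hk.ne'
  refine le_of_tendsto_of_tendsto l1 ((l2.const_mul C).mul l3) ?_
  filter_upwards [hpos] with k hk
  exact hS (pa3r ρ k) k (pa3r_prob ρ hk) (pa3r_plm ρ hpl hk) (pa3r_BS ρ k) (fun j => pd j u)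
    (fun j => (hu.pd j).cd.of_le (by exact_mod_cast le_top))

end Pool.Agent.Lib.MP_6d896a_gt.LG
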