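import Mathlib
import Pool.Agent.Lib.MP_6d896a_gt.LG.PA3a

/-!
Piece PA3, part 3: the thin shell inequality.
-/

set_option autoImplicit false

namespace Pool.Agent.Lib.MP_6d896a_gt.LG

open MeasureTheory Filter Topology Set
open scoped ENNReal NNReal ContDiff
open Pool.Agent.Lib.MP_6d896a_gt.UC (Ex Df LL pd int_cs Ex_add Ex_sub Ex_const_mul Ex_nonneg
  Ex_mono Ex_cs green Ex_LL LL_cont esa ibp bochner)
open Pool.Agent.Lib.MP_6d896a_gt.UC.UR (HP)

variable {n : ℕ} {V f g h u : Eu n → ℝ} {κ Λ c0 : ℝ}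

lemma pa3_int3 {ρ : Measure (Eu n)} (i1 : Integrable f ρ) (i2 : Integrable g ρ)
    (i3 : Integrable h ρ) :
    ∫ x, (f x + g x + h x) ∂ρ = ∫ x, f x ∂ρ + ∫ x, g x ∂ρ + ∫ x, h x ∂ρ := by
  have h1 : ∫ x, (f x + g x + h x) ∂ρ = ∫ x, (f + g) x ∂ρ + ∫ x, h x ∂ρ :=
    integral_add (i1.add i2) i3
  have h2 : ∫ x, (f + g) x ∂ρ = ∫ x, f x ∂ρ + ∫ x, g x ∂ρ := integral_add i1 i2
  rw [h1, h2]

lemma pa3_growth (m x : Eu n) : ‖x - m‖ ≤ (1 + ‖m‖) * (1 + ‖x‖) := by
  have h1 := norm_sub_le x m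
  nlinarith [norm_nonneg x, norm_nonneg m]

lemma pa3_F_int2 (hU : SP V κ Λ c0) (m : Eu n) :
    Integrable (fun x : Eu n => (‖x - m‖ ^ 2) ^ 2) (tgt V) := by
  refine pa3_integrable hU (by fun_prop) (C := (1 + ‖m‖) ^ 4) fun x => ?_
  rw [abs_of_nonneg (by positivity), ← pow_mul, ← mul_pow]
  exact pow_le_pow_left₀ (norm_nonneg _) (pa3_growth m x) 4

lemma pa3_F_memLp (hU : SP V κ Λ c0) (m : Eu n) :
    MemLp (fun x : Eu n => ‖x - m‖ ^ 2) 2 (tgt V) :=
  (memLp_two_iff_integrable_sq (by fun_prop)).2 (pa3_F_int2 hU m)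

/-- approximation of the quadratic function by test functions -/
lemma pa3_cut (hU : SP V κ Λ c0) (m : Eu n) {ε : ℝ} (hε : 0 < ε) :
    ∃ f : Eu n → ℝ, UC.TT f ∧ ∫ x, (‖x - m‖ ^ 2 - f x) ^ 2 ∂(tgt V) ≤ ε := by
  let b : ℕ → ContDiffBump (0 : Eu n) := fun k =>
    { rIn := (k : ℝ) + 1
      rOut := (k : ℝ) + 2
      rIn_pos := by positivity
      rIn_lt_rOut := by linarith }
  have hcd : ContDiff ℝ ∞ (fun x : Eu n => ‖x - m‖ ^ 2) :=
    (contDiff_id.sub contDiff_const).norm_sq ℝ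
  have hTT : ∀ k, UC.TT (fun x => b k x * ‖x - m‖ ^ 2) := fun k =>
    ⟨(b k).contDiff.mul hcd, (b k).hasCompactSupport.mul_right⟩
  have hlim : Tendsto (fun k : ℕ => ∫ x, (‖x - m‖ ^ 2 - b k x * ‖x - m‖ ^ 2) ^ 2 ∂(tgt V)) atTop
      (𝓝 (∫ _x : Eu n, (0 : ℝ) ∂(tgt V))) := by
    refine tendsto_integral_of_dominated_convergence (fun x => (‖x - m‖ ^ 2) ^ 2) ?_
      (pa3_F_int2 hU m) ?_ ?_
    · intro k
      have h1 := (hTT k).cd.continuous
      exact Continuous.aestronglyMeasurable (((by fun_prop : Continuous fun x : Eu n =>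
        ‖x - m‖ ^ 2).sub h1).pow 2)
    · intro k
      refine ae_of_all _ fun x => ?_
      rw [Real.norm_eq_abs, abs_of_nonneg (by positivity)]
      have h0 := (b k).nonneg (x := x)
      have h1 := (b k).le_one (x := x)
      have e : ‖x - m‖ ^ 2 - b k x * ‖x - m‖ ^ 2 = (1 - b k x) * ‖x - m‖ ^ 2 := by ring
      rw [e, mul_pow]
      have h2 : (1 - b k x) ^ 2 ≤ 1 := by nlinarith
      have h3 : 0 ≤ (‖x - m‖ ^ 2) ^ 2 := by positivity
      nlinarith
    · refine ae_of_all _ fun x => ?_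
      obtain ⟨N, hN⟩ := exists_nat_ge ‖x‖
      refine tendsto_const_nhds.congr' ?_
      filter_upwards [eventually_ge_atTop N] with k hk
      have h1 : b k x = 1 := by
        apply (b k).one_of_mem_closedBall
        rw [mem_closedBall_zero_iff]
        show ‖x‖ ≤ (k : ℝ) + 1
        have : (N : ℝ) ≤ k := by exact_mod_cast hk
        linarith
      rw [h1]
      ring
  rw [integral_zero] at hlim
  obtain ⟨k, hk⟩ := (hlim.eventually (gt_mem_nhds hε)).exists
  exact ⟨_, hTT k, hk.le⟩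

/-- the constant of the approximation -/
lemma pa3_near (hU : SP V κ Λ c0) (m : Eu n) {ε : ℝ} (hε : 0 < ε) :
    ∃ u : Eu n → ℝ, UC.TT u ∧
      ∫ x, (LL V u x + (‖x - m‖ ^ 2 - ∫ y, ‖y - m‖ ^ 2 ∂(tgt V))) ^ 2 ∂(tgt V) ≤ ε := by
  have hP := pa3_prob hU
  obtain ⟨f, hf, hf2⟩ := pa3_cut hU m (ε := ε / 9) (by positivity)
  have hN : PA3N V := ⟨hU.cd, pa3_int0 hU, hU.mass⟩
  obtain ⟨u, hu, hu2⟩ := pa3_dens hN hU.cpos hU.hp hf (ε := ε / 9) (by positivity)
  refine ⟨u, hu, ?_⟩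
  have hV1 : ContDiff ℝ 1 V := hU.cd.of_le (by norm_num)
  have hLc := LL_cont hV1 hu
  have hLm : MemLp (LL V u) 2 (tgt V) := hLc.1.memLp_of_hasCompactSupport hLc.2
  have hfm : MemLp f 2 (tgt V) := hf.cd.continuous.memLp_of_hasCompactSupport hf.cs
  have hFm : MemLp (fun x : Eu n => ‖x - m‖ ^ 2) 2 (tgt V) := pa3_F_memLp hU m
  set c := ∫ y, ‖y - m‖ ^ 2 ∂(tgt V) with hc
  set e := ∫ y, f y ∂(tgt V) with he
  have hEf : Ex V f = e := (pa3_tgt_Ex hU f).symm
  rw [hEf, ← pa3_tgt_Ex hU] at hu2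
  have m1 : MemLp (fun x => LL V u x + (f x - e)) 2 (tgt V) := hLm.add (hfm.sub (memLp_const e))
  have m2 : MemLp (fun x => ‖x - m‖ ^ 2 - f x) 2 (tgt V) := hFm.sub hfm
  have i1 := m1.integrable_sq
  have i2 := m2.integrable_sq
  have hce : (c - e) ^ 2 ≤ ε / 9 := by
    have h1 : c - e = ∫ x, (‖x - m‖ ^ 2 - f x) ∂(tgt V) := by
      rw [integral_sub (hFm.integrable one_le_two) (hfm.integrable one_le_two)]
    have h2 : (∫ x, (‖x - m‖ ^ 2 - f x) ∂(tgt V)) ^ 2 ≤ ∫ x, (‖x - m‖ ^ 2 - f x) ^ 2 ∂(tgt V) := by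
      have h3 := ProbabilityTheory.variance_nonneg (fun x => ‖x - m‖ ^ 2 - f x) (tgt V)
      rw [ProbabilityTheory.variance_eq_sub m2] at h3
      simp only [Pi.pow_apply] at h3
      linarith
    rw [h1]
    exact h2.trans hf2
  have hpt : ∀ x, (LL V u x + (‖x - m‖ ^ 2 - c)) ^ 2 ≤
      3 * (LL V u x + (f x - e)) ^ 2 + 3 * (‖x - m‖ ^ 2 - f x) ^ 2 + 3 * (c - e) ^ 2 := by
    intro x
    nlinarith [sq_nonneg ((LL V u x + (f x - e)) - (‖x - m‖ ^ 2 - f x)),
      sq_nonneg ((LL V u x + (f x - e)) + (c - e)),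
      sq_nonneg ((‖x - m‖ ^ 2 - f x) + (c - e))]
  have hmono : ∫ x, (LL V u x + (‖x - m‖ ^ 2 - c)) ^ 2 ∂(tgt V) ≤
      ∫ x, (3 * (LL V u x + (f x - e)) ^ 2 + 3 * (‖x - m‖ ^ 2 - f x) ^ 2 +
        3 * (c - e) ^ 2) ∂(tgt V) := by
    refine integral_mono_of_nonneg (ae_of_all _ fun x => sq_nonneg _) ?_ (ae_of_all _ hpt)
    exact ((i1.const_mul 3).add (i2.const_mul 3)).add (integrable_const _)
  refine hmono.trans ?_
  rw [pa3_int3 (i1.const_mul 3) (i2.const_mul 3) (integrable_const _), integral_const_mul,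
    integral_const_mul]
  simp only [integral_const, probReal_univ, one_smul]
  have hu3 : ∫ x, (LL V u x + (f x - e)) ^ 2 ∂(tgt V) ≤ ε / 9 := hu2
  linarith

/-- a real inequality -/
lemma pa3_real {v K : ℝ} (hv : 0 ≤ v) (hK : 0 ≤ K)
    (H : ∀ ε : ℝ, 0 < ε → ∃ W Q : ℝ, Q ≤ ε ∧ W ^ 2 ≤ v * Q ∧ (v - W) ^ 2 ≤ K * (v - 2 * W + Q)) :
    v ≤ K := by
  by_contra hc
  push Not at hc
  have hv0 : 0 < v := lt_of_le_of_lt hK hc
  set g := v - K with hg
  have hg0 : 0 < g := by linarith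
  obtain ⟨W, Q, hQ, hW, hm⟩ := H (min (g / 4) ((g / 4) ^ 2 / v)) (by positivity)
  have hQ1 : Q ≤ g / 4 := hQ.trans (min_le_left _ _)
  have hQ2 : v * Q ≤ (g / 4) ^ 2 := by
    have h1 : Q ≤ (g / 4) ^ 2 / v := hQ.trans (min_le_right _ _)
    rw [le_div_iff₀ hv0] at h1
    linarith
  have hW2 : |W| ≤ g / 4 := abs_le_of_sq_le_sq (hW.trans hQ2) (by positivity)
  have hW3 := abs_le.1 hW2
  have hQ0 : K * Q ≤ v * (g / 4) := by
    rcases le_or_gt 0 Q with h | h
    · exact mul_le_mul hc.le hQ1 h hv0.le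
    · have := mul_nonneg hv0.le (by positivity : 0 ≤ g / 4)
      nlinarith
  have hgv : g ≤ v := by linarith
  nlinarith [sq_nonneg W]

/-- the thin shell inequality for smooth potentials -/
theorem pa3_smooth {C : ℝ} (hC : 0 ≤ C) (hS : SIn n C) (hU : SP V κ Λ c0) {m : Eu n}
    (hm : ∀ i, m i = ∫ x, x i ∂(tgt V)) :
    Cv (tgt V) (fun x => ‖x - m‖ ^ 2) (fun x => ‖x - m‖ ^ 2) ≤
      4 * C * (Am (tgt V) * Am (tgt V)).trace := by
  have hP := pa3_prob hU
  have hV1 : ContDiff ℝ 1 V := hU.cd.of_le (by norm_num)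
  have hFm : MemLp (fun x : Eu n => ‖x - m‖ ^ 2) 2 (tgt V) := pa3_F_memLp hU m
  set c := ∫ y, ‖y - m‖ ^ 2 ∂(tgt V) with hc
  have hAm : MemLp (fun x : Eu n => ‖x - m‖ ^ 2 - c) 2 (tgt V) := hFm.sub (memLp_const c)
  have hA1 : Integrable (fun x : Eu n => ‖x - m‖ ^ 2 - c) (tgt V) := hAm.integrable one_le_two
  have hA0 : ∫ x, (‖x - m‖ ^ 2 - c) ∂(tgt V) = 0 := by
    rw [integral_sub (hFm.integrable one_le_two) (integrable_const c)]
    simp [← hc]
  have hv : Cv (tgt V) (fun x => ‖x - m‖ ^ 2) (fun x => ‖x - m‖ ^ 2) =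
      ∫ x, (‖x - m‖ ^ 2 - c) * (‖x - m‖ ^ 2 - c) ∂(tgt V) := by
    unfold Cv
    have e : ∀ x : Eu n, (‖x - m‖ ^ 2 - c) * (‖x - m‖ ^ 2 - c) =
        ‖x - m‖ ^ 2 * ‖x - m‖ ^ 2 + (-c) * ‖x - m‖ ^ 2 + (-c) * (‖x - m‖ ^ 2 - c) := by
      intro x; ring
    have j1 : Integrable (fun x : Eu n => ‖x - m‖ ^ 2 * ‖x - m‖ ^ 2) (tgt V) := hFm.integrable_mul hFm
    simp only [e]
    rw [pa3_int3 j1 ((hFm.integrable one_le_two).const_mul (-c)) (hA1.const_mul (-c)),
      integral_const_mul, integral_const_mul, hA0, ← hc]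
    ring
  have hT0 : 0 ≤ (Am (tgt V) * Am (tgt V)).trace := by
    unfold Matrix.trace
    simp only [Matrix.diag, Matrix.mul_apply]
    refine Finset.sum_nonneg fun i _ => Finset.sum_nonneg fun j _ => ?_
    rw [Am_symm (tgt V) j i]
    exact mul_self_nonneg _
  refine pa3_real (v := Cv (tgt V) (fun x => ‖x - m‖ ^ 2) (fun x => ‖x - m‖ ^ 2)) ?_ (by positivity) ?_
  · rw [hv]
    exact integral_nonneg fun x => mul_self_nonneg _
  intro ε hε
  obtain ⟨u, hu, hu2⟩ := pa3_near hU m hε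
  rw [← hc] at hu2
  have hLc := LL_cont hV1 hu
  have hLm : MemLp (LL V u) 2 (tgt V) := hLc.1.memLp_of_hasCompactSupport hLc.2
  have hqm : MemLp (fun x => LL V u x + (‖x - m‖ ^ 2 - c)) 2 (tgt V) := hLm.add hAm
  have hiL : Integrable (LL V u) (tgt V) := hLm.integrable one_le_two
  set v := Cv (tgt V) (fun x => ‖x - m‖ ^ 2) (fun x => ‖x - m‖ ^ 2) with hvdef
  set X := ∫ x, (‖x - m‖ ^ 2 - c) * LL V u x ∂(tgt V) with hX
  set Y := ∫ x, LL V u x * LL V u x ∂(tgt V) with hY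
  have i1 : Integrable (fun x => (‖x - m‖ ^ 2 - c) * LL V u x) (tgt V) := hAm.integrable_mul hLm
  have i2 : Integrable (fun x => (‖x - m‖ ^ 2 - c) * (‖x - m‖ ^ 2 - c)) (tgt V) :=
    hAm.integrable_mul hAm
  have i3 : Integrable (fun x => LL V u x * LL V u x) (tgt V) := hLm.integrable_mul hLm
  have hW : ∫ x, (‖x - m‖ ^ 2 - c) * (LL V u x + (‖x - m‖ ^ 2 - c)) ∂(tgt V) = X + v := by
    simp only [mul_add]
    rw [integral_add i1 i2, hv]
  have hQ : ∫ x, (LL V u x + (‖x - m‖ ^ 2 - c)) ^ 2 ∂(tgt V) = Y + 2 * X + v := by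
    have e : ∀ x, (LL V u x + (‖x - m‖ ^ 2 - c)) ^ 2 = LL V u x * LL V u x +
        2 * ((‖x - m‖ ^ 2 - c) * LL V u x) + (‖x - m‖ ^ 2 - c) * (‖x - m‖ ^ 2 - c) := by
      intro x; ring
    simp only [e]
    rw [pa3_int3 i3 (i1.const_mul 2) i2, integral_const_mul, hv]
  refine ⟨X + v, Y + 2 * X + v, by rw [← hQ]; exact hu2, ?_, ?_⟩
  · -- Cauchy-Schwarz
    have hcs := Ex_cs (V := V) (f := fun x => ‖x - m‖ ^ 2 - c)
      (g := fun x => LL V u x + (‖x - m‖ ^ 2 - c))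
      ((pa3_integrable_iff hU _).1 hAm.integrable_sq)
      ((pa3_integrable_iff hU _).1 hqm.integrable_sq)
      ((pa3_integrable_iff hU _).1 (hAm.integrable_mul hqm))
    rw [← pa3_tgt_Ex hU, ← pa3_tgt_Ex hU, ← pa3_tgt_Ex hU] at hcs
    rw [← hW, ← hQ]
    refine hcs.trans (le_of_eq ?_)
    rw [hv]
    simp only [sq]
  · -- the main inequality
    have hX2 : X = -2 * ∑ i, Cv (tgt V) (fun x => x i) (pd i u) := by
      have h0 : ∫ x, LL V u x ∂(tgt V) = 0 := by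
        rw [pa3_tgt_Ex hU]
        exact Ex_LL hV1 hu
      have h1 : X = Ex V (fun x => ‖x - m‖ ^ 2 * LL V u x) := by
        have j1 : Integrable (fun x => ‖x - m‖ ^ 2 * LL V u x) (tgt V) := hFm.integrable_mul hLm
        rw [hX, ← pa3_tgt_Ex hU]
        simp only [sub_mul]
        rw [integral_sub j1 (hiL.const_mul c), integral_const_mul, h0]
        simp
      have hcd : ContDiff ℝ 1 (fun x : Eu n => ‖x - m‖ ^ 2) :=
        (contDiff_id.sub contDiff_const).norm_sq ℝ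
      have hpd : ∀ i x, pd i (fun x : Eu n => ‖x - m‖ ^ 2) x = 2 * (x i - m i) := by
        intro i x
        unfold pd
        have h2 : HasFDerivAt (fun x : Eu n => ‖x - m‖ ^ 2) _ x :=
          ((hasFDerivAt_id (𝕜 := ℝ) x).sub_const m).norm_sq
        rw [h2.fderiv]
        simp [ej, EuclideanSpace.inner_single_right]
      have h3 : ∀ i, Ex V (fun x => 2 * (x i - m i) * pd i u x) =
          - Ex V (fun x => ‖x - m‖ ^ 2 * (pd i (pd i u) x - pd i V x * pd i u x)) := by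
        intro i
        have h4 := ibp hV1 hcd ((hu.pd i).cd.of_le (by exact_mod_cast le_top)) (hu.pd i).cs i
        simp only [hpd] at h4
        exact h4
      have h5 : ∀ i, Ex V (fun x => 2 * (x i - m i) * pd i u x) =
          2 * Cv (tgt V) (fun x => x i) (pd i u) := by
        intro i
        rw [← pa3_tgt_Ex hU]
        have i4 : Integrable (fun x => x i * pd i u x) (tgt V) :=
          pa3_integrable_cs hU ((by fun_prop : Continuous fun x : Eu n => x i).mul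
            (hu.pd i).cd.continuous) (hu.pd i).cs.mul_left
        have i5 : Integrable (pd i u) (tgt V) := pa3_integrable_cs hU (hu.pd i).cd.continuous (hu.pd i).cs
        have e : ∀ x : Eu n, 2 * (x i - m i) * pd i u x =
            2 * (x i * pd i u x) - (2 * m i) * pd i u x := by
          intro x; ring
        simp only [e]
        rw [integral_sub (i4.const_mul 2) (i5.const_mul _), integral_const_mul,
          integral_const_mul]
        unfold Cv
        rw [← hm i]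
        ring
      have h6 : Ex V (fun x => ‖x - m‖ ^ 2 * LL V u x) =
          ∑ i, Ex V (fun x => ‖x - m‖ ^ 2 * (pd i (pd i u) x - pd i V x * pd i u x)) := by
        have hpV : ∀ i, Continuous (pd i V) := fun i =>
          (UC.pd_contDiff (m := 0) (k := 1) hV1 (by norm_num) i).continuous
        rw [← UC.Ex_sum]
        · congr 1
          funext x
          rw [← Finset.mul_sum, Finset.sum_sub_distrib]
          rfl
        · intro i _
          refine int_cs hU.cd.continuous ?_ ?_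
          · exact (by fun_prop : Continuous fun x : Eu n => ‖x - m‖ ^ 2).mul
              ((((hu.pd i).pd i).cd.continuous).sub ((hpV i).mul (hu.pd i).cd.continuous))
          · exact HasCompactSupport.mul_left
              (((hu.pd i).pd i).cs.sub (hu.pd i).cs.mul_left)
      rw [h1, h6]
      have h7 : ∀ i, Ex V (fun x => ‖x - m‖ ^ 2 * (pd i (pd i u) x - pd i V x * pd i u x)) =
          -(2 * Cv (tgt V) (fun x => x i) (pd i u)) := by
        intro i
        rw [← h5 i, h3 i, neg_neg]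
      simp only [h7]
      rw [Finset.sum_neg_distrib, ← Finset.mul_sum]
      ring
    have h8 := pa3_SIn hS hU hu
    have h9 := bochner hU.cd (fun x v => le_trans (by have := hU.kpos; positivity)
      (hU.conv x v)) hu
    have h10 : Ex V (fun x => LL V u x ^ 2) = Y := by
      rw [← pa3_tgt_Ex hU, hY]
      simp only [sq]
    rw [h10] at h9
    set S' := ∑ i, Cv (tgt V) (fun x => x i) (pd i u) with hS'
    set D := ∑ j, Df V (pd j u) (pd j u) with hD
    have h11 : C * (Am (tgt V) * Am (tgt V)).trace * D ≤ C * (Am (tgt V) * Am (tgt V)).trace * Y :=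
      mul_le_mul_of_nonneg_left h9 (mul_nonneg hC hT0)
    have e1 : v - (X + v) = 2 * S' := by rw [hX2]; ring
    have e2 : v - 2 * (X + v) + (Y + 2 * X + v) = Y := by ring
    rw [e1, e2]
    nlinarith

end Pool.Agent.Lib.MP_6d896a_gt.LG
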