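import Mathlib
import Pool.Agent.Lib.MP_6d896a_gt.LG.PA3b

/-!
Piece PA3: the thin shell inequality follows from the inequality for vector fields.
-/

set_option autoImplicit false

namespace Pool.Agent.Lib.MP_6d896a_gt.LG

open MeasureTheory Filter Topology Set
open scoped ENNReal NNReal ContDiff

variable {n : ℕ} {f g h : Eu n → ℝ} {ν : Measure (Eu n)} {R τ : ℝ}

/-! ### covariances of square integrable functions -/

lemma pa3m_add_left (hf : MemLp f 2 ν) (hg : MemLp g 2 ν) (hh : MemLp h 2 ν)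
    [IsProbabilityMeasure ν] : Cv ν (fun x => f x + g x) h = Cv ν f h + Cv ν g h := by
  have j1 : Integrable (fun x => f x * h x) ν := hf.integrable_mul hh
  have j2 : Integrable (fun x => g x * h x) ν := hg.integrable_mul hh
  unfold Cv
  rw [integral_add (hf.integrable one_le_two) (hg.integrable one_le_two)]
  simp only [add_mul]
  rw [integral_add j1 j2]
  ring

lemma pa3m_add_right (hf : MemLp f 2 ν) (hg : MemLp g 2 ν) (hh : MemLp h 2 ν)
    [IsProbabilityMeasure ν] : Cv ν h (fun x => f x + g x) = Cv ν h f + Cv ν h g := by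
  rw [Cv_comm, pa3m_add_left hf hg hh, Cv_comm f, Cv_comm g]

lemma pa3m_sum_left [IsProbabilityMeasure ν] {ι : Type*} (S : Finset ι) {f : ι → Eu n → ℝ}
    (hf : ∀ i ∈ S, MemLp (f i) 2 ν) (hh : MemLp h 2 ν) :
    Cv ν (fun x => ∑ i ∈ S, f i x) h = ∑ i ∈ S, Cv ν (f i) h := by
  classical
  induction S using Finset.induction_on with
  | empty => simpa using Cv_const_left (ν := ν) 0 h
  | insert a S ha ih =>
    simp only [Finset.sum_insert ha]
    have hS : ∀ i ∈ S, MemLp (f i) 2 ν := fun i hi => hf i (Finset.mem_insert_of_mem hi)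
    rw [pa3m_add_left (hf a (Finset.mem_insert_self _ _)) (memLp_finsetSum S hS) hh, ih hS]

/-! ### the polynomial form -/

/-- variance of the squared distance from the mean, expanded -/
noncomputable def pa3Q (ν : Measure (Eu n)) : ℝ :=
  Cv ν (fun x => ‖x‖ ^ 2) (fun x => ‖x‖ ^ 2) -
    4 * ∑ i, (∫ x, x i ∂ν) * Cv ν (fun x => x i) (fun x => ‖x‖ ^ 2) +
    4 * ∑ i, ∑ j, (∫ x, x i ∂ν) * (∫ x, x j ∂ν) * Cv ν (fun x => x i) (fun x => x j)

lemma pa3Q_eq [IsProbabilityMeasure ν] (hN : MemLp (fun x : Eu n => ‖x‖ ^ 2) 2 ν)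
    (hx : ∀ i, MemLp (fun x : Eu n => x i) 2 ν) {m : Eu n} (hm : ∀ i, m i = ∫ x, x i ∂ν) :
    Cv ν (fun x => ‖x - m‖ ^ 2) (fun x => ‖x - m‖ ^ 2) = pa3Q ν := by
  have hLm : MemLp (fun x : Eu n => ∑ i, m i * x i) 2 ν :=
    memLp_finsetSum _ fun i _ => (hx i).const_mul (m i)
  have hL2 : MemLp (fun x : Eu n => -2 * ∑ i, m i * x i) 2 ν := hLm.const_mul (-2)
  have hG : MemLp (fun x : Eu n => ‖x‖ ^ 2 + -2 * ∑ i, m i * x i) 2 ν := hN.add hL2
  have e : (fun x : Eu n => ‖x - m‖ ^ 2) =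
      fun x => (‖x‖ ^ 2 + -2 * ∑ i, m i * x i) + ‖m‖ ^ 2 := by
    funext x
    rw [norm_sub_sq_real]
    have : inner ℝ x m = ∑ i, m i * x i := by
      rw [PiLp.inner_apply]
      refine Finset.sum_congr rfl fun i _ => ?_
      simp
    rw [this]
    ring
  have hc : MemLp (fun _ : Eu n => ‖m‖ ^ 2) 2 ν := memLp_const _
  have hGc : MemLp (fun x : Eu n => (‖x‖ ^ 2 + -2 * ∑ i, m i * x i) + ‖m‖ ^ 2) 2 ν := hG.add hc
  rw [e, pa3m_add_left hG hc hGc, Cv_const_left, pa3m_add_right hG hc hG,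
    Cv_const_right, pa3m_add_left hN hL2 hG, pa3m_add_right hN hL2 hN, pa3m_add_right hN hL2 hL2,
    Cv_cmul_left, Cv_cmul_left, Cv_cmul_right, Cv_cmul_right]
  have h1 : Cv ν (fun x => ∑ i, m i * x i) (fun x => ‖x‖ ^ 2) =
      ∑ i, m i * Cv ν (fun x => x i) (fun x => ‖x‖ ^ 2) := by
    rw [pa3m_sum_left _ (fun i _ => (hx i).const_mul (m i)) hN]
    exact Finset.sum_congr rfl fun i _ => Cv_cmul_left _ _ _
  have h2 : Cv ν (fun x => ∑ i, m i * x i) (fun x => ∑ i, m i * x i) =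
      ∑ i, ∑ j, m i * m j * Cv ν (fun x => x i) (fun x => x j) := by
    rw [pa3m_sum_left _ (fun i _ => (hx i).const_mul (m i)) hLm]
    refine Finset.sum_congr rfl fun i _ => ?_
    rw [Cv_cmul_left, Cv_comm, pa3m_sum_left _ (fun i _ => (hx i).const_mul (m i)) (hx i),
      Finset.mul_sum]
    refine Finset.sum_congr rfl fun j _ => ?_
    rw [Cv_cmul_left, Cv_comm]
    ring
  rw [Cv_comm (fun x => ‖x‖ ^ 2) (fun x => ∑ i, m i * x i), h1, h2]
  unfold pa3Q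
  simp only [hm]
  ring

/-! ### limits -/

/-- convergence of moments of order at most four -/
def pa3L (νk : ℕ → Measure (Eu n)) (ν : Measure (Eu n)) : Prop :=
  ∀ F : Eu n → ℝ, Continuous F → (∃ C : ℝ, ∀ x, |F x| ≤ C * (1 + ‖x‖) ^ 4) →
    Tendsto (fun k => ∫ x, F x ∂(νk k)) atTop (𝓝 (∫ x, F x ∂ν))

lemma pa3_pw (x : Eu n) {a : ℕ} (ha : a ≤ 4) : ‖x‖ ^ a ≤ 1 * (1 + ‖x‖) ^ 4 := by
  rw [one_mul]
  calc ‖x‖ ^ a ≤ (1 + ‖x‖) ^ a := pow_le_pow_left₀ (norm_nonneg _) (by linarith) a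
    _ ≤ (1 + ‖x‖) ^ 4 := pow_le_pow_right₀ (by linarith [norm_nonneg x]) ha

lemma pa3L.cv {νk : ℕ → Measure (Eu n)} (H : pa3L νk ν) (hf : Continuous f) (hg : Continuous g)
    {a b : ℕ} (hab : a + b ≤ 4) (hfb : ∀ x, |f x| ≤ ‖x‖ ^ a) (hgb : ∀ x, |g x| ≤ ‖x‖ ^ b) :
    Tendsto (fun k => Cv (νk k) f g) atTop (𝓝 (Cv ν f g)) := by
  refine (H _ (hf.mul hg) ⟨1, fun x => ?_⟩).sub ((H f hf ⟨1, fun x => ?_⟩).mul
    (H g hg ⟨1, fun x => ?_⟩))
  · rw [Pi.mul_apply, abs_mul]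
    refine le_trans ?_ (pa3_pw x hab)
    rw [pow_add]
    exact mul_le_mul (hfb x) (hgb x) (abs_nonneg _) (by positivity)
  · exact (hfb x).trans (pa3_pw x (by omega))
  · exact (hgb x).trans (pa3_pw x (by omega))

lemma pa3L.lim {νk : ℕ → Measure (Eu n)} (H : pa3L νk ν) :
    Tendsto (fun k => pa3Q (νk k)) atTop (𝓝 (pa3Q ν)) ∧
      Tendsto (fun k => (Am (νk k) * Am (νk k)).trace) atTop (𝓝 ((Am ν * Am ν).trace)) := by
  have cx : ∀ i : Fin n, Continuous (fun x : Eu n => x i) := fun i => by fun_prop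
  have bx : ∀ (i : Fin n) (x : Eu n), |x i| ≤ ‖x‖ ^ 1 := fun i x => by
    rw [pow_one]; exact coord_le x i
  have cN : Continuous (fun x : Eu n => ‖x‖ ^ 2) := by fun_prop
  have bN : ∀ x : Eu n, |‖x‖ ^ 2| ≤ ‖x‖ ^ 2 := fun x => by rw [abs_of_nonneg (by positivity)]
  have l1 : ∀ i, Tendsto (fun k => ∫ x, x i ∂(νk k)) atTop (𝓝 (∫ x, x i ∂ν)) := fun i =>
    H _ (cx i) ⟨1, fun x => (bx i x).trans (pa3_pw x (by norm_num))⟩
  have l2 : ∀ i j, Tendsto (fun k => Cv (νk k) (fun x => x i) (fun x => x j)) atTop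
      (𝓝 (Cv ν (fun x => x i) (fun x => x j))) := fun i j =>
    H.cv (cx i) (cx j) (by norm_num) (bx i) (bx j)
  constructor
  · unfold pa3Q
    refine ((H.cv cN cN (by norm_num) bN bN).sub
      ((tendsto_finsetSum _ fun i _ => (l1 i).mul
        (H.cv (cx i) cN (by norm_num) (bx i) bN)).const_mul 4)).add
      ((tendsto_finsetSum _ fun i _ => tendsto_finsetSum _ fun j _ =>
        ((l1 i).mul (l1 j)).mul (l2 i j)).const_mul 4)
  · unfold Matrix.trace
    simp only [Matrix.diag, Matrix.mul_apply]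
    exact tendsto_finsetSum _ fun i _ => tendsto_finsetSum _ fun j _ => (l2 i j).mul (l2 j i)

lemma pa3_gauss_growth (hτ : 0 < τ) : ∃ B : ℝ, 0 ≤ B ∧
    ∀ x : Eu n, (1 + ‖x‖) ^ 4 * Real.exp (-(τ / 2) * ‖x‖ ^ 2) ≤ B := by
  refine ⟨8 * (1 + 8 / τ ^ 2), by positivity, fun x => ?_⟩
  set r := ‖x‖ with hr
  have hr0 : 0 ≤ r := norm_nonneg x
  set y := τ / 2 * r ^ 2 with hy
  have hy0 : 0 ≤ y := by positivity
  have h1 : (1 + r) ^ 4 ≤ 8 * (1 + r ^ 4) := by
    nlinarith [sq_nonneg (r - 1), sq_nonneg (r ^ 2 - 1), sq_nonneg (r ^ 2 - r), hr0,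
      mul_nonneg hr0 (sq_nonneg (r - 1))]
  have h2 : r ^ 4 = 4 / τ ^ 2 * y ^ 2 := by
    rw [hy]
    field_simp
    ring
  have h3 : 1 + y + y ^ 2 / 2 ≤ Real.exp y := Real.quadratic_le_exp_of_nonneg hy0
  have he : Real.exp (-(τ / 2) * r ^ 2) = (Real.exp y)⁻¹ := by
    rw [← Real.exp_neg]
    congr 1
    rw [hy]
    ring
  rw [he, ← div_eq_mul_inv, div_le_iff₀ (Real.exp_pos _)]
  have h4 : 1 ≤ Real.exp y := by nlinarith
  have h5 : y ^ 2 ≤ 2 * Real.exp y := by nlinarith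
  have h6 : (0 : ℝ) < 4 / τ ^ 2 := by positivity
  calc (1 + r) ^ 4 ≤ 8 * (1 + r ^ 4) := h1
    _ = 8 * (1 + 4 / τ ^ 2 * y ^ 2) := by rw [h2]
    _ ≤ 8 * (1 * Real.exp y + 4 / τ ^ 2 * (2 * Real.exp y)) := by
        have := mul_le_mul_of_nonneg_left h5 h6.le
        linarith
    _ = 8 * (1 + 8 / τ ^ 2) * Real.exp y := by ring

/-- the inequality for uniformly log-concave measures with bounded support -/
theorem pa3_ulc {C : ℝ} (hC : 0 ≤ C) (hS : SIn n C) (hν : IsProbabilityMeasure ν) (hR : BS R ν)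
    (hτ : 0 < τ) (hu : ULC τ ν) : pa3Q ν ≤ 4 * C * (Am ν * Am ν).trace := by
  obtain ⟨V, hV, hlim⟩ := ulc_approx hν hR hτ hu
  obtain ⟨B, hB0, hB⟩ := pa3_gauss_growth (n := n) hτ
  have H : pa3L (fun k => tgt (V k)) ν := by
    intro F hF hFb
    obtain ⟨K, hK⟩ := hFb
    have h1 := hlim F hF ⟨|K| * B, fun x => ?_⟩
    · refine h1.congr fun k => ?_
      obtain ⟨Λ, c0, hk⟩ := hV k
      exact (pa3_tgt_Ex hk F).symm
    · have h2 : |F x| ≤ |K| * (1 + ‖x‖) ^ 4 :=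
        (hK x).trans (mul_le_mul_of_nonneg_right (le_abs_self K) (by positivity))
      calc |F x| * Real.exp (-(τ / 2) * ‖x‖ ^ 2)
          ≤ |K| * (1 + ‖x‖) ^ 4 * Real.exp (-(τ / 2) * ‖x‖ ^ 2) :=
            mul_le_mul_of_nonneg_right h2 (Real.exp_pos _).le
        _ = |K| * ((1 + ‖x‖) ^ 4 * Real.exp (-(τ / 2) * ‖x‖ ^ 2)) := by ring
        _ ≤ |K| * B := mul_le_mul_of_nonneg_left (hB x) (abs_nonneg _)
  obtain ⟨l1, l2⟩ := H.lim
  refine le_of_tendsto_of_tendsto' l1 (l2.const_mul (4 * C)) fun k => ?_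
  obtain ⟨Λ, c0, hk⟩ := hV k
  have hP := pa3_prob hk
  have h1 := pa3_smooth hC hS hk (m := mn (tgt (V k))) (fun i => rfl)
  rw [pa3Q_eq ?_ ?_ (fun i => rfl)] at h1
  · exact h1
  · have := pa3_F_memLp hk 0
    simpa using this
  · intro i
    refine (memLp_two_iff_integrable_sq (by fun_prop)).2 ?_
    have := pa3_coord2 hk i i
    simpa only [sq] using this

/-- A-P4 -/
theorem thin_of_S {C : ℝ} (hC : 0 ≤ C) (hS : SIn n C) : Thin n (4 * C) := by
  intro ν R hν hpl hR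
  -- normal form of the assumptions
  obtain ⟨R', hR0, hR'⟩ : ∃ R' : ℝ, 0 ≤ R' ∧ BS R' ν :=
    ⟨|R|, abs_nonneg _, hR.mono fun x hx => hx.trans (le_abs_self R)⟩
  have hNm : Nm ν R' (2 * n * R' ^ 2) := ⟨hν, hR0, hR', le_rfl⟩
  set t : ℕ → ℝ := fun k => 1 / ((k : ℝ) + 1) with ht
  have ht0 : ∀ k, 0 < t k := fun k => by rw [ht]; positivity
  have htlim : Tendsto t atTop (𝓝 0) := tendsto_one_div_add_atTop_nhds_zero_nat
  have hU : ∀ k, ULC (t k) (tl ν (t k) 0) := by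
    intro k
    have h1 := tl_ULC hNm (ulc_zero_iff.2 hpl) (t k) 0
    rwa [zero_add] at h1
  have H : pa3L (fun k => tl ν (t k) 0) ν := by
    intro F hF _
    have hlim : ∀ G : Eu n → ℝ, Continuous G →
        Tendsto (fun k => ∫ x, Real.exp (-(t k / 2 * ‖x‖ ^ 2)) * G x ∂ν) atTop
          (𝓝 (∫ x, G x ∂ν)) := by
      intro G hG
      refine tendsto_integral_of_dominated_convergence (fun x => |G x|) ?_ ?_ ?_ ?_
      · intro k
        exact Continuous.aestronglyMeasurable ((by fun_prop : Continuous fun x : Eu n =>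
          Real.exp (-(t k / 2 * ‖x‖ ^ 2))).mul hG)
      · exact (BM.cont hR' hG).int.abs
      · intro k
        refine ae_of_all _ fun x => ?_
        rw [norm_mul, Real.norm_eq_abs, Real.norm_eq_abs, abs_of_pos (Real.exp_pos _)]
        have h1 : Real.exp (-(t k / 2 * ‖x‖ ^ 2)) ≤ 1 := by
          apply Real.exp_le_one_iff.2
          have := ht0 k
          have : 0 ≤ t k / 2 * ‖x‖ ^ 2 := by positivity
          linarith
        exact mul_le_of_le_one_left (abs_nonneg _) h1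
      · refine ae_of_all _ fun x => ?_
        have h2 : Tendsto (fun k => Real.exp (-(t k / 2 * ‖x‖ ^ 2)) * G x) atTop
            (𝓝 (Real.exp (-(0 / 2 * ‖x‖ ^ 2)) * G x)) :=
          ((Real.continuous_exp.tendsto _).comp
            (((htlim.div_const 2).mul_const (‖x‖ ^ 2)).neg)).mul_const _
        simpa using h2
    have h1 := hlim F hF
    have h2 := hlim (fun _ => 1) continuous_const
    have h3 := h1.div h2 (by simp)
    have e3 : (∫ x, F x ∂ν) / ∫ _x : Eu n, (1 : ℝ) ∂ν = ∫ x, F x ∂ν := by simp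
    rw [e3] at h3
    refine h3.congr fun k => ?_
    show (∫ x, Real.exp (-(t k / 2 * ‖x‖ ^ 2)) * F x ∂ν) /
      (∫ x, Real.exp (-(t k / 2 * ‖x‖ ^ 2)) * 1 ∂ν) = _
    unfold tl
    rw [integral_tilted]
    simp only [inner_zero_left, zero_sub, smul_eq_mul, mul_one]
    rw [← integral_div]
    refine integral_congr_ae (ae_of_all _ fun x => ?_)
    simp only []
    ring
  obtain ⟨l1, l2⟩ := H.lim
  have hfin := le_of_tendsto_of_tendsto' l1 (l2.const_mul (4 * C)) fun k =>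
    pa3_ulc hC hS (tl_prob hNm (t k) 0) (tl_BS hNm (t k) 0) (ht0 k) (hU k)
  have hm2 : ∀ {G : Eu n → ℝ}, Continuous G → MemLp G 2 ν := by
    intro G hG
    obtain ⟨h1, M, h2⟩ := BM.cont hR' hG
    exact MemLp.of_bound h1 M (h2.mono fun x hx => by rwa [Real.norm_eq_abs])
  rw [pa3Q_eq (hm2 (by fun_prop)) (fun i => hm2 (by fun_prop)) (fun i => rfl)]
  exact hfin

end Pool.Agent.Lib.MP_6d896a_gt.LG
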