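import Mathlib
import Pool.Agent.Lib.MP_6d896a_gt.LG.Defs
import Pool.Agent.Lib.MP_6d896a_gt.LG.Defs2
import Pool.Agent.Lib.MP_6d896a_gt.FP.EM
import Pool.Agent.Lib.MP_6d896a_gt.FP.ApCheeger
import Pool.Agent.Lib.MP_6d896a_gt.Sym15

/-!
Project LG, piece PG2: from variance bounds for Lipschitz functions under compactly supported
measures to the isoperimetric inequality.
-/

set_option autoImplicit false
set_option linter.all false

namespace Pool.Agent.Lib.MP_6d896a_gt.LG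

open MeasureTheory Filter Topology Set Matrix ProbabilityTheory
open scoped ENNReal NNReal Pointwise

namespace PG2

variable {n : ℕ}

/-- the normalised restriction to a ball -/
noncomputable def rs (μ : Measure (Eu n)) (r : ℝ) : Measure (Eu n) :=
  (μ (Metric.closedBall 0 r))⁻¹ • μ.restrict (Metric.closedBall 0 r)

lemma rs_prob (μ : Measure (Eu n)) [IsProbabilityMeasure μ] {r : ℝ}
    (h : μ (Metric.closedBall 0 r) ≠ 0) : IsProbabilityMeasure (rs μ r) := by
  constructor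
  unfold rs
  rw [Measure.smul_apply, Measure.restrict_apply MeasurableSet.univ, univ_inter, smul_eq_mul,
    ENNReal.inv_mul_cancel h (measure_ne_top _ _)]

lemma rs_plm {μ : Measure (Eu n)} [IsProbabilityMeasure μ] (hpl : FP.PLm μ) {r : ℝ}
    (h : μ (Metric.closedBall 0 r) ≠ 0) : FP.PLm (rs μ r) :=
  (hpl.restrict_ball r).smul _ (ENNReal.inv_ne_zero.mpr (measure_ne_top _ _))
    (ENNReal.inv_ne_top.mpr h)

lemma rs_int (μ : Measure (Eu n)) [IsProbabilityMeasure μ] (r : ℝ) (f : Eu n → ℝ) :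
    ∫ x, f x ∂(rs μ r) = (μ.real (Metric.closedBall 0 r))⁻¹ *
      ∫ x in Metric.closedBall 0 r, f x ∂μ := by
  unfold rs
  rw [integral_smul_measure, ENNReal.toReal_inv, smul_eq_mul]
  rfl

lemma rs_integrable {μ : Measure (Eu n)} [IsProbabilityMeasure μ] {r : ℝ}
    (h : μ (Metric.closedBall 0 r) ≠ 0) {f : Eu n → ℝ} (hf : Integrable f μ) :
    Integrable f (rs μ r) :=
  (hf.restrict).smul_measure (ENNReal.inv_ne_top.mpr h)

lemma ball_tendsto (μ : Measure (Eu n)) [IsProbabilityMeasure μ] {f : Eu n → ℝ}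
    (hf : Integrable f μ) :
    Tendsto (fun k : ℕ => ∫ x in Metric.closedBall 0 (k : ℝ), f x ∂μ) atTop
      (𝓝 (∫ x, f x ∂μ)) := by
  have hc : AECover μ atTop (fun k : ℕ => Metric.closedBall (0 : Eu n) (k : ℝ)) :=
    aecover_closedBall tendsto_natCast_atTop_atTop
  exact hc.integral_tendsto_of_countably_generated hf

lemma ball_real_tendsto (μ : Measure (Eu n)) [IsProbabilityMeasure μ] :
    Tendsto (fun k : ℕ => μ.real (Metric.closedBall 0 (k : ℝ))) atTop (𝓝 1) := by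
  have h := ball_tendsto μ (f := fun _ => (1 : ℝ)) (integrable_const 1)
  simp only [integral_const, measureReal_restrict_apply_univ, smul_eq_mul, mul_one,
    probReal_univ] at h
  exact h

lemma rs_tendsto (μ : Measure (Eu n)) [IsProbabilityMeasure μ] {f : Eu n → ℝ}
    (hf : Integrable f μ) :
    Tendsto (fun k : ℕ => ∫ x, f x ∂(rs μ (k : ℝ))) atTop (𝓝 (∫ x, f x ∂μ)) := by
  have h1 := (ball_real_tendsto μ).inv₀ one_ne_zero
  have h2 := h1.mul (ball_tendsto μ hf)
  simp only [inv_one, one_mul] at h2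
  refine h2.congr fun k => ?_
  rw [rs_int]

/-- variance of linear functions, all directions -/
lemma var_dir {μ : Measure (Eu n)} [IsProbabilityMeasure μ] {s : ℝ}
    (hs : ∀ θ : Eu n, ‖θ‖ = 1 → Var[fun x => inner ℝ x θ; μ] ≤ s) (w : Eu n) :
    Var[fun x => inner ℝ x w; μ] ≤ s * ‖w‖ ^ 2 := by
  have h := FP.var_functional hs (innerSL ℝ w)
  rw [innerSL_apply_norm] at h
  refine le_trans (le_of_eq ?_) h
  congr 1
  funext x
  rw [innerSL_apply_apply]
  exact real_inner_comm _ _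

/-- covariance of the restriction -/
lemma rs_cov {μ : Measure (Eu n)} [IsProbabilityMeasure μ] (hpl : FP.PLm μ) {s : ℝ}
    (hs : ∀ θ : Eu n, ‖θ‖ = 1 → Var[fun x => inner ℝ x θ; μ] ≤ s) {r : ℝ}
    (hr : 1 / 2 ≤ μ.real (Metric.closedBall 0 r)) (w : Eu n) :
    Cv (rs μ r) (fun x => inner ℝ x w) (fun x => inner ℝ x w) ≤ 2 * s * ‖w‖ ^ 2 := by
  have h0 : μ (Metric.closedBall 0 r) ≠ 0 := by
    intro h
    rw [measureReal_def, h] at hr
    norm_num at hr
  haveI := rs_prob μ h0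
  have hsq : Integrable (fun x : Eu n => ‖x‖ ^ 2) μ := hpl.sq_integrable
  have hc : Continuous (fun x : Eu n => (inner ℝ x w : ℝ)) := by fun_prop
  have hf2 : Integrable (fun x : Eu n => (inner ℝ x w : ℝ) ^ 2) μ := by
    refine (hsq.mul_const (‖w‖ ^ 2)).mono' (hc.pow 2).aestronglyMeasurable
      (ae_of_all _ fun x => ?_)
    rw [Real.norm_eq_abs, abs_of_nonneg (sq_nonneg _), ← mul_pow, ← sq_abs (inner ℝ x w : ℝ)]
    exact pow_le_pow_left₀ (abs_nonneg _) (abs_real_inner_le_norm x w) 2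
  have hm : MemLp (fun x : Eu n => (inner ℝ x w : ℝ)) 2 μ :=
    (memLp_two_iff_integrable_sq hc.aestronglyMeasurable).mpr hf2
  have hf1 : Integrable (fun x : Eu n => (inner ℝ x w : ℝ)) μ := hm.integrable (by norm_num)
  set c := ∫ x, (inner ℝ x w : ℝ) ∂μ with hcdef
  have hq : Integrable (fun x : Eu n => ((inner ℝ x w : ℝ) - c) ^ 2) μ := by
    have : (fun x : Eu n => ((inner ℝ x w : ℝ) - c) ^ 2) =
        fun x => (inner ℝ x w : ℝ) ^ 2 - 2 * c * inner ℝ x w + c ^ 2 := by funext x; ring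
    rw [this]
    exact (hf2.sub (hf1.const_mul (2 * c))).add (integrable_const _)
  -- variance of the whole
  have hv : ∫ x, ((inner ℝ x w : ℝ) - c) ^ 2 ∂μ ≤ s * ‖w‖ ^ 2 := by
    have h1 := var_dir hs w
    rwa [variance_eq_integral hc.measurable.aemeasurable] at h1
  have hrq : ∫ x, ((inner ℝ x w : ℝ) - c) ^ 2 ∂(rs μ r) ≤ 2 * (s * ‖w‖ ^ 2) := by
    rw [rs_int]
    have h2 : ∫ x in Metric.closedBall 0 r, ((inner ℝ x w : ℝ) - c) ^ 2 ∂μ ≤
        ∫ x, ((inner ℝ x w : ℝ) - c) ^ 2 ∂μ :=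
      setIntegral_le_integral hq (ae_of_all _ fun x => sq_nonneg _)
    have h3 : (μ.real (Metric.closedBall (0 : Eu n) r))⁻¹ ≤ 2 := by
      rw [inv_le_comm₀ (by linarith) (by norm_num)]
      linarith
    have h4 : 0 ≤ ∫ x in Metric.closedBall 0 r, ((inner ℝ x w : ℝ) - c) ^ 2 ∂μ :=
      integral_nonneg fun x => sq_nonneg _
    calc _ ≤ 2 * ∫ x in Metric.closedBall 0 r, ((inner ℝ x w : ℝ) - c) ^ 2 ∂μ :=
          mul_le_mul_of_nonneg_right h3 h4
      _ ≤ _ := by linarith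
  have i1 := rs_integrable h0 hf1
  have i2 := rs_integrable h0 hf2
  have e : ∫ x, ((inner ℝ x w : ℝ) - c) ^ 2 ∂(rs μ r) =
      ∫ x, (inner ℝ x w : ℝ) ^ 2 ∂(rs μ r) - 2 * c * ∫ x, (inner ℝ x w : ℝ) ∂(rs μ r) +
        c ^ 2 := by
    have : (fun x : Eu n => ((inner ℝ x w : ℝ) - c) ^ 2) =
        fun x => ((inner ℝ x w : ℝ) ^ 2 - 2 * c * inner ℝ x w) + c ^ 2 := by funext x; ring
    rw [this]
    have j1 := integral_add (μ := rs μ r) (i2.sub (i1.const_mul (2 * c)))
      (integrable_const (c ^ 2))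
    have j2 := integral_sub (μ := rs μ r) i2 (i1.const_mul (2 * c))
    simp only [Pi.sub_apply] at j1 j2
    rw [j1, j2, integral_const_mul]
    simp
  unfold Cv
  have e2 : ∫ x, (inner ℝ x w : ℝ) * inner ℝ x w ∂(rs μ r) =
      ∫ x, (inner ℝ x w : ℝ) ^ 2 ∂(rs μ r) := by
    congr 1; funext x; ring
  rw [e2]
  nlinarith [sq_nonneg (∫ x, (inner ℝ x w : ℝ) ∂(rs μ r) - c)]

/-- covariance of a scaled measure -/
lemma map_Cv (m : Measure (Eu n)) (a : ℝ) {f g : Eu n → ℝ} (hf : Continuous f)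
    (hg : Continuous g) :
    Cv (m.map (fun x => a • x)) f g = Cv m (fun x => f (a • x)) (fun x => g (a • x)) := by
  have hm : AEMeasurable (fun x : Eu n => a • x) m := by fun_prop
  unfold Cv
  have hfg : Continuous (fun x => f x * g x) := hf.mul hg
  rw [integral_map hm hfg.aestronglyMeasurable,
    integral_map hm hf.aestronglyMeasurable, integral_map hm hg.aestronglyMeasurable]

/-- the bound for the restriction -/
lemma rs_bound {Mn : ℝ}
    (H : ∀ (μ : Measure (Eu n)) (R : ℝ), IsProbabilityMeasure μ → BS R μ → FP.PLm μ →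
      (∀ w : Eu n, Cv μ (fun x => inner ℝ x w) (fun x => inner ℝ x w) ≤ 1 * ‖w‖ ^ 2) →
      ∀ g : Eu n → ℝ, ContDiff ℝ 1 g → (∀ x, |g x| ≤ 1) →
      ∀ l : ℝ, (∀ x, ‖fderiv ℝ g x‖ ≤ l) → Cv μ g g ≤ Mn * l ^ 2 + FP.eta0 / 2)
    {μ : Measure (Eu n)} [IsProbabilityMeasure μ] (hpl : FP.PLm μ) {s : ℝ} (hs0 : 0 < s)
    (hs : ∀ θ : Eu n, ‖θ‖ = 1 → Var[fun x => inner ℝ x θ; μ] ≤ s) {r : ℝ}
    (hr : 1 / 2 ≤ μ.real (Metric.closedBall 0 r)) {g : Eu n → ℝ} (hg : ContDiff ℝ 1 g)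
    (hg1 : ∀ x, |g x| ≤ 1) {l : ℝ} (hl : ∀ x, ‖fderiv ℝ g x‖ ≤ l) :
    Cv (rs μ r) g g ≤ Mn * (2 * s) * l ^ 2 + FP.eta0 / 2 := by
  have h0 : μ (Metric.closedBall 0 r) ≠ 0 := by
    intro h
    rw [measureReal_def, h] at hr
    norm_num at hr
  haveI := rs_prob μ h0
  set b := Real.sqrt (2 * s) with hb
  have hb0 : 0 < b := Real.sqrt_pos.mpr (by positivity)
  have hb2 : b ^ 2 = 2 * s := Real.sq_sqrt (by positivity)
  set a := b⁻¹ with ha
  have ha0 : 0 < a := inv_pos.mpr hb0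
  have hm : Measurable (fun x : Eu n => a • x) := by fun_prop
  haveI : IsProbabilityMeasure ((rs μ r).map (fun x => a • x)) :=
    Measure.isProbabilityMeasure_map hm.aemeasurable
  have h1 : BS (a * r) ((rs μ r).map (fun x => a • x)) := by
    unfold BS
    rw [ae_map_iff hm.aemeasurable (measurableSet_le (by fun_prop) measurable_const)]
    unfold rs
    apply Measure.ae_smul_measure
    rw [ae_restrict_iff' Metric.isClosed_closedBall.measurableSet]
    refine ae_of_all _ fun x hx => ?_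
    rw [Metric.mem_closedBall, dist_zero_right] at hx
    rw [norm_smul, Real.norm_eq_abs, abs_of_pos ha0]
    exact mul_le_mul_of_nonneg_left hx ha0.le
  have h2 : FP.PLm ((rs μ r).map (fun x => a • x)) := by
    have := (rs_plm hpl h0).map (a • (LinearMap.id : Eu n →ₗ[ℝ] Eu n)) (by
      show Measurable (fun x : Eu n => a • x)
      fun_prop)
    exact this
  have h3 : ∀ w : Eu n, Cv ((rs μ r).map (fun x => a • x)) (fun x => inner ℝ x w)
      (fun x => inner ℝ x w) ≤ 1 * ‖w‖ ^ 2 := by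
    intro w
    rw [map_Cv _ _ (by fun_prop) (by fun_prop)]
    have e1 : (fun x : Eu n => (inner ℝ (a • x) w : ℝ)) = fun x => inner ℝ x (a • w) := by
      funext x
      rw [inner_smul_left, inner_smul_right]
      simp
    rw [e1]
    refine (rs_cov hpl hs hr (a • w)).trans (le_of_eq ?_)
    rw [norm_smul, Real.norm_eq_abs, abs_of_pos ha0, mul_pow, ← hb2, ha]
    field_simp
  have h4 := H ((rs μ r).map (fun x => a • x)) (a * r) inferInstance h1 h2 h3
    (fun x => g (b • x)) (hg.comp (contDiff_const_smul b)) (fun x => hg1 _) (b * l) (by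
      intro x
      have e : fderiv ℝ (fun x => g (b • x)) x = b • fderiv ℝ g (b • x) := by
        have h5 : HasFDerivAt (fun x : Eu n => g (b • x))
            ((fderiv ℝ g (b • x)).comp (b • ContinuousLinearMap.id ℝ (Eu n))) x :=
          HasFDerivAt.comp x (hg.differentiable (by norm_num) (b • x)).hasFDerivAt
            ((hasFDerivAt_id x).const_smul b)
        rw [h5.fderiv]
        ext v
        simp
      rw [e, norm_smul, Real.norm_eq_abs, abs_of_pos hb0]
      exact mul_le_mul_of_nonneg_left (hl _) hb0.le)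
  have hgc : Continuous (fun x : Eu n => g (b • x)) := hg.continuous.comp (by fun_prop)
  rw [map_Cv _ _ hgc hgc] at h4
  have e2 : (fun x : Eu n => g (b • a • x)) = g := by
    funext x
    rw [smul_smul, ha, mul_inv_cancel₀ hb0.ne', one_smul]
  rw [e2, mul_pow, hb2] at h4
  linarith

/-- the bound for all log-concave measures -/
lemma lve_of {Mn : ℝ}
    (H : ∀ (μ : Measure (Eu n)) (R : ℝ), IsProbabilityMeasure μ → BS R μ → FP.PLm μ →
      (∀ w : Eu n, Cv μ (fun x => inner ℝ x w) (fun x => inner ℝ x w) ≤ 1 * ‖w‖ ^ 2) →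
      ∀ g : Eu n → ℝ, ContDiff ℝ 1 g → (∀ x, |g x| ≤ 1) →
      ∀ l : ℝ, (∀ x, ‖fderiv ℝ g x‖ ≤ l) → Cv μ g g ≤ Mn * l ^ 2 + FP.eta0 / 2)
    {μ : Measure (Eu n)} [IsProbabilityMeasure μ] (hpl : FP.PLm μ) {s : ℝ} (hs0 : 0 < s)
    (hs : ∀ θ : Eu n, ‖θ‖ = 1 → Var[fun x => inner ℝ x θ; μ] ≤ s) :
    FP.LVe μ (Mn * (2 * s)) FP.eta0 := by
  intro g hg hg1 _ l hl hgl
  have hbd : ∀ x, ‖fderiv ℝ g x‖ ≤ l := by
    intro x
    have : LipschitzWith (Real.toNNReal l) g := by
      apply LipschitzWith.of_dist_le_mul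
      intro a b
      rw [Real.dist_eq, dist_eq_norm, Real.coe_toNNReal l hl.le]
      exact hgl a b
    have h4 := norm_fderiv_le_of_lipschitz ℝ (x₀ := x) this
    rwa [Real.coe_toNNReal l hl.le] at h4
  have hmem : MemLp g 2 μ := MemLp.of_bound hg.continuous.aestronglyMeasurable 1
    (ae_of_all _ fun x => by rw [Real.norm_eq_abs]; exact hg1 x)
  have hgi : Integrable g μ := hmem.integrable (by norm_num)
  have hg2i : Integrable (fun x => g x * g x) μ := by
    refine (hmem.integrable_sq).congr (ae_of_all _ fun x => ?_)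
    simp only
    ring
  have hlim : Tendsto (fun k : ℕ => Cv (rs μ (k : ℝ)) g g) atTop (𝓝 (Cv μ g g)) := by
    unfold Cv
    exact (rs_tendsto μ hg2i).sub ((rs_tendsto μ hgi).mul (rs_tendsto μ hgi))
  have hev : ∀ᶠ k : ℕ in atTop, 1 / 2 ≤ μ.real (Metric.closedBall (0 : Eu n) (k : ℝ)) :=
    ((ball_real_tendsto μ).eventually (lt_mem_nhds (by norm_num : (1 / 2 : ℝ) < 1))).mono
      fun k hk => hk.le
  have h1 : Cv μ g g ≤ Mn * (2 * s) * l ^ 2 + FP.eta0 / 2 :=
    le_of_tendsto hlim (hev.mono fun k hk => rs_bound H hpl hs0 hs hk hg hg1 hbd)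
  have h2 : Var[g; μ] = Cv μ g g := by
    rw [variance_eq_sub hmem]
    unfold Cv
    have e : ∫ x, (g ^ 2) x ∂μ = ∫ x, g x * g x ∂μ := by
      congr 1
      funext x
      simp only [Pi.pow_apply]
      ring
    rw [e]
    ring
  rw [h2]
  have := FP.eta0_pos
  linarith

/-- Poincare inequality to isoperimetry -/
lemma iso_of_poinc {ν : Measure (Eu n)} [IsProbabilityMeasure ν] (hpl : FP.PLm ν) {CP : ℝ}
    (hCP0 : 0 < CP)
    (hP : ∀ u : Eu n → ℝ, ContDiff ℝ 1 u → (∃ B, ∀ x, ‖fderiv ℝ u x‖ ≤ B) →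
      Var[u; ν] ≤ CP * ∫ x, ‖fderiv ℝ u x‖ ^ 2 ∂ν) :
    Iso ν (Real.pi / 2 * Real.sqrt CP) := by
  apply iso_of_smooth _ (by positivity)
  intro g l l2 hl hl2 hg hg0 hg1 hgl hg2
  have hbd : ∀ x, ‖fderiv ℝ g x‖ ≤ l := by
    intro x
    have : LipschitzWith (Real.toNNReal l) g := by
      apply LipschitzWith.of_dist_le_mul
      intro a b
      rw [Real.dist_eq, dist_eq_norm, Real.coe_toNNReal l hl]
      exact hgl a b
    have h4 := norm_fderiv_le_of_lipschitz ℝ (x₀ := x) this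
    rwa [Real.coe_toNNReal l hl] at h4
  have hgabs : ∀ x, |g x| ≤ 1 := fun x => by rw [abs_of_nonneg (hg0 x)]; exact hg1 x
  have hfc : Continuous (fun x => ‖fderiv ℝ g x‖) := (hg.continuous_fderiv (by norm_num)).norm
  set σ : ℝ := 1 / (2 * CP) with hσ
  have hσ0 : 0 < σ := by positivity
  have hcL : Real.sqrt (1 / (2 * σ)) = Real.sqrt CP := by
    congr 1
    rw [hσ]
    field_simp
  have hmain := channel ν (IsProbabilityMeasure.ne_zero ν) (s := σ) (CP := CP)
    (cL := Real.pi / 2 * Real.sqrt CP) (th := 1) hσ0 one_pos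
    (by rw [hσ]; field_simp) (fun u hu hub hB => by
      obtain ⟨B, hB0, hB⟩ := hB
      have hubd : ∀ x, ‖fderiv ℝ u x‖ ≤ B := by
        intro x
        have : LipschitzWith (Real.toNNReal B) u := by
          apply LipschitzWith.of_dist_le_mul
          intro a b
          rw [Real.dist_eq, dist_eq_norm, Real.coe_toNNReal B hB0]
          exact hB a b
        have h4 := norm_fderiv_le_of_lipschitz ℝ (x₀ := x) this
        rwa [Real.coe_toNNReal B hB0] at h4
      have h1 := hP u hu ⟨B, hubd⟩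
      have hmem : MemLp u 2 ν := MemLp.of_bound hu.continuous.aestronglyMeasurable 1
        (ae_of_all _ fun x => by rw [Real.norm_eq_abs]; exact hub x)
      rw [variance_eq_sub hmem] at h1
      rw [probReal_univ, one_mul, one_mul]
      exact h1)
    hg.continuous.measurable hg0 hg1
    (D := fun x => ‖fderiv ℝ g x‖) hfc.measurable (C := l)
    (fun x => by rw [abs_of_nonneg (norm_nonneg _)]; exact hbd x) (by
      intro y
      have hp := FP.post_plm hpl hσ0 y hl hl2 hg hgabs hgl hg2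
      rw [hcL] at hp
      exact hp)
  refine hmain.trans (le_of_eq ?_)
  ring

end PG2

/-- PG2: from Lipschitz functions to sets -/
theorem final_of {M : ℕ → ℝ} (hM : ∀ n, 1 ≤ M n)
    (H : ∀ (n : ℕ) (μ : Measure (Eu n)) (R : ℝ), IsProbabilityMeasure μ → BS R μ →
      FP.PLm μ → CovL μ 1 → ∀ g : Eu n → ℝ, ContDiff ℝ 1 g → (∀ x, |g x| ≤ 1) →
      ∀ l : ℝ, (∀ x, ‖fderiv ℝ g x‖ ≤ l) → Cv μ g g ≤ M n * l ^ 2 + FP.eta0 / 2) :
    ∃ C : ℝ, 0 < C ∧ ∀ (n : ℕ) (μ : Measure (EuclideanSpace ℝ (Fin n))), IsProbabilityMeasure μ →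
      (∀ (A B : Set (EuclideanSpace ℝ (Fin n))) (t : ℝ), IsCompact A → IsCompact B → 0 < t →
        t < 1 → (μ A) ^ t * (μ B) ^ (1 - t) ≤ μ (t • A + (1 - t) • B)) →
      ∀ s : ℝ, 0 < s →
      (∀ θ : EuclideanSpace ℝ (Fin n), ‖θ‖ = 1 →
        ProbabilityTheory.variance (fun x => inner ℝ x θ) μ ≤ s) →
      ∀ S : Set (EuclideanSpace ℝ (Fin n)), MeasurableSet S →
        ENNReal.ofReal (C / Real.sqrt (M n * s)) * min (μ S) (μ Sᶜ) ≤
          Filter.liminf (fun ε : ℝ => (μ (Metric.thickening ε S) - μ S) / ENNReal.ofReal ε)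
            (nhdsWithin 0 (Set.Ioi 0)) := by
  have hc := FP.cEM_pos
  refine ⟨1 / (Real.pi * Real.sqrt (FP.cEM * 2)), by positivity, ?_⟩
  intro n μ hμ hlc s hs0 hs S hS
  have hpl : FP.PLm μ := plm_of_borell hlc
  have hMn : 0 < M n := lt_of_lt_of_le one_pos (hM n)
  have hlve := PG2.lve_of (H n) hpl hs0 hs
  have hP : ∀ u : Eu n → ℝ, ContDiff ℝ 1 u → (∃ B, ∀ x, ‖fderiv ℝ u x‖ ≤ B) →
      Var[u; μ] ≤ (FP.cEM * (M n * (2 * s))) * ∫ x, ‖fderiv ℝ u x‖ ^ 2 ∂μ :=
    fun u hu hb => FP.em_approx hpl (by positivity) hlve hu hb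
  have hCP : 0 < FP.cEM * (M n * (2 * s)) := by positivity
  have h := (PG2.iso_of_poinc hpl hCP hP).liminf (by positivity) hS
  have e : 1 / (2 * (Real.pi / 2 * Real.sqrt (FP.cEM * (M n * (2 * s))))) =
      1 / (Real.pi * Real.sqrt (FP.cEM * 2)) / Real.sqrt (M n * s) := by
    have h1 : FP.cEM * (M n * (2 * s)) = (FP.cEM * 2) * (M n * s) := by ring
    rw [h1, Real.sqrt_mul (by positivity) (M n * s)]
    have h2 : 0 < Real.sqrt (FP.cEM * 2) := Real.sqrt_pos.mpr (by positivity)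
    have h3 : 0 < Real.sqrt (M n * s) := Real.sqrt_pos.mpr (by positivity)
    have := Real.pi_pos
    field_simp
  rw [e] at h
  exact h

end Pool.Agent.Lib.MP_6d896a_gt.LG
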