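import Mathlib
import Pool.Agent.Lib.MP_6d896a_gt.LG.Basic

/-!
The random walk: reachable states, expectations, ultralimits and Dynkin's formula.
-/

set_option autoImplicit false

namespace Pool.Agent.Lib.MP_6d896a_gt.LG

open MeasureTheory Filter Topology Set Matrix
open scoped ENNReal NNReal

variable {n : ℕ} {μ ν : Measure (Eu n)} {R B T η : ℝ}

/-! ### averages -/

lemma av_add (F G : (Fin n → Bool) → ℝ) : av (fun e => F e + G e) = av F + av G := by
  unfold av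
  rw [Finset.sum_add_distrib, mul_add]

lemma av_cmul (c : ℝ) (F : (Fin n → Bool) → ℝ) : av (fun e => c * F e) = c * av F := by
  unfold av
  rw [← Finset.mul_sum]
  ring

lemma av_const (c : ℝ) : av (fun _ : Fin n → Bool => c) = c := by
  unfold av
  rw [Finset.sum_const, Finset.card_univ, Fintype.card_fun, Fintype.card_bool, Fintype.card_fin,
    nsmul_eq_mul]
  push_cast
  field_simp

lemma av_sub (F G : (Fin n → Bool) → ℝ) : av (fun e => F e - G e) = av F - av G := by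
  have h := av_add F (fun e => (-1) * G e)
  rw [av_cmul] at h
  have e1 : (fun e => F e - G e) = fun e => F e + (-1) * G e := by funext e; ring
  rw [e1, h]; ring

lemma av_sum {ι : Type*} (S : Finset ι) (F : ι → (Fin n → Bool) → ℝ) :
    av (fun e => ∑ i ∈ S, F i e) = ∑ i ∈ S, av (F i) := by
  unfold av
  rw [Finset.sum_comm, Finset.mul_sum]

lemma av_mono {F G : (Fin n → Bool) → ℝ} (h : ∀ e, F e ≤ G e) : av F ≤ av G := by
  unfold av
  exact mul_le_mul_of_nonneg_left (Finset.sum_le_sum fun e _ => h e) (by positivity)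

lemma av_abs_le {F : (Fin n → Bool) → ℝ} {c : ℝ} (h : ∀ e, |F e| ≤ c) : |av F| ≤ c := by
  rw [abs_le]
  constructor
  · rw [← av_const (n := n) (-c)]
    exact av_mono fun e => (abs_le.mp (h e)).1
  · rw [← av_const (n := n) c]
    exact av_mono fun e => (abs_le.mp (h e)).2

lemma sg_sq (b : Bool) : sg b * sg b = 1 := by cases b <;> simp [sg]

lemma sg_not (b : Bool) : sg (!b) = - sg b := by cases b <;> simp [sg]

lemma sg_abs (b : Bool) : |sg b| = 1 := by cases b <;> simp [sg]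

/-- flipping one sign -/
private def flp (k : Fin n) (e : Fin n → Bool) : Fin n → Bool := Function.update e k (!(e k))

private lemma flp_flp (k : Fin n) (e : Fin n → Bool) : flp k (flp k e) = e := by
  unfold flp
  funext i
  by_cases h : i = k
  · subst h; simp
  · simp [h]

private lemma av_flp (k : Fin n) (F : (Fin n → Bool) → ℝ) : av (fun e => F (flp k e)) = av F := by
  unfold av
  congr 1
  exact Finset.sum_bij' (fun e _ => flp k e) (fun e _ => flp k e) (by simp) (by simp)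
    (by simp [flp_flp]) (by simp [flp_flp]) (by simp)

lemma av_sg (k : Fin n) : av (fun e : Fin n → Bool => sg (e k)) = 0 := by
  have h := av_flp k (fun e : Fin n → Bool => sg (e k))
  have e1 : (fun e : Fin n → Bool => sg (flp k e k)) = fun e => (-1) * sg (e k) := by
    funext e
    simp [flp, sg_not]
  rw [e1, av_cmul] at h
  linarith

lemma av_sg_sg (k l : Fin n) :
    av (fun e : Fin n → Bool => sg (e k) * sg (e l)) = if k = l then 1 else 0 := by
  split_ifs with h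
  · subst h
    simp only [sg_sq]
    exact av_const 1
  · have h1 := av_flp k (fun e : Fin n → Bool => sg (e k) * sg (e l))
    have e1 : (fun e : Fin n → Bool => sg (flp k e k) * sg (flp k e l)) =
        fun e => (-1) * (sg (e k) * sg (e l)) := by
      funext e
      have h2 : l ≠ k := fun h' => h h'.symm
      simp [flp, sg_not, h2]
    rw [e1, av_cmul] at h1
    linarith

/-- first moments of linear functions of the signs -/
lemma av_lin (σ : Fin n → ℝ) : av (fun e => ∑ k, sg (e k) * σ k) = 0 := by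
  rw [av_sum]
  refine Finset.sum_eq_zero fun k _ => ?_
  have : (fun e : Fin n → Bool => sg (e k) * σ k) = fun e => σ k * sg (e k) := by
    funext e; ring
  rw [this, av_cmul, av_sg, mul_zero]

/-- second moments of linear functions of the signs -/
lemma av_lin_lin (σ ρ : Fin n → ℝ) :
    av (fun e => (∑ k, sg (e k) * σ k) * ∑ k, sg (e k) * ρ k) = ∑ k, σ k * ρ k := by
  have h1 : (fun e : Fin n → Bool => (∑ k, sg (e k) * σ k) * ∑ l, sg (e l) * ρ l) =
      fun e => ∑ k, ∑ l, (σ k * ρ l) * (sg (e k) * sg (e l)) := by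
    funext e
    rw [Finset.sum_mul_sum]
    refine Finset.sum_congr rfl fun k _ => Finset.sum_congr rfl fun l _ => ?_
    ring
  rw [h1, av_sum]
  refine Finset.sum_congr rfl fun k _ => ?_
  rw [av_sum]
  rw [Finset.sum_eq_single k]
  · rw [av_cmul, av_sg_sg, if_pos rfl, mul_one]
  · intro l _ hl
    rw [av_cmul, av_sg_sg, if_neg hl.symm, mul_zero]
  · simp

lemma lin_abs_le {σ : Fin n → ℝ} {C : ℝ} (h : ∀ k, |σ k| ≤ C) (e : Fin n → Bool) :
    |∑ k, sg (e k) * σ k| ≤ n * C := by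
  refine (Finset.abs_sum_le_sum_abs _ _).trans ?_
  calc ∑ k, |sg (e k) * σ k| ≤ ∑ _k : Fin n, C := by
        refine Finset.sum_le_sum fun k _ => ?_
        rw [abs_mul, sg_abs, one_mul]
        exact h k
    _ = n * C := by simp

/-! ### reachable states -/

lemma Rg.init (B : ℝ) : Rg B 0 ((0, 1) : St n) := by
  refine ⟨?_, fun i j => ?_⟩
  · simp only [transpose_one, mul_one, sub_self]
    exact PosSemidef.zero
  · rw [mul_zero, Real.exp_zero]
    show |(1 : Mat n) i j| ≤ 1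
    rw [one_apply]
    split_ifs <;> simp

lemma stp_snd (d t : ℝ) (s : St n) (e : Fin n → Bool) :
    (stp μ d t s e).2 = (1 + d ^ 2 • Am (tl μ t s.1)) * s.2 := by
  show s.2 + d ^ 2 • (Am (tl μ t s.1) * s.2) = _
  rw [add_mul, one_mul, smul_mul_assoc]

/-- `(1 + hA) Q (1 + hA) - 1` is positive if `Q - 1` and `A` are -/
lemma psd_step {A Q : Mat n} (hA : A.PosSemidef) (hQ : (Q - 1).PosSemidef) {h : ℝ} (hh : 0 ≤ h) :
    ((1 + h • A) * Q * (1 + h • A) - 1).PosSemidef := by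
  have hAT : (1 + h • A)ᴴ = 1 + h • A := by
    rw [conjTranspose_add, conjTranspose_one, conjTranspose_smul, hA.1.eq, star_trivial]
  have e1 : (1 + h • A) * Q * (1 + h • A) - 1 =
      (1 + h • A)ᴴ * (Q - 1) * (1 + h • A) + ((2 * h) • A + h ^ 2 • (Aᴴ * A)) := by
    rw [hAT, hA.1.eq]
    have e2 : (1 + h • A) * (1 + h • A) = 1 + ((2 * h) • A + h ^ 2 • (A * A)) := by
      rw [add_mul, one_mul, mul_add, mul_one, smul_mul_smul_comm, two_mul, add_smul, sq]
      abel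
    rw [mul_sub, sub_mul, mul_one, e2]
    abel
  rw [e1]
  refine (hQ.conjTranspose_mul_mul_same _).add ((hA.smul (by positivity)).add ?_)
  exact (posSemidef_conjTranspose_mul_self A).smul (by positivity)

lemma Rg.step (h : Nm μ R B) {d t : ℝ} {s : St n} (_ht : 0 ≤ t) (hs : Rg B t s)
    (e : Fin n → Bool) : Rg B (t + d ^ 2) (stp μ d t s e) := by
  have hp := tl_prob h t s.1
  have hR := tl_BS h t s.1
  have hA := Am_psd hR
  have hd : 0 ≤ d ^ 2 := sq_nonneg d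
  obtain ⟨h1, h2⟩ := hs
  refine ⟨?_, fun i j => ?_⟩
  · rw [stp_snd, transpose_mul, transpose_add, transpose_one, transpose_smul, Am_transpose]
    have := psd_step hA h1 hd
    convert this using 2
    simp only [mul_assoc]
  · show |(s.2 + d ^ 2 • (Am (tl μ t s.1) * s.2)) i j| ≤ _
    rw [Matrix.add_apply, Matrix.smul_apply, smul_eq_mul, Matrix.mul_apply]
    have hB0 : 0 ≤ 2 * n * R ^ 2 := by positivity
    have h3 : |∑ k, Am (tl μ t s.1) i k * s.2 k j| ≤ (2 * n * R ^ 2) * Real.exp (B * t) := by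
      refine (Finset.abs_sum_le_sum_abs _ _).trans ?_
      calc ∑ k, |Am (tl μ t s.1) i k * s.2 k j| ≤ ∑ _k : Fin n, 2 * R ^ 2 * Real.exp (B * t) := by
            refine Finset.sum_le_sum fun k _ => ?_
            rw [abs_mul]
            exact mul_le_mul (Am_abs_le h.R0 hR i k) (h2 k j) (abs_nonneg _) (by positivity)
        _ = _ := by simp; ring
    calc |s.2 i j + d ^ 2 * ∑ k, Am (tl μ t s.1) i k * s.2 k j|
        ≤ |s.2 i j| + |d ^ 2 * ∑ k, Am (tl μ t s.1) i k * s.2 k j| := abs_add_le _ _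
      _ ≤ Real.exp (B * t) + d ^ 2 * (B * Real.exp (B * t)) := by
          rw [abs_mul, abs_of_nonneg hd]
          refine add_le_add (h2 i j) (mul_le_mul_of_nonneg_left (h3.trans ?_) hd)
          exact mul_le_mul_of_nonneg_right h.B1 (Real.exp_pos _).le
      _ = (1 + B * d ^ 2) * Real.exp (B * t) := by ring
      _ ≤ Real.exp (B * d ^ 2) * Real.exp (B * t) := by
          refine mul_le_mul_of_nonneg_right ?_ (Real.exp_pos _).le
          have := Real.add_one_le_exp (B * d ^ 2)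
          linarith
      _ = Real.exp (B * (t + d ^ 2)) := by rw [← Real.exp_add]; congr 1; ring

/-! ### expectations after finitely many steps -/

lemma Ev_add (d : ℝ) (k : ℕ) (F G : St n → ℝ) :
    Ev μ d k (fun s => F s + G s) = Ev μ d k F + Ev μ d k G := by
  induction k generalizing F G with
  | zero => rfl
  | succ k ih =>
    unfold Ev
    simp only [av_add]
    exact ih _ _

lemma Ev_cmul (d : ℝ) (k : ℕ) (c : ℝ) (F : St n → ℝ) :
    Ev μ d k (fun s => c * F s) = c * Ev μ d k F := by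
  induction k generalizing F with
  | zero => rfl
  | succ k ih =>
    unfold Ev
    simp only [av_cmul]
    exact ih _

lemma Ev_const (d : ℝ) (k : ℕ) (c : ℝ) : Ev μ d k (fun _ : St n => c) = c := by
  induction k with
  | zero => rfl
  | succ k ih =>
    unfold Ev
    simp only [av_const]
    exact ih

lemma Ev_sub (d : ℝ) (k : ℕ) (F G : St n → ℝ) :
    Ev μ d k (fun s => F s - G s) = Ev μ d k F - Ev μ d k G := by
  have h := Ev_add (μ := μ) d k F (fun s => (-1) * G s)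
  rw [Ev_cmul] at h
  have e1 : (fun s => F s - G s) = fun s => F s + (-1) * G s := by funext e; ring
  rw [e1, h]; ring

lemma Ev_mono (h : Nm μ R B) (d : ℝ) (k : ℕ) {F G : St n → ℝ}
    (hle : ∀ s, Rg B (k * d ^ 2) s → F s ≤ G s) : Ev μ d k F ≤ Ev μ d k G := by
  induction k generalizing F G with
  | zero =>
    have := hle (0, 1)
    simp only [Nat.cast_zero, zero_mul] at this
    exact this (Rg.init B)
  | succ k ih =>
    unfold Ev
    refine ih fun s hs => av_mono fun e => hle _ ?_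
    have h1 := Rg.step h (d := d) (by positivity) hs e
    have h2 : ((k + 1 : ℕ) : ℝ) * d ^ 2 = k * d ^ 2 + d ^ 2 := by push_cast; ring
    rw [h2]
    exact h1

lemma Ev_abs_le (h : Nm μ R B) (d : ℝ) (k : ℕ) {F : St n → ℝ} {C : ℝ}
    (hle : ∀ s, Rg B (k * d ^ 2) s → |F s| ≤ C) : |Ev μ d k F| ≤ C := by
  rw [abs_le]
  constructor
  · rw [← Ev_const (μ := μ) d k (-C)]
    exact Ev_mono h d k fun s hs => (abs_le.mp (hle s hs)).1
  · rw [← Ev_const (μ := μ) d k C]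
    exact Ev_mono h d k fun s hs => (abs_le.mp (hle s hs)).2

/-! ### ultralimits -/

lemma ul_tendsto {u : ℕ → ℝ} (hu : ∃ C, ∀ N, |u N| ≤ C) :
    Tendsto u (hyperfilter ℕ : Filter ℕ) (𝓝 (ul u)) := by
  obtain ⟨C, hC⟩ := hu
  have hK : IsCompact (Icc (-C) C) := isCompact_Icc
  obtain ⟨l, _, hl⟩ := hK.ultrafilter_le_nhds ((hyperfilter ℕ).map u) (by
    rw [le_principal_iff]
    exact Ultrafilter.mem_map.mpr (Filter.univ_mem' fun N => abs_le.mp (hC N)))
  exact tendsto_nhds_limUnder ⟨l, hl⟩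

lemma ul_eq {u : ℕ → ℝ} {l : ℝ} (hu : Tendsto u (hyperfilter ℕ : Filter ℕ) (𝓝 l)) : ul u = l :=
  hu.limUnder_eq

lemma ul_eq_atTop {u : ℕ → ℝ} {l : ℝ} (hu : Tendsto u atTop (𝓝 l)) : ul u = l :=
  ul_eq (hu.mono_left Nat.hyperfilter_le_atTop)

/-! ### the time step -/

lemma dl_sq (hT : 0 ≤ T) (N : ℕ) : dl T N ^ 2 = T / (N + 1) := by
  unfold dl
  exact Real.sq_sqrt (by positivity)

lemma dl_nonneg (T : ℝ) (N : ℕ) : 0 ≤ dl T N := Real.sqrt_nonneg _

lemma dl_sq_mul (hT : 0 ≤ T) (N : ℕ) : ((N + 1 : ℕ) : ℝ) * dl T N ^ 2 = T := by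
  rw [dl_sq hT]
  push_cast
  field_simp

lemma dl_tendsto (T : ℝ) : Tendsto (dl T) atTop (𝓝 0) := by
  unfold dl
  have h1 : Tendsto (fun N : ℕ => T / ((N : ℝ) + 1)) atTop (𝓝 0) := by
    have := tendsto_one_div_add_atTop_nhds_zero_nat (𝕜 := ℝ)
    have h2 := this.const_mul T
    simpa [div_eq_mul_inv] using h2
  have := (Real.continuous_sqrt.tendsto 0).comp h1
  rwa [Real.sqrt_zero] at this

lemma dl_time (hT : 0 ≤ T) {N k : ℕ} (hk : k < N + 1) :
    0 ≤ (k : ℝ) * dl T N ^ 2 ∧ (k : ℝ) * dl T N ^ 2 + dl T N ^ 2 ≤ T := by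
  refine ⟨by positivity, ?_⟩
  have h1 : ((k : ℝ) + 1) * dl T N ^ 2 ≤ ((N + 1 : ℕ) : ℝ) * dl T N ^ 2 := by
    refine mul_le_mul_of_nonneg_right ?_ (sq_nonneg _)
    exact_mod_cast hk
  rw [dl_sq_mul hT] at h1
  linarith

lemma EE_tendsto (h : Nm μ R B) (hT : 0 < T) {F : St n → ℝ} (hF : Bt B T F) :
    Tendsto (fun N => Ev μ (dl T N) (N + 1) F) (hyperfilter ℕ : Filter ℕ) (𝓝 (EE μ T F)) := by
  obtain ⟨C, hC⟩ := hF
  refine ul_tendsto ⟨C, fun N => Ev_abs_le h _ _ fun s hs => hC s ?_⟩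
  rwa [dl_sq_mul hT.le] at hs

lemma JJ_bound (h : Nm μ R B) (hT : 0 < T) {G : ℝ → St n → ℝ} {C : ℝ}
    (hC : ∀ t s, 0 ≤ t → t ≤ T → Rg B t s → |G t s| ≤ C) (N : ℕ) :
    |dl T N ^ 2 * ∑ k ∈ Finset.range (N + 1), Ev μ (dl T N) k (G (k * dl T N ^ 2))| ≤ T * C := by
  rw [abs_mul, abs_of_nonneg (sq_nonneg _)]
  have h1 : |∑ k ∈ Finset.range (N + 1), Ev μ (dl T N) k (G (k * dl T N ^ 2))| ≤
      ((N + 1 : ℕ) : ℝ) * C := by
    refine (Finset.abs_sum_le_sum_abs _ _).trans ?_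
    calc _ ≤ ∑ _k ∈ Finset.range (N + 1), C := by
          refine Finset.sum_le_sum fun k hk => Ev_abs_le h _ _ fun s hs => ?_
          have h2 := dl_time hT.le (Finset.mem_range.mp hk)
          exact hC _ s h2.1 (by linarith [sq_nonneg (dl T N)]) hs
      _ = _ := by simp
  calc dl T N ^ 2 * |∑ k ∈ Finset.range (N + 1), Ev μ (dl T N) k (G (k * dl T N ^ 2))|
      ≤ dl T N ^ 2 * (((N + 1 : ℕ) : ℝ) * C) := mul_le_mul_of_nonneg_left h1 (sq_nonneg _)
    _ = (((N + 1 : ℕ) : ℝ) * dl T N ^ 2) * C := by ring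
    _ = T * C := by rw [dl_sq_mul hT.le]

lemma JJ_tendsto (h : Nm μ R B) (hT : 0 < T) {G : ℝ → St n → ℝ} (hG : Bd B T G) :
    Tendsto (fun N => dl T N ^ 2 * ∑ k ∈ Finset.range (N + 1),
      Ev μ (dl T N) k (G (k * dl T N ^ 2))) (hyperfilter ℕ : Filter ℕ) (𝓝 (JJ μ T G)) := by
  obtain ⟨C, hC⟩ := hG
  exact ul_tendsto ⟨T * C, fun N => JJ_bound h hT hC N⟩

lemma EE_mono (h : Nm μ R B) (hT : 0 < T) {F G : St n → ℝ} (hF : Bt B T F) (hG : Bt B T G)
    (hle : ∀ s, Rg B T s → F s ≤ G s) : EE μ T F ≤ EE μ T G := by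
  refine le_of_tendsto_of_tendsto' (EE_tendsto h hT hF) (EE_tendsto h hT hG) fun N => ?_
  refine Ev_mono h _ _ fun s hs => hle s ?_
  rwa [dl_sq_mul hT.le] at hs

lemma Bt.add {F G : St n → ℝ} (hF : Bt B T F) (hG : Bt B T G) :
    Bt B T (fun s => F s + G s) := by
  obtain ⟨C, hC⟩ := hF
  obtain ⟨D, hD⟩ := hG
  exact ⟨C + D, fun s hs => (abs_add_le _ _).trans (add_le_add (hC s hs) (hD s hs))⟩

lemma Bt.cmul {F : St n → ℝ} (hF : Bt B T F) (c : ℝ) : Bt B T (fun s => c * F s) := by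
  obtain ⟨C, hC⟩ := hF
  refine ⟨|c| * C, fun s hs => ?_⟩
  rw [abs_mul]
  exact mul_le_mul_of_nonneg_left (hC s hs) (abs_nonneg _)

lemma Bt.const (c : ℝ) : Bt B T (fun _ : St n => c) := ⟨|c|, fun _ _ => le_rfl⟩

lemma Bd.add {F G : ℝ → St n → ℝ} (hF : Bd B T F) (hG : Bd B T G) :
    Bd B T (fun t s => F t s + G t s) := by
  obtain ⟨C, hC⟩ := hF
  obtain ⟨D, hD⟩ := hG
  exact ⟨C + D, fun t s h0 h1 hs =>
    (abs_add_le _ _).trans (add_le_add (hC t s h0 h1 hs) (hD t s h0 h1 hs))⟩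

lemma Bd.cmul {F : ℝ → St n → ℝ} (hF : Bd B T F) (c : ℝ) : Bd B T (fun t s => c * F t s) := by
  obtain ⟨C, hC⟩ := hF
  refine ⟨|c| * C, fun t s h0 h1 hs => ?_⟩
  rw [abs_mul]
  exact mul_le_mul_of_nonneg_left (hC t s h0 h1 hs) (abs_nonneg _)

lemma Bd.mul {F G : ℝ → St n → ℝ} (hF : Bd B T F) (hG : Bd B T G) :
    Bd B T (fun t s => F t s * G t s) := by
  obtain ⟨C, hC⟩ := hF
  obtain ⟨D, hD⟩ := hG
  refine ⟨|C| * |D|, fun t s h0 h1 hs => ?_⟩
  rw [abs_mul]
  exact mul_le_mul ((hC t s h0 h1 hs).trans (le_abs_self _))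
    ((hD t s h0 h1 hs).trans (le_abs_self _)) (abs_nonneg _) (abs_nonneg _)

lemma Bd.const (c : ℝ) : Bd B T (fun _ (_ : St n) => c) := ⟨|c|, fun _ _ _ _ _ => le_rfl⟩

lemma Bd.neg {F : ℝ → St n → ℝ} (hF : Bd B T F) : Bd B T (fun t s => - F t s) := by
  obtain ⟨C, hC⟩ := hF
  exact ⟨C, fun t s h0 h1 hs => by rw [abs_neg]; exact hC t s h0 h1 hs⟩

lemma Bd.sub {F G : ℝ → St n → ℝ} (hF : Bd B T F) (hG : Bd B T G) :
    Bd B T (fun t s => F t s - G t s) := by
  simpa [sub_eq_add_neg] using hF.add hG.neg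

lemma Bd.sum {ι : Type*} (S : Finset ι) {F : ι → ℝ → St n → ℝ} (hF : ∀ i ∈ S, Bd B T (F i)) :
    Bd B T (fun t s => ∑ i ∈ S, F i t s) := by
  classical
  induction S using Finset.induction_on with
  | empty => simpa using Bd.const (B := B) (T := T) (n := n) 0
  | insert a S ha ih =>
    simp only [Finset.sum_insert ha]
    exact (hF a (Finset.mem_insert_self _ _)).add
      (ih fun i hi => hF i (Finset.mem_insert_of_mem hi))

lemma Bd.of_le {F G : ℝ → St n → ℝ} (hG : Bd B T G)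
    (hle : ∀ t s, 0 ≤ t → t ≤ T → Rg B t s → |F t s| ≤ G t s) : Bd B T F := by
  obtain ⟨C, hC⟩ := hG
  exact ⟨C, fun t s h0 h1 hs => (hle t s h0 h1 hs).trans
    ((le_abs_self _).trans (hC t s h0 h1 hs))⟩

/-- restriction to the final time -/
lemma Bd.bt (hT : 0 ≤ T) {F : ℝ → St n → ℝ} (hF : Bd B T F) : Bt B T (F T) := by
  obtain ⟨C, hC⟩ := hF
  exact ⟨C, fun s hs => hC T s hT le_rfl hs⟩

lemma EE_add (h : Nm μ R B) (hT : 0 < T) {F G : St n → ℝ} (hF : Bt B T F) (hG : Bt B T G) :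
    EE μ T (fun s => F s + G s) = EE μ T F + EE μ T G := by
  refine ul_eq ?_
  simp only [Ev_add]
  exact (EE_tendsto h hT hF).add (EE_tendsto h hT hG)

lemma EE_cmul (h : Nm μ R B) (hT : 0 < T) {F : St n → ℝ} (hF : Bt B T F) (c : ℝ) :
    EE μ T (fun s => c * F s) = c * EE μ T F := by
  refine ul_eq ?_
  simp only [Ev_cmul]
  exact (EE_tendsto h hT hF).const_mul c

lemma EE_const (_h : Nm μ R B) (_hT : 0 < T) (c : ℝ) : EE μ T (fun _ => c) = c := by
  refine ul_eq ?_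
  simp only [Ev_const]
  exact tendsto_const_nhds

lemma JJ_mono (h : Nm μ R B) (hT : 0 < T) {F G : ℝ → St n → ℝ} (hF : Bd B T F) (hG : Bd B T G)
    (hle : ∀ t s, 0 ≤ t → t ≤ T → Rg B t s → F t s ≤ G t s) : JJ μ T F ≤ JJ μ T G := by
  refine le_of_tendsto_of_tendsto' (JJ_tendsto h hT hF) (JJ_tendsto h hT hG) fun N => ?_
  refine mul_le_mul_of_nonneg_left (Finset.sum_le_sum fun k hk => ?_) (sq_nonneg _)
  refine Ev_mono h _ _ fun s hs => ?_
  have h2 := dl_time hT.le (Finset.mem_range.mp hk)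
  exact hle _ s h2.1 (by linarith [sq_nonneg (dl T N)]) hs

lemma JJ_add (h : Nm μ R B) (hT : 0 < T) {F G : ℝ → St n → ℝ} (hF : Bd B T F) (hG : Bd B T G) :
    JJ μ T (fun t s => F t s + G t s) = JJ μ T F + JJ μ T G := by
  refine ul_eq ?_
  simp only [Ev_add, Finset.sum_add_distrib, mul_add]
  exact (JJ_tendsto h hT hF).add (JJ_tendsto h hT hG)

lemma JJ_cmul (h : Nm μ R B) (hT : 0 < T) {F : ℝ → St n → ℝ} (hF : Bd B T F) (c : ℝ) :
    JJ μ T (fun t s => c * F t s) = c * JJ μ T F := by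
  refine ul_eq ?_
  simp only [Ev_cmul, ← Finset.mul_sum]
  have := (JJ_tendsto h hT hF).const_mul c
  refine this.congr fun N => ?_
  ring

lemma JJ_const (_h : Nm μ R B) (hT : 0 < T) (c : ℝ) :
    JJ μ T (fun _ (_ : St n) => c) = T * c := by
  refine ul_eq ?_
  simp only [Ev_const, Finset.sum_const, Finset.card_range, nsmul_eq_mul]
  have : (fun N : ℕ => dl T N ^ 2 * (((N + 1 : ℕ) : ℝ) * c)) = fun _ => T * c := by
    funext N
    calc dl T N ^ 2 * (((N + 1 : ℕ) : ℝ) * c) = (((N + 1 : ℕ) : ℝ) * dl T N ^ 2) * c := by ring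
      _ = T * c := by rw [dl_sq_mul hT.le N]
  rw [this]
  exact tendsto_const_nhds

/-! ### Dynkin's formula -/

lemma dynkin_fin (h : Nm μ R B) {F b : ℝ → St n → ℝ} {C d : ℝ} (hd : 0 ≤ d) (hd1 : d ≤ 1)
    (hC : ∀ d t s, 0 ≤ d → d ≤ 1 → 0 ≤ t → t + d ^ 2 ≤ T → Rg B t s →
      |av (fun e => F (t + d ^ 2) (stp μ d t s e)) - F t s - d ^ 2 * b t s| ≤ C * d ^ 3)
    (k : ℕ) (hk : (k : ℝ) * d ^ 2 ≤ T) :
    |Ev μ d k (F (k * d ^ 2)) - F 0 (0, 1) - d ^ 2 * ∑ j ∈ Finset.range k,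
      Ev μ d j (b (j * d ^ 2))| ≤ k * (C * d ^ 3) := by
  induction k with
  | zero => simp [Ev]
  | succ k ih =>
    have hk' : (k : ℝ) * d ^ 2 ≤ T := by
      push_cast at hk
      nlinarith [sq_nonneg d]
    have h1 := ih hk'
    have h2 : |Ev μ d (k + 1) (F ((k + 1 : ℕ) * d ^ 2)) - Ev μ d k (F (k * d ^ 2)) -
        d ^ 2 * Ev μ d k (b (k * d ^ 2))| ≤ C * d ^ 3 := by
      have e1 : Ev μ d (k + 1) (F ((k + 1 : ℕ) * d ^ 2)) =
          Ev μ d k (fun s => av (fun e => F ((k + 1 : ℕ) * d ^ 2) (stp μ d (k * d ^ 2) s e))) := rfl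
      rw [e1, ← Ev_sub, ← Ev_cmul, ← Ev_sub]
      refine Ev_abs_le h d k fun s hs => ?_
      have e2 : ((k + 1 : ℕ) : ℝ) * d ^ 2 = k * d ^ 2 + d ^ 2 := by push_cast; ring
      rw [e2]
      exact hC d _ s hd hd1 (by positivity) (by rw [← e2]; exact hk) hs
    rw [Finset.sum_range_succ]
    have e3 : Ev μ d (k + 1) (F ((k + 1 : ℕ) * d ^ 2)) - F 0 (0, 1) -
        d ^ 2 * (∑ j ∈ Finset.range k, Ev μ d j (b (j * d ^ 2)) + Ev μ d k (b (k * d ^ 2))) =
        (Ev μ d (k + 1) (F ((k + 1 : ℕ) * d ^ 2)) - Ev μ d k (F (k * d ^ 2)) -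
          d ^ 2 * Ev μ d k (b (k * d ^ 2))) +
        (Ev μ d k (F (k * d ^ 2)) - F 0 (0, 1) -
          d ^ 2 * ∑ j ∈ Finset.range k, Ev μ d j (b (j * d ^ 2))) := by ring
    rw [e3]
    refine (abs_add_le _ _).trans ?_
    have e4 : ((k + 1 : ℕ) : ℝ) * (C * d ^ 3) = C * d ^ 3 + k * (C * d ^ 3) := by push_cast; ring
    rw [e4]
    exact add_le_add h2 h1

theorem dynkin (h : Nm μ R B) (hT : 0 < T) {F b : ℝ → St n → ℝ} {σ : ℝ → St n → Fin n → ℝ}
    (hI : It μ B T F b σ) : EE μ T (F T) = F 0 (0, 1) + JJ μ T b := by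
  obtain ⟨C, hC0, hC1, hC2⟩ := hI.ex
  have hbF : Bt B T (F T) := ⟨C, fun s hs => (hC1 T s hT.le le_rfl hs).1⟩
  have hbb : Bd B T b := ⟨C, fun t s h0 h1 hs => (hC1 t s h0 h1 hs).2.1⟩
  have l1 := EE_tendsto h hT hbF
  have l2 := JJ_tendsto h hT hbb
  have l3 : Tendsto (fun N => Ev μ (dl T N) (N + 1) (F T) - F 0 (0, 1) -
      dl T N ^ 2 * ∑ k ∈ Finset.range (N + 1), Ev μ (dl T N) k (b (k * dl T N ^ 2)))
      (hyperfilter ℕ : Filter ℕ) (𝓝 (EE μ T (F T) - F 0 (0, 1) - JJ μ T b)) :=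
    (l1.sub tendsto_const_nhds).sub l2
  have l4 : Tendsto (fun N => Ev μ (dl T N) (N + 1) (F T) - F 0 (0, 1) -
      dl T N ^ 2 * ∑ k ∈ Finset.range (N + 1), Ev μ (dl T N) k (b (k * dl T N ^ 2)))
      (hyperfilter ℕ : Filter ℕ) (𝓝 0) := by
    refine Tendsto.mono_left ?_ Nat.hyperfilter_le_atTop
    have l5 : Tendsto (fun N => T * C * dl T N) atTop (𝓝 0) := by
      have := (dl_tendsto T).const_mul (T * C)
      simpa using this
    refine squeeze_zero_norm' ?_ l5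
    filter_upwards [(dl_tendsto T).eventually (gt_mem_nhds (by norm_num : (0 : ℝ) < 1))] with N hN
    rw [Real.norm_eq_abs]
    have h1 := dynkin_fin h (d := dl T N) (dl_nonneg T N) hN.le
      (fun d t s a1 a2 a3 a4 a5 => (hC2 d t s a1 a2 a3 a4 a5).2) (N + 1)
      (by rw [dl_sq_mul hT.le])
    rw [dl_sq_mul hT.le] at h1
    refine h1.trans (le_of_eq ?_)
    have : ((N + 1 : ℕ) : ℝ) * (C * dl T N ^ 3) = (((N + 1 : ℕ) : ℝ) * dl T N ^ 2) * C * dl T N := by
      ring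
    rw [this, dl_sq_mul hT.le]
  have := tendsto_nhds_unique l3 l4
  linarith

end Pool.Agent.Lib.MP_6d896a_gt.LG
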