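import Mathlib
import Pool.Agent.Lib.MP_6d896a_gt.LG.Defs

/-!
Bounds of the covariance matrix and of the third cumulants of a measure which satisfies the
Poincaré inequality with constant `1 / τ`.
-/

set_option autoImplicit false
set_option linter.unusedSectionVars false

namespace Pool.Agent.Lib.MP_6d896a_gt.LG

open MeasureTheory Filter Topology Set Matrix
open scoped ENNReal NNReal

variable {n : ℕ} {ν : Measure (Eu n)} {R τ : ℝ}

private lemma pb1_int (hν : IsProbabilityMeasure ν) (hR : BS R ν) {f : Eu n → ℝ}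
    (hf : Continuous f) : Integrable f ν := by
  obtain ⟨C, hC⟩ :=
    (isCompact_closedBall (0 : Eu n) R).exists_bound_of_continuousOn hf.continuousOn
  refine Integrable.of_bound hf.aestronglyMeasurable C ?_
  filter_upwards [hR] with x hx
  exact hC x (by simpa using hx)

/-- centred coordinates -/
private noncomputable def yy (ν : Measure (Eu n)) (i : Fin n) (x : Eu n) : ℝ := x i - mn ν i

private lemma yy_cont (i : Fin n) : Continuous (yy ν i) := by
  unfold yy; fun_prop

private lemma yy_mean (hν : IsProbabilityMeasure ν) (hR : BS R ν) (i : Fin n) :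
    ∫ x, yy ν i x ∂ν = 0 := by
  unfold yy
  rw [integral_sub (pb1_int hν hR (by fun_prop)) (integrable_const _), integral_const]
  simp [mn]

private lemma Am_yy (hν : IsProbabilityMeasure ν) (hR : BS R ν) (i j : Fin n) :
    Am ν i j = ∫ x, yy ν i x * yy ν j x ∂ν := by
  have hi : Integrable (fun x : Eu n => x i) ν := pb1_int hν hR (by fun_prop)
  have hj : Integrable (fun x : Eu n => x j) ν := pb1_int hν hR (by fun_prop)
  have hij : Integrable (fun x : Eu n => x i * x j) ν := pb1_int hν hR (by fun_prop)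
  have e : (fun x : Eu n => yy ν i x * yy ν j x) = fun x =>
      x i * x j - mn ν j * x i - mn ν i * x j + mn ν i * mn ν j := by
    funext x; unfold yy; ring
  have e3 : Am ν i j = ∫ x : Eu n, x i * x j ∂ν - mn ν i * mn ν j := rfl
  rw [e, e3, integral_add (f := fun x : Eu n => x i * x j - mn ν j * x i - mn ν i * x j)
    ((hij.sub (hi.const_mul _)).sub (hj.const_mul _)) (integrable_const _),
    integral_sub (f := fun x : Eu n => x i * x j - mn ν j * x i)
    (hij.sub (hi.const_mul _)) (hj.const_mul _), integral_sub hij (hi.const_mul _),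
    integral_const_mul, integral_const_mul, integral_const]
  have e1 : ∫ x : Eu n, x i ∂ν = mn ν i := rfl
  have e2 : ∫ x : Eu n, x j ∂ν = mn ν j := rfl
  rw [e1, e2]
  simp
  ring

private lemma Hm_yy (i j k : Fin n) :
    Hm ν k i j = ∫ x, yy ν k x * (yy ν i x * yy ν j x) ∂ν := rfl

/-- linear functions -/
private noncomputable def ll (ν : Measure (Eu n)) (a : Fin n → ℝ) (x : Eu n) : ℝ :=
  ∑ i, a i * yy ν i x

private lemma ll_cont (a : Fin n → ℝ) : Continuous (ll ν a) := by
  unfold ll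
  exact continuous_finsetSum _ fun i _ => (yy_cont i).const_mul _

private lemma ll_mean (hν : IsProbabilityMeasure ν) (hR : BS R ν) (a : Fin n → ℝ) :
    ∫ x, ll ν a x ∂ν = 0 := by
  unfold ll
  rw [integral_finsetSum _ fun i _ => (pb1_int hν hR ((yy_cont i).const_mul _))]
  refine Finset.sum_eq_zero fun i _ => ?_
  rw [integral_const_mul, yy_mean hν hR, mul_zero]

private lemma ll_mul (hν : IsProbabilityMeasure ν) (hR : BS R ν) (a b : Fin n → ℝ) :
    ∫ x, ll ν a x * ll ν b x ∂ν = ∑ i, ∑ j, a i * b j * Am ν i j := by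
  have e : (fun x => ll ν a x * ll ν b x) = fun x =>
      ∑ i, ∑ j, a i * b j * (yy ν i x * yy ν j x) := by
    funext x
    unfold ll
    rw [Finset.sum_mul_sum]
    refine Finset.sum_congr rfl fun i _ => Finset.sum_congr rfl fun j _ => ?_
    ring
  have hc : ∀ i j : Fin n, Continuous fun x => a i * b j * (yy ν i x * yy ν j x) := fun i j =>
    ((yy_cont i).mul (yy_cont j)).const_mul _
  rw [e, integral_finsetSum _ fun i _ =>
    pb1_int hν hR (continuous_finsetSum _ fun j _ => hc i j)]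
  refine Finset.sum_congr rfl fun i _ => ?_
  rw [integral_finsetSum _ fun j _ => pb1_int hν hR (hc i j)]
  refine Finset.sum_congr rfl fun j _ => ?_
  rw [integral_const_mul, Am_yy hν hR]

/-- quadratic functions -/
private noncomputable def qq (ν : Measure (Eu n)) (t : Fin n → Fin n → ℝ) (x : Eu n) : ℝ :=
  ∑ i, yy ν i x * ll ν (t i) x

private lemma qq_cont (t : Fin n → Fin n → ℝ) : Continuous (qq ν t) := by
  unfold qq
  exact continuous_finsetSum _ fun i _ => (yy_cont i).mul (ll_cont _)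

private lemma qq_ll (hν : IsProbabilityMeasure ν) (hR : BS R ν) (t : Fin n → Fin n → ℝ)
    (D : Fin n → ℝ) :
    ∫ x, qq ν t x * ll ν D x ∂ν = ∑ i, ∑ k, t i k * ∑ j, Hm ν i k j * D j := by
  have e : (fun x => qq ν t x * ll ν D x) = fun x =>
      ∑ i, ∑ k, ∑ j, t i k * D j * (yy ν i x * (yy ν k x * yy ν j x)) := by
    funext x
    unfold qq ll
    rw [Finset.sum_mul]
    refine Finset.sum_congr rfl fun i _ => ?_
    rw [mul_assoc, Finset.sum_mul_sum, Finset.mul_sum]
    refine Finset.sum_congr rfl fun k _ => ?_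
    rw [Finset.mul_sum]
    refine Finset.sum_congr rfl fun j _ => ?_
    ring
  have hc : ∀ i k j : Fin n, Continuous fun x =>
      t i k * D j * (yy ν i x * (yy ν k x * yy ν j x)) := fun i k j =>
    ((yy_cont i).mul ((yy_cont k).mul (yy_cont j))).const_mul _
  rw [e, integral_finsetSum _ fun i _ => pb1_int hν hR
    (continuous_finsetSum _ fun k _ => continuous_finsetSum _ fun j _ => hc i k j)]
  refine Finset.sum_congr rfl fun i _ => ?_
  rw [integral_finsetSum _ fun k _ => pb1_int hν hR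
    (continuous_finsetSum _ fun j _ => hc i k j)]
  refine Finset.sum_congr rfl fun k _ => ?_
  rw [integral_finsetSum _ fun j _ => pb1_int hν hR (hc i k j), Finset.mul_sum]
  refine Finset.sum_congr rfl fun j _ => ?_
  rw [integral_const_mul, Hm_yy]
  ring

private lemma yy_deriv (i : Fin n) (x : Eu n) :
    HasFDerivAt (yy ν i) (EuclideanSpace.proj i : Eu n →L[ℝ] ℝ) x := by
  have h : HasFDerivAt (fun x : Eu n => x i) (EuclideanSpace.proj i : Eu n →L[ℝ] ℝ) x :=
    (EuclideanSpace.proj i : Eu n →L[ℝ] ℝ).hasFDerivAt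
  exact h.sub_const _

private lemma ll_deriv (a : Fin n → ℝ) (x : Eu n) :
    HasFDerivAt (ll ν a) (∑ i, a i • (EuclideanSpace.proj i : Eu n →L[ℝ] ℝ)) x := by
  unfold ll
  exact HasFDerivAt.fun_sum fun i _ => (yy_deriv i x).const_mul _

private lemma ff_deriv (t : Fin n → Fin n → ℝ) (ht : ∀ i j, t i j = t j i) (D : Fin n → ℝ)
    (s : ℝ) (x : Eu n) :
    HasFDerivAt (fun x => qq ν t x + s * ll ν D x)
      (innerSL ℝ (WithLp.toLp 2 (fun j => 2 * ll ν (t j) x + s * D j) : Eu n)) x := by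
  have h1 : HasFDerivAt (qq ν t) (∑ i, (yy ν i x • (∑ k, t i k •
      (EuclideanSpace.proj k : Eu n →L[ℝ] ℝ)) + ll ν (t i) x •
        (EuclideanSpace.proj i : Eu n →L[ℝ] ℝ))) x := by
    unfold qq
    exact HasFDerivAt.fun_sum fun i _ => (yy_deriv i x).mul (ll_deriv (t i) x)
  have h2 := h1.add ((ll_deriv (ν := ν) D x).const_mul s)
  refine h2.congr_fderiv ?_
  ext v
  have ep : ∀ k : Fin n, (EuclideanSpace.proj k : Eu n →L[ℝ] ℝ) v = v k := fun _ => rfl
  simp only [_root_.add_apply, _root_.sum_apply,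
    _root_.smul_apply, smul_eq_mul, innerSL_apply_apply, PiLp.inner_apply,
    ep, Finset.sum_add_distrib]
  have e1 : ∑ i, yy ν i x * ∑ k, t i k * v k = ∑ j, ll ν (t j) x * v j := by
    have : ∀ i, yy ν i x * ∑ k, t i k * v k = ∑ k, yy ν i x * (t i k * v k) := fun i =>
      Finset.mul_sum _ _ _
    simp only [this]
    rw [Finset.sum_comm]
    refine Finset.sum_congr rfl fun k _ => ?_
    unfold ll
    rw [Finset.sum_mul]
    refine Finset.sum_congr rfl fun i _ => ?_
    rw [ht i k]
    ring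
  rw [e1, Finset.mul_sum, ← Finset.sum_add_distrib, ← Finset.sum_add_distrib]
  refine Finset.sum_congr rfl fun j _ => ?_
  simp
  ring

private lemma ff_contDiff (t : Fin n → Fin n → ℝ) (D : Fin n → ℝ) (s : ℝ) :
    ContDiff ℝ 1 (fun x => qq ν t x + s * ll ν D x) := by
  unfold qq ll yy
  fun_prop

private lemma ff_norm (t : Fin n → Fin n → ℝ) (ht : ∀ i j, t i j = t j i) (D : Fin n → ℝ)
    (s : ℝ) (x : Eu n) :
    ‖fderiv ℝ (fun x => qq ν t x + s * ll ν D x) x‖ ^ 2 =
      ∑ j, (4 * (ll ν (t j) x * ll ν (t j) x) + 4 * s * D j * ll ν (t j) x + s ^ 2 * D j ^ 2) := by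
  rw [(ff_deriv t ht D s x).fderiv, innerSL_apply_norm, EuclideanSpace.norm_sq_eq]
  refine Finset.sum_congr rfl fun j _ => ?_
  rw [Real.norm_eq_abs, sq_abs]
  ring

private lemma ff_grad (hν : IsProbabilityMeasure ν) (hR : BS R ν) (t : Fin n → Fin n → ℝ)
    (ht : ∀ i j, t i j = t j i) (D : Fin n → ℝ) (s : ℝ) :
    ∫ x, ‖fderiv ℝ (fun x => qq ν t x + s * ll ν D x) x‖ ^ 2 ∂ν =
      4 * (∑ j, ∫ x, ll ν (t j) x * ll ν (t j) x ∂ν) + s ^ 2 * ∑ j, D j ^ 2 := by
  simp only [ff_norm t ht D s]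
  have i1 : ∀ j, Integrable (fun x => 4 * (ll ν (t j) x * ll ν (t j) x)) ν := fun j =>
    pb1_int hν hR (((ll_cont _).mul (ll_cont _)).const_mul _)
  have i2 : ∀ j, Integrable (fun x => 4 * s * D j * ll ν (t j) x) ν := fun j =>
    pb1_int hν hR ((ll_cont _).const_mul _)
  have i3 : ∀ j, Integrable (fun x => 4 * (ll ν (t j) x * ll ν (t j) x) +
      4 * s * D j * ll ν (t j) x) ν := fun j => (i1 j).add (i2 j)
  have i4 : ∀ j, Integrable (fun x => 4 * (ll ν (t j) x * ll ν (t j) x) +
      4 * s * D j * ll ν (t j) x + s ^ 2 * D j ^ 2) ν := fun j => (i3 j).add (integrable_const _)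
  rw [integral_finsetSum _ fun j _ => i4 j]
  rw [Finset.mul_sum, Finset.mul_sum, ← Finset.sum_add_distrib]
  refine Finset.sum_congr rfl fun j _ => ?_
  rw [integral_add (i3 j) (integrable_const _), integral_add (i1 j) (i2 j),
    integral_const_mul, integral_const_mul, ll_mean hν hR, integral_const]
  simp

private lemma Cv_expand (hν : IsProbabilityMeasure ν) (hR : BS R ν) (t : Fin n → Fin n → ℝ)
    (D : Fin n → ℝ) (s : ℝ) :
    2 * s * ∫ x, qq ν t x * ll ν D x ∂ν + s ^ 2 * ∫ x, ll ν D x * ll ν D x ∂ν ≤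
      Cv ν (fun x => qq ν t x + s * ll ν D x) (fun x => qq ν t x + s * ll ν D x) := by
  have iq := pb1_int hν hR (qq_cont (ν := ν) t)
  have il := pb1_int hν hR (ll_cont (ν := ν) D)
  have iqq : Integrable (fun x => qq ν t x * qq ν t x) ν :=
    pb1_int hν hR ((qq_cont (ν := ν) t).mul (qq_cont t))
  have iql : Integrable (fun x => qq ν t x * ll ν D x) ν :=
    pb1_int hν hR ((qq_cont (ν := ν) t).mul (ll_cont D))
  have ill : Integrable (fun x => ll ν D x * ll ν D x) ν :=
    pb1_int hν hR ((ll_cont (ν := ν) D).mul (ll_cont D))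
  have e1 : ∫ x, (qq ν t x + s * ll ν D x) * (qq ν t x + s * ll ν D x) ∂ν =
      ∫ x, qq ν t x * qq ν t x ∂ν + 2 * s * ∫ x, qq ν t x * ll ν D x ∂ν +
        s ^ 2 * ∫ x, ll ν D x * ll ν D x ∂ν := by
    have e : (fun x => (qq ν t x + s * ll ν D x) * (qq ν t x + s * ll ν D x)) = fun x =>
        qq ν t x * qq ν t x + 2 * s * (qq ν t x * ll ν D x) +
          s ^ 2 * (ll ν D x * ll ν D x) := by
      funext x; ring
    rw [e, integral_add (f := fun x => qq ν t x * qq ν t x + 2 * s * (qq ν t x * ll ν D x))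
      (iqq.add (iql.const_mul _)) (ill.const_mul _),
      integral_add iqq (iql.const_mul _), integral_const_mul, integral_const_mul]
  have e2 : ∫ x, (qq ν t x + s * ll ν D x) ∂ν = ∫ x, qq ν t x ∂ν := by
    rw [integral_add iq (il.const_mul _), integral_const_mul, ll_mean hν hR]
    ring
  have e3 : (∫ x, qq ν t x ∂ν) * ∫ x, qq ν t x ∂ν ≤ ∫ x, qq ν t x * qq ν t x ∂ν := by
    set c := ∫ x, qq ν t x ∂ν with hc
    have h0 : 0 ≤ ∫ x, (qq ν t x - c) ^ 2 ∂ν := integral_nonneg fun x => sq_nonneg _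
    have e4 : ∫ x, (qq ν t x - c) ^ 2 ∂ν = ∫ x, qq ν t x * qq ν t x ∂ν - c * c := by
      have e : (fun x => (qq ν t x - c) ^ 2) = fun x =>
          qq ν t x * qq ν t x - 2 * c * qq ν t x + c * c := by
        funext x; ring
      rw [e, integral_add (f := fun x => qq ν t x * qq ν t x - 2 * c * qq ν t x)
        (iqq.sub (iq.const_mul _)) (integrable_const _),
        integral_sub iqq (iq.const_mul _), integral_const_mul, integral_const, ← hc]
      simp
      ring
    linarith
  unfold Cv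
  rw [e1, e2]
  linarith

private lemma Am_symm (i j : Fin n) : Am ν i j = Am ν j i := by
  show Cv ν _ _ = Cv ν _ _
  unfold Cv
  congr 1
  · exact integral_congr_ae (ae_of_all _ fun x => mul_comm _ _)
  · exact mul_comm _ _

private lemma Hm_symm (i j k : Fin n) : Hm ν k i j = Hm ν k j i := by
  rw [Hm_yy, Hm_yy]
  exact integral_congr_ae (ae_of_all _ fun x => by ring)

private lemma Hm_symm' (i j k : Fin n) : Hm ν k i j = Hm ν i k j := by
  rw [Hm_yy, Hm_yy]
  exact integral_congr_ae (ae_of_all _ fun x => by ring)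

/-- the quadratic form of the covariance matrix -/
private lemma am_form (hν : IsProbabilityMeasure ν) (hR : BS R ν)
    (hP : ∀ f : Eu n → ℝ, ContDiff ℝ 1 f → Cv ν f f ≤ 1 / τ * ∫ x, ‖fderiv ℝ f x‖ ^ 2 ∂ν)
    (D : Fin n → ℝ) :
    ∫ x, ll ν D x * ll ν D x ∂ν ≤ 1 / τ * ∑ j, D j ^ 2 := by
  have h1 := hP _ (ff_contDiff (ν := ν) (fun _ _ => 0) D 1)
  rw [ff_grad hν hR _ (fun _ _ => rfl) D 1] at h1
  have h2 := Cv_expand hν hR (fun _ _ => 0) D 1
  have e1 : ∀ x, ll ν (fun _ => 0) x = 0 := fun x => by simp [ll]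
  have e2 : ∀ x, qq ν (fun _ _ => 0) x = 0 := fun x => by simp [qq, e1]
  simp only [e1, e2] at h1 h2
  simp only [zero_mul, integral_zero, mul_zero, zero_add, one_pow, one_mul,
    Finset.sum_const_zero] at h1 h2
  linarith

theorem am_le_of (hν : IsProbabilityMeasure ν) (hR : BS R ν) (hτ : 0 < τ)
    (hP : ∀ f : Eu n → ℝ, ContDiff ℝ 1 f → Cv ν f f ≤ 1 / τ * ∫ x, ‖fderiv ℝ f x‖ ^ 2 ∂ν) :
    (1 - τ • Am ν).PosSemidef := by
  refine Matrix.PosSemidef.of_dotProduct_mulVec_nonneg ?_ fun D => ?_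
  · refine Matrix.IsHermitian.ext fun i j => ?_
    simp only [Matrix.sub_apply, Matrix.smul_apply, smul_eq_mul, star_trivial, Matrix.one_apply,
      Am_symm i j, eq_comm]
  · have h := am_form hν hR hP D
    rw [ll_mul hν hR] at h
    have e : star D ⬝ᵥ ((1 - τ • Am ν) *ᵥ D) =
        ∑ j, D j ^ 2 - τ * ∑ i, ∑ j, D i * D j * Am ν i j := by
      rw [Matrix.sub_mulVec, Matrix.one_mulVec, dotProduct_sub, Matrix.smul_mulVec,
        dotProduct_smul]
      simp only [dotProduct, Matrix.mulVec, star_trivial, smul_eq_mul, Pi.star_apply]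
      congr 1
      · exact Finset.sum_congr rfl fun j _ => (sq _).symm
      · congr 1
        refine Finset.sum_congr rfl fun i _ => ?_
        rw [Finset.mul_sum]
        exact Finset.sum_congr rfl fun j _ => by ring
    rw [e]
    have h2 : τ * (∑ i, ∑ j, D i * D j * Am ν i j) ≤ τ * (1 / τ * ∑ j, D j ^ 2) :=
      mul_le_mul_of_nonneg_left h hτ.le
    have h3 : τ * (1 / τ * ∑ j, D j ^ 2) = ∑ j, D j ^ 2 := by field_simp
    linarith

theorem hm_le_of (hν : IsProbabilityMeasure ν) (hR : BS R ν) (hτ : 0 < τ)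
    (hP : ∀ f : Eu n → ℝ, ContDiff ℝ 1 f → Cv ν f f ≤ 1 / τ * ∫ x, ‖fderiv ℝ f x‖ ^ 2 ∂ν) :
    ((4 / τ ^ 3) • (1 - τ • Am ν) - ∑ k, Hm ν k * Hm ν k).PosSemidef := by
  refine Matrix.PosSemidef.of_dotProduct_mulVec_nonneg ?_ fun D => ?_
  · refine Matrix.IsHermitian.ext fun i j => ?_
    simp only [Matrix.sub_apply, Matrix.smul_apply, smul_eq_mul, star_trivial, Matrix.one_apply,
      Am_symm i j, Matrix.sum_apply, Matrix.mul_apply, eq_comm]
    congr 1
    refine Finset.sum_congr rfl fun k _ => Finset.sum_congr rfl fun l _ => ?_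
    rw [Hm_symm j l k, Hm_symm l i k]
    ring
  · -- the matrix `T_D`
    obtain ⟨t, ht⟩ : ∃ t : Fin n → Fin n → ℝ, ∀ i k, t i k = ∑ j, Hm ν i k j * D j :=
      ⟨_, fun _ _ => rfl⟩
    have hts : ∀ i k, t i k = t k i := by
      intro i k
      rw [ht, ht]
      exact Finset.sum_congr rfl fun j _ => by rw [Hm_symm' k j i]
    set h : ℝ := ∑ i, ∑ k, t i k ^ 2 with hh
    have hh0 : 0 ≤ h := Finset.sum_nonneg fun i _ => Finset.sum_nonneg fun k _ => sq_nonneg _
    set α : ℝ := ∑ i, ∑ j, D i * D j * Am ν i j with hα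
    set δ : ℝ := ∑ j, D j ^ 2 with hδ
    have hqq : ∫ x, qq ν t x * ll ν D x ∂ν = h := by
      rw [qq_ll hν hR, hh]
      refine Finset.sum_congr rfl fun i _ => Finset.sum_congr rfl fun k _ => ?_
      rw [← ht, sq]
    have hll : ∫ x, ll ν D x * ll ν D x ∂ν = α := ll_mul hν hR D D
    have hrow : ∑ j, ∫ x, ll ν (t j) x * ll ν (t j) x ∂ν ≤ 1 / τ * h := by
      rw [hh, Finset.mul_sum]
      exact Finset.sum_le_sum fun j _ => am_form hν hR hP (t j)
    have key : ∀ s : ℝ, 2 * s * h + s ^ 2 * α ≤ 1 / τ * (4 * (1 / τ * h) + s ^ 2 * δ) := by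
      intro s
      have h1 := hP _ (ff_contDiff (ν := ν) t D s)
      rw [ff_grad hν hR t hts D s] at h1
      have h2 := Cv_expand hν hR t D s
      rw [hqq, hll] at h2
      refine (h2.trans h1).trans ?_
      refine mul_le_mul_of_nonneg_left ?_ (by positivity)
      linarith
    have hαδ : α ≤ 1 / τ * δ := by
      have := am_form hν hR hP D
      rwa [hll] at this
    have hfin : h ≤ 4 / τ ^ 3 * (δ - τ * α) := by
      set β : ℝ := 1 / τ * δ - α with hβ
      have hβ0 : 0 ≤ β := by rw [hβ]; linarith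
      have e1 : 4 / τ ^ 3 * (δ - τ * α) = 4 / τ ^ 2 * β := by
        rw [hβ]; field_simp
      have key2 : ∀ s : ℝ, 2 * s * h ≤ 4 / τ ^ 2 * h + s ^ 2 * β := by
        intro s
        have := key s
        have e2 : 1 / τ * (4 * (1 / τ * h) + s ^ 2 * δ) =
            4 / τ ^ 2 * h + s ^ 2 * (1 / τ * δ) := by
          field_simp
        rw [e2] at this
        rw [hβ]
        nlinarith
      rw [e1]
      have hc : 0 < 4 / τ ^ 2 := by positivity
      rcases hβ0.eq_or_lt with h0 | h0
      · have := key2 (4 / τ ^ 2)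
        rw [← h0] at this ⊢
        nlinarith
      · rcases hh0.eq_or_lt with h3 | h3
        · rw [← h3]; positivity
        · have := key2 (h / β)
          have e3 : 2 * (h / β) * h = 2 * (h ^ 2 / β) := by ring
          have e4 : (h / β) ^ 2 * β = h ^ 2 / β := by
            field_simp
          rw [e3, e4] at this
          have e5 : h ^ 2 / β ≤ 4 / τ ^ 2 * h := by linarith
          rw [div_le_iff₀ h0] at e5
          have e6 : h * h ≤ h * (4 / τ ^ 2 * β) := by nlinarith
          exact le_of_mul_le_mul_left e6 h3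
    have e : star D ⬝ᵥ (((4 / τ ^ 3) • (1 - τ • Am ν) - ∑ k, Hm ν k * Hm ν k) *ᵥ D) =
        4 / τ ^ 3 * (δ - τ * α) - h := by
      rw [Matrix.sub_mulVec, dotProduct_sub]
      congr 1
      · rw [Matrix.smul_mulVec, dotProduct_smul, smul_eq_mul, Matrix.sub_mulVec,
          Matrix.one_mulVec, dotProduct_sub, Matrix.smul_mulVec, dotProduct_smul, smul_eq_mul]
        congr 1
        congr 1
        · exact Finset.sum_congr rfl fun j _ => (sq _).symm
        · congr 1
          simp only [dotProduct, Matrix.mulVec, star_trivial, Pi.star_apply]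
          refine Finset.sum_congr rfl fun i _ => ?_
          rw [Finset.mul_sum]
          exact Finset.sum_congr rfl fun j _ => by ring
      · rw [Matrix.sum_mulVec, dotProduct_sum, hh]
        refine Finset.sum_congr rfl fun k _ => ?_
        have e7 : (Hm ν k)ᵀ = Hm ν k := by
          ext i j; exact Hm_symm _ _ _
        rw [← Matrix.mulVec_mulVec, Matrix.dotProduct_mulVec, ← Matrix.mulVec_transpose, e7]
        simp only [dotProduct, Matrix.mulVec, star_trivial]
        exact Finset.sum_congr rfl fun j _ => by rw [ht, sq]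
    rw [e]
    linarith

end Pool.Agent.Lib.MP_6d896a_gt.LG
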