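import Mathlib
import Pool.Agent.Lib.MP_6d896a_gt.FP.PLm
import Pool.Agent.Lib.MP_6d896a_gt.LG.Defs

/-!
Piece B2: a bound for weighted sums of squares of third cumulants of a uniformly log-concave
measure (`t_bound`), from the Poincare inequality for functions with centred gradient.
-/

set_option autoImplicit false

namespace Pool.Agent.Lib.MP_6d896a_gt.LG

open MeasureTheory Filter Topology Set Matrix
open scoped ENNReal NNReal

variable {n : ℕ} {ν : Measure (Eu n)} {R τ : ℝ}

section generic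

private lemma integ (hν : IsProbabilityMeasure ν) (hR : BS R ν) {f : Eu n → ℝ}
    (hf : Continuous f) : Integrable f ν := by
  obtain ⟨C, hC⟩ := (isCompact_closedBall (0 : Eu n) R).exists_bound_of_continuousOn
    hf.continuousOn
  refine Integrable.of_bound hf.aestronglyMeasurable C ?_
  filter_upwards [hR] with x hx
  exact hC x (by simpa using hx)

private lemma int_inner (hν : IsProbabilityMeasure ν) (hR : BS R ν) (v : Eu n) :
    ∫ x, inner ℝ x v ∂ν = inner ℝ (mn ν) v := by
  have h : ∀ x : Eu n, inner ℝ x v = ∑ i, v i * x i := by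
    intro x
    simp [PiLp.inner_apply]
  simp_rw [h]
  rw [integral_finsetSum _ fun i _ => integ hν hR (by fun_prop)]
  refine Finset.sum_congr rfl fun i _ => ?_
  rw [integral_const_mul]
  simp [mn]

private lemma int_cen (hν : IsProbabilityMeasure ν) (hR : BS R ν) (v : Eu n) :
    ∫ x, inner ℝ (x - mn ν) v ∂ν = 0 := by
  simp_rw [inner_sub_left]
  rw [integral_sub (integ hν hR (by fun_prop)) (integ hν hR (by fun_prop)), int_inner hν hR]
  simp

/-- covariance as an integral of a product of centred functions -/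
private lemma cv_cen (hν : IsProbabilityMeasure ν) (hR : BS R ν) {f g : Eu n → ℝ}
    (hf : Continuous f) (hg : Continuous g) :
    Cv ν f g = ∫ x, (f x - ∫ y, f y ∂ν) * (g x - ∫ y, g y ∂ν) ∂ν := by
  set c := ∫ y, f y ∂ν
  set d := ∫ y, g y ∂ν
  have h : ∀ x, (f x - c) * (g x - d) = f x * g x - d * f x - (c * g x - c * d) := by
    intro x; ring
  simp_rw [h]
  rw [integral_sub (integ hν hR (by fun_prop)) (integ hν hR (by fun_prop)),
    integral_sub (integ hν hR (by fun_prop)) (integ hν hR (by fun_prop)),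
    integral_sub (integ hν hR (by fun_prop)) (integ hν hR (by fun_prop)),
    integral_const_mul, integral_const_mul]
  simp only [Cv, integral_const, probReal_univ, smul_eq_mul, one_mul]
  change ∫ x, f x * g x ∂ν - c * d = ∫ x, f x * g x ∂ν - d * c - (c * d - c * d)
  ring

private lemma cs (hν : IsProbabilityMeasure ν) (hR : BS R ν) {f g : Eu n → ℝ}
    (hf : Continuous f) (hg : Continuous g) :
    (∫ x, f x * g x ∂ν) ^ 2 ≤ (∫ x, f x ^ 2 ∂ν) * ∫ x, g x ^ 2 ∂ν := by
  have key : ∀ s : ℝ, 0 ≤ (∫ x, f x ^ 2 ∂ν) * (s * s) + (2 * ∫ x, f x * g x ∂ν) * s +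
      ∫ x, g x ^ 2 ∂ν := by
    intro s
    have h1 : 0 ≤ ∫ x, (s * f x + g x) ^ 2 ∂ν := integral_nonneg fun x => sq_nonneg _
    have h2 : ∀ x, (s * f x + g x) ^ 2 = (s * s) * f x ^ 2 + (2 * s) * (f x * g x) + g x ^ 2 := by
      intro x; ring
    simp_rw [h2] at h1
    rw [integral_add (integ hν hR (by fun_prop)) (integ hν hR (by fun_prop)),
      integral_add (integ hν hR (by fun_prop)) (integ hν hR (by fun_prop)),
      integral_const_mul, integral_const_mul] at h1
    linarith
  have := discrim_le_zero key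
  unfold discrim at this
  nlinarith [this]

end generic

/-! ### projections -/

section proj

variable (b : OrthonormalBasis (Fin n) ℝ (Eu n)) (I : Finset (Fin n))

/-- orthogonal projection on a coordinate subspace -/
private noncomputable def pj : Eu n →ₗ[ℝ] Eu n where
  toFun x := ∑ i ∈ I, inner ℝ x (b i) • b i
  map_add' x y := by
    simp [inner_add_left, add_smul, Finset.sum_add_distrib]
  map_smul' c x := by
    simp [inner_smul_left, Finset.smul_sum, smul_smul]

private lemma pj_apply (x : Eu n) : pj b I x = ∑ i ∈ I, inner ℝ x (b i) • b i := rfl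

private lemma pj_cont : Continuous (pj b I) := LinearMap.continuous_of_finiteDimensional _

private lemma pj_inner (x : Eu n) (j : Fin n) :
    inner ℝ (pj b I x) (b j) = if j ∈ I then inner ℝ x (b j) else 0 := by
  rw [pj_apply, sum_inner]
  simp_rw [inner_smul_left, b.inner_eq_ite]
  simp

private lemma nsq (x : Eu n) : ‖x‖ ^ 2 = ∑ i, inner ℝ x (b i) ^ 2 := by
  rw [← real_inner_self_eq_norm_sq, ← b.sum_inner_mul_inner x x]
  refine Finset.sum_congr rfl fun i _ => ?_
  rw [real_inner_comm x (b i), sq]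

private lemma pj_nsq (x : Eu n) : ‖pj b I x‖ ^ 2 = ∑ i ∈ I, inner ℝ x (b i) ^ 2 := by
  rw [nsq b]
  simp_rw [pj_inner]
  rw [← Finset.sum_filter_add_sum_filter_not Finset.univ (fun i => i ∈ I)]
  have h1 : ∑ x_1 ∈ Finset.univ.filter (fun i => ¬ i ∈ I),
      (if x_1 ∈ I then inner ℝ x (b x_1) else 0) ^ 2 = 0 := by
    refine Finset.sum_eq_zero fun i hi => ?_
    rw [if_neg (Finset.mem_filter.1 hi).2]
    simp
  rw [h1, add_zero]
  have h2 : Finset.univ.filter (fun i => i ∈ I) = I := by ext; simp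
  rw [h2]
  exact Finset.sum_congr rfl fun i hi => by rw [if_pos hi]

private lemma pj_norm_le (x : Eu n) : ‖pj b I x‖ ≤ ‖x‖ := by
  have h : ‖pj b I x‖ ^ 2 ≤ ‖x‖ ^ 2 := by
    rw [pj_nsq, nsq b x]
    exact Finset.sum_le_sum_of_subset_of_nonneg (Finset.subset_univ _) fun i _ _ => sq_nonneg _
  exact le_of_sq_le_sq h (norm_nonneg _)

end proj

private lemma conv_id (x y : Eu n) (l : ℝ) :
    ‖(1 - l) • x + l • y‖ ^ 2 = (1 - l) * ‖x‖ ^ 2 + l * ‖y‖ ^ 2 - l * (1 - l) * ‖x - y‖ ^ 2 := by
  rw [← real_inner_self_eq_norm_sq, ← real_inner_self_eq_norm_sq, ← real_inner_self_eq_norm_sq,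
    ← real_inner_self_eq_norm_sq]
  simp only [inner_add_left, inner_add_right, inner_sub_left, inner_sub_right, inner_smul_left,
    inner_smul_right, conj_trivial]
  rw [real_inner_comm x y]
  ring

/-- the image of a uniformly log-concave measure under a linear contraction -/
theorem ulc_map (hu : ULC τ ν) (hτ : 0 ≤ τ) (D : Eu n →ₗ[ℝ] Eu n) (hD : ∀ x, ‖D x‖ ≤ ‖x‖) :
    ULC τ (ν.map D) := by
  have hDc : Continuous D := LinearMap.continuous_of_finiteDimensional D
  have hDm : Measurable D := hDc.measurable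
  set ρ : Eu n → ℝ≥0∞ := fun x => ENNReal.ofReal (Real.exp (τ / 2 * ‖x‖ ^ 2)) with hρ
  have hρm : Measurable ρ := by fun_prop
  set q : Eu n → ℝ := fun x => τ / 2 * (‖x‖ ^ 2 - ‖D x‖ ^ 2) with hq
  set σ : Eu n → ℝ≥0∞ := fun x => ENNReal.ofReal (Real.exp (- q x)) with hσ
  have hqc : Continuous q := by
    rw [hq]; fun_prop
  have hσm : Measurable σ := by
    rw [hσ]
    exact (Real.continuous_exp.comp hqc.neg).measurable.ennreal_ofReal
  have h1 : (ν.map D).withDensity ρ = ((ν.withDensity ρ).withDensity σ).map D := by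
    rw [← withDensity_mul ν hρm hσm]
    refine Measure.ext fun s hs => ?_
    rw [withDensity_apply _ hs, Measure.map_apply hDm hs, withDensity_apply _ (hDm hs),
      setLIntegral_map hs hρm hDm]
    refine lintegral_congr fun x => ?_
    simp only [Pi.mul_apply, hρ, hσ]
    rw [← ENNReal.ofReal_mul (Real.exp_pos _).le, ← Real.exp_add]
    congr 2
    rw [hq]; ring
  unfold ULC
  rw [h1]
  refine FP.PLm.map (FP.PLm.withDensity hu hσm ?_) D hDm
  intro x y l h0 h1
  simp only [hσ]
  rw [ENNReal.ofReal_rpow_of_pos (Real.exp_pos _), ENNReal.ofReal_rpow_of_pos (Real.exp_pos _),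
    ← ENNReal.ofReal_mul (by positivity), ← Real.exp_mul, ← Real.exp_mul, ← Real.exp_add]
  refine ENNReal.ofReal_le_ofReal (Real.exp_le_exp.2 ?_)
  have e1 := conv_id x y l
  have e2 := conv_id (D x) (D y) l
  have e3 : D ((1 - l) • x + l • y) = (1 - l) • D x + l • D y := by simp
  have e4 : ‖D x - D y‖ ^ 2 ≤ ‖x - y‖ ^ 2 := by
    rw [← map_sub]
    exact pow_le_pow_left₀ (norm_nonneg _) (hD _) 2
  simp only [hq]
  rw [e3, e1, e2]
  have e5 : 0 ≤ τ / 2 * (l * (1 - l)) * (‖x - y‖ ^ 2 - ‖D x - D y‖ ^ 2) := by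
    have : 0 ≤ l * (1 - l) := mul_nonneg h0.le (by linarith)
    exact mul_nonneg (by positivity) (by linarith)
  linarith

/-! ### the quadratic form -/

section quad

variable (b : OrthonormalBasis (Fin n) ℝ (Eu n)) (m : Eu n) (W : Fin n → Fin n → ℝ)

private noncomputable def qf (x : Eu n) : ℝ :=
  ∑ i, ∑ j, W i j * (inner ℝ (x - m) (b i) * inner ℝ (x - m) (b j))

private lemma qf_cd : ContDiff ℝ 1 (qf b m W) := by
  unfold qf
  have h : ∀ i, ContDiff ℝ 1 (fun x : Eu n => (inner ℝ (x - m) (b i) : ℝ)) := fun i =>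
    (contDiff_id.sub contDiff_const).inner ℝ contDiff_const
  exact ContDiff.sum fun i _ => ContDiff.sum fun j _ => contDiff_const.mul ((h i).mul (h j))

private noncomputable def qg (x : Eu n) : Eu n :=
  ∑ i, (2 * ∑ j, W i j * inner ℝ (x - m) (b j)) • b i

private lemma qg_inner (x v : Eu n) : inner ℝ (qg b m W x) v =
    ∑ i, (2 * ∑ j, W i j * inner ℝ (x - m) (b j)) * inner ℝ (b i) v := by
  unfold qg
  rw [sum_inner]
  simp_rw [inner_smul_left, conj_trivial]

private lemma qf_fderiv (hW : ∀ i j, W i j = W j i) (x : Eu n) :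
    fderiv ℝ (qf b m W) x = innerSL ℝ (qg b m W x) := by
  have h1 : ∀ i, HasFDerivAt (fun x : Eu n => (inner ℝ (x - m) (b i) : ℝ)) (innerSL ℝ (b i)) x := by
    intro i
    have h2 : HasFDerivAt (fun x : Eu n => innerSL ℝ (b i) x - innerSL ℝ (b i) m)
        (innerSL ℝ (b i)) x := (innerSL ℝ (b i)).hasFDerivAt.sub_const _
    refine h2.congr_of_eventuallyEq (Eventually.of_forall fun y => ?_)
    simp [real_inner_comm, inner_sub_left]
  have h2 : HasFDerivAt (qf b m W) (∑ i, ∑ j, W i j • ((inner ℝ (x - m) (b i) : ℝ) • innerSL ℝ (b j)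
      + (inner ℝ (x - m) (b j) : ℝ) • innerSL ℝ (b i))) x := by
    unfold qf
    refine HasFDerivAt.fun_sum fun i _ => HasFDerivAt.fun_sum fun j _ => ?_
    exact ((h1 i).mul (h1 j)).const_mul (W i j)
  rw [h2.fderiv]
  ext v
  simp only [_root_.sum_apply, _root_.smul_apply, _root_.add_apply, innerSL_apply_apply,
    smul_eq_mul]
  rw [qg_inner]
  have e1 : ∑ i, ∑ j, W i j * (inner ℝ (x - m) (b i) * inner ℝ (b j) v +
      inner ℝ (x - m) (b j) * inner ℝ (b i) v) =
      ∑ i, ∑ j, W i j * (inner ℝ (x - m) (b i) * inner ℝ (b j) v) +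
      ∑ i, ∑ j, W i j * (inner ℝ (x - m) (b j) * inner ℝ (b i) v) := by
    rw [← Finset.sum_add_distrib]
    refine Finset.sum_congr rfl fun i _ => ?_
    rw [← Finset.sum_add_distrib]
    refine Finset.sum_congr rfl fun j _ => ?_
    ring
  rw [e1]
  nth_rewrite 1 [Finset.sum_comm]
  rw [← Finset.sum_add_distrib]
  refine Finset.sum_congr rfl fun i _ => ?_
  rw [← Finset.sum_add_distrib, Finset.mul_sum, Finset.sum_mul]
  refine Finset.sum_congr rfl fun j _ => ?_
  rw [hW j i]
  ring

private lemma qf_nsq (hW : ∀ i j, W i j = W j i) (x : Eu n) :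
    ‖fderiv ℝ (qf b m W) x‖ ^ 2 = 4 * ∑ i, (∑ j, W i j * inner ℝ (x - m) (b j)) ^ 2 := by
  rw [qf_fderiv b m W hW, innerSL_apply_norm, nsq b]
  simp_rw [qg_inner]
  rw [Finset.mul_sum]
  refine Finset.sum_congr rfl fun i _ => ?_
  simp_rw [b.inner_eq_ite]
  simp
  ring

end quad

/-! ### eigenbasis -/

private lemma eig_int (hν : IsProbabilityMeasure ν) (hR : BS R ν)
    {b : OrthonormalBasis (Fin n) ℝ (Eu n)} {a : Fin n → ℝ} (hb : Eig ν b a) (i j : Fin n) :
    ∫ x, inner ℝ (x - mn ν) (b i) * inner ℝ (x - mn ν) (b j) ∂ν = if i = j then a i else 0 := by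
  rw [← hb i j, cv_cen hν hR (by fun_prop) (by fun_prop)]
  simp_rw [inner_sub_left, int_inner hν hR]

private lemma t3_symm (ν : Measure (Eu n)) (b : Fin n → Eu n) (p i j : Fin n) :
    T3 ν b p i j = T3 ν b p j i := by
  unfold T3
  refine integral_congr_ae (Eventually.of_forall fun x => ?_)
  simp only
  ring

theorem t_bound_of
    (H : ∀ (ν : Measure (Eu n)) (R τ : ℝ), IsProbabilityMeasure ν → BS R ν → 0 < τ → ULC τ ν →
      ∀ s : ℝ, 0 ≤ s →
      (∀ w : Eu n, Cv ν (fun x => inner ℝ x w) (fun x => inner ℝ x w) ≤ s * ‖w‖ ^ 2) →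
      ∀ f : Eu n → ℝ, ContDiff ℝ 1 f → (∀ w, ∫ x, fderiv ℝ f x w ∂ν = 0) →
      Cv ν f f ≤ 1 / τ * (Real.sqrt (s * τ) / (1 + Real.sqrt (s * τ))) *
        ∫ x, ‖fderiv ℝ f x‖ ^ 2 ∂ν)
    (hν : IsProbabilityMeasure ν) (hR : BS R ν) (hτ : 0 < τ) (hu : ULC τ ν)
    {b : OrthonormalBasis (Fin n) ℝ (Eu n)} {a : Fin n → ℝ} (hb : Eig ν b a) (p : Fin n)
    {w : Fin n → Fin n → ℝ} (hw0 : ∀ i j, 0 ≤ w i j) (hws : ∀ i j, w i j = w j i)
    (hwp : ∀ i j, a p < a i → w i j = 0) {β : ℝ} (hβ0 : 0 ≤ β)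
    (hβ : ∀ i j, w i j * (τ * a i + τ * a j) ≤ β) :
    ∑ i, ∑ j, w i j * T3 ν b p i j ^ 2 ≤ 2 * (τ * a p) * kap (τ * a p) * β / τ ^ 3 := by
  classical
  set I : Finset (Fin n) := Finset.univ.filter fun i => a i ≤ a p with hI
  set D := pj b I with hD
  have hDc : Continuous D := pj_cont b I
  have hDm : Measurable D := hDc.measurable
  set m := mn ν with hm
  set W : Fin n → Fin n → ℝ := fun i j => w i j * T3 ν b p i j with hW
  have hWs : ∀ i j, W i j = W j i := by
    intro i j; simp only [hW]; rw [hws i j, t3_symm]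
  have hWI : ∀ i j, i ∉ I → W i j = 0 := by
    intro i j hi
    have : a p < a i := by simpa [hI] using hi
    simp only [hW]; rw [hwp i j this, zero_mul]
  have hWJ : ∀ i j, j ∉ I → W i j = 0 := by
    intro i j hj; rw [hWs]; exact hWI j i hj
  -- second moments
  have h2 := eig_int hν hR hb
  have ha0 : ∀ i, 0 ≤ a i := by
    intro i
    have := h2 i i
    rw [if_pos rfl] at this
    rw [← this]
    exact integral_nonneg fun x => mul_self_nonneg _
  -- the image measure
  set ν' := ν.map D with hν'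
  have hν'p : IsProbabilityMeasure ν' := Measure.isProbabilityMeasure_map hDm.aemeasurable
  have hR' : BS R ν' := by
    unfold BS
    rw [hν', ae_map_iff hDm.aemeasurable (measurableSet_le (by fun_prop) (by fun_prop))]
    filter_upwards [hR] with x hx
    exact (pj_norm_le b I x).trans hx
  have hu' : ULC τ ν' := ulc_map hu hτ.le D (pj_norm_le b I)
  have hmap : ∀ g : Eu n → ℝ, Continuous g → ∫ x, g x ∂ν' = ∫ x, g (D x) ∂ν := by
    intro g hg
    rw [hν', integral_map hDm.aemeasurable hg.aestronglyMeasurable]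
  -- invariance of the coordinates
  have hDi : ∀ i ∈ I, ∀ x, (inner ℝ (D x - m) (b i) : ℝ) = inner ℝ (x - m) (b i) := by
    intro i hi x
    rw [inner_sub_left, inner_sub_left, hD, pj_inner, if_pos hi]
  have hWy : ∀ i j x, W i j * (inner ℝ (D x - m) (b j) : ℝ) = W i j * inner ℝ (x - m) (b j) := by
    intro i j x
    by_cases hj : j ∈ I
    · rw [hDi j hj]
    · rw [hWJ i j hj]; simp
  have hqf : ∀ x, qf b m W (D x) = qf b m W x := by
    intro x
    unfold qf
    refine Finset.sum_congr rfl fun i _ => Finset.sum_congr rfl fun j _ => ?_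
    by_cases hi : i ∈ I
    · rw [hDi i hi, mul_left_comm, hWy, ← mul_left_comm]
    · rw [hWI i j hi]; simp
  have hqfc : Continuous (qf b m W) := (qf_cd b m W).continuous
  -- directional variances
  have hvar : ∀ v : Eu n, Cv ν' (fun x => inner ℝ x v) (fun x => inner ℝ x v) ≤ a p * ‖v‖ ^ 2 := by
    intro v
    have e1 : Cv ν' (fun x => inner ℝ x v) (fun x => inner ℝ x v) =
        Cv ν (fun x => inner ℝ (D x) v) (fun x => inner ℝ (D x) v) := by
      unfold Cv
      rw [hmap _ (by fun_prop), hmap _ (by fun_prop)]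
    have e2 : ∀ x, (inner ℝ (D x) v : ℝ) = inner ℝ x (D v) := by
      intro x
      rw [hD, pj_apply, pj_apply, sum_inner, inner_sum]
      refine Finset.sum_congr rfl fun i _ => ?_
      rw [inner_smul_left, inner_smul_right, conj_trivial, real_inner_comm v (b i)]
      ring
    rw [e1]
    simp_rw [e2]
    rw [cv_cen hν hR (by fun_prop) (by fun_prop)]
    simp_rw [int_inner hν hR, ← inner_sub_left]
    have e3 : ∀ x : Eu n, (inner ℝ (x - m) (D v) : ℝ) * inner ℝ (x - m) (D v) =
        ∑ i ∈ I, ∑ j ∈ I, (inner ℝ v (b i) * inner ℝ v (b j)) *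
          (inner ℝ (x - m) (b i) * inner ℝ (x - m) (b j)) := by
      intro x
      rw [hD, pj_apply, inner_sum, Finset.sum_mul_sum]
      refine Finset.sum_congr rfl fun i _ => Finset.sum_congr rfl fun j _ => ?_
      rw [inner_smul_right, inner_smul_right]
      ring
    simp_rw [← hm, e3]
    rw [integral_finsetSum _ fun i _ => integ hν hR (by fun_prop)]
    have e4 : ∀ i ∈ I, ∫ x, ∑ j ∈ I, (inner ℝ v (b i) * inner ℝ v (b j)) *
          (inner ℝ (x - m) (b i) * inner ℝ (x - m) (b j)) ∂ν = a i * inner ℝ v (b i) ^ 2 := by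
      intro i hi
      rw [integral_finsetSum _ fun j _ => integ hν hR (by fun_prop)]
      simp_rw [integral_const_mul, hm, h2]
      simp [hi]
      ring
    rw [Finset.sum_congr rfl e4, nsq b v, Finset.mul_sum]
    calc ∑ i ∈ I, a i * inner ℝ v (b i) ^ 2 ≤ ∑ i ∈ I, a p * inner ℝ v (b i) ^ 2 := by
          refine Finset.sum_le_sum fun i hi => ?_
          have : a i ≤ a p := by simpa [hI] using hi
          gcongr
      _ ≤ ∑ i, a p * inner ℝ v (b i) ^ 2 :=
          Finset.sum_le_sum_of_subset_of_nonneg (Finset.subset_univ _) fun i _ _ =>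
            mul_nonneg (ha0 p) (sq_nonneg _)
  -- the gradient is centred
  have hcen : ∀ v, ∫ x, fderiv ℝ (qf b m W) x v ∂ν' = 0 := by
    intro v
    have e1 : ∀ x, fderiv ℝ (qf b m W) x v =
        ∑ i, (2 * ∑ j, W i j * inner ℝ (x - m) (b j)) * inner ℝ (b i) v := by
      intro x
      rw [qf_fderiv b m W hWs, innerSL_apply_apply, qg_inner]
    simp_rw [e1]
    rw [hmap _ (by fun_prop)]
    simp_rw [hWy]
    rw [integral_finsetSum _ fun i _ => integ hν hR (by fun_prop)]
    refine Finset.sum_eq_zero fun i _ => ?_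
    rw [integral_mul_const, integral_const_mul,
      integral_finsetSum _ fun j _ => integ hν hR (by fun_prop)]
    simp_rw [integral_const_mul, hm, int_cen hν hR]
    simp
  -- the energy
  have hen : ∫ x, ‖fderiv ℝ (qf b m W) x‖ ^ 2 ∂ν' = 4 * ∑ i, ∑ j, W i j ^ 2 * a j := by
    simp_rw [qf_nsq b m W hWs]
    rw [hmap _ (by fun_prop)]
    simp_rw [hWy]
    rw [integral_const_mul]
    congr 1
    rw [integral_finsetSum _ fun i _ => integ hν hR (by fun_prop)]
    refine Finset.sum_congr rfl fun i _ => ?_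
    have e1 : ∀ x : Eu n, (∑ j, W i j * inner ℝ (x - m) (b j)) ^ 2 =
        ∑ j, ∑ k, (W i j * W i k) * (inner ℝ (x - m) (b j) * inner ℝ (x - m) (b k)) := by
      intro x
      rw [sq, Finset.sum_mul_sum]
      refine Finset.sum_congr rfl fun j _ => Finset.sum_congr rfl fun k _ => ?_
      ring
    simp_rw [e1]
    rw [integral_finsetSum _ fun j _ => integ hν hR (by fun_prop)]
    refine Finset.sum_congr rfl fun j _ => ?_
    rw [integral_finsetSum _ fun k _ => integ hν hR (by fun_prop)]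
    simp_rw [integral_const_mul, hm, h2]
    rw [Finset.sum_eq_single j (fun k _ hk => by simp [Ne.symm hk]) (by simp)]
    rw [if_pos rfl]
    ring
  -- the variance
  have hcv : Cv ν' (qf b m W) (qf b m W) = Cv ν (qf b m W) (qf b m W) := by
    unfold Cv
    rw [hmap _ (by fun_prop), hmap _ (by fun_prop)]
    simp_rw [hqf]
  -- the sum as a covariance
  set h := ∑ i, ∑ j, w i j * T3 ν b p i j ^ 2 with hh
  have hh0 : 0 ≤ h := Finset.sum_nonneg fun i _ => Finset.sum_nonneg fun j _ =>
    mul_nonneg (hw0 i j) (sq_nonneg _)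
  have hhc : h = ∫ x, inner ℝ (x - m) (b p) * (qf b m W x - ∫ y, qf b m W y ∂ν) ∂ν := by
    have e1 : ∫ x, inner ℝ (x - m) (b p) * (qf b m W x - ∫ y, qf b m W y ∂ν) ∂ν =
        ∫ x, inner ℝ (x - m) (b p) * qf b m W x ∂ν := by
      simp_rw [mul_sub]
      rw [integral_sub (integ hν hR (by fun_prop)) (integ hν hR (by fun_prop)),
        integral_mul_const, hm, int_cen hν hR]
      simp
    rw [e1]
    have e2 : ∀ x, inner ℝ (x - m) (b p) * qf b m W x = ∑ i, ∑ j, W i j *
        (inner ℝ (x - m) (b p) * (inner ℝ (x - m) (b i) * inner ℝ (x - m) (b j))) := by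
      intro x
      unfold qf
      rw [Finset.mul_sum]
      refine Finset.sum_congr rfl fun i _ => ?_
      rw [Finset.mul_sum]
      refine Finset.sum_congr rfl fun j _ => ?_
      ring
    simp_rw [e2]
    rw [integral_finsetSum _ fun i _ => integ hν hR (by fun_prop), hh]
    refine Finset.sum_congr rfl fun i _ => ?_
    rw [integral_finsetSum _ fun j _ => integ hν hR (by fun_prop)]
    refine Finset.sum_congr rfl fun j _ => ?_
    rw [integral_const_mul]
    simp only [hW, T3, hm]
    ring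
  have hcs : h ^ 2 ≤ a p * Cv ν (qf b m W) (qf b m W) := by
    rw [hhc]
    refine (cs hν hR (by fun_prop) (by fun_prop)).trans (le_of_eq ?_)
    rw [cv_cen hν hR hqfc hqfc]
    congr 1
    · have := h2 p p
      rw [if_pos rfl] at this
      rw [← this]
      simp_rw [sq, hm]
    · simp_rw [sq]
  -- conclusion
  have hmain := H ν' R τ hν'p hR' hτ hu' (a p) (ha0 p) hvar (qf b m W) (qf_cd b m W) hcen
  rw [hcv, hen] at hmain
  have hk : Real.sqrt (a p * τ) / (1 + Real.sqrt (a p * τ)) = kap (τ * a p) := by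
    unfold kap; rw [mul_comm (a p) τ]
  have hk0 : 0 ≤ kap (τ * a p) := by
    unfold kap; positivity
  rw [hk] at hmain
  have hen2 : 4 * ∑ i, ∑ j, W i j ^ 2 * a j ≤ 2 * (β / τ) * h := by
    have e1 : ∑ i, ∑ j, W i j ^ 2 * a j = ∑ i, ∑ j, W i j ^ 2 * a i := by
      rw [Finset.sum_comm]
      refine Finset.sum_congr rfl fun i _ => Finset.sum_congr rfl fun j _ => ?_
      rw [hWs]
    have e2 : 4 * ∑ i, ∑ j, W i j ^ 2 * a j = 2 * ∑ i, ∑ j, W i j ^ 2 * (a i + a j) := by
      have : ∑ i, ∑ j, W i j ^ 2 * (a i + a j) =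
          ∑ i, ∑ j, W i j ^ 2 * a i + ∑ i, ∑ j, W i j ^ 2 * a j := by
        rw [← Finset.sum_add_distrib]
        refine Finset.sum_congr rfl fun i _ => ?_
        rw [← Finset.sum_add_distrib]
        refine Finset.sum_congr rfl fun j _ => ?_
        ring
      rw [this, ← e1]; ring
    rw [e2, mul_assoc]
    refine mul_le_mul_of_nonneg_left ?_ (by norm_num)
    rw [hh, Finset.mul_sum]
    refine Finset.sum_le_sum fun i _ => ?_
    rw [Finset.mul_sum]
    refine Finset.sum_le_sum fun j _ => ?_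
    have e3 : w i j * (a i + a j) ≤ β / τ := by
      rw [le_div_iff₀ hτ]
      have := hβ i j
      linarith
    calc W i j ^ 2 * (a i + a j) = (w i j * (a i + a j)) * (w i j * T3 ν b p i j ^ 2) := by
          simp only [hW]; ring
      _ ≤ β / τ * (w i j * T3 ν b p i j ^ 2) :=
          mul_le_mul_of_nonneg_right e3 (mul_nonneg (hw0 i j) (sq_nonneg _))
  have hfin : h ^ 2 ≤ (2 * (τ * a p) * kap (τ * a p) * β / τ ^ 3) * h := by
    calc h ^ 2 ≤ a p * Cv ν (qf b m W) (qf b m W) := hcs
      _ ≤ a p * (1 / τ * kap (τ * a p) * (4 * ∑ i, ∑ j, W i j ^ 2 * a j)) :=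
          mul_le_mul_of_nonneg_left hmain (ha0 p)
      _ ≤ a p * (1 / τ * kap (τ * a p) * (2 * (β / τ) * h)) := by
          refine mul_le_mul_of_nonneg_left ?_ (ha0 p)
          exact mul_le_mul_of_nonneg_left hen2 (by positivity)
      _ = _ := by field_simp
  rcases hh0.eq_or_lt with h0 | h0
  · rw [← h0]
    have := ha0 p
    positivity
  · exact le_of_mul_le_mul_right (by rw [← sq]; exact hfin) h0

end Pool.Agent.Lib.MP_6d896a_gt.LG
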