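import Mathlib
import Pool.Agent.Lib.MP_6d896a_gt.LG.Defs

/-!
Project LG, piece PC1: the drift of the functional of step I at a single state.
-/

set_option autoImplicit false

namespace Pool.Agent.Lib.MP_6d896a_gt.LG

open MeasureTheory Filter Topology Set Matrix
open scoped ENNReal NNReal

variable {n : ℕ} {ν : Measure (Eu n)} {R τ : ℝ}

/-- continuous functions are integrable -/
private lemma pc1_int [IsProbabilityMeasure ν] (hR : BS R ν) {f : Eu n → ℝ} (hf : Continuous f) :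
    Integrable f ν := by
  obtain ⟨C, hC⟩ := (isCompact_closedBall (0 : Eu n) R).exists_bound_of_continuousOn hf.continuousOn
  refine Integrable.of_bound hf.aestronglyMeasurable C ?_
  filter_upwards [hR] with x hx
  exact hC x (by simpa using hx)

private lemma pc1_inner (x v : Eu n) : inner ℝ x v = ∑ i, x i * v i := by
  rw [PiLp.inner_apply]
  exact Finset.sum_congr rfl fun i _ => by simp [mul_comm]

private lemma pc1_cont (i : Fin n) : Continuous fun x : Eu n => x i := by fun_prop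

/-- the covariance of linear functions -/
private lemma pc1_cv [IsProbabilityMeasure ν] (hR : BS R ν) (v w : Eu n) :
    Cv ν (fun x => inner ℝ x v) (fun x => inner ℝ x w) = ∑ i, ∑ j, v i * (Am ν i j * w j) := by
  have hl : ∀ v : Eu n, ∫ x, inner ℝ x v ∂ν = ∑ i, (∫ x : Eu n, x i ∂ν) * v i := by
    intro v
    simp only [pc1_inner]
    rw [integral_finsetSum _ fun i _ => pc1_int hR (by fun_prop)]
    exact Finset.sum_congr rfl fun i _ => integral_mul_const _ _
  have hq : ∫ x, inner ℝ x v * inner ℝ x w ∂ν =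
      ∑ i, ∑ j, v i * ((∫ x : Eu n, x i * x j ∂ν) * w j) := by
    have e1 : ∀ x : Eu n, inner ℝ x v * inner ℝ x w = ∑ i, ∑ j, v i * (x i * x j * w j) := by
      intro x
      rw [pc1_inner, pc1_inner, Finset.sum_mul_sum]
      exact Finset.sum_congr rfl fun i _ => Finset.sum_congr rfl fun j _ => by ring
    simp only [e1]
    rw [integral_finsetSum _ fun i _ => pc1_int hR (by fun_prop)]
    refine Finset.sum_congr rfl fun i _ => ?_
    rw [integral_finsetSum _ fun j _ => pc1_int hR (by fun_prop)]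
    refine Finset.sum_congr rfl fun j _ => ?_
    rw [integral_const_mul, integral_mul_const]
  unfold Am Cv
  rw [hl, hl, hq, Finset.sum_mul_sum, ← Finset.sum_sub_distrib]
  refine Finset.sum_congr rfl fun i _ => ?_
  rw [← Finset.sum_sub_distrib]
  refine Finset.sum_congr rfl fun j _ => ?_
  ring

/-- the matrix of a basis -/
private noncomputable def pcU (b : OrthonormalBasis (Fin n) ℝ (Eu n)) : Mat n := fun k i => b i k

private lemma pcU_orth (b : OrthonormalBasis (Fin n) ℝ (Eu n)) : (pcU b)ᵀ * pcU b = 1 := by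
  ext i j
  rw [Matrix.mul_apply, Matrix.one_apply]
  have h1 := b.inner_eq_ite i j
  rw [pc1_inner] at h1
  exact h1

private lemma pcU_orth' (b : OrthonormalBasis (Fin n) ℝ (Eu n)) : pcU b * (pcU b)ᵀ = 1 :=
  mul_eq_one_comm.mp (pcU_orth b)

private lemma pc1_diag [IsProbabilityMeasure ν] (hR : BS R ν)
    {b : OrthonormalBasis (Fin n) ℝ (Eu n)} {a : Fin n → ℝ} (hb : Eig ν b a) :
    (pcU b)ᵀ * Am ν * pcU b = Matrix.diagonal a := by
  ext i j
  have h1 := hb i j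
  rw [pc1_cv hR] at h1
  rw [Matrix.diagonal_apply, ← h1, Matrix.mul_apply]
  simp only [Matrix.mul_apply, Matrix.transpose_apply, pcU, Finset.sum_mul]
  rw [Finset.sum_comm]
  exact Finset.sum_congr rfl fun k _ => Finset.sum_congr rfl fun l _ => by ring

private lemma pc1_Am [IsProbabilityMeasure ν] (hR : BS R ν)
    {b : OrthonormalBasis (Fin n) ℝ (Eu n)} {a : Fin n → ℝ} (hb : Eig ν b a) :
    Am ν = pcU b * Matrix.diagonal a * (pcU b)ᵀ := by
  have h1 := pcU_orth' b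
  calc Am ν = (pcU b * (pcU b)ᵀ) * Am ν * (pcU b * (pcU b)ᵀ) := by rw [h1, one_mul, mul_one]
    _ = pcU b * ((pcU b)ᵀ * Am ν * pcU b) * (pcU b)ᵀ := by simp only [mul_assoc]
    _ = _ := by rw [pc1_diag hR hb]

private lemma pc1_nonneg [IsProbabilityMeasure ν] (hR : BS R ν)
    {b : OrthonormalBasis (Fin n) ℝ (Eu n)} {a : Fin n → ℝ} (hb : Eig ν b a) (i : Fin n) :
    0 ≤ a i := by
  have h1 := hb i i
  rw [if_pos rfl] at h1
  rw [← h1]
  have hc : Continuous fun x : Eu n => (inner ℝ x (b i) : ℝ) := by fun_prop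
  have h2 : Cv ν (fun x => inner ℝ x (b i)) (fun x => inner ℝ x (b i)) =
      ∫ x, (inner ℝ x (b i) - ∫ y, inner ℝ y (b i) ∂ν) ^ 2 ∂ν := by
    set m := ∫ y, inner ℝ y (b i) ∂ν with hm
    have e1 : ∀ x : Eu n, (inner ℝ x (b i) - m) ^ 2 =
        inner ℝ x (b i) * inner ℝ x (b i) - 2 * m * inner ℝ x (b i) + m ^ 2 := fun x => by ring
    simp only [e1]
    rw [integral_add (pc1_int hR (by fun_prop)) (pc1_int hR (by fun_prop)),
      integral_sub (pc1_int hR (by fun_prop)) (pc1_int hR (by fun_prop)), integral_const_mul,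
      ← hm]
    unfold Cv
    rw [← hm]
    simp
    ring
  rw [h2]
  exact integral_nonneg fun x => sq_nonneg _

/-- third cumulants with one index in the standard basis -/
private noncomputable def pcG (ν : Measure (Eu n)) (b : OrthonormalBasis (Fin n) ℝ (Eu n))
    (k i j : Fin n) : ℝ :=
  ∫ x, (x k - mn ν k) * (inner ℝ (x - mn ν) (b i) * inner ℝ (x - mn ν) (b j)) ∂ν

private lemma pc1_G [IsProbabilityMeasure ν] (hR : BS R ν)
    (b : OrthonormalBasis (Fin n) ℝ (Eu n)) (k : Fin n) :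
    (pcU b)ᵀ * Hm ν k * pcU b = Matrix.of fun i j => pcG ν b k i j := by
  ext i j
  rw [Matrix.of_apply]
  have e1 : ∀ x : Eu n, (x k - mn ν k) * (inner ℝ (x - mn ν) (b i) * inner ℝ (x - mn ν) (b j)) =
      ∑ p, ∑ q, b i p * ((x k - mn ν k) * ((x p - mn ν p) * (x q - mn ν q))) * b j q := by
    intro x
    rw [pc1_inner, pc1_inner, Finset.sum_mul_sum, Finset.mul_sum]
    refine Finset.sum_congr rfl fun p _ => ?_
    rw [Finset.mul_sum]
    refine Finset.sum_congr rfl fun q _ => ?_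
    simp only [PiLp.sub_apply]
    ring
  have h1 : pcG ν b k i j = ∑ p, ∑ q, b i p * Hm ν k p q * b j q := by
    unfold pcG Hm
    simp only [e1]
    rw [integral_finsetSum _ fun i _ => pc1_int hR (by fun_prop)]
    refine Finset.sum_congr rfl fun p _ => ?_
    rw [integral_finsetSum _ fun j _ => pc1_int hR (by fun_prop)]
    refine Finset.sum_congr rfl fun q _ => ?_
    rw [integral_mul_const, integral_const_mul]
  rw [h1, Matrix.mul_apply, Finset.sum_comm]
  refine Finset.sum_congr rfl fun q _ => ?_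
  rw [Matrix.mul_apply, Finset.sum_mul]
  rfl

private lemma pc1_T3 [IsProbabilityMeasure ν] (hR : BS R ν)
    (b : OrthonormalBasis (Fin n) ℝ (Eu n)) (l i j : Fin n) :
    T3 ν b l i j = ∑ k, b l k * pcG ν b k i j := by
  unfold T3 pcG
  have e1 : ∀ x : Eu n, inner ℝ (x - mn ν) (b l) *
      (inner ℝ (x - mn ν) (b i) * inner ℝ (x - mn ν) (b j)) =
      ∑ k, b l k * ((x k - mn ν k) *
        (inner ℝ (x - mn ν) (b i) * inner ℝ (x - mn ν) (b j))) := by
    intro x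
    rw [pc1_inner (x - mn ν) (b l), Finset.sum_mul]
    refine Finset.sum_congr rfl fun k _ => ?_
    simp only [PiLp.sub_apply]
    ring
  simp only [e1]
  rw [integral_finsetSum _ fun i _ => pc1_int hR (by fun_prop)]
  exact Finset.sum_congr rfl fun k _ => integral_const_mul _ _

/-- Parseval -/
private lemma pc1_pars [IsProbabilityMeasure ν] (hR : BS R ν)
    (b : OrthonormalBasis (Fin n) ℝ (Eu n)) (i j : Fin n) :
    ∑ k, pcG ν b k i j ^ 2 = ∑ l, T3 ν b l i j ^ 2 := by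
  set g : Fin n → ℝ := fun k => pcG ν b k i j with hg
  have h1 : ∀ l, T3 ν b l i j = ((pcU b)ᵀ *ᵥ g) l := by
    intro l
    rw [pc1_T3 hR]
    rfl
  have h2 : ∑ l, T3 ν b l i j ^ 2 = ((pcU b)ᵀ *ᵥ g) ⬝ᵥ ((pcU b)ᵀ *ᵥ g) := by
    unfold dotProduct
    exact Finset.sum_congr rfl fun l _ => by rw [h1, sq]
  rw [h2, Matrix.dotProduct_mulVec, Matrix.vecMul_transpose, Matrix.mulVec_mulVec, pcU_orth',
    Matrix.one_mulVec]
  unfold dotProduct
  exact Finset.sum_congr rfl fun l _ => by rw [sq]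

/-- conjugation by the basis matrix -/
private lemma pc1_trace_conj (b : OrthonormalBasis (Fin n) ℝ (Eu n)) (M : Mat n) :
    (pcU b * M * (pcU b)ᵀ).trace = M.trace := by
  rw [Matrix.trace_mul_comm, ← mul_assoc, pcU_orth, one_mul]

private lemma pc1_Z [IsProbabilityMeasure ν] (hR : BS R ν) (hτ : 0 < τ)
    {b : OrthonormalBasis (Fin n) ℝ (Eu n)} {a : Fin n → ℝ} (hb : Eig ν b a) {u : ℝ}
    (hu0 : 0 < u) :
    (τ • Am ν + u • (1 : Mat n))⁻¹ =
      pcU b * Matrix.diagonal (fun i => (τ * a i + u)⁻¹) * (pcU b)ᵀ := by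
  apply Matrix.inv_eq_left_inv
  have h1 : τ • Am ν + u • (1 : Mat n) =
      pcU b * Matrix.diagonal (fun i => τ * a i + u) * (pcU b)ᵀ := by
    have e1 : Matrix.diagonal (fun i => τ * a i + u) = τ • Matrix.diagonal a + u • (1 : Mat n) := by
      ext i j
      by_cases hij : i = j
      · subst hij; simp
      · simp [hij]
    rw [e1, mul_add, add_mul, mul_smul_comm, smul_mul_assoc, mul_smul_comm, smul_mul_assoc,
      ← pc1_Am hR hb, mul_one, pcU_orth']
  rw [h1]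
  have e2 : pcU b * Matrix.diagonal (fun i => (τ * a i + u)⁻¹) * (pcU b)ᵀ *
      (pcU b * Matrix.diagonal (fun i => τ * a i + u) * (pcU b)ᵀ) =
      pcU b * (Matrix.diagonal (fun i => (τ * a i + u)⁻¹) * ((pcU b)ᵀ * pcU b) *
        Matrix.diagonal (fun i => τ * a i + u)) * (pcU b)ᵀ := by
    simp only [mul_assoc]
  rw [e2, pcU_orth, mul_one, Matrix.diagonal_mul_diagonal]
  have e3 : (fun i => (τ * a i + u)⁻¹ * (τ * a i + u)) = fun _ => (1 : ℝ) := by
    funext i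
    have : 0 ≤ a i := pc1_nonneg hR hb i
    exact inv_mul_cancel₀ (by positivity)
  rw [e3, Matrix.diagonal_one, mul_one, pcU_orth']

private lemma pc1_conj_mul (b : OrthonormalBasis (Fin n) ℝ (Eu n)) (M N : Mat n) :
    pcU b * M * (pcU b)ᵀ * (pcU b * N * (pcU b)ᵀ) = pcU b * (M * N) * (pcU b)ᵀ := by
  have e2 : pcU b * M * (pcU b)ᵀ * (pcU b * N * (pcU b)ᵀ) =
      pcU b * (M * ((pcU b)ᵀ * pcU b) * N) * (pcU b)ᵀ := by
    simp only [mul_assoc]
  rw [e2, pcU_orth, mul_one]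

/-- the left-hand side in the eigenbasis -/
private lemma pc1_lhs [IsProbabilityMeasure ν] (hR : BS R ν) (hτ : 0 < τ)
    {b : OrthonormalBasis (Fin n) ℝ (Eu n)} {a : Fin n → ℝ} (hb : Eig ν b a)
    {u : ℝ} (hu0 : 0 < u) {A Z : Mat n} (hA : A = Am ν) (hZ : Z = (τ • A + u • 1)⁻¹) :
    1 / τ ^ 2 * ((A - τ • (A * A)).trace - u ^ 2 * (Z * Z * (A - τ • (A * A))).trace +
        u ^ 2 * τ ^ 2 * ∑ k, (Z * Z * Hm ν k * Z * Hm ν k).trace) -
      2 / τ ^ 3 * (τ * A.trace - n * u + u ^ 2 * Z.trace) =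
    - (1 / τ ^ 3 * ∑ p, (τ * a p) ^ 3 * (1 + τ * a p + 2 * u) / (τ * a p + u) ^ 2) +
      u ^ 2 * ∑ i, ∑ j, ∑ l, T3 ν b l i j ^ 2 / ((τ * a i + u) ^ 2 * (τ * a j + u)) := by
  have ha : ∀ i, 0 ≤ a i := pc1_nonneg hR hb
  have hpos : ∀ i, 0 < τ * a i + u := fun i => by
    have := ha i
    positivity
  have hA' : A = pcU b * Matrix.diagonal a * (pcU b)ᵀ := by rw [hA]; exact pc1_Am hR hb
  have hZ' : Z = pcU b * Matrix.diagonal (fun i => (τ * a i + u)⁻¹) * (pcU b)ᵀ := by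
    rw [hZ, hA]; exact pc1_Z hR hτ hb hu0
  have hAA : A * A = pcU b * Matrix.diagonal (fun i => a i * a i) * (pcU b)ᵀ := by
    rw [hA', pc1_conj_mul, Matrix.diagonal_mul_diagonal]
  have hZZ : Z * Z = pcU b * Matrix.diagonal (fun i => (τ * a i + u)⁻¹ * (τ * a i + u)⁻¹) *
      (pcU b)ᵀ := by
    rw [hZ', pc1_conj_mul, Matrix.diagonal_mul_diagonal]
  have hD : A - τ • (A * A) = pcU b * Matrix.diagonal (fun i => a i - τ * (a i * a i)) *
      (pcU b)ᵀ := by
    have e1 : Matrix.diagonal (fun i => a i - τ * (a i * a i)) =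
        Matrix.diagonal a - τ • Matrix.diagonal (fun i => a i * a i) := by
      ext i j
      by_cases hij : i = j
      · subst hij; simp
      · simp [hij]
    rw [hAA, e1, mul_sub, sub_mul, mul_smul_comm, smul_mul_assoc, ← hA']
  have t1 : A.trace = ∑ i, a i := by rw [hA', pc1_trace_conj, Matrix.trace_diagonal]
  have t2 : Z.trace = ∑ i, (τ * a i + u)⁻¹ := by rw [hZ', pc1_trace_conj, Matrix.trace_diagonal]
  have t3 : (A - τ • (A * A)).trace = ∑ i, (a i - τ * (a i * a i)) := by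
    rw [hD, pc1_trace_conj, Matrix.trace_diagonal]
  have t4 : (Z * Z * (A - τ • (A * A))).trace =
      ∑ i, (τ * a i + u)⁻¹ * (τ * a i + u)⁻¹ * (a i - τ * (a i * a i)) := by
    rw [hZZ, hD, pc1_conj_mul, Matrix.diagonal_mul_diagonal, pc1_trace_conj,
      Matrix.trace_diagonal]
  have t5 : ∀ k, (Z * Z * Hm ν k * Z * Hm ν k).trace =
      ∑ i, ∑ j, (τ * a i + u)⁻¹ * (τ * a i + u)⁻¹ * (τ * a j + u)⁻¹ * pcG ν b k i j ^ 2 := by
    intro k
    have hG := pc1_G hR b k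
    have e1 : Z * Z * Hm ν k * Z * Hm ν k =
        pcU b * (Matrix.diagonal (fun i => (τ * a i + u)⁻¹ * (τ * a i + u)⁻¹) *
          ((pcU b)ᵀ * Hm ν k * pcU b) * Matrix.diagonal (fun i => (τ * a i + u)⁻¹) *
            ((pcU b)ᵀ * Hm ν k * pcU b)) * (pcU b)ᵀ := by
      rw [hZZ, hZ']
      have h1 : Hm ν k = Hm ν k * (pcU b * (pcU b)ᵀ) := by rw [pcU_orth', mul_one]
      conv_lhs => rw [h1]
      have h2 : ∀ X Y : Mat n, pcU b * X * (pcU b)ᵀ * Hm ν k * (pcU b * (pcU b)ᵀ) *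
          (pcU b * Y * (pcU b)ᵀ) * (Hm ν k * (pcU b * (pcU b)ᵀ)) =
          pcU b * (X * ((pcU b)ᵀ * Hm ν k * pcU b) * ((pcU b)ᵀ * pcU b) * Y *
            ((pcU b)ᵀ * Hm ν k * pcU b)) * (pcU b)ᵀ := by
        intro X Y
        simp only [mul_assoc]
      rw [← mul_assoc (pcU b * Matrix.diagonal _ * (pcU b)ᵀ) (Hm ν k)]
      rw [h2, pcU_orth, mul_one]
    rw [e1, pc1_trace_conj, hG]
    simp only [Matrix.trace, Matrix.diag_apply]
    refine Finset.sum_congr rfl fun i _ => ?_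
    rw [Matrix.mul_apply]
    refine Finset.sum_congr rfl fun j _ => ?_
    rw [Matrix.mul_diagonal, Matrix.diagonal_mul, Matrix.of_apply, Matrix.of_apply]
    have hs : pcG ν b k j i = pcG ν b k i j := by
      unfold pcG
      refine integral_congr_ae (Eventually.of_forall fun x => ?_)
      simp only
      ring
    rw [hs]
    ring
  have t6 : ∑ k, (Z * Z * Hm ν k * Z * Hm ν k).trace =
      ∑ i, ∑ j, ∑ l, T3 ν b l i j ^ 2 / ((τ * a i + u) ^ 2 * (τ * a j + u)) := by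
    simp only [t5]
    rw [Finset.sum_comm]
    refine Finset.sum_congr rfl fun i _ => ?_
    rw [Finset.sum_comm]
    refine Finset.sum_congr rfl fun j _ => ?_
    rw [← Finset.mul_sum, pc1_pars hR, Finset.mul_sum]
    refine Finset.sum_congr rfl fun l _ => ?_
    have h1 := (hpos i).ne'
    have h2 := (hpos j).ne'
    field_simp
  rw [t1, t2, t3, t4, t6]
  have hpt : ∀ i, 1 / τ ^ 2 * ((a i - τ * (a i * a i)) -
      u ^ 2 * ((τ * a i + u)⁻¹ * (τ * a i + u)⁻¹ * (a i - τ * (a i * a i)))) -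
      2 / τ ^ 3 * (τ * a i - u + u ^ 2 * (τ * a i + u)⁻¹) =
      - (1 / τ ^ 3 * ((τ * a i) ^ 3 * (1 + τ * a i + 2 * u) / (τ * a i + u) ^ 2)) := by
    intro i
    have h1 := (hpos i).ne'
    field_simp
    ring
  have hs := Finset.sum_congr (rfl : (Finset.univ : Finset (Fin n)) = Finset.univ)
    (fun i _ => hpt i)
  simp only [Finset.sum_sub_distrib, Finset.sum_add_distrib, Finset.sum_neg_distrib,
    ← Finset.mul_sum, Finset.sum_const, Finset.card_univ, Fintype.card_fin, nsmul_eq_mul] at hs ⊢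
  set S : ℝ := ∑ i, ∑ j, ∑ l, T3 ν b l i j ^ 2 / ((τ * a i + u) ^ 2 * (τ * a j + u)) with hS
  rw [← hs]
  field_simp
  ring


/-- the polynomial inequality -/
private lemma ei_poly {α β : ℝ} (hα : 1 ≤ α) (hαβ : α ≤ β) :
    (α + β - 2) * (α ^ 2 + α * β + β ^ 2) ≤ α ^ 2 * β ^ 3 := by
  obtain ⟨s, rfl⟩ : ∃ s, α = 1 + s := ⟨α - 1, by ring⟩
  obtain ⟨t, rfl⟩ : ∃ t, β = 1 + s + t := ⟨β - (1 + s), by ring⟩
  have hs : 0 ≤ s := by linarith
  have ht : 0 ≤ t := by linarith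
  have h0 : 0 ≤ 1 - 3 * s + 3 * s ^ 2 + s ^ 3 := by nlinarith [mul_nonneg hs (sq_nonneg (s - 1/2)), sq_nonneg (s - 1/2)]
  have e : (1 + s) ^ 2 * (1 + s + t) ^ 3 -
      ((1 + s) + (1 + s + t) - 2) * ((1 + s) ^ 2 + (1 + s) * (1 + s + t) + (1 + s + t) ^ 2) =
      (1 + s) ^ 2 * (1 - 3 * s + 3 * s ^ 2 + s ^ 3) + t * (3 * (1 + s) * (3 * s ^ 2 + s ^ 3)) +
      t ^ 2 * (4 * s + 9 * s ^ 2 + 3 * s ^ 3) + t ^ 3 * (2 * s + s ^ 2) := by ring
  have h1 : 0 ≤ (1 + s) ^ 2 * (1 - 3 * s + 3 * s ^ 2 + s ^ 3) := by positivity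
  have h2 : 0 ≤ t * (3 * (1 + s) * (3 * s ^ 2 + s ^ 3)) := by positivity
  have h3 : 0 ≤ t ^ 2 * (4 * s + 9 * s ^ 2 + 3 * s ^ 3) := by positivity
  have h4 : 0 ≤ t ^ 3 * (2 * s + s ^ 2) := by positivity
  linarith

private lemma ei_one {α β γ : ℝ} (hα : 1 ≤ α) (hαβ : α ≤ β) (hβγ : β ≤ γ) :
    (α + β - 2) / 2 * ((α + β) / (α ^ 2 * β ^ 2) + (γ + α) / (γ ^ 2 * α ^ 2) +
      (γ + β) / (γ ^ 2 * β ^ 2)) ≤ 1 := by
  have hβ : 1 ≤ β := hα.trans hαβ
  have hγ : 1 ≤ γ := hβ.trans hβγ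
  have hα0 : 0 < α := by linarith
  have hβ0 : 0 < β := by linarith
  have hγ0 : 0 < γ := by linarith
  have key : ∀ δ : ℝ, 0 < δ → (γ + δ) / (γ ^ 2 * δ ^ 2) ≤ (β + δ) / (β ^ 2 * δ ^ 2) := by
    intro δ hδ
    have e1 : ∀ c : ℝ, 0 < c → (c + δ) / (c ^ 2 * δ ^ 2) = 1 / (c * δ ^ 2) + 1 / (c ^ 2 * δ) := by
      intro c hc
      field_simp
    rw [e1 γ hγ0, e1 β hβ0]
    gcongr
  have h1 := key α hα0
  have h2 := key β hβ0
  have h3 : (α + β) / (α ^ 2 * β ^ 2) + (β + α) / (β ^ 2 * α ^ 2) + (β + β) / (β ^ 2 * β ^ 2) =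
      2 * (α ^ 2 + α * β + β ^ 2) / (α ^ 2 * β ^ 3) := by
    field_simp
    ring
  have h4 : 0 ≤ (α + β - 2) / 2 := by linarith
  calc _ ≤ (α + β - 2) / 2 * ((α + β) / (α ^ 2 * β ^ 2) + (β + α) / (β ^ 2 * α ^ 2) +
      (β + β) / (β ^ 2 * β ^ 2)) := by gcongr
    _ = ((α + β - 2) * (α ^ 2 + α * β + β ^ 2)) / (α ^ 2 * β ^ 3) := by rw [h3]; ring
    _ ≤ 1 := by
      rw [div_le_one (by positivity)]
      exact ei_poly hα hαβ

private lemma ei_six {α β γ : ℝ} (hα : 1 ≤ α) (hβ : 1 ≤ β) (hαγ : α ≤ γ) (hβγ : β ≤ γ) :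
    (α + β - 2) / 2 * ((α + β) / (α ^ 2 * β ^ 2) + (γ + α) / (γ ^ 2 * α ^ 2) +
      (γ + β) / (γ ^ 2 * β ^ 2)) ≤ 6 * (γ - 1) := by
  have hγ : 1 ≤ γ := hβ.trans hβγ
  have key : ∀ c δ : ℝ, 1 ≤ c → 1 ≤ δ → (c + δ) / (c ^ 2 * δ ^ 2) ≤ 2 := by
    intro c δ hc hδ
    rw [div_le_iff₀ (by positivity)]
    have h1 : c ≤ c ^ 2 * δ ^ 2 := by
      have : 1 ≤ c * δ ^ 2 := one_le_mul_of_one_le_of_one_le hc (one_le_pow₀ hδ)
      nlinarith
    have h2 : δ ≤ c ^ 2 * δ ^ 2 := by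
      have : 1 ≤ c ^ 2 * δ := one_le_mul_of_one_le_of_one_le (one_le_pow₀ hc) hδ
      nlinarith
    linarith
  have h1 := key α β hα hβ
  have h2 := key γ α hγ hα
  have h3 := key γ β hγ hβ
  have h4 : 0 ≤ (α + β - 2) / 2 := by linarith
  have h5 : (α + β - 2) / 2 ≤ γ - 1 := by linarith
  have h6 : 0 ≤ (α + β) / (α ^ 2 * β ^ 2) + (γ + α) / (γ ^ 2 * α ^ 2) +
      (γ + β) / (γ ^ 2 * β ^ 2) := by positivity
  calc _ ≤ (γ - 1) * 6 := by
        apply mul_le_mul h5 (by linarith) h6 (by linarith)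
    _ = _ := by ring

/-- `F'` -/
private noncomputable def pcF (u a b : ℝ) : ℝ := u ^ 2 * (a + b + 2 * u) / ((a + u) ^ 2 * (b + u) ^ 2)

private lemma pcF_comm (u a b : ℝ) : pcF u a b = pcF u b a := by
  unfold pcF
  rw [add_comm a b, mul_comm ((a + u) ^ 2)]

private lemma pcF_nonneg {u a b : ℝ} (hu : 0 < u) (ha : 0 ≤ a) (hb : 0 ≤ b) : 0 ≤ pcF u a b := by
  unfold pcF; positivity

private lemma ei_main {u x m M : ℝ} (hu : 0 < u) (hm : 0 ≤ m) (hM : 0 ≤ M) (hmx : m ≤ x)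
    (hMx : M ≤ x) :
    (pcF u m M + pcF u x m + pcF u x M) / 2 * (m + M) ≤ min 1 (6 * x / u) := by
  have hsc : ∀ a b : ℝ, 0 ≤ a → 0 ≤ b → pcF u a b =
      1 / u * ((1 + a / u + (1 + b / u)) / ((1 + a / u) ^ 2 * (1 + b / u) ^ 2)) := by
    intro a b ha hb
    have h1 : 1 + a / u = (a + u) / u := by field_simp; ring
    have h2 : 1 + b / u = (b + u) / u := by field_simp; ring
    unfold pcF
    rw [h1, h2]
    have h3 : a + u ≠ 0 := by positivity
    have h4 : b + u ≠ 0 := by positivity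
    field_simp
    ring
  have hx : 0 ≤ x := hm.trans hmx
  set α : ℝ := 1 + m / u with hα
  set β : ℝ := 1 + M / u with hβ
  set γ : ℝ := 1 + x / u with hγ
  have hα1 : 1 ≤ α := by rw [hα]; have : 0 ≤ m / u := by positivity
                         linarith
  have hβ1 : 1 ≤ β := by rw [hβ]; have : 0 ≤ M / u := by positivity
                         linarith
  have hαγ : α ≤ γ := by rw [hα, hγ]; gcongr
  have hβγ : β ≤ γ := by rw [hβ, hγ]; gcongr
  have e1 : (pcF u m M + pcF u x m + pcF u x M) / 2 * (m + M) =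
      (α + β - 2) / 2 * ((α + β) / (α ^ 2 * β ^ 2) + (γ + α) / (γ ^ 2 * α ^ 2) +
      (γ + β) / (γ ^ 2 * β ^ 2)) := by
    rw [hsc m M hm hM, hsc x m hx hm, hsc x M hx hM, ← hα, ← hβ, ← hγ]
    have h5 : m + M = u * (α + β - 2) := by rw [hα, hβ]; field_simp; ring
    rw [h5]
    field_simp
  rw [e1]
  apply le_min
  · rcases le_total α β with h | h
    · exact ei_one hα1 h hβγ
    · have := ei_one hβ1 h hαγ
      have e2 : (β + α - 2) / 2 * ((β + α) / (β ^ 2 * α ^ 2) + (γ + β) / (γ ^ 2 * β ^ 2) +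
        (γ + α) / (γ ^ 2 * α ^ 2)) = (α + β - 2) / 2 * ((α + β) / (α ^ 2 * β ^ 2) +
        (γ + α) / (γ ^ 2 * α ^ 2) + (γ + β) / (γ ^ 2 * β ^ 2)) := by
        rw [add_comm β α, mul_comm (β ^ 2) (α ^ 2)]
        ring
      rw [e2] at this
      exact this
  · refine (ei_six hα1 hβ1 hαγ hβγ).trans_eq ?_
    rw [hγ]
    ring

/-- symmetrisation -/
private lemma pc1_sym {n : ℕ} (t : Fin n → Fin n → Fin n → ℝ) (t0 : ∀ i j l, 0 ≤ t i j l)
    (t1 : ∀ i j l, t i j l = t j i l) (t2 : ∀ i j l, t i j l = t i l j) (x : Fin n → ℝ)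
    (hx : ∀ i, 0 ≤ x i) {u : ℝ} (hu : 0 < u) :
    u ^ 2 * ∑ i, ∑ j, ∑ l, t i j l / ((x i + u) ^ 2 * (x j + u)) ≤
      ∑ p, ∑ i, ∑ j, (if x i ≤ x p ∧ x j ≤ x p then
        (pcF u (x i) (x j) + pcF u (x p) (x i) + pcF u (x p) (x j)) / 2 else 0) * t p i j := by
  set g : Fin n → Fin n → ℝ := fun i j => u ^ 2 / ((x i + u) ^ 2 * (x j + u)) with hg
  have hgF : ∀ i j, g i j + g j i = pcF u (x i) (x j) := by
    intro i j
    have h1 : x i + u ≠ 0 := by have := hx i; positivity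
    have h2 : x j + u ≠ 0 := by have := hx j; positivity
    simp only [hg, pcF]
    field_simp
    ring
  -- rewriting of the sum
  have hS : u ^ 2 * ∑ i, ∑ j, ∑ l, t i j l / ((x i + u) ^ 2 * (x j + u)) =
      ∑ i, ∑ j, ∑ l, t i j l * g i j := by
    simp only [Finset.mul_sum]
    refine Finset.sum_congr rfl fun i _ => Finset.sum_congr rfl fun j _ =>
      Finset.sum_congr rfl fun l _ => ?_
    simp only [hg]
    ring
  have swap : ∀ f : Fin n → Fin n → Fin n → ℝ,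
      ∑ i, ∑ j, ∑ l, f i j l = ∑ i, ∑ j, ∑ l, f j i l := fun f => Finset.sum_comm
  have swap2 : ∀ f : Fin n → Fin n → Fin n → ℝ,
      ∑ i, ∑ j, ∑ l, f i j l = ∑ i, ∑ j, ∑ l, f i l j := fun f =>
    Finset.sum_congr rfl fun i _ => Finset.sum_comm
  have hS2 : ∑ i, ∑ j, ∑ l, t i j l * g i j = ∑ i, ∑ j, ∑ l, t i j l * g j i := by
    rw [swap]
    refine Finset.sum_congr rfl fun i _ => Finset.sum_congr rfl fun j _ =>
      Finset.sum_congr rfl fun l _ => ?_
    rw [t1]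
  have hA : 2 * ∑ i, ∑ j, ∑ l, t i j l * g i j = ∑ i, ∑ j, ∑ l, t i j l * pcF u (x i) (x j) := by
    rw [two_mul]
    nth_rw 2 [hS2]
    simp only [← Finset.sum_add_distrib, ← mul_add, hgF]
  have hB : ∑ i, ∑ j, ∑ l, t i j l * pcF u (x i) (x j) =
      ∑ i, ∑ j, ∑ l, t i j l * pcF u (x i) (x l) := by
    rw [swap2]
    refine Finset.sum_congr rfl fun i _ => Finset.sum_congr rfl fun j _ =>
      Finset.sum_congr rfl fun l _ => ?_
    rw [t2]
  have hC : ∑ i, ∑ j, ∑ l, t i j l * pcF u (x i) (x l) =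
      ∑ i, ∑ j, ∑ l, t i j l * pcF u (x j) (x l) := by
    rw [swap]
    refine Finset.sum_congr rfl fun i _ => Finset.sum_congr rfl fun j _ =>
      Finset.sum_congr rfl fun l _ => ?_
    rw [t1]
  set W : Fin n → Fin n → Fin n → ℝ := fun i j l =>
    pcF u (x j) (x l) + pcF u (x i) (x j) + pcF u (x i) (x l) with hW
  have hD : 6 * ∑ i, ∑ j, ∑ l, t i j l * g i j = ∑ i, ∑ j, ∑ l, t i j l * W i j l := by
    have e1 : ∑ i, ∑ j, ∑ l, t i j l * W i j l =
        ∑ i, ∑ j, ∑ l, t i j l * pcF u (x j) (x l) + ∑ i, ∑ j, ∑ l, t i j l * pcF u (x i) (x j) +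
        ∑ i, ∑ j, ∑ l, t i j l * pcF u (x i) (x l) := by
      simp only [hW, mul_add, Finset.sum_add_distrib]
    rw [e1, ← hC, ← hB, ← hA]
    ring
  set w : Fin n → Fin n → Fin n → ℝ := fun p i j =>
    if x i ≤ x p ∧ x j ≤ x p then W p i j else 0 with hw
  have hW0 : ∀ i j l, 0 ≤ W i j l := fun i j l => by
    have h1 := pcF_nonneg hu (hx j) (hx l)
    have h2 := pcF_nonneg hu (hx i) (hx j)
    have h3 := pcF_nonneg hu (hx i) (hx l)
    simp only [hW]
    linarith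
  have hw0 : ∀ i j l, 0 ≤ w i j l := fun i j l => by
    simp only [hw]
    split_ifs
    · exact hW0 i j l
    · exact le_rfl
  have hW1 : ∀ i j l, W j i l = W i j l := fun i j l => by
    simp only [hW]
    rw [pcF_comm u (x j) (x i)]
    ring
  have hW2 : ∀ i j l, W l i j = W i j l := fun i j l => by
    simp only [hW]
    rw [pcF_comm u (x l) (x i), pcF_comm u (x l) (x j)]
    ring
  have hpt : ∀ i j l, t i j l * W i j l ≤ t i j l * w i j l + t i j l * w j i l +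
      t i j l * w l i j := by
    intro i j l
    have h1 := t0 i j l
    have k1 := mul_nonneg h1 (hw0 i j l)
    have k2 := mul_nonneg h1 (hw0 j i l)
    have k3 := mul_nonneg h1 (hw0 l i j)
    rcases le_total (x i) (x j) with hij | hij
    · rcases le_total (x j) (x l) with hjl | hjl
      · have : w l i j = W i j l := by
          simp only [hw]
          rw [if_pos ⟨hij.trans hjl, hjl⟩, hW2]
        rw [this]; linarith
      · have : w j i l = W i j l := by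
          simp only [hw]
          rw [if_pos ⟨hij, hjl⟩, hW1]
        rw [this]; linarith
    · rcases le_total (x i) (x l) with hil | hil
      · have : w l i j = W i j l := by
          simp only [hw]
          rw [if_pos ⟨hil, hij.trans hil⟩, hW2]
        rw [this]; linarith
      · have : w i j l = W i j l := by
          simp only [hw]
          rw [if_pos ⟨hij, hil⟩]
        rw [this]; linarith
  have hE1 : ∑ i, ∑ j, ∑ l, t i j l * w j i l = ∑ i, ∑ j, ∑ l, t i j l * w i j l := by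
    rw [swap]
    refine Finset.sum_congr rfl fun i _ => Finset.sum_congr rfl fun j _ =>
      Finset.sum_congr rfl fun l _ => ?_
    rw [t1]
  have hE2 : ∑ i, ∑ j, ∑ l, t i j l * w l i j = ∑ i, ∑ j, ∑ l, t i j l * w i j l := by
    rw [swap2, swap]
    refine Finset.sum_congr rfl fun i _ => Finset.sum_congr rfl fun j _ =>
      Finset.sum_congr rfl fun l _ => ?_
    rw [t2 j l i, t1 j i l]
  have hF : 6 * ∑ i, ∑ j, ∑ l, t i j l * g i j ≤ 3 * ∑ i, ∑ j, ∑ l, t i j l * w i j l := by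
    rw [hD]
    calc ∑ i, ∑ j, ∑ l, t i j l * W i j l
        ≤ ∑ i, ∑ j, ∑ l, (t i j l * w i j l + t i j l * w j i l + t i j l * w l i j) :=
          Finset.sum_le_sum fun i _ => Finset.sum_le_sum fun j _ => Finset.sum_le_sum fun l _ =>
            hpt i j l
      _ = _ := by
          simp only [Finset.sum_add_distrib]
          rw [hE1, hE2]
          ring
  rw [hS]
  have hG : ∑ p, ∑ i, ∑ j, (if x i ≤ x p ∧ x j ≤ x p then
        (pcF u (x i) (x j) + pcF u (x p) (x i) + pcF u (x p) (x j)) / 2 else 0) * t p i j =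
      (1 / 2) * ∑ i, ∑ j, ∑ l, t i j l * w i j l := by
    simp only [Finset.mul_sum]
    refine Finset.sum_congr rfl fun i _ => Finset.sum_congr rfl fun j _ =>
      Finset.sum_congr rfl fun l _ => ?_
    simp only [hw, hW]
    split_ifs
    · ring
    · ring
  rw [hG]
  linarith

/-- C1: the drift of the functional of step I at a single state (from B2 for this measure) -/
theorem step1_point_of (hν : IsProbabilityMeasure ν) (hR : BS R ν) (hτ : 0 < τ)
    {b : OrthonormalBasis (Fin n) ℝ (Eu n)} {a : Fin n → ℝ} (hb : Eig ν b a)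
    (htb : ∀ (p : Fin n) {w : Fin n → Fin n → ℝ}, (∀ i j, 0 ≤ w i j) → (∀ i j, w i j = w j i) →
      (∀ i j, a p < a i → w i j = 0) → ∀ {β : ℝ}, 0 ≤ β →
      (∀ i j, w i j * (τ * a i + τ * a j) ≤ β) →
      ∑ i, ∑ j, w i j * T3 ν b p i j ^ 2 ≤ 2 * (τ * a p) * kap (τ * a p) * β / τ ^ 3)
    {u : ℝ} (hu0 : 0 < u) {A Z : Mat n} (hA : A = Am ν) (hZ : Z = (τ • A + u • 1)⁻¹) :
    1 / τ ^ 2 * ((A - τ • (A * A)).trace - u ^ 2 * (Z * Z * (A - τ • (A * A))).trace +
        u ^ 2 * τ ^ 2 * ∑ k, (Z * Z * Hm ν k * Z * Hm ν k).trace) -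
      2 / τ ^ 3 * (τ * A.trace - n * u + u ^ 2 * Z.trace) ≤
    - (1 / τ ^ 3 * ∑ p, ((τ * a p) ^ 3 * (1 + τ * a p + 2 * u) / (τ * a p + u) ^ 2 -
      2 * (τ * a p) * kap (τ * a p) * min 1 (6 * (τ * a p) / u))) := by
  rw [pc1_lhs hR hτ hb hu0 hA hZ]
  have ha : ∀ i, 0 ≤ a i := pc1_nonneg hR hb
  have hx : ∀ i, 0 ≤ τ * a i := fun i => mul_nonneg hτ.le (ha i)
  have hT1 : ∀ l i j, T3 ν b l i j = T3 ν b i l j := by
    intro l i j
    unfold T3
    refine integral_congr_ae (Eventually.of_forall fun x => ?_)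
    simp only
    ring
  have hT2 : ∀ l i j, T3 ν b l i j = T3 ν b l j i := by
    intro l i j
    unfold T3
    refine integral_congr_ae (Eventually.of_forall fun x => ?_)
    simp only
    ring
  have h1 := pc1_sym (fun i j l => T3 ν b l i j ^ 2) (fun i j l => sq_nonneg _)
    (fun i j l => by rw [hT2]) (fun i j l => by rw [hT1 l i j, hT2, hT1])
    (fun i => τ * a i) hx hu0
  have h2 : ∀ p, ∑ i, ∑ j, (if τ * a i ≤ τ * a p ∧ τ * a j ≤ τ * a p then
        (pcF u (τ * a i) (τ * a j) + pcF u (τ * a p) (τ * a i) + pcF u (τ * a p) (τ * a j)) / 2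
        else 0) * T3 ν b j p i ^ 2 ≤
      2 * (τ * a p) * kap (τ * a p) * min 1 (6 * (τ * a p) / u) / τ ^ 3 := by
    intro p
    have h3 := htb p (w := fun i j => if τ * a i ≤ τ * a p ∧ τ * a j ≤ τ * a p then
        (pcF u (τ * a i) (τ * a j) + pcF u (τ * a p) (τ * a i) + pcF u (τ * a p) (τ * a j)) / 2
        else 0) ?_ ?_ ?_ (β := min 1 (6 * (τ * a p) / u)) ?_ ?_
    · refine le_trans (le_of_eq ?_) h3
      refine Finset.sum_congr rfl fun i _ => Finset.sum_congr rfl fun j _ => ?_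
      rw [hT1 j p i, hT2 p j i]
    · intro i j
      have k1 := pcF_nonneg hu0 (hx i) (hx j)
      have k2 := pcF_nonneg hu0 (hx p) (hx i)
      have k3 := pcF_nonneg hu0 (hx p) (hx j)
      split_ifs
      · linarith
      · exact le_rfl
    · intro i j
      rw [pcF_comm u (τ * a i) (τ * a j)]
      by_cases h4 : τ * a i ≤ τ * a p ∧ τ * a j ≤ τ * a p
      · rw [if_pos h4, if_pos h4.symm]
        ring
      · rw [if_neg h4, if_neg fun h5 => h4 h5.symm]
    · intro i j hij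
      rw [if_neg]
      rintro ⟨h4, -⟩
      exact absurd (mul_lt_mul_of_pos_left hij hτ) (not_lt.2 h4)
    · exact le_min zero_le_one (by have := hx p; positivity)
    · intro i j
      split_ifs with h4
      · exact ei_main hu0 (hx i) (hx j) h4.1 h4.2
      · rw [zero_mul]
        exact le_min zero_le_one (by have := hx p; positivity)
  have h5 : u ^ 2 * ∑ i, ∑ j, ∑ l, T3 ν b l i j ^ 2 / ((τ * a i + u) ^ 2 * (τ * a j + u)) ≤
      ∑ p, 2 * (τ * a p) * kap (τ * a p) * min 1 (6 * (τ * a p) / u) / τ ^ 3 :=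
    h1.trans (Finset.sum_le_sum fun p _ => h2 p)
  have h6 : - (1 / τ ^ 3 * ∑ p, ((τ * a p) ^ 3 * (1 + τ * a p + 2 * u) / (τ * a p + u) ^ 2 -
      2 * (τ * a p) * kap (τ * a p) * min 1 (6 * (τ * a p) / u))) =
      - (1 / τ ^ 3 * ∑ p, (τ * a p) ^ 3 * (1 + τ * a p + 2 * u) / (τ * a p + u) ^ 2) +
      ∑ p, 2 * (τ * a p) * kap (τ * a p) * min 1 (6 * (τ * a p) / u) / τ ^ 3 := by
    rw [Finset.sum_sub_distrib, ← Finset.sum_div]
    ring
  rw [h6]
  linarith

end Pool.Agent.Lib.MP_6d896a_gt.LG
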