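import Mathlib
import Pool.Agent.Lib.MP_6d896a_gt.LG.Chain

/-!
The atoms of the calculus: integrals of fixed functions against the tilted measures, and the
matrix factor.
-/

set_option autoImplicit false

namespace Pool.Agent.Lib.MP_6d896a_gt.LG

open MeasureTheory Filter Topology Set Matrix
open scoped ENNReal NNReal

variable {n : ℕ} {μ ν : Measure (Eu n)} {R B T η : ℝ}

/-! ### the exponential expansion -/

private lemma atoms_exp3 (z : ℝ) : |Real.exp z - 1 - z - z ^ 2 / 2| ≤ |z| ^ 3 * Real.exp |z| := by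
  have h := Complex.norm_exp_sub_sum_le_norm_mul_exp (z : ℂ) 3
  have e1 : Complex.exp z - ∑ m ∈ Finset.range 3, (z : ℂ) ^ m / (m.factorial : ℂ) =
      ((Real.exp z - 1 - z - z ^ 2 / 2 : ℝ) : ℂ) := by
    simp [Finset.sum_range_succ, Nat.factorial]
    ring
  rw [e1, Complex.norm_real, Complex.norm_real, Real.norm_eq_abs, Real.norm_eq_abs] at h
  exact h

private lemma atoms_w {L a r d : ℝ} (ha : |a| ≤ L) (hr0 : 0 ≤ r) (hr : r ≤ L) (hd : 0 ≤ d)
    (hd1 : d ≤ 1) : |Real.exp (d * a - d ^ 2 / 2 * r) - (1 + d * a + d ^ 2 * ((a ^ 2 - r) / 2))| ≤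
      (8 * L ^ 3 * Real.exp (2 * L) + L ^ 2) * d ^ 3 := by
  have hL : 0 ≤ L := (abs_nonneg a).trans ha
  set z := d * a - d ^ 2 / 2 * r with hz
  have hd2 : d ^ 2 ≤ d := by nlinarith
  have hz1 : |z| ≤ 2 * L * d := by
    have h1 : |d * a| ≤ d * L := by
      rw [abs_mul, abs_of_nonneg hd]
      exact mul_le_mul_of_nonneg_left ha hd
    have h2 : |d ^ 2 / 2 * r| ≤ d * L := by
      rw [abs_of_nonneg (by positivity)]
      have : d ^ 2 / 2 * r ≤ d ^ 2 * r := by
        have : 0 ≤ d ^ 2 * r := by positivity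
        nlinarith
      refine this.trans ?_
      exact mul_le_mul hd2 hr hr0 hd
    calc |z| ≤ |d * a| + |d ^ 2 / 2 * r| := abs_sub _ _
      _ ≤ 2 * L * d := by linarith
  have hz2 : |z| ≤ 2 * L := hz1.trans (by nlinarith)
  have h3 := atoms_exp3 z
  have h4 : |z| ^ 3 * Real.exp |z| ≤ 8 * L ^ 3 * Real.exp (2 * L) * d ^ 3 := by
    have h5 : |z| ^ 3 ≤ (2 * L * d) ^ 3 := pow_le_pow_left₀ (abs_nonneg _) hz1 3
    have h6 : Real.exp |z| ≤ Real.exp (2 * L) := Real.exp_le_exp.mpr hz2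
    calc |z| ^ 3 * Real.exp |z| ≤ (2 * L * d) ^ 3 * Real.exp (2 * L) :=
          mul_le_mul h5 h6 (Real.exp_pos _).le (by positivity)
      _ = _ := by ring
  have h7 : |z + z ^ 2 / 2 - d * a - d ^ 2 * ((a ^ 2 - r) / 2)| ≤ L ^ 2 * d ^ 3 := by
    have e : z + z ^ 2 / 2 - d * a - d ^ 2 * ((a ^ 2 - r) / 2) =
        - (d ^ 3 * (a * r) / 2) + d ^ 4 * r ^ 2 / 8 := by
      rw [hz]; ring
    rw [e]
    have h8 : |-(d ^ 3 * (a * r) / 2)| ≤ d ^ 3 * L ^ 2 / 2 := by
      rw [abs_neg, abs_div, abs_mul, abs_mul, abs_of_nonneg (pow_nonneg hd 3),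
        abs_of_nonneg hr0, abs_of_pos (by norm_num : (0 : ℝ) < 2)]
      have : |a| * r ≤ L ^ 2 := by
        rw [sq]
        exact mul_le_mul ha hr hr0 hL
      have := mul_le_mul_of_nonneg_left this (pow_nonneg hd 3)
      linarith
    have h9 : |d ^ 4 * r ^ 2 / 8| ≤ d ^ 3 * L ^ 2 / 8 := by
      rw [abs_of_nonneg (by positivity)]
      have h10 : d ^ 4 ≤ d ^ 3 := pow_le_pow_of_le_one hd hd1 (by norm_num)
      have h11 : r ^ 2 ≤ L ^ 2 := pow_le_pow_left₀ hr0 hr 2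
      have := mul_le_mul h10 h11 (by positivity) (by positivity)
      linarith
    have h12 : 0 ≤ d ^ 3 * L ^ 2 := by positivity
    calc |-(d ^ 3 * (a * r) / 2) + d ^ 4 * r ^ 2 / 8| ≤ _ := abs_add_le _ _
      _ ≤ L ^ 2 * d ^ 3 := by linarith
  have e2 : Real.exp z - (1 + d * a + d ^ 2 * ((a ^ 2 - r) / 2)) =
      (Real.exp z - 1 - z - z ^ 2 / 2) + (z + z ^ 2 / 2 - d * a - d ^ 2 * ((a ^ 2 - r) / 2)) := by
    ring
  rw [e2]
  calc _ ≤ |Real.exp z - 1 - z - z ^ 2 / 2| +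
        |z + z ^ 2 / 2 - d * a - d ^ 2 * ((a ^ 2 - r) / 2)| := abs_add_le _ _
    _ ≤ _ := by linarith

private lemma atoms_q {L a r : ℝ} (ha : |a| ≤ L) (hr0 : 0 ≤ r) (hr : r ≤ L) :
    |(a ^ 2 - r) / 2| ≤ L ^ 2 + L := by
  have hL : 0 ≤ L := (abs_nonneg a).trans ha
  have h2 : a ^ 2 ≤ L ^ 2 := by
    rw [← sq_abs]
    exact pow_le_pow_left₀ (abs_nonneg _) ha 2
  have h3 := sq_nonneg a
  have h4 := sq_nonneg L
  rw [abs_le]
  constructor <;> linarith

private lemma atoms_four {a b c e A B C E : ℝ} (ha : |a| ≤ A) (hb : |b| ≤ B) (hc : |c| ≤ C)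
    (he : |e| ≤ E) : |a - b - c + e| ≤ A + B + C + E := by
  rw [abs_le] at *
  constructor <;> linarith

/-- the weight -/
private noncomputable def ww (y : Fin n → Eu n → ℝ) (d : ℝ) (e : Fin n → Bool) (x : Eu n) : ℝ :=
  Real.exp (d * (∑ k, sg (e k) * y k x) - d ^ 2 / 2 * ∑ k, y k x ^ 2)

private lemma av_int [IsProbabilityMeasure ν] {g : (Fin n → Bool) → Eu n → ℝ}
    (hg : ∀ e, BM ν (g e)) : av (fun e => ∫ x, g e x ∂ν) = ∫ x, av (fun e => g e x) ∂ν := by
  unfold av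
  rw [integral_const_mul, integral_finsetSum _ fun e _ => (hg e).int]

private lemma av_q (y : Fin n → ℝ) :
    av (fun e : Fin n → Bool => ((∑ k, sg (e k) * y k) ^ 2 - ∑ k, y k ^ 2) / 2) = 0 := by
  have h1 := av_lin_lin y y
  have e1 : (fun e : Fin n → Bool => ((∑ k, sg (e k) * y k) ^ 2 - ∑ k, y k ^ 2) / 2) =
      fun e => (1 / 2) * ((∑ k, sg (e k) * y k) * (∑ k, sg (e k) * y k) - ∑ k, y k ^ 2) := by
    funext e; ring
  rw [e1, av_cmul, av_sub, h1, av_const]
  have : ∑ k, y k * y k = ∑ k, y k ^ 2 := Finset.sum_congr rfl fun k _ => by ring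
  rw [this]
  ring

private lemma atoms_alg {M L C1 C2 X F d : ℝ} {N D S : (Fin n → Bool) → ℝ} (hM : 0 ≤ M)
    (hL : 0 ≤ L) (hC2 : 0 ≤ C2) (hX : 0 < X) (hd : 0 ≤ d) (hd1 : d ≤ 1)
    (hFM : |F| ≤ M) (hSb : ∀ e, |S e| ≤ M * L) (hNb : ∀ e, |N e - F - d * S e| ≤ M * C2 * d ^ 2)
    (hDb : ∀ e, |D e| ≤ C2 * d ^ 2) (hlow : ∀ e, X⁻¹ ≤ 1 + D e)
    (hN1 : |av N - F| ≤ M * C1 * d ^ 3) (hD1 : |av D| ≤ C1 * d ^ 3) :
    (∀ e, |N e / (1 + D e) - F - d * S e| ≤ X * (M * C2 * (2 + L)) * d ^ 2) ∧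
      |av (fun e => N e / (1 + D e)) - F| ≤ (M * C1 + M * C1 + M * (L + C2) * C2 +
        (M + M * L + M * C2) * C2 ^ 2 * X) * d ^ 3 := by
  have hd2 : d ^ 3 ≤ d ^ 2 := pow_le_pow_of_le_one hd hd1 (by norm_num)
  have hd21 : d ^ 2 ≤ d := by nlinarith
  have hd20 : 0 ≤ d ^ 2 := sq_nonneg d
  have hd30 : 0 ≤ d ^ 3 := pow_nonneg hd 3
  have hpos : ∀ e, 0 < 1 + D e := fun e => lt_of_lt_of_le (inv_pos.mpr hX) (hlow e)
  have hinv : ∀ e, (1 + D e)⁻¹ ≤ X := by
    intro e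
    have := inv_anti₀ (inv_pos.mpr hX) (hlow e)
    rwa [inv_inv] at this
  have hML : 0 ≤ M * L := mul_nonneg hM hL
  have hMC : 0 ≤ M * C2 := mul_nonneg hM hC2
  have hdS : ∀ e, |d * S e| ≤ M * L * d := by
    intro e
    rw [abs_mul, abs_of_nonneg hd, mul_comm]
    exact mul_le_mul_of_nonneg_right (hSb e) hd
  have hNF : ∀ e, |N e - F| ≤ M * (L + C2) * d := by
    intro e
    have e1 : N e - F = (N e - F - d * S e) + d * S e := by ring
    rw [e1]
    have h2 : M * C2 * d ^ 2 ≤ M * C2 * d := mul_le_mul_of_nonneg_left hd21 hMC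
    refine (abs_add_le _ _).trans ?_
    have := hNb e
    have := hdS e
    linarith
  have hNabs : ∀ e, |N e| ≤ M + M * L + M * C2 := by
    intro e
    have e1 : N e = (N e - F) + F := by ring
    rw [e1]
    have h2 : M * (L + C2) * d ≤ M * (L + C2) * 1 :=
      mul_le_mul_of_nonneg_left hd1 (mul_nonneg hM (add_nonneg hL hC2))
    refine (abs_add_le _ _).trans ?_
    have := hNF e
    linarith
  constructor
  · intro e
    have e1 : N e / (1 + D e) - F - d * S e =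
        ((N e - F - d * S e) - (F + d * S e) * D e) * (1 + D e)⁻¹ := by
      have := (hpos e).ne'
      field_simp
      ring
    rw [e1, abs_mul, abs_of_pos (inv_pos.mpr (hpos e))]
    have h0 : |F + d * S e| ≤ M + M * L := by
      refine (abs_add_le _ _).trans ?_
      have h2 := hdS e
      have h3 : M * L * d ≤ M * L * 1 := mul_le_mul_of_nonneg_left hd1 hML
      linarith
    have h1 : |(F + d * S e) * D e| ≤ (M + M * L) * (C2 * d ^ 2) := by
      rw [abs_mul]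
      exact mul_le_mul h0 (hDb e) (abs_nonneg _) (add_nonneg hM hML)
    have h3 : |(N e - F - d * S e) - (F + d * S e) * D e| ≤ M * C2 * (2 + L) * d ^ 2 := by
      refine (abs_sub _ _).trans ?_
      have := hNb e
      have e2 : M * C2 * d ^ 2 + (M + M * L) * (C2 * d ^ 2) = M * C2 * (2 + L) * d ^ 2 := by ring
      linarith
    have h4 : 0 ≤ M * C2 * (2 + L) * d ^ 2 := (abs_nonneg _).trans h3
    refine (mul_le_mul h3 (hinv e) (inv_pos.mpr (hpos e)).le h4).trans (le_of_eq ?_)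
    ring
  · have e0 : (fun e => N e / (1 + D e)) =
        fun e => (((N e) - F * D e) - (N e - F) * D e) + N e * D e ^ 2 * (1 + D e)⁻¹ := by
      funext e
      have := (hpos e).ne'
      field_simp
      ring
    rw [e0, av_add, av_sub, av_sub, av_cmul]
    have hD1' : |F * av (fun e => D e)| ≤ M * C1 * d ^ 3 := by
      rw [abs_mul]
      refine (mul_le_mul hFM hD1 (abs_nonneg _) hM).trans (le_of_eq ?_)
      ring
    have h3 : |av (fun e => (N e - F) * D e)| ≤ M * (L + C2) * C2 * d ^ 3 := by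
      apply av_abs_le
      intro e
      rw [abs_mul]
      have h0 : 0 ≤ M * (L + C2) * d := mul_nonneg (mul_nonneg hM (add_nonneg hL hC2)) hd
      refine (mul_le_mul (hNF e) (hDb e) (abs_nonneg _) h0).trans (le_of_eq ?_)
      ring
    have h4 : |av (fun e => N e * D e ^ 2 * (1 + D e)⁻¹)| ≤
        (M + M * L + M * C2) * C2 ^ 2 * X * d ^ 3 := by
      apply av_abs_le
      intro e
      rw [abs_mul, abs_mul, abs_of_pos (inv_pos.mpr (hpos e)), abs_of_nonneg (sq_nonneg (D e))]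
      have h5 : D e ^ 2 ≤ C2 ^ 2 * d ^ 3 := by
        rw [← sq_abs]
        have h6 : |D e| ^ 2 ≤ (C2 * d ^ 2) ^ 2 := pow_le_pow_left₀ (abs_nonneg _) (hDb e) 2
        have h7 : d ^ 4 ≤ d ^ 3 := pow_le_pow_of_le_one hd hd1 (by norm_num)
        have h8 : C2 ^ 2 * d ^ 4 ≤ C2 ^ 2 * d ^ 3 := mul_le_mul_of_nonneg_left h7 (sq_nonneg _)
        have e6 : (C2 * d ^ 2) ^ 2 = C2 ^ 2 * d ^ 4 := by ring
        linarith
      have h9 : 0 ≤ M + M * L + M * C2 := by linarith
      have h10 : |N e| * D e ^ 2 ≤ (M + M * L + M * C2) * (C2 ^ 2 * d ^ 3) :=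
        mul_le_mul (hNabs e) h5 (sq_nonneg _) h9
      refine (mul_le_mul h10 (hinv e) (inv_pos.mpr (hpos e)).le
        (mul_nonneg h9 (mul_nonneg (sq_nonneg _) hd30))).trans (le_of_eq ?_)
      ring
    have e5 : av (fun e => N e) - F * av (fun e => D e) - av (fun e => (N e - F) * D e) +
        av (fun e => N e * D e ^ 2 * (1 + D e)⁻¹) - F =
        (av N - F) - F * av (fun e => D e) - av (fun e => (N e - F) * D e) +
        av (fun e => N e * D e ^ 2 * (1 + D e)⁻¹) := by ring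
    rw [e5]
    refine (atoms_four hN1 hD1' h3 h4).trans (le_of_eq ?_)
    ring

/-- the one step expansion for one probability measure -/
private lemma atoms_core (n : ℕ) {K M : ℝ} (hK : 0 ≤ K) (hM : 0 ≤ M) : ∃ C : ℝ, 0 ≤ C ∧
    ∀ (ν : Measure (Eu n)) [IsProbabilityMeasure ν] (φ : Eu n → ℝ) (y : Fin n → Eu n → ℝ),
      Measurable φ → (∀ᵐ x ∂ν, |φ x| ≤ M) → (∀ k, Measurable (y k)) →
      (∀ᵐ x ∂ν, ∀ k, |y k x| ≤ K) → (∀ k, ∫ x, y k x ∂ν = 0) → ∀ d : ℝ, 0 ≤ d → d ≤ 1 →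
      (∀ e, |(∫ x, φ x * ww y d e x ∂ν) / (∫ x, ww y d e x ∂ν) - ∫ x, φ x ∂ν -
        d * ∑ k, sg (e k) * ∫ x, φ x * y k x ∂ν| ≤ C * d ^ 2) ∧
      |av (fun e => (∫ x, φ x * ww y d e x ∂ν) / (∫ x, ww y d e x ∂ν)) - ∫ x, φ x ∂ν| ≤
        C * d ^ 3 := by
  obtain ⟨L, hLdef⟩ : ∃ L : ℝ, L = n * K + n * K ^ 2 := ⟨_, rfl⟩
  have hL : 0 ≤ L := by rw [hLdef]; positivity
  obtain ⟨C1, hC1def⟩ : ∃ C1 : ℝ, C1 = 8 * L ^ 3 * Real.exp (2 * L) + L ^ 2 := ⟨_, rfl⟩
  have hC1 : 0 ≤ C1 := by rw [hC1def]; positivity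
  obtain ⟨L2, hL2def⟩ : ∃ L2 : ℝ, L2 = L ^ 2 + L := ⟨_, rfl⟩
  have hL2 : 0 ≤ L2 := by rw [hL2def]; positivity
  obtain ⟨C2, hC2def⟩ : ∃ C2 : ℝ, C2 = L2 + C1 := ⟨_, rfl⟩
  have hC2 : 0 ≤ C2 := by rw [hC2def]; positivity
  obtain ⟨X, hXdef⟩ : ∃ X : ℝ, X = Real.exp (2 * L) := ⟨_, rfl⟩
  have hX : 0 < X := by rw [hXdef]; exact Real.exp_pos _
  obtain ⟨CA, hCA⟩ : ∃ CA : ℝ, CA = X * (M * C2 * (2 + L)) := ⟨_, rfl⟩
  have hCA0 : 0 ≤ CA := by rw [hCA]; positivity
  obtain ⟨CB, hCB⟩ : ∃ CB : ℝ, CB = M * C1 + M * C1 + M * (L + C2) * C2 +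
    (M + M * L + M * C2) * C2 ^ 2 * X := ⟨_, rfl⟩
  have hCB0 : 0 ≤ CB := by rw [hCB]; positivity
  refine ⟨CA + CB, by positivity, ?_⟩
  intro ν _ φ y hφm hφ hym hy hy0 d hd hd1
  -- bounded measurable functions
  have bφ : BM ν φ := ⟨hφm.aestronglyMeasurable, M, hφ⟩
  have by' : ∀ k, BM ν (y k) := fun k => ⟨(hym k).aestronglyMeasurable, K, hy.mono fun x hx => hx k⟩
  set a : (Fin n → Bool) → Eu n → ℝ := fun e x => ∑ k, sg (e k) * y k x with ha
  set r : Eu n → ℝ := fun x => ∑ k, y k x ^ 2 with hr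
  set q : (Fin n → Bool) → Eu n → ℝ := fun e x => ((a e x) ^ 2 - r x) / 2 with hq
  have hw : ∀ e x, ww y d e x = Real.exp (d * a e x - d ^ 2 / 2 * r x) := fun e x => rfl
  have ba : ∀ e, BM ν (a e) := fun e => BM.sum _ fun k _ => (by' k).cmul (sg (e k))
  have br : BM ν r := by
    refine BM.sum _ fun k _ => ?_
    have := (by' k).mul (by' k)
    simpa [sq] using this
  have bq : ∀ e, BM ν (q e) := by
    intro e
    have h1 := (((ba e).mul (ba e)).sub br).cmul (1 / 2)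
    have e1 : (fun x => 1 / 2 * (a e x * a e x - r x)) = q e := by
      funext x
      rw [hq]
      ring
    rwa [e1] at h1
  have pa : ∀ᵐ x ∂ν, ∀ e, |a e x| ≤ L := by
    filter_upwards [hy] with x hx e
    have h1 := lin_abs_le (σ := fun k => y k x) (C := K) hx e
    have h2 : 0 ≤ (n : ℝ) * K ^ 2 := by positivity
    rw [ha]
    calc _ ≤ n * K := h1
      _ ≤ L := by rw [hLdef]; linarith
  have pr0 : ∀ x, 0 ≤ r x := fun x => Finset.sum_nonneg fun k _ => sq_nonneg _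
  have pr : ∀ᵐ x ∂ν, r x ≤ L := by
    filter_upwards [hy] with x hx
    have h1 : r x ≤ ∑ _k : Fin n, K ^ 2 := by
      refine Finset.sum_le_sum fun k _ => ?_
      rw [← sq_abs]
      exact pow_le_pow_left₀ (abs_nonneg _) (hx k) 2
    have h2 : ∑ _k : Fin n, K ^ 2 = n * K ^ 2 := by simp
    have h3 : 0 ≤ (n : ℝ) * K := by positivity
    rw [hLdef]
    linarith
  have pq : ∀ᵐ x ∂ν, ∀ e, |q e x| ≤ L2 := by
    filter_upwards [pa, pr] with x hax hrx e
    rw [hL2def]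
    exact atoms_q (hax e) (pr0 x) hrx
  -- the weight
  set E : (Fin n → Bool) → Eu n → ℝ := fun e x =>
    Real.exp (d * a e x - d ^ 2 / 2 * r x) - (1 + d * a e x + d ^ 2 * q e x) with hE
  have pE : ∀ᵐ x ∂ν, ∀ e, |E e x| ≤ C1 * d ^ 3 := by
    filter_upwards [pa, pr] with x hax hrx e
    rw [hC1def]
    exact atoms_w (hax e) (pr0 x) hrx hd hd1
  have mw : ∀ e, Measurable (fun x => Real.exp (d * a e x - d ^ 2 / 2 * r x)) := by
    intro e
    have m1 : Measurable (a e) := Finset.measurable_fun_sum _ fun k _ => (hym k).const_mul _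
    have m2 : Measurable r := Finset.measurable_fun_sum _ fun k _ => (hym k).pow_const 2
    exact ((m1.const_mul d).sub (m2.const_mul (d ^ 2 / 2))).exp
  have mE : ∀ e, Measurable (E e) := by
    intro e
    have m1 : Measurable (a e) := Finset.measurable_fun_sum _ fun k _ => (hym k).const_mul _
    have m2 : Measurable r := Finset.measurable_fun_sum _ fun k _ => (hym k).pow_const 2
    have m3 : Measurable (q e) := ((m1.pow_const 2).sub m2).div_const 2
    exact (mw e).sub ((measurable_const.add (m1.const_mul d)).add (m3.const_mul (d ^ 2)))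
  have bE : ∀ e, BM ν (E e) := fun e =>
    ⟨(mE e).aestronglyMeasurable, C1 * d ^ 3, pE.mono fun x hx => hx e⟩
  -- N and D
  set F : ℝ := ∫ x, φ x ∂ν with hF
  have hFM : |F| ≤ M := int_le hφ
  set S : (Fin n → Bool) → ℝ := fun e => ∫ x, φ x * a e x ∂ν with hS
  have hSe : ∀ e, S e = ∑ k, sg (e k) * ∫ x, φ x * y k x ∂ν := by
    intro e
    have e1 : (fun x => φ x * a e x) = fun x => ∑ k, sg (e k) * (φ x * y k x) := by
      funext x
      rw [ha, Finset.mul_sum]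
      exact Finset.sum_congr rfl fun k _ => by ring
    show ∫ x, φ x * a e x ∂ν = _
    rw [e1, integral_finsetSum _ fun k _ => ((bφ.mul (by' k)).cmul (sg (e k))).int]
    exact Finset.sum_congr rfl fun k _ => integral_const_mul _ _
  have hSb : ∀ e, |S e| ≤ M * L := by
    intro e
    apply int_le
    filter_upwards [hφ, pa] with x h1 h2
    rw [abs_mul]
    exact mul_le_mul h1 (h2 e) (abs_nonneg _) hM
  have hNe : ∀ e, ∫ x, φ x * ww y d e x ∂ν = F + d * S e + d ^ 2 * (∫ x, φ x * q e x ∂ν) +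
      ∫ x, φ x * E e x ∂ν := by
    intro e
    have e1 : (fun x => φ x * ww y d e x) = fun x => (φ x + d * (φ x * a e x)) +
        (d ^ 2 * (φ x * q e x) + φ x * E e x) := by
      funext x
      rw [hw e x]
      simp only [hE]
      ring
    rw [e1, integral_add ((bφ.add ((bφ.mul (ba e)).cmul d))).int
      (((bφ.mul (bq e)).cmul (d ^ 2)).add (bφ.mul (bE e))).int,
      integral_add bφ.int ((bφ.mul (ba e)).cmul d).int,
      integral_add ((bφ.mul (bq e)).cmul (d ^ 2)).int (bφ.mul (bE e)).int,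
      integral_const_mul, integral_const_mul]
    ring
  have hae : ∀ e, ∫ x, a e x ∂ν = 0 := by
    intro e
    show ∫ x, ∑ k, sg (e k) * y k x ∂ν = 0
    rw [integral_finsetSum _ fun k _ => ((by' k).cmul (sg (e k))).int]
    refine Finset.sum_eq_zero fun k _ => ?_
    rw [integral_const_mul, hy0 k, mul_zero]
  have hDe : ∀ e, ∫ x, ww y d e x ∂ν = 1 + (d ^ 2 * (∫ x, q e x ∂ν) + ∫ x, E e x ∂ν) := by
    intro e
    have e1 : (fun x => ww y d e x) = fun x => (1 + d * a e x) + (d ^ 2 * q e x + E e x) := by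
      funext x
      rw [hw e x]
      simp only [hE]
      ring
    rw [e1, integral_add ((BM.const (ν := ν) 1).add ((ba e).cmul d)).int
      (((bq e).cmul (d ^ 2)).add (bE e)).int,
      integral_add (BM.const (ν := ν) 1).int ((ba e).cmul d).int,
      integral_add ((bq e).cmul (d ^ 2)).int (bE e).int, integral_const_mul, integral_const_mul,
      hae e]
    simp
  set D : (Fin n → Bool) → ℝ := fun e => d ^ 2 * (∫ x, q e x ∂ν) + ∫ x, E e x ∂ν with hD
  set N : (Fin n → Bool) → ℝ := fun e => F + d * S e + d ^ 2 * (∫ x, φ x * q e x ∂ν) +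
      ∫ x, φ x * E e x ∂ν with hN
  have hd2 : d ^ 3 ≤ d ^ 2 := pow_le_pow_of_le_one hd hd1 (by norm_num)
  have hd21 : d ^ 2 ≤ d := by nlinarith
  have iq : ∀ e, |∫ x, q e x ∂ν| ≤ L2 := fun e => int_le (pq.mono fun x hx => hx e)
  have iE : ∀ e, |∫ x, E e x ∂ν| ≤ C1 * d ^ 3 := fun e => int_le (pE.mono fun x hx => hx e)
  have iφq : ∀ e, |∫ x, φ x * q e x ∂ν| ≤ M * L2 := by
    intro e
    apply int_le
    filter_upwards [hφ, pq] with x h1 h2
    rw [abs_mul]
    exact mul_le_mul h1 (h2 e) (abs_nonneg _) hM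
  have iφE : ∀ e, |∫ x, φ x * E e x ∂ν| ≤ M * (C1 * d ^ 3) := by
    intro e
    apply int_le
    filter_upwards [hφ, pE] with x h1 h2
    rw [abs_mul]
    exact mul_le_mul h1 (h2 e) (abs_nonneg _) hM
  have hDb : ∀ e, |D e| ≤ C2 * d ^ 2 := by
    intro e
    have h1 : |d ^ 2 * ∫ x, q e x ∂ν| ≤ d ^ 2 * L2 := by
      rw [abs_mul, abs_of_nonneg (sq_nonneg d)]
      exact mul_le_mul_of_nonneg_left (iq e) (sq_nonneg d)
    have h2 : C1 * d ^ 3 ≤ C1 * d ^ 2 := mul_le_mul_of_nonneg_left hd2 hC1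
    calc |D e| ≤ |d ^ 2 * ∫ x, q e x ∂ν| + |∫ x, E e x ∂ν| := abs_add_le _ _
      _ ≤ d ^ 2 * L2 + C1 * d ^ 3 := add_le_add h1 (iE e)
      _ ≤ C2 * d ^ 2 := by rw [hC2def]; linarith
  have hNb : ∀ e, |N e - F - d * S e| ≤ M * C2 * d ^ 2 := by
    intro e
    have e1 : N e - F - d * S e = d ^ 2 * (∫ x, φ x * q e x ∂ν) + ∫ x, φ x * E e x ∂ν := by
      simp only [hN]; ring
    rw [e1]
    have h1 : |d ^ 2 * ∫ x, φ x * q e x ∂ν| ≤ d ^ 2 * (M * L2) := by
      rw [abs_mul, abs_of_nonneg (sq_nonneg d)]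
      exact mul_le_mul_of_nonneg_left (iφq e) (sq_nonneg d)
    have h2 : M * (C1 * d ^ 3) ≤ M * (C1 * d ^ 2) :=
      mul_le_mul_of_nonneg_left (mul_le_mul_of_nonneg_left hd2 hC1) hM
    calc _ ≤ |d ^ 2 * ∫ x, φ x * q e x ∂ν| + |∫ x, φ x * E e x ∂ν| := abs_add_le _ _
      _ ≤ d ^ 2 * (M * L2) + M * (C1 * d ^ 3) := add_le_add h1 (iφE e)
      _ ≤ M * C2 * d ^ 2 := by rw [hC2def]; nlinarith
  -- lower bound of the denominator
  have hlow : ∀ e, X⁻¹ ≤ 1 + D e := by
    intro e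
    rw [← hDe e]
    have h1 : ∀ᵐ x ∂ν, X⁻¹ ≤ ww y d e x := by
      filter_upwards [pa, pr] with x hax hrx
      rw [hw e x, hXdef, ← Real.exp_neg]
      apply Real.exp_le_exp.mpr
      have h2 := (abs_le.mp (hax e)).1
      have h3 : -L ≤ d * a e x := by
        have : -(d * L) ≤ d * a e x := by nlinarith
        nlinarith
      have h4 : d ^ 2 / 2 * r x ≤ L := by
        have h5 : d ^ 2 / 2 ≤ 1 := by nlinarith
        calc d ^ 2 / 2 * r x ≤ 1 * r x := mul_le_mul_of_nonneg_right h5 (pr0 x)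
          _ ≤ L := by linarith
      linarith
    have h2 : ∫ _x, X⁻¹ ∂ν ≤ ∫ x, ww y d e x ∂ν := by
      refine integral_mono_ae (integrable_const _) ?_ h1
      have b1 : BM ν (fun x => (1 + d * a e x) + (d ^ 2 * q e x + E e x)) :=
        ((BM.const (ν := ν) 1).add ((ba e).cmul d)).add (((bq e).cmul (d ^ 2)).add (bE e))
      refine b1.int.congr (ae_of_all _ fun x => ?_)
      show (1 + d * a e x) + (d ^ 2 * q e x + E e x) = ww y d e x
      rw [hw e x]
      simp only [hE]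
      ring
    simpa using h2
  have hquot : ∀ e, (∫ x, φ x * ww y d e x ∂ν) / (∫ x, ww y d e x ∂ν) = N e / (1 + D e) := by
    intro e
    rw [hNe e, hDe e]
  -- averages of N and D
  have hqav : ∀ (g : Eu n → ℝ), BM ν g → av (fun e => ∫ x, g x * q e x ∂ν) = 0 := by
    intro g hg
    rw [av_int fun e => hg.mul (bq e)]
    have e1 : (fun x => av (fun e : Fin n → Bool => g x * q e x)) = fun _ => 0 := by
      funext x
      rw [av_cmul]
      have := av_q (fun k => y k x)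
      show g x * av (fun e : Fin n → Bool =>
        ((∑ k, sg (e k) * y k x) ^ 2 - ∑ k, y k x ^ 2) / 2) = 0
      rw [this, mul_zero]
    rw [e1]
    simp
  have hN1 : |av N - F| ≤ M * C1 * d ^ 3 := by
    have e1 : N = fun e => ((F + d * S e) + d ^ 2 * (∫ x, φ x * q e x ∂ν)) +
        ∫ x, φ x * E e x ∂ν := rfl
    have h1 : av (fun e => S e) = 0 := by
      have : (fun e => S e) = fun e => ∑ k, sg (e k) * ∫ x, φ x * y k x ∂ν := funext hSe
      rw [this]
      exact av_lin _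
    rw [e1, av_add, av_add, av_add, av_const, av_cmul, av_cmul, h1, hqav φ bφ]
    have h2 := av_abs_le iφE
    calc _ = |av (fun e => ∫ x, φ x * E e x ∂ν)| := by congr 1; ring
      _ ≤ _ := h2.trans (by linarith)
  have hD1 : |av D| ≤ C1 * d ^ 3 := by
    have e1 : D = fun e => d ^ 2 * (∫ x, 1 * q e x ∂ν) + ∫ x, E e x ∂ν := by
      funext e
      simp only [one_mul, hD]
    rw [e1, av_add, av_cmul, hqav _ (BM.const 1), mul_zero, zero_add]
    exact av_abs_le iE
  obtain ⟨r1, r2⟩ := atoms_alg hM hL hC2 hX hd hd1 hFM hSb hNb hDb hlow hN1 hD1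
  have hd20 : 0 ≤ d ^ 2 := sq_nonneg d
  have hd30 : 0 ≤ d ^ 3 := pow_nonneg hd 3
  constructor
  · intro e
    rw [hquot e, ← hSe e]
    refine (r1 e).trans ?_
    rw [← hCA]
    exact mul_le_mul_of_nonneg_right (by linarith) hd20
  · have e0 : (fun e => (∫ x, φ x * ww y d e x ∂ν) / (∫ x, ww y d e x ∂ν)) =
        fun e => N e / (1 + D e) := funext hquot
    rw [e0]
    refine r2.trans ?_
    rw [← hCB]
    exact mul_le_mul_of_nonneg_right (by linarith) hd30

/-- the exponent of one step, centred -/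
private lemma atoms_expo (m x : Eu n) (d : ℝ) (e : Fin n → Bool) :
    inner ℝ (d ^ 2 • m + d • (WithLp.toLp 2 (fun i => sg (e i)) : Eu n)) x - d ^ 2 / 2 * ‖x‖ ^ 2 =
      (d * (∑ k, sg (e k) * (x k - m k)) - d ^ 2 / 2 * ∑ k, (x k - m k) ^ 2) +
      (d * (∑ k, sg (e k) * m k) + d ^ 2 / 2 * ∑ k, m k ^ 2) := by
  rw [inner_add_left, real_inner_smul_left, real_inner_smul_left, PiLp.inner_apply,
    PiLp.inner_apply, EuclideanSpace.real_norm_sq_eq]
  simp only [RCLike.inner_apply, conj_trivial]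
  simp only [Finset.mul_sum, ← Finset.sum_sub_distrib, ← Finset.sum_add_distrib]
  refine Finset.sum_congr rfl fun k _ => ?_
  ring

private lemma atoms_step (h : Nm μ R B) (φ : Eu n → ℝ) (d t : ℝ) (s : St n)
    (e : Fin n → Bool) :
    ∫ x, φ x ∂(tl μ (t + d ^ 2) (stp μ d t s e).1) =
      (∫ x, φ x * ww (fun k x => x k - mn (tl μ t s.1) k) d e x ∂(tl μ t s.1)) /
      (∫ x, ww (fun k x => x k - mn (tl μ t s.1) k) d e x ∂(tl μ t s.1)) := by
  set ν := tl μ t s.1 with hν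
  set m := mn ν with hm
  set g : Eu n → ℝ := fun x => inner ℝ (d ^ 2 • m + d • (WithLp.toLp 2 (fun i => sg (e i)) : Eu n)) x
    - d ^ 2 / 2 * ‖x‖ ^ 2 with hg
  have h1 : tl μ (t + d ^ 2) (stp μ d t s e).1 = ν.tilted g := by
    rw [hν]
    unfold tl
    rw [tilted_tilted (tl_exp_int h t s.1)]
    congr 1
    funext x
    show inner ℝ (s.1 + d ^ 2 • mn (tl μ t s.1) + d • WithLp.toLp 2 (fun i => sg (e i))) x -
      (t + d ^ 2) / 2 * ‖x‖ ^ 2 = (inner ℝ s.1 x - t / 2 * ‖x‖ ^ 2) + g x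
    rw [hg, add_assoc s.1, inner_add_left]
    ring
  rw [h1, integral_tilted]
  obtain ⟨c, hc⟩ : ∃ c : ℝ, c = d * (∑ k, sg (e k) * m k) + d ^ 2 / 2 * ∑ k, m k ^ 2 := ⟨_, rfl⟩
  have h2 : ∀ x, Real.exp (g x) = Real.exp c * ww (fun k x => x k - m k) d e x := by
    intro x
    rw [hg, hc]
    unfold ww
    rw [← Real.exp_add]
    congr 1
    show inner ℝ (d ^ 2 • m + d • (WithLp.toLp 2 (fun i => sg (e i)) : Eu n)) x
        - d ^ 2 / 2 * ‖x‖ ^ 2 =
      d * (∑ k, sg (e k) * m k) + d ^ 2 / 2 * ∑ k, m k ^ 2 +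
        (d * (∑ k, sg (e k) * (x k - m k)) - d ^ 2 / 2 * ∑ k, (x k - m k) ^ 2)
    rw [atoms_expo m x d e]
    ring
  have h3 : ∫ x, Real.exp (g x) ∂ν = Real.exp c * ∫ x, ww (fun k x => x k - m k) d e x ∂ν := by
    rw [← integral_const_mul]
    exact integral_congr_ae (ae_of_all _ h2)
  rw [h3]
  have h4 : (fun x => (Real.exp (g x) / (Real.exp c * ∫ x, ww (fun k x => x k - m k) d e x ∂ν)) •
      φ x) = fun x => (∫ x, ww (fun k x => x k - m k) d e x ∂ν)⁻¹ *
      (φ x * ww (fun k x => x k - m k) d e x) := by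
    funext x
    rw [h2 x, smul_eq_mul, mul_div_mul_left _ _ (Real.exp_pos c).ne', div_eq_mul_inv]
    ring
  rw [h4, integral_const_mul, div_eq_mul_inv, mul_comm]

theorem It.ev (h : Nm μ R B) {φ : Eu n → ℝ} (hm : Measurable φ) {M : ℝ}
    (hb : ∀ᵐ x ∂μ, |φ x| ≤ M) :
    It μ B T (fun t s => ∫ x, φ x ∂(tl μ t s.1)) (fun _ _ => 0)
      (fun t s k => Cv (tl μ t s.1) (fun x => x k) φ) := by
  have hpr := h.pr
  have hM : 0 ≤ M := by
    obtain ⟨x, hx⟩ := hb.exists
    exact (abs_nonneg _).trans hx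
  have hR0 := h.R0
  obtain ⟨C, hC0, hC⟩ := atoms_core n (K := 2 * R) (M := M) (by positivity) hM
  refine ⟨M + 2 * (R * M) + C, by positivity, ?_, ?_⟩
  · intro t s _ _ _
    have hp := tl_prob h t s.1
    have hBS := tl_BS h t s.1
    have hφ : ∀ᵐ x ∂(tl μ t s.1), |φ x| ≤ M := (tilted_absolutelyContinuous μ _).ae_le hb
    refine ⟨?_, ?_, ?_⟩
    · refine (int_le hφ).trans ?_
      have : 0 ≤ 2 * (R * M) := by positivity
      linarith
    · rw [abs_zero]; positivity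
    · intro k
      refine (Cv_abs_le (ν := tl μ t s.1) hR0 hM (hBS.coord_ae k) hφ).trans ?_
      linarith
  · intro d t s hd hd1 _ _ _
    have hp := tl_prob h t s.1
    have hBS := tl_BS h t s.1
    have hφ : ∀ᵐ x ∂(tl μ t s.1), |φ x| ≤ M := (tilted_absolutelyContinuous μ _).ae_le hb
    set ν := tl μ t s.1 with hν
    have hmn : ∀ k, mn ν k = ∫ x, x k ∂ν := fun k => rfl
    have hmk : ∀ k, |mn ν k| ≤ R := fun k => by
      rw [hmn]
      exact int_le (hBS.coord_ae k)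
    have hy : ∀ᵐ x ∂ν, ∀ k, |x k - mn ν k| ≤ 2 * R := by
      filter_upwards [hBS] with x hx k
      have h1 := (coord_le x k).trans hx
      have h2 := hmk k
      calc _ ≤ |x k| + |mn ν k| := abs_sub _ _
        _ ≤ 2 * R := by linarith
    have hym : ∀ k, Measurable (fun x : Eu n => x k - mn ν k) := fun k =>
      (by fun_prop : Continuous (fun x : Eu n => x k - mn ν k)).measurable
    have hy0 : ∀ k, ∫ x, (x k - mn ν k) ∂ν = 0 := by
      intro k
      rw [integral_sub (BM.coord hBS k).int (BM.const _).int, hmn]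
      simp
    obtain ⟨r1, r2⟩ := hC ν φ (fun k x => x k - mn ν k) hm hφ hym hy hy0 d hd hd1
    have hσ : ∀ k, ∫ x, φ x * (x k - mn ν k) ∂ν = Cv ν (fun x => x k) φ := by
      intro k
      have bφ : BM ν φ := ⟨hm.aestronglyMeasurable, M, hφ⟩
      have e1 : (fun x => φ x * (x k - mn ν k)) = fun x => x k * φ x - mn ν k * φ x := by
        funext x; ring
      rw [e1, integral_sub ((BM.coord hBS k).mul bφ).int (bφ.cmul _).int, integral_const_mul]
      rfl
    have hMR : 0 ≤ M + 2 * (R * M) := by positivity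
    constructor
    · intro e
      have r3 := r1 e
      simp only [hσ] at r3
      show |∫ x, φ x ∂(tl μ (t + d ^ 2) (stp μ d t s e).1) - ∫ x, φ x ∂ν -
        d * ∑ k, sg (e k) * Cv ν (fun x => x k) φ| ≤ _
      rw [atoms_step h φ d t s e]
      refine r3.trans ?_
      exact mul_le_mul_of_nonneg_right (by linarith) (sq_nonneg d)
    · have e1 : (fun e => ∫ x, φ x ∂(tl μ (t + d ^ 2) (stp μ d t s e).1)) = fun e =>
          (∫ x, φ x * ww (fun k x => x k - mn ν k) d e x ∂ν) /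
          (∫ x, ww (fun k x => x k - mn ν k) d e x ∂ν) := by
        funext e
        exact atoms_step h φ d t s e
      show |av (fun e => ∫ x, φ x ∂(tl μ (t + d ^ 2) (stp μ d t s e).1)) - ∫ x, φ x ∂ν -
        d ^ 2 * 0| ≤ _
      rw [e1, mul_zero, sub_zero]
      refine r2.trans ?_
      exact mul_le_mul_of_nonneg_right (by linarith) (pow_nonneg hd 3)

theorem MIt.P (h : Nm μ R B) :
    MIt μ B T (fun _ s => s.2) (fun t s => Am (tl μ t s.1) * s.2) (fun _ _ _ => 0) := by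
  have hB0 : 0 ≤ B := by
    have h1 : 0 ≤ 2 * (n : ℝ) * R ^ 2 := by positivity
    exact h1.trans h.B1
  intro i j
  have hA : ∀ t s, 0 ≤ t → t ≤ T → Rg B t s →
      |(Am (tl μ t s.1) * s.2) i j| ≤ (2 * n * R ^ 2) * Real.exp (B * |T|) := by
    intro t s ht htT hs
    have hp := tl_prob h t s.1
    have hBS := tl_BS h t s.1
    rw [Matrix.mul_apply]
    refine (Finset.abs_sum_le_sum_abs _ _).trans ?_
    calc ∑ k, |Am (tl μ t s.1) i k * s.2 k j| ≤
          ∑ _k : Fin n, 2 * R ^ 2 * Real.exp (B * |T|) := by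
          refine Finset.sum_le_sum fun k _ => ?_
          rw [abs_mul]
          refine mul_le_mul (Am_abs_le h.R0 hBS i k) ((hs.2 k j).trans ?_) (abs_nonneg _)
            (by positivity)
          apply Real.exp_le_exp.mpr
          exact mul_le_mul_of_nonneg_left (htT.trans (le_abs_self T)) hB0
      _ = _ := by simp; ring
  have hE : 0 < Real.exp (B * |T|) := Real.exp_pos _
  refine ⟨Real.exp (B * |T|) + (2 * n * R ^ 2) * Real.exp (B * |T|), by positivity, ?_, ?_⟩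
  · intro t s ht htT hs
    have hA' := hA t s ht htT hs
    have h0 : 0 ≤ (2 * n * R ^ 2) * Real.exp (B * |T|) := by positivity
    refine ⟨?_, ?_, ?_⟩
    · refine (hs.2 i j).trans ?_
      have : Real.exp (B * t) ≤ Real.exp (B * |T|) := by
        apply Real.exp_le_exp.mpr
        exact mul_le_mul_of_nonneg_left (htT.trans (le_abs_self T)) hB0
      linarith
    · linarith
    · intro k
      show |(0 : Mat n) i j| ≤ _
      rw [Matrix.zero_apply, abs_zero]
      positivity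
  · intro d t s hd hd1 ht htT hs
    have htT' : t ≤ T := by nlinarith [sq_nonneg d]
    have hA' := hA t s ht htT' hs
    have h0 : 0 ≤ Real.exp (B * |T|) + (2 * n * R ^ 2) * Real.exp (B * |T|) := by positivity
    have e1 : ∀ e, (stp μ d t s e).2 i j = s.2 i j + d ^ 2 * (Am (tl μ t s.1) * s.2) i j := by
      intro e
      rfl
    constructor
    · intro e
      show |(stp μ d t s e).2 i j - s.2 i j - d * ∑ k, sg (e k) * (0 : Mat n) i j| ≤ _
      rw [e1 e]
      simp only [Matrix.zero_apply, mul_zero, Finset.sum_const_zero, sub_zero]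
      have e2 : s.2 i j + d ^ 2 * (Am (tl μ t s.1) * s.2) i j - s.2 i j =
          (Am (tl μ t s.1) * s.2) i j * d ^ 2 := by ring
      rw [e2, abs_mul, abs_of_nonneg (sq_nonneg d)]
      exact mul_le_mul_of_nonneg_right (by linarith) (sq_nonneg d)
    · show |av (fun e => (stp μ d t s e).2 i j) - s.2 i j -
        d ^ 2 * (Am (tl μ t s.1) * s.2) i j| ≤ _
      simp only [e1, av_const]
      have e2 : s.2 i j + d ^ 2 * (Am (tl μ t s.1) * s.2) i j - s.2 i j -
          d ^ 2 * (Am (tl μ t s.1) * s.2) i j = 0 := by ring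
      rw [e2, abs_zero]
      exact mul_nonneg h0 (pow_nonneg hd 3)

end Pool.Agent.Lib.MP_6d896a_gt.LG
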