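import Mathlib
import Pool.Agent.Lib.MP_6d896a_gt.LG.Chain

/-!
Calculus of processes with a drift and diffusion coefficients.
-/

set_option autoImplicit false

namespace Pool.Agent.Lib.MP_6d896a_gt.LG

open MeasureTheory Filter Topology Set Matrix
open scoped ENNReal NNReal

variable {n : ℕ} {μ ν : Measure (Eu n)} {R B T η : ℝ}

/-- `It` with an explicit constant -/
def ItC (μ : Measure (Eu n)) (B T : ℝ) (F b : ℝ → St n → ℝ)
    (σ : ℝ → St n → Fin n → ℝ) (C : ℝ) : Prop :=
  (∀ t s, 0 ≤ t → t ≤ T → Rg B t s → |F t s| ≤ C ∧ |b t s| ≤ C ∧ ∀ k, |σ t s k| ≤ C) ∧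
    ∀ d t s, 0 ≤ d → d ≤ 1 → 0 ≤ t → t + d ^ 2 ≤ T → Rg B t s →
      (∀ e, |F (t + d ^ 2) (stp μ d t s e) - F t s - d * ∑ k, sg (e k) * σ t s k| ≤
        C * d ^ 2) ∧
      |av (fun e => F (t + d ^ 2) (stp μ d t s e)) - F t s - d ^ 2 * b t s| ≤ C * d ^ 3

section itc
variable {F G b c : ℝ → St n → ℝ} {σ ρ : ℝ → St n → Fin n → ℝ}

lemma ItC.it {C : ℝ} (hC : 0 ≤ C) (h : ItC μ B T F b σ C) : It μ B T F b σ :=
  ⟨⟨C, hC, h.1, h.2⟩⟩

lemma It.itC (hF : It μ B T F b σ) : ∃ C, 0 ≤ C ∧ ItC μ B T F b σ C := by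
  obtain ⟨C, hC, h1, h2⟩ := hF.ex
  exact ⟨C, hC, h1, h2⟩

lemma ItC.mono {C C' : ℝ} (hF : ItC μ B T F b σ C) (hCC : C ≤ C') : ItC μ B T F b σ C' := by
  refine ⟨fun t s h0 h1 h2 => ?_, fun d t s h0 h1 h2 h3 h4 => ?_⟩
  · obtain ⟨h5, h6, h7⟩ := hF.1 t s h0 h1 h2
    exact ⟨h5.trans hCC, h6.trans hCC, fun k => (h7 k).trans hCC⟩
  · obtain ⟨h5, h6⟩ := hF.2 d t s h0 h1 h2 h3 h4
    exact ⟨fun e => (h5 e).trans (mul_le_mul_of_nonneg_right hCC (by positivity)),
      h6.trans (mul_le_mul_of_nonneg_right hCC (by positivity))⟩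

lemma It.pair (hF : It μ B T F b σ) (hG : It μ B T G c ρ) :
    ∃ C, 0 ≤ C ∧ ItC μ B T F b σ C ∧ ItC μ B T G c ρ C := by
  obtain ⟨C, hC, h1⟩ := hF.itC
  obtain ⟨D, _, h2⟩ := hG.itC
  exact ⟨max C D, hC.trans (le_max_left _ _), h1.mono (le_max_left _ _),
    h2.mono (le_max_right _ _)⟩

lemma It.bF (hF : It μ B T F b σ) : Bd B T F := by
  obtain ⟨C, hC, h1⟩ := hF.itC
  exact ⟨C, fun t s h2 h3 h4 => (h1.1 t s h2 h3 h4).1⟩

lemma It.bb (hF : It μ B T F b σ) : Bd B T b := by
  obtain ⟨C, hC, h1⟩ := hF.itC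
  exact ⟨C, fun t s h2 h3 h4 => (h1.1 t s h2 h3 h4).2.1⟩

lemma It.bs (hF : It μ B T F b σ) (k : Fin n) : Bd B T (fun t s => σ t s k) := by
  obtain ⟨C, hC, h1⟩ := hF.itC
  exact ⟨C, fun t s h2 h3 h4 => (h1.1 t s h2 h3 h4).2.2 k⟩

/-- only the values at reachable states matter -/
lemma It.congr (h : Nm μ R B) (hF : It μ B T F b σ)
    (e1 : ∀ t s, 0 ≤ t → t ≤ T → Rg B t s → F t s = G t s)
    (e2 : ∀ t s, 0 ≤ t → t ≤ T → Rg B t s → b t s = c t s)
    (e3 : ∀ t s, 0 ≤ t → t ≤ T → Rg B t s → σ t s = ρ t s) : It μ B T G c ρ := by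
  obtain ⟨C, hC, h1⟩ := hF.itC
  refine ItC.it hC ⟨fun t s h2 h3 h4 => ?_, fun d t s h2 h3 h4 h5 h6 => ?_⟩
  · have := h1.1 t s h2 h3 h4
    rwa [e1 t s h2 h3 h4, e2 t s h2 h3 h4, e3 t s h2 h3 h4] at this
  · have h7 : t ≤ T := le_trans (by nlinarith [sq_nonneg d]) h5
    have := h1.2 d t s h2 h3 h4 h5 h6
    rw [e1 t s h4 h7 h6, e2 t s h4 h7 h6, e3 t s h4 h7 h6] at this
    have h8 : ∀ e, F (t + d ^ 2) (stp μ d t s e) = G (t + d ^ 2) (stp μ d t s e) := fun e =>
      e1 _ _ (by positivity) h5 (Rg.step h h4 h6 e)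
    simp only [h8] at this
    exact this

lemma It.const (_h : Nm μ R B) (a : ℝ) :
    It μ B T (fun _ _ => a) (fun _ _ => 0) (fun _ _ _ => 0) := by
  refine ItC.it (abs_nonneg a) ⟨fun t s h2 h3 h4 => ?_, fun d t s h2 h3 h4 h5 h6 => ?_⟩
  · simp
  · simp only [av_const, mul_zero, Finset.sum_const_zero, sub_self, abs_zero]
    exact ⟨fun _ => by positivity, by positivity⟩

lemma It.add (_h : Nm μ R B) (hF : It μ B T F b σ) (hG : It μ B T G c ρ) :
    It μ B T (fun t s => F t s + G t s) (fun t s => b t s + c t s)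
      (fun t s k => σ t s k + ρ t s k) := by
  obtain ⟨C, hC, h1, h2⟩ := hF.pair hG
  refine ItC.it (C := C + C) (by positivity)
    ⟨fun t s h3 h4 h5 => ?_, fun d t s h3 h4 h5 h6 h7 => ?_⟩
  · obtain ⟨a1, a2, a3⟩ := h1.1 t s h3 h4 h5
    obtain ⟨b1, b2, b3⟩ := h2.1 t s h3 h4 h5
    exact ⟨(abs_add_le _ _).trans (add_le_add a1 b1), (abs_add_le _ _).trans (add_le_add a2 b2),
      fun k => (abs_add_le _ _).trans (add_le_add (a3 k) (b3 k))⟩
  · obtain ⟨a1, a2⟩ := h1.2 d t s h3 h4 h5 h6 h7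
    obtain ⟨b1, b2⟩ := h2.2 d t s h3 h4 h5 h6 h7
    constructor
    · intro e
      have e1 : F (t + d ^ 2) (stp μ d t s e) + G (t + d ^ 2) (stp μ d t s e) -
          (F t s + G t s) - d * ∑ k, sg (e k) * (σ t s k + ρ t s k) =
          (F (t + d ^ 2) (stp μ d t s e) - F t s - d * ∑ k, sg (e k) * σ t s k) +
          (G (t + d ^ 2) (stp μ d t s e) - G t s - d * ∑ k, sg (e k) * ρ t s k) := by
        simp only [mul_add, Finset.sum_add_distrib]
        ring
      rw [e1, add_mul]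
      exact (abs_add_le _ _).trans (add_le_add (a1 e) (b1 e))
    · have e1 : av (fun e => F (t + d ^ 2) (stp μ d t s e) + G (t + d ^ 2) (stp μ d t s e)) -
          (F t s + G t s) - d ^ 2 * (b t s + c t s) =
          (av (fun e => F (t + d ^ 2) (stp μ d t s e)) - F t s - d ^ 2 * b t s) +
          (av (fun e => G (t + d ^ 2) (stp μ d t s e)) - G t s - d ^ 2 * c t s) := by
        rw [av_add]
        ring
      rw [e1, add_mul]
      exact (abs_add_le _ _).trans (add_le_add a2 b2)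

lemma It.cmul (_h : Nm μ R B) (hF : It μ B T F b σ) (a : ℝ) :
    It μ B T (fun t s => a * F t s) (fun t s => a * b t s) (fun t s k => a * σ t s k) := by
  obtain ⟨C, hC, h1⟩ := hF.itC
  refine ItC.it (C := |a| * C) (by positivity)
    ⟨fun t s h3 h4 h5 => ?_, fun d t s h3 h4 h5 h6 h7 => ?_⟩
  · obtain ⟨a1, a2, a3⟩ := h1.1 t s h3 h4 h5
    refine ⟨?_, ?_, fun k => ?_⟩
    · rw [abs_mul]; exact mul_le_mul_of_nonneg_left a1 (abs_nonneg a)
    · rw [abs_mul]; exact mul_le_mul_of_nonneg_left a2 (abs_nonneg a)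
    · rw [abs_mul]; exact mul_le_mul_of_nonneg_left (a3 k) (abs_nonneg a)
  · obtain ⟨a1, a2⟩ := h1.2 d t s h3 h4 h5 h6 h7
    constructor
    · intro e
      have e1 : a * F (t + d ^ 2) (stp μ d t s e) - a * F t s -
          d * ∑ k, sg (e k) * (a * σ t s k) =
          a * (F (t + d ^ 2) (stp μ d t s e) - F t s - d * ∑ k, sg (e k) * σ t s k) := by
        have : ∑ k, sg (e k) * (a * σ t s k) = a * ∑ k, sg (e k) * σ t s k := by
          rw [Finset.mul_sum]
          exact Finset.sum_congr rfl fun k _ => by ring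
        rw [this]
        ring
      rw [e1, abs_mul, mul_assoc]
      exact mul_le_mul_of_nonneg_left (a1 e) (abs_nonneg a)
    · have e1 : av (fun e => a * F (t + d ^ 2) (stp μ d t s e)) -
          a * F t s - d ^ 2 * (a * b t s) =
          a * (av (fun e => F (t + d ^ 2) (stp μ d t s e)) - F t s - d ^ 2 * b t s) := by
        rw [av_cmul]
        ring
      rw [e1, abs_mul, mul_assoc]
      exact mul_le_mul_of_nonneg_left a2 (abs_nonneg a)

lemma It.sub (h : Nm μ R B) (hF : It μ B T F b σ) (hG : It μ B T G c ρ) :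
    It μ B T (fun t s => F t s - G t s) (fun t s => b t s - c t s)
      (fun t s k => σ t s k - ρ t s k) := by
  refine (It.add h hF (It.cmul h hG (-1))).congr h (fun t s _ _ _ => ?_) (fun t s _ _ _ => ?_)
    (fun t s _ _ _ => ?_)
  · ring
  · ring
  · funext k
    ring

lemma It.mul (_h : Nm μ R B) (hF : It μ B T F b σ) (hG : It μ B T G c ρ) :
    It μ B T (fun t s => F t s * G t s)
      (fun t s => b t s * G t s + F t s * c t s + ∑ k, σ t s k * ρ t s k)
      (fun t s k => σ t s k * G t s + F t s * ρ t s k) := by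
  obtain ⟨C, hC, h1, h2⟩ := hF.pair hG
  have hn : (0 : ℝ) ≤ n := Nat.cast_nonneg n
  have hCC : 0 ≤ C * C := by positivity
  refine ItC.it (C := (n + 3) ^ 2 * (C * C)) (by positivity)
    ⟨fun t s h3 h4 h5 => ?_, fun d t s h3 h4 h5 h6 h7 => ?_⟩
  · obtain ⟨a1, a2, a3⟩ := h1.1 t s h3 h4 h5
    obtain ⟨b1, b2, b3⟩ := h2.1 t s h3 h4 h5
    have m : ∀ {x y : ℝ}, |x| ≤ C → |y| ≤ C → |x * y| ≤ C * C := by
      intro x y hx hy
      rw [abs_mul]
      exact mul_le_mul hx hy (abs_nonneg _) hC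
    have m1 : 0 ≤ (n : ℝ) * (C * C) := by positivity
    have m2 : 0 ≤ (n : ℝ) ^ 2 * (C * C) := by positivity
    have m3 : ((n : ℝ) + 3) ^ 2 * (C * C) =
        (n : ℝ) ^ 2 * (C * C) + 6 * ((n : ℝ) * (C * C)) + 9 * (C * C) := by ring
    rw [m3]
    refine ⟨?_, ?_, fun k => ?_⟩
    · refine (m a1 b1).trans ?_
      linarith
    · have hs : |∑ k, σ t s k * ρ t s k| ≤ n * (C * C) := by
        refine (Finset.abs_sum_le_sum_abs _ _).trans ?_
        calc ∑ k, |σ t s k * ρ t s k| ≤ ∑ _k : Fin n, C * C :=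
              Finset.sum_le_sum fun k _ => m (a3 k) (b3 k)
          _ = n * (C * C) := by simp
      have h8 := abs_add_le (b t s * G t s + F t s * c t s) (∑ k, σ t s k * ρ t s k)
      have h9 := abs_add_le (b t s * G t s) (F t s * c t s)
      have h10 := m a2 b1
      have h11 := m a1 b2
      linarith
    · have h9 := abs_add_le (σ t s k * G t s) (F t s * ρ t s k)
      have h10 := m (a3 k) b1
      have h11 := m a1 (b3 k)
      linarith
  · have h66 : t ≤ T := le_trans (by nlinarith [sq_nonneg d]) h6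
    obtain ⟨a1, a2, a3⟩ := h1.1 t s h5 h66 h7
    obtain ⟨b1, b2, b3⟩ := h2.1 t s h5 h66 h7
    obtain ⟨a4, a5⟩ := h1.2 d t s h3 h4 h5 h6 h7
    obtain ⟨b4, b5⟩ := h2.2 d t s h3 h4 h5 h6 h7
    have hd2 : d ^ 2 ≤ d := by nlinarith
    have hd3 : 0 ≤ d ^ 3 := by positivity
    have hd43 : d ^ 4 ≤ d ^ 3 := by
      have : d ^ 4 = d * d ^ 3 := by ring
      rw [this]
      nlinarith
    have LF : ∀ e : Fin n → Bool, |∑ k, sg (e k) * σ t s k| ≤ n * C := fun e => lin_abs_le a3 e
    have LG : ∀ e : Fin n → Bool, |∑ k, sg (e k) * ρ t s k| ≤ n * C := fun e => lin_abs_le b3 e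
    set F' := fun e => F (t + d ^ 2) (stp μ d t s e) with hF'
    set G' := fun e => G (t + d ^ 2) (stp μ d t s e) with hG'
    set lF := fun e : Fin n → Bool => ∑ k, sg (e k) * σ t s k with hlF
    set lG := fun e : Fin n → Bool => ∑ k, sg (e k) * ρ t s k with hlG
    set rF := fun e => F' e - F t s - d * lF e with hrF
    set rG := fun e => G' e - G t s - d * lG e with hrG
    have hrFb : ∀ e, |rF e| ≤ C * d ^ 2 := a4
    have hrGb : ∀ e, |rG e| ≤ C * d ^ 2 := b4
    constructor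
    · intro e
      have e1 : F' e * G' e - F t s * G t s -
          d * ∑ k, sg (e k) * (σ t s k * G t s + F t s * ρ t s k) =
          F t s * rG e + G t s * rF e + (d * lF e + rF e) * (d * lG e + rG e) := by
        have : ∑ k, sg (e k) * (σ t s k * G t s + F t s * ρ t s k) =
            lF e * G t s + F t s * lG e := by
          simp only [hlF, hlG, Finset.sum_mul, Finset.mul_sum, ← Finset.sum_add_distrib]
          exact Finset.sum_congr rfl fun k _ => by ring
        rw [this]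
        simp only [hrF, hrG]
        ring
      change |F' e * G' e - F t s * G t s -
          d * ∑ k, sg (e k) * (σ t s k * G t s + F t s * ρ t s k)| ≤ _
      rw [e1]
      have q1 : |F t s * rG e| ≤ C * (C * d ^ 2) := by
        rw [abs_mul]
        exact mul_le_mul a1 (hrGb e) (abs_nonneg _) hC
      have q2 : |G t s * rF e| ≤ C * (C * d ^ 2) := by
        rw [abs_mul]
        exact mul_le_mul b1 (hrFb e) (abs_nonneg _) hC
      have q3 : |d * lF e + rF e| ≤ (n + 1) * C * d := by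
        refine (abs_add_le _ _).trans ?_
        rw [abs_mul, abs_of_nonneg h3]
        have := mul_le_mul_of_nonneg_left (LF e) h3
        have h8 := hrFb e
        have h9 : C * d ^ 2 ≤ C * d := mul_le_mul_of_nonneg_left hd2 hC
        simp only [hlF]
        linarith
      have q4 : |d * lG e + rG e| ≤ (n + 1) * C * d := by
        refine (abs_add_le _ _).trans ?_
        rw [abs_mul, abs_of_nonneg h3]
        have := mul_le_mul_of_nonneg_left (LG e) h3
        have h8 := hrGb e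
        have h9 : C * d ^ 2 ≤ C * d := mul_le_mul_of_nonneg_left hd2 hC
        simp only [hlG]
        linarith
      have q5 : |(d * lF e + rF e) * (d * lG e + rG e)| ≤
          ((n + 1) * C * d) * ((n + 1) * C * d) := by
        rw [abs_mul]
        exact mul_le_mul q3 q4 (abs_nonneg _) (by positivity)
      have q6 := abs_add_le (F t s * rG e + G t s * rF e)
        ((d * lF e + rF e) * (d * lG e + rG e))
      have q7 := abs_add_le (F t s * rG e) (G t s * rF e)
      have q8 : 0 ≤ C * C * d ^ 2 := by positivity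
      have q9 : 0 ≤ n * (C * C * d ^ 2) := by positivity
      have q10 : (n + 3) ^ 2 * (C * C) * d ^ 2 = C * (C * d ^ 2) + C * (C * d ^ 2) +
        (n + 1) * C * d * ((n + 1) * C * d) + (6 * (C * C * d ^ 2) +
          4 * (n * (C * C * d ^ 2))) := by ring
      linarith
    · have e1 : av (fun e => F' e * G' e) - F t s * G t s -
          d ^ 2 * (b t s * G t s + F t s * c t s + ∑ k, σ t s k * ρ t s k) =
          F t s * (av G' - G t s - d ^ 2 * c t s) + G t s * (av F' - F t s - d ^ 2 * b t s) +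
          av (fun e => d * (lF e * rG e) + (d * (lG e * rF e) + rF e * rG e)) := by
        have h8 : (fun e => F' e * G' e) = fun e => (F t s * G' e + G t s * F' e) +
            ((d ^ 2 * (lF e * lG e) - F t s * G t s) +
              (d * (lF e * rG e) + (d * (lG e * rF e) + rF e * rG e))) := by
          funext e
          simp only [hrF, hrG]
          ring
        have h9 : av (fun e => lF e * lG e) = ∑ k, σ t s k * ρ t s k := av_lin_lin _ _
        rw [h8, av_add, av_add, av_add, av_sub, av_cmul, av_cmul, av_cmul, av_const, h9]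
        ring
      change |av (fun e => F' e * G' e) - F t s * G t s -
          d ^ 2 * (b t s * G t s + F t s * c t s + ∑ k, σ t s k * ρ t s k)| ≤ _
      rw [e1]
      have q1 : |F t s * (av G' - G t s - d ^ 2 * c t s)| ≤ C * (C * d ^ 3) := by
        rw [abs_mul]
        exact mul_le_mul a1 b5 (abs_nonneg _) hC
      have q2 : |G t s * (av F' - F t s - d ^ 2 * b t s)| ≤ C * (C * d ^ 3) := by
        rw [abs_mul]
        exact mul_le_mul b1 a5 (abs_nonneg _) hC
      have q3 : |av (fun e => d * (lF e * rG e) + (d * (lG e * rF e) + rF e * rG e))| ≤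
          (2 * n + 1) * (C * C) * d ^ 3 := by
        refine av_abs_le fun e => ?_
        have r1 : |d * (lF e * rG e)| ≤ d * ((n * C) * (C * d ^ 2)) := by
          rw [abs_mul, abs_of_nonneg h3, abs_mul]
          exact mul_le_mul_of_nonneg_left
            (mul_le_mul (LF e) (hrGb e) (abs_nonneg _) (by positivity)) h3
        have r2 : |d * (lG e * rF e)| ≤ d * ((n * C) * (C * d ^ 2)) := by
          rw [abs_mul, abs_of_nonneg h3, abs_mul]
          exact mul_le_mul_of_nonneg_left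
            (mul_le_mul (LG e) (hrFb e) (abs_nonneg _) (by positivity)) h3
        have r3 : |rF e * rG e| ≤ (C * d ^ 2) * (C * d ^ 2) := by
          rw [abs_mul]
          exact mul_le_mul (hrFb e) (hrGb e) (abs_nonneg _) (by positivity)
        have r4 := abs_add_le (d * (lF e * rG e)) (d * (lG e * rF e) + rF e * rG e)
        have r5 := abs_add_le (d * (lG e * rF e)) (rF e * rG e)
        have r6 : (C * d ^ 2) * (C * d ^ 2) ≤ (C * C) * d ^ 3 := by
          have : (C * d ^ 2) * (C * d ^ 2) = (C * C) * d ^ 4 := by ring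
          rw [this]
          exact mul_le_mul_of_nonneg_left hd43 hCC
        calc |d * (lF e * rG e) + (d * (lG e * rF e) + rF e * rG e)|
            ≤ d * ((n * C) * (C * d ^ 2)) + (d * ((n * C) * (C * d ^ 2)) + (C * C) * d ^ 3) := by
              linarith
          _ = (2 * n + 1) * (C * C) * d ^ 3 := by ring
      have q6 := abs_add_le (F t s * (av G' - G t s - d ^ 2 * c t s) +
        G t s * (av F' - F t s - d ^ 2 * b t s))
        (av (fun e => d * (lF e * rG e) + (d * (lG e * rF e) + rF e * rG e)))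
      have q7 := abs_add_le (F t s * (av G' - G t s - d ^ 2 * c t s))
        (G t s * (av F' - F t s - d ^ 2 * b t s))
      have q8 : 0 ≤ C * C * d ^ 3 := by positivity
      have q9 : 0 ≤ n * (C * C * d ^ 3) := by positivity
      have q10 : 0 ≤ n ^ 2 * (C * C * d ^ 3) := by positivity
      have q11 : (n + 3) ^ 2 * (C * C) * d ^ 3 = C * (C * d ^ 3) + C * (C * d ^ 3) +
        (2 * n + 1) * (C * C) * d ^ 3 + (6 * (C * C * d ^ 3) +
          4 * (n * (C * C * d ^ 3)) + n ^ 2 * (C * C * d ^ 3)) := by ring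
      linarith

lemma It.sum (h : Nm μ R B) {ι : Type*} (S : Finset ι) {F b : ι → ℝ → St n → ℝ}
    {σ : ι → ℝ → St n → Fin n → ℝ} (hF : ∀ i ∈ S, It μ B T (F i) (b i) (σ i)) :
    It μ B T (fun t s => ∑ i ∈ S, F i t s) (fun t s => ∑ i ∈ S, b i t s)
      (fun t s k => ∑ i ∈ S, σ i t s k) := by
  classical
  induction S using Finset.induction_on with
  | empty => simpa using It.const (T := T) h 0
  | insert a S ha ih =>
    have h1 := It.add h (hF a (Finset.mem_insert_self a S))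
      (ih fun i hi => hF i (Finset.mem_insert_of_mem hi))
    simp only [Finset.sum_insert ha]
    exact h1

/-- functions of the time -/
lemma It.time (_h : Nm μ R B) {f f' : ℝ → ℝ} {C : ℝ}
    (h1 : ∀ t, 0 ≤ t → t ≤ T → |f t| ≤ C ∧ |f' t| ≤ C)
    (h2 : ∀ t t', 0 ≤ t → t ≤ t' → t' ≤ T → |f t' - f t - (t' - t) * f' t| ≤ C * (t' - t) ^ 2) :
    It μ B T (fun t _ => f t) (fun t _ => f' t) (fun _ _ _ => 0) := by
  refine ItC.it (C := 2 * |C|) (by positivity)
    ⟨fun t s h3 h4 h5 => ?_, fun d t s h3 h4 h5 h6 h7 => ?_⟩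
  · obtain ⟨a1, a2⟩ := h1 t h3 h4
    have h6 := le_abs_self C
    have h7 := abs_nonneg C
    refine ⟨by linarith, by linarith, fun k => ?_⟩
    simp
  · have h66 : t ≤ T := le_trans (by nlinarith [sq_nonneg d]) h6
    obtain ⟨a1, a2⟩ := h1 t h5 h66
    have a3 := h2 t (t + d ^ 2) h5 (by nlinarith [sq_nonneg d]) h6
    have e1 : t + d ^ 2 - t = d ^ 2 := by ring
    rw [e1] at a3
    have h8 := le_abs_self C
    have h9 := abs_nonneg C
    have hd2 : 0 ≤ d ^ 2 := by positivity
    have hd21 : d ^ 2 ≤ 1 := by nlinarith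
    have hd42 : (d ^ 2) ^ 2 ≤ d ^ 2 := by
      calc (d ^ 2) ^ 2 = d ^ 2 * d ^ 2 := by ring
        _ ≤ d ^ 2 * 1 := mul_le_mul_of_nonneg_left hd21 hd2
        _ = d ^ 2 := mul_one _
    have hd43 : (d ^ 2) ^ 2 ≤ d ^ 3 := by
      have : (d ^ 2) ^ 2 = d * d ^ 3 := by ring
      rw [this]
      have : 0 ≤ d ^ 3 := by positivity
      nlinarith
    have a4 : |f (t + d ^ 2) - f t - d ^ 2 * f' t| ≤ |C| * (d ^ 2) ^ 2 :=
      a3.trans (mul_le_mul_of_nonneg_right h8 (by positivity))
    constructor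
    · intro e
      simp only [mul_zero, Finset.sum_const_zero, sub_zero]
      have a5 : |d ^ 2 * f' t| ≤ |C| * d ^ 2 := by
        rw [abs_mul, abs_of_nonneg hd2, mul_comm]
        exact mul_le_mul_of_nonneg_right (a2.trans h8) hd2
      have a6 := abs_add_le (f (t + d ^ 2) - f t - d ^ 2 * f' t) (d ^ 2 * f' t)
      have a7 : f (t + d ^ 2) - f t - d ^ 2 * f' t + d ^ 2 * f' t = f (t + d ^ 2) - f t := by ring
      rw [a7] at a6
      nlinarith
    · simp only [av_const]
      have : 0 ≤ |C| * d ^ 3 := by positivity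
      nlinarith

lemma It.tau (h : Nm μ R B) (η : ℝ) :
    It μ B T (fun t _ => η + t) (fun _ _ => 1) (fun _ _ _ => 0) := by
  refine It.time h (f := fun t => η + t) (f' := fun _ => 1) (C := |η| + |T| + 1)
    (fun t h1 h2 => ⟨?_, ?_⟩) (fun t t' h1 h2 h3 => ?_)
  · have h3 := abs_add_le η t
    rw [abs_of_nonneg h1] at h3
    have h4 := le_abs_self T
    linarith
  · rw [abs_one]
    have := abs_nonneg η
    have := abs_nonneg T
    linarith
  · have : η + t' - (η + t) - (t' - t) * 1 = 0 := by ring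
    rw [this, abs_zero]
    positivity

lemma It.tau_inv (h : Nm μ R B) (hη : 0 < η) :
    It μ B T (fun t _ => (η + t)⁻¹) (fun t _ => - ((η + t)⁻¹) ^ 2) (fun _ _ _ => 0) := by
  refine It.time h (f := fun t => (η + t)⁻¹) (f' := fun t => - ((η + t)⁻¹) ^ 2)
    (C := η⁻¹ + η⁻¹ ^ 2 + η⁻¹ ^ 3)
    (fun t h1 h2 => ?_) (fun t t' h1 h2 h3 => ?_)
  · have h3 : 0 < η + t := by linarith
    have h4 : (η + t)⁻¹ ≤ η⁻¹ := inv_anti₀ hη (by linarith)
    have h5 : 0 < (η + t)⁻¹ := inv_pos.mpr h3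
    have h6 : 0 < η⁻¹ := inv_pos.mpr hη
    have h7 : (η + t)⁻¹ ^ 2 ≤ η⁻¹ ^ 2 := pow_le_pow_left₀ h5.le h4 2
    have h8 : 0 ≤ η⁻¹ ^ 3 := by positivity
    constructor
    · rw [abs_of_pos h5]
      nlinarith
    · rw [abs_neg, abs_of_nonneg (by positivity)]
      nlinarith
  · have h4 : 0 < η + t := by linarith
    have h5 : 0 < η + t' := by linarith
    have e1 : (η + t')⁻¹ - (η + t)⁻¹ - (t' - t) * -((η + t)⁻¹) ^ 2 =
        ((η + t)⁻¹ ^ 2 * (η + t')⁻¹) * (t' - t) ^ 2 := by
      field_simp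
      ring
    rw [e1]
    have h6 : (η + t)⁻¹ ≤ η⁻¹ := inv_anti₀ hη (by linarith)
    have h7 : (η + t')⁻¹ ≤ η⁻¹ := inv_anti₀ hη (by linarith)
    have h8 : 0 < (η + t)⁻¹ := inv_pos.mpr h4
    have h9 : 0 < (η + t')⁻¹ := inv_pos.mpr h5
    have h10 : 0 < η⁻¹ := inv_pos.mpr hη
    have h11 : (η + t)⁻¹ ^ 2 ≤ η⁻¹ ^ 2 := pow_le_pow_left₀ h8.le h6 2
    have h12 : (η + t)⁻¹ ^ 2 * (η + t')⁻¹ ≤ η⁻¹ ^ 2 * η⁻¹ :=
      mul_le_mul h11 h7 h9.le (by positivity)
    rw [abs_of_nonneg (by positivity)]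
    refine mul_le_mul_of_nonneg_right ?_ (by positivity)
    have h13 : η⁻¹ ^ 2 * η⁻¹ = η⁻¹ ^ 3 := by ring
    have h14 : 0 ≤ η⁻¹ ^ 2 := by positivity
    linarith

lemma exp_taylor (x : ℝ) : |Real.exp x - 1 - x| ≤ 3 * x ^ 2 * Real.exp |x| := by
  by_cases hx : |x| ≤ 1
  · have h1 := Real.abs_exp_sub_one_sub_id_le hx
    have h2 : 1 ≤ Real.exp |x| := Real.one_le_exp (abs_nonneg x)
    have h3 : 0 ≤ x ^ 2 := by positivity
    nlinarith
  · have hx' : 1 < |x| := lt_of_not_ge hx
    have h1 : Real.exp x ≤ Real.exp |x| := Real.exp_le_exp.mpr (le_abs_self x)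
    have h2 : 1 ≤ Real.exp |x| := Real.one_le_exp (abs_nonneg x)
    have h3 : |x| ≤ Real.exp |x| := by
      have := Real.add_one_le_exp |x|
      linarith
    have h4 : |Real.exp x - 1 - x| ≤ Real.exp x + 1 + |x| := by
      have a := abs_sub (Real.exp x - 1) x
      have b := abs_sub (Real.exp x) 1
      rw [abs_of_pos (Real.exp_pos x), abs_one] at b
      linarith
    have h5 : 1 ≤ x ^ 2 := by
      rw [← sq_abs]
      nlinarith
    have h6 : 0 < Real.exp |x| := Real.exp_pos _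
    nlinarith

lemma It.exp (h : Nm μ R B) (l : ℝ) :
    It μ B T (fun t _ => Real.exp (-(l * t))) (fun t _ => -(l * Real.exp (-(l * t))))
      (fun _ _ _ => 0) := by
  have key : ∀ t, 0 ≤ t → t ≤ T → Real.exp (-(l * t)) ≤ Real.exp (|l| * |T|) := by
    intro t h1 h2
    refine Real.exp_le_exp.mpr ?_
    calc -(l * t) ≤ |l * t| := neg_le_abs _
      _ = |l| * |t| := abs_mul _ _
      _ ≤ |l| * |T| := by
          refine mul_le_mul_of_nonneg_left ?_ (abs_nonneg l)
          rw [abs_of_nonneg h1]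
          exact h2.trans (le_abs_self T)
  have hE : 0 < Real.exp (|l| * |T|) := Real.exp_pos _
  refine It.time h (f := fun t => Real.exp (-(l * t))) (f' := fun t => -(l * Real.exp (-(l * t))))
    (C := Real.exp (|l| * |T|) + |l| * Real.exp (|l| * |T|) +
      3 * l ^ 2 * Real.exp (|l| * |T|) * Real.exp (|l| * |T|))
    (fun t h1 h2 => ?_) (fun t t' h1 h2 h3 => ?_)
  · have h3 := key t h1 h2
    have h4 : 0 < Real.exp (-(l * t)) := Real.exp_pos _
    have h5 : 0 ≤ |l| * Real.exp (|l| * |T|) := by positivity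
    have h6 : 0 ≤ 3 * l ^ 2 * Real.exp (|l| * |T|) * Real.exp (|l| * |T|) := by positivity
    constructor
    · rw [abs_of_pos h4]
      linarith
    · rw [abs_neg, abs_mul, abs_of_pos h4]
      have := mul_le_mul_of_nonneg_left h3 (abs_nonneg l)
      linarith
  · have h4 := key t h1 (h2.trans h3)
    have h5 : 0 < Real.exp (-(l * t)) := Real.exp_pos _
    set x := -(l * (t' - t)) with hx
    have e0 : Real.exp (-(l * t')) = Real.exp (-(l * t)) * Real.exp x := by
      rw [← Real.exp_add]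
      congr 1
      rw [hx]
      ring
    have e1 : Real.exp (-(l * t')) - Real.exp (-(l * t)) - (t' - t) * -(l * Real.exp (-(l * t))) =
        Real.exp (-(l * t)) * (Real.exp x - 1 - x) := by
      rw [e0, hx]
      ring
    have e2 : |x| ≤ |l| * |T| := by
      rw [hx, abs_neg, abs_mul]
      refine mul_le_mul_of_nonneg_left ?_ (abs_nonneg l)
      rw [abs_of_nonneg (by linarith)]
      have := le_abs_self T
      linarith
    have e3 : Real.exp |x| ≤ Real.exp (|l| * |T|) := Real.exp_le_exp.mpr e2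
    rw [e1, abs_mul, abs_of_pos h5]
    have h6 := exp_taylor x
    have e4 : x ^ 2 = l ^ 2 * (t' - t) ^ 2 := by rw [hx]; ring
    have h7 : |Real.exp x - 1 - x| ≤ 3 * x ^ 2 * Real.exp (|l| * |T|) :=
      h6.trans (mul_le_mul_of_nonneg_left e3 (by positivity))
    calc Real.exp (-(l * t)) * |Real.exp x - 1 - x|
        ≤ Real.exp (|l| * |T|) * (3 * x ^ 2 * Real.exp (|l| * |T|)) :=
          mul_le_mul h4 h7 (abs_nonneg _) hE.le
      _ = (3 * l ^ 2 * Real.exp (|l| * |T|) * Real.exp (|l| * |T|)) * (t' - t) ^ 2 := by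
          rw [e4]; ring
      _ ≤ _ := by
          refine mul_le_mul_of_nonneg_right ?_ (by positivity)
          have : 0 ≤ |l| * Real.exp (|l| * |T|) := by positivity
          linarith

end itc

section mitc
variable {F G b c : ℝ → St n → Mat n} {σ ρ : ℝ → St n → Fin n → Mat n}
  {f a : ℝ → St n → ℝ} {g : ℝ → St n → Fin n → ℝ}

lemma MIt.congr (h : Nm μ R B) (hF : MIt μ B T F b σ)
    (e1 : ∀ t s, 0 ≤ t → t ≤ T → Rg B t s → F t s = G t s)
    (e2 : ∀ t s, 0 ≤ t → t ≤ T → Rg B t s → b t s = c t s)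
    (e3 : ∀ t s, 0 ≤ t → t ≤ T → Rg B t s → σ t s = ρ t s) : MIt μ B T G c ρ := by
  intro i j
  refine (hF i j).congr h (fun t s h1 h2 h3 => ?_) (fun t s h1 h2 h3 => ?_)
    (fun t s h1 h2 h3 => ?_)
  · rw [e1 t s h1 h2 h3]
  · rw [e2 t s h1 h2 h3]
  · rw [e3 t s h1 h2 h3]

lemma MIt.const (h : Nm μ R B) (M : Mat n) :
    MIt μ B T (fun _ _ => M) (fun _ _ => 0) (fun _ _ _ => 0) := by
  intro i j
  exact It.const h (M i j)

lemma MIt.add (h : Nm μ R B) (hF : MIt μ B T F b σ) (hG : MIt μ B T G c ρ) :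
    MIt μ B T (fun t s => F t s + G t s) (fun t s => b t s + c t s)
      (fun t s k => σ t s k + ρ t s k) := by
  intro i j
  exact It.add h (hF i j) (hG i j)

lemma MIt.sub (h : Nm μ R B) (hF : MIt μ B T F b σ) (hG : MIt μ B T G c ρ) :
    MIt μ B T (fun t s => F t s - G t s) (fun t s => b t s - c t s)
      (fun t s k => σ t s k - ρ t s k) := by
  intro i j
  exact It.sub h (hF i j) (hG i j)

lemma MIt.smul (h : Nm μ R B) (hf : It μ B T f a g) (hF : MIt μ B T F b σ) :
    MIt μ B T (fun t s => f t s • F t s)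
      (fun t s => a t s • F t s + f t s • b t s + ∑ k, g t s k • σ t s k)
      (fun t s k => g t s k • F t s + f t s • σ t s k) := by
  intro i j
  refine (It.mul h hf (hF i j)).congr h (fun t s _ _ _ => ?_) (fun t s _ _ _ => ?_)
    (fun t s _ _ _ => ?_)
  · simp [Matrix.smul_apply]
  · simp [Matrix.smul_apply, Matrix.add_apply, Matrix.sum_apply]
  · funext k
    simp [Matrix.smul_apply, Matrix.add_apply]

lemma MIt.mul (h : Nm μ R B) (hF : MIt μ B T F b σ) (hG : MIt μ B T G c ρ) :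
    MIt μ B T (fun t s => F t s * G t s)
      (fun t s => b t s * G t s + F t s * c t s + ∑ k, σ t s k * ρ t s k)
      (fun t s k => σ t s k * G t s + F t s * ρ t s k) := by
  intro i j
  refine (It.sum h Finset.univ fun l _ => It.mul h (hF i l) (hG l j)).congr h
    (fun t s _ _ _ => ?_) (fun t s _ _ _ => ?_) (fun t s _ _ _ => ?_)
  · simp [Matrix.mul_apply]
  · simp only [Matrix.add_apply, Matrix.mul_apply, Matrix.sum_apply, Finset.sum_add_distrib]
    congr 1
    exact Finset.sum_comm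
  · funext k
    simp [Matrix.mul_apply, Matrix.add_apply, Finset.sum_add_distrib]

lemma MIt.transpose (hF : MIt μ B T F b σ) :
    MIt μ B T (fun t s => (F t s)ᵀ) (fun t s => (b t s)ᵀ) (fun t s k => (σ t s k)ᵀ) := by
  intro i j
  exact hF j i

lemma MIt.trace (h : Nm μ R B) (hF : MIt μ B T F b σ) :
    It μ B T (fun t s => (F t s).trace) (fun t s => (b t s).trace)
      (fun t s k => (σ t s k).trace) :=
  It.sum h Finset.univ fun i _ => hF i i

end mitc

end Pool.Agent.Lib.MP_6d896a_gt.LG
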