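import Mathlib
import Pool.Agent.Lib.MP_6d896a_gt.LG.Basic
import Pool.Agent.Lib.MP_6d896a_gt.LG.ItCalc
import Pool.Agent.Lib.MP_6d896a_gt.LG.Atoms

/-!
Project LG, piece PX3: drift and diffusion of the covariance matrix, of covariances with a vector
field and of variances.
-/

set_option autoImplicit false

namespace Pool.Agent.Lib.MP_6d896a_gt.LG

open MeasureTheory Filter Topology Set Matrix
open scoped ENNReal NNReal

variable {n : ℕ} {μ ν : Measure (Eu n)} {R B T η : ℝ}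

private lemma mn_apply (ν : Measure (Eu n)) (i : Fin n) : mn ν i = ∫ x, x i ∂ν := rfl

private lemma meas_coord (i : Fin n) : Measurable fun x : Eu n => x i :=
  (PiLp.continuous_apply 2 _ i).measurable

private lemma bd_mul {φ ψ : Eu n → ℝ} {M N : ℝ} (h1 : ∀ᵐ x ∂μ, |φ x| ≤ M)
    (h2 : ∀ᵐ x ∂μ, |ψ x| ≤ N) : ∀ᵐ x ∂μ, |φ x * ψ x| ≤ |M| * |N| := by
  filter_upwards [h1, h2] with x a1 a2
  rw [abs_mul]
  exact mul_le_mul (a1.trans (le_abs_self _)) (a2.trans (le_abs_self _)) (abs_nonneg _)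
    (abs_nonneg _)

/-- covariance of two bounded functions -/
private lemma it_cv (h : Nm μ R B) {φ ψ : Eu n → ℝ} (hφ : Measurable φ) (hψ : Measurable ψ)
    {M N : ℝ} (bφ : ∀ᵐ x ∂μ, |φ x| ≤ M) (bψ : ∀ᵐ x ∂μ, |ψ x| ≤ N) :
    It μ B T (fun t s => Cv (tl μ t s.1) φ ψ)
      (fun t s => - ∑ k, Cv (tl μ t s.1) (fun x => x k) φ * Cv (tl μ t s.1) (fun x => x k) ψ)
      (fun t s k => Cv (tl μ t s.1) (fun x => x k) (fun x => φ x * ψ x) -
        (Cv (tl μ t s.1) (fun x => x k) φ * (∫ x, ψ x ∂(tl μ t s.1)) +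
          (∫ x, φ x ∂(tl μ t s.1)) * Cv (tl μ t s.1) (fun x => x k) ψ)) := by
  have e1 := It.ev (T := T) h (hφ.mul hψ) (bd_mul bφ bψ)
  have e2 := It.ev (T := T) h hφ bφ
  have e3 := It.ev (T := T) h hψ bψ
  refine It.congr h (e1.sub h (e2.mul h e3)) ?_ ?_ ?_
  · intro t s _ _ _
    rfl
  · intro t s _ _ _
    simp
  · intro t s _ _ _
    funext k
    rfl

private lemma hm_eq [IsProbabilityMeasure ν] (hR : BS R ν) (k i j : Fin n) :
    Hm ν k i j = Cv ν (fun x => x k) (fun x => x i * x j) -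
      (Cv ν (fun x => x k) (fun x => x i) * (∫ x, x j ∂ν) +
        (∫ x, x i ∂ν) * Cv ν (fun x => x k) (fun x => x j)) := by
  have bk : BM ν fun x => x k := BM.coord hR k
  have bi : BM ν fun x => x i := BM.coord hR i
  have bj : BM ν fun x => x j := BM.coord hR j
  set a := ∫ x, x k ∂ν with ha
  set b := ∫ x, x i ∂ν with hb
  set c := ∫ x, x j ∂ν with hc
  have bg : BM ν fun x => (x i - b) * (x j - c) := (bi.sub (BM.const b)).mul (bj.sub (BM.const c))
  have e1 : Hm ν k i j = Cv ν (fun x => x k) (fun x => (x i - b) * (x j - c)) := by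
    unfold Hm Cv
    simp only [mn_apply]
    rw [← ha, ← hb, ← hc]
    have e : ∀ x : Eu n, (x k - a) * ((x i - b) * (x j - c)) =
        x k * ((x i - b) * (x j - c)) - a * ((x i - b) * (x j - c)) := fun x => by ring
    simp only [e]
    rw [integral_sub (bk.mul bg).int (bg.cmul a).int, integral_const_mul]
  have e2 : (fun x : Eu n => (x i - b) * (x j - c)) = fun x =>
      (x i * x j - c * x i) - (b * x j - b * c) := by
    funext x
    ring
  rw [e1, e2, Cv_sub_right (((bi.mul bj).sub (bi.cmul c))) ((bj.cmul b).sub (BM.const _)) bk]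
  rw [Cv_sub_right (bi.mul bj) (bi.cmul c) bk, Cv_sub_right (bj.cmul b) (BM.const _) bk,
    Cv_cmul_right, Cv_cmul_right, Cv_const_right]
  ring

theorem MIt.A (h : Nm μ R B) :
    MIt μ B T (fun t s => Am (tl μ t s.1)) (fun t s => - (Am (tl μ t s.1) * Am (tl μ t s.1)))
      (fun t s k => Hm (tl μ t s.1) k) := by
  intro i j
  have hi := BS.coord_ae h.bs i
  have hj := BS.coord_ae h.bs j
  refine It.congr h (it_cv (T := T) h (meas_coord i) (meas_coord j) hi hj) ?_ ?_ ?_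
  · intro t s _ _ _
    rfl
  · intro t s _ _ _
    change _ = (-(Am (tl μ t s.1) * Am (tl μ t s.1)) : Mat n) i j
    rw [Matrix.neg_apply, Matrix.mul_apply]
    congr 1
    refine Finset.sum_congr rfl fun k _ => ?_
    rw [Am_symm _ i k]
    rfl
  · intro t s _ _ _
    funext k
    have := tl_prob h t s.1
    exact (hm_eq (tl_BS h t s.1) k i j).symm

theorem MIt.N (h : Nm μ R B) {φ : Fin n → Eu n → ℝ} (hm : ∀ j, Measurable (φ j)) {M : ℝ}
    (hb : ∀ j, ∀ᵐ x ∂μ, |φ j x| ≤ M) :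
    ∃ σ, MIt μ B T (fun t s => Nv (tl μ t s.1) φ)
      (fun t s => - (Am (tl μ t s.1) * Nv (tl μ t s.1) φ)) σ := by
  refine ⟨fun t s k => Matrix.of fun i j =>
    Cv (tl μ t s.1) (fun x => x k) (fun x => x i * φ j x) -
        (Cv (tl μ t s.1) (fun x => x k) (fun x => x i) * (∫ x, φ j x ∂(tl μ t s.1)) +
          (∫ x, x i ∂(tl μ t s.1)) * Cv (tl μ t s.1) (fun x => x k) (φ j)), ?_⟩
  intro i j
  refine It.congr h (it_cv (T := T) h (meas_coord i) (hm j) (BS.coord_ae h.bs i) (hb j)) ?_ ?_ ?_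
  · intro t s _ _ _
    rfl
  · intro t s _ _ _
    change _ = (-(Am (tl μ t s.1) * Nv (tl μ t s.1) φ) : Mat n) i j
    rw [Matrix.neg_apply, Matrix.mul_apply]
    congr 1
    refine Finset.sum_congr rfl fun k _ => ?_
    rw [Am_symm _ i k]
    rfl
  · intro t s _ _ _
    funext k
    rfl

theorem It.var (h : Nm μ R B) {φ : Eu n → ℝ} (hm : Measurable φ) {M : ℝ}
    (hb : ∀ᵐ x ∂μ, |φ x| ≤ M) :
    ∃ σ, It μ B T (fun t s => Cv (tl μ t s.1) φ φ)
      (fun t s => - ∑ k, Cv (tl μ t s.1) (fun x => x k) φ ^ 2) σ := by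
  refine ⟨_, It.congr h (it_cv (T := T) h hm hm hb hb) (fun _ _ _ _ _ => rfl) ?_
    (fun _ _ _ _ _ => rfl)⟩
  intro t s _ _ _
  congr 1
  exact Finset.sum_congr rfl fun k _ => (sq _).symm

end Pool.Agent.Lib.MP_6d896a_gt.LG
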