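import Mathlib
import Pool.Agent.Lib.MP_6d896a_gt.LG.Chain

/-!
The inverse rule for the calculus of the random walk.
-/

set_option autoImplicit false

namespace Pool.Agent.Lib.MP_6d896a_gt.LG

open MeasureTheory Filter Topology Set Matrix
open scoped ENNReal NNReal

variable {n : ℕ} {μ ν : Measure (Eu n)} {R B T η : ℝ}

section abstr
variable {𝓐 : Type*} [NormedRing 𝓐] [NormedAlgebra ℝ 𝓐]

/-- the average over all signs with values in an algebra -/
private noncomputable def avv (F : (Fin n → Bool) → 𝓐) : 𝓐 := (2 ^ n : ℝ)⁻¹ • ∑ e, F e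

private lemma avv_add (F G : (Fin n → Bool) → 𝓐) :
    avv (fun e => F e + G e) = avv F + avv G := by
  unfold avv
  rw [Finset.sum_add_distrib, smul_add]

private lemma avv_sub (F G : (Fin n → Bool) → 𝓐) :
    avv (fun e => F e - G e) = avv F - avv G := by
  unfold avv
  rw [Finset.sum_sub_distrib, smul_sub]

private lemma avv_rsmul (f : (Fin n → Bool) → ℝ) (a : 𝓐) :
    avv (fun e => f e • a) = av f • a := by
  unfold avv av
  rw [← Finset.sum_smul, smul_smul]

private lemma avv_const (a : 𝓐) : avv (fun _ : Fin n → Bool => a) = a := by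
  have h := avv_rsmul (n := n) (fun _ => (1 : ℝ)) a
  rw [av_const] at h
  simpa using h

private lemma avv_sum {ι : Type*} (S : Finset ι) (F : ι → (Fin n → Bool) → 𝓐) :
    avv (fun e => ∑ i ∈ S, F i e) = ∑ i ∈ S, avv (F i) := by
  unfold avv
  rw [Finset.sum_comm, Finset.smul_sum]

private lemma avv_mul_mul (a c : 𝓐) (F : (Fin n → Bool) → 𝓐) :
    avv (fun e => a * F e * c) = a * avv F * c := by
  unfold avv
  rw [← Finset.sum_mul, ← Finset.mul_sum, mul_smul_comm, smul_mul_assoc]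

private lemma avv_norm_le {F : (Fin n → Bool) → 𝓐} {c : ℝ} (h : ∀ e, ‖F e‖ ≤ c) :
    ‖avv F‖ ≤ c := by
  unfold avv
  rw [norm_smul]
  have h1 : ‖((2 : ℝ) ^ n)⁻¹‖ = (2 ^ n : ℝ)⁻¹ := by
    rw [Real.norm_of_nonneg (by positivity)]
  rw [h1]
  have h2 : (2 ^ n : ℝ)⁻¹ * ‖∑ e, F e‖ ≤ (2 ^ n : ℝ)⁻¹ * ∑ e, ‖F e‖ :=
    mul_le_mul_of_nonneg_left (norm_sum_le _ _) (by positivity)
  have h3 : av (fun e => ‖F e‖) ≤ c := by
    rw [← av_const (n := n) c]
    exact av_mono h
  exact h2.trans h3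

private lemma avv_lin_lin (Y : 𝓐) (σ : Fin n → 𝓐) :
    avv (fun e => (∑ k, sg (e k) • σ k) * Y * ∑ k, sg (e k) • σ k) = ∑ k, σ k * Y * σ k := by
  have h1 : (fun e : Fin n → Bool => (∑ k, sg (e k) • σ k) * Y * ∑ l, sg (e l) • σ l) =
      fun e => ∑ k, ∑ l, (sg (e k) * sg (e l)) • (σ k * Y * σ l) := by
    funext e
    rw [Finset.sum_mul, Finset.sum_mul_sum]
    refine Finset.sum_congr rfl fun k _ => Finset.sum_congr rfl fun l _ => ?_
    rw [smul_mul_assoc, smul_mul_smul_comm]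
  rw [h1, avv_sum]
  refine Finset.sum_congr rfl fun k _ => ?_
  rw [avv_sum, Finset.sum_eq_single k]
  · rw [avv_rsmul, av_sg_sg, if_pos rfl, one_smul]
  · intro l _ hl
    rw [avv_rsmul, av_sg_sg, if_neg hl.symm, zero_smul]
  · simp

private lemma lin_norm_le {σ : Fin n → 𝓐} {C : ℝ} (h : ∀ k, ‖σ k‖ ≤ C) (e : Fin n → Bool) :
    ‖∑ k, sg (e k) • σ k‖ ≤ n * C := by
  refine (norm_sum_le _ _).trans ?_
  calc ∑ k, ‖sg (e k) • σ k‖ ≤ ∑ _k : Fin n, C := by
        refine Finset.sum_le_sum fun k _ => ?_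
        rw [norm_smul, Real.norm_eq_abs, sg_abs, one_mul]
        exact h k
    _ = n * C := by simp

omit [NormedAlgebra ℝ 𝓐] in
private lemma nmul {a b : 𝓐} {x y : ℝ} (ha : ‖a‖ ≤ x) (hb : ‖b‖ ≤ y) : ‖a * b‖ ≤ x * y :=
  (norm_mul_le a b).trans (mul_le_mul ha hb (norm_nonneg _) ((norm_nonneg _).trans ha))

/-- the expansion of the inverse -/
private lemma inv_exp {X b Y : 𝓐} {X' Y' : (Fin n → Bool) → 𝓐} {σ : Fin n → 𝓐} {C K d : ℝ}
    (hYX : Y * X = 1) (hXY' : ∀ e, X' e * Y' e = 1) (hC : 0 ≤ C)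
    (hd : 0 ≤ d) (hd1 : d ≤ 1) (hσ : ∀ k, ‖σ k‖ ≤ C)
    (h1 : ∀ e, ‖X' e - X - d • ∑ k, sg (e k) • σ k‖ ≤ C * d ^ 2)
    (h2 : ‖avv X' - X - d ^ 2 • b‖ ≤ C * d ^ 3) (hY : ‖Y‖ ≤ K) (hY' : ∀ e, ‖Y' e‖ ≤ K) :
    (∀ e, ‖Y' e - Y - d • ∑ k, sg (e k) • (-(Y * σ k * Y))‖ ≤
      (K ^ 2 * ((n + 1) * C) + 2 * K ^ 3 * ((n + 1) * C) ^ 2 + K ^ 4 * ((n + 1) * C) ^ 3) *
        d ^ 2) ∧
    ‖avv Y' - Y - d ^ 2 • (-(Y * b * Y) + ∑ k, Y * σ k * Y * σ k * Y)‖ ≤
      (K ^ 2 * ((n + 1) * C) + 2 * K ^ 3 * ((n + 1) * C) ^ 2 + K ^ 4 * ((n + 1) * C) ^ 3) *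
        d ^ 3 := by
  have hK : 0 ≤ K := (norm_nonneg _).trans hY
  set M : ℝ := (n + 1) * C with hM
  have hM0 : 0 ≤ M := by positivity
  have hCM : C ≤ M := by
    rw [hM]
    have : (0 : ℝ) ≤ n * C := by positivity
    linarith
  set L : (Fin n → Bool) → 𝓐 := fun e => ∑ k, sg (e k) • σ k with hL
  set D : (Fin n → Bool) → 𝓐 := fun e => X' e - X with hD
  set r : (Fin n → Bool) → 𝓐 := fun e => D e - d • L e with hr
  have hLn : ∀ e, ‖L e‖ ≤ M := fun e => (lin_norm_le hσ e).trans (by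
    rw [hM]; linarith)
  have hrn : ∀ e, ‖r e‖ ≤ M * d ^ 2 := fun e =>
    (h1 e).trans (mul_le_mul_of_nonneg_right hCM (by positivity))
  have hDr : ∀ e, D e = d • L e + r e := fun e => by simp [hr]
  have hDn : ∀ e, ‖D e‖ ≤ M * d := by
    intro e
    rw [hDr]
    have a1 : ‖d • L e‖ ≤ d * (n * C) := by
      rw [norm_smul, Real.norm_of_nonneg hd]
      exact mul_le_mul_of_nonneg_left (lin_norm_le hσ e) hd
    have a2 : ‖r e‖ ≤ C * d := (h1 e).trans (by nlinarith [mul_nonneg hC hd])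
    calc ‖d • L e + r e‖ ≤ d * (n * C) + C * d := (norm_add_le _ _).trans (add_le_add a1 a2)
      _ = M * d := by rw [hM]; ring
  -- the exact identity
  have hid : ∀ e, Y' e = Y - Y * D e * Y + Y * (D e * Y * D e) * Y -
      Y * D e * Y * D e * Y * D e * Y' e := by
    intro e
    have a1 : Y' e = Y - Y * D e * Y' e := by
      have : Y * D e * Y' e = Y * (X' e * Y' e) - (Y * X) * Y' e := by
        simp only [hD]; noncomm_ring
      rw [this, hXY', hYX]; simp
    have a2 : Y' e = Y - Y * D e * (Y - Y * D e * (Y - Y * D e * Y' e)) := by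
      rw [← a1, ← a1, ← a1]
    calc Y' e = Y - Y * D e * (Y - Y * D e * (Y - Y * D e * Y' e)) := a2
      _ = _ := by noncomm_ring
  have hE3 : ∀ e, ‖Y * D e * Y * D e * Y * D e * Y' e‖ ≤ K ^ 4 * M ^ 3 * d ^ 3 := by
    intro e
    have := nmul (nmul (nmul (nmul (nmul (nmul hY (hDn e)) hY) (hDn e)) hY) (hDn e)) (hY' e)
    refine this.trans (le_of_eq (by ring))
  constructor
  · intro e
    have a0 : Y' e - Y - d • ∑ k, sg (e k) • (-(Y * σ k * Y)) =
        -(Y * r e * Y) + Y * D e * Y * D e * Y - Y * D e * Y * D e * Y * D e * Y' e := by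
      have b1 : ∑ k, sg (e k) • (-(Y * σ k * Y)) = -(Y * L e * Y) := by
        simp only [hL, Finset.mul_sum, Finset.sum_mul, mul_smul_comm, smul_mul_assoc, smul_neg,
          Finset.sum_neg_distrib]
      rw [b1]
      have b2 : Y * D e * Y = d • (Y * L e * Y) + Y * r e * Y := by
        rw [hDr e, mul_add, add_mul, mul_smul_comm, smul_mul_assoc]
      have b3 := hid e
      have b4 : Y' e - Y - d • -(Y * L e * Y) = Y' e - Y + (Y * D e * Y) - Y * r e * Y := by
        rw [b2, smul_neg]; abel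
      rw [b4]
      nth_rewrite 1 [b3]
      noncomm_ring
    rw [a0]
    have c1 : ‖Y * r e * Y‖ ≤ K ^ 2 * M * d ^ 2 :=
      (nmul (nmul hY (hrn e)) hY).trans (le_of_eq (by ring))
    have c2 : ‖Y * D e * Y * D e * Y‖ ≤ K ^ 3 * M ^ 2 * d ^ 2 :=
      (nmul (nmul (nmul (nmul hY (hDn e)) hY) (hDn e)) hY).trans (le_of_eq (by ring))
    have c3 := hE3 e
    have c4 : K ^ 4 * M ^ 3 * d ^ 3 ≤ K ^ 4 * M ^ 3 * d ^ 2 := by
      refine mul_le_mul_of_nonneg_left ?_ (by positivity)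
      nlinarith [sq_nonneg d]
    have c5 : 0 ≤ K ^ 3 * M ^ 2 * d ^ 2 := by positivity
    calc _ ≤ ‖-(Y * r e * Y) + Y * D e * Y * D e * Y‖ + ‖Y * D e * Y * D e * Y * D e * Y' e‖ :=
          norm_sub_le _ _
      _ ≤ (‖-(Y * r e * Y)‖ + ‖Y * D e * Y * D e * Y‖) +
          ‖Y * D e * Y * D e * Y * D e * Y' e‖ := by
          gcongr; exact norm_add_le _ _
      _ ≤ (K ^ 2 * M * d ^ 2 + K ^ 3 * M ^ 2 * d ^ 2) + K ^ 4 * M ^ 3 * d ^ 2 := by
          rw [norm_neg]; gcongr; exact c3.trans c4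
      _ ≤ _ := by linarith
  · have a0 : avv Y' - Y - d ^ 2 • (-(Y * b * Y) + ∑ k, Y * σ k * Y * σ k * Y) =
        -(Y * (avv X' - X - d ^ 2 • b) * Y) +
          avv (fun e => Y * (D e * Y * D e - d ^ 2 • (L e * Y * L e)) * Y) -
          avv (fun e => Y * D e * Y * D e * Y * D e * Y' e) := by
      have b1 : avv Y' = Y - Y * avv D * Y + Y * avv (fun e => D e * Y * D e) * Y -
          avv (fun e => Y * D e * Y * D e * Y * D e * Y' e) := by
        have : Y' = fun e => Y - Y * D e * Y + Y * (D e * Y * D e) * Y -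
            Y * D e * Y * D e * Y * D e * Y' e := funext hid
        conv_lhs => rw [this]
        rw [avv_sub (fun e => Y - Y * D e * Y + Y * (D e * Y * D e) * Y), 
          avv_add (fun e => Y - Y * D e * Y), avv_sub (fun _ => Y), avv_const, avv_mul_mul,
          avv_mul_mul]
      have b2 : avv D = avv X' - X := by
        rw [hD, avv_sub, avv_const]
      have b3 : avv (fun e => Y * (D e * Y * D e - d ^ 2 • (L e * Y * L e)) * Y) =
          Y * avv (fun e => D e * Y * D e) * Y -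
            d ^ 2 • ∑ k, Y * σ k * Y * σ k * Y := by
        rw [avv_mul_mul, avv_sub]
        have c1 : avv (fun e => d ^ 2 • (L e * Y * L e)) = d ^ 2 • ∑ k, σ k * Y * σ k := by
          rw [← avv_lin_lin Y σ]
          unfold avv
          rw [← Finset.smul_sum, smul_comm]
        rw [c1, mul_sub, sub_mul, mul_smul_comm, smul_mul_assoc, Finset.mul_sum, Finset.sum_mul]
        simp only [mul_assoc]
      rw [b1, b3, b2, smul_add, smul_neg, mul_sub Y _ (d ^ 2 • b), sub_mul, mul_smul_comm,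
        smul_mul_assoc]
      abel
    rw [a0]
    have c1 : ‖Y * (avv X' - X - d ^ 2 • b) * Y‖ ≤ K ^ 2 * M * d ^ 3 := by
      refine (nmul (nmul hY h2) hY).trans ?_
      have : C * d ^ 3 ≤ M * d ^ 3 := mul_le_mul_of_nonneg_right hCM (by positivity)
      calc K * (C * d ^ 3) * K ≤ K * (M * d ^ 3) * K := by gcongr
        _ = _ := by ring
    have c2 : ‖avv (fun e => Y * (D e * Y * D e - d ^ 2 • (L e * Y * L e)) * Y)‖ ≤
        2 * K ^ 3 * M ^ 2 * d ^ 3 := by
      refine avv_norm_le fun e => ?_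
      have e1 : D e * Y * D e - d ^ 2 • (L e * Y * L e) = r e * Y * D e + d • L e * Y * r e := by
        have : d ^ 2 • (L e * Y * L e) = (d • L e) * Y * (d • L e) := by
          rw [smul_mul_assoc, smul_mul_smul_comm, sq]
        rw [this, hDr e]
        generalize d • L e = Z
        noncomm_ring
      rw [e1]
      have e2 : ‖r e * Y * D e‖ ≤ K * M ^ 2 * d ^ 3 :=
        (nmul (nmul (hrn e) hY) (hDn e)).trans (le_of_eq (by ring))
      have e3 : ‖d • L e‖ ≤ d * M := by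
        rw [norm_smul, Real.norm_of_nonneg hd]
        exact mul_le_mul_of_nonneg_left (hLn e) hd
      have e4 : ‖d • L e * Y * r e‖ ≤ K * M ^ 2 * d ^ 3 :=
        (nmul (nmul e3 hY) (hrn e)).trans (le_of_eq (by ring))
      have e5 : ‖r e * Y * D e + d • L e * Y * r e‖ ≤ 2 * (K * M ^ 2 * d ^ 3) := by
        refine (norm_add_le _ _).trans ?_
        linarith
      exact (nmul (nmul hY e5) hY).trans (le_of_eq (by ring))
    have c3 : ‖avv (fun e => Y * D e * Y * D e * Y * D e * Y' e)‖ ≤ K ^ 4 * M ^ 3 * d ^ 3 :=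
      avv_norm_le hE3
    calc _ ≤ ‖-(Y * (avv X' - X - d ^ 2 • b) * Y) +
          avv (fun e => Y * (D e * Y * D e - d ^ 2 • (L e * Y * L e)) * Y)‖ +
          ‖avv (fun e => Y * D e * Y * D e * Y * D e * Y' e)‖ := norm_sub_le _ _
      _ ≤ (‖-(Y * (avv X' - X - d ^ 2 • b) * Y)‖ +
          ‖avv (fun e => Y * (D e * Y * D e - d ^ 2 • (L e * Y * L e)) * Y)‖) +
          ‖avv (fun e => Y * D e * Y * D e * Y * D e * Y' e)‖ := by
          gcongr; exact norm_add_le _ _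
      _ ≤ (K ^ 2 * M * d ^ 3 + 2 * K ^ 3 * M ^ 2 * d ^ 3) + K ^ 4 * M ^ 3 * d ^ 3 := by
          rw [norm_neg]; gcongr
      _ = _ := by ring

end abstr

lemma It.inv {F b : ℝ → St n → ℝ} {σ : ℝ → St n → Fin n → ℝ}
    (h : Nm μ R B) (hF : It μ B T F b σ) {u : ℝ} (hu : 0 < u)
    (hle : ∀ t s, 0 ≤ t → t ≤ T → Rg B t s → u ≤ F t s) :
    It μ B T (fun t s => (F t s)⁻¹)
      (fun t s => - ((F t s)⁻¹) ^ 2 * b t s + ((F t s)⁻¹) ^ 3 * ∑ k, σ t s k ^ 2)
      (fun t s k => - ((F t s)⁻¹) ^ 2 * σ t s k) := by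
  obtain ⟨C, hC, hb, hs⟩ := hF.ex
  set K : ℝ := u⁻¹ with hK
  have hK0 : 0 ≤ K := by positivity
  have hinv : ∀ t s, 0 ≤ t → t ≤ T → Rg B t s → |(F t s)⁻¹| ≤ K := by
    intro t s h0 hT hs
    have h1 := hle t s h0 hT hs
    rw [abs_inv, abs_of_pos (hu.trans_le h1)]
    exact inv_anti₀ hu h1
  refine ⟨K + (K ^ 2 * C + K ^ 3 * (n * C ^ 2)) +
    (K ^ 2 * ((n + 1) * C) + 2 * K ^ 3 * ((n + 1) * C) ^ 2 + K ^ 4 * ((n + 1) * C) ^ 3),
    by positivity, ?_, ?_⟩
  · intro t s h0 hT hr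
    obtain ⟨h1, h2, h3⟩ := hb t s h0 hT hr
    have h4 := hinv t s h0 hT hr
    have p1 : 0 ≤ K ^ 2 * C := by positivity
    have p2 : 0 ≤ K ^ 3 * (n * C ^ 2) := by positivity
    have p3 : 0 ≤ K ^ 2 * ((n + 1) * C) + 2 * K ^ 3 * ((n + 1) * C) ^ 2 +
      K ^ 4 * ((n + 1) * C) ^ 3 := by positivity
    have s1 : |(F t s)⁻¹| ^ 2 ≤ K ^ 2 := pow_le_pow_left₀ (abs_nonneg _) h4 2
    have s2 : |(F t s)⁻¹| ^ 3 ≤ K ^ 3 := pow_le_pow_left₀ (abs_nonneg _) h4 3
    refine ⟨by linarith, ?_, fun k => ?_⟩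
    · have q1 : |- ((F t s)⁻¹) ^ 2 * b t s| ≤ K ^ 2 * C := by
        rw [abs_mul, abs_neg, abs_pow]
        exact mul_le_mul s1 h2 (abs_nonneg _) (by positivity)
      have q2 : |∑ k, σ t s k ^ 2| ≤ n * C ^ 2 := by
        refine (Finset.abs_sum_le_sum_abs _ _).trans ?_
        calc ∑ k, |σ t s k ^ 2| ≤ ∑ _k : Fin n, C ^ 2 := by
              refine Finset.sum_le_sum fun k _ => ?_
              rw [abs_pow]
              exact pow_le_pow_left₀ (abs_nonneg _) (h3 k) 2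
          _ = n * C ^ 2 := by simp
      have q3 : |((F t s)⁻¹) ^ 3 * ∑ k, σ t s k ^ 2| ≤ K ^ 3 * (n * C ^ 2) := by
        rw [abs_mul, abs_pow]
        exact mul_le_mul s2 q2 (abs_nonneg _) (by positivity)
      refine (abs_add_le _ _).trans ?_
      linarith
    · have q1 : |- ((F t s)⁻¹) ^ 2 * σ t s k| ≤ K ^ 2 * C := by
        rw [abs_mul, abs_neg, abs_pow]
        exact mul_le_mul s1 (h3 k) (abs_nonneg _) (by positivity)
      linarith
  · intro d t s hd hd1 h0 hT hr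
    have hT' : t ≤ T := by linarith [sq_nonneg d]
    obtain ⟨g1, g2⟩ := hs d t s hd hd1 h0 hT hr
    obtain ⟨h1, h2, h3⟩ := hb t s h0 hT' hr
    have hpos := hu.trans_le (hle t s h0 hT' hr)
    have hpos' : ∀ e, 0 < F (t + d ^ 2) (stp μ d t s e) := fun e =>
      hu.trans_le (hle _ _ (by positivity) hT (Rg.step h h0 hr e))
    have key := inv_exp (𝓐 := ℝ) (n := n) (X := F t s) (b := b t s) (Y := (F t s)⁻¹)
      (X' := fun e => F (t + d ^ 2) (stp μ d t s e))
      (Y' := fun e => (F (t + d ^ 2) (stp μ d t s e))⁻¹) (σ := σ t s) (C := C) (K := K) (d := d)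
      (inv_mul_cancel₀ hpos.ne') (fun e => mul_inv_cancel₀ (hpos' e).ne') hC hd hd1
      (fun k => by rw [Real.norm_eq_abs]; exact h3 k)
      (fun e => by simpa only [Real.norm_eq_abs, smul_eq_mul] using g1 e)
      (by simpa only [Real.norm_eq_abs, smul_eq_mul, avv, av] using g2)
      (by rw [Real.norm_eq_abs]; exact hinv t s h0 hT' hr)
      (fun e => by
        rw [Real.norm_eq_abs]
        exact hinv _ _ (by positivity) hT (Rg.step h h0 hr e))
    obtain ⟨k1, k2⟩ := key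
    have p1 : 0 ≤ K + (K ^ 2 * C + K ^ 3 * (n * C ^ 2)) := by positivity
    constructor
    · intro e
      have k3 := k1 e
      rw [Real.norm_eq_abs] at k3
      have e1 : d • ∑ k, sg (e k) • (-((F t s)⁻¹ * σ t s k * (F t s)⁻¹)) =
          d * ∑ k, sg (e k) * (- ((F t s)⁻¹) ^ 2 * σ t s k) := by
        simp only [smul_eq_mul]
        congr 1
        refine Finset.sum_congr rfl fun k _ => ?_
        ring
      rw [e1] at k3
      refine k3.trans ?_
      exact mul_le_mul_of_nonneg_right (by linarith) (by positivity)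
    · rw [Real.norm_eq_abs] at k2
      have e1 : d ^ 2 • (-((F t s)⁻¹ * b t s * (F t s)⁻¹) +
          ∑ k, (F t s)⁻¹ * σ t s k * (F t s)⁻¹ * σ t s k * (F t s)⁻¹) =
          d ^ 2 * (- ((F t s)⁻¹) ^ 2 * b t s + ((F t s)⁻¹) ^ 3 * ∑ k, σ t s k ^ 2) := by
        rw [smul_eq_mul, Finset.mul_sum]
        congr 1
        congr 1
        · ring
        · refine Finset.sum_congr rfl fun k _ => ?_
          ring
      rw [e1] at k2
      have e2 : avv (fun e => (F (t + d ^ 2) (stp μ d t s e))⁻¹) =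
          av (fun e => (F (t + d ^ 2) (stp μ d t s e))⁻¹) := by
        simp only [avv, av, smul_eq_mul]
      rw [e2] at k2
      refine k2.trans ?_
      exact mul_le_mul_of_nonneg_right (by linarith) (by positivity)

section mat

attribute [local instance] Matrix.linftyOpNormedRing Matrix.linftyOpNormedAlgebra

private lemma entry_le (M : Mat n) (i j : Fin n) : |M i j| ≤ ‖M‖ := by
  rw [Matrix.linfty_opNorm_def]
  have h1 : ‖M i j‖₊ ≤ ∑ j, ‖M i j‖₊ :=
    Finset.single_le_sum (f := fun j => ‖M i j‖₊) (fun _ _ => zero_le) (Finset.mem_univ j)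
  have h2 : ∑ j, ‖M i j‖₊ ≤ Finset.univ.sup fun i => ∑ j, ‖M i j‖₊ :=
    Finset.le_sup (f := fun i => ∑ j, ‖M i j‖₊) (Finset.mem_univ i)
  have h3 := h1.trans h2
  exact_mod_cast h3

private lemma norm_le_sum (M : Mat n) : ‖M‖ ≤ ∑ i, ∑ j, |M i j| := by
  rw [Matrix.linfty_opNorm_def]
  have h1 : (Finset.univ.sup fun i => ∑ j, ‖M i j‖₊) ≤ ∑ i, ∑ j, ‖M i j‖₊ := by
    refine Finset.sup_le fun i _ => ?_
    exact Finset.single_le_sum (f := fun i => ∑ j, ‖M i j‖₊) (fun _ _ => zero_le)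
      (Finset.mem_univ i)
  have h2 : ((∑ i, ∑ j, ‖M i j‖₊ : ℝ≥0) : ℝ) = ∑ i, ∑ j, |M i j| := by
    push_cast
    rfl
  rw [← h2]
  exact_mod_cast h1

private lemma norm_le_of_entry {M : Mat n} {C : Fin n → Fin n → ℝ} {q : ℝ}
    (h : ∀ i j, |M i j| ≤ C i j * q) : ‖M‖ ≤ (∑ i, ∑ j, C i j) * q := by
  refine (norm_le_sum M).trans ?_
  rw [Finset.sum_mul]
  refine Finset.sum_le_sum fun i _ => ?_
  rw [Finset.sum_mul]
  exact Finset.sum_le_sum fun j _ => h i j

private lemma avv_apply (F : (Fin n → Bool) → Mat n) (i j : Fin n) :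
    avv F i j = av fun e => F e i j := by
  unfold avv av
  rw [Matrix.smul_apply, Matrix.sum_apply, smul_eq_mul]

private lemma posDef_of {X : Mat n} {u : ℝ} (hu : 0 < u)
    (hX : (X - u • (1 : Mat n)).PosSemidef) : X.PosDef := by
  have h1 : (u • (1 : Mat n)).PosDef := PosDef.one.smul hu
  have := h1.posSemidef_add hX
  simpa using this

private lemma inv_entry {X : Mat n} {u : ℝ} (hu : 0 < u)
    (hX : (X - u • (1 : Mat n)).PosSemidef) (i j : Fin n) : |X⁻¹ i j| ≤ u⁻¹ := by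
  have hpd := posDef_of hu hX
  have hdet : IsUnit X.det := hpd.det_pos.ne'.isUnit
  set x : Fin n → ℝ := X⁻¹ *ᵥ Pi.single j 1 with hx
  have hxi : ∀ i, x i = X⁻¹ i j := fun i => by rw [hx, mulVec_single_one]; rfl
  have h1 : X *ᵥ x = Pi.single j 1 := by
    rw [hx, mulVec_mulVec, mul_nonsing_inv X hdet, one_mulVec]
  have h2 := hX.dotProduct_mulVec_nonneg x
  rw [sub_mulVec, smul_mulVec, one_mulVec, h1, star_trivial, dotProduct_sub, dotProduct_smul,
    dotProduct_single, mul_one, smul_eq_mul] at h2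
  have h3 : ∀ i, x i ^ 2 ≤ x ⬝ᵥ x := by
    intro i
    have : x i * x i ≤ ∑ i, x i * x i :=
      Finset.single_le_sum (f := fun i => x i * x i) (fun i _ => mul_self_nonneg _)
        (Finset.mem_univ i)
    rw [sq]; exact this
  have h4 : ∀ i, u * x i ^ 2 ≤ x j := fun i => by
    have := mul_le_mul_of_nonneg_left (h3 i) hu.le
    linarith
  have h5 : 0 ≤ x j := by
    have := h4 j
    have h6 : 0 ≤ u * x j ^ 2 := by positivity
    linarith
  have h6 : x j ≤ u⁻¹ := by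
    rcases h5.eq_or_lt with h0 | h0
    · rw [← h0]; positivity
    · have := h4 j
      rw [sq, ← mul_assoc] at this
      have h7 : u * x j ≤ 1 := by
        have h8 : u * x j * x j ≤ 1 * x j := by linarith
        exact le_of_mul_le_mul_right h8 h0
      rw [← one_div, le_div_iff₀ hu]
      linarith
  rw [← hxi]
  have h7 : x i ^ 2 ≤ (u⁻¹) ^ 2 := by
    have h8 := (h4 i).trans h6
    have h9 : x i ^ 2 = u⁻¹ * (u * x i ^ 2) := by field_simp
    have h10 : (u⁻¹) ^ 2 = u⁻¹ * u⁻¹ := sq _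
    rw [h9, h10]
    exact mul_le_mul_of_nonneg_left h8 (by positivity)
  exact abs_le_of_sq_le_sq h7 (by positivity)

lemma MIt.inv {F b : ℝ → St n → Mat n} {σ : ℝ → St n → Fin n → Mat n}
    (h : Nm μ R B) (hF : MIt μ B T F b σ) {u : ℝ} (hu : 0 < u)
    (hle : ∀ t s, 0 ≤ t → t ≤ T → Rg B t s → (F t s - u • (1 : Mat n)).PosSemidef) :
    MIt μ B T (fun t s => (F t s)⁻¹)
      (fun t s => - ((F t s)⁻¹ * b t s * (F t s)⁻¹) +
        ∑ k, (F t s)⁻¹ * σ t s k * (F t s)⁻¹ * σ t s k * (F t s)⁻¹)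
      (fun t s k => - ((F t s)⁻¹ * σ t s k * (F t s)⁻¹)) := by
  choose C0 hC0 hb0 hs0 using fun i j => (hF i j).ex
  set C : ℝ := ∑ i, ∑ j, C0 i j with hCdef
  have hC : 0 ≤ C := Finset.sum_nonneg fun i _ => Finset.sum_nonneg fun j _ => hC0 i j
  set K : ℝ := ∑ _i : Fin n, ∑ _j : Fin n, u⁻¹ with hK
  have hK0 : 0 ≤ K := Finset.sum_nonneg fun i _ => Finset.sum_nonneg fun j _ => by positivity
  have hinv : ∀ t s, 0 ≤ t → t ≤ T → Rg B t s → ‖(F t s)⁻¹‖ ≤ K := by
    intro t s h0 hT hs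
    have := norm_le_of_entry (M := (F t s)⁻¹) (C := fun _ _ => u⁻¹) (q := 1) (fun i j => by
      rw [mul_one]; exact inv_entry hu (hle t s h0 hT hs) i j)
    rwa [mul_one] at this
  have hbn : ∀ t s, 0 ≤ t → t ≤ T → Rg B t s → ‖b t s‖ ≤ C := by
    intro t s h0 hT hs
    have := norm_le_of_entry (M := b t s) (C := C0) (q := 1) (fun i j => by
      rw [mul_one]; exact (hb0 i j t s h0 hT hs).2.1)
    rwa [mul_one] at this
  have hσn : ∀ t s, 0 ≤ t → t ≤ T → Rg B t s → ∀ k, ‖σ t s k‖ ≤ C := by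
    intro t s h0 hT hs k
    have := norm_le_of_entry (M := σ t s k) (C := C0) (q := 1) (fun i j => by
      rw [mul_one]; exact (hb0 i j t s h0 hT hs).2.2 k)
    rwa [mul_one] at this
  intro i j
  refine ⟨K + (K ^ 2 * C + K ^ 3 * (n * C ^ 2)) +
    (K ^ 2 * ((n + 1) * C) + 2 * K ^ 3 * ((n + 1) * C) ^ 2 + K ^ 4 * ((n + 1) * C) ^ 3),
    by positivity, ?_, ?_⟩
  · intro t s h0 hT hr
    have h2 := hbn t s h0 hT hr
    have h3 := hσn t s h0 hT hr
    have h4 := hinv t s h0 hT hr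
    have p1 : 0 ≤ K ^ 2 * C := by positivity
    have p2 : 0 ≤ K ^ 3 * (n * C ^ 2) := by positivity
    have p3 : 0 ≤ K ^ 2 * ((n + 1) * C) + 2 * K ^ 3 * ((n + 1) * C) ^ 2 +
      K ^ 4 * ((n + 1) * C) ^ 3 := by positivity
    refine ⟨(entry_le _ i j).trans (by linarith), ?_, fun k => ?_⟩
    · refine (entry_le _ i j).trans ?_
      have q1 : ‖(F t s)⁻¹ * b t s * (F t s)⁻¹‖ ≤ K ^ 2 * C :=
        (nmul (nmul h4 h2) h4).trans (le_of_eq (by ring))
      have q2 : ‖∑ k, (F t s)⁻¹ * σ t s k * (F t s)⁻¹ * σ t s k * (F t s)⁻¹‖ ≤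
          K ^ 3 * (n * C ^ 2) := by
        refine (norm_sum_le _ _).trans ?_
        calc ∑ k, ‖(F t s)⁻¹ * σ t s k * (F t s)⁻¹ * σ t s k * (F t s)⁻¹‖ ≤
            ∑ _k : Fin n, K ^ 3 * C ^ 2 := by
              refine Finset.sum_le_sum fun k _ => ?_
              exact (nmul (nmul (nmul (nmul h4 (h3 k)) h4) (h3 k)) h4).trans
                (le_of_eq (by ring))
          _ = K ^ 3 * (n * C ^ 2) := by simp; ring
      refine (norm_add_le _ _).trans ?_
      rw [norm_neg]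
      linarith
    · refine (entry_le _ i j).trans ?_
      have q1 : ‖(F t s)⁻¹ * σ t s k * (F t s)⁻¹‖ ≤ K ^ 2 * C :=
        (nmul (nmul h4 (h3 k)) h4).trans (le_of_eq (by ring))
      rw [norm_neg]
      linarith
  · intro d t s hd hd1 h0 hT hr
    have hT' : t ≤ T := by linarith [sq_nonneg d]
    have hr' : ∀ e, Rg B (t + d ^ 2) (stp μ d t s e) := fun e => Rg.step h h0 hr e
    have u1 : IsUnit (F t s).det := (posDef_of hu (hle t s h0 hT' hr)).det_pos.ne'.isUnit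
    have u2 : ∀ e, IsUnit (F (t + d ^ 2) (stp μ d t s e)).det := fun e =>
      (posDef_of hu (hle _ _ (by positivity) hT (hr' e))).det_pos.ne'.isUnit
    have key := inv_exp (𝓐 := Mat n) (n := n) (X := F t s) (b := b t s) (Y := (F t s)⁻¹)
      (X' := fun e => F (t + d ^ 2) (stp μ d t s e))
      (Y' := fun e => (F (t + d ^ 2) (stp μ d t s e))⁻¹) (σ := σ t s) (C := C) (K := K) (d := d)
      (nonsing_inv_mul _ u1) (fun e => mul_nonsing_inv _ (u2 e)) hC hd hd1
      (hσn t s h0 hT' hr)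
      (fun e => by
        refine norm_le_of_entry fun i j => ?_
        have := (hs0 i j d t s hd hd1 h0 hT hr).1 e
        simpa only [Matrix.sub_apply, Matrix.smul_apply, Matrix.sum_apply, smul_eq_mul] using this)
      (by
        refine norm_le_of_entry fun i j => ?_
        have := (hs0 i j d t s hd hd1 h0 hT hr).2
        rw [Matrix.sub_apply, Matrix.sub_apply, avv_apply, Matrix.smul_apply, smul_eq_mul]
        exact this)
      (hinv t s h0 hT' hr)
      (fun e => hinv _ _ (by positivity) hT (hr' e))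
    obtain ⟨k1, k2⟩ := key
    have p1 : 0 ≤ K + (K ^ 2 * C + K ^ 3 * (n * C ^ 2)) := by positivity
    constructor
    · intro e
      have k3 := (entry_le _ i j).trans (k1 e)
      simp only [Matrix.sub_apply, Matrix.smul_apply, Matrix.sum_apply, smul_eq_mul] at k3
      refine k3.trans ?_
      exact mul_le_mul_of_nonneg_right (by linarith) (by positivity)
    · have k3 := (entry_le _ i j).trans k2
      rw [Matrix.sub_apply, Matrix.sub_apply, avv_apply, Matrix.smul_apply, smul_eq_mul] at k3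
      refine k3.trans ?_
      exact mul_le_mul_of_nonneg_right (by linarith) (by positivity)

end mat

end Pool.Agent.Lib.MP_6d896a_gt.LG
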