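import Mathlib
import Pool.Agent.Lib.MP_6d896a_gt.LG.Defs

/-!
Piece C2: the scalar inequality of step I.
-/

set_option autoImplicit false

namespace Pool.Agent.Lib.MP_6d896a_gt.LG

/-- the summand -/
private noncomputable def pc2F (x : ℝ) (i : ℕ) : ℝ :=
  (1 / 8 : ℝ) ^ i *
      (x ^ 3 * (1 + x + 2 * ((1 / 2) ^ 22 / 4 ^ i)) / (x + (1 / 2) ^ 22 / 4 ^ i) ^ 2 -
        2 * x * kap x * min 1 (6 * x / ((1 / 2) ^ 22 / 4 ^ i)))

private theorem pc2_geo8 (n : ℕ) :
    ∑ k ∈ Finset.range n, (1 / 8 : ℝ) ^ k = 8 / 7 - 8 / 7 * (1 / 8) ^ n := by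
  induction n with
  | zero => simp
  | succ n ih => rw [Finset.sum_range_succ, ih]; ring

private theorem pc2_geo2 (n : ℕ) :
    ∑ k ∈ Finset.range n, (1 / 2 : ℝ) ^ k = 2 - 2 * (1 / 2) ^ n := by
  induction n with
  | zero => simp
  | succ n ih => rw [Finset.sum_range_succ, ih]; ring

private theorem pc2_kap {x s : ℝ} (hs0 : 0 ≤ s) (hs : x = s ^ 2) : kap x = s / (1 + s) := by
  unfold kap
  rw [hs, Real.sqrt_sq hs0]

private theorem pc2_kap0 {x s : ℝ} (hs0 : 0 ≤ s) (hs : x = s ^ 2) : 0 ≤ kap x := by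
  rw [pc2_kap hs0 hs]; positivity

private theorem pc2_kaps {x s : ℝ} (hs0 : 0 ≤ s) (hs : x = s ^ 2) : kap x ≤ s := by
  rw [pc2_kap hs0 hs, div_le_iff₀ (by linarith)]
  nlinarith

/-- the gain is nonnegative -/
private theorem pc2_gain0 {x u : ℝ} (hx0 : 0 ≤ x) (hu : 0 < u) :
    0 ≤ x ^ 3 * (1 + x + 2 * u) / (x + u) ^ 2 := by positivity

/-- lower bound for every summand by the small-argument noise -/
private theorem pc2_low2 {x s : ℝ} (hs0 : 0 ≤ s) (hs : x = s ^ 2) (i : ℕ) :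
    -(12 * 2 ^ 22 * x ^ 2 * s * (1 / 2) ^ i) ≤ pc2F x i := by
  have hx0 : 0 ≤ x := by rw [hs]; positivity
  unfold pc2F
  set u : ℝ := (1 / 2) ^ 22 / 4 ^ i with hu
  have hu0 : 0 < u := by rw [hu]; positivity
  have h1 := pc2_gain0 hx0 hu0
  have h2 := pc2_kap0 hs0 hs
  have h3 := pc2_kaps hs0 hs
  have h4 : min 1 (6 * x / u) ≤ 6 * x / u := min_le_right _ _
  have h5 : 0 ≤ 6 * x / u := by positivity
  have h6 : 2 * x * kap x * min 1 (6 * x / u) ≤ 2 * x * s * (6 * x / u) := by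
    have : 2 * x * kap x ≤ 2 * x * s := mul_le_mul_of_nonneg_left h3 (by positivity)
    calc 2 * x * kap x * min 1 (6 * x / u) ≤ 2 * x * kap x * (6 * x / u) :=
          mul_le_mul_of_nonneg_left h4 (by positivity)
      _ ≤ 2 * x * s * (6 * x / u) := mul_le_mul_of_nonneg_right this h5
  have h7 : (1 / 8 : ℝ) ^ i * (2 * x * s * (6 * x / u)) =
      12 * 2 ^ 22 * x ^ 2 * s * (1 / 2) ^ i := by
    rw [hu]
    have h8 : (1 / 8 : ℝ) ^ i * 4 ^ i = (1 / 2) ^ i := by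
      rw [← mul_pow]; norm_num
    have h9 : 6 * x / ((1 / 2 : ℝ) ^ 22 / 4 ^ i) = 6 * x * 2 ^ 22 * 4 ^ i := by
      field_simp
    rw [h9]
    calc (1 / 8 : ℝ) ^ i * (2 * x * s * (6 * x * 2 ^ 22 * 4 ^ i))
        = 12 * 2 ^ 22 * x ^ 2 * s * ((1 / 8 : ℝ) ^ i * 4 ^ i) := by ring
      _ = _ := by rw [h8]
  rw [← h7]
  have h10 : (0 : ℝ) ≤ (1 / 8 : ℝ) ^ i := by positivity
  nlinarith [mul_le_mul_of_nonneg_left h6 h10, mul_nonneg h10 h1]

/-- lower bound for every summand by the large-argument noise -/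
private theorem pc2_low8 {x s : ℝ} (hs0 : 0 ≤ s) (hs : x = s ^ 2) (i : ℕ) :
    -(2 * x * s * (1 / 8) ^ i) ≤ pc2F x i := by
  have hx0 : 0 ≤ x := by rw [hs]; positivity
  unfold pc2F
  set u : ℝ := (1 / 2) ^ 22 / 4 ^ i with hu
  have hu0 : 0 < u := by rw [hu]; positivity
  have h1 := pc2_gain0 hx0 hu0
  have h2 := pc2_kap0 hs0 hs
  have h3 := pc2_kaps hs0 hs
  have h4 : min 1 (6 * x / u) ≤ 1 := min_le_left _ _
  have h6 : 2 * x * kap x * min 1 (6 * x / u) ≤ 2 * x * s := by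
    have : 2 * x * kap x ≤ 2 * x * s := mul_le_mul_of_nonneg_left h3 (by positivity)
    calc 2 * x * kap x * min 1 (6 * x / u) ≤ 2 * x * kap x * 1 :=
          mul_le_mul_of_nonneg_left h4 (by positivity)
      _ ≤ 2 * x * s := by linarith
  have h10 : (0 : ℝ) ≤ (1 / 8 : ℝ) ^ i := by positivity
  nlinarith [mul_le_mul_of_nonneg_left h6 h10, mul_nonneg h10 h1]

/-- the summand at the critical level -/
private theorem pc2_mid {x s : ℝ} (hs0 : 0 ≤ s) (hs : x = s ^ 2) (i : ℕ)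
    (hi : (1 / 2) ^ 22 / 4 ^ i ≤ x) :
    (1 / 8) ^ i * (x / 4) - 2 * x * s * (1 / 8) ^ i ≤ pc2F x i := by
  have hx0 : 0 ≤ x := by rw [hs]; positivity
  unfold pc2F
  set u : ℝ := (1 / 2) ^ 22 / 4 ^ i with hu
  have hu0 : 0 < u := by rw [hu]; positivity
  have h1 : x / 4 ≤ x ^ 3 * (1 + x + 2 * u) / (x + u) ^ 2 := by
    rw [le_div_iff₀ (by positivity)]
    have e1 : (x + u) ^ 2 ≤ 4 * x ^ 2 := by nlinarith
    have e2 : x / 4 * (x + u) ^ 2 ≤ x / 4 * (4 * x ^ 2) :=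
      mul_le_mul_of_nonneg_left e1 (by positivity)
    have e3 : x ^ 3 * 1 ≤ x ^ 3 * (1 + x + 2 * u) :=
      mul_le_mul_of_nonneg_left (by linarith) (by positivity)
    calc x / 4 * (x + u) ^ 2 ≤ x / 4 * (4 * x ^ 2) := e2
      _ = x ^ 3 * 1 := by ring
      _ ≤ _ := e3
  have h2 := pc2_kap0 hs0 hs
  have h3 := pc2_kaps hs0 hs
  have h4 : min 1 (6 * x / u) ≤ 1 := min_le_left _ _
  have h6 : 2 * x * kap x * min 1 (6 * x / u) ≤ 2 * x * s := by
    have : 2 * x * kap x ≤ 2 * x * s := mul_le_mul_of_nonneg_left h3 (by positivity)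
    calc 2 * x * kap x * min 1 (6 * x / u) ≤ 2 * x * kap x * 1 :=
          mul_le_mul_of_nonneg_left h4 (by positivity)
      _ ≤ 2 * x * s := by linarith
  have h10 : (0 : ℝ) ≤ (1 / 8 : ℝ) ^ i := by positivity
  nlinarith [mul_le_mul_of_nonneg_left h6 h10, mul_le_mul_of_nonneg_left h1 h10]

/-- a single summand when `x` is above the level -/
private theorem pc2_top {x s : ℝ} (hs0 : 0 ≤ s) (hs1 : s ≤ 1) (hs : x = s ^ 2) (i : ℕ)
    (hi : (1 / 2) ^ 22 ≤ x) :
    (1 / 8) ^ i * (x / 50) ≤ pc2F x i := by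
  have hx0 : 0 ≤ x := by rw [hs]; positivity
  unfold pc2F
  set u : ℝ := (1 / 2) ^ 22 / 4 ^ i with hu
  have hu0 : 0 < u := by rw [hu]; positivity
  have huU : u ≤ (1 / 2) ^ 22 := by
    rw [hu]
    exact div_le_self (by positivity) (one_le_pow₀ (by norm_num))
  have h2 := pc2_kap0 hs0 hs
  have h4 : min 1 (6 * x / u) ≤ 1 := min_le_left _ _
  have h6 : 2 * x * kap x * min 1 (6 * x / u) ≤ 2 * x * kap x := by
    calc 2 * x * kap x * min 1 (6 * x / u) ≤ 2 * x * kap x * 1 :=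
          mul_le_mul_of_nonneg_left h4 (by positivity)
      _ ≤ 2 * x * kap x := by linarith
  have key : x * (2 * kap x + 1 / 50) ≤ x ^ 3 * (1 + x + 2 * u) / (x + u) ^ 2 := by
    rw [le_div_iff₀ (by positivity)]
    have e3 : x ^ 3 * (1 + x) ≤ x ^ 3 * (1 + x + 2 * u) :=
      mul_le_mul_of_nonneg_left (by linarith) (by positivity)
    refine le_trans ?_ e3
    have hgoal : (2 * kap x + 1 / 50) * (x + u) ^ 2 ≤ x ^ 2 * (1 + x) := by
      rcases le_or_gt ((1 / 2 : ℝ) ^ 12) x with hx | hx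
      · -- `x` not small
        have f1 : u ≤ (1 / 2) ^ 10 * x := by
          refine huU.trans ?_
          have : (1 / 2 : ℝ) ^ 22 = (1 / 2) ^ 10 * (1 / 2) ^ 12 := by norm_num
          rw [this]
          exact mul_le_mul_of_nonneg_left hx (by positivity)
        have f2 : (x + u) ^ 2 ≤ (1 + 1 / 256) * x ^ 2 := by
          have g1 : x + u ≤ (1 + (1 / 2) ^ 10) * x := by linarith
          have g2 : (x + u) ^ 2 ≤ ((1 + (1 / 2) ^ 10) * x) ^ 2 :=
            pow_le_pow_left₀ (by positivity) g1 2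
          refine g2.trans ?_
          rw [mul_pow]
          exact mul_le_mul_of_nonneg_right (by norm_num) (by positivity)
        have f3 : (2 * kap x + 1 / 50) * (1 + 1 / 256) ≤ 1 + x := by
          rw [pc2_kap hs0 hs, hs]
          have hs1' : 0 < 1 + s := by linarith
          rw [← sub_nonneg]
          have : 1 + s ^ 2 - (2 * (s / (1 + s)) + 1 / 50) * (1 + 1 / 256) =
            ((1 + s ^ 2) * (1 + s) - (2 * s + 1 / 50 * (1 + s)) * (1 + 1 / 256)) / (1 + s) := by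
            field_simp
          rw [this]
          apply div_nonneg _ hs1'.le
          nlinarith [sq_nonneg (s - 1 / 3), mul_nonneg hs0 (sq_nonneg (s - 1 / 3)),
            mul_nonneg hs0 hs0]
        calc (2 * kap x + 1 / 50) * (x + u) ^ 2
            ≤ (2 * kap x + 1 / 50) * ((1 + 1 / 256) * x ^ 2) :=
              mul_le_mul_of_nonneg_left f2 (by positivity)
          _ = ((2 * kap x + 1 / 50) * (1 + 1 / 256)) * x ^ 2 := by ring
          _ ≤ (1 + x) * x ^ 2 := mul_le_mul_of_nonneg_right f3 (by positivity)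
          _ = _ := by ring
      · -- `x` small
        have f1 : (x + u) ^ 2 ≤ 4 * x ^ 2 := by
          have : u ≤ x := huU.trans hi
          nlinarith
        have f2 : s ≤ (1 / 2) ^ 6 := by
          have : s ^ 2 ≤ ((1 / 2) ^ 6) ^ 2 := by
            rw [← hs, ← pow_mul]; exact hx.le
          exact le_of_sq_le_sq this (by positivity)
        have f3 := pc2_kaps hs0 hs
        have f4 : 2 * kap x + 1 / 50 ≤ 1 / 4 := by
          have : (1 / 2 : ℝ) ^ 6 = 1 / 64 := by norm_num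
          rw [this] at f2
          linarith
        calc (2 * kap x + 1 / 50) * (x + u) ^ 2 ≤ (1 / 4) * (4 * x ^ 2) :=
              mul_le_mul f4 f1 (by positivity) (by norm_num)
          _ = x ^ 2 * 1 := by ring
          _ ≤ x ^ 2 * (1 + x) := mul_le_mul_of_nonneg_left (by linarith) (by positivity)
    calc x * (2 * kap x + 1 / 50) * (x + u) ^ 2
        = x * ((2 * kap x + 1 / 50) * (x + u) ^ 2) := by ring
      _ ≤ x * (x ^ 2 * (1 + x)) := mul_le_mul_of_nonneg_left hgoal hx0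
      _ = x ^ 3 * (1 + x) := by ring
  have h10 : (0 : ℝ) ≤ (1 / 8 : ℝ) ^ i := by positivity
  apply mul_le_mul_of_nonneg_left _ h10
  nlinarith [key, h6]

/-- C2: the scalar inequality -/
theorem scalar_ineq (N : ℕ) {x : ℝ} (hx0 : 0 ≤ x) (hx1 : x ≤ 1) :
    x ^ 3 / 50 - 25 / 4 ^ N ≤ ∑ i ∈ Finset.range (N + 1), (1 / 8 : ℝ) ^ i *
      (x ^ 3 * (1 + x + 2 * ((1 / 2) ^ 22 / 4 ^ i)) / (x + (1 / 2) ^ 22 / 4 ^ i) ^ 2 -
        2 * x * kap x * min 1 (6 * x / ((1 / 2) ^ 22 / 4 ^ i))) := by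
  change x ^ 3 / 50 - 25 / 4 ^ N ≤ ∑ i ∈ Finset.range (N + 1), pc2F x i
  obtain ⟨s, hs0, hs⟩ : ∃ s : ℝ, 0 ≤ s ∧ x = s ^ 2 :=
    ⟨Real.sqrt x, Real.sqrt_nonneg x, (Real.sq_sqrt hx0).symm⟩
  have hs1 : s ≤ 1 := by nlinarith
  have h4N : (0 : ℝ) < 4 ^ N := by positivity
  have h25 : (0 : ℝ) ≤ 25 / 4 ^ N := by positivity
  have hx3 : x ^ 3 ≤ x := by nlinarith [mul_nonneg hx0 hx0, mul_nonneg hx0 (mul_nonneg hx0 hx0)]
  rcases le_or_gt ((1 / 2 : ℝ) ^ 22) x with hU | hU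
  · -- case A
    have h1 : ∀ i ∈ Finset.range (N + 1), 0 ≤ pc2F x i := fun i _ =>
      le_trans (by positivity) (pc2_top hs0 hs1 hs i hU)
    have h2 : pc2F x 0 ≤ ∑ i ∈ Finset.range (N + 1), pc2F x i :=
      Finset.single_le_sum h1 (Finset.mem_range.2 (Nat.succ_pos N))
    have h3 := pc2_top hs0 hs1 hs 0 hU
    simp only [pow_zero, one_mul] at h3
    linarith
  · rcases le_or_gt ((1 / 2 : ℝ) ^ 22 / 4 ^ N) x with hN | hN
    · -- case B
      have hex : ∃ j : ℕ, (1 / 2 : ℝ) ^ 22 / 4 ^ j ≤ x := ⟨N, hN⟩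
      classical
      obtain ⟨j, hj, hmin⟩ : ∃ j : ℕ, (1 / 2 : ℝ) ^ 22 / 4 ^ j ≤ x ∧
          ∀ i < j, x < (1 / 2 : ℝ) ^ 22 / 4 ^ i :=
        ⟨Nat.find hex, Nat.find_spec hex, fun i hi => not_le.1 (Nat.find_min hex hi)⟩
      have hjN : j ≤ N := by
        by_contra hlt
        exact absurd hN (not_le.2 (hmin N (not_le.1 hlt)))
      have hj1 : 1 ≤ j := by
        rcases Nat.eq_zero_or_pos j with h | h
        · rw [h] at hj; simp only [pow_zero, div_one] at hj; exact absurd hj (not_le.2 hU)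
        · exact h
      -- split the sum
      have hsplit : ∑ i ∈ Finset.range (N + 1), pc2F x i =
          ∑ i ∈ Finset.range j, pc2F x i + (pc2F x j +
            ∑ k ∈ Finset.range (N - j), pc2F x (j + 1 + k)) := by
        rw [← Finset.sum_range_add_sum_Ico _ (by omega : j ≤ N + 1),
          Finset.sum_eq_sum_Ico_succ_bot (by omega : j < N + 1),
          Finset.sum_Ico_eq_sum_range]
        congr 3
        have : N + 1 - (j + 1) = N - j := by omega
        rw [this]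
      set w : ℝ := (1 / 2) ^ j with hw
      have hw0 : 0 < w := by positivity
      have hw1 : w ≤ 1 := pow_le_one₀ (by norm_num) (by norm_num)
      have h8 : (1 / 8 : ℝ) ^ j = w ^ 3 := by rw [hw, ← pow_mul, mul_comm, pow_mul]; norm_num
      have h4 : ((4 : ℝ) ^ j)⁻¹ = w ^ 2 := by
        rw [hw, ← pow_mul, mul_comm, pow_mul, ← inv_pow]; norm_num
      have hxw : x < (1 / 2) ^ 20 * w ^ 2 := by
        have := hmin (j - 1) (by omega)
        have e : (4 : ℝ) ^ j = 4 ^ (j - 1) * 4 := by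
          rw [← pow_succ]; congr 1; omega
        have e2 : (1 / 2 : ℝ) ^ 22 / 4 ^ (j - 1) = (1 / 2) ^ 20 * ((4 : ℝ) ^ j)⁻¹ := by
          rw [e]; field_simp; norm_num
        rw [e2, h4] at this
        exact this
      have hsw : s ≤ (1 / 2) ^ 10 * w := by
        have : s ^ 2 ≤ ((1 / 2) ^ 10 * w) ^ 2 := by
          rw [← hs, mul_pow, ← pow_mul]; exact hxw.le
        exact le_of_sq_le_sq this (by positivity)
      have s1 : -(12 * 2 ^ 22 * x ^ 2 * s * 2) ≤ ∑ i ∈ Finset.range j, pc2F x i := by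
        have a1 : ∑ i ∈ Finset.range j, -(12 * 2 ^ 22 * x ^ 2 * s * (1 / 2 : ℝ) ^ i) ≤
            ∑ i ∈ Finset.range j, pc2F x i :=
          Finset.sum_le_sum fun i _ => pc2_low2 hs0 hs i
        refine le_trans ?_ a1
        rw [Finset.sum_neg_distrib, ← Finset.mul_sum, pc2_geo2]
        have : 0 ≤ 12 * 2 ^ 22 * x ^ 2 * s := by positivity
        have b1 : (0 : ℝ) ≤ (1 / 2) ^ j := by positivity
        nlinarith [mul_nonneg this b1]
      have s2 : w ^ 3 * (x / 4) - 2 * x * s * w ^ 3 ≤ pc2F x j := by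
        have := pc2_mid hs0 hs j hj
        rw [h8] at this
        exact this
      have s3 : -(2 * x * s * w ^ 3 * (1 / 7)) ≤
          ∑ k ∈ Finset.range (N - j), pc2F x (j + 1 + k) := by
        have a1 : ∑ k ∈ Finset.range (N - j), -(2 * x * s * (1 / 8 : ℝ) ^ (j + 1 + k)) ≤
            ∑ k ∈ Finset.range (N - j), pc2F x (j + 1 + k) :=
          Finset.sum_le_sum fun i _ => pc2_low8 hs0 hs _
        refine le_trans ?_ a1
        have a2 : ∀ k : ℕ, -(2 * x * s * (1 / 8 : ℝ) ^ (j + 1 + k)) =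
            -((2 * x * s * w ^ 3 * (1 / 8)) * (1 / 8) ^ k) := by
          intro k
          rw [pow_add, pow_add, h8]; ring
        simp only [a2]
        rw [Finset.sum_neg_distrib, ← Finset.mul_sum, pc2_geo8]
        have c1 : 0 ≤ 2 * x * s * w ^ 3 * (1 / 8) := by positivity
        have b1 : (0 : ℝ) ≤ (1 / 8) ^ (N - j) := by positivity
        nlinarith [mul_nonneg c1 b1]
      rw [hsplit]
      have hfin : x ^ 3 / 50 ≤ w ^ 3 * (x / 4) - 2 * x * s * w ^ 3 -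
          2 * x * s * w ^ 3 * (1 / 7) - 12 * 2 ^ 22 * x ^ 2 * s * 2 := by
        -- divide by `x`
        have g1 : 12 * 2 ^ 22 * x * s * 2 ≤ w ^ 3 * (3 / 32) := by
          have : x * s ≤ ((1 / 2) ^ 20 * w ^ 2) * ((1 / 2) ^ 10 * w) :=
            mul_le_mul hxw.le hsw hs0 (by positivity)
          calc 12 * 2 ^ 22 * x * s * 2 = 24 * 2 ^ 22 * (x * s) := by ring
            _ ≤ 24 * 2 ^ 22 * (((1 / 2) ^ 20 * w ^ 2) * ((1 / 2) ^ 10 * w)) :=
              mul_le_mul_of_nonneg_left this (by positivity)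
            _ = w ^ 3 * (3 / 32) := by ring
        have g2 : 2 * s * w ^ 3 + 2 * s * w ^ 3 * (1 / 7) ≤ w ^ 3 * (1 / 100) := by
          have : s ≤ (1 / 2) ^ 10 := hsw.trans (by nlinarith [hw1])
          have h3 : 0 ≤ w ^ 3 := by positivity
          have : s * w ^ 3 ≤ (1 / 2) ^ 10 * w ^ 3 := mul_le_mul_of_nonneg_right this h3
          norm_num at this ⊢
          nlinarith
        have g3 : x ^ 2 / 50 ≤ w ^ 3 * (1 / 100) := by
          have e1 : x ^ 2 ≤ ((1 / 2) ^ 20 * w ^ 2) ^ 2 := pow_le_pow_left₀ hx0 hxw.le 2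
          have e2 : ((1 / 2) ^ 20 * w ^ 2) ^ 2 = (1 / 2) ^ 40 * (w ^ 3 * w) := by ring
          have e3 : w ^ 3 * w ≤ w ^ 3 * 1 := mul_le_mul_of_nonneg_left hw1 (by positivity)
          have e4 : 0 ≤ w ^ 3 := by positivity
          rw [e2] at e1
          norm_num at e1
          nlinarith
        have g4 : x ^ 2 / 50 ≤ w ^ 3 * (1 / 4) - (2 * s * w ^ 3 + 2 * s * w ^ 3 * (1 / 7)) -
            12 * 2 ^ 22 * x * s * 2 := by
          have e4 : 0 ≤ w ^ 3 := by positivity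
          linarith
        have g5 := mul_le_mul_of_nonneg_left g4 hx0
        calc x ^ 3 / 50 = x * (x ^ 2 / 50) := by ring
          _ ≤ x * (w ^ 3 * (1 / 4) - (2 * s * w ^ 3 + 2 * s * w ^ 3 * (1 / 7)) -
            12 * 2 ^ 22 * x * s * 2) := g5
          _ = _ := by ring
      linarith
    · -- case C
      have hm : x * 4 ^ N < (1 / 2) ^ 22 := by
        rwa [lt_div_iff₀ h4N] at hN
      have a1 : ∑ i ∈ Finset.range (N + 1), -(12 * 2 ^ 22 * x ^ 2 * s * (1 / 2 : ℝ) ^ i) ≤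
          ∑ i ∈ Finset.range (N + 1), pc2F x i :=
        Finset.sum_le_sum fun i _ => pc2_low2 hs0 hs i
      refine le_trans ?_ a1
      rw [Finset.sum_neg_distrib, ← Finset.mul_sum, pc2_geo2]
      have hxN : x ≤ (1 / 2) ^ 22 * (4 ^ N)⁻¹ := by
        have := hN.le
        rwa [div_eq_mul_inv] at this
      have hi : (0 : ℝ) < (4 ^ N)⁻¹ := by positivity
      have c1 : 12 * 2 ^ 22 * x ^ 2 * s * (2 - 2 * (1 / 2 : ℝ) ^ (N + 1)) ≤
          24 * (4 ^ N)⁻¹ := by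
        have d1 : 0 ≤ 12 * 2 ^ 22 * x ^ 2 * s := by positivity
        have d2 : (2 - 2 * (1 / 2 : ℝ) ^ (N + 1)) ≤ 2 := by
          have : (0 : ℝ) ≤ (1 / 2) ^ (N + 1) := by positivity
          linarith
        have d3 : x * s ≤ 1 := by nlinarith
        have d4 : x ^ 2 * s ≤ (1 / 2) ^ 22 * (4 ^ N)⁻¹ := by
          calc x ^ 2 * s = x * (x * s) := by ring
            _ ≤ ((1 / 2) ^ 22 * (4 ^ N)⁻¹) * 1 :=
              mul_le_mul hxN d3 (by positivity) (by positivity)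
            _ = _ := by ring
        calc 12 * 2 ^ 22 * x ^ 2 * s * (2 - 2 * (1 / 2 : ℝ) ^ (N + 1))
            ≤ 12 * 2 ^ 22 * x ^ 2 * s * 2 := mul_le_mul_of_nonneg_left d2 d1
          _ = 24 * 2 ^ 22 * (x ^ 2 * s) := by ring
          _ ≤ 24 * 2 ^ 22 * ((1 / 2) ^ 22 * (4 ^ N)⁻¹) :=
              mul_le_mul_of_nonneg_left d4 (by positivity)
          _ = 24 * (4 ^ N)⁻¹ := by ring
      have c2 : x ^ 3 / 50 ≤ (4 ^ N)⁻¹ := by
        have : x ^ 3 ≤ (1 / 2) ^ 22 * (4 ^ N)⁻¹ := hx3.trans hxN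
        norm_num at this ⊢
        linarith
      have c3 : 25 / (4 : ℝ) ^ N = 25 * (4 ^ N)⁻¹ := div_eq_mul_inv _ _
      rw [c3]
      linarith

end Pool.Agent.Lib.MP_6d896a_gt.LG
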