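import Pool.Agent.Lib.MP_6d896a_gt.LG.PC3a
import Pool.Agent.Lib.MP_6d896a_gt.LG.PC2
import Pool.Agent.Lib.MP_6d896a_gt.LG.Chain
import Pool.Agent.Lib.MP_6d896a_gt.LG.ItCalc
import Pool.Agent.Lib.MP_6d896a_gt.LG.ItInv
import Pool.Agent.Lib.MP_6d896a_gt.LG.Deriv

/-!
Piece PC3: step I, the bound of the integral of the trace of the cube of the covariance.
-/

set_option autoImplicit false

namespace Pool.Agent.Lib.MP_6d896a_gt.LG

open MeasureTheory Filter Topology Set Matrix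
open scoped ENNReal NNReal

namespace PC3

variable {n : ℕ} {μ ν : Measure (Eu n)} {R B T η τ : ℝ}

/-- the functional -/
noncomputable def Fu (μ : Measure (Eu n)) (η u : ℝ) (t : ℝ) (s : St n) : ℝ :=
  ((η + t)⁻¹ * (η + t)⁻¹) * (((η + t) • Am (tl μ t s.1)).trace - n * u +
    u ^ 2 * (((η + t) • Am (tl μ t s.1) + u • (1 : Mat n))⁻¹).trace)

/-- its drift -/
noncomputable def bu (μ : Measure (Eu n)) (η u : ℝ) (t : ℝ) (s : St n) : ℝ :=
  1 / (η + t) ^ 2 * ((Am (tl μ t s.1) - (η + t) • (Am (tl μ t s.1) * Am (tl μ t s.1))).trace -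
      u ^ 2 * (((η + t) • Am (tl μ t s.1) + u • (1 : Mat n))⁻¹ *
        ((η + t) • Am (tl μ t s.1) + u • (1 : Mat n))⁻¹ *
        (Am (tl μ t s.1) - (η + t) • (Am (tl μ t s.1) * Am (tl μ t s.1)))).trace +
      u ^ 2 * (η + t) ^ 2 * ∑ k, (((η + t) • Am (tl μ t s.1) + u • (1 : Mat n))⁻¹ *
        ((η + t) • Am (tl μ t s.1) + u • (1 : Mat n))⁻¹ * Hm (tl μ t s.1) k *
        ((η + t) • Am (tl μ t s.1) + u • (1 : Mat n))⁻¹ * Hm (tl μ t s.1) k).trace) -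
    2 / (η + t) ^ 3 * ((η + t) * (Am (tl μ t s.1)).trace - n * u +
      u ^ 2 * (((η + t) • Am (tl μ t s.1) + u • (1 : Mat n))⁻¹).trace)

lemma tau_pos (hη : 0 < η) {t : ℝ} (ht : 0 ≤ t) : 0 < η + t := by linarith

theorem it_Fu (h : Nm μ R B) (hη : 0 < η) {u : ℝ} (hu : 0 < u) :
    ∃ σ, It μ B T (Fu μ η u) (bu μ η u) σ := by
  have hτA := MIt.smul h (It.tau (T := T) h η) (MIt.A h)
  have hX := MIt.add h hτA (MIt.const h (u • (1 : Mat n)))
  have hZ := MIt.inv h hX hu (fun t s ht _ _ => by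
    have h1 := tl_prob h t s.1
    have h2 := am_psd (tl_BS h t s.1)
    rw [add_sub_cancel_right]
    exact h2.smul (tau_pos hη ht).le)
  have htr := MIt.trace h hZ
  have h1 := MIt.trace h hτA
  have hg := ((h1.sub h (It.const h (n * u))).add h (htr.cmul h (u ^ 2)))
  have ti := It.tau_inv (T := T) (B := B) h hη
  have hF := (ti.mul h ti).mul h hg
  refine ⟨_, hF.congr h (fun t s _ _ _ => rfl) (fun t s ht _ _ => ?_) (fun t s _ _ _ => rfl)⟩
  have hτ := tau_pos hη ht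
  unfold bu
  generalize (((η + t) • Am (tl μ t s.1) + u • (1 : Mat n))⁻¹) = Z
  generalize Am (tl μ t s.1) = A
  generalize Hm (tl μ t s.1) = H
  simp only [zero_smul, Finset.sum_const_zero, add_zero, zero_add, one_smul, zero_mul, mul_zero,
    smul_neg, sub_zero]
  have e1 : (A + -((η + t) • (A * A))) = A - (η + t) • (A * A) := (sub_eq_add_neg _ _).symm
  rw [e1]
  have e2 : ∀ M : Mat n, (Z * M * Z).trace = (Z * Z * M).trace := by
    intro M
    rw [Matrix.trace_mul_comm, ← Matrix.mul_assoc]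
  have e3 : ∀ k, (Z * ((η + t) • H k) * Z * ((η + t) • H k) * Z).trace =
      (η + t) ^ 2 * (Z * Z * H k * Z * H k).trace := by
    intro k
    simp only [Matrix.mul_smul, Matrix.smul_mul, smul_smul, trace_smul, smul_eq_mul]
    have e4 : (Z * H k * Z * H k * Z).trace = (Z * Z * H k * Z * H k).trace := by
      rw [Matrix.trace_mul_comm]
      simp only [Matrix.mul_assoc]
    rw [e4, sq]
  rw [trace_add, trace_neg, e2, trace_sum]
  simp only [e3, ← Finset.mul_sum, trace_smul, smul_eq_mul]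
  field_simp
  ring

/-- levels -/
noncomputable def lv (i : ℕ) : ℝ := (1 / 2) ^ 22 / 4 ^ i

lemma lv_pos (i : ℕ) : 0 < lv i := by unfold lv; positivity

/-- the functional in eigenvalues -/
lemma g_eq {A U : Mat n} {a : Fin n → ℝ} (hU : U * Uᵀ = 1) (hU' : Uᵀ * U = 1) (hA : A = cj U a)
    (ha : ∀ p, 0 ≤ a p) (hτ : 0 < τ) {u : ℝ} (hu : 0 < u) :
    (τ • A).trace - n * u + u ^ 2 * ((τ • A + u • (1 : Mat n))⁻¹).trace =
      ∑ p, (τ * a p) ^ 2 / (τ * a p + u) := by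
  have hpos : ∀ p, 0 < τ * a p + u := fun p => by
    have := mul_nonneg hτ.le (ha p)
    linarith
  rw [hA, cj_smul, cj_one hU, cj_add, cj_inv hU hU' (fun p => (hpos p).ne'), trace_cj hU',
    trace_cj hU']
  have hn : (n : ℝ) * u = ∑ _p : Fin n, u := by simp
  rw [hn, Finset.mul_sum, ← Finset.sum_sub_distrib, ← Finset.sum_add_distrib]
  refine Finset.sum_congr rfl fun p _ => ?_
  have := (hpos p).ne'
  field_simp
  ring

lemma Fu_nonneg (h : Nm μ R B) (hη : 0 < η) {u : ℝ} (hu : 0 < u) {t : ℝ} (ht : 0 ≤ t) (s : St n) :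
    0 ≤ Fu μ η u t s := by
  have h1 := tl_prob h t s.1
  obtain ⟨b, a, U, _, hU, hU', hA, ha⟩ := exists_eig (tl_BS h t s.1)
  have hτ := tau_pos hη ht
  unfold Fu
  rw [g_eq hU hU' hA ha hτ hu]
  refine mul_nonneg (by positivity) (Finset.sum_nonneg fun p _ => ?_)
  have := mul_nonneg hτ.le (ha p)
  positivity

lemma trace_sq {A U : Mat n} {a : Fin n → ℝ} (hU' : Uᵀ * U = 1) (hA : A = cj U a) :
    (A * A).trace = ∑ p, a p ^ 2 := by
  rw [hA, cj_mul hU', trace_cj hU']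
  exact Finset.sum_congr rfl fun p _ => (sq _).symm

lemma trace_cube {A U : Mat n} {a : Fin n → ℝ} (hU' : Uᵀ * U = 1) (hA : A = cj U a) :
    (A * A * A).trace = ∑ p, a p ^ 3 := by
  rw [hA, cj_mul hU', cj_mul hU', trace_cj hU']
  exact Finset.sum_congr rfl fun p _ => by ring

lemma Fu_zero (h : Nm μ R B) (hη : 0 < η) {u : ℝ} (hu : 0 < u) (P : Mat n) :
    Fu μ η u 0 (0, P) ≤ (Am μ * Am μ).trace / u := by
  have h1 := h.pr
  obtain ⟨b, a, U, _, hU, hU', hA, ha⟩ := exists_eig h.bs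
  have h2 : Fu μ η u 0 (0, P) = (η⁻¹ * η⁻¹) * ((η • Am μ).trace - n * u +
      u ^ 2 * ((η • Am μ + u • (1 : Mat n))⁻¹).trace) := by
    unfold Fu
    simp only [add_zero]
    rw [tl_zero h]
  rw [h2, g_eq hU hU' hA ha hη hu, trace_sq hU' hA, Finset.mul_sum, Finset.sum_div]
  refine Finset.sum_le_sum fun p _ => ?_
  have h3 := mul_nonneg hη.le (ha p)
  have h4 : η⁻¹ * η⁻¹ * ((η * a p) ^ 2 / (η * a p + u)) = a p ^ 2 / (η * a p + u) := by
    field_simp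
  rw [h4]
  exact div_le_div_of_nonneg_left (sq_nonneg _) hu (by linarith)

/-- the drift of the weighted sum -/
lemma drift_le
    (HA : ∀ (ν : Measure (Eu n)) (R τ : ℝ), IsProbabilityMeasure ν → BS R ν → 0 < τ →
      ULC τ ν → (1 - τ • Am ν).PosSemidef)
    (HS : ∀ (ν : Measure (Eu n)) (R τ : ℝ), IsProbabilityMeasure ν → BS R ν → 0 < τ →
      ULC τ ν → ∀ (b : OrthonormalBasis (Fin n) ℝ (Eu n)) (a : Fin n → ℝ), Eig ν b a →
      ∀ (u : ℝ), 0 < u → ∀ (A Z : Mat n), A = Am ν → Z = (τ • A + u • 1)⁻¹ →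
      1 / τ ^ 2 * ((A - τ • (A * A)).trace - u ^ 2 * (Z * Z * (A - τ • (A * A))).trace +
        u ^ 2 * τ ^ 2 * ∑ k, (Z * Z * Hm ν k * Z * Hm ν k).trace) -
      2 / τ ^ 3 * (τ * A.trace - n * u + u ^ 2 * Z.trace) ≤
    - (1 / τ ^ 3 * ∑ p, ((τ * a p) ^ 3 * (1 + τ * a p + 2 * u) / (τ * a p + u) ^ 2 -
      2 * (τ * a p) * kap (τ * a p) * min 1 (6 * (τ * a p) / u))))
    (h : Nm μ R B) (hη : 0 < η) (hu : ULC η μ) (N : ℕ) {t : ℝ} (ht : 0 ≤ t)
    (s : St n) :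
    ∑ i ∈ Finset.range (N + 1), (1 / 8 : ℝ) ^ i * bu μ η (lv i) t s ≤
      -(1 / 50) * (Am (tl μ t s.1) * Am (tl μ t s.1) * Am (tl μ t s.1)).trace +
        25 * n / (4 ^ N * η ^ 3) := by
  have h1 := tl_prob h t s.1
  have h2 := tl_BS h t s.1
  have h3 := tl_ULC h hu t s.1
  have hτ := tau_pos hη ht
  obtain ⟨b, a, U, hb, hU, hU', hA, ha⟩ := exists_eig h2
  obtain ⟨τ, hτe⟩ : ∃ τ, τ = η + t := ⟨_, rfl⟩
  rw [← hτe] at hτ h3
  have hx1 : ∀ p, τ * a p ≤ 1 := by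
    intro p
    have h4 := HA _ R τ h1 h2 hτ h3
    have h5 := h4.dotProduct_mulVec_nonneg (b p : Fin n → ℝ)
    rw [Matrix.sub_mulVec, Matrix.one_mulVec, Matrix.smul_mulVec, dotProduct_sub,
      dotProduct_smul] at h5
    simp only [star_trivial] at h5
    have h6 := hb p p
    rw [quad_eq h2, if_pos rfl] at h6
    rw [h6] at h5
    have h7 : (b p : Fin n → ℝ) ⬝ᵥ (b p : Fin n → ℝ) = 1 := by
      have : (b p : Fin n → ℝ) ⬝ᵥ (b p : Fin n → ℝ) = inner ℝ (b p) (b p) := by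
        rw [inner_sum]
        simp only [dotProduct]
      rw [this, orthonormal_iff_ite.1 b.orthonormal, if_pos rfl]
    rw [h7, smul_eq_mul] at h5
    linarith
  have hx0 : ∀ p, 0 ≤ τ * a p := fun p => mul_nonneg hτ.le (ha p)
  have key : ∀ i, bu μ η (lv i) t s ≤ - (1 / τ ^ 3 * ∑ p, ((τ * a p) ^ 3 *
      (1 + τ * a p + 2 * lv i) / (τ * a p + lv i) ^ 2 -
      2 * (τ * a p) * kap (τ * a p) * min 1 (6 * (τ * a p) / lv i))) := by
    intro i
    have := HS _ R τ h1 h2 hτ h3 b a hb _ (lv_pos i) _ _ rfl rfl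
    unfold bu
    rw [← hτe]
    exact this
  have h8 : ∑ i ∈ Finset.range (N + 1), (1 / 8 : ℝ) ^ i * bu μ η (lv i) t s ≤
      ∑ i ∈ Finset.range (N + 1), (1 / 8 : ℝ) ^ i * (- (1 / τ ^ 3 * ∑ p, ((τ * a p) ^ 3 *
      (1 + τ * a p + 2 * lv i) / (τ * a p + lv i) ^ 2 -
      2 * (τ * a p) * kap (τ * a p) * min 1 (6 * (τ * a p) / lv i)))) :=
    Finset.sum_le_sum fun i _ => mul_le_mul_of_nonneg_left (key i) (by positivity)
  refine h8.trans ?_
  have h9 : ∑ i ∈ Finset.range (N + 1), (1 / 8 : ℝ) ^ i * (- (1 / τ ^ 3 * ∑ p, ((τ * a p) ^ 3 *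
      (1 + τ * a p + 2 * lv i) / (τ * a p + lv i) ^ 2 -
      2 * (τ * a p) * kap (τ * a p) * min 1 (6 * (τ * a p) / lv i)))) =
      - (1 / τ ^ 3 * ∑ p, ∑ i ∈ Finset.range (N + 1), (1 / 8 : ℝ) ^ i * ((τ * a p) ^ 3 *
      (1 + τ * a p + 2 * lv i) / (τ * a p + lv i) ^ 2 -
      2 * (τ * a p) * kap (τ * a p) * min 1 (6 * (τ * a p) / lv i))) := by
    rw [Finset.sum_comm]
    simp only [Finset.mul_sum, ← Finset.sum_neg_distrib]
    rw [Finset.sum_comm]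
    rw [Finset.sum_comm]
    refine Finset.sum_congr rfl fun i _ => Finset.sum_congr rfl fun p _ => ?_
    ring
  rw [h9, trace_cube hU' hA]
  have h10 : ∑ p, ((τ * a p) ^ 3 / 50 - 25 / 4 ^ N) ≤ ∑ p, ∑ i ∈ Finset.range (N + 1),
      (1 / 8 : ℝ) ^ i * ((τ * a p) ^ 3 *
      (1 + τ * a p + 2 * lv i) / (τ * a p + lv i) ^ 2 -
      2 * (τ * a p) * kap (τ * a p) * min 1 (6 * (τ * a p) / lv i)) :=
    Finset.sum_le_sum fun p _ => scalar_ineq N (hx0 p) (hx1 p)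
  have h11 := mul_le_mul_of_nonneg_left h10 (by positivity : (0 : ℝ) ≤ 1 / τ ^ 3)
  have h12 : 1 / τ ^ 3 * ∑ p, ((τ * a p) ^ 3 / 50 - 25 / 4 ^ N) =
      1 / 50 * ∑ p, a p ^ 3 - 25 * n / (4 ^ N * τ ^ 3) := by
    rw [Finset.sum_sub_distrib, Finset.sum_const, Finset.card_univ, Fintype.card_fin,
      ← Finset.sum_div]
    simp only [mul_pow, ← Finset.mul_sum, nsmul_eq_mul]
    field_simp
  have h13 : 25 * (n : ℝ) / (4 ^ N * τ ^ 3) ≤ 25 * n / (4 ^ N * η ^ 3) := by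
    refine div_le_div_of_nonneg_left (by positivity) (by positivity) ?_
    refine mul_le_mul_of_nonneg_left ?_ (by positivity)
    exact pow_le_pow_left₀ hη.le (by rw [hτe]; linarith) 3
  linarith

theorem bd_cube (h : Nm μ R B) :
    Bd B T (fun t s => (Am (tl μ t s.1) * Am (tl μ t s.1) * Am (tl μ t s.1)).trace) := by
  have hA := MIt.A (T := T) (B := B) h
  exact (MIt.trace h (MIt.mul h (MIt.mul h hA hA) hA)).bF

/-- with an error term -/
theorem stepI_N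
    (HA : ∀ (ν : Measure (Eu n)) (R τ : ℝ), IsProbabilityMeasure ν → BS R ν → 0 < τ →
      ULC τ ν → (1 - τ • Am ν).PosSemidef)
    (HS : ∀ (ν : Measure (Eu n)) (R τ : ℝ), IsProbabilityMeasure ν → BS R ν → 0 < τ →
      ULC τ ν → ∀ (b : OrthonormalBasis (Fin n) ℝ (Eu n)) (a : Fin n → ℝ), Eig ν b a →
      ∀ (u : ℝ), 0 < u → ∀ (A Z : Mat n), A = Am ν → Z = (τ • A + u • 1)⁻¹ →
      1 / τ ^ 2 * ((A - τ • (A * A)).trace - u ^ 2 * (Z * Z * (A - τ • (A * A))).trace +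
        u ^ 2 * τ ^ 2 * ∑ k, (Z * Z * Hm ν k * Z * Hm ν k).trace) -
      2 / τ ^ 3 * (τ * A.trace - n * u + u ^ 2 * Z.trace) ≤
    - (1 / τ ^ 3 * ∑ p, ((τ * a p) ^ 3 * (1 + τ * a p + 2 * u) / (τ * a p + u) ^ 2 -
      2 * (τ * a p) * kap (τ * a p) * min 1 (6 * (τ * a p) / u))))
    (h : Nm μ R B) (hη : 0 < η) (hu : ULC η μ) (hT : 0 < T) (N : ℕ) :
    JJ μ T (fun t s => (Am (tl μ t s.1) * Am (tl μ t s.1) * Am (tl μ t s.1)).trace) ≤
      100 * 2 ^ 22 * (Am μ * Am μ).trace + 50 * T * (25 * n / η ^ 3) * (1 / 4) ^ N := by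
  choose σ hσ using fun i : ℕ => it_Fu (T := T) h hη (lv_pos i)
  have hI := It.sum h (Finset.range (N + 1)) (fun i _ => (hσ i).cmul h ((1 / 8 : ℝ) ^ i))
  have hd := dynkin h hT hI
  -- the left hand side is nonnegative
  have hE : 0 ≤ EE μ T (fun s => ∑ i ∈ Finset.range (N + 1), (1 / 8 : ℝ) ^ i * Fu μ η (lv i) T s) := by
    have h1 := EE_mono (F := fun _ => (0 : ℝ)) h hT ⟨0, by simp⟩ (G := fun s =>
      ∑ i ∈ Finset.range (N + 1), (1 / 8 : ℝ) ^ i * Fu μ η (lv i) T s) (by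
        obtain ⟨C, hC⟩ := hI.bF
        exact ⟨C, fun s hs => hC T s hT.le le_rfl hs⟩)
      (fun s _ => Finset.sum_nonneg fun i _ => mul_nonneg (by positivity)
        (Fu_nonneg h hη (lv_pos i) hT.le s))
    rwa [EE_const h hT] at h1
  -- the initial value
  have h0 : ∑ i ∈ Finset.range (N + 1), (1 / 8 : ℝ) ^ i * Fu μ η (lv i) 0 (0, 1) ≤
      2 * 2 ^ 22 * (Am μ * Am μ).trace := by
    have hpr := h.pr
    obtain ⟨b, a, U, _, hU, hU', hA, ha⟩ := exists_eig h.bs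
    have htr : 0 ≤ (Am μ * Am μ).trace := by
      rw [trace_sq hU' hA]
      exact Finset.sum_nonneg fun p _ => sq_nonneg _
    have h1 : ∀ i, (1 / 8 : ℝ) ^ i * Fu μ η (lv i) 0 (0, 1) ≤
        (1 / 2 : ℝ) ^ i * (2 ^ 22 * (Am μ * Am μ).trace) := by
      intro i
      refine (mul_le_mul_of_nonneg_left (Fu_zero h hη (lv_pos i) 1) (by positivity)).trans ?_
      have h2 : (1 / 8 : ℝ) ^ i * ((Am μ * Am μ).trace / lv i) =
          (1 / 2 : ℝ) ^ i * (2 ^ 22 * (Am μ * Am μ).trace) := by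
        unfold lv
        have h3 : (1 / 8 : ℝ) ^ i * 4 ^ i = (1 / 2) ^ i := by rw [← mul_pow]; norm_num
        rw [← h3]
        field_simp
      exact h2.le
    refine (Finset.sum_le_sum fun i _ => h1 i).trans ?_
    rw [← Finset.sum_mul]
    have h2 : ∑ i ∈ Finset.range (N + 1), (1 / 2 : ℝ) ^ i ≤ 2 := by
      have := geom_sum_eq (by norm_num : (1 / 2 : ℝ) ≠ 1) (N + 1)
      rw [this]
      have h3 : (0 : ℝ) < (1 / 2) ^ (N + 1) := by positivity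
      rw [div_le_iff_of_neg (by norm_num)]
      linarith
    have := mul_le_mul_of_nonneg_right h2 (by positivity : 0 ≤ 2 ^ 22 * (Am μ * Am μ).trace)
    linarith
  -- the drift
  have hb : JJ μ T (fun t s => ∑ i ∈ Finset.range (N + 1), (1 / 8 : ℝ) ^ i * bu μ η (lv i) t s) ≤
      -(1 / 50) * JJ μ T (fun t s =>
        (Am (tl μ t s.1) * Am (tl μ t s.1) * Am (tl μ t s.1)).trace) +
        T * (25 * n / (4 ^ N * η ^ 3)) := by
    have hc := bd_cube (T := T) h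
    have h1 : Bd B T (fun t s => -(1 / 50) *
        (Am (tl μ t s.1) * Am (tl μ t s.1) * Am (tl μ t s.1)).trace) := by
      obtain ⟨C, hC⟩ := hc
      refine ⟨1 / 50 * C, fun t s a b c => ?_⟩
      rw [abs_mul]
      have := hC t s a b c
      rw [show |(-(1 / 50) : ℝ)| = 1 / 50 by norm_num]
      exact mul_le_mul_of_nonneg_left this (by norm_num)
    have h2 : Bd B T (fun (_ : ℝ) (_ : St n) => 25 * (n : ℝ) / (4 ^ N * η ^ 3)) :=
      ⟨_, fun t s _ _ _ => le_rfl⟩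
    have h3 : Bd B T (fun t s => -(1 / 50) *
        (Am (tl μ t s.1) * Am (tl μ t s.1) * Am (tl μ t s.1)).trace +
        25 * (n : ℝ) / (4 ^ N * η ^ 3)) := by
      obtain ⟨C, hC⟩ := h1
      obtain ⟨C', hC'⟩ := h2
      exact ⟨C + C', fun t s a b c => (abs_add_le _ _).trans (add_le_add (hC t s a b c)
        (hC' t s a b c))⟩
    have h4 := JJ_mono h hT hI.bb h3 (fun t s ht _ _ => drift_le HA HS h hη hu N ht s)
    rw [JJ_add h hT h1 h2, JJ_cmul h hT hc, JJ_const h hT] at h4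
    exact h4
  have h5 : 25 * (n : ℝ) / (4 ^ N * η ^ 3) = 25 * n / η ^ 3 * (1 / 4) ^ N := by
    rw [one_div, inv_pow]
    field_simp
  rw [h5] at hb
  linarith

end PC3

open PC3 in
/-- C3, from `am_le` and `step1_point` -/
theorem stepI_of {n : ℕ} {μ : Measure (Eu n)} {R B T η : ℝ}
    (HA : ∀ (ν : Measure (Eu n)) (R τ : ℝ), IsProbabilityMeasure ν → BS R ν → 0 < τ →
      ULC τ ν → (1 - τ • Am ν).PosSemidef)
    (HS : ∀ (ν : Measure (Eu n)) (R τ : ℝ), IsProbabilityMeasure ν → BS R ν → 0 < τ →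
      ULC τ ν → ∀ (b : OrthonormalBasis (Fin n) ℝ (Eu n)) (a : Fin n → ℝ), Eig ν b a →
      ∀ (u : ℝ), 0 < u → ∀ (A Z : Mat n), A = Am ν → Z = (τ • A + u • 1)⁻¹ →
      1 / τ ^ 2 * ((A - τ • (A * A)).trace - u ^ 2 * (Z * Z * (A - τ • (A * A))).trace +
        u ^ 2 * τ ^ 2 * ∑ k, (Z * Z * Hm ν k * Z * Hm ν k).trace) -
      2 / τ ^ 3 * (τ * A.trace - n * u + u ^ 2 * Z.trace) ≤
    - (1 / τ ^ 3 * ∑ p, ((τ * a p) ^ 3 * (1 + τ * a p + 2 * u) / (τ * a p + u) ^ 2 -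
      2 * (τ * a p) * kap (τ * a p) * min 1 (6 * (τ * a p) / u))))
    (h : Nm μ R B) (hη : 0 < η) (hu : ULC η μ) (hT : 0 < T) :
    JJ μ T (fun t s => (Am (tl μ t s.1) * Am (tl μ t s.1) * Am (tl μ t s.1)).trace) ≤
      100 * 2 ^ 22 * (Am μ * Am μ).trace := by
  have h1 := stepI_N HA HS h hη hu hT
  have h2 : Tendsto (fun N : ℕ => 100 * 2 ^ 22 * (Am μ * Am μ).trace +
      50 * T * (25 * n / η ^ 3) * (1 / 4 : ℝ) ^ N) atTop
      (𝓝 (100 * 2 ^ 22 * (Am μ * Am μ).trace + 50 * T * (25 * n / η ^ 3) * 0)) :=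
    ((tendsto_pow_atTop_nhds_zero_of_lt_one (by norm_num) (by norm_num)).const_mul _).const_add _
  rw [mul_zero, add_zero] at h2
  exact ge_of_tendsto' h2 h1

end Pool.Agent.Lib.MP_6d896a_gt.LG
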