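import Mathlib
import Pool.Agent.Lib.MP_6d896a_gt.LG.Defs

/-!
Project LG, piece PD1 (step II): matrix algebra.
-/

set_option autoImplicit false

namespace Pool.Agent.Lib.MP_6d896a_gt.LG

open MeasureTheory Filter Topology Set Matrix
open scoped ENNReal NNReal

variable {n : ℕ}

/-! ### positive semidefinite real matrices -/

lemma pd1_sym {M : Mat n} (hM : M.PosSemidef) : Mᵀ = M := by
  have := hM.1.eq
  rwa [conjTranspose_eq_transpose_of_trivial] at this

lemma pd1_conj {M N : Mat n} (hM : M.PosSemidef) (hN : Nᵀ = N) : (N * M * N).PosSemidef := by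
  have := hM.mul_mul_conjTranspose_same N
  rwa [conjTranspose_eq_transpose_of_trivial, hN] at this

lemma pd1_sq {N : Mat n} (hN : Nᵀ = N) : (N * N).PosSemidef := by
  have := pd1_conj (PosSemidef.one (n := Fin n) (R := ℝ)) hN
  rwa [mul_one] at this

lemma pd1_sqT (N : Mat n) : (N * Nᵀ).PosSemidef := by
  have := posSemidef_self_mul_conjTranspose N
  rwa [conjTranspose_eq_transpose_of_trivial] at this

open scoped MatrixOrder in
lemma pd1_tr {M N : Mat n} (hM : M.PosSemidef) (hN : N.PosSemidef) : 0 ≤ (M * N).trace := by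
  obtain ⟨X, rfl⟩ := CStarAlgebra.nonneg_iff_eq_star_mul_self.mp hM.nonneg
  have h1 : (star X * X * N).trace = (X * N * Xᴴ).trace := by
    rw [Matrix.mul_assoc, Matrix.trace_mul_comm, star_eq_conjTranspose]
  rw [h1]
  exact (hN.mul_mul_conjTranspose_same X).trace_nonneg

lemma pd1_symB {A : Mat n} (hA : Aᵀ = A) : (1 - A)ᵀ = 1 - A := by
  rw [transpose_sub, transpose_one, hA]

/-! ### the matrices `R = Q⁻¹`, `B = 1 - R`, `G` -/

section
variable {Q : Mat n}

lemma pd1_Qpos (hQ : (Q - 1).PosSemidef) : Q.PosDef := by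
  have := (PosDef.one (n := Fin n) (R := ℝ)).add_posSemidef hQ
  rwa [add_sub_cancel] at this

lemma pd1_RQ (hQ : (Q - 1).PosSemidef) : Q⁻¹ * Q = 1 ∧ Q * Q⁻¹ = 1 := by
  have h := (pd1_Qpos hQ).isUnit
  rw [isUnit_iff_isUnit_det] at h
  exact ⟨nonsing_inv_mul Q h, mul_nonsing_inv Q h⟩

lemma pd1_Rpos (hQ : (Q - 1).PosSemidef) : (Q⁻¹).PosSemidef := (pd1_Qpos hQ).posSemidef.inv

lemma pd1_RR (hQ : (Q - 1).PosSemidef) : (Q⁻¹ - Q⁻¹ * Q⁻¹).PosSemidef := by
  have h := pd1_conj hQ (pd1_sym (pd1_Rpos hQ))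
  have e : Q⁻¹ * (Q - 1) * Q⁻¹ = Q⁻¹ - Q⁻¹ * Q⁻¹ := by
    rw [mul_sub, mul_one, sub_mul, (pd1_RQ hQ).1, one_mul]
  rwa [e] at h

lemma pd1_B (hQ : (Q - 1).PosSemidef) : (1 - Q⁻¹).PosSemidef := by
  have h1 := pd1_sq (pd1_symB (pd1_sym (pd1_Rpos hQ)))
  have h2 := h1.add (pd1_RR hQ)
  have e : (1 - Q⁻¹) * (1 - Q⁻¹) + (Q⁻¹ - Q⁻¹ * Q⁻¹) = 1 - Q⁻¹ := by noncomm_ring
  rwa [e] at h2

lemma pd1_Geq (hQ : (Q - 1).PosSemidef) :
    (1 - Q⁻¹) * (Q - 1) * (1 - Q⁻¹) = Q - (3 : ℝ) • 1 + (3 : ℝ) • Q⁻¹ - Q⁻¹ * Q⁻¹ := by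
  have h1 := (pd1_RQ hQ).1
  have h2 := (pd1_RQ hQ).2
  have e : (1 - Q⁻¹) * (Q - 1) * (1 - Q⁻¹) =
      Q - 1 - Q⁻¹ * Q + Q⁻¹ - Q * Q⁻¹ + Q⁻¹ + Q⁻¹ * Q * Q⁻¹ - Q⁻¹ * Q⁻¹ := by
    noncomm_ring
  rw [e, h1, h2, one_mul]
  module

lemma pd1_G (hQ : (Q - 1).PosSemidef) :
    (Q - (3 : ℝ) • 1 + (3 : ℝ) • Q⁻¹ - Q⁻¹ * Q⁻¹).PosSemidef := by
  rw [← pd1_Geq hQ]
  exact pd1_conj hQ (pd1_symB (pd1_sym (pd1_Rpos hQ)))

end

/-! ### traces -/

section
variable {A B G Q R H : Mat n} {τ : ℝ}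

/-- `B A^2` and `B^2 A` and `B^3` -/
lemma pd1_tr1 (hB : B.PosSemidef) (hA : Aᵀ = A) (α β : ℝ) :
    2 * (α * β) * (B * B * A).trace ≤
      α ^ 2 * (B * B * B).trace + β ^ 2 * (B * A * A).trace := by
  have hs : (α • B - β • A)ᵀ = α • B - β • A := by
    rw [transpose_sub, transpose_smul, transpose_smul, hA, pd1_sym hB]
  have h := pd1_tr hB (pd1_sq hs)
  have e : B * ((α • B - β • A) * (α • B - β • A)) =
      (α ^ 2) • (B * B * B) - (α * β) • (B * B * A) - (α * β) • (B * A * B) +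
        (β ^ 2) • (B * A * A) := by
    simp only [mul_sub, sub_mul, Matrix.mul_smul, Matrix.smul_mul, Matrix.mul_assoc, smul_smul]
    module
  have e2 : (B * A * B).trace = (B * B * A).trace := by
    rw [Matrix.trace_mul_comm, Matrix.mul_assoc]
  rw [e, trace_add, trace_sub, trace_sub, trace_smul, trace_smul, trace_smul, trace_smul, e2] at h
  simp only [smul_eq_mul] at h
  linarith

/-- `A^3`, `B A^2`, `B^2 A` -/
lemma pd1_tr2 (hA : A.PosSemidef) (hB : Bᵀ = B) (α β : ℝ) :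
    2 * (α * β) * (B * A * A).trace ≤
      α ^ 2 * (B * B * A).trace + β ^ 2 * (A * A * A).trace := by
  have h := pd1_tr1 hA hB β α
  have e1 : (A * A * B).trace = (B * A * A).trace := by
    rw [Matrix.trace_mul_comm, ← Matrix.mul_assoc]
  have e2 : (A * B * B).trace = (B * B * A).trace := by
    rw [Matrix.mul_assoc, Matrix.trace_mul_comm]
  rw [e1, e2] at h
  linarith [mul_comm α β ▸ h]

/-- the drift of the trace of `G K` -/
lemma pd1_tr3 (τ : ℝ) (hG : G = Q - (3 : ℝ) • 1 + (3 : ℝ) • R - R * R) (hB : B = 1 - R) :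
    ((A * Q + Q * A - (3 : ℝ) • (R * A + A * R) +
        ((R * A + A * R) * R + R * (R * A + A * R))) * (1 - τ • A)).trace +
      (G * (-A + τ • (A * A))).trace =
    (G * (A * (1 - τ • A))).trace + 6 * (B * B * (A * (1 - τ • A))).trace +
      2 * τ * ((B * B * (A * A)).trace - (B * A * B * A).trace) := by
  subst hG hB
  have c1 : (A * Q).trace = (Q * A).trace := Matrix.trace_mul_comm _ _
  have c2 : (A * Q * A).trace = (Q * A * A).trace := by
    rw [Matrix.mul_assoc, Matrix.trace_mul_comm]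
  have c3 : (A * R).trace = (R * A).trace := Matrix.trace_mul_comm _ _
  have c4 : (A * R * A).trace = (R * A * A).trace := by
    rw [Matrix.mul_assoc, Matrix.trace_mul_comm]
  have c5 : (R * A * R).trace = (R * R * A).trace := by
    rw [Matrix.trace_mul_comm, Matrix.mul_assoc]
  have c6 : (A * R * R).trace = (R * R * A).trace := by
    rw [Matrix.mul_assoc, Matrix.trace_mul_comm]
  have c7 : (A * R * R * A).trace = (R * R * A * A).trace := by
    rw [Matrix.mul_assoc, Matrix.mul_assoc, Matrix.trace_mul_comm]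
    simp only [Matrix.mul_assoc]
  simp only [mul_sub, sub_mul, mul_add, add_mul, Matrix.mul_smul, Matrix.smul_mul, mul_one,
    one_mul, trace_add, trace_sub, trace_smul, smul_eq_mul, mul_neg, trace_neg,
    ← Matrix.mul_assoc, c1, c2, c3, c4, c5, c6, c7]
  ring

/-- the bound of the drift of `G K` -/
lemma pd1_tr4 (hτ : 0 < τ) (hA : A.PosSemidef) (hK : (1 - τ • A).PosSemidef)
    (hG : G.PosSemidef) (hB : B.PosSemidef) :
    (G * (A * (1 - τ • A))).trace + 6 * (B * B * (A * (1 - τ • A))).trace +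
      2 * τ * ((B * B * (A * A)).trace - (B * A * B * A).trace) ≤
    1 / τ * (G * (1 - τ • A)).trace + 6 * (B * B * A).trace := by
  have h1 := pd1_tr hG (pd1_sq (pd1_sym hK))
  have h2 := pd1_tr (pd1_sq (pd1_sym hB)) (pd1_sq (pd1_sym hA))
  have h3 : 0 ≤ (B * A * B * A).trace := by
    have := pd1_tr hB (pd1_conj hB (pd1_sym hA))
    rwa [← Matrix.mul_assoc, ← Matrix.mul_assoc] at this
  have e1 : (G * ((1 - τ • A) * (1 - τ • A))).trace =
      (G * (1 - τ • A)).trace - τ * (G * (A * (1 - τ • A))).trace := by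
    have e0 : τ * (G * (A * (1 - τ • A))).trace = (τ • (G * (A * (1 - τ • A)))).trace := by
      rw [trace_smul, smul_eq_mul]
    rw [e0, ← trace_sub]
    congr 1
    simp only [mul_sub, sub_mul, Matrix.mul_smul, Matrix.smul_mul, mul_one, one_mul]
    module
  have e2 : (B * B * (A * (1 - τ • A))).trace = (B * B * A).trace - τ * (B * B * (A * A)).trace := by
    have e0 : τ * (B * B * (A * A)).trace = (τ • (B * B * (A * A))).trace := by
      rw [trace_smul, smul_eq_mul]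
    rw [e0, ← trace_sub]
    congr 1
    simp only [mul_sub, Matrix.mul_smul, mul_one]
  rw [e1] at h1
  rw [e2]
  have h4 : (G * (A * (1 - τ • A))).trace ≤ 1 / τ * (G * (1 - τ • A)).trace := by
    rw [div_mul_eq_mul_div, le_div_iff₀ hτ]
    linarith
  nlinarith [mul_nonneg hτ.le h2, mul_nonneg hτ.le h3]

end

end Pool.Agent.Lib.MP_6d896a_gt.LG
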