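import Mathlib
import Pool.Agent.Lib.MP_6d896a_gt.LG.Defs
import Pool.Agent.Lib.MP_6d896a_gt.LG.PD1a
import Pool.Agent.Lib.MP_6d896a_gt.LG.PB1
import Pool.Agent.Lib.MP_6d896a_gt.LG.Chain
import Pool.Agent.Lib.MP_6d896a_gt.LG.ItCalc
import Pool.Agent.Lib.MP_6d896a_gt.LG.ItInv
import Pool.Agent.Lib.MP_6d896a_gt.LG.Atoms
import Pool.Agent.Lib.MP_6d896a_gt.LG.Deriv

/-!
Project LG, piece PD1 (step II).
-/

set_option autoImplicit false

namespace Pool.Agent.Lib.MP_6d896a_gt.LG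

open MeasureTheory Filter Topology Set Matrix
open scoped ENNReal NNReal

variable {n : ℕ} {μ ν : Measure (Eu n)} {R B T η τ : ℝ}

/-- the Poincaré inequality of uniformly log-concave measures (piece PA2) -/
private def UP (n : ℕ) : Prop :=
  ∀ (ν : Measure (Eu n)) (R τ : ℝ), IsProbabilityMeasure ν → BS R ν → 0 < τ → ULC τ ν →
    ∀ f : Eu n → ℝ, ContDiff ℝ 1 f → Cv ν f f ≤ 1 / τ * ∫ x, ‖fderiv ℝ f x‖ ^ 2 ∂ν

/-! ### bounded functions -/

section bd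
variable {F G : ℝ → St n → ℝ} {M N : ℝ → St n → Mat n}

private lemma bd_add (hF : Bd B T F) (hG : Bd B T G) : Bd B T (fun t s => F t s + G t s) := by
  obtain ⟨C, hC⟩ := hF
  obtain ⟨D, hD⟩ := hG
  exact ⟨C + D, fun t s h0 h1 hs => (abs_add_le _ _).trans
    (add_le_add (hC t s h0 h1 hs) (hD t s h0 h1 hs))⟩

private lemma bd_mul (hF : Bd B T F) (hG : Bd B T G) : Bd B T (fun t s => F t s * G t s) := by
  obtain ⟨C, hC⟩ := hF
  obtain ⟨D, hD⟩ := hG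
  refine ⟨|C| * |D|, fun t s h0 h1 hs => ?_⟩
  rw [abs_mul]
  exact mul_le_mul ((hC t s h0 h1 hs).trans (le_abs_self _))
    ((hD t s h0 h1 hs).trans (le_abs_self _)) (abs_nonneg _) (abs_nonneg _)

private lemma bd_const (c : ℝ) : Bd B T (fun _ (_ : St n) => c) :=
  ⟨|c|, fun _ _ _ _ _ => le_rfl⟩

private lemma bd_cmul (hF : Bd B T F) (c : ℝ) : Bd B T (fun t s => c * F t s) :=
  bd_mul (bd_const c) hF

private lemma bd_sum {ι : Type*} (S : Finset ι) {F : ι → ℝ → St n → ℝ}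
    (hF : ∀ i ∈ S, Bd B T (F i)) : Bd B T (fun t s => ∑ i ∈ S, F i t s) := by
  classical
  induction S using Finset.induction_on with
  | empty => simpa using bd_const (B := B) (T := T) (n := n) 0
  | insert a S ha ih =>
    simp only [Finset.sum_insert ha]
    exact bd_add (hF a (Finset.mem_insert_self a S))
      (ih fun i hi => hF i (Finset.mem_insert_of_mem hi))

private def MBd (B T : ℝ) (F : ℝ → St n → Mat n) : Prop :=
  ∀ i j, Bd B T (fun t s => F t s i j)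

private lemma mbd_mul (hM : MBd B T M) (hN : MBd B T N) : MBd B T (fun t s => M t s * N t s) := by
  intro i j
  simp only [Matrix.mul_apply]
  exact bd_sum _ fun k _ => bd_mul (hM i k) (hN k j)

private lemma mbd_sum {ι : Type*} (S : Finset ι) {F : ι → ℝ → St n → Mat n}
    (hF : ∀ i ∈ S, MBd B T (F i)) : MBd B T (fun t s => ∑ i ∈ S, F i t s) := by
  intro i j
  simp only [Matrix.sum_apply]
  exact bd_sum _ fun k hk => hF k hk i j

private lemma mbd_tr (hM : MBd B T M) : Bd B T (fun t s => (M t s).trace) := by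
  simp only [Matrix.trace, Matrix.diag_apply]
  exact bd_sum _ fun k _ => hM k k

private lemma mbd_of {b : ℝ → St n → Mat n} {σ : ℝ → St n → Fin n → Mat n}
    (hM : MIt μ B T M b σ) : MBd B T M := fun i j => (hM i j).bF

private lemma bt_of (hF : Bd B T F) (hT : 0 < T) : Bt B T (F T) := by
  obtain ⟨C, hC⟩ := hF
  exact ⟨C, fun s hs => hC T s hT.le le_rfl hs⟩

end bd

/-! ### the matrices -/

private lemma amS (ν : Measure (Eu n)) : (Am ν)ᵀ = Am ν := by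
  ext i j
  simp only [transpose_apply, Am, Cv, mul_comm]

private lemma hmS (ν : Measure (Eu n)) (k : Fin n) : (Hm ν k)ᵀ = Hm ν k := by
  ext i j
  simp only [transpose_apply, Hm, mul_comm (_ - mn ν i) (_ - mn ν j)]

private lemma HH_pos (ν : Measure (Eu n)) : (∑ k, Hm ν k * Hm ν k).PosSemidef :=
  posSemidef_sum _ fun k _ => pd1_sq (hmS ν k)

private lemma int_coord [IsProbabilityMeasure ν] (hR : BS R ν) (f : Eu n → ℝ)
    (hf : Continuous f) : Integrable f ν := by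
  obtain ⟨C, hC⟩ := (isCompact_closedBall (0 : Eu n) R).exists_bound_of_continuousOn
    hf.continuousOn
  refine Integrable.of_bound hf.aestronglyMeasurable C ?_
  filter_upwards [hR] with x hx
  exact hC x (by simpa using hx)

private lemma Am_pos (hν : IsProbabilityMeasure ν) (hR : BS R ν) : (Am ν).PosSemidef := by
  refine PosSemidef.of_dotProduct_mulVec_nonneg ?_ fun v => ?_
  · rw [Matrix.IsHermitian, conjTranspose_eq_transpose_of_trivial, amS]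
  have hc : ∀ i : Fin n, Continuous fun x : Eu n => x i := fun i => by fun_prop
  have h1 : star v ⬝ᵥ (Am ν).mulVec v =
      ∫ x, (∑ i, v i * x i) ^ 2 ∂ν - (∫ x, ∑ i, v i * x i ∂ν) ^ 2 := by
    have e1 : ∫ x, ∑ i, v i * x i ∂ν = ∑ i, v i * ∫ x, x i ∂ν := by
      rw [integral_finsetSum _ fun i _ => int_coord hR _ (by fun_prop)]
      exact Finset.sum_congr rfl fun i _ => integral_const_mul _ _
    have e2 : ∫ x, (∑ i, v i * x i) ^ 2 ∂ν =
        ∑ i, ∑ j, v i * v j * ∫ x, x i * x j ∂ν := by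
      have : ∀ x : Eu n, (∑ i, v i * x i) ^ 2 = ∑ i, ∑ j, v i * v j * (x i * x j) := by
        intro x
        rw [sq, Finset.sum_mul_sum]
        exact Finset.sum_congr rfl fun i _ => Finset.sum_congr rfl fun j _ => by ring
      simp only [this]
      rw [integral_finsetSum _ fun i _ => int_coord hR _ (by fun_prop)]
      refine Finset.sum_congr rfl fun i _ => ?_
      rw [integral_finsetSum _ fun j _ => int_coord hR _ (by fun_prop)]
      exact Finset.sum_congr rfl fun j _ => integral_const_mul _ _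
    rw [e1, e2, sq, Finset.sum_mul_sum, ← Finset.sum_sub_distrib]
    simp only [dotProduct, mulVec, star_trivial, Am, Cv, Finset.mul_sum,
      ← Finset.sum_sub_distrib]
    exact Finset.sum_congr rfl fun i _ => Finset.sum_congr rfl fun j _ => by ring
  rw [h1]
  have h2 := ProbabilityTheory.variance_nonneg (fun x : Eu n => ∑ i, v i * x i) ν
  rw [ProbabilityTheory.variance_eq_sub] at h2
  · simpa using h2
  · exact (memLp_two_iff_integrable_sq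
      (by fun_prop : Continuous fun x : Eu n => ∑ i, v i * x i).aestronglyMeasurable).2
      (int_coord hR _ (by fun_prop))

/-! ### drifts -/

private lemma ItQ (h : Nm μ R B) :
    MIt μ B T (fun _ s => s.2 * s.2ᵀ)
      (fun t s => Am (tl μ t s.1) * (s.2 * s.2ᵀ) + s.2 * s.2ᵀ * Am (tl μ t s.1))
      (fun _ _ _ => 0) := by
  refine (MIt.mul h (MIt.P h) (MIt.P h).transpose).congr h (fun _ _ _ _ _ => rfl) ?_ ?_
  · intro t s _ _ _
    simp [Matrix.mul_assoc, transpose_mul, amS]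
  · intro t s _ _ _
    ext k
    simp

private lemma ItR (h : Nm μ R B) :
    MIt μ B T (fun _ s => (s.2 * s.2ᵀ)⁻¹)
      (fun t s => -((s.2 * s.2ᵀ)⁻¹ * Am (tl μ t s.1) + Am (tl μ t s.1) * (s.2 * s.2ᵀ)⁻¹))
      (fun _ _ _ => 0) := by
  refine (MIt.inv h (ItQ h) one_pos ?_).congr h (fun _ _ _ _ _ => rfl) ?_ ?_
  · intro t s _ _ hs
    simpa using hs.1
  · intro t s _ _ hs
    have h1 := (pd1_RQ hs.1).1
    have h2 := (pd1_RQ hs.1).2
    simp only [mul_zero, zero_mul, Finset.sum_const_zero, add_zero]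
    rw [mul_add, add_mul, ← mul_assoc _ (s.2 * s.2ᵀ) (Am _), h1, one_mul, mul_assoc,
      mul_assoc _ (s.2 * s.2ᵀ) _, h2, mul_one]
  · intro t s _ _ _
    ext k
    simp

private lemma ItAA (h : Nm μ R B) :
    MIt μ B T (fun t s => Am (tl μ t s.1) * Am (tl μ t s.1))
      (fun t s => -(Am (tl μ t s.1) * Am (tl μ t s.1)) * Am (tl μ t s.1) +
        Am (tl μ t s.1) * -(Am (tl μ t s.1) * Am (tl μ t s.1)) +
        ∑ k, Hm (tl μ t s.1) k * Hm (tl μ t s.1) k)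
      (fun t s k => Hm (tl μ t s.1) k * Am (tl μ t s.1) + Am (tl μ t s.1) * Hm (tl μ t s.1) k) :=
  MIt.mul h (MIt.A h) (MIt.A h)

private lemma ItTrAA (h : Nm μ R B) :
    ∃ σ, It μ B T (fun t s => (Am (tl μ t s.1) * Am (tl μ t s.1)).trace)
      (fun t s => -(2 * (Am (tl μ t s.1) * Am (tl μ t s.1) * Am (tl μ t s.1)).trace) +
        (∑ k, Hm (tl μ t s.1) k * Hm (tl μ t s.1) k).trace) σ := by
  refine ⟨_, (MIt.trace h (ItAA h)).congr h (fun _ _ _ _ _ => rfl) ?_ (fun _ _ _ _ _ => rfl)⟩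
  intro t s _ _ _
  rw [trace_add, trace_add, neg_mul, mul_neg, trace_neg, trace_neg, ← mul_assoc]
  ring

private lemma ItTrQA (h : Nm μ R B) :
    ∃ σ, It μ B T (fun t s => (s.2 * s.2ᵀ * Am (tl μ t s.1)).trace)
      (fun t s => (s.2 * s.2ᵀ * (Am (tl μ t s.1) * Am (tl μ t s.1))).trace) σ := by
  refine ⟨_, (MIt.trace h (MIt.mul h (ItQ h) (MIt.A h))).congr h (fun _ _ _ _ _ => rfl) ?_
    (fun _ _ _ _ _ => rfl)⟩
  intro t s _ _ _
  simp only [zero_mul, Finset.sum_const_zero, add_zero]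
  rw [add_mul, trace_add, trace_add, mul_neg, trace_neg, mul_assoc (s.2 * s.2ᵀ),
    mul_assoc (Am _), Matrix.trace_mul_comm (Am _), mul_assoc (s.2 * s.2ᵀ)]
  ring

private lemma ItTrQAA (h : Nm μ R B) :
    ∃ σ, It μ B T (fun t s => (s.2 * s.2ᵀ * (Am (tl μ t s.1) * Am (tl μ t s.1))).trace)
      (fun t s => (s.2 * s.2ᵀ * ∑ k, Hm (tl μ t s.1) k * Hm (tl μ t s.1) k).trace) σ := by
  refine ⟨_, (MIt.trace h (MIt.mul h (ItQ h) (ItAA h))).congr h (fun _ _ _ _ _ => rfl) ?_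
    (fun _ _ _ _ _ => rfl)⟩
  intro t s _ _ _
  set A := Am (tl μ t s.1)
  set Q := s.2 * s.2ᵀ
  simp only [zero_mul, Finset.sum_const_zero, add_zero]
  have e : (A * Q * (A * A)).trace = (Q * (A * A * A)).trace := by
    rw [mul_assoc, Matrix.trace_mul_comm]
    simp only [mul_assoc]
  rw [add_mul, trace_add, trace_add, mul_add, mul_add, trace_add, trace_add, e, neg_mul, mul_neg,
    mul_neg, mul_neg, trace_neg, trace_neg]
  simp only [← mul_assoc]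
  ring

private lemma ItB (h : Nm μ R B) :
    MIt μ B T (fun _ s => 1 - (s.2 * s.2ᵀ)⁻¹)
      (fun t s => (s.2 * s.2ᵀ)⁻¹ * Am (tl μ t s.1) + Am (tl μ t s.1) * (s.2 * s.2ᵀ)⁻¹)
      (fun _ _ _ => 0) := by
  refine (MIt.sub h (MIt.const h 1) (ItR h)).congr h (fun _ _ _ _ _ => rfl) ?_ ?_
  · intro t s _ _ _
    simp
  · intro t s _ _ _
    ext k
    simp

private lemma ItK (h : Nm μ R B) (η : ℝ) :
    ∃ σ, MIt μ B T (fun t s => 1 - (η + t) • Am (tl μ t s.1))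
      (fun t s => -Am (tl μ t s.1) + (η + t) • (Am (tl μ t s.1) * Am (tl μ t s.1))) σ := by
  refine ⟨_, (MIt.sub h (MIt.const h 1) (MIt.smul h (It.tau h η) (MIt.A h))).congr h
    (fun _ _ _ _ _ => rfl) ?_ (fun _ _ _ _ _ => rfl)⟩
  intro t s _ _ _
  simp only [one_smul, zero_smul, Finset.sum_const_zero, add_zero, zero_sub, smul_neg, neg_add,
    neg_neg]

private lemma ItTrGK (h : Nm μ R B) (η : ℝ) :
    ∃ σ, It μ B T
      (fun t s => ((s.2 * s.2ᵀ - (3 : ℝ) • 1 + (3 : ℝ) • (s.2 * s.2ᵀ)⁻¹ -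
        (s.2 * s.2ᵀ)⁻¹ * (s.2 * s.2ᵀ)⁻¹) * (1 - (η + t) • Am (tl μ t s.1))).trace)
      (fun t s =>
        ((s.2 * s.2ᵀ - (3 : ℝ) • 1 + (3 : ℝ) • (s.2 * s.2ᵀ)⁻¹ -
          (s.2 * s.2ᵀ)⁻¹ * (s.2 * s.2ᵀ)⁻¹) *
            (Am (tl μ t s.1) * (1 - (η + t) • Am (tl μ t s.1)))).trace +
        6 * ((1 - (s.2 * s.2ᵀ)⁻¹) * (1 - (s.2 * s.2ᵀ)⁻¹) *
            (Am (tl μ t s.1) * (1 - (η + t) • Am (tl μ t s.1)))).trace +
        2 * (η + t) * (((1 - (s.2 * s.2ᵀ)⁻¹) * (1 - (s.2 * s.2ᵀ)⁻¹) *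
              (Am (tl μ t s.1) * Am (tl μ t s.1))).trace -
          ((1 - (s.2 * s.2ᵀ)⁻¹) * Am (tl μ t s.1) * (1 - (s.2 * s.2ᵀ)⁻¹) *
              Am (tl μ t s.1)).trace)) σ := by
  obtain ⟨σ, hK⟩ := ItK (T := T) h η
  have h3 : It μ B T (fun _ _ => (3 : ℝ)) (fun _ _ => 0) (fun _ _ _ => 0) := It.const h 3
  have hG := MIt.sub h (MIt.add h (MIt.sub h (ItQ (T := T) h) (MIt.const h ((3 : ℝ) • 1)))
    (MIt.smul h h3 (ItR h))) (MIt.mul h (ItR h) (ItR h))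
  refine ⟨_, (MIt.trace h (MIt.mul h hG hK)).congr h (fun _ _ _ _ _ => rfl) ?_
    (fun _ _ _ _ _ => rfl)⟩
  intro t s _ _ _
  have key := pd1_tr3 (A := Am (tl μ t s.1)) (Q := s.2 * s.2ᵀ) (R := (s.2 * s.2ᵀ)⁻¹) (η + t)
    rfl rfl
  rw [← key, ← trace_add]
  congr 1
  simp only [zero_smul, smul_zero, mul_zero, zero_mul, sub_zero, add_zero, zero_add,
    Finset.sum_const_zero]
  congr 2
  simp only [smul_neg, neg_mul, mul_neg]
  abel

private lemma ItTrBBB (h : Nm μ R B) :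
    ∃ σ, It μ B T
      (fun _ s => ((1 - (s.2 * s.2ᵀ)⁻¹) * (1 - (s.2 * s.2ᵀ)⁻¹) * (1 - (s.2 * s.2ᵀ)⁻¹)).trace)
      (fun t s => 6 * ((1 - (s.2 * s.2ᵀ)⁻¹) * (1 - (s.2 * s.2ᵀ)⁻¹) * Am (tl μ t s.1)).trace -
        6 * ((1 - (s.2 * s.2ᵀ)⁻¹) * (1 - (s.2 * s.2ᵀ)⁻¹) * (1 - (s.2 * s.2ᵀ)⁻¹) *
          Am (tl μ t s.1)).trace) σ := by
  refine ⟨_, (MIt.trace h (MIt.mul h (MIt.mul h (ItB h) (ItB h)) (ItB h))).congr h
    (fun _ _ _ _ _ => rfl) ?_ (fun _ _ _ _ _ => rfl)⟩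
  intro t s _ _ _
  set A := Am (tl μ t s.1)
  set S := (s.2 * s.2ᵀ)⁻¹
  simp only [mul_zero, zero_mul, Finset.sum_const_zero, add_zero]
  obtain ⟨X, hX⟩ : ∃ X, X = 1 - S := ⟨_, rfl⟩
  have hS : S = 1 - X := by rw [hX]; abel
  rw [← hX, hS]
  have c1 : (A * X * X).trace = (X * X * A).trace := by
    rw [mul_assoc, Matrix.trace_mul_comm]
  have c2 : (X * A * X).trace = (X * X * A).trace := by
    rw [Matrix.trace_mul_comm, ← mul_assoc]
  have c3 : (A * X * X * X).trace = (X * X * X * A).trace := by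
    rw [mul_assoc, mul_assoc, Matrix.trace_mul_comm]
    simp only [mul_assoc]
  have c4 : (X * A * X * X).trace = (X * X * X * A).trace := by
    rw [mul_assoc, Matrix.trace_mul_comm]
    simp only [mul_assoc]
  have c5 : (X * X * A * X).trace = (X * X * X * A).trace := by
    rw [Matrix.trace_mul_comm]
    simp only [mul_assoc]
  simp only [mul_sub, sub_mul, mul_add, add_mul, mul_one, one_mul, trace_add, trace_sub,
    ← mul_assoc, c1, c2, c3, c4, c5]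
  ring

private lemma ItTi2 (h : Nm μ R B) (hη : 0 < η) {F b : ℝ → St n → ℝ}
    (hF : ∃ σ, It μ B T F b σ) :
    ∃ σ, It μ B T (fun t s => ((η + t)⁻¹) ^ 2 * F t s)
      (fun t s => -(2 * (((η + t)⁻¹) ^ 3 * F t s)) + ((η + t)⁻¹) ^ 2 * b t s) σ := by
  obtain ⟨σ, hF⟩ := hF
  have hi := It.tau_inv (T := T) h hη
  refine ⟨_, (It.mul h (It.mul h hi hi) hF).congr h (fun _ _ _ _ _ => ?_) ?_
    (fun _ _ _ _ _ => rfl)⟩
  · ring
  · intro t s _ _ _
    simp only [mul_zero, zero_mul, Finset.sum_const_zero, add_zero]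
    ring

/-! ### the final estimate -/

private lemma J_nonneg (h : Nm μ R B) (hT : 0 < T) {F : ℝ → St n → ℝ} (hF : Bd B T F)
    (hle : ∀ t s, 0 ≤ t → t ≤ T → Rg B t s → 0 ≤ F t s) : 0 ≤ JJ μ T F := by
  have := JJ_mono h hT (bd_const 0) hF hle
  rwa [JJ_const h hT, mul_zero] at this

private lemma E_nonneg (h : Nm μ R B) (hT : 0 < T) {F : ℝ → St n → ℝ} (hF : Bd B T F)
    (hle : ∀ s, Rg B T s → 0 ≤ F T s) : 0 ≤ EE μ T (F T) := by
  have := EE_mono h hT (bt_of (bd_const 0) hT) (bt_of hF hT) hle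
  rwa [EE_const h hT] at this

private lemma Kpos (hP : UP n) (h : Nm μ R B) (hη : 0 < η) (hu : ULC η μ) {t : ℝ} (ht : 0 ≤ t) (c : Eu n) :
    (1 - (η + t) • Am (tl μ t c)).PosSemidef :=
  am_le_of (tl_prob h t c) (tl_BS h t c) (by linarith)
    (hP _ R _ (tl_prob h t c) (tl_BS h t c) (by linarith) (tl_ULC h hu t c))

private lemma Apos (h : Nm μ R B) (t : ℝ) (c : Eu n) : (Am (tl μ t c)).PosSemidef :=
  Am_pos (tl_prob h t c) (tl_BS h t c)

private lemma dyn_nonneg (h : Nm μ R B) (hT : 0 < T) {F b : ℝ → St n → ℝ}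
    (hI : ∃ σ, It μ B T F b σ) (h0 : F 0 (0, 1) = 0) (hp : ∀ s, Rg B T s → 0 ≤ F T s) :
    0 ≤ JJ μ T b := by
  obtain ⟨σ, hI⟩ := hI
  have h1 := E_nonneg h hT hI.bF hp
  rw [dynkin h hT hI, h0, zero_add] at h1
  exact h1

private lemma J_le (h : Nm μ R B) (hT : 0 < T) {F G H : ℝ → St n → ℝ} (hF : Bd B T F)
    (hG : Bd B T G) (hH : Bd B T H) {c d : ℝ}
    (hle : ∀ t s, 0 ≤ t → t ≤ T → Rg B t s → F t s ≤ c * G t s + d * H t s) :
    JJ μ T F ≤ c * JJ μ T G + d * JJ μ T H := by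
  have h1 := JJ_mono h hT hF (bd_add (bd_cmul hG c) (bd_cmul hH d)) hle
  rwa [JJ_add h hT (bd_cmul hG c) (bd_cmul hH d), JJ_cmul h hT hG, JJ_cmul h hT hH] at h1

/-! the functions -/

private noncomputable def fA (μ : Measure (Eu n)) (t : ℝ) (s : St n) : ℝ :=
  (Am (tl μ t s.1) * Am (tl μ t s.1) * Am (tl μ t s.1)).trace

private noncomputable def fBA (μ : Measure (Eu n)) (η t : ℝ) (s : St n) : ℝ :=
  (η + t)⁻¹ * ((1 - (s.2 * s.2ᵀ)⁻¹) * Am (tl μ t s.1) * Am (tl μ t s.1)).trace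

private noncomputable def fBB (μ : Measure (Eu n)) (η t : ℝ) (s : St n) : ℝ :=
  ((η + t)⁻¹) ^ 2 * ((1 - (s.2 * s.2ᵀ)⁻¹) * (1 - (s.2 * s.2ᵀ)⁻¹) * Am (tl μ t s.1)).trace

private noncomputable def fB (η t : ℝ) (s : St n) : ℝ :=
  ((η + t)⁻¹) ^ 3 *
    ((1 - (s.2 * s.2ᵀ)⁻¹) * (1 - (s.2 * s.2ᵀ)⁻¹) * (1 - (s.2 * s.2ᵀ)⁻¹)).trace

private noncomputable def Gm (s : St n) : Mat n :=
  s.2 * s.2ᵀ - (3 : ℝ) • 1 + (3 : ℝ) • (s.2 * s.2ᵀ)⁻¹ - (s.2 * s.2ᵀ)⁻¹ * (s.2 * s.2ᵀ)⁻¹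

private noncomputable def fG (μ : Measure (Eu n)) (η t : ℝ) (s : St n) : ℝ :=
  ((η + t)⁻¹) ^ 3 * (Gm s * (1 - (η + t) • Am (tl μ t s.1))).trace

private noncomputable def fH (μ : Measure (Eu n)) (t : ℝ) (s : St n) : ℝ :=
  (∑ k, Hm (tl μ t s.1) k * Hm (tl μ t s.1) k).trace

private noncomputable def fQ (μ : Measure (Eu n)) (t : ℝ) (s : St n) : ℝ :=
  (s.2 * s.2ᵀ * ∑ k, Hm (tl μ t s.1) k * Hm (tl μ t s.1) k).trace

private lemma bdA (h : Nm μ R B) : MBd B T (fun t s => Am (tl μ t s.1)) := mbd_of (MIt.A h)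
private lemma bdB (h : Nm μ R B) : MBd B T (fun _ (s : St n) => 1 - (s.2 * s.2ᵀ)⁻¹) :=
  mbd_of (ItB h)
private lemma bdi (h : Nm μ R B) (hη : 0 < η) : Bd B T (fun t (_ : St n) => (η + t)⁻¹) :=
  (It.tau_inv (T := T) h hη).bF
private lemma bdi2 (h : Nm μ R B) (hη : 0 < η) : Bd B T (fun t (_ : St n) => ((η + t)⁻¹) ^ 2) := by
  simpa only [sq] using bd_mul (bdi h hη) (bdi h hη)
private lemma bdi3 (h : Nm μ R B) (hη : 0 < η) : Bd B T (fun t (_ : St n) => ((η + t)⁻¹) ^ 3) := by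
  simpa only [pow_succ, pow_zero, one_mul] using bd_mul (bd_mul (bdi h hη) (bdi h hη)) (bdi h hη)
private lemma bdH (h : Nm μ R B) :
    MBd B T (fun t s => ∑ k, Hm (tl μ t s.1) k * Hm (tl μ t s.1) k) :=
  mbd_sum _ fun k _ => mbd_mul (fun i j => (MIt.A h i j).bs k) (fun i j => (MIt.A h i j).bs k)

private lemma bfA (h : Nm μ R B) : Bd B T (fA μ) :=
  mbd_tr (mbd_mul (mbd_mul (bdA h) (bdA h)) (bdA h))
private lemma bfBA (h : Nm μ R B) (hη : 0 < η) : Bd B T (fBA μ η) :=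
  bd_mul (bdi h hη) (mbd_tr (mbd_mul (mbd_mul (bdB h) (bdA h)) (bdA h)))
private lemma bfBB (h : Nm μ R B) (hη : 0 < η) : Bd B T (fBB μ η) :=
  bd_mul (bdi2 h hη) (mbd_tr (mbd_mul (mbd_mul (bdB h) (bdB h)) (bdA h)))
private lemma bfB (h : Nm μ R B) (hη : 0 < η) : Bd B T (fB (n := n) η) :=
  bd_mul (bdi3 h hη) (mbd_tr (mbd_mul (mbd_mul (bdB h) (bdB h)) (bdB h)))
private lemma bfG (h : Nm μ R B) (hη : 0 < η) : Bd B T (fG μ η) := by
  obtain ⟨σ, hG⟩ := ItTrGK (T := T) h η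
  exact bd_mul (bdi3 h hη) hG.bF
private lemma bfH (h : Nm μ R B) : Bd B T (fH μ) := mbd_tr (bdH h)
private lemma bfQ (h : Nm μ R B) : Bd B T (fQ μ) := mbd_tr (mbd_mul (mbd_of (ItQ h)) (bdH h))

private lemma e1 (h : Nm μ R B) (hη : 0 < η) (hT : 0 < T) :
    2 * JJ μ T (fB η) ≤ 6 * JJ μ T (fBB μ η) := by
  obtain ⟨σ, hI⟩ := ItTi2 (T := T) h hη (ItTrBBB h)
  have h0 := dyn_nonneg h hT ⟨σ, hI⟩ (by simp) ?_
  · have h1 := J_le (c := -2) (d := 6) h hT hI.bb (bfB h hη) (bfBB h hη) ?_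
    · linarith
    · intro t s ht _ hs
      have hB := pd1_B hs.1
      have h3 := pd1_tr (pd1_conj hB (pd1_sym hB)) (Apos h t s.1)
      have h4 : 0 ≤ ((η + t)⁻¹) ^ 2 := sq_nonneg _
      have h5 := mul_nonneg h4 h3
      simp only [fB, fBB]
      linarith
  · intro s hs
    have hB := pd1_B hs.1
    exact mul_nonneg (sq_nonneg _) (pd1_tr (pd1_sq (pd1_sym hB)) hB)

private lemma e2 (hP : UP n) (h : Nm μ R B) (hη : 0 < η) (hu : ULC η μ) (hT : 0 < T) :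
    JJ μ T (fG μ η) ≤ 6 * JJ μ T (fBB μ η) := by
  obtain ⟨σ, hI⟩ := ItTi2 (T := T) h hη (ItTrGK h η)
  have h0 := dyn_nonneg h hT ⟨σ, hI⟩ ?_ ?_
  · have h1 := J_le (c := -1) (d := 6) h hT hI.bb (bfG h hη) (bfBB h hη) ?_
    · linarith
    · intro t s ht _ hs
      have hB := pd1_B hs.1
      have h3 := pd1_tr4 (τ := η + t) (by linarith) (Apos h t s.1) (Kpos hP h hη hu ht s.1)
        (pd1_G hs.1) hB
      have h4 : 0 ≤ ((η + t)⁻¹) ^ 2 := sq_nonneg _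
      have h5 := mul_le_mul_of_nonneg_left h3 h4
      simp only [fG, fBB, Gm]
      rw [one_div] at h5
      refine (add_le_add_right h5 _).trans (le_of_eq ?_)
      ring
  · simp
  · intro s hs
    exact mul_nonneg (sq_nonneg _) (pd1_tr (pd1_G hs.1) (Kpos hP h hη hu hT.le s.1))

private lemma e3 (h : Nm μ R B) (hη : 0 < η) (hT : 0 < T) :
    2 * JJ μ T (fBB μ η) ≤ 1 / 3 * JJ μ T (fB η) + 3 * JJ μ T (fBA μ η) := by
  have h1 := J_le (c := 1 / 3) (d := 3) h hT (bd_cmul (bfBB h hη) 2) (bfB h hη) (bfBA h hη) ?_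
  · rwa [JJ_cmul h hT (bfBB h hη)] at h1
  · intro t s ht _ hs
    have hi : 0 < (η + t)⁻¹ := inv_pos.2 (by linarith)
    have hB := pd1_B hs.1
    have h3 := pd1_tr1 hB (pd1_sym (Apos h t s.1)) (Real.sqrt (((η + t)⁻¹) ^ 3 / 3))
      (Real.sqrt (3 * (η + t)⁻¹))
    have h4 : Real.sqrt (((η + t)⁻¹) ^ 3 / 3) * Real.sqrt (3 * (η + t)⁻¹) = ((η + t)⁻¹) ^ 2 := by
      rw [← Real.sqrt_mul (by positivity)]
      have : ((η + t)⁻¹) ^ 3 / 3 * (3 * (η + t)⁻¹) = (((η + t)⁻¹) ^ 2) ^ 2 := by ring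
      rw [this, Real.sqrt_sq (by positivity)]
    rw [h4, Real.sq_sqrt (by positivity), Real.sq_sqrt (by positivity)] at h3
    simp only [fB, fBB, fBA]
    linarith

private lemma e4 (h : Nm μ R B) (hη : 0 < η) (hT : 0 < T) :
    2 * JJ μ T (fBA μ η) ≤ 1 / 3 * JJ μ T (fBB μ η) + 3 * JJ μ T (fA μ) := by
  have h1 := J_le (c := 1 / 3) (d := 3) h hT (bd_cmul (bfBA h hη) 2) (bfBB h hη) (bfA h) ?_
  · rwa [JJ_cmul h hT (bfBA h hη)] at h1
  · intro t s ht _ hs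
    have hi : 0 < (η + t)⁻¹ := inv_pos.2 (by linarith)
    have hB := pd1_B hs.1
    have h3 := pd1_tr2 (Apos h t s.1) (pd1_sym hB) (Real.sqrt (((η + t)⁻¹) ^ 2 / 3))
      (Real.sqrt 3)
    have h4 : Real.sqrt (((η + t)⁻¹) ^ 2 / 3) * Real.sqrt 3 = (η + t)⁻¹ := by
      rw [← Real.sqrt_mul (by positivity)]
      have : ((η + t)⁻¹) ^ 2 / 3 * 3 = ((η + t)⁻¹) ^ 2 := by ring
      rw [this, Real.sqrt_sq (by positivity)]
    rw [h4, Real.sq_sqrt (by positivity), Real.sq_sqrt (by positivity)] at h3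
    simp only [fA, fBB, fBA]
    linarith

private lemma trAA_le {A : Mat n} {τ : ℝ} (hτ : 0 < τ) (hA : A.PosSemidef)
    (hK : (1 - τ • A).PosSemidef) : (A * A).trace ≤ n / τ ^ 2 := by
  have h1 := pd1_tr hA hK
  have h2 := hK.trace_nonneg
  rw [mul_sub, mul_one, Matrix.mul_smul, trace_sub, trace_smul, smul_eq_mul] at h1
  rw [trace_sub, trace_smul, smul_eq_mul, trace_one, Fintype.card_fin] at h2
  rw [le_div_iff₀ (by positivity)]
  nlinarith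

private lemma e5 (hP : UP n) (h : Nm μ R B) (hη : 0 < η) (hu : ULC η μ) (hT : 0 < T) :
    JJ μ T (fH μ) ≤ n / T ^ 2 - (Am μ * Am μ).trace + 2 * JJ μ T (fA μ) := by
  obtain ⟨σ, hI⟩ := ItTrAA (T := T) h
  have hD := dynkin h hT hI
  have h1 := J_le (c := 1) (d := 2) h hT (bfH h) hI.bb (bfA h) (fun t s _ _ _ => by
    simp only [fH, fA]
    linarith)
  have h2 : EE μ T ((fun t s => (Am (tl μ t s.1) * Am (tl μ t s.1)).trace) T) ≤
      n / T ^ 2 := by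
    have h3 := EE_mono h hT (bt_of hI.bF hT) (bt_of (bd_const (n / T ^ 2)) hT) (fun s _ => ?_)
    · rwa [EE_const h hT] at h3
    · refine (trAA_le (τ := η + T) (by linarith) (Apos h T s.1) (Kpos hP h hη hu hT.le s.1)).trans ?_
      exact div_le_div_of_nonneg_left (Nat.cast_nonneg _) (by positivity)
        (pow_le_pow_left₀ hT.le (by linarith) 2)
  simp only [tl_zero h] at hD
  rw [hD] at h2
  linarith

private lemma e6 (hP : UP n) (h : Nm μ R B) (hη : 0 < η) (hu : ULC η μ) (hT : 0 < T) :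
    JJ μ T (fQ μ) ≤ 3 * JJ μ T (fH μ) + 4 * JJ μ T (fG μ η) := by
  refine J_le h hT (bfQ h) (bfH h) (bfG h hη) fun t s ht _ hs => ?_
  have hτ : 0 < η + t := by linarith
  have hp : (∑ k, Hm (tl μ t s.1) k * Hm (tl μ t s.1) k).PosSemidef := HH_pos _
  have h3 := pd1_tr (pd1_G hs.1) (hm_le_of (tl_prob h t s.1) (tl_BS h t s.1) hτ
    (hP _ R _ (tl_prob h t s.1) (tl_BS h t s.1) hτ (tl_ULC h hu t s.1)))
  simp only [fQ, fH, fG, Gm]
  generalize (∑ k, Hm (tl μ t s.1) k * Hm (tl μ t s.1) k) = HH at *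
  have h1 := pd1_tr (pd1_RR hs.1) hp
  have h2 := pd1_tr (pd1_Rpos hs.1) hp
  rw [mul_sub, trace_sub, Matrix.mul_smul, trace_smul, smul_eq_mul] at h3
  have e : (s.2 * s.2ᵀ * HH).trace = ((s.2 * s.2ᵀ - (3 : ℝ) • 1 + (3 : ℝ) • (s.2 * s.2ᵀ)⁻¹ -
      (s.2 * s.2ᵀ)⁻¹ * (s.2 * s.2ᵀ)⁻¹) * HH).trace + 3 * HH.trace -
      2 * ((s.2 * s.2ᵀ)⁻¹ * HH).trace -
      (((s.2 * s.2ᵀ)⁻¹ - (s.2 * s.2ᵀ)⁻¹ * (s.2 * s.2ᵀ)⁻¹) * HH).trace := by
    simp only [sub_mul, add_mul, Matrix.smul_mul, one_mul, trace_sub, trace_add, trace_smul,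
      smul_eq_mul]
    ring
  rw [e]
  have e2 : 4 * (((η + t)⁻¹) ^ 3 * ((s.2 * s.2ᵀ - (3 : ℝ) • 1 + (3 : ℝ) • (s.2 * s.2ᵀ)⁻¹ -
      (s.2 * s.2ᵀ)⁻¹ * (s.2 * s.2ᵀ)⁻¹) * (1 - (η + t) • Am (tl μ t s.1))).trace) =
      4 / (η + t) ^ 3 * ((s.2 * s.2ᵀ - (3 : ℝ) • 1 + (3 : ℝ) • (s.2 * s.2ᵀ)⁻¹ -
      (s.2 * s.2ᵀ)⁻¹ * (s.2 * s.2ᵀ)⁻¹) * (1 - (η + t) • Am (tl μ t s.1))).trace := by
    rw [inv_pow]
    ring
  rw [e2]
  linarith

/-- step II, from the Poincaré inequality `ulc_poincare` -/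
theorem stepII_of
    (hP : ∀ (ν : Measure (Eu n)) (R τ : ℝ), IsProbabilityMeasure ν → BS R ν → 0 < τ → ULC τ ν →
      ∀ f : Eu n → ℝ, ContDiff ℝ 1 f → Cv ν f f ≤ 1 / τ * ∫ x, ‖fderiv ℝ f x‖ ^ 2 ∂ν)
    (h : Nm μ R B) (hη : 0 < η) (hu : ULC η μ) (hT : 0 < T) {v : ℝ}
    (hv : JJ μ T (fun t s => (Am (tl μ t s.1) * Am (tl μ t s.1) * Am (tl μ t s.1)).trace) ≤ v) :
    EE μ T (fun s => (s.2 * s.2ᵀ * Am (tl μ T s.1)).trace) ≤
      (Am μ).trace + T * (222 * v + 3 * n / T ^ 2) := by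
  have hv' : JJ μ T (fA μ) ≤ v := hv
  have hA := Am_pos h.pr h.bs
  have hS := pd1_tr hA hA
  have h1 := e1 h hη hT
  have h2 := e2 hP h hη hu hT
  have h3 := e3 h hη hT
  have h4 := e4 h hη hT
  have h5 := e5 hP h hη hu hT
  have h6 := e6 hP h hη hu hT
  obtain ⟨σ, hI⟩ := ItTrQA (T := T) h
  obtain ⟨σ', hI'⟩ := ItTrQAA (T := T) h
  have ht : It μ B T (fun t _ => T - t) (fun _ _ => -1) (fun _ _ _ => 0) := by
    refine It.time h (f := fun t => T - t) (f' := fun _ => -1) (C := T + 1) ?_ ?_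
    · intro t h0 h1
      rw [abs_of_nonneg (by linarith), abs_neg, abs_one]
      constructor <;> linarith
    · intro t t' h0 h1 h2
      have : T - t' - (T - t) - (t' - t) * -1 = 0 := by ring
      rw [this, abs_zero]
      positivity
  have hJ := It.add h hI (It.mul h ht hI')
  have hD := dynkin h hT hJ
  have e0 : EE μ T (fun s => (s.2 * s.2ᵀ * Am (tl μ T s.1)).trace) =
      EE μ T ((fun t s => (s.2 * s.2ᵀ * Am (tl μ t s.1)).trace +
        (T - t) * (s.2 * s.2ᵀ * (Am (tl μ t s.1) * Am (tl μ t s.1))).trace) T) := by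
    simp
  rw [e0, hD]
  have h7 := J_le (c := T) (d := 0) h hT hJ.bb (bfQ h) (bfQ h) (fun t s ht _ hs => ?_)
  · simp only [tl_zero h, transpose_one, mul_one, one_mul, sub_zero]
    have h8 : T * JJ μ T (fQ μ) ≤ T * (222 * v + 3 * n / T ^ 2 - 3 * (Am μ * Am μ).trace) := by
      refine mul_le_mul_of_nonneg_left ?_ hT.le
      have : 3 * (n : ℝ) / T ^ 2 = 3 * (n / T ^ 2) := by ring
      rw [this]
      linarith
    nlinarith [mul_nonneg hT.le hS]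
  · have hQ : (s.2 * s.2ᵀ).PosSemidef := (pd1_Qpos hs.1).posSemidef
    have h9 : 0 ≤ fQ μ t s := pd1_tr hQ (HH_pos _)
    have e9 : (s.2 * s.2ᵀ * ∑ k, Hm (tl μ t s.1) k * Hm (tl μ t s.1) k).trace = fQ μ t s := rfl
    simp only [zero_mul, Finset.sum_const_zero, add_zero, e9]
    nlinarith [mul_nonneg ht h9]

end Pool.Agent.Lib.MP_6d896a_gt.LG
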