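import Mathlib
import Pool.Agent.Lib.MP_6d896a_gt.LG.Deriv

/-!
The bound of covariances with vector fields (end of step II).
-/

set_option autoImplicit false

namespace Pool.Agent.Lib.MP_6d896a_gt.LG

open MeasureTheory Filter Topology Set Matrix
open scoped ENNReal NNReal

variable {n : ℕ} {μ ν : Measure (Eu n)} {R B T η : ℝ}

namespace PD2

/-! ### integrals of continuous functions -/

lemma bdd_of_cont (hR : BS R μ) {f : Eu n → ℝ} (hf : Continuous f) :
    ∃ M : ℝ, ∀ᵐ x ∂μ, |f x| ≤ M := by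
  obtain ⟨M, hM⟩ :=
    (isCompact_closedBall (0 : Eu n) R).exists_bound_of_continuousOn hf.continuousOn
  exact ⟨M, hR.mono fun x hx => by simpa using hM x (by simpa using hx)⟩

lemma int_of_cont (hμ : IsProbabilityMeasure μ) (hR : BS R μ) {f : Eu n → ℝ}
    (hf : Continuous f) : Integrable f μ := by
  obtain ⟨M, hM⟩ := bdd_of_cont hR hf
  exact Integrable.of_bound hf.aestronglyMeasurable M (by simpa using hM)

lemma cv_quad (hμ : IsProbabilityMeasure μ) (hR : BS R μ) {f g : Eu n → ℝ} (hf : Continuous f)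
    (hg : Continuous g) (a : ℝ) :
    2 * a * Cv μ f g ≤ a ^ 2 * Cv μ f f + Cv μ g g := by
  have hff := int_of_cont hμ hR (hf.mul hf)
  have hfg := int_of_cont hμ hR (hf.mul hg)
  have hgg := int_of_cont hμ hR (hg.mul hg)
  have hf1 := int_of_cont hμ hR hf
  have hg1 := int_of_cont hμ hR hg
  set m : ℝ := a * ∫ x, f x ∂μ - ∫ x, g x ∂μ with hm
  have h0 : 0 ≤ ∫ x, (a * f x - g x - m) ^ 2 ∂μ := integral_nonneg fun x => sq_nonneg _
  have e : ∀ x, (a * f x - g x - m) ^ 2 = a ^ 2 * (f x * f x) - 2 * a * (f x * g x) +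
      g x * g x - 2 * m * a * f x + 2 * m * g x + m ^ 2 := fun x => by ring
  have h1 : ∫ x, (a * f x - g x - m) ^ 2 ∂μ = a ^ 2 * ∫ x, f x * f x ∂μ -
      2 * a * ∫ x, f x * g x ∂μ + ∫ x, g x * g x ∂μ - 2 * m * a * ∫ x, f x ∂μ +
      2 * m * ∫ x, g x ∂μ + m ^ 2 := by
    simp_rw [e]
    rw [integral_add, integral_add, integral_sub, integral_add, integral_sub,
      integral_const_mul, integral_const_mul, integral_const_mul, integral_const_mul]
    · simp
    · exact hff.const_mul _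
    · exact hfg.const_mul _
    · exact (hff.const_mul _).sub (hfg.const_mul _)
    · exact hgg
    · exact ((hff.const_mul _).sub (hfg.const_mul _)).add hgg
    · exact hf1.const_mul _
    · exact (((hff.const_mul _).sub (hfg.const_mul _)).add hgg).sub (hf1.const_mul _)
    · exact hg1.const_mul _
    · exact ((((hff.const_mul _).sub (hfg.const_mul _)).add hgg).sub (hf1.const_mul _)).add
        (hg1.const_mul _)
    · exact integrable_const _
  unfold Cv
  rw [h1] at h0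
  nlinarith [h0]

lemma cont_coord (i : Fin n) : Continuous fun x : Eu n => x i := by fun_prop

/-- covariance of a linear combination of the coordinates with a function -/
lemma cv_lin (hμ : IsProbabilityMeasure μ) (hR : BS R μ) (p : Fin n → ℝ) {g : Eu n → ℝ}
    (hg : Continuous g) :
    Cv μ (fun x => ∑ i, p i * x i) g = ∑ i, p i * Cv μ (fun x => x i) g := by
  have h1 : ∀ x : Eu n, (∑ i, p i * x i) * g x = ∑ i, p i * (x i * g x) := fun x => by
    rw [Finset.sum_mul]; exact Finset.sum_congr rfl fun i _ => by ring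
  have h2 : ∀ i ∈ Finset.univ, Integrable (fun x : Eu n => p i * (x i * g x)) μ := fun i _ =>
    int_of_cont hμ hR (by fun_prop)
  have h3 : ∀ i ∈ Finset.univ, Integrable (fun x : Eu n => p i * x i) μ := fun i _ =>
    int_of_cont hμ hR (by fun_prop)
  unfold Cv
  simp_rw [h1]
  rw [integral_finsetSum _ h2, integral_finsetSum _ h3]
  simp_rw [integral_const_mul]
  rw [Finset.sum_mul, ← Finset.sum_sub_distrib]
  exact Finset.sum_congr rfl fun i _ => by ring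

lemma cv_comm (f g : Eu n → ℝ) : Cv μ f g = Cv μ g f := by
  unfold Cv
  rw [mul_comm (∫ x, f x ∂μ)]
  congr 1
  exact integral_congr_ae (Eventually.of_forall fun x => mul_comm _ _)

lemma am_symm : (Am μ)ᵀ = Am μ := by
  ext i j
  exact cv_comm _ _

/-- the pointwise Cauchy-Schwarz inequality -/
lemma point (hμ : IsProbabilityMeasure μ) (hR : BS R μ) (P : Mat n) {φ : Fin n → Eu n → ℝ}
    (hφ : ∀ j, Continuous (φ j)) (a : ℝ) :
    2 * a * (Pᵀ * Nv μ φ).trace ≤ a ^ 2 * (P * Pᵀ * Am μ).trace + ∑ j, Cv μ (φ j) (φ j) := by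
  have hψ : ∀ j, Continuous fun x : Eu n => ∑ i, P i j * x i := fun j => by fun_prop
  have e1 : (Pᵀ * Nv μ φ).trace = ∑ j, Cv μ (fun x => ∑ i, P i j * x i) (φ j) := by
    simp only [Matrix.trace, Matrix.diag, Matrix.mul_apply, Matrix.transpose_apply]
    refine Finset.sum_congr rfl fun j _ => ?_
    rw [cv_lin hμ hR _ (hφ j)]
    rfl
  have e2 : (P * Pᵀ * Am μ).trace =
      ∑ j, Cv μ (fun x => ∑ i, P i j * x i) (fun x => ∑ i, P i j * x i) := by
    have e3 : (P * Pᵀ * Am μ).trace = (Pᵀ * (Am μ * P)).trace := by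
      rw [Matrix.mul_assoc, Matrix.trace_mul_comm, Matrix.mul_assoc]
    rw [e3]
    simp only [Matrix.trace, Matrix.diag, Matrix.mul_apply, Matrix.transpose_apply]
    refine Finset.sum_congr rfl fun j _ => ?_
    rw [cv_lin hμ hR _ (hψ j)]
    refine Finset.sum_congr rfl fun i _ => ?_
    rw [cv_comm (fun x : Eu n => x i), cv_lin hμ hR _ (cont_coord i)]
    congr 1
    refine Finset.sum_congr rfl fun k _ => ?_
    rw [mul_comm]
    congr 1
    exact cv_comm _ _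
  rw [e1, e2, Finset.mul_sum, Finset.mul_sum, ← Finset.sum_add_distrib]
  exact Finset.sum_le_sum fun j _ => cv_quad hμ hR (hψ j) (hφ j) a

lemma bt_of_it {F b : ℝ → St n → ℝ} {σ : ℝ → St n → Fin n → ℝ} (hT : 0 < T)
    (hF : It μ B T F b σ) : Bt B T (F T) := by
  obtain ⟨C, hC⟩ := It.bF hF
  exact ⟨C, fun s hs => hC T s hT.le le_rfl hs⟩

/-- the process `Tr (P^T N)` -/
lemma it_PN (h : Nm μ R B) {φ : Fin n → Eu n → ℝ} (hφ : ∀ j, Continuous (φ j)) :
    ∃ σ, It μ B T (fun t s => (s.2ᵀ * Nv (tl μ t s.1) φ).trace) (fun _ _ => 0) σ := by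
  have hμ := h.pr
  have hb : ∀ j, ∃ M : ℝ, ∀ᵐ x ∂μ, |φ j x| ≤ M := fun j => bdd_of_cont h.bs (hφ j)
  choose M hM using hb
  have hb' : ∀ j, ∀ᵐ x ∂μ, |φ j x| ≤ ∑ i, |M i| := fun j => by
    filter_upwards [hM j] with x hx
    exact hx.trans ((le_abs_self _).trans
      (Finset.single_le_sum (fun i _ => abs_nonneg (M i)) (Finset.mem_univ j)))
  obtain ⟨σ, hσ⟩ := MIt.N (T := T) h (fun j => (hφ j).measurable) hb'
  have h1 := MIt.trace h (MIt.mul h (MIt.transpose (MIt.P (T := T) h)) hσ)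
  refine ⟨_, It.congr h h1 (fun _ _ _ _ _ => rfl) (fun t s _ _ _ => ?_)
    (fun _ _ _ _ _ => rfl)⟩
  simp only [Matrix.transpose_mul, am_symm, Matrix.transpose_zero, Matrix.zero_mul,
    Finset.sum_const_zero, add_zero, Matrix.mul_neg, Matrix.mul_assoc, add_neg_cancel,
    Matrix.trace_zero]

/-- the process `Tr (P P^T A)` -/
lemma it_QA (h : Nm μ R B) :
    ∃ b σ, It μ B T (fun t s => (s.2 * s.2ᵀ * Am (tl μ t s.1)).trace) b σ :=
  ⟨_, _, MIt.trace h (MIt.mul h (MIt.mul h (MIt.P (T := T) h) (MIt.transpose (MIt.P (T := T) h)))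
    (MIt.A h))⟩

/-- expectation of a martingale -/
lemma EE_mart (h : Nm μ R B) (hT : 0 < T) {F : ℝ → St n → ℝ} {σ : ℝ → St n → Fin n → ℝ}
    (hI : It μ B T F (fun _ _ => 0) σ) : EE μ T (F T) = F 0 (0, 1) := by
  rw [dynkin h hT hI, JJ_const h hT, mul_zero, add_zero]

lemma cont_g {φ : Fin n → Eu n → ℝ} (hφ : ∀ j, ContDiff ℝ 1 (φ j)) :
    Continuous fun x => ∑ j, ‖fderiv ℝ (φ j) x‖ ^ 2 :=
  continuous_finsetSum _ fun j _ => (((hφ j).continuous_fderiv one_ne_zero).norm.pow 2)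

section main

variable
    (hPoinc : ∀ (ν : Measure (Eu n)) (R τ : ℝ), IsProbabilityMeasure ν → BS R ν → 0 < τ →
      ULC τ ν → ∀ f : Eu n → ℝ, ContDiff ℝ 1 f →
        Cv ν f f ≤ 1 / τ * ∫ x, ‖fderiv ℝ f x‖ ^ 2 ∂ν)
    (hI : ∀ (μ : Measure (Eu n)) (R B η T : ℝ), Nm μ R B → 0 < η → ULC η μ → 0 < T →
      JJ μ T (fun t s => (Am (tl μ t s.1) * Am (tl μ t s.1) * Am (tl μ t s.1)).trace) ≤
        100 * 2 ^ 22 * (Am μ * Am μ).trace)
    (hII : ∀ (μ : Measure (Eu n)) (R B η T v : ℝ), Nm μ R B → 0 < η → ULC η μ → 0 < T →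
      JJ μ T (fun t s => (Am (tl μ t s.1) * Am (tl μ t s.1) * Am (tl μ t s.1)).trace) ≤ v →
      EE μ T (fun s => (s.2 * s.2ᵀ * Am (tl μ T s.1)).trace) ≤
        (Am μ).trace + T * (222 * v + 3 * n / T ^ 2))

include hPoinc hII in
/-- the bound with finite time horizon -/
lemma bound_T (h : Nm μ R B) (hη : 0 < η) (hu : ULC η μ) (hT : 0 < T) {v : ℝ}
    (hv : JJ μ T (fun t s => (Am (tl μ t s.1) * Am (tl μ t s.1) * Am (tl μ t s.1)).trace) ≤ v)
    {φ : Fin n → Eu n → ℝ} (hφ : ∀ j, ContDiff ℝ 1 (φ j)) :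
    (∑ i, Cv μ (fun x => x i) (φ i)) ^ 2 ≤
      ((Am μ).trace * T⁻¹ + 222 * v + 3 * n * (T⁻¹) ^ 2) *
        ∫ x, ∑ j, ‖fderiv ℝ (φ j) x‖ ^ 2 ∂μ := by
  have hμ := h.pr
  set X : ℝ := ∑ i, Cv μ (fun x => x i) (φ i) with hX
  set W : ℝ := ∫ x, ∑ j, ‖fderiv ℝ (φ j) x‖ ^ 2 ∂μ with hW
  have hφc : ∀ j, Continuous (φ j) := fun j => (hφ j).continuous
  obtain ⟨σ, hσ⟩ := it_PN (T := T) h hφc
  obtain ⟨b', σ', hσ'⟩ := it_QA (T := T) h
  obtain ⟨M, hM⟩ := bdd_of_cont h.bs (cont_g hφ)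
  have hg := It.ev (T := T) h (cont_g hφ).measurable hM
  have hE1 : EE μ T (fun s => (s.2ᵀ * Nv (tl μ T s.1) φ).trace) = X := by
    rw [EE_mart h hT hσ]
    simp only [tl_zero h, Matrix.transpose_one, Matrix.one_mul]
    rfl
  have hE2 : EE μ T (fun s => ∫ x, ∑ j, ‖fderiv ℝ (φ j) x‖ ^ 2 ∂(tl μ T s.1)) = W := by
    rw [EE_mart h hT hg]
    simp only [tl_zero h]
    rfl
  have hE3 := hII μ R B η T v h hη hu hT hv
  have key : ∀ a : ℝ, 2 * a * X ≤ a ^ 2 * ((Am μ).trace + T * (222 * v + 3 * n / T ^ 2)) +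
      1 / T * W := by
    intro a
    have h1 := EE_mono h hT (F := fun s => 2 * a * (s.2ᵀ * Nv (tl μ T s.1) φ).trace)
      (G := fun s => a ^ 2 * (s.2 * s.2ᵀ * Am (tl μ T s.1)).trace +
        1 / T * ∫ x, ∑ j, ‖fderiv ℝ (φ j) x‖ ^ 2 ∂(tl μ T s.1))
      (bt_of_it hT (It.cmul h hσ _))
      (bt_of_it hT (It.add h (It.cmul h hσ' _) (It.cmul h hg _))) ?_
    · rw [EE_cmul h hT (bt_of_it hT hσ), EE_add h hT (bt_of_it hT (It.cmul h hσ' _))
        (bt_of_it hT (It.cmul h hg _)), EE_cmul h hT (bt_of_it hT hσ'),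
        EE_cmul h hT (bt_of_it hT hg), hE1, hE2] at h1
      refine h1.trans ?_
      have := mul_le_mul_of_nonneg_left hE3 (sq_nonneg a)
      linarith
    · intro s _
      have hp := tl_prob h T s.1
      have hb := tl_BS h T s.1
      have hul := tl_ULC h hu T s.1
      refine (point hp hb s.2 hφc a).trans ?_
      gcongr
      have h2 : ∀ j ∈ Finset.univ, Integrable (fun x : Eu n => ‖fderiv ℝ (φ j) x‖ ^ 2)
          (tl μ T s.1) := fun j _ =>
        int_of_cont hp hb (((hφ j).continuous_fderiv one_ne_zero).norm.pow 2)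
      rw [integral_finsetSum _ h2, Finset.mul_sum]
      refine Finset.sum_le_sum fun j _ => ?_
      refine (hPoinc _ R (η + T) hp hb (by linarith) hul _ (hφ j)).trans ?_
      have h0 : 0 ≤ ∫ x, ‖fderiv ℝ (φ j) x‖ ^ 2 ∂(tl μ T s.1) :=
        integral_nonneg fun x => by positivity
      gcongr
      linarith
  have hd := discrim_le_zero (a := (Am μ).trace + T * (222 * v + 3 * n / T ^ 2))
    (b := -(2 * X)) (c := 1 / T * W) (fun a => by have := key a; nlinarith)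
  unfold discrim at hd
  have e : ((Am μ).trace * T⁻¹ + 222 * v + 3 * n * (T⁻¹) ^ 2) * W =
      ((Am μ).trace + T * (222 * v + 3 * n / T ^ 2)) * (1 / T * W) := by
    field_simp
    ring
  rw [e]
  nlinarith

include hPoinc hI hII in
/-- the bound for uniformly log-concave measures -/
lemma bound_ulc (h : Nm μ R B) (hη : 0 < η) (hu : ULC η μ)
    {φ : Fin n → Eu n → ℝ} (hφ : ∀ j, ContDiff ℝ 1 (φ j)) :
    (∑ i, Cv μ (fun x => x i) (φ i)) ^ 2 ≤ 222 * (100 * 2 ^ 22) * (Am μ * Am μ).trace *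
        ∫ x, ∑ j, ‖fderiv ℝ (φ j) x‖ ^ 2 ∂μ := by
  have h1 : ∀ᶠ T : ℝ in atTop, (∑ i, Cv μ (fun x => x i) (φ i)) ^ 2 ≤
      ((Am μ).trace * T⁻¹ + 222 * (100 * 2 ^ 22 * (Am μ * Am μ).trace) + 3 * n * (T⁻¹) ^ 2) *
        ∫ x, ∑ j, ‖fderiv ℝ (φ j) x‖ ^ 2 ∂μ := by
    filter_upwards [eventually_gt_atTop 0] with T hT
    exact bound_T hPoinc hII h hη hu hT (hI μ R B η T h hη hu hT) hφ
  have h2 : Tendsto (fun T : ℝ => ((Am μ).trace * T⁻¹ + 222 * (100 * 2 ^ 22 *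
      (Am μ * Am μ).trace) + 3 * n * (T⁻¹) ^ 2) * ∫ x, ∑ j, ‖fderiv ℝ (φ j) x‖ ^ 2 ∂μ) atTop
      (𝓝 (((Am μ).trace * 0 + 222 * (100 * 2 ^ 22 * (Am μ * Am μ).trace) + 3 * n * 0 ^ 2) *
        ∫ x, ∑ j, ‖fderiv ℝ (φ j) x‖ ^ 2 ∂μ)) := by
    have h3 : Tendsto (fun T : ℝ => T⁻¹) atTop (𝓝 0) := tendsto_inv_atTop_zero
    exact (((h3.const_mul _).add_const _).add ((h3.pow 2).const_mul _)).mul_const _
  have h4 := ge_of_tendsto h2 h1
  refine h4.trans (le_of_eq ?_)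
  ring

end main

/-! ### small uniform log-concavity -/

lemma tl_int (t : ℝ) (f : Eu n → ℝ) :
    ∫ x, f x ∂(tl μ t 0) = (∫ x, Real.exp (-(t / 2 * ‖x‖ ^ 2)) * f x ∂μ) /
      ∫ x, Real.exp (-(t / 2 * ‖x‖ ^ 2)) ∂μ := by
  unfold tl
  rw [integral_tilted]
  simp only [inner_zero_left, zero_sub, smul_eq_mul]
  rw [← integral_div]
  refine integral_congr_ae (Eventually.of_forall fun x => ?_)
  simp only
  ring

lemma tl_lim (hμ : IsProbabilityMeasure μ) (hR : BS R μ) {f : Eu n → ℝ} (hf : Continuous f) :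
    Tendsto (fun t : ℝ => ∫ x, f x ∂(tl μ t 0)) (𝓝[>] 0) (𝓝 (∫ x, f x ∂μ)) := by
  have key : ∀ g : Eu n → ℝ, Continuous g → Tendsto (fun t : ℝ =>
      ∫ x, Real.exp (-(t / 2 * ‖x‖ ^ 2)) * g x ∂μ) (𝓝[>] 0) (𝓝 (∫ x, g x ∂μ)) := by
    intro g hg
    refine tendsto_integral_filter_of_dominated_convergence (fun x => |g x|) ?_ ?_ ?_ ?_
    · refine Eventually.of_forall fun t => ?_
      exact Continuous.aestronglyMeasurable (by fun_prop)
    · filter_upwards [self_mem_nhdsWithin] with t ht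
      refine Eventually.of_forall fun x => ?_
      rw [norm_mul, Real.norm_eq_abs, Real.abs_exp, Real.norm_eq_abs]
      have ht' : (0 : ℝ) < t := ht
      have : Real.exp (-(t / 2 * ‖x‖ ^ 2)) ≤ 1 := Real.exp_le_one_iff.2 (by
        have : 0 ≤ t / 2 * ‖x‖ ^ 2 := by positivity
        linarith)
      exact mul_le_of_le_one_left (abs_nonneg _) this
    · exact (int_of_cont hμ hR hg).abs
    · refine Eventually.of_forall fun x => ?_
      have h1 : Tendsto (fun t : ℝ => Real.exp (-(t / 2 * ‖x‖ ^ 2)) * g x) (𝓝 0)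
          (𝓝 (Real.exp (-(0 / 2 * ‖x‖ ^ 2)) * g x)) :=
        Continuous.tendsto (by fun_prop) 0
      simpa using h1.mono_left nhdsWithin_le_nhds
  have h1 := key f hf
  have h2 := key (fun _ => 1) continuous_const
  simp only [mul_one, integral_const, probReal_univ, smul_eq_mul] at h2
  have h3 := h1.div h2 one_ne_zero
  rw [div_one] at h3
  exact h3.congr fun t => (tl_int t f).symm

lemma cv_lim (hμ : IsProbabilityMeasure μ) (hR : BS R μ) {f g : Eu n → ℝ} (hf : Continuous f)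
    (hg : Continuous g) :
    Tendsto (fun t : ℝ => Cv (tl μ t 0) f g) (𝓝[>] 0) (𝓝 (Cv μ f g)) :=
  (tl_lim hμ hR (hf.mul hg)).sub ((tl_lim hμ hR hf).mul (tl_lim hμ hR hg))

end PD2

open PD2 in
theorem sIn_of
    (hPoinc : ∀ (ν : Measure (Eu n)) (R τ : ℝ), IsProbabilityMeasure ν → BS R ν → 0 < τ →
      ULC τ ν → ∀ f : Eu n → ℝ, ContDiff ℝ 1 f →
        Cv ν f f ≤ 1 / τ * ∫ x, ‖fderiv ℝ f x‖ ^ 2 ∂ν)
    (hI : ∀ (μ : Measure (Eu n)) (R B η T : ℝ), Nm μ R B → 0 < η → ULC η μ → 0 < T →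
      JJ μ T (fun t s => (Am (tl μ t s.1) * Am (tl μ t s.1) * Am (tl μ t s.1)).trace) ≤
        100 * 2 ^ 22 * (Am μ * Am μ).trace)
    (hII : ∀ (μ : Measure (Eu n)) (R B η T v : ℝ), Nm μ R B → 0 < η → ULC η μ → 0 < T →
      JJ μ T (fun t s => (Am (tl μ t s.1) * Am (tl μ t s.1) * Am (tl μ t s.1)).trace) ≤ v →
      EE μ T (fun s => (s.2 * s.2ᵀ * Am (tl μ T s.1)).trace) ≤
        (Am μ).trace + T * (222 * v + 3 * n / T ^ 2)) :
    SIn n (222 * (100 * 2 ^ 22)) := by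
  intro ν R hν hpl hR φ hφ
  -- standing assumptions with a nonnegative radius
  have hR' : BS |R| ν := hR.mono fun x hx => hx.trans (le_abs_self R)
  have h : Nm ν |R| (2 * n * |R| ^ 2) := ⟨hν, abs_nonneg R, hR', le_rfl⟩
  have hu0 : ULC 0 ν := by
    unfold ULC
    simpa using hpl
  have h1 : ∀ᶠ t : ℝ in 𝓝[>] 0, (∑ i, Cv (tl ν t 0) (fun x => x i) (φ i)) ^ 2 ≤
      222 * (100 * 2 ^ 22) * (Am (tl ν t 0) * Am (tl ν t 0)).trace *
        ∫ x, ∑ j, ‖fderiv ℝ (φ j) x‖ ^ 2 ∂(tl ν t 0) := by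
    filter_upwards [self_mem_nhdsWithin] with t ht
    have hul := tl_ULC h hu0 t 0
    rw [zero_add] at hul
    exact bound_ulc hPoinc hI hII (R := |R|) (B := 2 * n * |R| ^ 2)
      ⟨tl_prob h t 0, abs_nonneg R, tl_BS h t 0, le_rfl⟩ ht hul hφ
  refine le_of_tendsto_of_tendsto ?_ ?_ h1
  · exact (tendsto_finsetSum _ fun i _ =>
      cv_lim hν hR (cont_coord i) (hφ i).continuous).pow 2
  · refine (Tendsto.const_mul _ ?_).mul (tl_lim hν hR (cont_g hφ))
    simp only [Matrix.trace, Matrix.diag, Matrix.mul_apply]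
    exact tendsto_finsetSum _ fun i _ => tendsto_finsetSum _ fun k _ =>
      (cv_lim hν hR (cont_coord i) (cont_coord k)).mul
        (cv_lim hν hR (cont_coord k) (cont_coord i))

end Pool.Agent.Lib.MP_6d896a_gt.LG
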