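import Mathlib
import Pool.Agent.Lib.MP_6d896a_gt.LG.PA1
import Pool.Agent.Lib.MP_6d896a_gt.LG.PA2
import Pool.Agent.Lib.MP_6d896a_gt.LG.PA3
import Pool.Agent.Lib.MP_6d896a_gt.LG.PB1
import Pool.Agent.Lib.MP_6d896a_gt.LG.PB2
import Pool.Agent.Lib.MP_6d896a_gt.LG.PC1
import Pool.Agent.Lib.MP_6d896a_gt.LG.PC3
import Pool.Agent.Lib.MP_6d896a_gt.LG.PD1
import Pool.Agent.Lib.MP_6d896a_gt.LG.PD2

/-!
Project LG: the weighted thin shell bound for all log-concave measures.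
-/

set_option autoImplicit false

namespace Pool.Agent.Lib.MP_6d896a_gt.LG

open MeasureTheory Filter Topology Set Matrix
open scoped ENNReal NNReal

variable {n : ℕ} {μ ν : Measure (Eu n)} {R B T η τ : ℝ}

theorem ulc_poincare (hν : IsProbabilityMeasure ν) (hR : BS R ν) (hτ : 0 < τ) (hu : ULC τ ν)
    {f : Eu n → ℝ} (hf : ContDiff ℝ 1 f) :
    Cv ν f f ≤ 1 / τ * ∫ x, ‖fderiv ℝ f x‖ ^ 2 ∂ν :=
  ulc_poincare_of p1s hν hR hτ hu hf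

theorem ulc_improved (hν : IsProbabilityMeasure ν) (hR : BS R ν) (hτ : 0 < τ) (hu : ULC τ ν)
    {s : ℝ} (hs0 : 0 ≤ s)
    (hs : ∀ w : Eu n, Cv ν (fun x => inner ℝ x w) (fun x => inner ℝ x w) ≤ s * ‖w‖ ^ 2)
    {f : Eu n → ℝ} (hf : ContDiff ℝ 1 f) :
    Cv ν f f ≤ Real.sqrt (s / τ) * ∫ x, ‖fderiv ℝ f x‖ ^ 2 ∂ν :=
  ulc_improved_of p2s hν hR hτ hu hs0 hs hf

theorem ulc_centered (hν : IsProbabilityMeasure ν) (hR : BS R ν) (hτ : 0 < τ) (hu : ULC τ ν)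
    {s : ℝ} (hs0 : 0 ≤ s)
    (hs : ∀ w : Eu n, Cv ν (fun x => inner ℝ x w) (fun x => inner ℝ x w) ≤ s * ‖w‖ ^ 2)
    {f : Eu n → ℝ} (hf : ContDiff ℝ 1 f) (h0 : ∀ w, ∫ x, fderiv ℝ f x w ∂ν = 0) :
    Cv ν f f ≤ 1 / τ * (Real.sqrt (s * τ) / (1 + Real.sqrt (s * τ))) *
      ∫ x, ‖fderiv ℝ f x‖ ^ 2 ∂ν :=
  ulc_centered_of p3s hν hR hτ hu hs0 hs hf h0

theorem am_le (hν : IsProbabilityMeasure ν) (hR : BS R ν) (hτ : 0 < τ) (hu : ULC τ ν) :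
    (1 - τ • Am ν).PosSemidef :=
  am_le_of hν hR hτ (fun _ hf => ulc_poincare hν hR hτ hu hf)

theorem hm_le (hν : IsProbabilityMeasure ν) (hR : BS R ν) (hτ : 0 < τ) (hu : ULC τ ν) :
    ((4 / τ ^ 3) • (1 - τ • Am ν) - ∑ k, Hm ν k * Hm ν k).PosSemidef :=
  hm_le_of hν hR hτ (fun _ hf => ulc_poincare hν hR hτ hu hf)

theorem t_bound (hν : IsProbabilityMeasure ν) (hR : BS R ν) (hτ : 0 < τ) (hu : ULC τ ν)
    {b : OrthonormalBasis (Fin n) ℝ (Eu n)} {a : Fin n → ℝ} (hb : Eig ν b a) (p : Fin n)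
    {w : Fin n → Fin n → ℝ} (hw0 : ∀ i j, 0 ≤ w i j) (hws : ∀ i j, w i j = w j i)
    (hwp : ∀ i j, a p < a i → w i j = 0) {β : ℝ} (hβ0 : 0 ≤ β)
    (hβ : ∀ i j, w i j * (τ * a i + τ * a j) ≤ β) :
    ∑ i, ∑ j, w i j * T3 ν b p i j ^ 2 ≤ 2 * (τ * a p) * kap (τ * a p) * β / τ ^ 3 :=
  t_bound_of (fun _ _ _ h1 h2 h3 h4 _ h5 h6 _ h7 h8 => ulc_centered h1 h2 h3 h4 h5 h6 h7 h8)
    hν hR hτ hu hb p hw0 hws hwp hβ0 hβ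

theorem step1_point (hν : IsProbabilityMeasure ν) (hR : BS R ν) (hτ : 0 < τ) (hu : ULC τ ν)
    {b : OrthonormalBasis (Fin n) ℝ (Eu n)} {a : Fin n → ℝ} (hb : Eig ν b a)
    {u : ℝ} (hu0 : 0 < u) {A Z : Mat n} (hA : A = Am ν) (hZ : Z = (τ • A + u • 1)⁻¹) :
    1 / τ ^ 2 * ((A - τ • (A * A)).trace - u ^ 2 * (Z * Z * (A - τ • (A * A))).trace +
        u ^ 2 * τ ^ 2 * ∑ k, (Z * Z * Hm ν k * Z * Hm ν k).trace) -
      2 / τ ^ 3 * (τ * A.trace - n * u + u ^ 2 * Z.trace) ≤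
    - (1 / τ ^ 3 * ∑ p, ((τ * a p) ^ 3 * (1 + τ * a p + 2 * u) / (τ * a p + u) ^ 2 -
      2 * (τ * a p) * kap (τ * a p) * min 1 (6 * (τ * a p) / u))) :=
  step1_point_of hν hR hτ hb (t_bound hν hR hτ hu hb) hu0 hA hZ

theorem stepI (h : Nm μ R B) (hη : 0 < η) (hu : ULC η μ) (hT : 0 < T) :
    JJ μ T (fun t s => (Am (tl μ t s.1) * Am (tl μ t s.1) * Am (tl μ t s.1)).trace) ≤
      100 * 2 ^ 22 * (Am μ * Am μ).trace :=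
  stepI_of (fun _ _ _ h1 h2 h3 h4 => am_le h1 h2 h3 h4)
    (fun _ _ _ h1 h2 h3 h4 _ _ h5 _ h6 _ _ h7 h8 => step1_point h1 h2 h3 h4 h5 h6 h7 h8)
    h hη hu hT

theorem stepII (h : Nm μ R B) (hη : 0 < η) (hu : ULC η μ) (hT : 0 < T) {v : ℝ}
    (hv : JJ μ T (fun t s => (Am (tl μ t s.1) * Am (tl μ t s.1) * Am (tl μ t s.1)).trace) ≤ v) :
    EE μ T (fun s => (s.2 * s.2ᵀ * Am (tl μ T s.1)).trace) ≤
      (Am μ).trace + T * (222 * v + 3 * n / T ^ 2) :=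
  stepII_of (fun _ _ _ h1 h2 h3 h4 _ h5 => ulc_poincare h1 h2 h3 h4 h5) h hη hu hT hv

theorem sIn (n : ℕ) : SIn n (222 * (100 * 2 ^ 22)) :=
  sIn_of (fun _ _ _ h1 h2 h3 h4 _ h5 => ulc_poincare h1 h2 h3 h4 h5)
    (fun _ _ _ _ _ h1 h2 h3 h4 => stepI h1 h2 h3 h4)
    (fun _ _ _ _ _ _ h1 h2 h3 h4 h5 => stepII h1 h2 h3 h4 h5)

/-- the weighted thin shell bound -/
theorem thin (n : ℕ) : Thin n (4 * (222 * (100 * 2 ^ 22))) :=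
  thin_of_S (by norm_num) (sIn n)

end Pool.Agent.Lib.MP_6d896a_gt.LG
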