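import Mathlib
import Pool.Agent.Lib.MP_6d896a_gt.LG.Defs
import Pool.Agent.Lib.MP_6d896a_gt.FP.PLm

/-!
Piece B3: third cumulants below an eigenvalue, from the weighted thin shell bound.
-/

set_option autoImplicit false

namespace Pool.Agent.Lib.MP_6d896a_gt.LG

open MeasureTheory Filter Topology Set Matrix
open scoped ENNReal NNReal

namespace PB3

variable {n : ℕ} {ν : Measure (Eu n)} {R : ℝ}

/-- continuous functions are integrable -/
private lemma integ (hν : IsProbabilityMeasure ν) (hR : BS R ν) {f : Eu n → ℝ}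
    (hf : Continuous f) : Integrable f ν := by
  obtain ⟨C, hC⟩ := (isCompact_closedBall (0 : Eu n) R).exists_bound_of_continuousOn
    hf.continuousOn
  refine Integrable.of_bound hf.aestronglyMeasurable C ?_
  filter_upwards [hR] with x hx
  exact hC x (by simpa using hx)

private lemma int_inner (hν : IsProbabilityMeasure ν) (hR : BS R ν) (w : Eu n) :
    ∫ x, inner ℝ x w ∂ν = inner ℝ (mn ν) w := by
  have h1 : ∀ x : Eu n, inner ℝ x w = ∑ i, x i * w i := by
    intro x
    simp [PiLp.inner_apply, mul_comm]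
  simp only [h1]
  rw [integral_finsetSum]
  · simp only [integral_mul_const]
    rfl
  · intro i _
    exact integ hν hR (by fun_prop)

private lemma int_inner_sub (hν : IsProbabilityMeasure ν) (hR : BS R ν) (w : Eu n) :
    ∫ x, inner ℝ (x - mn ν) w ∂ν = 0 := by
  simp only [inner_sub_left]
  rw [integral_sub (integ hν hR (by fun_prop)) (integrable_const _), int_inner hν hR]
  simp

private lemma cv_inner (hν : IsProbabilityMeasure ν) (hR : BS R ν) (u w : Eu n) :
    ∫ x, inner ℝ (x - mn ν) u * inner ℝ (x - mn ν) w ∂ν =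
      Cv ν (fun x => inner ℝ x u) (fun x => inner ℝ x w) := by
  have h1 : ∀ x : Eu n, inner ℝ (x - mn ν) u * inner ℝ (x - mn ν) w =
      inner ℝ x u * inner ℝ x w - inner ℝ (mn ν) u * inner ℝ x w -
        inner ℝ (mn ν) w * inner ℝ (x - mn ν) u := by
    intro x
    simp only [inner_sub_left]
    ring
  simp only [h1]
  rw [integral_sub, integral_sub, integral_const_mul, integral_const_mul, int_inner_sub hν hR,
    int_inner hν hR, Cv, int_inner hν hR, int_inner hν hR]
  · ring
  all_goals exact integ hν hR (by fun_prop)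

/-- variance -/
private lemma cv_self (hν : IsProbabilityMeasure ν) (hR : BS R ν) {f : Eu n → ℝ}
    (hf : Continuous f) : Cv ν f f = ∫ x, (f x - ∫ y, f y ∂ν) ^ 2 ∂ν := by
  have h1 : ∀ x, (f x - ∫ y, f y ∂ν) ^ 2 =
      f x * f x - 2 * (∫ y, f y ∂ν) * f x + (∫ y, f y ∂ν) ^ 2 := by
    intro x; ring
  simp only [h1]
  rw [integral_add, integral_sub, integral_const_mul, integral_const, Cv]
  · simp
    ring
  · exact integ hν hR (by fun_prop)
  · exact integ hν hR (by fun_prop)
  · exact integ hν hR (by fun_prop)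
  · exact integrable_const _

private lemma cv_sub (hν : IsProbabilityMeasure ν) (hR : BS R ν) {f g : Eu n → ℝ}
    (hf : Continuous f) (hg : Continuous g) :
    Cv ν (fun x => f x - g x) (fun x => f x - g x) ≤ 2 * Cv ν f f + 2 * Cv ν g g := by
  have hs : 0 ≤ Cv ν (fun x => f x + g x) (fun x => f x + g x) := by
    rw [cv_self hν hR (by fun_prop)]
    exact integral_nonneg fun x => sq_nonneg _
  have hI : ∀ {k : Eu n → ℝ}, Continuous k → Integrable k ν := fun hk => integ hν hR hk
  have e1 : Cv ν (fun x => f x + g x) (fun x => f x + g x) =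
      Cv ν f f + 2 * Cv ν f g + Cv ν g g := by
    have : ∀ x, (f x + g x) * (f x + g x) = f x * f x + 2 * (f x * g x) + g x * g x := by
      intro x; ring
    simp only [Cv, this]
    rw [integral_add, integral_add, integral_const_mul, integral_add (hI hf) (hI hg)]
    · ring
    all_goals exact hI (by fun_prop)
  have e2 : Cv ν (fun x => f x - g x) (fun x => f x - g x) =
      Cv ν f f - 2 * Cv ν f g + Cv ν g g := by
    have : ∀ x, (f x - g x) * (f x - g x) = f x * f x - 2 * (f x * g x) + g x * g x := by
      intro x; ring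
    simp only [Cv, this]
    rw [integral_add, integral_sub, integral_const_mul, integral_sub (hI hf) (hI hg)]
    · ring
    all_goals exact hI (by fun_prop)
  rw [e2]
  rw [e1] at hs
  linarith

/-- Cauchy-Schwarz -/
private lemma cs (hν : IsProbabilityMeasure ν) (hR : BS R ν) {f g : Eu n → ℝ}
    (hf : Continuous f) (hg : Continuous g) : Cv ν f g ^ 2 ≤ Cv ν f f * Cv ν g g := by
  have hI : ∀ {k : Eu n → ℝ}, Continuous k → Integrable k ν := fun hk => integ hν hR hk
  have key : ∀ s : ℝ, 0 ≤ Cv ν f f * (s * s) + (2 * Cv ν f g) * s + Cv ν g g := by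
    intro s
    have hs : 0 ≤ Cv ν (fun x => s * f x + g x) (fun x => s * f x + g x) := by
      rw [cv_self hν hR (by fun_prop)]
      exact integral_nonneg fun x => sq_nonneg _
    have e1 : Cv ν (fun x => s * f x + g x) (fun x => s * f x + g x) =
        Cv ν f f * (s * s) + (2 * Cv ν f g) * s + Cv ν g g := by
      have : ∀ x, (s * f x + g x) * (s * f x + g x) =
          s * s * (f x * f x) + 2 * s * (f x * g x) + g x * g x := by
        intro x; ring
      simp only [Cv, this]
      rw [integral_add, integral_add, integral_const_mul, integral_const_mul,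
        integral_add (hI (by fun_prop)) (hI hg), integral_const_mul]
      · ring
      all_goals exact hI (by fun_prop)
    rw [e1] at hs
    exact hs
  have := discrim_le_zero key
  rw [discrim] at this
  nlinarith

/-- the thin shell bound for a linear image -/
private lemma thin_app {C : ℝ} (hW : Thin n C) (hν : IsProbabilityMeasure ν) (hR : BS R ν)
    (hpl : FP.PLm ν) (w : Fin n → Eu n) (σ : Fin n → ℝ) (hσ : ∀ k, 0 ≤ σ k) :
    Cv ν (fun x => ∑ k, σ k * inner ℝ (x - mn ν) (w k) ^ 2)
      (fun x => ∑ k, σ k * inner ℝ (x - mn ν) (w k) ^ 2) ≤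
    C * ∑ k, ∑ l, σ k * σ l *
      Cv ν (fun x => inner ℝ x (w k)) (fun x => inner ℝ x (w l)) ^ 2 := by
  let L0 : Eu n →ₗ[ℝ] Eu n :=
    { toFun := fun x => WithLp.toLp 2 (fun k => Real.sqrt (σ k) * inner ℝ x (w k))
      map_add' := by
        intro x y
        ext k
        simp [inner_add_left, mul_add]
      map_smul' := by
        intro c x
        ext k
        simp [inner_smul_left]
        ring }
  let L : Eu n →L[ℝ] Eu n := LinearMap.toContinuousLinearMap L0
  have hL : ∀ x k, (L x) k = Real.sqrt (σ k) * inner ℝ x (w k) := fun x k => rfl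
  have hLc : Continuous L := L.continuous
  have hLm : Measurable L := hLc.measurable
  set ν' := ν.map L with hν'
  have hp : IsProbabilityMeasure ν' := Measure.isProbabilityMeasure_map hLm.aemeasurable
  have hpl' : FP.PLm ν' := FP.PLm.map hpl L0 hLm
  have hR' : BS (‖L‖ * R) ν' := by
    unfold BS
    rw [hν', ae_map_iff hLm.aemeasurable (measurableSet_le measurable_norm measurable_const)]
    filter_upwards [hR] with x hx
    exact (L.le_opNorm x).trans (by gcongr)
  have hint : ∀ f : Eu n → ℝ, Continuous f → ∫ y, f y ∂ν' = ∫ x, f (L x) ∂ν := by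
    intro f hf
    rw [hν', integral_map hLm.aemeasurable hf.aestronglyMeasurable]
  have hmn : mn ν' = L (mn ν) := by
    ext k
    have h1 : (mn ν') k = ∫ y, y k ∂ν' := rfl
    rw [h1, hint _ (by fun_prop), hL, ← int_inner hν hR, ← integral_const_mul]
    rfl
  have hcv : ∀ f g : Eu n → ℝ, Continuous f → Continuous g →
      Cv ν' f g = Cv ν (fun x => f (L x)) (fun x => g (L x)) := by
    intro f g hf hg
    rw [Cv, hint _ (by fun_prop), hint _ hf, hint _ hg]
    rfl
  have hnorm : ∀ x, ‖L x - mn ν'‖ ^ 2 = ∑ k, σ k * inner ℝ (x - mn ν) (w k) ^ 2 := by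
    intro x
    rw [hmn, ← map_sub, EuclideanSpace.norm_sq_eq]
    refine Finset.sum_congr rfl fun k _ => ?_
    rw [hL, Real.norm_eq_abs, sq_abs, mul_pow, Real.sq_sqrt (hσ k)]
  have hA : ∀ k l, Am ν' k l = Real.sqrt (σ k) * Real.sqrt (σ l) *
      Cv ν (fun x => inner ℝ x (w k)) (fun x => inner ℝ x (w l)) := by
    intro k l
    have h1 : Am ν' k l = Cv ν' (fun x => x k) (fun x => x l) := rfl
    rw [h1, hcv _ _ (by fun_prop) (by fun_prop)]
    simp only [hL, Cv]
    have h2 : ∀ x : Eu n, Real.sqrt (σ k) * inner ℝ x (w k) * (Real.sqrt (σ l) * inner ℝ x (w l))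
        = Real.sqrt (σ k) * Real.sqrt (σ l) * (inner ℝ x (w k) * inner ℝ x (w l)) := by
      intro x; ring
    simp only [h2, integral_const_mul]
    ring
  have h3 := hW ν' (‖L‖ * R) hp hpl' hR'
  rw [hcv _ _ (by fun_prop) (by fun_prop)] at h3
  simp only [hnorm] at h3
  refine h3.trans (le_of_eq ?_)
  congr 1
  rw [Matrix.trace]
  refine Finset.sum_congr rfl fun k _ => ?_
  rw [Matrix.diag_apply, Matrix.mul_apply]
  refine Finset.sum_congr rfl fun l _ => ?_
  rw [hA, hA]
  have h4 : Cv ν (fun x => inner ℝ x (w l)) (fun x => inner ℝ x (w k)) =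
      Cv ν (fun x => inner ℝ x (w k)) (fun x => inner ℝ x (w l)) := by
    simp only [Cv]
    rw [mul_comm (∫ x, inner ℝ x (w l) ∂ν)]
    congr 1
    refine integral_congr_ae (Eventually.of_forall fun x => ?_)
    exact mul_comm _ _
  rw [h4]
  have h5 := Real.mul_self_sqrt (hσ k)
  have h6 := Real.mul_self_sqrt (hσ l)
  calc _ = (Real.sqrt (σ k) * Real.sqrt (σ k)) * (Real.sqrt (σ l) * Real.sqrt (σ l)) *
        Cv ν (fun x => inner ℝ x (w k)) (fun x => inner ℝ x (w l)) ^ 2 := by ring
    _ = _ := by rw [h5, h6]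

end PB3

/-- B3 -/
theorem t_boundW {n : ℕ} {ν : Measure (Eu n)} {R : ℝ} {C : ℝ} (hC : 0 ≤ C) (hW : Thin n C)
    (hν : IsProbabilityMeasure ν)
    (hR : BS R ν) (hpl : FP.PLm ν)
    {b : OrthonormalBasis (Fin n) ℝ (Eu n)} {a : Fin n → ℝ} (hb : Eig ν b a) (p : Fin n) :
    ∑ i, ∑ j, (if a i ≤ a p ∧ a j ≤ a p then T3 ν b p i j ^ 2 else 0) ≤ 2 * C * a p ^ 3 := by
  have hsym : ∀ i j, T3 ν b p i j = T3 ν b p j i := by
    intro i j
    simp only [T3]
    refine integral_congr_ae (Eventually.of_forall fun x => ?_)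
    simp only
    ring
  let M : Matrix (Fin n) (Fin n) ℝ := fun i j => if a i ≤ a p ∧ a j ≤ a p then T3 ν b p i j else 0
  have hM : M.IsHermitian := by
    ext i j
    rw [Matrix.conjTranspose_apply, star_trivial]
    simp only [M]
    rw [hsym j i]
    simp only [and_comm]
  have ha0 : ∀ i, 0 ≤ a i := by
    intro i
    have h1 := hb i i
    rw [if_pos rfl, PB3.cv_self hν hR (by fun_prop)] at h1
    rw [← h1]
    exact integral_nonneg fun x => sq_nonneg _
  let lam := hM.eigenvalues
  let v : Fin n → Fin n → ℝ := fun k i => (hM.eigenvectorBasis k) i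
  have hE : ∀ k i, ∑ j, M i j * v k j = lam k * v k i := by
    intro k i
    have h1 := congrFun (hM.mulVec_eigenvectorBasis k) i
    simpa [Matrix.mulVec, dotProduct] using h1
  have hO2 : ∀ k l, ∑ i, v k i * v l i = if k = l then 1 else 0 := by
    intro k l
    have h1 := orthonormal_iff_ite.1 hM.eigenvectorBasis.orthonormal l k
    rw [PiLp.inner_apply] at h1
    simp only [v]
    have h2 : (if l = k then (1:ℝ) else 0) = if k = l then 1 else 0 := by
      simp only [eq_comm]
    rw [← h2, ← h1]
    refine Finset.sum_congr rfl fun i _ => ?_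
    simp
  have hO1 : ∀ i j, ∑ k, v k i * v k j = if i = j then 1 else 0 := by
    have h1 : (Matrix.of v) * (Matrix.of v)ᵀ = 1 := by
      ext k l
      rw [Matrix.mul_apply, Matrix.one_apply, ← hO2 k l]
      rfl
    have h2 : (Matrix.of v)ᵀ * (Matrix.of v) = 1 := by
      exact mul_eq_one_comm.1 h1
    intro i j
    have h3 := congrFun (congrFun h2 i) j
    rw [Matrix.mul_apply, Matrix.one_apply] at h3
    rw [← h3]
    rfl
  have hMe : ∀ i j, M i j = ∑ k, lam k * v k i * v k j := by
    intro i j
    calc M i j = ∑ l, M i l * (if l = j then 1 else 0) := by simp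
      _ = ∑ l, M i l * ∑ k, v k l * v k j := by simp only [hO1]
      _ = ∑ k, (∑ l, M i l * v k l) * v k j := by
          simp only [Finset.mul_sum, Finset.sum_mul]
          rw [Finset.sum_comm]
          refine Finset.sum_congr rfl fun k _ => Finset.sum_congr rfl fun l _ => ?_
          ring
      _ = _ := by simp only [hE]
  -- eigenvectors of nonzero eigenvalues are supported below `a p`
  have hsupp : ∀ k i, lam k ≠ 0 → a p < a i → v k i = 0 := by
    intro k i hk hi
    have h1 := hE k i
    have h2 : ∀ j, M i j = 0 := by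
      intro j
      simp only [M]
      rw [if_neg]
      rintro ⟨h3, _⟩
      exact absurd hi (not_lt.2 h3)
    simp only [h2, zero_mul, Finset.sum_const_zero] at h1
    rcases mul_eq_zero.1 h1.symm with h | h
    · exact absurd h hk
    · exact h
  set h := ∑ i, ∑ j, (if a i ≤ a p ∧ a j ≤ a p then T3 ν b p i j ^ 2 else 0) with hh
  have hhM : h = ∑ i, ∑ j, M i j ^ 2 := by
    rw [hh]
    refine Finset.sum_congr rfl fun i _ => Finset.sum_congr rfl fun j _ => ?_
    simp only [M]
    split_ifs <;> simp
  have hhl : h = ∑ k, lam k ^ 2 := by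
    rw [hhM]
    calc ∑ i, ∑ j, M i j ^ 2 = ∑ i, ∑ j, M i j * ∑ k, lam k * v k i * v k j := by
          refine Finset.sum_congr rfl fun i _ => Finset.sum_congr rfl fun j _ => ?_
          rw [← hMe]; ring
      _ = ∑ k, lam k * ∑ i, v k i * ∑ j, M i j * v k j := by
          simp only [Finset.mul_sum]
          have e1 : ∀ i : Fin n, ∑ j, ∑ k, M i j * (lam k * v k i * v k j) =
              ∑ k, ∑ j, M i j * (lam k * v k i * v k j) := fun i => Finset.sum_comm
          simp only [e1]
          rw [Finset.sum_comm]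
          refine Finset.sum_congr rfl fun k _ => Finset.sum_congr rfl fun i _ =>
            Finset.sum_congr rfl fun j _ => ?_
          ring
      _ = ∑ k, lam k ^ 2 := by
          refine Finset.sum_congr rfl fun k _ => ?_
          simp only [hE]
          have e2 : ∑ i, v k i * (lam k * v k i) = lam k * ∑ i, v k i * v k i := by
            rw [Finset.mul_sum]
            refine Finset.sum_congr rfl fun i _ => ?_
            ring
          rw [e2, hO2, if_pos rfl]
          ring
  -- the vectors of the eigenbasis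
  let w : Fin n → Eu n := fun k => ∑ i, v k i • b i
  have hw : ∀ x k, inner ℝ x (w k) = ∑ i, v k i * inner ℝ x (b i) := by
    intro x k
    simp only [w, inner_sum, inner_smul_right]
  have hcw : ∀ k l, Cv ν (fun x => inner ℝ x (w k)) (fun x => inner ℝ x (w l)) =
      ∑ i, a i * v k i * v l i := by
    intro k l
    rw [← PB3.cv_inner hν hR]
    simp only [hw]
    have e1 : ∀ x : Eu n, (∑ i, v k i * inner ℝ (x - mn ν) (b i)) *
        (∑ i, v l i * inner ℝ (x - mn ν) (b i)) =
        ∑ i, ∑ j, v k i * v l j * (inner ℝ (x - mn ν) (b i) * inner ℝ (x - mn ν) (b j)) := by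
      intro x
      rw [Finset.sum_mul_sum]
      refine Finset.sum_congr rfl fun i _ => Finset.sum_congr rfl fun j _ => ?_
      ring
    simp only [e1]
    rw [integral_finsetSum _ (fun i _ => PB3.integ hν hR (by fun_prop))]
    have e2 : ∀ i : Fin n, ∫ x, ∑ j, v k i * v l j *
        (inner ℝ (x - mn ν) (b i) * inner ℝ (x - mn ν) (b j)) ∂ν = a i * v k i * v l i := by
      intro i
      rw [integral_finsetSum _ (fun j _ => PB3.integ hν hR (by fun_prop))]
      simp only [integral_const_mul]
      have e3 : ∀ j, ∫ x, inner ℝ (x - mn ν) (b i) * inner ℝ (x - mn ν) (b j) ∂ν =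
          if i = j then a i else 0 := by
        intro j
        rw [PB3.cv_inner hν hR, hb i j]
      simp only [e3]
      simp
      ring
    simp only [e2]
  -- the variance bound for nonnegative weights
  have hvar : ∀ σ : Fin n → ℝ, (∀ k, 0 ≤ σ k) → (∀ k, σ k ≠ 0 → lam k ≠ 0) →
      Cv ν (fun x => ∑ k, σ k * inner ℝ (x - mn ν) (w k) ^ 2)
        (fun x => ∑ k, σ k * inner ℝ (x - mn ν) (w k) ^ 2) ≤ C * (a p ^ 2 * ∑ k, σ k ^ 2) := by
    intro σ hσ hσl
    refine (PB3.thin_app hW hν hR hpl w σ hσ).trans ?_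
    refine mul_le_mul_of_nonneg_left ?_ hC
    simp only [hcw]
    have hsq : ∀ k, ∑ l, (∑ i, a i * v k i * v l i) ^ 2 = ∑ i, (a i * v k i) ^ 2 := by
      intro k
      have e1 : ∀ l, (∑ i, a i * v k i * v l i) ^ 2 =
          ∑ i, ∑ j, (a i * v k i) * (a j * v k j) * (v l i * v l j) := by
        intro l
        rw [sq, Finset.sum_mul_sum]
        refine Finset.sum_congr rfl fun i _ => Finset.sum_congr rfl fun j _ => ?_
        ring
      simp only [e1]
      rw [Finset.sum_comm]
      refine Finset.sum_congr rfl fun i _ => ?_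
      rw [Finset.sum_comm]
      have e2 : ∀ j, ∑ l, (a i * v k i) * (a j * v k j) * (v l i * v l j) =
          (a i * v k i) * (a j * v k j) * (if i = j then 1 else 0) := by
        intro j
        rw [← Finset.mul_sum, hO1]
      simp only [e2]
      simp
      ring
    have hbd : ∀ k, σ k ≠ 0 → ∑ i, (a i * v k i) ^ 2 ≤ a p ^ 2 := by
      intro k hk
      calc ∑ i, (a i * v k i) ^ 2 ≤ ∑ i, a p ^ 2 * (v k i * v k i) := by
            refine Finset.sum_le_sum fun i _ => ?_
            by_cases hi : a p < a i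
            · rw [hsupp k i (hσl k hk) hi]
              simp
            · have h1 : a i ≤ a p := not_lt.1 hi
              have h2 : a i ^ 2 ≤ a p ^ 2 := pow_le_pow_left₀ (ha0 i) h1 2
              calc (a i * v k i) ^ 2 = a i ^ 2 * (v k i * v k i) := by ring
                _ ≤ a p ^ 2 * (v k i * v k i) := by
                  exact mul_le_mul_of_nonneg_right h2 (mul_self_nonneg _)
        _ = a p ^ 2 := by
            rw [← Finset.mul_sum, hO2, if_pos rfl, mul_one]
    have hsymc : ∀ k l, (∑ i, a i * v k i * v l i) = ∑ i, a i * v l i * v k i := by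
      intro k l
      refine Finset.sum_congr rfl fun i _ => ?_
      ring
    calc ∑ k, ∑ l, σ k * σ l * (∑ i, a i * v k i * v l i) ^ 2
        ≤ ∑ k, ∑ l, (σ k ^ 2 / 2 * (∑ i, a i * v k i * v l i) ^ 2 +
            σ l ^ 2 / 2 * (∑ i, a i * v k i * v l i) ^ 2) := by
          refine Finset.sum_le_sum fun k _ => Finset.sum_le_sum fun l _ => ?_
          have h1 : σ k * σ l ≤ σ k ^ 2 / 2 + σ l ^ 2 / 2 := by
            nlinarith [sq_nonneg (σ k - σ l)]
          have := mul_le_mul_of_nonneg_right h1 (sq_nonneg (∑ i, a i * v k i * v l i))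
          linarith
      _ = ∑ k, σ k ^ 2 * ∑ l, (∑ i, a i * v k i * v l i) ^ 2 := by
          simp only [Finset.sum_add_distrib]
          have e1 : ∑ k, ∑ l, σ l ^ 2 / 2 * (∑ i, a i * v k i * v l i) ^ 2 =
              ∑ k, ∑ l, σ k ^ 2 / 2 * (∑ i, a i * v k i * v l i) ^ 2 := by
            rw [Finset.sum_comm]
            refine Finset.sum_congr rfl fun k _ => Finset.sum_congr rfl fun l _ => ?_
            rw [hsymc l k]
          rw [e1, ← Finset.sum_add_distrib]
          refine Finset.sum_congr rfl fun k _ => ?_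
          rw [← Finset.mul_sum]
          ring
      _ ≤ ∑ k, σ k ^ 2 * a p ^ 2 := by
          refine Finset.sum_le_sum fun k _ => ?_
          rw [hsq]
          by_cases hk : σ k = 0
          · simp [hk]
          · exact mul_le_mul_of_nonneg_left (hbd k hk) (sq_nonneg _)
      _ = a p ^ 2 * ∑ k, σ k ^ 2 := by
          rw [← Finset.sum_mul]; ring
  -- positive and negative parts
  let σp : Fin n → ℝ := fun k => max (lam k) 0
  let σm : Fin n → ℝ := fun k => max (-lam k) 0
  let fp : Eu n → ℝ := fun x => ∑ k, σp k * inner ℝ (x - mn ν) (w k) ^ 2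
  let fm : Eu n → ℝ := fun x => ∑ k, σm k * inner ℝ (x - mn ν) (w k) ^ 2
  have hvp := hvar σp (fun k => le_max_right _ _) (by
    intro k hk h0
    apply hk
    simp [σp, h0])
  have hvm := hvar σm (fun k => le_max_right _ _) (by
    intro k hk h0
    apply hk
    simp [σm, h0])
  have hcp : Continuous fp := by fun_prop
  have hcm : Continuous fm := by fun_prop
  have hvf := PB3.cv_sub hν hR hcp hcm
  have hsum : ∑ k, σp k ^ 2 + ∑ k, σm k ^ 2 = h := by
    rw [hhl, ← Finset.sum_add_distrib]
    refine Finset.sum_congr rfl fun k _ => ?_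
    simp only [σp, σm]
    rcases le_total (lam k) 0 with h0 | h0
    · rw [max_eq_right h0, max_eq_left (by linarith)]
      ring
    · rw [max_eq_left h0, max_eq_right (by linarith)]
      ring
  have hf : ∀ x, fp x - fm x = ∑ i, ∑ j, M i j *
      (inner ℝ (x - mn ν) (b i) * inner ℝ (x - mn ν) (b j)) := by
    intro x
    simp only [fp, fm]
    rw [← Finset.sum_sub_distrib]
    have e1 : ∀ k, σp k * inner ℝ (x - mn ν) (w k) ^ 2 - σm k * inner ℝ (x - mn ν) (w k) ^ 2 =
        ∑ i, ∑ j, lam k * v k i * v k j *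
          (inner ℝ (x - mn ν) (b i) * inner ℝ (x - mn ν) (b j)) := by
      intro k
      have h1 : σp k - σm k = lam k := by
        simp only [σp, σm]
        rcases le_total (lam k) 0 with h0 | h0
        · rw [max_eq_right h0, max_eq_left (by linarith)]
          ring
        · rw [max_eq_left h0, max_eq_right (by linarith)]
          ring
      rw [← sub_mul, h1, hw, sq, Finset.sum_mul_sum, Finset.mul_sum]
      refine Finset.sum_congr rfl fun i _ => ?_
      rw [Finset.mul_sum]
      refine Finset.sum_congr rfl fun j _ => ?_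
      ring
    simp only [e1]
    rw [Finset.sum_comm]
    refine Finset.sum_congr rfl fun i _ => ?_
    rw [Finset.sum_comm]
    refine Finset.sum_congr rfl fun j _ => ?_
    rw [hMe, Finset.sum_mul]
  -- `h` as a covariance
  have hcov : Cv ν (fun x => inner ℝ x (b p)) (fun x => fp x - fm x) = h := by
    have e0 : Cv ν (fun x => inner ℝ x (b p)) (fun x => fp x - fm x) =
        ∫ x, inner ℝ (x - mn ν) (b p) * (fp x - fm x) ∂ν := by
      simp only [inner_sub_left, sub_mul]
      rw [integral_sub (PB3.integ hν hR (by fun_prop)) (PB3.integ hν hR (by fun_prop)),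
        integral_const_mul, Cv, PB3.int_inner hν hR]
    rw [e0]
    simp only [hf]
    have e1 : ∀ x : Eu n, inner ℝ (x - mn ν) (b p) * ∑ i, ∑ j, M i j *
        (inner ℝ (x - mn ν) (b i) * inner ℝ (x - mn ν) (b j)) =
        ∑ i, ∑ j, M i j * (inner ℝ (x - mn ν) (b p) *
          (inner ℝ (x - mn ν) (b i) * inner ℝ (x - mn ν) (b j))) := by
      intro x
      rw [Finset.mul_sum]
      refine Finset.sum_congr rfl fun i _ => ?_
      rw [Finset.mul_sum]
      refine Finset.sum_congr rfl fun j _ => ?_
      ring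
    simp only [e1]
    rw [integral_finsetSum _ (fun i _ => PB3.integ hν hR (by fun_prop)), hh]
    refine Finset.sum_congr rfl fun i _ => ?_
    rw [integral_finsetSum _ (fun j _ => PB3.integ hν hR (by fun_prop))]
    refine Finset.sum_congr rfl fun j _ => ?_
    rw [integral_const_mul]
    simp only [M]
    split_ifs
    · rw [sq]; rfl
    · simp
  have hcs := PB3.cs hν hR (f := fun x => inner ℝ x (b p)) (g := fun x => fp x - fm x)
    (by fun_prop) (by fun_prop)
  rw [hcov, hb p p, if_pos rfl] at hcs
  have h0 : 0 ≤ h := by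
    rw [hhl]
    exact Finset.sum_nonneg fun k _ => sq_nonneg _
  have hap := ha0 p
  have hfin : h ^ 2 ≤ a p * (2 * (C * (a p ^ 2 * h))) := by
    refine hcs.trans (mul_le_mul_of_nonneg_left ?_ hap)
    refine hvf.trans ?_
    calc 2 * Cv ν fp fp + 2 * Cv ν fm fm
        ≤ 2 * (C * (a p ^ 2 * ∑ k, σp k ^ 2)) + 2 * (C * (a p ^ 2 * ∑ k, σm k ^ 2)) :=
          add_le_add (mul_le_mul_of_nonneg_left hvp (by norm_num))
            (mul_le_mul_of_nonneg_left hvm (by norm_num))
      _ = 2 * (C * (a p ^ 2 * h)) := by rw [← hsum]; ring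
  rcases h0.eq_or_lt with h1 | h1
  · rw [← h1]
    positivity
  · have : h * h ≤ (2 * C * a p ^ 3) * h := by nlinarith
    exact le_of_mul_le_mul_right this h1

end Pool.Agent.Lib.MP_6d896a_gt.LG
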