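import Mathlib
import Pool.Agent.Lib.MP_6d896a_gt.LG.Defs

/-!
Piece PC3, part a: conjugated diagonal matrices, covariances of linear functions, the covariance
matrix is positive semidefinite, existence of an eigenbasis (`PC3.exists_eig`).
-/

set_option autoImplicit false

namespace Pool.Agent.Lib.MP_6d896a_gt.LG

open MeasureTheory Filter Topology Set Matrix
open scoped ENNReal NNReal

namespace PC3

variable {n : ℕ} {μ ν : Measure (Eu n)} {R B T η τ : ℝ}

/-! ### linear algebra -/

/-- conjugated diagonal matrices -/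
def cj (U : Mat n) (d : Fin n → ℝ) : Mat n := U * diagonal d * Uᵀ

lemma cj_mul {U : Mat n} (hU : Uᵀ * U = 1) (d e : Fin n → ℝ) :
    cj U d * cj U e = cj U (fun i => d i * e i) := by
  unfold cj
  calc U * diagonal d * Uᵀ * (U * diagonal e * Uᵀ)
      = U * diagonal d * (Uᵀ * U) * diagonal e * Uᵀ := by simp only [Matrix.mul_assoc]
    _ = U * (diagonal d * diagonal e) * Uᵀ := by rw [hU]; simp only [Matrix.mul_assoc, Matrix.one_mul]
    _ = _ := by rw [diagonal_mul_diagonal]

lemma cj_add (U : Mat n) (d e : Fin n → ℝ) : cj U d + cj U e = cj U (fun i => d i + e i) := by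
  unfold cj
  rw [← Matrix.add_mul, ← Matrix.mul_add, diagonal_add]

lemma cj_smul (U : Mat n) (c : ℝ) (d : Fin n → ℝ) : c • cj U d = cj U (fun i => c * d i) := by
  unfold cj
  rw [← Matrix.smul_mul, ← Matrix.mul_smul, ← diagonal_smul]
  rfl

lemma cj_one {U : Mat n} (hU : U * Uᵀ = 1) (c : ℝ) : (c • (1 : Mat n)) = cj U (fun _ => c) := by
  have : (1 : Mat n) = cj U (fun _ => 1) := by
    unfold cj
    rw [diagonal_one, Matrix.mul_one, hU]
  rw [this, cj_smul]
  simp

lemma cj_inv {U : Mat n} (hU : U * Uᵀ = 1) (hU' : Uᵀ * U = 1) {d : Fin n → ℝ}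
    (hd : ∀ i, d i ≠ 0) : (cj U d)⁻¹ = cj U (fun i => (d i)⁻¹) := by
  apply Matrix.inv_eq_right_inv
  rw [cj_mul hU']
  have : (fun i => d i * (d i)⁻¹) = fun _ => (1 : ℝ) := by
    ext i; exact mul_inv_cancel₀ (hd i)
  rw [this, ← cj_one hU]
  simp

lemma trace_cj {U : Mat n} (hU : Uᵀ * U = 1) (d : Fin n → ℝ) : (cj U d).trace = ∑ i, d i := by
  unfold cj
  rw [Matrix.trace_mul_comm, ← Matrix.mul_assoc, hU, Matrix.one_mul, trace_diagonal]

/-! ### covariances -/

lemma int_coord [IsProbabilityMeasure ν] (hR : BS R ν) (i : Fin n) :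
    Integrable (fun x : Eu n => x i) ν := by
  refine Integrable.of_bound (by fun_prop) R ?_
  filter_upwards [hR] with x hx
  exact (PiLp.norm_apply_le x i).trans hx

lemma int_coord2 [IsProbabilityMeasure ν] (hR : BS R ν) (i j : Fin n) :
    Integrable (fun x : Eu n => x i * x j) ν := by
  refine Integrable.of_bound (by fun_prop) (R * R) ?_
  filter_upwards [hR] with x hx
  rw [norm_mul]
  have h1 := (PiLp.norm_apply_le x i).trans hx
  have h2 := (PiLp.norm_apply_le x j).trans hx
  exact mul_le_mul h1 h2 (norm_nonneg _) ((norm_nonneg _).trans h1)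

lemma inner_sum (x v : Eu n) : inner ℝ x v = ∑ k, v k * x k := by
  rw [PiLp.inner_apply]
  simp

lemma cv_inner [IsProbabilityMeasure ν] (hR : BS R ν) (v w : Eu n) :
    Cv ν (fun x => inner ℝ x v) (fun x => inner ℝ x w) =
      ∑ k, ∑ l, v k * w l * Am ν k l := by
  have e1 : ∀ v : Eu n, ∫ x, inner ℝ x v ∂ν = ∑ k, v k * ∫ x, x k ∂ν := by
    intro v
    simp only [inner_sum]
    rw [integral_finsetSum _ (fun k _ => (int_coord hR k).const_mul _)]
    exact Finset.sum_congr rfl fun k _ => integral_const_mul _ _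
  have e2 : ∫ x, inner ℝ x v * inner ℝ x w ∂ν = ∑ k, ∑ l, v k * w l * ∫ x, x k * x l ∂ν := by
    have : ∀ x : Eu n, inner ℝ x v * inner ℝ x w = ∑ k, ∑ l, v k * w l * (x k * x l) := by
      intro x
      rw [inner_sum, inner_sum, Finset.sum_mul_sum]
      refine Finset.sum_congr rfl fun k _ => Finset.sum_congr rfl fun l _ => by ring
    simp only [this]
    rw [integral_finsetSum _ (fun k _ => integrable_finsetSum _ fun l _ =>
      (int_coord2 hR k l).const_mul _)]
    refine Finset.sum_congr rfl fun k _ => ?_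
    rw [integral_finsetSum _ (fun l _ => (int_coord2 hR k l).const_mul _)]
    exact Finset.sum_congr rfl fun l _ => integral_const_mul _ _
  unfold Cv
  rw [e1, e1, e2, Finset.sum_mul_sum, ← Finset.sum_sub_distrib]
  refine Finset.sum_congr rfl fun k _ => ?_
  rw [← Finset.sum_sub_distrib]
  refine Finset.sum_congr rfl fun l _ => ?_
  unfold Am Cv
  ring

lemma cv_self_nonneg [IsProbabilityMeasure ν] (hR : BS R ν) (v : Eu n) :
    0 ≤ Cv ν (fun x => inner ℝ x v) (fun x => inner ℝ x v) := by
  have hi : Integrable (fun x : Eu n => inner ℝ x v) ν := by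
    simp only [inner_sum]
    exact integrable_finsetSum _ fun k _ => (int_coord hR k).const_mul _
  have hi2 : Integrable (fun x : Eu n => inner ℝ x v * inner ℝ x v) ν := by
    have : ∀ x : Eu n, inner ℝ x v * inner ℝ x v = ∑ k, ∑ l, v k * v l * (x k * x l) := by
      intro x
      rw [inner_sum, Finset.sum_mul_sum]
      refine Finset.sum_congr rfl fun k _ => Finset.sum_congr rfl fun l _ => by ring
    simp only [this]
    exact integrable_finsetSum _ fun k _ => integrable_finsetSum _ fun l _ =>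
      (int_coord2 hR k l).const_mul _
  have h0 : 0 ≤ ∫ x : Eu n, (inner ℝ x v - ∫ y, inner ℝ y v ∂ν) ^ 2 ∂ν :=
    integral_nonneg fun x => sq_nonneg _
  have h1 : ∫ x : Eu n, (inner ℝ x v - ∫ y, inner ℝ y v ∂ν) ^ 2 ∂ν =
      Cv ν (fun x => inner ℝ x v) (fun x => inner ℝ x v) := by
    obtain ⟨m, hm⟩ : ∃ m, m = ∫ y : Eu n, inner ℝ y v ∂ν := ⟨_, rfl⟩
    rw [← hm]
    have : ∀ x : Eu n, (inner ℝ x v - m) ^ 2 =
        inner ℝ x v * inner ℝ x v - (2 * m) * inner ℝ x v + m ^ 2 := by intro x; ring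
    simp only [this]
    have hi3 : Integrable (fun x : Eu n => (2 * m) * inner ℝ x v) ν := hi.const_mul _
    have hi4 : Integrable (fun x : Eu n => inner ℝ x v * inner ℝ x v - (2 * m) * inner ℝ x v) ν :=
      hi2.sub hi3
    rw [integral_add hi4 (integrable_const _), integral_sub hi2 hi3, integral_const_mul,
      integral_const]
    unfold Cv
    rw [← hm]
    simp
    ring
  rwa [h1] at h0

lemma am_symm (ν : Measure (Eu n)) : (Am ν).IsHermitian := by
  ext i j
  simp only [conjTranspose_apply, star_trivial]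
  unfold Am Cv
  simp only [mul_comm]

lemma quad_eq [IsProbabilityMeasure ν] (hR : BS R ν) (v w : Eu n) :
    Cv ν (fun x => inner ℝ x v) (fun x => inner ℝ x w) = (v : Fin n → ℝ) ⬝ᵥ (Am ν *ᵥ w) := by
  rw [cv_inner hR]
  simp only [dotProduct, mulVec, Finset.mul_sum]
  refine Finset.sum_congr rfl fun k _ => Finset.sum_congr rfl fun l _ => by ring

lemma am_psd [IsProbabilityMeasure ν] (hR : BS R ν) : (Am ν).PosSemidef := by
  refine Matrix.PosSemidef.of_dotProduct_mulVec_nonneg (am_symm ν) fun v => ?_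
  have h := cv_self_nonneg hR (WithLp.toLp 2 v)
  rw [quad_eq hR] at h
  simpa using h

theorem exists_eig [IsProbabilityMeasure ν] (hR : BS R ν) :
    ∃ (b : OrthonormalBasis (Fin n) ℝ (Eu n)) (a : Fin n → ℝ) (U : Mat n), Eig ν b a ∧
      U * Uᵀ = 1 ∧ Uᵀ * U = 1 ∧ Am ν = cj U a ∧ ∀ p, 0 ≤ a p := by
  have hA := am_symm ν
  refine ⟨hA.eigenvectorBasis, hA.eigenvalues, (hA.eigenvectorUnitary : Mat n), ?_, ?_, ?_, ?_, ?_⟩
  · intro i j
    rw [quad_eq hR]
    rw [hA.mulVec_eigenvectorBasis, dotProduct_smul]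
    have h1 : (hA.eigenvectorBasis i : Fin n → ℝ) ⬝ᵥ (hA.eigenvectorBasis j) =
        inner ℝ (hA.eigenvectorBasis i) (hA.eigenvectorBasis j) := by
      rw [inner_sum]
      simp only [dotProduct, mul_comm]
    rw [h1, orthonormal_iff_ite.1 hA.eigenvectorBasis.orthonormal]
    by_cases hij : i = j
    · subst hij; simp
    · simp [hij]
  · have := Unitary.coe_mul_star_self hA.eigenvectorUnitary
    simpa [star_eq_conjTranspose, conjTranspose_eq_transpose_of_trivial] using this
  · have := Unitary.coe_star_mul_self hA.eigenvectorUnitary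
    simpa [star_eq_conjTranspose, conjTranspose_eq_transpose_of_trivial] using this
  · have := hA.spectral_theorem
    rw [Unitary.conjStarAlgAut_apply] at this
    unfold cj
    conv_lhs => rw [this]
    simp [star_eq_conjTranspose, conjTranspose_eq_transpose_of_trivial]
  · exact fun p => (am_psd hR).eigenvalues_nonneg p

end PC3

end Pool.Agent.Lib.MP_6d896a_gt.LG
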