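import Mathlib
import Pool.Agent.Lib.MP_6d896a_gt.LG.Defs2
import Pool.Agent.Lib.MP_6d896a_gt.LG.Basic
import Pool.Agent.Lib.MP_6d896a_gt.LG.Chain
import Pool.Agent.Lib.MP_6d896a_gt.LG.PB3
import Pool.Agent.Lib.MP_6d896a_gt.LG.PC3a

/-!
Project LG, piece PE, static part: the drift of `Tr A^q` at a single state, the potential `fq`.
-/

set_option autoImplicit false

namespace Pool.Agent.Lib.MP_6d896a_gt.LG

open MeasureTheory Filter Topology Set Matrix
open scoped ENNReal NNReal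

variable {n : ℕ} {μ ν : Measure (Eu n)} {R B T η τ : ℝ}

namespace PE

/-! ### the eigenbasis -/

lemma inn (x v : Eu n) : inner ℝ x v = ∑ i, x i * v i := by
  rw [PiLp.inner_apply]
  exact Finset.sum_congr rfl fun i _ => by simp [mul_comm]

/-- the matrix of a basis -/
noncomputable def U (b : OrthonormalBasis (Fin n) ℝ (Eu n)) : Mat n := fun k i => b i k

lemma U_orth (b : OrthonormalBasis (Fin n) ℝ (Eu n)) : (U b)ᵀ * U b = 1 := by
  ext i j
  rw [Matrix.mul_apply, Matrix.one_apply]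
  have h1 := b.inner_eq_ite i j
  rw [inn] at h1
  exact h1

lemma U_orth' (b : OrthonormalBasis (Fin n) ℝ (Eu n)) : U b * (U b)ᵀ = 1 :=
  mul_eq_one_comm.mp (U_orth b)

/-- the rotated matrix -/
noncomputable def rt (b : OrthonormalBasis (Fin n) ℝ (Eu n)) (M : Mat n) : Mat n :=
  (U b)ᵀ * M * U b

lemma rt_mul (b : OrthonormalBasis (Fin n) ℝ (Eu n)) (M N : Mat n) :
    rt b (M * N) = rt b M * rt b N := by
  unfold rt
  calc (U b)ᵀ * (M * N) * U b = (U b)ᵀ * M * (1 : Mat n) * N * U b := by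
        simp only [Matrix.mul_assoc, Matrix.one_mul]
    _ = (U b)ᵀ * M * (U b * (U b)ᵀ) * N * U b := by rw [U_orth']
    _ = _ := by simp only [Matrix.mul_assoc]

lemma rt_add (b : OrthonormalBasis (Fin n) ℝ (Eu n)) (M N : Mat n) :
    rt b (M + N) = rt b M + rt b N := by
  unfold rt
  rw [Matrix.mul_add, Matrix.add_mul]

lemma rt_neg (b : OrthonormalBasis (Fin n) ℝ (Eu n)) (M : Mat n) : rt b (-M) = - rt b M := by
  unfold rt
  rw [Matrix.mul_neg, Matrix.neg_mul]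

lemma rt_zero (b : OrthonormalBasis (Fin n) ℝ (Eu n)) : rt b (0 : Mat n) = 0 := by
  unfold rt
  simp

lemma rt_one (b : OrthonormalBasis (Fin n) ℝ (Eu n)) : rt b (1 : Mat n) = 1 := by
  unfold rt
  rw [Matrix.mul_one, U_orth]

lemma rt_sum (b : OrthonormalBasis (Fin n) ℝ (Eu n)) {ι : Type*} (s : Finset ι) (M : ι → Mat n) :
    rt b (∑ k ∈ s, M k) = ∑ k ∈ s, rt b (M k) := by
  unfold rt
  rw [Matrix.mul_sum, Matrix.sum_mul]

lemma rt_pow (b : OrthonormalBasis (Fin n) ℝ (Eu n)) (M : Mat n) (q : ℕ) :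
    rt b (M ^ q) = rt b M ^ q := by
  induction q with
  | zero => rw [pow_zero, pow_zero, rt_one]
  | succ q ih => rw [pow_succ, pow_succ, rt_mul, ih]

lemma rt_trace (b : OrthonormalBasis (Fin n) ℝ (Eu n)) (M : Mat n) :
    (rt b M).trace = M.trace := by
  unfold rt
  rw [Matrix.trace_mul_comm, ← Matrix.mul_assoc, U_orth', Matrix.one_mul]

lemma cv_lin [IsProbabilityMeasure ν] (hR : BS R ν) (v w : Eu n) :
    Cv ν (fun x => inner ℝ x v) (fun x => inner ℝ x w) = ∑ i, ∑ j, v i * (Am ν i j * w j) := by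
  have h1 : (fun x : Eu n => (inner ℝ x v : ℝ)) = fun x => ∑ i, (v : Fin n → ℝ) i * x i := by
    funext x
    rw [inn]
    exact Finset.sum_congr rfl fun i _ => mul_comm _ _
  have h2 : (fun x : Eu n => (inner ℝ x w : ℝ)) = fun x => ∑ i, (w : Fin n → ℝ) i * x i := by
    funext x
    rw [inn]
    exact Finset.sum_congr rfl fun i _ => mul_comm _ _
  rw [h1, h2, ← Am_quad hR]
  unfold dotProduct mulVec dotProduct
  simp only [Finset.mul_sum]

lemma rt_Am [IsProbabilityMeasure ν] (hR : BS R ν)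
    {b : OrthonormalBasis (Fin n) ℝ (Eu n)} {a : Fin n → ℝ} (hb : Eig ν b a) :
    rt b (Am ν) = Matrix.diagonal a := by
  ext i j
  have h1 := hb i j
  rw [cv_lin hR] at h1
  rw [Matrix.diagonal_apply, ← h1]
  unfold rt
  rw [Matrix.mul_apply]
  simp only [Matrix.mul_apply, Matrix.transpose_apply, U, Finset.sum_mul]
  rw [Finset.sum_comm]
  exact Finset.sum_congr rfl fun k _ => Finset.sum_congr rfl fun l _ => by ring

lemma eig_nonneg [IsProbabilityMeasure ν] (hR : BS R ν)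
    {b : OrthonormalBasis (Fin n) ℝ (Eu n)} {a : Fin n → ℝ} (hb : Eig ν b a) (i : Fin n) :
    0 ≤ a i := by
  have h1 := hb i i
  rw [if_pos rfl] at h1
  rw [← h1]
  exact Cv_self_nonneg (BM.inner hR _)

/-- third cumulants with one index in the standard basis -/
noncomputable def G3 (ν : Measure (Eu n)) (b : OrthonormalBasis (Fin n) ℝ (Eu n))
    (k i j : Fin n) : ℝ :=
  ∫ x, (x k - mn ν k) * (inner ℝ (x - mn ν) (b i) * inner ℝ (x - mn ν) (b j)) ∂ν

lemma ci [IsProbabilityMeasure ν] (hR : BS R ν) {f : Eu n → ℝ} (hf : Continuous f) :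
    Integrable f ν := (BM.cont hR hf).int

lemma rt_Hm [IsProbabilityMeasure ν] (hR : BS R ν)
    (b : OrthonormalBasis (Fin n) ℝ (Eu n)) (k i j : Fin n) :
    rt b (Hm ν k) i j = G3 ν b k i j := by
  have e1 : ∀ x : Eu n, (x k - mn ν k) * (inner ℝ (x - mn ν) (b i) * inner ℝ (x - mn ν) (b j)) =
      ∑ p, ∑ q, b i p * ((x k - mn ν k) * ((x p - mn ν p) * (x q - mn ν q))) * b j q := by
    intro x
    rw [inn, inn, Finset.sum_mul_sum, Finset.mul_sum]
    refine Finset.sum_congr rfl fun p _ => ?_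
    rw [Finset.mul_sum]
    refine Finset.sum_congr rfl fun q _ => ?_
    simp only [PiLp.sub_apply]
    ring
  have h1 : G3 ν b k i j = ∑ p, ∑ q, b i p * Hm ν k p q * b j q := by
    unfold G3 Hm
    simp only [e1]
    rw [integral_finsetSum _ fun i _ => ci hR (by fun_prop)]
    refine Finset.sum_congr rfl fun p _ => ?_
    rw [integral_finsetSum _ fun j _ => ci hR (by fun_prop)]
    refine Finset.sum_congr rfl fun q _ => ?_
    rw [integral_mul_const, integral_const_mul]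
  rw [h1]
  unfold rt
  rw [Matrix.mul_apply, Finset.sum_comm]
  refine Finset.sum_congr rfl fun q _ => ?_
  rw [Matrix.mul_apply, Finset.sum_mul]
  rfl

lemma G3_symm (ν : Measure (Eu n)) (b : OrthonormalBasis (Fin n) ℝ (Eu n)) (k i j : Fin n) :
    G3 ν b k i j = G3 ν b k j i := by
  unfold G3
  refine integral_congr_ae (Eventually.of_forall fun x => ?_)
  simp only
  ring

lemma T3_eq [IsProbabilityMeasure ν] (hR : BS R ν)
    (b : OrthonormalBasis (Fin n) ℝ (Eu n)) (l i j : Fin n) :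
    T3 ν b l i j = ∑ k, b l k * G3 ν b k i j := by
  unfold T3 G3
  have e1 : ∀ x : Eu n, inner ℝ (x - mn ν) (b l) *
      (inner ℝ (x - mn ν) (b i) * inner ℝ (x - mn ν) (b j)) =
      ∑ k, b l k * ((x k - mn ν k) *
        (inner ℝ (x - mn ν) (b i) * inner ℝ (x - mn ν) (b j))) := by
    intro x
    rw [inn (x - mn ν) (b l), Finset.sum_mul]
    refine Finset.sum_congr rfl fun k _ => ?_
    simp only [PiLp.sub_apply]
    ring
  simp only [e1]
  rw [integral_finsetSum _ fun i _ => ci hR (by fun_prop)]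
  exact Finset.sum_congr rfl fun k _ => integral_const_mul _ _

/-- Parseval -/
lemma pars [IsProbabilityMeasure ν] (hR : BS R ν)
    (b : OrthonormalBasis (Fin n) ℝ (Eu n)) (i j : Fin n) :
    ∑ k, G3 ν b k i j ^ 2 = ∑ l, T3 ν b l i j ^ 2 := by
  set g : Fin n → ℝ := fun k => G3 ν b k i j with hg
  have h1 : ∀ l, T3 ν b l i j = ((U b)ᵀ *ᵥ g) l := by
    intro l
    rw [T3_eq hR]
    rfl
  have h2 : ∑ l, T3 ν b l i j ^ 2 = ((U b)ᵀ *ᵥ g) ⬝ᵥ ((U b)ᵀ *ᵥ g) := by
    unfold dotProduct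
    exact Finset.sum_congr rfl fun l _ => by rw [h1, sq]
  rw [h2, Matrix.dotProduct_mulVec, Matrix.vecMul_transpose, Matrix.mulVec_mulVec, U_orth',
    Matrix.one_mulVec]
  unfold dotProduct
  exact Finset.sum_congr rfl fun l _ => by rw [sq]

lemma T3_s1 (ν : Measure (Eu n)) (b : Fin n → Eu n) (i j k : Fin n) :
    T3 ν b j k i = T3 ν b i j k := by
  unfold T3
  refine integral_congr_ae (Eventually.of_forall fun x => ?_)
  simp only
  ring

/-! ### powers -/

/-- diffusion coefficients of the power -/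
def ps : ℕ → Mat n → Mat n → Mat n
  | 0, _, _ => 0
  | q + 1, A, H => ps q A H * A + A ^ q * H

/-- drift of the power -/
def pb : ℕ → Mat n → Mat n → (Fin n → Mat n) → Mat n
  | 0, _, _, _ => 0
  | q + 1, A, β, H => pb q A β H * A + A ^ q * β + ∑ k, ps q A (H k) * H k

lemma rt_ps (b : OrthonormalBasis (Fin n) ℝ (Eu n)) (q : ℕ) (A H : Mat n) :
    rt b (ps q A H) = ps q (rt b A) (rt b H) := by
  induction q with
  | zero => exact rt_zero b
  | succ q ih =>
    show rt b (ps q A H * A + A ^ q * H) = ps q (rt b A) (rt b H) * rt b A + rt b A ^ q * rt b H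
    rw [rt_add, rt_mul, rt_mul, rt_pow, ih]

lemma rt_pb (b : OrthonormalBasis (Fin n) ℝ (Eu n)) (q : ℕ) (A β : Mat n) (H : Fin n → Mat n) :
    rt b (pb q A β H) = pb q (rt b A) (rt b β) (fun k => rt b (H k)) := by
  induction q with
  | zero => exact rt_zero b
  | succ q ih =>
    show rt b (pb q A β H * A + A ^ q * β + ∑ k, ps q A (H k) * H k) =
      pb q (rt b A) (rt b β) (fun k => rt b (H k)) * rt b A + rt b A ^ q * rt b β +
        ∑ k, ps q (rt b A) (rt b (H k)) * rt b (H k)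
    rw [rt_add, rt_add, rt_mul, rt_mul, rt_pow, ih, rt_sum]
    congr 1
    exact Finset.sum_congr rfl fun k _ => by rw [rt_mul, rt_ps]

/-- complete homogeneous polynomials -/
def hh : ℕ → ℝ → ℝ → ℝ
  | 0, _, _ => 0
  | q + 1, x, y => hh q x y * y + x ^ q

lemma hh_nonneg (q : ℕ) {x y : ℝ} (hx : 0 ≤ x) (hy : 0 ≤ y) : 0 ≤ hh q x y := by
  induction q with
  | zero => exact le_rfl
  | succ q ih => exact add_nonneg (mul_nonneg ih hy) (pow_nonneg hx q)

lemma hh_le (q : ℕ) {x y M : ℝ} (hx : 0 ≤ x) (hy : 0 ≤ y) (hxM : x ≤ M) (hyM : y ≤ M) :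
    hh (q + 1) x y ≤ (q + 1) * M ^ q := by
  induction q with
  | zero => simp [hh]
  | succ q ih =>
    have hM : 0 ≤ M := hx.trans hxM
    have h1 : hh (q + 1) x y * y ≤ (q + 1) * M ^ q * M :=
      mul_le_mul ih hyM hy (by positivity)
    have h2 : x ^ (q + 1) ≤ M ^ (q + 1) := pow_le_pow_left₀ hx hxM _
    calc hh (q + 1 + 1) x y = hh (q + 1) x y * y + x ^ (q + 1) := rfl
      _ ≤ (q + 1) * M ^ q * M + M ^ (q + 1) := add_le_add h1 h2
      _ = _ := by push_cast; ring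

lemma ps_diag (q : ℕ) (a : Fin n → ℝ) (G : Mat n) (i j : Fin n) :
    ps q (Matrix.diagonal a) G i j = hh q (a i) (a j) * G i j := by
  induction q with
  | zero => simp [ps, hh]
  | succ q ih =>
    show (ps q (Matrix.diagonal a) G * Matrix.diagonal a + Matrix.diagonal a ^ q * G) i j =
      (hh q (a i) (a j) * a j + a i ^ q) * G i j
    rw [Matrix.add_apply, Matrix.mul_diagonal, Matrix.diagonal_pow, Matrix.diagonal_mul, ih]
    simp only [Pi.pow_apply]
    ring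

lemma pb_diag_succ (q : ℕ) (a : Fin n → ℝ) (β : Mat n) (G : Fin n → Mat n)
    (hG : ∀ k i j, G k i j = G k j i) (i : Fin n) :
    pb (q + 1) (Matrix.diagonal a) β G i i = pb q (Matrix.diagonal a) β G i i * a i +
      a i ^ q * β i i + ∑ k, ∑ j, hh q (a i) (a j) * G k i j ^ 2 := by
  show (pb q (Matrix.diagonal a) β G * Matrix.diagonal a + Matrix.diagonal a ^ q * β +
    ∑ k, ps q (Matrix.diagonal a) (G k) * G k) i i = _
  rw [Matrix.add_apply, Matrix.add_apply, Matrix.mul_diagonal, Matrix.diagonal_pow,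
    Matrix.diagonal_mul, Matrix.sum_apply]
  simp only [Pi.pow_apply]
  congr 1
  refine Finset.sum_congr rfl fun k _ => ?_
  rw [Matrix.mul_apply]
  refine Finset.sum_congr rfl fun j _ => ?_
  rw [ps_diag, hG k j i]
  ring

lemma pb_diag_le (q : ℕ) {a : Fin n → ℝ} (ha : ∀ i, 0 ≤ a i) {β : Mat n} (hβ : ∀ i, β i i ≤ 0)
    (G : Fin n → Mat n) (hG : ∀ k i j, G k i j = G k j i) (i : Fin n) :
    pb (q + 2) (Matrix.diagonal a) β G i i ≤
      ((q + 2) * (q + 1) / 2) * ∑ k, ∑ j, max (a i) (a j) ^ q * G k i j ^ 2 := by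
  induction q with
  | zero =>
    rw [pb_diag_succ _ _ _ _ hG, pb_diag_succ _ _ _ _ hG]
    have h1 : (∑ k, ∑ j, hh (0 + 1) (a i) (a j) * G k i j ^ 2) = ∑ k, ∑ j, G k i j ^ 2 := by
      simp [hh]
    have h2 : (∑ k, ∑ j, hh 0 (a i) (a j) * G k i j ^ 2) = 0 := by simp [hh]
    have h3 : pb 0 (Matrix.diagonal a) β G i i = 0 := rfl
    have h4 : (∑ k, ∑ j, max (a i) (a j) ^ 0 * G k i j ^ 2) = ∑ k, ∑ j, G k i j ^ 2 := by simp
    rw [h1, h2, h3, h4]
    have h5 : a i * β i i ≤ 0 := mul_nonpos_of_nonneg_of_nonpos (ha i) (hβ i)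
    simp only [pow_zero, zero_add, pow_one, Nat.cast_zero]
    linarith
  | succ q ih =>
    rw [pb_diag_succ _ _ _ _ hG]
    have h1 : pb (q + 1 + 1) (Matrix.diagonal a) β G i i * a i ≤
        ((q + 2) * (q + 1) / 2) * (∑ k, ∑ j, max (a i) (a j) ^ q * G k i j ^ 2) * a i :=
      mul_le_mul_of_nonneg_right ih (ha i)
    have h2 : a i ^ (q + 1 + 1) * β i i ≤ 0 :=
      mul_nonpos_of_nonneg_of_nonpos (pow_nonneg (ha i) _) (hβ i)
    have h3 : (∑ k, ∑ j, hh (q + 1 + 1) (a i) (a j) * G k i j ^ 2) ≤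
        (q + 2) * ∑ k, ∑ j, max (a i) (a j) ^ (q + 1) * G k i j ^ 2 := by
      rw [Finset.mul_sum]
      refine Finset.sum_le_sum fun k _ => ?_
      rw [Finset.mul_sum]
      refine Finset.sum_le_sum fun j _ => ?_
      have := hh_le (q + 1) (ha i) (ha j) (le_max_left (a i) (a j)) (le_max_right (a i) (a j))
      have h4 : hh (q + 1 + 1) (a i) (a j) * G k i j ^ 2 ≤
          ((q + 1 : ℕ) + 1) * max (a i) (a j) ^ (q + 1) * G k i j ^ 2 :=
        mul_le_mul_of_nonneg_right this (sq_nonneg _)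
      refine h4.trans_eq ?_
      push_cast
      ring
    have h5 : (∑ k, ∑ j, max (a i) (a j) ^ q * G k i j ^ 2) * a i ≤
        ∑ k, ∑ j, max (a i) (a j) ^ (q + 1) * G k i j ^ 2 := by
      rw [Finset.sum_mul]
      refine Finset.sum_le_sum fun k _ => ?_
      rw [Finset.sum_mul]
      refine Finset.sum_le_sum fun j _ => ?_
      have hM : 0 ≤ max (a i) (a j) := (ha i).trans (le_max_left _ _)
      calc max (a i) (a j) ^ q * G k i j ^ 2 * a i
          ≤ max (a i) (a j) ^ q * G k i j ^ 2 * max (a i) (a j) :=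
            mul_le_mul_of_nonneg_left (le_max_left _ _) (by positivity)
        _ = _ := by ring
    have h6 : (0 : ℝ) ≤ (q + 2) * (q + 1) / 2 := by positivity
    have h7 := mul_le_mul_of_nonneg_left h5 h6
    set S := ∑ k, ∑ j, max (a i) (a j) ^ (q + 1) * G k i j ^ 2
    calc _ ≤ (q + 2) * (q + 1) / 2 * S + 0 + (q + 2) * S := by
          refine add_le_add (add_le_add (h1.trans ?_) h2) h3
          rw [mul_assoc]
          exact h7
      _ = _ := by push_cast; ring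

lemma max_split (q : ℕ) {x y z : ℝ} (hx : 0 ≤ x) (hy : 0 ≤ y) (hz : 0 ≤ z) :
    max x y ^ q ≤ (if x ≤ z ∧ y ≤ z then z ^ q else 0) + (if y ≤ x ∧ z ≤ x then x ^ q else 0) +
      (if z ≤ y ∧ x ≤ y then y ^ q else 0) := by
  have h1 : (0 : ℝ) ≤ if x ≤ z ∧ y ≤ z then z ^ q else 0 := by split_ifs <;> positivity
  have h2 : (0 : ℝ) ≤ if y ≤ x ∧ z ≤ x then x ^ q else 0 := by split_ifs <;> positivity
  have h3 : (0 : ℝ) ≤ if z ≤ y ∧ x ≤ y then y ^ q else 0 := by split_ifs <;> positivity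
  have hM : 0 ≤ max x y := hx.trans (le_max_left _ _)
  by_cases c1 : x ≤ z ∧ y ≤ z
  · have : max x y ^ q ≤ z ^ q := pow_le_pow_left₀ hM (max_le c1.1 c1.2) q
    rw [if_pos c1]
    rw [if_pos c1] at h1
    linarith
  · by_cases c2 : y ≤ x ∧ z ≤ x
    · rw [if_pos c2]
      rw [max_eq_left c2.1]
      linarith
    · have c3 : z ≤ y ∧ x ≤ y := by
        rcases le_total x y with h | h
        · refine ⟨?_, h⟩
          by_contra hz'
          push Not at hz'
          exact c1 ⟨h.trans hz'.le, hz'.le⟩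
        · exfalso
          by_cases hzx : z ≤ x
          · exact c2 ⟨h, hzx⟩
          · push Not at hzx
            exact c1 ⟨hzx.le, h.trans hzx.le⟩
      rw [if_pos c3, max_eq_right c3.2]
      linarith

/-- the drift of `Tr A^q` -/
theorem drift_aux {C : ℝ} (hC : 0 ≤ C) (hW : Thin n C) (hν : IsProbabilityMeasure ν)
    (hR : BS R ν) (hpl : FP.PLm ν)
    {b : OrthonormalBasis (Fin n) ℝ (Eu n)} {a : Fin n → ℝ} (hb : Eig ν b a) (q : ℕ) :
    ∑ i, ∑ j, ∑ l, max (a i) (a j) ^ q * T3 ν b l i j ^ 2 ≤ 6 * C * ∑ p, a p ^ (q + 3) := by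
  have ha := eig_nonneg hR hb
  set W : Fin n → Fin n → Fin n → ℝ := fun p i j =>
    a p ^ q * (if a i ≤ a p ∧ a j ≤ a p then T3 ν b p i j ^ 2 else 0) with hWd
  have hpt : ∀ i j l, max (a i) (a j) ^ q * T3 ν b l i j ^ 2 ≤ W l i j + W i j l + W j l i := by
    intro i j l
    have h1 := max_split q (ha i) (ha j) (ha l)
    have h2 := mul_le_mul_of_nonneg_right h1 (sq_nonneg (T3 ν b l i j))
    have e1 : T3 ν b i j l = T3 ν b l i j := T3_s1 ν b l i j
    have e2 : T3 ν b j l i = T3 ν b l i j := by rw [T3_s1 ν b i j l, e1]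
    refine h2.trans_eq ?_
    simp only [hWd]
    rw [e1, e2]
    split_ifs <;> ring
  have hs : ∑ p, ∑ i, ∑ j, W p i j ≤ 2 * C * ∑ p, a p ^ (q + 3) := by
    rw [Finset.mul_sum]
    refine Finset.sum_le_sum fun p _ => ?_
    have h1 := t_boundW hC hW hν hR hpl hb p
    have h2 := mul_le_mul_of_nonneg_left h1 (pow_nonneg (ha p) q)
    rw [Finset.mul_sum] at h2
    simp only [Finset.mul_sum] at h2
    refine h2.trans_eq ?_
    ring
  have e1 : ∑ i, ∑ j, ∑ l, W l i j = ∑ p, ∑ i, ∑ j, W p i j := by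
    calc ∑ i, ∑ j, ∑ l, W l i j = ∑ i, ∑ l, ∑ j, W l i j :=
          Finset.sum_congr rfl fun i _ => Finset.sum_comm
      _ = ∑ l, ∑ i, ∑ j, W l i j := Finset.sum_comm
  have e2 : ∑ i, ∑ j, ∑ l, W j l i = ∑ p, ∑ i, ∑ j, W p i j := by
    calc ∑ i, ∑ j, ∑ l, W j l i = ∑ j, ∑ i, ∑ l, W j l i := Finset.sum_comm
      _ = ∑ j, ∑ l, ∑ i, W j l i := Finset.sum_congr rfl fun j _ => Finset.sum_comm
  calc ∑ i, ∑ j, ∑ l, max (a i) (a j) ^ q * T3 ν b l i j ^ 2
      ≤ ∑ i, ∑ j, ∑ l, (W l i j + W i j l + W j l i) :=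
        Finset.sum_le_sum fun i _ => Finset.sum_le_sum fun j _ => Finset.sum_le_sum fun l _ =>
          hpt i j l
    _ = 3 * ∑ p, ∑ i, ∑ j, W p i j := by
        simp only [Finset.sum_add_distrib]
        rw [e1, e2]
        ring
    _ ≤ 3 * (2 * C * ∑ p, a p ^ (q + 3)) := mul_le_mul_of_nonneg_left hs (by norm_num)
    _ = _ := by ring

lemma tr_pow [IsProbabilityMeasure ν] (hR : BS R ν)
    {b : OrthonormalBasis (Fin n) ℝ (Eu n)} {a : Fin n → ℝ} (hb : Eig ν b a) (q : ℕ) :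
    (Am ν ^ q).trace = ∑ p, a p ^ q := by
  rw [← rt_trace b, rt_pow, rt_Am hR hb, Matrix.diagonal_pow, Matrix.trace_diagonal]
  rfl

/-- the drift of `Tr A^q` -/
theorem drift_le {C : ℝ} (hC : 0 ≤ C) (hW : Thin n C) (hν : IsProbabilityMeasure ν)
    (hR : BS R ν) (hpl : FP.PLm ν)
    {b : OrthonormalBasis (Fin n) ℝ (Eu n)} {a : Fin n → ℝ} (hb : Eig ν b a) {q : ℕ}
    (hq : 2 ≤ q) :
    (pb q (Am ν) (-(Am ν * Am ν)) (Hm ν)).trace ≤ 3 * C * q ^ 2 * ∑ p, a p ^ (q + 1) := by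
  obtain ⟨r, rfl⟩ : ∃ r, q = r + 2 := ⟨q - 2, by omega⟩
  have ha := eig_nonneg hR hb
  rw [← rt_trace b, rt_pb, rt_neg, rt_mul, rt_Am hR hb, Matrix.diagonal_mul_diagonal]
  have hβ : ∀ i, (-(Matrix.diagonal fun i => a i * a i)) i i ≤ 0 := by
    intro i
    rw [Matrix.neg_apply, Matrix.diagonal_apply_eq]
    have := mul_nonneg (ha i) (ha i)
    linarith
  have hG : ∀ k i j, rt b (Hm ν k) i j = rt b (Hm ν k) j i := fun k i j => by
    rw [rt_Hm hR, rt_Hm hR, G3_symm]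
  have h1 : (pb (r + 2) (Matrix.diagonal a) (-(Matrix.diagonal fun i => a i * a i))
      (fun k => rt b (Hm ν k))).trace ≤ ∑ i, ((r + 2) * (r + 1) / 2) *
        ∑ k, ∑ j, max (a i) (a j) ^ r * rt b (Hm ν k) i j ^ 2 :=
    Finset.sum_le_sum fun i _ => pb_diag_le r ha hβ _ hG i
  have h2 : ∑ i, (((r : ℝ) + 2) * (r + 1) / 2) *
        ∑ k, ∑ j, max (a i) (a j) ^ r * rt b (Hm ν k) i j ^ 2 =
      (((r : ℝ) + 2) * (r + 1) / 2) * ∑ i, ∑ j, ∑ l, max (a i) (a j) ^ r * T3 ν b l i j ^ 2 := by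
    rw [← Finset.mul_sum]
    congr 1
    refine Finset.sum_congr rfl fun i _ => ?_
    rw [Finset.sum_comm]
    refine Finset.sum_congr rfl fun j _ => ?_
    rw [← Finset.mul_sum, ← Finset.mul_sum, ← pars hR]
    simp only [rt_Hm hR]
  have h3 := drift_aux hC hW hν hR hpl hb r
  have h4 : (0 : ℝ) ≤ (((r : ℝ) + 2) * (r + 1) / 2) := by positivity
  have h5 := mul_le_mul_of_nonneg_left h3 h4
  have h6 : 0 ≤ ∑ p, a p ^ (r + 3) := Finset.sum_nonneg fun p _ => pow_nonneg (ha p) _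
  refine (h1.trans_eq h2).trans (h5.trans ?_)
  have h7 : (((r : ℝ) + 2) * (r + 1) / 2) * (6 * C) ≤ 3 * C * ((r + 2 : ℕ) : ℝ) ^ 2 := by
    push_cast
    have hr : (0 : ℝ) ≤ r := Nat.cast_nonneg r
    nlinarith [mul_nonneg hC hr]
  calc (((r : ℝ) + 2) * (r + 1) / 2) * (6 * C * ∑ p, a p ^ (r + 3))
      = ((((r : ℝ) + 2) * (r + 1) / 2) * (6 * C)) * ∑ p, a p ^ (r + 3) := by ring
    _ ≤ (3 * C * ((r + 2 : ℕ) : ℝ) ^ 2) * ∑ p, a p ^ (r + 3) := mul_le_mul_of_nonneg_right h7 h6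
    _ = _ := rfl

/-- `Tr A^(q+1) ≤ 4 (1 + Tr A^q / 4^q) Tr A^q` -/
lemma tr_succ {a : Fin n → ℝ} (ha : ∀ i, 0 ≤ a i) {q : ℕ} (hq : 1 ≤ q) :
    ∑ p, a p ^ (q + 1) ≤ 4 * (1 + (∑ p, a p ^ q) / 4 ^ q) * ∑ p, a p ^ q := by
  set Φ := ∑ p, a p ^ q with hΦ
  have hΦ0 : 0 ≤ Φ := Finset.sum_nonneg fun p _ => pow_nonneg (ha p) _
  have h1 : ∀ p, a p ≤ 4 * (1 + Φ / 4 ^ q) := by
    intro p
    have h2 : 0 ≤ Φ / 4 ^ q := by positivity
    by_cases h : a p ≤ 4
    · linarith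
    · push Not at h
      have h3 : 1 ≤ a p / 4 := by linarith
      have h4 : a p / 4 ≤ (a p / 4) ^ q := le_self_pow₀ h3 (by omega)
      have h5 : a p ^ q ≤ Φ :=
        Finset.single_le_sum (f := fun p => a p ^ q) (fun p _ => pow_nonneg (ha p) _)
          (Finset.mem_univ p)
      have h6 : (a p / 4) ^ q ≤ Φ / 4 ^ q := by
        rw [div_pow]
        gcongr
      linarith
  calc ∑ p, a p ^ (q + 1) ≤ ∑ p, (4 * (1 + Φ / 4 ^ q)) * a p ^ q := by
        refine Finset.sum_le_sum fun p _ => ?_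
        rw [pow_succ, mul_comm]
        exact mul_le_mul_of_nonneg_right (h1 p) (pow_nonneg (ha p) _)
    _ = _ := by rw [← Finset.mul_sum]

end PE

theorem fq_nonneg (hν : IsProbabilityMeasure ν) (hR : BS R ν) (q : ℕ) : 0 ≤ fq q ν := by
  obtain ⟨b, a, -, hb, -, -, -, ha⟩ := PC3.exists_eig hR
  unfold fq
  rw [PE.tr_pow hR hb]
  have : 0 ≤ ∑ p, a p ^ q := Finset.sum_nonneg fun p _ => pow_nonneg (ha p) _
  positivity

namespace PE

lemma fq_le (hν : IsProbabilityMeasure ν) (hR : BS R ν) (q : ℕ) : fq q ν ≤ 4 ^ q := by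
  obtain ⟨b, a, -, hb, -, -, -, ha⟩ := PC3.exists_eig hR
  unfold fq
  rw [PE.tr_pow hR hb]
  have : 0 ≤ ∑ p, a p ^ q := Finset.sum_nonneg fun p _ => pow_nonneg (ha p) _
  rw [div_le_iff₀ (by positivity), mul_add, mul_div_cancel₀ _ (by positivity)]
  have : (0 : ℝ) < 4 ^ q := by positivity
  linarith

end PE

theorem fq_bd (h : Nm μ R B) (q : ℕ) : Bd B T (fun t s => fq q (tl μ t s.1)) := by
  refine ⟨4 ^ q, fun t s _ _ _ => ?_⟩
  rw [abs_of_nonneg (fq_nonneg (tl_prob h _ _) (tl_BS h _ _) q)]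
  exact PE.fq_le (tl_prob h _ _) (tl_BS h _ _) q

theorem fq_big (hν : IsProbabilityMeasure ν) (hR : BS R ν) (q : ℕ) (hb : ¬ CovL ν 4) :
    4 ^ q / 2 ≤ fq q ν := by
  obtain ⟨b, a, -, hbe, -, -, -, ha⟩ := PC3.exists_eig hR
  -- an eigenvalue larger than 4
  have hex : ∃ p, 4 < a p := by
    by_contra hcon
    push Not at hcon
    apply hb
    intro w
    have h1 : (fun x : Eu n => (inner ℝ x w : ℝ)) = fun x => ∑ p, inner ℝ (b p) w * inner ℝ x (b p) := by
      funext x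
      rw [← b.sum_inner_mul_inner x w]
      exact Finset.sum_congr rfl fun p _ => mul_comm _ _
    have h2 : Cv ν (fun x => inner ℝ x w) (fun x => inner ℝ x w) =
        ∑ p, a p * (inner ℝ (b p) w) ^ 2 := by
      rw [h1, Cv_sum_left _ (fun p _ => (BM.inner hR (b p)).cmul _)
        (BM.sum _ fun p _ => (BM.inner hR (b p)).cmul _)]
      refine Finset.sum_congr rfl fun p _ => ?_
      rw [Cv_cmul_left, Cv_sum_right _ (fun p _ => (BM.inner hR (b p)).cmul _) (BM.inner hR (b p))]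
      rw [Finset.sum_eq_single p]
      · rw [Cv_cmul_right, hbe p p, if_pos rfl]
        ring
      · intro r _ hr
        rw [Cv_cmul_right, hbe p r, if_neg (Ne.symm hr), mul_zero]
      · intro hp
        exact absurd (Finset.mem_univ p) hp
    rw [h2]
    have h3 : ∑ p, (inner ℝ (b p) w : ℝ) ^ 2 = ‖w‖ ^ 2 := by
      have := b.sum_sq_norm_inner_right w
      simpa using this
    rw [← h3, Finset.mul_sum]
    exact Finset.sum_le_sum fun p _ => mul_le_mul_of_nonneg_right (hcon p) (sq_nonneg _)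
  obtain ⟨p, hp⟩ := hex
  have h4 : 4 ^ q ≤ ∑ p, a p ^ q := by
    have h5 : a p ^ q ≤ ∑ p, a p ^ q :=
      Finset.single_le_sum (f := fun p => a p ^ q) (fun p _ => pow_nonneg (ha p) _)
        (Finset.mem_univ p)
    exact (pow_le_pow_left₀ (by norm_num) hp.le q).trans h5
  unfold fq
  rw [PE.tr_pow hR hbe]
  set Φ := ∑ p, a p ^ q
  have h6 : (0 : ℝ) < 4 ^ q := by positivity
  have h7 : 0 < Φ := h6.trans_le h4
  rw [div_le_div_iff₀ (by norm_num) (by positivity), mul_add, mul_div_cancel₀ _ h6.ne']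
  linarith

end Pool.Agent.Lib.MP_6d896a_gt.LG
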