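import Mathlib
import Pool.Agent.Lib.MP_6d896a_gt.LG.PEa
import Pool.Agent.Lib.MP_6d896a_gt.LG.ItCalc
import Pool.Agent.Lib.MP_6d896a_gt.LG.ItInv
import Pool.Agent.Lib.MP_6d896a_gt.LG.Deriv

/-!
Project LG, piece PE: step IV, the potential `Tr A^q` along the localisation.
-/

set_option autoImplicit false

namespace Pool.Agent.Lib.MP_6d896a_gt.LG

open MeasureTheory Filter Topology Set Matrix
open scoped ENNReal NNReal

variable {n : ℕ} {μ ν : Measure (Eu n)} {R B T η τ : ℝ}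

/-! ### along the localisation -/

namespace PE

/-- the trace of the power -/
noncomputable def Ph (q : ℕ) (μ : Measure (Eu n)) (t : ℝ) (s : St n) : ℝ :=
  (Am (tl μ t s.1) ^ q).trace

/-- its drift -/
noncomputable def bP (q : ℕ) (μ : Measure (Eu n)) (t : ℝ) (s : St n) : ℝ :=
  (pb q (Am (tl μ t s.1)) (-(Am (tl μ t s.1) * Am (tl μ t s.1))) (Hm (tl μ t s.1))).trace

/-- its diffusion coefficients -/
noncomputable def sP (q : ℕ) (μ : Measure (Eu n)) (t : ℝ) (s : St n) (k : Fin n) : ℝ :=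
  (ps q (Am (tl μ t s.1)) (Hm (tl μ t s.1) k)).trace

lemma mit_pow (h : Nm μ R B) {F β : ℝ → St n → Mat n} {σ : ℝ → St n → Fin n → Mat n}
    (hF : MIt μ B T F β σ) (q : ℕ) :
    MIt μ B T (fun t s => F t s ^ q) (fun t s => pb q (F t s) (β t s) (σ t s))
      (fun t s k => ps q (F t s) (σ t s k)) := by
  induction q with
  | zero =>
    simp only [pow_zero]
    exact MIt.const h 1
  | succ q ih =>
    have h1 := MIt.mul h ih hF
    simp only [pow_succ]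
    exact h1

lemma it_Ph (h : Nm μ R B) (q : ℕ) : It μ B T (Ph q μ) (bP q μ) (sP q μ) :=
  MIt.trace h (mit_pow h (MIt.A h) q)

lemma Ph_nonneg (h : Nm μ R B) (q : ℕ) (t : ℝ) (s : St n) : 0 ≤ Ph q μ t s := by
  have hν := tl_prob h t s.1
  have hR := tl_BS h t s.1
  obtain ⟨b, a, -, hb, -, -, -, ha⟩ := PC3.exists_eig hR
  unfold Ph
  rw [tr_pow hR hb]
  exact Finset.sum_nonneg fun p _ => pow_nonneg (ha p) _

/-- the denominator -/
noncomputable def Dn (q : ℕ) (μ : Measure (Eu n)) (t : ℝ) (s : St n) : ℝ :=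
  1 + (4 ^ q)⁻¹ * Ph q μ t s

lemma Dn_ge (h : Nm μ R B) (q : ℕ) (t : ℝ) (s : St n) : 1 ≤ Dn q μ t s := by
  have := Ph_nonneg h q t s
  unfold Dn
  have : 0 ≤ (4 ^ q)⁻¹ * Ph q μ t s := by positivity
  linarith

/-- the drift of the potential -/
noncomputable def bf (q : ℕ) (μ : Measure (Eu n)) (t : ℝ) (s : St n) : ℝ :=
  0 - 4 ^ q * (-((Dn q μ t s)⁻¹) ^ 2 * (0 + (4 ^ q)⁻¹ * bP q μ t s) +
    ((Dn q μ t s)⁻¹) ^ 3 * ∑ k, (0 + (4 ^ q)⁻¹ * sP q μ t s k) ^ 2)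

noncomputable def sf (q : ℕ) (μ : Measure (Eu n)) (t : ℝ) (s : St n) (k : Fin n) : ℝ :=
  0 - 4 ^ q * (-((Dn q μ t s)⁻¹) ^ 2 * (0 + (4 ^ q)⁻¹ * sP q μ t s k))

lemma fq_eq (h : Nm μ R B) (q : ℕ) (t : ℝ) (s : St n) :
    4 ^ q - 4 ^ q * (Dn q μ t s)⁻¹ = fq q (tl μ t s.1) := by
  have h1 := Dn_ge h q t s
  have h2 : Dn q μ t s = 1 + Ph q μ t s / 4 ^ q := by
    unfold Dn
    rw [div_eq_mul_inv, mul_comm]
  have h3 : fq q (tl μ t s.1) = Ph q μ t s / Dn q μ t s := by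
    rw [h2]
    rfl
  rw [h3, eq_div_iff (by positivity), sub_mul, mul_assoc, inv_mul_cancel₀ (by positivity), h2]
  have h4 : (4 : ℝ) ^ q ≠ 0 := by positivity
  field_simp
  ring

lemma it_fq (h : Nm μ R B) (q : ℕ) :
    It μ B T (fun t s => fq q (tl μ t s.1)) (bf q μ) (sf q μ) := by
  have hD : It μ B T (Dn q μ) (fun t s => 0 + (4 ^ q)⁻¹ * bP q μ t s)
      (fun t s k => 0 + (4 ^ q)⁻¹ * sP q μ t s k) :=
    It.add h (It.const h 1) (It.cmul h (it_Ph h q) (4 ^ q)⁻¹)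
  have hI := It.inv h hD one_pos (fun t s _ _ _ => Dn_ge h q t s)
  have hf := It.sub h (It.const h (4 ^ q)) (It.cmul h hI (4 ^ q))
  exact It.congr h hf (fun t s _ _ _ => fq_eq h q t s) (fun t s _ _ _ => rfl)
    (fun t s _ _ _ => rfl)

/-- the drift inequality -/
lemma bf_le {C : ℝ} (hC : 0 ≤ C) (hW : Thin n C) (h : Nm μ R B) (hpl : FP.PLm μ)
    {q : ℕ} (hq : 2 ≤ q) {t : ℝ} (ht : 0 ≤ t) (s : St n) :
    bf q μ t s ≤ 12 * C * q ^ 2 * fq q (tl μ t s.1) := by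
  have hν := tl_prob h t s.1
  have hR := tl_BS h t s.1
  have hu : ULC (0 + t) (tl μ t s.1) := tl_ULC h (ulc_zero_iff.2 hpl) t s.1
  have hNm : Nm (tl μ t s.1) R B := ⟨hν, h.R0, hR, h.B1⟩
  have hplt : FP.PLm (tl μ t s.1) := ULC.plm hNm (by linarith) hu
  obtain ⟨b, a, -, hb, -, -, -, ha⟩ := PC3.exists_eig hR
  have h1 := drift_le hC hW hν hR hplt hb hq
  have h2 := tr_succ ha (show 1 ≤ q by omega)
  have hD1 := Dn_ge h q t s
  have hPh : Ph q μ t s = ∑ p, a p ^ q := tr_pow hR hb q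
  have hPh0 : 0 ≤ Ph q μ t s := Ph_nonneg h q t s
  have h4 : (0 : ℝ) < 4 ^ q := by positivity
  have hDn : Dn q μ t s = 1 + Ph q μ t s / 4 ^ q := by
    unfold Dn
    rw [div_eq_mul_inv, mul_comm]
  rw [← hPh, ← hDn] at h2
  have hK : 0 ≤ 3 * C * (q : ℝ) ^ 2 := by positivity
  have h3 : bP q μ t s ≤ 3 * C * q ^ 2 * (4 * Dn q μ t s * Ph q μ t s) :=
    h1.trans (mul_le_mul_of_nonneg_left h2 hK)
  have hDi : 0 ≤ (Dn q μ t s)⁻¹ := by positivity
  have h5 : bf q μ t s ≤ ((Dn q μ t s)⁻¹) ^ 2 * bP q μ t s := by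
    have e1 : bf q μ t s = ((Dn q μ t s)⁻¹) ^ 2 * bP q μ t s -
        4 ^ q * (((Dn q μ t s)⁻¹) ^ 3 * ∑ k, (0 + (4 ^ q)⁻¹ * sP q μ t s k) ^ 2) := by
      unfold bf
      field_simp
      ring
    have e2 : 0 ≤ 4 ^ q * (((Dn q μ t s)⁻¹) ^ 3 * ∑ k, (0 + (4 ^ q)⁻¹ * sP q μ t s k) ^ 2) := by
      have : 0 ≤ ∑ k, (0 + (4 ^ q)⁻¹ * sP q μ t s k) ^ 2 :=
        Finset.sum_nonneg fun k _ => sq_nonneg _
      positivity
    rw [e1]
    linarith
  have h6 : ((Dn q μ t s)⁻¹) ^ 2 * bP q μ t s ≤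
      ((Dn q μ t s)⁻¹) ^ 2 * (3 * C * q ^ 2 * (4 * Dn q μ t s * Ph q μ t s)) :=
    mul_le_mul_of_nonneg_left h3 (sq_nonneg _)
  have h7 : fq q (tl μ t s.1) = Ph q μ t s * (Dn q μ t s)⁻¹ := by
    rw [hDn, ← div_eq_mul_inv]
    rfl
  refine (h5.trans h6).trans_eq ?_
  rw [h7]
  have h8 : (Dn q μ t s)⁻¹ * Dn q μ t s = 1 := inv_mul_cancel₀ (by positivity)
  calc ((Dn q μ t s)⁻¹) ^ 2 * (3 * C * q ^ 2 * (4 * Dn q μ t s * Ph q μ t s))
      = 12 * C * q ^ 2 * (Ph q μ t s * (Dn q μ t s)⁻¹) * ((Dn q μ t s)⁻¹ * Dn q μ t s) := by ring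
    _ = _ := by rw [h8, mul_one]

/-- the value at time zero -/
lemma fq_zero (h : Nm μ R B) (hcov : CovL μ 1) (q : ℕ) : fq q μ ≤ n := by
  have := h.pr
  obtain ⟨b, a, -, hb, -, -, -, ha⟩ := PC3.exists_eig h.bs
  have ha1 : ∀ p, a p ≤ 1 := by
    intro p
    have h1 := hcov (b p)
    rw [hb p p, if_pos rfl, b.norm_eq_one] at h1
    simpa using h1
  unfold fq
  rw [tr_pow h.bs hb]
  have h0 : 0 ≤ ∑ p, a p ^ q := Finset.sum_nonneg fun p _ => pow_nonneg (ha p) _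
  have h1 : ∑ p, a p ^ q ≤ n := by
    calc ∑ p, a p ^ q ≤ ∑ _p : Fin n, (1 : ℝ) :=
          Finset.sum_le_sum fun p _ => pow_le_one₀ (ha p) (ha1 p)
      _ = n := by simp
  refine (div_le_self h0 ?_).trans h1
  have : 0 ≤ (∑ p, a p ^ q) / 4 ^ q := by positivity
  linarith

end PE

/-- PE1 -/
theorem stepIV_EE {C : ℝ} (hC : 0 ≤ C) (hW : Thin n C) (h : Nm μ R B) (hpl : FP.PLm μ)
    (hcov : CovL μ 1) {q : ℕ} (hq : 2 ≤ q) (hT : 0 < T) :
    EE μ T (fun s => fq q (tl μ T s.1)) ≤ Real.exp (12 * C * q ^ 2 * T) * n := by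
  set l := 12 * C * (q : ℝ) ^ 2 with hl
  have hI := It.mul h (It.exp (μ := μ) (B := B) (T := T) h l) (PE.it_fq h q)
  have hdyn := dynkin h hT hI
  have hb := hI.bb
  have hle : JJ μ T (fun t s => -(l * Real.exp (-(l * t))) * fq q (tl μ t s.1) +
      Real.exp (-(l * t)) * PE.bf q μ t s + ∑ k, (0 : ℝ) * PE.sf q μ t s k) ≤ 0 := by
    have h1 := JJ_mono h hT hb (Bd.const 0) (fun t s ht _ _ => ?_)
    · rw [JJ_const h hT] at h1
      simpa using h1
    · have h2 := PE.bf_le hC hW h hpl hq ht s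
      rw [← hl] at h2
      have h3 := mul_le_mul_of_nonneg_left h2 (Real.exp_pos (-(l * t))).le
      have h4 : ∑ k, (0 : ℝ) * PE.sf q μ t s k = 0 := by simp
      rw [h4]
      linarith
  have h0 : EE μ T (fun s => Real.exp (-(l * T)) * fq q (tl μ T s.1)) ≤ n := by
    have h5 : EE μ T (fun s => Real.exp (-(l * T)) * fq q (tl μ T s.1)) =
      Real.exp (-(l * 0)) * fq q (tl μ 0 (0, (1 : Mat n)).1) + _ := hdyn
    rw [h5]
    have h6 := PE.fq_zero h hcov q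
    have h7 : tl μ 0 ((0, (1 : Mat n)) : St n).1 = μ := tl_zero h
    rw [h7]
    simp only [mul_zero, neg_zero, Real.exp_zero, one_mul]
    linarith
  rw [EE_cmul h hT ((fq_bd h q).bt hT.le)] at h0
  have h8 : Real.exp (l * T) * (Real.exp (-(l * T)) * EE μ T (fun s => fq q (tl μ T s.1))) =
      EE μ T (fun s => fq q (tl μ T s.1)) := by
    rw [← mul_assoc, ← Real.exp_add]
    simp
  rw [← h8]
  exact mul_le_mul_of_nonneg_left h0 (Real.exp_pos _).le

theorem stepIV_JJ {C : ℝ} (hC : 0 ≤ C) (hW : Thin n C) (h : Nm μ R B) (hpl : FP.PLm μ)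
    (hcov : CovL μ 1) {q : ℕ} (hq : 2 ≤ q) (hT : 0 < T) :
    JJ μ T (fun t s => fq q (tl μ t s.1)) ≤ T * Real.exp (12 * C * q ^ 2 * T) * n := by
  set l := 12 * C * (q : ℝ) ^ 2 with hl
  have hl0 : 0 ≤ l := by positivity
  have hI := It.mul h (It.exp (μ := μ) (B := B) (T := T) h l) (PE.it_fq h q)
  have hI2 := It.mul h (It.sub h (It.const (μ := μ) (B := B) (T := T) h T) (It.tau h 0)) hI
  have hdyn := dynkin h hT hI2
  have hb := hI2.bb
  have hlhs : EE μ T (fun s : St n => (T - (0 + T)) *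
      (Real.exp (-(l * T)) * fq q (tl μ T s.1))) = 0 := by
    have : (fun s : St n => (T - (0 + T)) * (Real.exp (-(l * T)) * fq q (tl μ T s.1))) =
        fun _ => 0 := by
      funext s
      simp
    rw [this, EE_const h hT]
  have hB1 : Bd B T (fun t (s : St n) => (-Real.exp (-(l * T))) * fq q (tl μ t s.1)) :=
    (fq_bd h q).cmul _
  have h1 := JJ_mono h hT hb hB1 (fun t s ht htT _ => ?_)
  · rw [JJ_cmul h hT (fq_bd h q)] at h1
    have h5 : EE μ T (fun s : St n => (T - (0 + T)) *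
      (Real.exp (-(l * T)) * fq q (tl μ T s.1))) =
      (T - (0 + 0)) * (Real.exp (-(l * 0)) * fq q (tl μ 0 (0, (1 : Mat n)).1)) + _ := hdyn
    rw [hlhs] at h5
    have h6 := PE.fq_zero h hcov q
    have h7 : tl μ 0 ((0, (1 : Mat n)) : St n).1 = μ := tl_zero h
    rw [h7] at h5
    simp only [mul_zero, neg_zero, Real.exp_zero, one_mul, add_zero, sub_zero] at h5
    have h9 : T * fq q μ ≤ T * n := mul_le_mul_of_nonneg_left h6 hT.le
    have h10 : Real.exp (-(l * T)) * JJ μ T (fun t s => fq q (tl μ t s.1)) ≤ T * n := by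
      simp only [zero_add, sub_zero] at h1 h5
      linarith
    have h8 : Real.exp (l * T) * (Real.exp (-(l * T)) * JJ μ T (fun t s => fq q (tl μ t s.1))) =
        JJ μ T (fun t s => fq q (tl μ t s.1)) := by
      rw [← mul_assoc, ← Real.exp_add]
      simp
    rw [← h8]
    refine (mul_le_mul_of_nonneg_left h10 (Real.exp_pos (l * T)).le).trans_eq ?_
    ring
  · have h2 := PE.bf_le hC hW h hpl hq ht s
    rw [← hl] at h2
    have h3 := mul_le_mul_of_nonneg_left h2 (Real.exp_pos (-(l * t))).le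
    have hf0 := fq_nonneg (tl_prob h t s.1) (tl_BS h t s.1) q
    have h4 : Real.exp (-(l * T)) ≤ Real.exp (-(l * t)) := by
      apply Real.exp_le_exp.mpr
      have := mul_le_mul_of_nonneg_left htT hl0
      linarith
    have h5 := mul_le_mul_of_nonneg_right h4 hf0
    have h6 : (T - t) * (-(l * Real.exp (-(l * t))) * fq q (tl μ t s.1) +
        Real.exp (-(l * t)) * PE.bf q μ t s) ≤ 0 := by
      refine mul_nonpos_of_nonneg_of_nonpos (by linarith) ?_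
      linarith
    simp only [zero_add, zero_mul, Finset.sum_const_zero, add_zero, zero_sub, sub_self]
    linarith

end Pool.Agent.Lib.MP_6d896a_gt.LG
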