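import Mathlib
import Pool.Agent.Lib.MP_6d896a_gt.LG.Defs
import Pool.Agent.Lib.MP_6d896a_gt.LG.Basic
import Pool.Agent.Lib.MP_6d896a_gt.LG.Chain
import Pool.Agent.Lib.MP_6d896a_gt.LG.ItCalc
import Pool.Agent.Lib.MP_6d896a_gt.LG.ItInv
import Pool.Agent.Lib.MP_6d896a_gt.LG.Atoms
import Pool.Agent.Lib.MP_6d896a_gt.LG.Deriv
import Pool.Agent.Lib.MP_6d896a_gt.LG.Defs2
import Pool.Agent.Lib.MP_6d896a_gt.LG.PEa

/-!
Project LG, piece PF (step V).
-/

set_option autoImplicit false

namespace Pool.Agent.Lib.MP_6d896a_gt.LG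

open MeasureTheory Filter Topology Set Matrix
open scoped ENNReal NNReal

variable {n : ℕ} {μ ν : Measure (Eu n)} {R B T η τ : ℝ}

/-! ### the size of the covariances with the coordinates -/

private lemma inner_sum (x w : Eu n) : inner ℝ x w = ∑ k, w k * x k := by
  simp [PiLp.inner_apply]

private lemma nsq_le [IsProbabilityMeasure ν] (hR : BS R ν) {g : Eu n → ℝ} (hg : BM ν g)
    {a : ℝ} (ha0 : 0 ≤ a)
    (ha : ∀ w : Eu n, Cv ν (fun x => inner ℝ x w) (fun x => inner ℝ x w) ≤ a * ‖w‖ ^ 2) :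
    ∑ k, Cv ν (fun x => x k) g ^ 2 ≤ a * Cv ν g g := by
  have hV := Cv_self_nonneg hg
  set w : Eu n := WithLp.toLp 2 (fun k => Cv ν (fun x => x k) g) with hw
  have hwk : ∀ k, w k = Cv ν (fun x => x k) g := fun k => rfl
  have h1 : Cv ν (fun x => inner ℝ x w) g = ∑ k, Cv ν (fun x => x k) g ^ 2 := by
    simp only [inner_sum]
    rw [Cv_sum_left _ (fun k _ => (BM.coord hR k).cmul (w k)) hg]
    refine Finset.sum_congr rfl fun k _ => ?_
    rw [Cv_cmul_left, hwk, sq]
  have h2 : ‖w‖ ^ 2 = ∑ k, Cv ν (fun x => x k) g ^ 2 := by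
    rw [EuclideanSpace.norm_sq_eq]
    refine Finset.sum_congr rfl fun k _ => ?_
    rw [hwk, Real.norm_eq_abs, sq_abs]
  have h3 := Cv_sq_le (BM.inner hR w) hg
  rw [h1] at h3
  have h4 := ha w
  rw [h2] at h4
  set m := ∑ k, Cv ν (fun x => x k) g ^ 2 with hm
  have hm0 : 0 ≤ m := Finset.sum_nonneg fun k _ => sq_nonneg _
  rcases hm0.eq_or_lt with h0 | h0
  · rw [← h0]
    positivity
  · have h5 : m ^ 2 ≤ a * m * Cv ν g g := h3.trans (mul_le_mul_of_nonneg_right h4 hV)
    have h6 : m * m ≤ m * (a * Cv ν g g) := by nlinarith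
    exact le_of_mul_le_mul_left h6 h0

private lemma nsq_le_tr [IsProbabilityMeasure ν] (hR : BS R ν) {g : Eu n → ℝ} (hg : BM ν g) :
    ∑ k, Cv ν (fun x => x k) g ^ 2 ≤ (Am ν).trace * Cv ν g g := by
  rw [Matrix.trace, Finset.sum_mul]
  exact Finset.sum_le_sum fun k _ => Cv_sq_le (BM.coord hR k) hg

private lemma fderiv_inner_norm (w x : Eu n) :
    ‖fderiv ℝ (fun y : Eu n => (inner ℝ y w : ℝ)) x‖ = ‖w‖ := by
  have h1 : (fun y : Eu n => (inner ℝ y w : ℝ)) = innerSL ℝ w := by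
    funext y
    rw [innerSL_apply_apply, real_inner_comm]
  rw [h1, ContinuousLinearMap.fderiv, innerSL_apply_norm]

private lemma V_le_one [IsProbabilityMeasure ν] {g : Eu n → ℝ}
    (hg1 : ∀ x, |g x| ≤ 1) : Cv ν g g ≤ 1 := by
  have h1 : |∫ x, g x * g x ∂ν| ≤ 1 := by
    apply int_le
    refine ae_of_all _ fun x => ?_
    rw [abs_mul]
    exact mul_le_one₀ (hg1 x) (abs_nonneg _) (hg1 x)
  have h2 := (abs_le.1 h1).2
  unfold Cv
  nlinarith [mul_self_nonneg (∫ x, g x ∂ν)]

/-- step V, from the other pieces -/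
theorem stepV_of {C : ℝ} (h : Nm μ R B) (hpl : FP.PLm μ)
    (hP : ∀ (ν : Measure (Eu n)) (τ : ℝ), IsProbabilityMeasure ν → BS R ν → 0 < τ → ULC τ ν →
      ∀ f : Eu n → ℝ, ContDiff ℝ 1 f → Cv ν f f ≤ 1 / τ * ∫ x, ‖fderiv ℝ f x‖ ^ 2 ∂ν)
    (hcov : CovL μ 1) {q : ℕ} (hT : 0 < T)
    (hE : EE μ T (fun s => fq q (tl μ T s.1)) ≤ Real.exp (12 * C * q ^ 2 * T) * n)
    (hJ : JJ μ T (fun t s => fq q (tl μ t s.1)) ≤ T * Real.exp (12 * C * q ^ 2 * T) * n)
    (hT1 : T ≤ 1 / 8) {t0 : ℝ}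
    (ht0 : 0 < t0) {K : ℝ} (hK0 : 0 ≤ K)
    (hK : ∀ ν : Measure (Eu n), IsProbabilityMeasure ν → BS R ν → ULC T ν → CovL ν 4 →
      ∀ f : Eu n → ℝ, ContDiff ℝ 1 f → Cv ν f f ≤ K * ∫ x, ‖fderiv ℝ f x‖ ^ 2 ∂ν)
    {g : Eu n → ℝ} (hg : ContDiff ℝ 1 g) (hg1 : ∀ x, |g x| ≤ 1) {l : ℝ}
    (hl : ∀ x, ‖fderiv ℝ g x‖ ≤ l) :
    Cv μ g g ≤ 2 * (K * l ^ 2 + 2 / 4 ^ q * (Real.exp (12 * C * q ^ 2 * T) * n) + 3 * t0 * n +
      2 / (4 ^ q * t0) * (T * Real.exp (12 * C * q ^ 2 * T) * n)) := by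
  have hu : ULC 0 μ := ulc_zero_iff.2 hpl
  have hul : ∀ (t : ℝ) (c : Eu n), ULC t (tl μ t c) := fun t c => by
    have := tl_ULC h hu t c
    rwa [zero_add] at this
  have hpr := h.pr
  have hpt := tl_prob h
  have hbs := tl_BS h
  have hgB : ∀ (t : ℝ) (c : Eu n), BM (tl μ t c) g := fun t c => BM.cont (hbs t c) hg.continuous
  obtain ⟨σ, hV⟩ := It.var (T := T) h (φ := g) hg.continuous.measurable (M := 1)
    (ae_of_all _ hg1)
  have hfb := fq_bd (T := T) h q
  have hTA := MIt.trace h (MIt.A (T := T) h)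
  have h40 : (0 : ℝ) < 4 ^ q := by positivity
  -- (a)
  have ha : EE μ T (fun s => Cv (tl μ T s.1) g g) ≤
      K * l ^ 2 + 2 / 4 ^ q * (Real.exp (12 * C * q ^ 2 * T) * n) := by
    have hb1 : Bt B T (fun s : St n => Cv (tl μ T s.1) g g) := hV.bF.bt hT.le
    have hb2 : Bt B T (fun s : St n => fq q (tl μ T s.1)) := hfb.bt hT.le
    have h1 := EE_mono h hT hb1 ((Bt.const (K * l ^ 2)).add (hb2.cmul (2 / 4 ^ q)))
      (fun s _ => ?_)
    · rw [EE_add h hT (Bt.const (K * l ^ 2)) (hb2.cmul (2 / 4 ^ q)), EE_const h hT,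
        EE_cmul h hT hb2] at h1
      refine h1.trans (add_le_add le_rfl ?_)
      exact mul_le_mul_of_nonneg_left hE (by positivity)
    · have := hpt T s.1
      by_cases hc : CovL (tl μ T s.1) 4
      · have h2 := hK _ (hpt T s.1) (hbs T s.1) (hul T s.1) hc g hg
        have h3 : ∫ x, ‖fderiv ℝ g x‖ ^ 2 ∂(tl μ T s.1) ≤ l ^ 2 := by
          have h4 : |∫ x, ‖fderiv ℝ g x‖ ^ 2 ∂(tl μ T s.1)| ≤ l ^ 2 := by
            apply int_le
            refine ae_of_all _ fun x => ?_
            rw [abs_of_nonneg (sq_nonneg _)]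
            exact pow_le_pow_left₀ (norm_nonneg _) (hl x) 2
          exact (le_abs_self _).trans h4
        have h5 := fq_nonneg (hpt T s.1) (hbs T s.1) q
        have h6 : 0 ≤ 2 / 4 ^ q * fq q (tl μ T s.1) := by positivity
        have h7 := mul_le_mul_of_nonneg_left h3 hK0
        linarith
      · have h2 := V_le_one (ν := tl μ T s.1) hg1
        have h3 := fq_big (hpt T s.1) (hbs T s.1) q hc
        have h4 : 1 ≤ 2 / 4 ^ q * fq q (tl μ T s.1) := by
          rw [div_mul_eq_mul_div, le_div_iff₀ h40]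
          linarith
        have h5 : 0 ≤ K * l ^ 2 := by positivity
        linarith
  -- (c1)
  have hc1 : JJ μ T (fun t s => Cv (tl μ t s.1) g g) ≤ T * Cv μ g g := by
    have ht : It μ B T (fun t _ => T - t) (fun _ _ => -1) (fun _ _ _ => 0) := by
      refine It.time h (f := fun t => T - t) (f' := fun _ => -1) (C := T + 1) ?_ ?_
      · intro t h0 h1
        rw [abs_of_nonneg (by linarith), abs_neg, abs_one]
        constructor <;> linarith
      · intro t t' h0 h1 h2
        have : T - t' - (T - t) - (t' - t) * -1 = 0 := by ring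
        rw [this, abs_zero]
        positivity
    have hI := It.mul h ht hV
    have hD := dynkin h hT hI
    have h1 := JJ_mono h hT hI.bb (hV.bF.cmul (-1)) (fun t s h0 h1 _ => ?_)
    · rw [JJ_cmul h hT hV.bF] at h1
      generalize JJ μ T (fun t s => -1 * Cv (tl μ t s.1) g g +
        (T - t) * -∑ k, Cv (tl μ t s.1) (fun x => x k) g ^ 2 + ∑ k, 0 * σ t s k) = J at h1 hD
      simp only [sub_self, zero_mul, EE_const h hT, tl_zero h, sub_zero] at hD
      linarith
    · have h2 : 0 ≤ ∑ k, Cv (tl μ t s.1) (fun x => x k) g ^ 2 :=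
        Finset.sum_nonneg fun k _ => sq_nonneg _
      have h3 : 0 ≤ (T - t) * ∑ k, Cv (tl μ t s.1) (fun x => x k) g ^ 2 :=
        mul_nonneg (by linarith) h2
      simp only [zero_mul, Finset.sum_const_zero, add_zero]
      linarith
  -- (c2)
  have hbE : Bd B T (fun t s => Real.exp (-(1 / t0 * t)) * (Am (tl μ t s.1)).trace) :=
    (It.mul h (It.exp h (1 / t0)) hTA).bF
  have hc2 : JJ μ T (fun t s => Real.exp (-(1 / t0 * t)) * (Am (tl μ t s.1)).trace) ≤
      t0 * n := by
    have hI := It.mul h (It.exp (T := T) h (1 / t0)) hTA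
    have hD := dynkin h hT hI
    have h0 : 0 ≤ EE μ T (fun s => Real.exp (-(1 / t0 * T)) * (Am (tl μ T s.1)).trace) := by
      have h1 := EE_mono h hT (Bt.const 0) (hI.bF.bt hT.le) (fun s _ => ?_)
      · rwa [EE_const h hT] at h1
      · have := hpt T s.1
        exact mul_nonneg (Real.exp_pos _).le (Am_psd (hbs T s.1)).trace_nonneg
    have h1 := JJ_mono h hT hI.bb (hbE.cmul (-(1 / t0))) (fun t s h0 h1 _ => ?_)
    · rw [JJ_cmul h hT hbE] at h1
      simp only [tl_zero h, mul_zero, neg_zero, Real.exp_zero, one_mul] at hD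
      have h2 : (Am μ).trace ≤ n := by
        have h3 : ∀ k : Fin n, Am μ k k ≤ 1 := fun k => by
          have h4 := hcov (EuclideanSpace.single k 1)
          simpa [Am, EuclideanSpace.inner_single_right] using h4
        calc (Am μ).trace ≤ ∑ _k : Fin n, (1 : ℝ) := Finset.sum_le_sum fun k _ => h3 k
          _ = n := by simp
      have h5 : 1 / t0 * JJ μ T (fun t s => Real.exp (-(1 / t0 * t)) * (Am (tl μ t s.1)).trace) ≤
          n := by linarith
      have h6 := mul_le_mul_of_nonneg_left h5 ht0.le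
      rwa [← mul_assoc, mul_one_div_cancel ht0.ne', one_mul] at h6
    · have := hpt t s.1
      have h2 : 0 ≤ (Am (tl μ t s.1) * Am (tl μ t s.1)).trace := by
        have := (Am_psd (ν := tl μ t s.1) (hbs t s.1))
        have h3 : (Am (tl μ t s.1) * Am (tl μ t s.1)).PosSemidef := by
          have h4 := posSemidef_conjTranspose_mul_self (Am (tl μ t s.1))
          rwa [(Am_herm _).eq] at h4
        exact h3.trace_nonneg
      have h3 : 0 ≤ Real.exp (-(1 / t0 * t)) * (Am (tl μ t s.1) * Am (tl μ t s.1)).trace :=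
        mul_nonneg (Real.exp_pos _).le h2
      simp only [zero_mul, Finset.sum_const_zero, add_zero, trace_neg]
      linarith
  -- (b)
  have hN : Bd B T (fun t s => ∑ k, Cv (tl μ t s.1) (fun x => x k) g ^ 2) := by
    simpa using hV.bb.neg
  have hb : JJ μ T (fun t s => ∑ k, Cv (tl μ t s.1) (fun x => x k) g ^ 2) ≤
      4 * JJ μ T (fun t s => Cv (tl μ t s.1) g g) +
        (2 / (4 ^ q * t0) * JJ μ T (fun t s => fq q (tl μ t s.1)) +
        Real.exp 1 * JJ μ T (fun t s => Real.exp (-(1 / t0 * t)) * (Am (tl μ t s.1)).trace)) := by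
    have h1 := JJ_mono h hT hN ((hV.bF.cmul 4).add ((hfb.cmul (2 / (4 ^ q * t0))).add
      (hbE.cmul (Real.exp 1)))) (fun t s h0 h1 _ => ?_)
    · rwa [JJ_add h hT (hV.bF.cmul 4) ((hfb.cmul (2 / (4 ^ q * t0))).add (hbE.cmul (Real.exp 1))),
        JJ_add h hT (hfb.cmul (2 / (4 ^ q * t0))) (hbE.cmul (Real.exp 1)),
        JJ_cmul h hT hV.bF, JJ_cmul h hT hfb, JJ_cmul h hT hbE] at h1
    · have hp := hpt t s.1
      have hV0 := Cv_self_nonneg (hgB t s.1)
      have hV1 := V_le_one (ν := tl μ t s.1) hg1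
      have hf0 := fq_nonneg (hpt t s.1) (hbs t s.1) q
      have hA0 := (Am_psd (ν := tl μ t s.1) (hbs t s.1)).trace_nonneg
      have e1 : 0 ≤ 2 / (4 ^ q * t0) * fq q (tl μ t s.1) := by positivity
      have e2 : 0 ≤ Real.exp 1 * (Real.exp (-(1 / t0 * t)) * (Am (tl μ t s.1)).trace) := by
        positivity
      by_cases hc : CovL (tl μ t s.1) 4
      · have h2 := nsq_le (hbs t s.1) (hgB t s.1) (by norm_num) hc
        linarith
      · by_cases htt : t0 ≤ t
        · have htp : 0 < t := ht0.trans_le htt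
          have h2 := nsq_le (hbs t s.1) (hgB t s.1) (a := 1 / t) (by positivity) (fun w => by
            have h3 := hP _ t hp (hbs t s.1) htp (hul t s.1) (fun x => inner ℝ x w)
              (contDiff_id.inner ℝ contDiff_const)
            simpa only [fderiv_inner_norm, integral_const, probReal_univ, one_smul] using h3)
          have h3 := fq_big (hpt t s.1) (hbs t s.1) q hc
          have h4 : 1 / t * Cv (tl μ t s.1) g g ≤ 1 / t0 := by
            calc 1 / t * Cv (tl μ t s.1) g g ≤ 1 / t * 1 :=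
                  mul_le_mul_of_nonneg_left hV1 (by positivity)
              _ ≤ 1 / t0 := by
                  rw [mul_one]
                  exact one_div_le_one_div_of_le ht0 htt
          have h5 : 1 / t0 ≤ 2 / (4 ^ q * t0) * fq q (tl μ t s.1) := by
            rw [div_mul_eq_mul_div, div_le_div_iff₀ ht0 (by positivity)]
            nlinarith
          linarith
        · have h2 := nsq_le_tr (hbs t s.1) (hgB t s.1)
          have h3 : (Am (tl μ t s.1)).trace * Cv (tl μ t s.1) g g ≤ (Am (tl μ t s.1)).trace :=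
            mul_le_of_le_one_right hA0 hV1
          have h4 : (Am (tl μ t s.1)).trace ≤
              Real.exp 1 * (Real.exp (-(1 / t0 * t)) * (Am (tl μ t s.1)).trace) := by
            rw [← mul_assoc, ← Real.exp_add]
            refine le_mul_of_one_le_left hA0 ?_
            rw [Real.one_le_exp_iff]
            have : 1 / t0 * t ≤ 1 := by
              rw [one_div, inv_mul_le_iff₀ ht0]
              linarith
            linarith
          linarith
  -- (d)
  have hD := dynkin h hT hV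
  simp only [tl_zero h] at hD
  have hneg : JJ μ T (fun t s => -∑ k, Cv (tl μ t s.1) (fun x => x k) g ^ 2) =
      -JJ μ T (fun t s => ∑ k, Cv (tl μ t s.1) (fun x => x k) g ^ 2) := by
    have := JJ_cmul h hT hN (-1)
    simpa using this
  have hV0 : 0 ≤ Cv μ g g := Cv_self_nonneg (BM.cont h.bs hg.continuous)
  have e1 : 2 / (4 ^ q * t0) * JJ μ T (fun t s => fq q (tl μ t s.1)) ≤
      2 / (4 ^ q * t0) * (T * Real.exp (12 * C * q ^ 2 * T) * n) :=
    mul_le_mul_of_nonneg_left hJ (by positivity)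
  have e2 : Real.exp 1 * JJ μ T (fun t s => Real.exp (-(1 / t0 * t)) * (Am (tl μ t s.1)).trace) ≤
      3 * t0 * n := by
    calc _ ≤ Real.exp 1 * (t0 * n) := mul_le_mul_of_nonneg_left hc2 (Real.exp_pos _).le
      _ ≤ 3 * (t0 * n) := by
          refine mul_le_mul_of_nonneg_right ?_ (by positivity)
          have := Real.exp_one_lt_d9
          linarith
      _ = _ := by ring
  have e3 : 4 * JJ μ T (fun t s => Cv (tl μ t s.1) g g) ≤ Cv μ g g / 2 := by
    nlinarith
  linarith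

end Pool.Agent.Lib.MP_6d896a_gt.LG
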