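import Mathlib
import Pool.Agent.Lib.MP_6d896a_gt.LG.PA1

/-!
Project LG, piece PQ1: approximate resolvents of test functions at the level of the spectral gap.
-/

set_option autoImplicit false

namespace Pool.Agent.Lib.MP_6d896a_gt.LG

open MeasureTheory Filter Topology Set
open Pool.Agent.Lib.MP_6d896a_gt.UC Pool.Agent.Lib.MP_6d896a_gt.UC.UR
open scoped ENNReal NNReal ContDiff

variable {n : ℕ} {V f g h u v : Eu n → ℝ} {κ Λ c0 : ℝ}

/-- energy excess of a function at the level `l` -/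
noncomputable def eE (V : Eu n → ℝ) (l : ℝ) (g : Eu n → ℝ) : ℝ := UC.Df V g g / l - VarE V g

/-- `v` approximates `2 l (l - L)⁻¹ (g - E g)` up to the error `η` -/
structure Rsv (V : Eu n → ℝ) (l η : ℝ) (g v : Eu n → ℝ) : Prop where
  tt : UC.TT v
  r1 : UC.Ex V (fun x => LL V v x ^ 2) / l ^ 2 - UC.Df V v v / l ≤ eE V l g + η
  r2 : VarE V g - eE V l g / 2 - η ≤ UC.Df V v v / l
  r3 : UC.Ex V (fun x => LL V v x ^ 2) / l ^ 2 ≤ VarE V g + eE V l g + η
  r4 : UC.Df V (fun x => v x - g x) (fun x => v x - g x) / l ≤ eE V l g + η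
  r5 : UC.Ex V (fun x => (LL V v x / l + (g x - UC.Ex V g)) ^ 2) ≤ eE V l g / 2 + η
  r7 : UC.Df V v v / l ≤ VarE V g + η

private lemma quad3 {a b c : Eu n → ℝ} (hV : Continuous V) (ha : SqV V a) (hb : SqV V b)
    (hc : SqV V c) (p q s t u m : ℝ) :
    UC.Ex V (fun x => p * a x ^ 2 + q * b x ^ 2 + s * c x ^ 2 + t * (a x * b x) +
      u * (a x * c x) + m * (b x * c x)) =
    p * UC.Ex V (fun x => a x ^ 2) + q * UC.Ex V (fun x => b x ^ 2) +
      s * UC.Ex V (fun x => c x ^ 2) + t * UC.Ex V (fun x => a x * b x) +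
      u * UC.Ex V (fun x => a x * c x) + m * UC.Ex V (fun x => b x * c x) := by
  have I : ∀ (F : Eu n → ℝ) (k : ℝ), Integrable (fun x => F x * Real.exp (-V x)) →
      Integrable (fun x => (k * F x) * Real.exp (-V x)) := by
    intro F k hF
    have := hF.const_mul k
    simpa only [mul_assoc] using this
  have J : ∀ (F G : Eu n → ℝ), Integrable (fun x => F x * Real.exp (-V x)) →
      Integrable (fun x => G x * Real.exp (-V x)) →
      Integrable (fun x => (F x + G x) * Real.exp (-V x)) := by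
    intro F G hF hG
    refine (hF.add hG).congr (Eventually.of_forall fun x => ?_)
    simp only [Pi.add_apply]
    ring
  have i1 := I _ p ha.2
  have i2 := I _ q hb.2
  have i3 := I _ s hc.2
  have i4 := I _ t (ha.mul_int hV hb)
  have i5 := I _ u (ha.mul_int hV hc)
  have i6 := I _ m (hb.mul_int hV hc)
  have j2 := J _ _ i1 i2
  have j3 := J _ _ j2 i3
  have j4 := J _ _ j3 i4
  have j5 := J _ _ j4 i5
  rw [UC.Ex_add j5 i6, UC.Ex_add j4 i5, UC.Ex_add j3 i4, UC.Ex_add j2 i3, UC.Ex_add i1 i2,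
    Ex_const_mul, Ex_const_mul, Ex_const_mul, Ex_const_mul, Ex_const_mul, Ex_const_mul]

/-- the real inequalities -/
private lemma rsv_real {D N ww vv rr vw wr vr mv d1 s η : ℝ} (hs0 : 0 < s) (hs1 : s ≤ 1)
    (hsη : s * (4 * D + 20) ≤ η) (hD0 : 0 ≤ D)
    (hww : 0 ≤ ww) (hvv : 0 ≤ vv) (hrs : rr ≤ s ^ 2) (hmv : mv ^ 2 ≤ rr)
    (hwr : |wr| ≤ Real.sqrt ww * Real.sqrt rr) (hvr : |vr| ≤ Real.sqrt vv * Real.sqrt rr)
    (hvw0 : 0 ≤ vw) (hvw : vw ≤ Real.sqrt (vv - mv ^ 2) * Real.sqrt ww)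
    (hvm : 0 ≤ vv - mv ^ 2)
    (hd1 : d1 = D - ww + wr) (hd0 : 0 ≤ d1)
    (hN : N = (vv + ww + rr + 2 * vw - 2 * vr - 2 * wr) / 4)
    (hPv : vv - mv ^ 2 ≤ vw)
    (hPg : (ww + vv + rr - 2 * vw - 2 * wr + 2 * vr) / 4 - mv ^ 2 ≤ d1)
    (hX : 0 ≤ (ww + vv - 2 * vw)) :
    ww - vw ≤ (D - N) + η ∧ N - (D - N) / 2 - η ≤ vw ∧ ww ≤ N + (D - N) + η ∧
      d1 ≤ (D - N) + η ∧ (ww + vv + rr - 2 * vw + 2 * wr - 2 * vr) / 4 ≤ (D - N) / 2 + η ∧
      vw ≤ N + η := by
  have hsr : Real.sqrt rr ≤ s := by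
    rw [Real.sqrt_le_left hs0.le]
    exact hrs
  -- bound of `√ww`
  have hx0 := Real.sqrt_nonneg ww
  have hx2 := Real.sq_sqrt hww
  have hy0 := Real.sqrt_nonneg vv
  have hy2 := Real.sq_sqrt hvv
  set x := Real.sqrt ww with hx
  set y := Real.sqrt vv with hy
  have hwr1 : |wr| ≤ x * s := hwr.trans (mul_le_mul_of_nonneg_left hsr hx0)
  have hvr1 : |vr| ≤ y * s := hvr.trans (mul_le_mul_of_nonneg_left hsr hy0)
  obtain ⟨hwr2, hwr3⟩ := abs_le.mp hwr1
  obtain ⟨hvr2, hvr3⟩ := abs_le.mp hvr1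
  have hxD : x ≤ D + 2 := by
    by_contra hc
    push Not at hc
    have h1 : x ^ 2 ≤ D + x * s := by rw [hx2]; linarith
    have h2 : x * s ≤ x := mul_le_of_le_one_right hx0 hs1
    have h3 : (D + 2) * x ≤ x * x := mul_le_mul_of_nonneg_right hc.le hx0
    have h4 : D * 1 ≤ D * x := mul_le_mul_of_nonneg_left (by linarith) hD0
    have h5 : x ^ 2 = x * x := sq x
    linarith
  have hvw' : vw ≤ ww := by
    have h1 : vw ^ 2 ≤ (vv - mv ^ 2) * ww := by
      have := pow_le_pow_left₀ hvw0 hvw 2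
      rwa [mul_pow, Real.sq_sqrt hvm, Real.sq_sqrt hww] at this
    have h2 : vw ^ 2 ≤ vw * ww := h1.trans (mul_le_mul_of_nonneg_right hPv hww)
    by_contra hc
    push Not at hc
    have h3 : 0 < vw := lt_of_le_of_lt hww hc
    have h4 : vw * ww < vw * vw := mul_lt_mul_of_pos_left hc h3
    have h5 : vw ^ 2 = vw * vw := sq vw
    linarith
  have hss : s ^ 2 ≤ s := by
    have h1 := mul_le_mul_of_nonneg_left hs1 hs0.le
    have h2 : s ^ 2 = s * s := sq s
    linarith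
  have hyD : y ≤ D + 3 := by
    by_contra hc
    push Not at hc
    have h1 : y ^ 2 ≤ x ^ 2 + 1 := by rw [hx2, hy2]; linarith
    have h2 : x ^ 2 ≤ (D + 2) ^ 2 := pow_le_pow_left₀ hx0 hxD 2
    have h3 : (D + 3) ^ 2 < y ^ 2 := pow_lt_pow_left₀ hc (by linarith) two_ne_zero
    have h4 : (D + 3) ^ 2 = (D + 2) ^ 2 + 2 * D + 5 := by ring
    linarith
  have e1 : x * s ≤ (D + 2) * s := mul_le_mul_of_nonneg_right hxD hs0.le
  have e2 : y * s ≤ (D + 3) * s := mul_le_mul_of_nonneg_right hyD hs0.le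
  have e3 : 0 ≤ s * D := mul_nonneg hs0.le hD0
  have e4 : (D + 2) * s = s * D + 2 * s := by ring
  have e5 : (D + 3) * s = s * D + 3 * s := by ring
  have e6 : s * (4 * D + 20) = 4 * (s * D) + 20 * s := by ring
  rw [e4] at e1
  rw [e5] at e2
  rw [e6] at hsη
  have hmv0 := sq_nonneg mv
  refine ⟨?_, ?_, ?_, ?_, ?_, ?_⟩ <;> linarith

theorem SP.resolvent (hs : SP V κ Λ c0) {l : ℝ} (hl : 0 < l) (hP : HP V (1 / l)) (hg : UC.TT g)
    {η : ℝ} (hη : 0 < η) : ∃ v, Rsv V l η g v := by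
  have hV := hs.cont
  set D := UC.Df V g g / l with hD
  have hD0 : 0 ≤ D := div_nonneg (Df_nonneg V g) hl.le
  obtain ⟨s, hs0, hs1, hsη⟩ : ∃ s : ℝ, 0 < s ∧ s ≤ 1 ∧ s * (4 * D + 20) ≤ η := by
    refine ⟨min 1 (η / (4 * D + 20)), lt_min one_pos (by positivity), min_le_left _ _, ?_⟩
    calc min 1 (η / (4 * D + 20)) * (4 * D + 20) ≤ η / (4 * D + 20) * (4 * D + 20) :=
          mul_le_mul_of_nonneg_right (min_le_right _ _) (by positivity)
      _ = η := by field_simp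
  have sg : SqV V g := SqV.of_TT hV hg
  set G : Eu n → ℝ := fun x => g x - UC.Ex V g with hG
  have sG : SqV V G := sg.sub hV (hs.const _)
  obtain ⟨v, hv, hres⟩ := esa_sq hs.cd hl (sG.cmul (2 * l)) (pow_pos (mul_pos hl hs0) 2)
  refine ⟨v, ?_⟩
  have sv : SqV V v := SqV.of_TT hV hv
  have sL : SqV V (LL V v) := hs.LL_sq hv
  set w : Eu n → ℝ := fun x => -(1 / l) * LL V v x with hw
  have sw : SqV V w := sL.cmul _
  set r : Eu n → ℝ := fun x => (w x - 2 * G x) + v x with hr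
  have sr : SqV V r := (sw.sub hV (sG.cmul 2)).add hV sv
  have hGe : ∀ x, G x = (v x + w x - r x) / 2 := by
    intro x; rw [hr]; ring
  -- means
  have hL0 : UC.Ex V (LL V v) = 0 := Ex_LL hs.cd1 hv
  have hw0 : UC.Ex V w = 0 := by
    rw [hw, Ex_const_mul, hL0, mul_zero]
  have hG0 : UC.Ex V G = 0 := by
    rw [hG, hs.Ex_sub sg (hs.const _), hs.Ex_const, sub_self]
  have hr0 : UC.Ex V r = UC.Ex V v := by
    rw [hr, hs.Ex_add (sw.sub hV (sG.cmul 2)) sv, hs.Ex_sub sw (sG.cmul 2), Ex_const_mul V G 2, hw0, hG0]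
    ring
  -- the Gram matrix
  obtain ⟨ww, hww⟩ : ∃ t, t = UC.Ex V (fun x => w x ^ 2) := ⟨_, rfl⟩
  obtain ⟨vv, hvv⟩ : ∃ t, t = UC.Ex V (fun x => v x ^ 2) := ⟨_, rfl⟩
  obtain ⟨rr, hrr⟩ : ∃ t, t = UC.Ex V (fun x => r x ^ 2) := ⟨_, rfl⟩
  obtain ⟨vw, hvw⟩ : ∃ t, t = UC.Ex V (fun x => v x * w x) := ⟨_, rfl⟩
  obtain ⟨vr, hvr⟩ : ∃ t, t = UC.Ex V (fun x => v x * r x) := ⟨_, rfl⟩
  obtain ⟨wr, hwr⟩ : ∃ t, t = UC.Ex V (fun x => w x * r x) := ⟨_, rfl⟩
  obtain ⟨mv, hmv⟩ : ∃ t, t = UC.Ex V v := ⟨_, rfl⟩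
  have hc : UC.Ex V (fun x => LL V v x ^ 2) / l ^ 2 = ww := by
    have e : (fun x => w x ^ 2) = fun x => (1 / l) ^ 2 * LL V v x ^ 2 := by
      funext x; rw [hw]; ring
    rw [hww, e, Ex_const_mul]
    field_simp
  have hb : UC.Df V v v / l = vw := by
    have h1 := green hs.cd1 hv hv
    have e : (fun x => v x * w x) = fun x => (-(1 / l)) * (LL V v x * v x) := by
      funext x; rw [hw]; ring
    rw [hvw, e, Ex_const_mul, h1]
    field_simp
  have hN : VarE V g = (vv + ww + rr + 2 * vw - 2 * vr - 2 * wr) / 4 := by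
    rw [← hs.VarE_eq sg]
    have e : (fun x => (g x - UC.Ex V g) ^ 2) = fun x => (1 / 4) * v x ^ 2 + (1 / 4) * w x ^ 2 +
        (1 / 4) * r x ^ 2 + (1 / 2) * (v x * w x) + (-(1 / 2)) * (v x * r x) +
        (-(1 / 2)) * (w x * r x) := by
      funext x
      have := hGe x
      rw [show g x - UC.Ex V g = G x from rfl, this]
      ring
    rw [e, quad3 hV sv sw sr, ← hvv, ← hww, ← hrr, ← hvw, ← hvr, ← hwr]
    ring
  have hgv : UC.Df V g v / l = (vw + ww - wr) / 2 := by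
    have h1 := green hs.cd1 hv hg
    have e : (fun x => LL V v x * g x) = fun x => (-l) * (w x * G x) +
        UC.Ex V g * LL V v x := by
      funext x
      rw [hw, hG]
      field_simp
      ring
    have i1 : Integrable (fun x => ((-l) * (w x * G x)) * Real.exp (-V x)) := by
      have := (sw.mul_int hV sG).const_mul (-l)
      simpa only [mul_assoc] using this
    have e2 : (fun x => w x * G x) = fun x => 0 * v x ^ 2 + (1 / 2) * w x ^ 2 +
        0 * r x ^ 2 + (1 / 2) * (v x * w x) + 0 * (v x * r x) +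
        (-(1 / 2)) * (w x * r x) := by
      funext x
      rw [hGe x]
      ring
    rw [e, UC.Ex_add i1 ((sL.cmul _).int hs), Ex_const_mul, Ex_const_mul, hL0, e2,
      quad3 hV sv sw sr, ← hvv, ← hww, ← hrr, ← hvw, ← hvr, ← hwr, Df_comm] at h1
    field_simp
    linarith
  have hd1 : UC.Df V (fun x => v x - g x) (fun x => v x - g x) / l = D - ww + wr := by
    rw [Df_sub hV hv hg, Df_comm V v g, add_div, sub_div, mul_div_assoc, hgv, hb, ← hD]
    ring
  have hvar : VarE V (fun x => v x - g x) =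
      (ww + vv + rr - 2 * vw - 2 * wr + 2 * vr) / 4 - mv ^ 2 := by
    rw [← hs.VarE_eq (sv.sub hV sg), hs.Ex_sub sv sg, ← hmv]
    have sm := hs.const mv
    have e : (fun x => (v x - g x - (mv - UC.Ex V g)) ^ 2) = fun x =>
        ((1 / 4) * v x ^ 2 + (1 / 4) * w x ^ 2 +
        (1 / 4) * r x ^ 2 + (-(1 / 2)) * (v x * w x) + (1 / 2) * (v x * r x) +
        (-(1 / 2)) * (w x * r x)) + (2 * mv * G x - 2 * mv * v x + mv ^ 2) := by
      funext x
      have h1 : g x = UC.Ex V g + (v x + w x - r x) / 2 := by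
        have := hGe x
        rw [hG] at this
        linarith
      rw [hGe x, h1]
      ring
    have sq : SqV V (fun x => 2 * mv * G x - 2 * mv * v x + mv ^ 2) :=
      ((sG.cmul (2 * mv)).sub hV (sv.cmul (2 * mv))).add hV (hs.const _)
    have i0 : Integrable (fun x => ((1 / 4) * v x ^ 2 + (1 / 4) * w x ^ 2 +
        (1 / 4) * r x ^ 2 + (-(1 / 2)) * (v x * w x) + (1 / 2) * (v x * r x) +
        (-(1 / 2)) * (w x * r x)) * Real.exp (-V x)) := by
      have sq2 : SqV V (fun x => (1 / 2) * ((w x - v x) - r x)) :=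
        ((sw.sub hV sv).sub hV sr).cmul _
      refine sq2.2.congr (Eventually.of_forall fun x => ?_)
      ring
    rw [e, UC.Ex_add i0 (sq.int hs), quad3 hV sv sw sr,
      hs.Ex_add ((sG.cmul (2 * mv)).sub hV (sv.cmul (2 * mv))) (hs.const _),
      hs.Ex_sub (sG.cmul (2 * mv)) (sv.cmul (2 * mv)), Ex_const_mul, Ex_const_mul, hG0,
      hs.Ex_const, ← hvv, ← hww, ← hrr, ← hvw, ← hvr, ← hwr, ← hmv]
    ring
  have h5 : UC.Ex V (fun x => (LL V v x / l + (g x - UC.Ex V g)) ^ 2) =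
      (ww + vv + rr - 2 * vw + 2 * wr - 2 * vr) / 4 := by
    have e : (fun x => (LL V v x / l + (g x - UC.Ex V g)) ^ 2) = fun x =>
        (1 / 4) * v x ^ 2 + (1 / 4) * w x ^ 2 +
        (1 / 4) * r x ^ 2 + (-(1 / 2)) * (v x * w x) + (-(1 / 2)) * (v x * r x) +
        (1 / 2) * (w x * r x) := by
      funext x
      have h1 : LL V v x / l = - w x := by rw [hw]; ring
      rw [h1, show g x - UC.Ex V g = G x from rfl, hGe x]
      ring
    rw [e, quad3 hV sv sw sr, ← hvv, ← hww, ← hrr, ← hvw, ← hvr, ← hwr]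
    ring
  have hvvar : VarE V v = vv - mv ^ 2 := by rw [hvv, hmv]; rfl
  have hP1 : vv - mv ^ 2 ≤ vw := by
    have := hP v hv
    rw [one_div, inv_mul_eq_div, ← hvv, ← hmv, hb] at this
    exact this
  have hP2 := hP _ (hv.sub hg)
  have hP3 : (ww + vv + rr - 2 * vw - 2 * wr + 2 * vr) / 4 - mv ^ 2 ≤ D - ww + wr := by
    rw [← hvar, ← hd1]
    rw [one_div, inv_mul_eq_div] at hP2
    exact hP2
  have hrs : rr ≤ s ^ 2 := by
    have e : (fun x => r x ^ 2) = fun x => (1 / l) ^ 2 * (l * v x - LL V v x - 2 * l * G x) ^ 2 := by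
      funext x
      rw [hr, hw]
      field_simp
      ring
    rw [hrr, e, Ex_const_mul]
    calc (1 / l) ^ 2 * UC.Ex V (fun x => (l * v x - LL V v x - 2 * l * G x) ^ 2)
        ≤ (1 / l) ^ 2 * (l * s) ^ 2 := mul_le_mul_of_nonneg_left hres (by positivity)
      _ = s ^ 2 := by field_simp
  have hmr : mv ^ 2 ≤ rr := by
    have h1 := hs.VarE_nonneg sr
    unfold VarE at h1
    rw [hr0, ← hmv, ← hrr] at h1
    linarith
  have hd0 : 0 ≤ D - ww + wr := by
    rw [← hd1]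
    exact div_nonneg (Df_nonneg _ _) hl.le
  have hcs : vw ≤ Real.sqrt (vv - mv ^ 2) * Real.sqrt ww := by
    have h1 := hs.cov_le sv sw hw0
    rw [hvvar, ← hvw, ← hww] at h1
    exact (le_abs_self _).trans h1
  have hX : 0 ≤ ww + vv - 2 * vw := by
    have h1 : 0 ≤ UC.Ex V (fun x => (v x - w x) ^ 2) := Ex_nonneg fun x => sq_nonneg _
    have e : (fun x => (v x - w x) ^ 2) = fun x => 1 * v x ^ 2 + 1 * w x ^ 2 +
        0 * r x ^ 2 + (-2) * (v x * w x) + 0 * (v x * r x) + 0 * (w x * r x) := by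
      funext x; ring
    rw [e, quad3 hV sv sw sr, ← hvv, ← hww, ← hrr, ← hvw, ← hvr, ← hwr] at h1
    linarith
  have key := rsv_real (D := D) (N := VarE V g) (ww := ww) (vv := vv) (rr := rr) (vw := vw)
    (wr := wr) (vr := vr) (mv := mv) (d1 := D - ww + wr) (s := s) (η := η) hs0 hs1 hsη hD0
    (by rw [hww]; exact Ex_nonneg fun x => sq_nonneg _)
    (by rw [hvv]; exact Ex_nonneg fun x => sq_nonneg _)
    hrs hmr
    (by rw [hwr, hww, hrr]; exact sw.cs hV sr)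
    (by rw [hvr, hvv, hrr]; exact sv.cs hV sr)
    (by rw [← hb]; exact div_nonneg (Df_nonneg _ _) hl.le) hcs
    (by rw [← hvvar]; exact hs.VarE_nonneg sv) rfl hd0 hN hP1 hP3 hX
  obtain ⟨k1, k2, k3, k4, k5, k6⟩ := key
  have he : eE V l g = D - VarE V g := rfl
  refine ⟨hv, ?_, ?_, ?_, ?_, ?_, ?_⟩
  · rw [hc, hb, he]; exact k1
  · rw [hb, he]; exact k2
  · rw [hc, he]; exact k3
  · rw [hd1, he]; exact k4
  · rw [h5, he]; exact k5
  · rw [hb]; exact k6

end Pool.Agent.Lib.MP_6d896a_gt.LG
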