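import Mathlib
import Pool.Agent.Lib.MP_6d896a_gt.LG.PQ1
import Pool.Agent.Lib.MP_6d896a_gt.LG.PQDefs

/-!
Project LG, piece PQ2: means of iterated gradients of nearly extremal functions.
-/

set_option autoImplicit false

namespace Pool.Agent.Lib.MP_6d896a_gt.LG

open MeasureTheory Filter Topology Set
open Pool.Agent.Lib.MP_6d896a_gt.UC Pool.Agent.Lib.MP_6d896a_gt.UC.UR
open scoped ENNReal NNReal ContDiff

variable {n : ℕ} {V f g h u v : Eu n → ℝ} {κ Λ c0 S Q l η : ℝ}

/-- weighted thin shell bound for quadratic forms (the same as `TSq`) -/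
def WLe (V : Eu n → ℝ) (Q : ℝ) : Prop :=
  ∀ B : Fin n → Fin n → ℝ, (∀ i j, B i j = B j i) →
    VarE V (fun x => ∑ i, ∑ j, B i j * (xc V i x * xc V j x)) ≤ Q * ∑ i, ∑ j, B i j ^ 2

/-- the squared mean of the gradient -/
noncomputable def Ab (V : Eu n → ℝ) (l : ℝ) (v : Eu n → ℝ) : ℝ :=
  (∑ i, UC.Ex V (UC.pd i v) ^ 2) / l

/-- the normalised gradient of a family -/
noncomputable def G1 {J : Type} (l : ℝ) (h : J → Eu n → ℝ) (p : Fin n × J) (x : Eu n) : ℝ :=
  (1 / Real.sqrt l) * UC.pd p.1 (h p.2) x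

/-- total variance, energy excess, squared mean -/
noncomputable def nT {J : Type} [Fintype J] (V : Eu n → ℝ) (g : J → Eu n → ℝ) : ℝ :=
  ∑ a, VarE V (g a)

noncomputable def eT {J : Type} [Fintype J] (V : Eu n → ℝ) (l : ℝ) (g : J → Eu n → ℝ) : ℝ :=
  ∑ a, eE V l (g a)

noncomputable def aT {J : Type} [Fintype J] (V : Eu n → ℝ) (l : ℝ) (g : J → Eu n → ℝ) : ℝ :=
  ∑ a, Ab V l (g a)

noncomputable def dT {J : Type} [Fintype J] (V : Eu n → ℝ) (l : ℝ) (g : J → Eu n → ℝ) : ℝ :=
  ∑ a, UC.Df V (g a) (g a) / l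

/-- approximate resolvents of families -/
structure FR {J : Type} [Fintype J] (V : Eu n → ℝ) (l η : ℝ) (g v : J → Eu n → ℝ) : Prop where
  tt : ∀ a, UC.TT (v a)
  r1 : ∑ a, (UC.Ex V (fun x => LL V (v a) x ^ 2) / l ^ 2 - UC.Df V (v a) (v a) / l) ≤
    eT V l g + η
  r2 : nT V g - eT V l g / 2 - η ≤ dT V l v
  r3 : ∑ a, UC.Ex V (fun x => LL V (v a) x ^ 2) / l ^ 2 ≤ nT V g + eT V l g + η
  r4 : dT V l (fun a x => v a x - g a x) ≤ eT V l g + η
  r5 : ∑ a, UC.Ex V (fun x => (LL V (v a) x / l + (g a x - UC.Ex V (g a))) ^ 2) ≤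
    eT V l g / 2 + η
  r7 : dT V l v ≤ nT V g + η

theorem SP.resolvents {J : Type} [Fintype J] (hs : SP V κ Λ c0) (hl : 0 < l)
    (hP : HP V (1 / l)) {g : J → Eu n → ℝ} (hg : ∀ a, UC.TT (g a)) (hη : 0 < η) :
    ∃ v : J → Eu n → ℝ, FR V l η g v := by
  have hη' : 0 < η / (Fintype.card J + 1) := by positivity
  choose v hv using fun a => hs.resolvent hl hP (hg a) hη'
  have hsum : ∑ _a : J, η / (Fintype.card J + 1) ≤ η := by
    rw [Finset.sum_const, Finset.card_univ, nsmul_eq_mul, ← mul_div_assoc,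
      div_le_iff₀ (by positivity)]
    nlinarith
  refine ⟨v, fun a => (hv a).tt, ?_, ?_, ?_, ?_, ?_, ?_⟩
  · have h := Finset.sum_le_sum fun a (_ : a ∈ Finset.univ) => (hv a).r1
    rw [Finset.sum_add_distrib] at h
    exact h.trans (add_le_add le_rfl hsum)
  · have h := Finset.sum_le_sum fun a (_ : a ∈ Finset.univ) => (hv a).r2
    rw [Finset.sum_sub_distrib, Finset.sum_sub_distrib, ← Finset.sum_div] at h
    unfold nT eT dT
    linarith
  · have h := Finset.sum_le_sum fun a (_ : a ∈ Finset.univ) => (hv a).r3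
    rw [Finset.sum_add_distrib, Finset.sum_add_distrib] at h
    exact h.trans (add_le_add le_rfl hsum)
  · have h := Finset.sum_le_sum fun a (_ : a ∈ Finset.univ) => (hv a).r4
    rw [Finset.sum_add_distrib] at h
    exact h.trans (add_le_add le_rfl hsum)
  · have h := Finset.sum_le_sum fun a (_ : a ∈ Finset.univ) => (hv a).r5
    rw [Finset.sum_add_distrib, ← Finset.sum_div] at h
    exact h.trans (add_le_add le_rfl hsum)
  · have h := Finset.sum_le_sum fun a (_ : a ∈ Finset.univ) => (hv a).r7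
    rw [Finset.sum_add_distrib] at h
    exact h.trans (add_le_add le_rfl hsum)

/-! ### integration by parts -/

private lemma TT.cd1 (hf : UC.TT f) : ContDiff ℝ 1 f := hf.cd.of_le (by exact_mod_cast le_top)

private lemma green2 (hV : ContDiff ℝ 1 V) (hf : ContDiff ℝ 1 f) (hg : UC.TT g) :
    UC.Ex V (fun x => f x * LL V g x) = - ∑ j, UC.Ex V (fun x => UC.pd j f x * UC.pd j g x) := by
  have hc : ∀ j, Continuous (UC.pd j V) := fun j =>
    (hV.continuous_fderiv (by simp)).clm_apply continuous_const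
  have h1 : ∀ j, UC.Ex V (fun x => UC.pd j f x * UC.pd j g x) =
      - UC.Ex V (fun x => f x * (UC.pd j (UC.pd j g) x - UC.pd j V x * UC.pd j g x)) := fun j =>
    ibp hV hf (TT.cd1 (hg.pd j)) (hg.pd j).cs j
  have hi : ∀ j ∈ (Finset.univ : Finset (Fin n)), Integrable (fun x =>
      (f x * (UC.pd j (UC.pd j g) x - UC.pd j V x * UC.pd j g x)) * Real.exp (-V x)) := by
    intro j _
    refine int_cs hV.continuous (hf.continuous.mul
      (((hg.pd j).pd j).continuous.sub ((hc j).mul (hg.pd j).continuous))) ?_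
    exact (((hg.pd j).pd j).cs.sub (hg.pd j).cs.mul_left).mul_left
  have h2 := UC.Ex_sum (V := V) Finset.univ hi
  have e : (fun x => f x * LL V g x) = fun x =>
      ∑ j, f x * (UC.pd j (UC.pd j g) x - UC.pd j V x * UC.pd j g x) := by
    funext x
    rw [← Finset.mul_sum, Finset.sum_sub_distrib]
    rfl
  rw [e, h2, ← Finset.sum_neg_distrib]
  refine Finset.sum_congr rfl fun j _ => ?_
  rw [h1 j, neg_neg]

private lemma pd_coord (i j : Fin n) (x : Eu n) :
    UC.pd j (fun x : Eu n => x i) x = if j = i then 1 else 0 := by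
  unfold UC.pd
  have h : HasFDerivAt (fun x : Eu n => x i) (EuclideanSpace.proj i : Eu n →L[ℝ] ℝ) x :=
    (EuclideanSpace.proj i : Eu n →L[ℝ] ℝ).hasFDerivAt
  rw [h.fderiv]
  show (ej j : Eu n) i = _
  unfold ej
  simp [eq_comm]

private lemma xc_cd (i : Fin n) : ContDiff ℝ 1 (xc V i) := by
  unfold xc; fun_prop

private lemma pd_xc (i j : Fin n) (x : Eu n) : UC.pd j (xc V i) x = if j = i then 1 else 0 := by
  have hd : Differentiable ℝ (fun x : Eu n => x i) := by fun_prop
  have h := pd_sub hd (differentiable_const (UC.Ex V (fun x => x i))) j x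
  have e : (fun x : Eu n => x i - UC.Ex V (fun x => x i)) = xc V i := rfl
  rw [e] at h
  rw [h, pd_coord]
  have : UC.pd j (fun _ : Eu n => UC.Ex V (fun x => x i)) x = 0 := by
    unfold UC.pd
    simp
  rw [this, sub_zero]

private lemma ibp1 (hs : SP V κ Λ c0) (hv : UC.TT v) (i : Fin n) :
    UC.Ex V (UC.pd i v) = - UC.Ex V (fun x => xc V i x * LL V v x) := by
  rw [green2 hs.cd1 (xc_cd i) hv, neg_neg]
  rw [Finset.sum_eq_single i]
  · congr 1
    funext x
    rw [pd_xc, if_pos rfl, one_mul]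
  · intro j _ hj
    have : (fun x => UC.pd j (xc V i) x * UC.pd j v x) = fun _ => (0 : ℝ) * 0 := by
      funext x
      rw [pd_xc, if_neg hj, zero_mul, zero_mul]
    rw [this, Ex_const_mul, zero_mul]
  · intro h
    exact absurd (Finset.mem_univ i) h

private lemma ibp2 (hs : SP V κ Λ c0) (hv : UC.TT v) (i j : Fin n) :
    UC.Ex V (fun x => xc V i x * UC.pd j v x) + UC.Ex V (fun x => xc V j x * UC.pd i v x) =
      - UC.Ex V (fun x => (xc V i x * xc V j x) * LL V v x) := by
  have hxd : ∀ i, Differentiable ℝ (xc V i) := fun i => (xc_cd i).differentiable (by simp)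
  rw [green2 hs.cd1 ((xc_cd i).mul (xc_cd j)) hv, neg_neg]
  have hV := hs.cont
  have I : ∀ i j, Integrable (fun x => (xc V i x * UC.pd j v x) * Real.exp (-V x)) := fun i j =>
    int_cs hV ((xc_cd i).continuous.mul (hv.pd j).continuous) (hv.pd j).cs.mul_left
  have h1 : ∀ k, UC.Ex V (fun x => UC.pd k (fun x => xc V i x * xc V j x) x * UC.pd k v x) =
      (if k = i then UC.Ex V (fun x => xc V j x * UC.pd i v x) else 0) +
      (if k = j then UC.Ex V (fun x => xc V i x * UC.pd j v x) else 0) := by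
    intro k
    have e : (fun x => UC.pd k (fun x => xc V i x * xc V j x) x * UC.pd k v x) = fun x =>
        (if k = i then (1 : ℝ) else 0) * (xc V j x * UC.pd k v x) +
        (if k = j then (1 : ℝ) else 0) * (xc V i x * UC.pd k v x) := by
      funext x
      rw [pd_mul (hxd i) (hxd j), pd_xc, pd_xc]
      ring
    have i1 : Integrable (fun x => ((if k = i then (1 : ℝ) else 0) *
        (xc V j x * UC.pd k v x)) * Real.exp (-V x)) := by
      have := (I j k).const_mul (if k = i then (1 : ℝ) else 0)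
      simpa only [mul_assoc] using this
    have i2 : Integrable (fun x => ((if k = j then (1 : ℝ) else 0) *
        (xc V i x * UC.pd k v x)) * Real.exp (-V x)) := by
      have := (I i k).const_mul (if k = j then (1 : ℝ) else 0)
      simpa only [mul_assoc] using this
    rw [e, UC.Ex_add i1 i2, Ex_const_mul, Ex_const_mul]
    congr 1
    · by_cases hk : k = i
      · rw [if_pos hk, if_pos hk, one_mul, hk]
      · rw [if_neg hk, if_neg hk, zero_mul]
    · by_cases hk : k = j
      · rw [if_pos hk, if_pos hk, one_mul, hk]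
      · rw [if_neg hk, if_neg hk, zero_mul]
  rw [Finset.sum_congr rfl fun k _ => h1 k, Finset.sum_add_distrib, Finset.sum_ite_eq',
    Finset.sum_ite_eq', if_pos (Finset.mem_univ i), if_pos (Finset.mem_univ j)]
  ring

/-! ### square integrability of polynomials -/

private lemma xc_sq (hs : SP V κ Λ c0) (i : Fin n) : SqV V (xc V i) := by
  have h := (hs.sq_inner (EuclideanSpace.single i (1 : ℝ))).sub hs.cont
    (hs.const (UC.Ex V (fun x => x i)))
  have e : (fun x : Eu n => inner ℝ x (EuclideanSpace.single i (1 : ℝ)) -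
      UC.Ex V (fun x => x i)) = xc V i := by
    funext x
    unfold xc
    congr 1
    simp [EuclideanSpace.inner_single_right]
  rwa [e] at h

private lemma xc_abs (i : Fin n) : ∃ C : ℝ, 0 ≤ C ∧ ∀ x, |xc V i x| ≤ C * (1 + ‖x‖) := by
  refine ⟨1 + |UC.Ex V (fun x => x i)|, by positivity, fun x => ?_⟩
  have h1 : |x i| ≤ ‖x‖ := by
    have := EuclideanSpace.norm_sq_eq x
    have h2 : ‖x i‖ ^ 2 ≤ ∑ j, ‖x j‖ ^ 2 :=
      Finset.single_le_sum (f := fun j => ‖x j‖ ^ 2) (fun j _ => sq_nonneg _) (Finset.mem_univ i)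
    rw [← this, Real.norm_eq_abs] at h2
    exact (sq_le_sq₀ (abs_nonneg _) (norm_nonneg _)).mp h2
  unfold xc
  calc |x i - UC.Ex V (fun x => x i)| ≤ |x i| + |UC.Ex V (fun x => x i)| := abs_sub _ _
    _ ≤ ‖x‖ + |UC.Ex V (fun x => x i)| := by linarith
    _ ≤ (1 + |UC.Ex V (fun x => x i)|) * (1 + ‖x‖) := by
        nlinarith [abs_nonneg (UC.Ex V (fun x => x i)), norm_nonneg x,
          mul_nonneg (abs_nonneg (UC.Ex V (fun x => x i))) (norm_nonneg x)]

private lemma xcxc_sq (hs : SP V κ Λ c0) (i j : Fin n) :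
    SqV V (fun x => xc V i x * xc V j x) := by
  obtain ⟨C, hC0, hC⟩ := xc_abs (V := V) i
  obtain ⟨C', hC0', hC'⟩ := xc_abs (V := V) j
  have hc : Continuous fun x => xc V i x * xc V j x :=
    (xc_cd i).continuous.mul (xc_cd j).continuous
  refine ⟨hc, ?_⟩
  refine (hs.int4.const_mul ((C * C') ^ 2)).mono' ?_ (Eventually.of_forall fun x => ?_)
  · exact ((hc.pow 2).mul (Real.continuous_exp.comp hs.cont.neg)).aestronglyMeasurable
  · rw [Real.norm_of_nonneg (by positivity), ← mul_assoc]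
    refine mul_le_mul_of_nonneg_right ?_ (Real.exp_pos _).le
    have h1 : |xc V i x * xc V j x| ≤ (C * (1 + ‖x‖)) * (C' * (1 + ‖x‖)) := by
      rw [abs_mul]
      exact mul_le_mul (hC x) (hC' x) (abs_nonneg _) (by positivity)
    calc (xc V i x * xc V j x) ^ 2 = |xc V i x * xc V j x| ^ 2 := (sq_abs _).symm
      _ ≤ ((C * (1 + ‖x‖)) * (C' * (1 + ‖x‖))) ^ 2 := pow_le_pow_left₀ (abs_nonneg _) h1 2
      _ = (C * C') ^ 2 * (1 + ‖x‖) ^ 4 := by ring

private lemma SqV.sum {ι : Type*} (s : Finset ι) (hs : SP V κ Λ c0) {F : ι → Eu n → ℝ}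
    (h : ∀ k ∈ s, SqV V (F k)) : SqV V (fun x => ∑ k ∈ s, F k x) := by
  classical
  induction s using Finset.induction_on with
  | empty => simpa using hs.const 0
  | insert a s ha ih =>
    simp only [Finset.sum_insert ha]
    exact (h a (Finset.mem_insert_self a s)).add hs.cont
      (ih fun k hk => h k (Finset.mem_insert_of_mem hk))

/-! ### Bessel inequalities -/

private lemma real_bessel {T S' E X : ℝ} (hS : 0 ≤ S') (hE : 0 ≤ E)
    (hX : X ≤ S' * T) (h : T ≤ Real.sqrt X * Real.sqrt E) (hT : 0 ≤ T) : T ≤ S' * E := by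
  rcases hT.eq_or_lt with h0 | h0
  · rw [← h0]; positivity
  · have hX0 : 0 ≤ X := by
      by_contra hc
      push Not at hc
      rw [Real.sqrt_eq_zero_of_nonpos hc.le, zero_mul] at h
      linarith
    have h1 : T ^ 2 ≤ X * E := by
      have := pow_le_pow_left₀ hT h 2
      rwa [mul_pow, Real.sq_sqrt hX0, Real.sq_sqrt hE] at this
    have h2 : T ^ 2 ≤ S' * T * E := h1.trans (mul_le_mul_of_nonneg_right hX hE)
    nlinarith

/-- Bessel's inequality for the coordinates -/
private lemma bess1 (hs : SP V κ Λ c0) (hS : 0 ≤ S) (hc : CovLe V S) {φ : Eu n → ℝ}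
    (hφ : SqV V φ) :
    ∑ i, UC.Ex V (fun x => xc V i x * φ x) ^ 2 ≤ S * UC.Ex V (fun x => φ x ^ 2) := by
  set b : Fin n → ℝ := fun i => UC.Ex V (fun x => xc V i x * φ x) with hb
  set w : Eu n := WithLp.toLp 2 b with hw
  have hsum : ∀ x, ∑ i, b i * xc V i x =
      inner ℝ x w - UC.Ex V (fun x => inner ℝ x w) := by
    intro x
    have e1 : ∀ x : Eu n, (inner ℝ x w : ℝ) = ∑ i, b i * x i := by
      intro x
      rw [PiLp.inner_apply]
      refine Finset.sum_congr rfl fun i _ => ?_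
      simp [hw]
    have e2 : UC.Ex V (fun x => inner ℝ x w) = ∑ i, b i * UC.Ex V (fun x => x i) := by
      have : (fun x : Eu n => (inner ℝ x w : ℝ)) = fun x => ∑ i, b i * x i := funext e1
      rw [this, UC.Ex_sum]
      · exact Finset.sum_congr rfl fun i _ => Ex_const_mul _ _ _
      · intro i _
        have h1 := (hs.sq_inner (EuclideanSpace.single i (1 : ℝ))).int hs
        have h2 := h1.const_mul (b i)
        refine h2.congr (Eventually.of_forall fun x => ?_)
        simp [EuclideanSpace.inner_single_right]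
        ring
    rw [e1, e2, ← Finset.sum_sub_distrib]
    refine Finset.sum_congr rfl fun i _ => ?_
    unfold xc
    ring
  have sφ : SqV V (fun x => ∑ i, b i * xc V i x) :=
    SqV.sum _ hs fun i _ => (xc_sq hs i).cmul _
  have h1 := sφ.cs hs.cont hφ
  have e3 : UC.Ex V (fun x => (∑ i, b i * xc V i x) * φ x) = ∑ i, b i ^ 2 := by
    have e : (fun x => (∑ i, b i * xc V i x) * φ x) = fun x => ∑ i, b i * (xc V i x * φ x) := by
      funext x
      rw [Finset.sum_mul]
      exact Finset.sum_congr rfl fun i _ => by ring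
    rw [e, UC.Ex_sum]
    · refine Finset.sum_congr rfl fun i _ => ?_
      rw [Ex_const_mul, sq]
    · intro i _
      have := ((xc_sq hs i).mul_int hs.cont hφ).const_mul (b i)
      simpa only [mul_assoc] using this
  have e4 : UC.Ex V (fun x => (∑ i, b i * xc V i x) ^ 2) = VarE V (fun x => inner ℝ x w) := by
    rw [← hs.VarE_eq (hs.sq_inner w)]
    congr 1
    funext x
    rw [hsum]
  have e5 : ‖w‖ ^ 2 = ∑ i, b i ^ 2 := by
    rw [EuclideanSpace.norm_sq_eq]
    exact Finset.sum_congr rfl fun i _ => by rw [Real.norm_eq_abs, sq_abs]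
  rw [e3, e4] at h1
  have h2 := hc w
  rw [e5] at h2
  exact real_bessel hS (Ex_nonneg fun x => sq_nonneg _) h2 ((le_abs_self _).trans h1)
    (Finset.sum_nonneg fun i _ => sq_nonneg _)

/-- Bessel's inequality for quadratic forms -/
private lemma bess2 (hs : SP V κ Λ c0) (hQ : 0 ≤ Q) (hW : WLe V Q) {φ : Eu n → ℝ}
    (hφ : SqV V φ) (h0 : UC.Ex V φ = 0) :
    ∑ i, ∑ j, UC.Ex V (fun x => (xc V i x * xc V j x) * φ x) ^ 2 ≤
      Q * UC.Ex V (fun x => φ x ^ 2) := by
  set b : Fin n → Fin n → ℝ := fun i j => UC.Ex V (fun x => (xc V i x * xc V j x) * φ x) with hb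
  have hsym : ∀ i j, b i j = b j i := by
    intro i j
    show UC.Ex V (fun x => (xc V i x * xc V j x) * φ x) =
      UC.Ex V (fun x => (xc V j x * xc V i x) * φ x)
    congr 1
    funext x
    ring
  have sI : ∀ i, SqV V (fun x => ∑ j, b i j * (xc V i x * xc V j x)) := fun i =>
    SqV.sum _ hs fun j _ => (xcxc_sq hs i j).cmul _
  have sF : SqV V (fun x => ∑ i, ∑ j, b i j * (xc V i x * xc V j x)) :=
    SqV.sum _ hs fun i _ => sI i
  have h1 := hs.cov_le sF hφ h0
  have e3 : UC.Ex V (fun x => (∑ i, ∑ j, b i j * (xc V i x * xc V j x)) * φ x) =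
      ∑ i, ∑ j, b i j ^ 2 := by
    have e : (fun x => (∑ i, ∑ j, b i j * (xc V i x * xc V j x)) * φ x) = fun x =>
        ∑ i, (∑ j, b i j * (xc V i x * xc V j x)) * φ x := by
      funext x
      rw [Finset.sum_mul]
    rw [e, UC.Ex_sum]
    · refine Finset.sum_congr rfl fun i _ => ?_
      have e' : (fun x => (∑ j, b i j * (xc V i x * xc V j x)) * φ x) = fun x =>
          ∑ j, b i j * ((xc V i x * xc V j x) * φ x) := by
        funext x
        rw [Finset.sum_mul]
        exact Finset.sum_congr rfl fun j _ => by ring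
      rw [e', UC.Ex_sum]
      · refine Finset.sum_congr rfl fun j _ => ?_
        rw [Ex_const_mul, sq]
      · intro j _
        have := ((xcxc_sq hs i j).mul_int hs.cont hφ).const_mul (b i j)
        simpa only [mul_assoc] using this
    · intro i _
      exact (sI i).mul_int hs.cont hφ
  rw [e3] at h1
  exact real_bessel hQ (Ex_nonneg fun x => sq_nonneg _) (hW b hsym) ((le_abs_self _).trans h1)
    (Finset.sum_nonneg fun i _ => Finset.sum_nonneg fun j _ => sq_nonneg _)

/-! ### tensors -/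

private lemma tens3 {m : ℕ} (c s a : Fin m → Fin m → Fin m → ℝ)
    (hs : ∀ i j p, s i j p = c i j p + c j i p) (ha : ∀ i j p, a i j p = c i j p - c i p j) :
    ∑ i, ∑ j, ∑ p, c i j p ^ 2 ≤
      9 / 2 * (∑ i, ∑ j, ∑ p, s i j p ^ 2 + ∑ i, ∑ j, ∑ p, a i j p ^ 2) := by
  have h1 : ∀ i j p, c i j p ^ 2 ≤ 3 / 2 * (s i j p ^ 2 + s j p i ^ 2 + s p i j ^ 2 +
      (a j i p ^ 2 + a p j i ^ 2 + a i p j ^ 2)) := by
    intro i j p
    have e : 2 * c i j p = s i j p - s j p i + s p i j - a j i p + a p j i - a i p j := by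
      rw [hs, hs, hs, ha, ha, ha]; ring
    have h2 : (2 * c i j p) ^ 2 ≤ 6 * (s i j p ^ 2 + s j p i ^ 2 + s p i j ^ 2 +
        (a j i p ^ 2 + a p j i ^ 2 + a i p j ^ 2)) := by
      rw [e]
      generalize s i j p = x1
      generalize s j p i = x2
      generalize s p i j = x3
      generalize a j i p = x4
      generalize a p j i = x5
      generalize a i p j = x6
      nlinarith [sq_nonneg (x1 + x2), sq_nonneg (x1 - x3), sq_nonneg (x1 + x4),
        sq_nonneg (x1 - x5), sq_nonneg (x1 + x6), sq_nonneg (x2 + x3), sq_nonneg (x2 - x4),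
        sq_nonneg (x2 + x5), sq_nonneg (x2 - x6), sq_nonneg (x3 + x4), sq_nonneg (x3 - x5),
        sq_nonneg (x3 + x6), sq_nonneg (x4 + x5), sq_nonneg (x4 - x6), sq_nonneg (x5 + x6)]
    nlinarith
  -- permutations of the indices
  have r1 : ∀ F : Fin m → Fin m → Fin m → ℝ,
      ∑ i, ∑ j, ∑ p, F j i p = ∑ i, ∑ j, ∑ p, F i j p := fun F => Finset.sum_comm
  have r2 : ∀ F : Fin m → Fin m → Fin m → ℝ,
      ∑ i, ∑ j, ∑ p, F i p j = ∑ i, ∑ j, ∑ p, F i j p := fun F =>
    Finset.sum_congr rfl fun i _ => Finset.sum_comm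
  have r3 : ∀ F : Fin m → Fin m → Fin m → ℝ,
      ∑ i, ∑ j, ∑ p, F j p i = ∑ i, ∑ j, ∑ p, F i j p := by
    intro F
    rw [r1 (fun i j p => F i p j)]
    exact r2 F
  have r4 : ∀ F : Fin m → Fin m → Fin m → ℝ,
      ∑ i, ∑ j, ∑ p, F p i j = ∑ i, ∑ j, ∑ p, F i j p := by
    intro F
    rw [r2 (fun i j p => F j i p)]
    exact r1 F
  have r5 : ∀ F : Fin m → Fin m → Fin m → ℝ,
      ∑ i, ∑ j, ∑ p, F p j i = ∑ i, ∑ j, ∑ p, F i j p := by
    intro F
    rw [r4 (fun i j p => F i p j)]
    exact r2 F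
  have h3 : ∑ i, ∑ j, ∑ p, c i j p ^ 2 ≤ ∑ i, ∑ j, ∑ p, (3 / 2 * (s i j p ^ 2 + s j p i ^ 2 +
      s p i j ^ 2 + (a j i p ^ 2 + a p j i ^ 2 + a i p j ^ 2))) :=
    Finset.sum_le_sum fun i _ => Finset.sum_le_sum fun j _ => Finset.sum_le_sum fun p _ =>
      h1 i j p
  refine h3.trans (le_of_eq ?_)
  simp only [← Finset.mul_sum, Finset.sum_add_distrib]
  rw [r3 (fun i j p => s i j p ^ 2), r4 (fun i j p => s i j p ^ 2),
    r1 (fun i j p => a i j p ^ 2), r5 (fun i j p => a i j p ^ 2), r2 (fun i j p => a i j p ^ 2)]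
  ring

/-! ### the next level -/

lemma G1_tt {J : Type} {h : J → Eu n → ℝ} (hh : ∀ a, UC.TT (h a)) (p : Fin n × J) :
    UC.TT (G1 l h p) := ((hh p.2).pd p.1).const_mul _

private lemma sqrt_inv_sq (hl : 0 < l) : (1 / Real.sqrt l) ^ 2 = 1 / l := by
  rw [div_pow, one_pow, Real.sq_sqrt hl.le]

private lemma Df_G1 {J : Type} (hl : 0 < l) {h : J → Eu n → ℝ} (hh : ∀ a, UC.TT (h a))
    (p : Fin n × J) : UC.Df V (G1 l h p) (G1 l h p) =
      1 / l * UC.Df V (UC.pd p.1 (h p.2)) (UC.pd p.1 (h p.2)) := by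
  have hd := ((hh p.2).pd p.1).differentiable
  show UC.Df V (fun x => (1 / Real.sqrt l) * UC.pd p.1 (h p.2) x)
    (fun x => (1 / Real.sqrt l) * UC.pd p.1 (h p.2) x) = _
  rw [Df_const_mul_left V hd, Df_const_mul_right V hd, ← mul_assoc, ← sq, sqrt_inv_sq hl]

private lemma VarE_G1 {J : Type} (hl : 0 < l) (h : J → Eu n → ℝ) (p : Fin n × J) :
    VarE V (G1 l h p) = 1 / l * UC.Ex V (fun x => UC.pd p.1 (h p.2) x * UC.pd p.1 (h p.2) x) -
      1 / l * UC.Ex V (UC.pd p.1 (h p.2)) ^ 2 := by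
  have e1 : (fun x => G1 l h p x ^ 2) =
      fun x => (1 / l) * (UC.pd p.1 (h p.2) x * UC.pd p.1 (h p.2) x) := by
    funext x
    unfold G1
    rw [mul_pow, sqrt_inv_sq hl]
    ring
  have e2 : UC.Ex V (G1 l h p) = (1 / Real.sqrt l) * UC.Ex V (UC.pd p.1 (h p.2)) :=
    Ex_const_mul V (UC.pd p.1 (h p.2)) (1 / Real.sqrt l)
  unfold VarE
  rw [e1, e2, Ex_const_mul, mul_pow, sqrt_inv_sq hl]

theorem nT_G1 {J : Type} [Fintype J] (hl : 0 < l) (h : J → Eu n → ℝ) :
    nT V (G1 l h) = dT V l h - aT V l h := by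
  unfold nT dT aT
  rw [Fintype.sum_prod_type_right, ← Finset.sum_sub_distrib]
  refine Finset.sum_congr rfl fun a _ => ?_
  rw [Finset.sum_congr rfl fun j _ => VarE_G1 hl h (j, a), Finset.sum_sub_distrib]
  unfold Ab UC.Df
  rw [← Finset.mul_sum, ← Finset.mul_sum]
  ring

theorem eT_G1 {J : Type} [Fintype J] (hs : SP V κ Λ c0) (hl : 0 < l) {g v : J → Eu n → ℝ}
    (hv : FR V l η g v) :
    eT V l (G1 l v) ≤ eT V l g + η - κ / l * dT V l v + aT V l v := by
  have h1 : eT V l (G1 l v) = ∑ a, (∑ j, UC.Df V (UC.pd j (v a)) (UC.pd j (v a))) / l ^ 2 -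
      nT V (G1 l v) := by
    unfold eT nT eE
    rw [Finset.sum_sub_distrib, Fintype.sum_prod_type_right]
    congr 1
    refine Finset.sum_congr rfl fun a _ => ?_
    rw [Finset.sum_div]
    refine Finset.sum_congr rfl fun j _ => ?_
    rw [Df_G1 hl hv.tt]
    field_simp
  have h2 : ∀ a, (∑ j, UC.Df V (UC.pd j (v a)) (UC.pd j (v a))) / l ^ 2 ≤
      UC.Ex V (fun x => LL V (v a) x ^ 2) / l ^ 2 - κ / l * (UC.Df V (v a) (v a) / l) := by
    intro a
    have h3 := hs.bochner (hv.tt a)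
    have h4 : κ / l * (UC.Df V (v a) (v a) / l) = κ * UC.Df V (v a) (v a) / l ^ 2 := by
      field_simp
    rw [h4, ← sub_div]
    exact div_le_div_of_nonneg_right (by linarith) (by positivity)
  have h3 := Finset.sum_le_sum fun a (_ : a ∈ Finset.univ) => h2 a
  have h4 := hv.r1
  rw [Finset.sum_sub_distrib] at h3 h4
  rw [← Finset.mul_sum] at h3
  rw [h1, nT_G1 hl]
  unfold dT at *
  linarith

theorem eT_nonneg {J : Type} [Fintype J] (hP : HP V (1 / l)) {g : J → Eu n → ℝ}
    (hg : ∀ a, UC.TT (g a)) : 0 ≤ eT V l g := by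
  refine Finset.sum_nonneg fun a _ => ?_
  have h := hP _ (hg a)
  rw [one_div, inv_mul_eq_div] at h
  unfold eE VarE
  linarith

theorem aT_nonneg {J : Type} [Fintype J] (hl : 0 < l) (g : J → Eu n → ℝ) : 0 ≤ aT V l g :=
  Finset.sum_nonneg fun _ _ => div_nonneg (Finset.sum_nonneg fun _ _ => sq_nonneg _) hl.le

/-- the simple bound of the means -/
theorem aT_le {J : Type} [Fintype J] (hs : SP V κ Λ c0) (hl : 0 < l) (hS : 0 ≤ S)
    (hc : CovLe V S) {g v : J → Eu n → ℝ} (hv : FR V l η g v) :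
    aT V l v ≤ l * S * (nT V g + eT V l g + η) := by
  have h1 : ∀ a, Ab V l (v a) ≤ l * S * (UC.Ex V (fun x => LL V (v a) x ^ 2) / l ^ 2) := by
    intro a
    have h2 := bess1 hs hS hc (hs.LL_sq (hv.tt a))
    have h3 : ∑ i, UC.Ex V (UC.pd i (v a)) ^ 2 =
        ∑ i, UC.Ex V (fun x => xc V i x * LL V (v a) x) ^ 2 := by
      refine Finset.sum_congr rfl fun i _ => ?_
      rw [ibp1 hs (hv.tt a), neg_sq]
    unfold Ab
    rw [h3]
    calc (∑ i, UC.Ex V (fun x => xc V i x * LL V (v a) x) ^ 2) / l ≤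
        (S * UC.Ex V (fun x => LL V (v a) x ^ 2)) / l := div_le_div_of_nonneg_right h2 hl.le
      _ = l * S * (UC.Ex V (fun x => LL V (v a) x ^ 2) / l ^ 2) := by field_simp
  have h2 := Finset.sum_le_sum fun a (_ : a ∈ Finset.univ) => h1 a
  rw [← Finset.mul_sum] at h2
  exact h2.trans (mul_le_mul_of_nonneg_left hv.r3 (by positivity))

private lemma Ex_xc (hs : SP V κ Λ c0) (i : Fin n) : UC.Ex V (xc V i) = 0 := by
  have h1 := xc_sq hs i
  have h2 : SqV V (fun x : Eu n => x i) := by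
    have := h1.add hs.cont (hs.const (UC.Ex V (fun x => x i)))
    refine (by
      have e : (fun x => xc V i x + UC.Ex V (fun x => x i)) = fun x : Eu n => x i := by
        funext x; unfold xc; ring
      rwa [e] at this)
  have h3 := hs.Ex_sub h2 (hs.const (UC.Ex V (fun x => x i)))
  rw [hs.Ex_const, sub_self] at h3
  exact h3

/-- the bound of the means by the thin shell inequality -/
theorem aT_le3 {J : Type} [Fintype J] (hs : SP V κ Λ c0) (hl : 0 < l) (hS : 0 ≤ S)
    (hc : CovLe V S) (hQ : 0 ≤ Q) (hW : WLe V Q) {h : J → Eu n → ℝ} (hh : ∀ a, UC.TT (h a))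
    {v : Fin n × J → Eu n → ℝ} {w : Fin n × (Fin n × J) → Eu n → ℝ}
    (hv : FR V l η (G1 l h) v) (hw : FR V l η (G1 l v) w) :
    aT V l w ≤ 9 * l ^ 2 * Q * (nT V (G1 l h) + eT V l (G1 l h) + η) +
      36 * l * S * (eT V l (G1 l h) + η) + l * S * (eT V l (G1 l v) + 2 * η) := by
  have hV := hs.cont
  have hsl : 0 < Real.sqrt l := Real.sqrt_pos.2 hl
  -- the tensor
  set c : Fin n → Fin n → Fin n × J → ℝ := fun i j q =>
    UC.Ex V (fun x => xc V i x * UC.pd j (v q) x) with hcdef
  have sG : ∀ p, SqV V (G1 l v p) := fun p => SqV.of_TT hV (G1_tt hv.tt p)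
  have sw : ∀ p, SqV V (LL V (w p)) := fun p => hs.LL_sq (hw.tt p)
  -- step 1
  have step1 : ∀ p : Fin n × (Fin n × J), Ab V l (w p) ≤
      2 * (l * S * UC.Ex V (fun x => (LL V (w p) x / l +
        (G1 l v p x - UC.Ex V (G1 l v p))) ^ 2)) + 2 * ∑ i, c i p.1 p.2 ^ 2 := by
    intro p
    have sζ : SqV V (fun x => LL V (w p) x / l + (G1 l v p x - UC.Ex V (G1 l v p))) := by
      have := ((sw p).cmul (1 / l)).add hV ((sG p).sub hV (hs.const (UC.Ex V (G1 l v p))))
      refine (by
        have e : (fun x => 1 / l * LL V (w p) x + (G1 l v p x - UC.Ex V (G1 l v p))) =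
            fun x => LL V (w p) x / l + (G1 l v p x - UC.Ex V (G1 l v p)) := by
          funext x; ring
        rwa [e] at this)
    have hB := bess1 hs hS hc sζ
    have h1 : ∀ i, UC.Ex V (UC.pd i (w p)) ^ 2 ≤
        2 * (l ^ 2 * UC.Ex V (fun x => xc V i x * (LL V (w p) x / l +
          (G1 l v p x - UC.Ex V (G1 l v p)))) ^ 2) + 2 * (l * c i p.1 p.2 ^ 2) := by
      intro i
      have e1 : UC.Ex V (UC.pd i (w p)) = -(l * UC.Ex V (fun x => xc V i x *
          (LL V (w p) x / l + (G1 l v p x - UC.Ex V (G1 l v p))))) +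
          Real.sqrt l * c i p.1 p.2 := by
        rw [ibp1 hs (hw.tt p)]
        have sc := hs.const (UC.Ex V (G1 l v p))
        have e2 : (fun x => xc V i x * LL V (w p) x) = fun x =>
            l * (xc V i x * (LL V (w p) x / l + (G1 l v p x - UC.Ex V (G1 l v p)))) -
              l * (xc V i x * (G1 l v p x - UC.Ex V (G1 l v p))) := by
          funext x
          field_simp
          ring
        have i1 : Integrable (fun x => (l * (xc V i x * (LL V (w p) x / l +
            (G1 l v p x - UC.Ex V (G1 l v p))))) * Real.exp (-V x)) := by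
          have := ((xc_sq hs i).mul_int hV sζ).const_mul l
          simpa only [mul_assoc] using this
        have i2 : Integrable (fun x => (l * (xc V i x *
            (G1 l v p x - UC.Ex V (G1 l v p)))) * Real.exp (-V x)) := by
          have := ((xc_sq hs i).mul_int hV ((sG p).sub hV sc)).const_mul l
          simpa only [mul_assoc] using this
        rw [e2, UC.Ex_sub i1 i2, Ex_const_mul, Ex_const_mul,
          hs.Ex_mul_sub (xc_sq hs i) (sG p) sc, hs.Ex_mul_const, Ex_xc hs, mul_zero, sub_zero]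
        have e3 : (fun x => xc V i x * G1 l v p x) = fun x =>
            (1 / Real.sqrt l) * (xc V i x * UC.pd p.1 (v p.2) x) := by
          funext x
          unfold G1
          ring
        rw [e3, Ex_const_mul]
        have e4 : l * (1 / Real.sqrt l * c i p.1 p.2) = Real.sqrt l * c i p.1 p.2 := by
          rw [← mul_assoc]
          congr 1
          rw [mul_one_div]
          exact Real.div_sqrt
        show -(_ - l * (1 / Real.sqrt l * c i p.1 p.2)) = _
        rw [e4]
        ring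
      rw [e1]
      generalize UC.Ex V (fun x => xc V i x *
          (LL V (w p) x / l + (G1 l v p x - UC.Ex V (G1 l v p)))) = y
      have e5 : (Real.sqrt l * c i p.1 p.2) ^ 2 = l * c i p.1 p.2 ^ 2 := by
        rw [mul_pow, Real.sq_sqrt hl.le]
      nlinarith [sq_nonneg (l * y + Real.sqrt l * c i p.1 p.2)]
    have h2 := Finset.sum_le_sum fun i (_ : i ∈ Finset.univ) => h1 i
    rw [Finset.sum_add_distrib, ← Finset.mul_sum, ← Finset.mul_sum, ← Finset.mul_sum,
      ← Finset.mul_sum] at h2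
    unfold Ab
    rw [div_le_iff₀ hl]
    refine h2.trans ?_
    have h3 : l ^ 2 * ∑ i, UC.Ex V (fun x => xc V i x * (LL V (w p) x / l +
          (G1 l v p x - UC.Ex V (G1 l v p)))) ^ 2 ≤ l ^ 2 * (S * UC.Ex V (fun x =>
          (LL V (w p) x / l + (G1 l v p x - UC.Ex V (G1 l v p))) ^ 2)) :=
      mul_le_mul_of_nonneg_left hB (sq_nonneg _)
    nlinarith
  -- step 2
  have step2 : aT V l w ≤ l * S * (eT V l (G1 l v) + 2 * η) +
      2 * ∑ a, ∑ i, ∑ j, ∑ p, c i j (p, a) ^ 2 := by
    have h1 := Finset.sum_le_sum fun p (_ : p ∈ Finset.univ) => step1 p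
    rw [Finset.sum_add_distrib, ← Finset.mul_sum, ← Finset.mul_sum, ← Finset.mul_sum] at h1
    have h2 : l * S * ∑ p, UC.Ex V (fun x => (LL V (w p) x / l +
        (G1 l v p x - UC.Ex V (G1 l v p))) ^ 2) ≤ l * S * (eT V l (G1 l v) / 2 + η) :=
      mul_le_mul_of_nonneg_left hw.r5 (by positivity)
    have h3 : ∑ p : Fin n × (Fin n × J), ∑ i, c i p.1 p.2 ^ 2 =
        ∑ a, ∑ i, ∑ j, ∑ p, c i j (p, a) ^ 2 := by
      rw [Fintype.sum_prod_type]
      have e1 : ∀ j, ∑ q : Fin n × J, ∑ i, c i j q ^ 2 =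
          ∑ a, ∑ i, ∑ p, c i j (p, a) ^ 2 := by
        intro j
        rw [Fintype.sum_prod_type_right]
        exact Finset.sum_congr rfl fun a _ => Finset.sum_comm
      rw [Finset.sum_congr rfl fun j _ => e1 j, Finset.sum_comm]
      exact Finset.sum_congr rfl fun a _ => Finset.sum_comm
    rw [h3] at h1
    unfold aT
    linarith
  -- step 3
  have step3 : ∀ a, ∑ i, ∑ j, ∑ p, c i j (p, a) ^ 2 ≤
      9 / 2 * (Q * ∑ p, UC.Ex V (fun x => LL V (v (p, a)) x ^ 2) +
        4 * S * ∑ p, UC.Df V (fun x => v (p, a) x - G1 l h (p, a) x)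
          (fun x => v (p, a) x - G1 l h (p, a) x)) := by
    intro a
    have h1 := tens3 (fun i j p => c i j (p, a)) (fun i j p => c i j (p, a) + c j i (p, a))
      (fun i j p => c i j (p, a) - c i p (j, a)) (fun _ _ _ => rfl) (fun _ _ _ => rfl)
    refine h1.trans (mul_le_mul_of_nonneg_left (add_le_add ?_ ?_) (by norm_num))
    · -- symmetric part
      have e1 : ∑ i, ∑ j, ∑ p, (c i j (p, a) + c j i (p, a)) ^ 2 =
          ∑ p, ∑ i, ∑ j, (c i j (p, a) + c j i (p, a)) ^ 2 :=
        (Finset.sum_congr rfl fun i _ => Finset.sum_comm).trans Finset.sum_comm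
      rw [e1, Finset.mul_sum]
      refine Finset.sum_le_sum fun p _ => ?_
      have h2 := bess2 hs hQ hW (hs.LL_sq (hv.tt (p, a))) (Ex_LL hs.cd1 (hv.tt (p, a)))
      refine le_trans (le_of_eq ?_) h2
      refine Finset.sum_congr rfl fun i _ => Finset.sum_congr rfl fun j _ => ?_
      show (UC.Ex V (fun x => xc V i x * UC.pd j (v (p, a)) x) +
        UC.Ex V (fun x => xc V j x * UC.pd i (v (p, a)) x)) ^ 2 = _
      rw [ibp2 hs (hv.tt (p, a)), neg_sq]
    · -- antisymmetric part
      set φ : Fin n → Eu n → ℝ := fun p x => v (p, a) x - G1 l h (p, a) x with hφ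
      have tφ : ∀ p, UC.TT (φ p) := fun p => (hv.tt (p, a)).sub (G1_tt hh (p, a))
      have e2 : ∀ i j p, c i j (p, a) - c i p (j, a) =
          UC.Ex V (fun x => xc V i x * (UC.pd j (φ p) x - UC.pd p (φ j) x)) := by
        intro i j p
        have s1 : SqV V (UC.pd j (v (p, a))) := SqV.of_TT hV ((hv.tt _).pd j)
        have s2 : SqV V (UC.pd p (v (j, a))) := SqV.of_TT hV ((hv.tt _).pd p)
        have h3 := hs.Ex_mul_sub (xc_sq hs i) s1 s2
        show UC.Ex V (fun x => xc V i x * UC.pd j (v (p, a)) x) -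
          UC.Ex V (fun x => xc V i x * UC.pd p (v (j, a)) x) = _
        rw [← h3]
        congr 1
        funext x
        congr 1
        have h4 : ∀ k q : Fin n, UC.pd k (φ q) x =
            UC.pd k (v (q, a)) x - (1 / Real.sqrt l) * UC.pd k (UC.pd q (h a)) x := by
          intro k q
          have h5 := pd_sub (hv.tt (q, a)).differentiable
            (G1_tt (l := l) hh (q, a)).differentiable k x
          have h6 := pd_const_mul ((hh a).pd q).differentiable (1 / Real.sqrt l) k x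
          rw [← h6]
          exact h5
        rw [h4, h4, pd_comm (contDiff_infty.mp (hh a).cd 2) j p]
        ring
      have e3 : ∀ j p, ∑ i, (c i j (p, a) - c i p (j, a)) ^ 2 ≤
          S * (2 * UC.Ex V (fun x => UC.pd j (φ p) x * UC.pd j (φ p) x) +
            2 * UC.Ex V (fun x => UC.pd p (φ j) x * UC.pd p (φ j) x)) := by
        intro j p
        have s1 : SqV V (UC.pd j (φ p)) := SqV.of_TT hV ((tφ p).pd j)
        have s2 : SqV V (UC.pd p (φ j)) := SqV.of_TT hV ((tφ j).pd p)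
        have h3 := bess1 hs hS hc (s1.sub hV s2)
        rw [Finset.sum_congr rfl fun i _ => by rw [e2 i j p]]
        refine h3.trans (mul_le_mul_of_nonneg_left ?_ hS)
        have i1 : Integrable (fun x => (2 * (UC.pd j (φ p) x * UC.pd j (φ p) x)) *
            Real.exp (-V x)) := by
          have := (s1.mul_int hV s1).const_mul 2
          simpa only [mul_assoc] using this
        have i2 : Integrable (fun x => (2 * (UC.pd p (φ j) x * UC.pd p (φ j) x)) *
            Real.exp (-V x)) := by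
          have := (s2.mul_int hV s2).const_mul 2
          simpa only [mul_assoc] using this
        have i3 : Integrable (fun x => (2 * (UC.pd j (φ p) x * UC.pd j (φ p) x) +
            2 * (UC.pd p (φ j) x * UC.pd p (φ j) x)) * Real.exp (-V x)) := by
          refine (i1.add i2).congr (Eventually.of_forall fun x => ?_)
          simp only [Pi.add_apply]
          ring
        rw [← Ex_const_mul, ← Ex_const_mul, ← UC.Ex_add i1 i2]
        refine Ex_mono (s1.sub hV s2).2 i3 fun x => ?_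
        nlinarith [sq_nonneg (UC.pd j (φ p) x + UC.pd p (φ j) x)]
      have e4 : ∑ i, ∑ j, ∑ p, (c i j (p, a) - c i p (j, a)) ^ 2 =
          ∑ j, ∑ p, ∑ i, (c i j (p, a) - c i p (j, a)) ^ 2 := by
        rw [Finset.sum_comm]
        exact Finset.sum_congr rfl fun j _ => Finset.sum_comm
      have e5 := Finset.sum_le_sum fun j (_ : j ∈ Finset.univ) =>
        Finset.sum_le_sum fun p (_ : p ∈ Finset.univ) => e3 j p
      rw [e4]
      refine e5.trans (le_of_eq ?_)
      simp only [← Finset.mul_sum, Finset.sum_add_distrib]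
      have e6 : ∑ j, ∑ p, UC.Ex V (fun x => UC.pd j (φ p) x * UC.pd j (φ p) x) =
          ∑ p, UC.Df V (φ p) (φ p) := by
        rw [Finset.sum_comm]
        rfl
      have e7 : ∑ j, ∑ p, UC.Ex V (fun x => UC.pd p (φ j) x * UC.pd p (φ j) x) =
          ∑ p, UC.Df V (φ p) (φ p) := rfl
      rw [e6, e7]
      ring
  -- step 4
  have h4 := Finset.sum_le_sum fun a (_ : a ∈ Finset.univ) => step3 a
  rw [← Finset.mul_sum, Finset.sum_add_distrib, ← Finset.mul_sum, ← Finset.mul_sum] at h4
  have h5 : ∑ a, ∑ p, UC.Ex V (fun x => LL V (v (p, a)) x ^ 2) ≤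
      l ^ 2 * (nT V (G1 l h) + eT V l (G1 l h) + η) := by
    have := hv.r3
    rw [← Finset.sum_div, div_le_iff₀ (by positivity), Fintype.sum_prod_type_right] at this
    linarith
  have h6 : ∑ a, ∑ p, UC.Df V (fun x => v (p, a) x - G1 l h (p, a) x)
      (fun x => v (p, a) x - G1 l h (p, a) x) ≤ l * (eT V l (G1 l h) + η) := by
    have := hv.r4
    unfold dT at this
    rw [← Finset.sum_div, div_le_iff₀ hl, Fintype.sum_prod_type_right] at this
    linarith
  have h7 := mul_le_mul_of_nonneg_left h5 hQ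
  have h8 := mul_le_mul_of_nonneg_left h6 (by positivity : (0 : ℝ) ≤ 4 * S)
  linarith

end Pool.Agent.Lib.MP_6d896a_gt.LG
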