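import Mathlib
import Pool.Agent.Lib.MP_6d896a_gt.LG.PQ2

/-!
Project LG, piece PQ3: the cubic Lichnerowicz inequality for smooth strongly convex potentials.
-/

set_option autoImplicit false

namespace Pool.Agent.Lib.MP_6d896a_gt.LG

open MeasureTheory Filter Topology Set
open Pool.Agent.Lib.MP_6d896a_gt.UC Pool.Agent.Lib.MP_6d896a_gt.UC.UR
open scoped ENNReal NNReal ContDiff

variable {n : ℕ} {V f g h u v : Eu n → ℝ} {κ Λ c0 S Q l η : ℝ}

/-- the best Poincare constant and nearly extremal functions -/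
private lemma exists_extremal (hs : SP V κ Λ c0) {K : ℝ} (hK : 0 < K) (hn : ¬ HP V K) :
    ∃ C : ℝ, K < C ∧ HP V C ∧ ∀ θ : ℝ, 0 < θ → ∃ f : Eu n → ℝ, UC.TT f ∧ VarE V f = 1 ∧
      UC.Df V f f * C - 1 ≤ θ := by
  set A : Set ℝ := {c | 0 < c ∧ HP V c} with hA
  have hmono : ∀ c c' : ℝ, HP V c → c ≤ c' → HP V c' := by
    intro c c' hc hcc f hf
    exact (hc f hf).trans (mul_le_mul_of_nonneg_right hcc (Df_nonneg V f))
  have hne : A.Nonempty := ⟨c0, hs.cpos, hs.hp⟩
  have hlb : ∀ c ∈ A, K ≤ c := by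
    intro c hc
    by_contra hcc
    push Not at hcc
    exact hn (hmono c K hc.2 hcc.le)
  have hbdd : BddBelow A := ⟨K, hlb⟩
  set C := sInf A with hC
  have hKC : K ≤ C := le_csInf hne hlb
  have hPC : HP V C := by
    intro f hf
    refine le_of_forall_pos_le_add fun ε hε => ?_
    obtain ⟨c, hcA, hcε⟩ := exists_lt_of_csInf_lt hne
      (show sInf A < C + ε / (UC.Df V f f + 1) by
        rw [← hC]
        have := Df_nonneg V f
        have : 0 < ε / (UC.Df V f f + 1) := by positivity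
        linarith)
    have h1 := hcA.2 f hf
    have h0 := Df_nonneg V f
    have h2 : c * UC.Df V f f ≤ (C + ε / (UC.Df V f f + 1)) * UC.Df V f f :=
      mul_le_mul_of_nonneg_right hcε.le h0
    have h3 : ε / (UC.Df V f f + 1) * UC.Df V f f ≤ ε := by
      rw [div_mul_eq_mul_div, div_le_iff₀ (by linarith)]
      nlinarith
    nlinarith
  have hKC' : K < C := by
    rcases hKC.lt_or_eq with h | h
    · exact h
    · rw [← h] at hPC
      exact absurd hPC hn
  have hC0 : 0 < C := hK.trans hKC'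
  refine ⟨C, hKC', hPC, fun θ hθ => ?_⟩
  have hc1 : C / (1 + θ) < C := by
    rw [div_lt_iff₀ (by linarith)]
    nlinarith
  have hc10 : 0 < C / (1 + θ) := by positivity
  have hnP : ¬ HP V (C / (1 + θ)) := by
    intro hP
    have : C ≤ C / (1 + θ) := csInf_le hbdd ⟨hc10, hP⟩
    linarith
  unfold HP at hnP
  push Not at hnP
  obtain ⟨f, hf, hlt⟩ := hnP
  have hD0 := Df_nonneg V f
  have hv : 0 < VarE V f := lt_of_le_of_lt (by positivity) hlt
  have hsq : 0 < Real.sqrt (VarE V f) := Real.sqrt_pos.2 hv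
  set a := 1 / Real.sqrt (VarE V f) with ha
  have ha2 : a ^ 2 = 1 / VarE V f := by
    rw [ha, div_pow, one_pow, Real.sq_sqrt hv.le]
  refine ⟨fun x => a * f x, hf.const_mul a, ?_, ?_⟩
  · have e1 : (fun x => (a * f x) ^ 2) = fun x => a ^ 2 * f x ^ 2 := by
      funext x; ring
    have : VarE V (fun x => a * f x) = a ^ 2 * VarE V f := by
      unfold VarE
      rw [e1, Ex_const_mul, Ex_const_mul]
      ring
    rw [this, ha2]
    field_simp
  · rw [Df_const_mul_left V hf.differentiable, Df_const_mul_right V hf.differentiable,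
      ← mul_assoc, ← sq, ha2]
    have hlt' : C / (1 + θ) * UC.Df V f f < VarE V f := hlt
    rw [div_mul_eq_mul_div, div_lt_iff₀ (by linarith)] at hlt'
    have : 1 / VarE V f * UC.Df V f f * C = (C * UC.Df V f f) / VarE V f := by ring
    rw [this, sub_le_iff_le_add, div_le_iff₀ hv]
    nlinarith

/-- the state of the iteration -/
private def Sta (V : Eu n → ℝ) (l η A1 A2 A3 A4 A5 : ℝ) : Prop :=
  ∃ (J : Type) (_ : Fintype J) (h : J → Eu n → ℝ) (v : Fin n × J → Eu n → ℝ),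
    (∀ a, UC.TT (h a)) ∧ FR V l η (G1 l h) v ∧ nT V (G1 l h) ≤ A1 ∧ eT V l (G1 l h) ≤ A2 ∧
      eT V l (G1 l v) ≤ A3 ∧ A4 ≤ nT V (G1 l v) ∧ nT V (G1 l v) ≤ A5

private lemma real_step {d β Q' η n1 e1 n2 e2 b a a' : ℝ} (hd0 : 0 < d) (hd : d ≤ 1 / 100)
    (hQ : 0 ≤ Q') (hβ : 160 * Q' + 900 * d ^ 2 ≤ β) (hη0 : 0 < η) (hηβ : η ≤ β / 64)
    (hηd : η ≤ d / 20) (hn1 : n1 ≤ 3 / 2) (he1 : e1 ≤ 11 / 5 * d)
    (he2 : e2 ≤ 11 / 5 * d) (hn2 : 3 / 5 ≤ n2)
    (hb : n2 - e2 / 2 - η ≤ b) (hb' : b ≤ n2 + η) (ha0 : 0 ≤ a)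
    (ha : a ≤ 9 * Q' * (n1 + e1 + η) + 36 * d * (e1 + η) + d * (e2 + 2 * η))
    (ha' : a' ≤ e2 + η - β * b + a) :
    a' ≤ e2 - β / 4 ∧ n2 - 6 / 5 * d - β / 8 ≤ b - a ∧ b - a ≤ n2 + η := by
  have hdd : 0 < d ^ 2 := by positivity
  have h1 : 9 * Q' * (n1 + e1 + η) ≤ 9 * Q' * (153 / 100) := by
    apply mul_le_mul_of_nonneg_left _ (by positivity)
    linarith
  have h2 : 36 * d * (e1 + η) ≤ 36 * d * (9 / 4 * d) := by
    apply mul_le_mul_of_nonneg_left _ (by positivity)
    linarith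
  have h3 : d * (e2 + 2 * η) ≤ d * (23 / 10 * d) := by
    apply mul_le_mul_of_nonneg_left _ hd0.le
    linarith
  have h4 : a ≤ β / 10 := by nlinarith
  have hb1 : 29 / 50 ≤ b := by linarith
  have hβ0 : 0 < β := by nlinarith
  have h5 : β * (29 / 50) ≤ β * b := mul_le_mul_of_nonneg_left hb1 hβ0.le
  refine ⟨?_, ?_, ?_⟩ <;> linarith

/-- the cubic Lichnerowicz inequality -/
theorem cubic_smooth (hs : SP V κ Λ c0) (hS : 0 < S) (hc : CovLe V S) (hQ : 0 ≤ Q)
    (hW : WLe V Q) {K : ℝ} (hK1 : 100 * S ≤ K) (hK2 : 160 * Q + 900 * S ^ 2 ≤ κ * K ^ 3) :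
    HP V K := by
  by_contra hn
  have hK : 0 < K := lt_of_lt_of_le (by positivity) hK1
  obtain ⟨C, hKC, hPC, hext⟩ := exists_extremal hs hK hn
  have hC0 : 0 < C := hK.trans hKC
  set l := 1 / C with hl'
  have hl : 0 < l := by positivity
  have hP : HP V (1 / l) := by rw [hl', one_div_one_div]; exact hPC
  have hlK : l < 1 / K := one_div_lt_one_div_of_lt hK hKC
  set d := l * S with hd'
  have hd0 : 0 < d := by positivity
  have hd : d ≤ 1 / 100 := by
    have : l * S ≤ 1 / K * S := mul_le_mul_of_nonneg_right hlK.le hS.le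
    refine this.trans ?_
    rw [div_mul_eq_mul_div, one_mul, div_le_div_iff₀ hK (by norm_num)]
    linarith
  set β := κ / l with hβ'
  set Q' := l ^ 2 * Q with hQ'
  have hQ0 : 0 ≤ Q' := by positivity
  have hκ := hs.kpos
  have hβ : 160 * Q' + 900 * d ^ 2 ≤ β := by
    rw [hβ', le_div_iff₀ hl, hQ', hd']
    have h1 : l ^ 3 ≤ (1 / K) ^ 3 := pow_le_pow_left₀ hl.le hlK.le 3
    have h2 : (160 * Q + 900 * S ^ 2) * l ^ 3 ≤ κ * K ^ 3 * (1 / K) ^ 3 :=
      mul_le_mul hK2 h1 (by positivity) (by positivity)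
    have h3 : κ * K ^ 3 * (1 / K) ^ 3 = κ := by field_simp
    rw [h3] at h2
    nlinarith
  have hβ0 : 0 < β := by nlinarith [pow_pos hd0 2]
  obtain ⟨η, hη0, hηβ, hηd⟩ : ∃ η : ℝ, 0 < η ∧ η ≤ β / 64 ∧ η ≤ d / 20 :=
    ⟨min (β / 64) (d / 20), lt_min (by positivity) (by positivity), min_le_left _ _,
      min_le_right _ _⟩
  -- level 0
  obtain ⟨f, hf, hf1, hfe⟩ := hext (d / 20) (by positivity)
  obtain ⟨v0, hv0⟩ := hs.resolvents (J := Unit) hl hP (g := fun _ => f) (fun _ => hf) hη0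
  have hn0 : nT V (fun _ : Unit => f) = 1 := by
    unfold nT; simp [hf1]
  have he0 : eT V l (fun _ : Unit => f) ≤ d / 20 := by
    unfold eT eE
    simp only [Finset.univ_unique, Finset.sum_const, Finset.card_singleton, one_smul]
    have e : UC.Df V f f / l = UC.Df V f f * C := by rw [hl']; field_simp
    rw [hf1, e]
    exact hfe
  have a1 := aT_le hs hl hS.le hc hv0
  have b0l := hv0.r2
  have b0u := hv0.r7
  have e1 := eT_G1 hs hl hv0
  have n1 := nT_G1 (V := V) hl v0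
  have e1n := eT_nonneg (V := V) (l := l) hP (G1_tt (l := l) hv0.tt)
  rw [hn0] at a1 b0l b0u
  have a1' : aT V l v0 ≤ 1001 / 1000 * d := by
    refine a1.trans ?_
    rw [← hd']
    nlinarith
  have b0 : 999 / 1000 ≤ dT V l v0 := by linarith
  have βb : β * (999 / 1000) ≤ β * dT V l v0 := mul_le_mul_of_nonneg_left b0 hβ0.le
  rw [← hβ'] at e1
  have hβd : β ≤ 6 / 5 * d := by linarith
  have e1' : eT V l (G1 l v0) ≤ 6 / 5 * d := by linarith
  -- level 1
  obtain ⟨v1, hv1⟩ := hs.resolvents hl hP (G1_tt (l := l) hv0.tt) hη0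
  have a2 := aT_le hs hl hS.le hc hv1
  have b1l := hv1.r2
  have b1u := hv1.r7
  have e2 := eT_G1 hs hl hv1
  have n2 := nT_G1 (V := V) hl v1
  rw [← hβ'] at e2
  have n1u : nT V (G1 l v0) ≤ 1001 / 1000 := by
    rw [n1]
    have := aT_nonneg (V := V) hl v0
    linarith
  have n1l : 98 / 100 ≤ nT V (G1 l v0) := by
    rw [n1]; linarith
  have a2' : aT V l v1 ≤ 51 / 50 * d := by
    refine a2.trans ?_
    rw [← hd', mul_comm]
    exact mul_le_mul_of_nonneg_right (by linarith) hd0.le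
  have b1 : 97 / 100 ≤ dT V l v1 := by linarith
  have βb1 : 0 ≤ β * dT V l v1 := by positivity
  have a2n := aT_nonneg (V := V) hl v1
  -- the iteration
  have key : ∀ k : ℕ, (k : ℝ) * (β / 4) ≤ 11 / 5 * d + β / 4 →
      Sta V l η (3 / 2) (11 / 5 * d) (11 / 5 * d - k * (β / 4))
        (95 / 100 - k * (6 / 5 * d + β / 8)) (501 / 500 + k * η) := by
    intro k
    induction k with
    | zero =>
      intro _
      refine ⟨Unit, inferInstance, v0, v1, hv0.tt, hv1, ?_, ?_, ?_, ?_, ?_⟩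
      · linarith
      · linarith
      · rw [Nat.cast_zero, zero_mul, sub_zero]
        linarith
      · rw [Nat.cast_zero, zero_mul, sub_zero, n2]
        linarith
      · rw [Nat.cast_zero, zero_mul, add_zero, n2]
        linarith
    | succ k ih =>
      intro hk
      have hk' : (k : ℝ) * (β / 4) ≤ 11 / 5 * d := by
        push_cast at hk
        linarith
      obtain ⟨J, _, h, v, hh, hv, s1, s2, s3, s4, s5⟩ := ih (by linarith)
      -- the number of steps is bounded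
      have hkd : (k : ℝ) * d * 900 ≤ 44 / 5 := by
        have h1 : (k : ℝ) * (900 * d ^ 2) ≤ k * β :=
          mul_le_mul_of_nonneg_left (by nlinarith) (Nat.cast_nonneg k)
        have h2 : (k : ℝ) * d * 900 * d ≤ 44 / 5 * d := by nlinarith
        exact le_of_mul_le_mul_right h2 hd0
      have hkβ : (k : ℝ) * β ≤ 44 / 5 * d := by linarith
      have hkη : (k : ℝ) * η ≤ k * (β / 64) := mul_le_mul_of_nonneg_left hηβ (Nat.cast_nonneg k)
      have hn2 : 3 / 5 ≤ nT V (G1 l v) := by nlinarith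
      have hn2' : nT V (G1 l v) ≤ 3 / 2 := by nlinarith
      have hkp : (0 : ℝ) ≤ k * (β / 4) := by positivity
      have he2 : eT V l (G1 l v) ≤ 11 / 5 * d := by linarith
      obtain ⟨w, hw⟩ := hs.resolvents hl hP (G1_tt (l := l) hv.tt) hη0
      have ha := aT_le3 hs hl hS.le hc hQ hW hh hv hw
      have hb := hw.r2
      have hb' := hw.r7
      have he := eT_G1 hs hl hw
      have hnn := nT_G1 (V := V) hl w
      rw [← hβ'] at he
      obtain ⟨t1, t2, t3⟩ := real_step (Q' := Q') hd0 hd hQ0 hβ hη0 hηβ hηd s1 s2 he2 hn2 hb hb'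
        (aT_nonneg (V := V) hl w) (by
          refine ha.trans (le_of_eq ?_)
          rw [hQ', hd']
          ring) he
      rw [← hnn] at t2 t3
      refine ⟨Fin n × J, inferInstance, v, w, hv.tt, hw, hn2', he2, ?_, ?_, ?_⟩
      · push_cast
        linarith
      · push_cast
        linarith
      · push_cast
        linarith
  -- the contradiction
  obtain ⟨k, hk1, hk2⟩ : ∃ k : ℕ, 11 / 5 * d < (k : ℝ) * (β / 4) ∧
      (k : ℝ) * (β / 4) ≤ 11 / 5 * d + β / 4 := by
    refine ⟨⌊11 / 5 * d / (β / 4)⌋₊ + 1, ?_, ?_⟩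
    · have := Nat.lt_floor_add_one (11 / 5 * d / (β / 4))
      rw [div_lt_iff₀ (by positivity)] at this
      push_cast
      exact this
    · have := Nat.floor_le (show 0 ≤ 11 / 5 * d / (β / 4) by positivity)
      rw [le_div_iff₀ (by positivity)] at this
      push_cast
      linarith
  obtain ⟨J, _, h, v, hh, hv, s1, s2, s3, s4, s5⟩ := key k hk2
  have := eT_nonneg (V := V) (l := l) hP (G1_tt (l := l) hv.tt)
  linarith

end Pool.Agent.Lib.MP_6d896a_gt.LG
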