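import Mathlib
import Pool.Agent.Lib.MP_6d896a_gt.LG.PQ3

/-!
Project LG: the smooth level of the cubic Lichnerowicz inequality, in the form `P4s`.
-/

set_option autoImplicit false

namespace Pool.Agent.Lib.MP_6d896a_gt.LG

open MeasureTheory Filter Topology Set
open scoped ENNReal NNReal

theorem p4s (n : ℕ) : P4s n := by
  intro V κ Λ c0 S Q h hS hQ0 hc hQ f hf
  have hκ : 0 < κ := h.kpos
  set A : ℝ := (5000 * (Q + S ^ 2) / κ) ^ (1 / 3 : ℝ) with hA
  have hA0 : 0 ≤ A := by positivity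
  have hA3 : A ^ 3 = 5000 * (Q + S ^ 2) / κ := by
    rw [hA, ← Real.rpow_natCast, ← Real.rpow_mul (by positivity)]
    norm_num
  have hK : 160 * Q + 900 * S ^ 2 ≤ κ * (1000 * S + A) ^ 3 := by
    have h1 : A ^ 3 ≤ (1000 * S + A) ^ 3 := pow_le_pow_left₀ hA0 (by linarith) 3
    have h2 : κ * A ^ 3 = 5000 * (Q + S ^ 2) := by
      rw [hA3]; field_simp
    nlinarith [mul_le_mul_of_nonneg_left h1 hκ.le, sq_nonneg S]
  exact cubic_smooth h hS hc hQ0 hQ (K := 1000 * S + A) (by linarith) hK f hf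

end Pool.Agent.Lib.MP_6d896a_gt.LG
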