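import Mathlib
import Pool.Agent.Lib.MP_6d896a_gt.LG.Defs2
import Pool.Agent.Lib.MP_6d896a_gt.LG.PQ4
import Pool.Agent.Lib.MP_6d896a_gt.LG.PQP4s

/-!
Project LG, piece PQ: the cubic Lichnerowicz inequality.
-/

set_option autoImplicit false

namespace Pool.Agent.Lib.MP_6d896a_gt.LG

open MeasureTheory Filter Topology Set Matrix
open scoped ENNReal NNReal

/-- PQ (stage 2): cubic Lichnerowicz inequality -/
theorem ulc_cubic {C : ℝ} (hC : 1 ≤ C) (hW : ∀ n, Thin n C) :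
    ∃ K1 : ℝ, 1 ≤ K1 ∧ ∀ (n : ℕ) (ν : Measure (Eu n)) (R τ : ℝ), IsProbabilityMeasure ν →
      BS R ν → 0 < τ → τ ≤ 1 → ULC τ ν → CovL ν 4 →
      ∀ f : Eu n → ℝ, ContDiff ℝ 1 f →
        Cv ν f f ≤ K1 * (1 / τ) ^ (1 / 3 : ℝ) * ∫ x, ‖fderiv ℝ f x‖ ^ 2 ∂ν :=
  ulc_cubic_of hC hW p4s

end Pool.Agent.Lib.MP_6d896a_gt.LG
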