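import Mathlib
import Pool.Agent.Lib.MP_6d896a_gt.LG.Glue
import Pool.Agent.Lib.MP_6d896a_gt.LG.PE
import Pool.Agent.Lib.MP_6d896a_gt.LG.PF
import Pool.Agent.Lib.MP_6d896a_gt.LG.PG1
import Pool.Agent.Lib.MP_6d896a_gt.LG.PG2
import Pool.Agent.Lib.MP_6d896a_gt.LG.PQ

/-!
Project LG: isoperimetry of all log-concave measures with the factor `(1 + log n) ^ (1/6)`.
-/

set_option autoImplicit false

namespace Pool.Agent.Lib.MP_6d896a_gt.LG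

open MeasureTheory Filter Topology Set Matrix
open scoped ENNReal NNReal Pointwise

variable {n : ℕ} {μ ν : Measure (Eu n)} {R B T η τ : ℝ}

theorem stepV {C : ℝ} (hC : 0 ≤ C) (hW : Thin n C) (h : Nm μ R B) (hpl : FP.PLm μ)
    (hcov : CovL μ 1) {q : ℕ} (hq : 2 ≤ q) (hT : 0 < T) (hT1 : T ≤ 1 / 8) {t0 : ℝ}
    (ht0 : 0 < t0) {K : ℝ} (hK0 : 0 ≤ K)
    (hK : ∀ ν : Measure (Eu n), IsProbabilityMeasure ν → BS R ν → ULC T ν → CovL ν 4 →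
      ∀ f : Eu n → ℝ, ContDiff ℝ 1 f → Cv ν f f ≤ K * ∫ x, ‖fderiv ℝ f x‖ ^ 2 ∂ν)
    {g : Eu n → ℝ} (hg : ContDiff ℝ 1 g) (hg1 : ∀ x, |g x| ≤ 1) {l : ℝ}
    (hl : ∀ x, ‖fderiv ℝ g x‖ ≤ l) :
    Cv μ g g ≤ 2 * (K * l ^ 2 + 2 / 4 ^ q * (Real.exp (12 * C * q ^ 2 * T) * n) + 3 * t0 * n +
      2 / (4 ^ q * t0) * (T * Real.exp (12 * C * q ^ 2 * T) * n)) :=
  stepV_of h hpl (fun _ _ h1 h2 h3 h4 _ h5 => ulc_poincare h1 h2 h3 h4 h5) hcov hT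
    (stepIV_EE hC hW h hpl hcov hq hT) (stepIV_JJ hC hW h hpl hcov hq hT) hT1 ht0 hK0 hK hg hg1 hl

theorem lip_bound {C : ℝ} (hC : 1 ≤ C) (hW : ∀ n, Thin n C) {a K1 : ℝ} (ha : 0 ≤ a)
    (hK1 : 1 ≤ K1)
    (hK : ∀ (n : ℕ) (ν : Measure (Eu n)) (R τ : ℝ), IsProbabilityMeasure ν → BS R ν → 0 < τ →
      τ ≤ 1 → ULC τ ν → CovL ν 4 →
      ∀ f : Eu n → ℝ, ContDiff ℝ 1 f → Cv ν f f ≤ K1 * (1 / τ) ^ a * ∫ x, ‖fderiv ℝ f x‖ ^ 2 ∂ν) :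
    ∃ M : ℝ, 1 ≤ M ∧ ∀ (n : ℕ) (μ : Measure (Eu n)) (R : ℝ), IsProbabilityMeasure μ → BS R μ →
      FP.PLm μ → CovL μ 1 → ∀ g : Eu n → ℝ, ContDiff ℝ 1 g → (∀ x, |g x| ≤ 1) →
      ∀ l : ℝ, (∀ x, ‖fderiv ℝ g x‖ ≤ l) →
        Cv μ g g ≤ M * (1 + Real.log n) ^ a * l ^ 2 + FP.eta0 / 2 :=
  lip_bound_of (fun _ _ _ _ _ _ hC hW h hpl hcov _ hq hT hT1 _ ht0 _ hK0 hK _ hg hg1 _ hl =>
    stepV hC hW h hpl hcov hq hT hT1 ht0 hK0 hK hg hg1 hl) hC hW ha hK1 hK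

/-- the isoperimetric inequality for all log-concave probability measures, up to a sixth root of
the logarithm of the dimension -/
theorem iso_sixth :
    ∃ C : ℝ, 0 < C ∧ ∀ (n : ℕ) (μ : Measure (EuclideanSpace ℝ (Fin n))), IsProbabilityMeasure μ →
      (∀ (A B : Set (EuclideanSpace ℝ (Fin n))) (t : ℝ), IsCompact A → IsCompact B → 0 < t →
        t < 1 → (μ A) ^ t * (μ B) ^ (1 - t) ≤ μ (t • A + (1 - t) • B)) →
      ∀ s : ℝ, 0 < s →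
      (∀ θ : EuclideanSpace ℝ (Fin n), ‖θ‖ = 1 →
        ProbabilityTheory.variance (fun x => inner ℝ x θ) μ ≤ s) →
      ∀ S : Set (EuclideanSpace ℝ (Fin n)), MeasurableSet S →
        ENNReal.ofReal (C / ((1 + Real.log n) ^ (1 / 6 : ℝ) * Real.sqrt s)) *
            min (μ S) (μ Sᶜ) ≤
          Filter.liminf (fun ε : ℝ => (μ (Metric.thickening ε S) - μ S) / ENNReal.ofReal ε)
            (nhdsWithin 0 (Set.Ioi 0)) := by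
  obtain ⟨K1, hK1, hK⟩ := ulc_cubic (C := 4 * (222 * (100 * 2 ^ 22))) (by norm_num) thin
  obtain ⟨M, hM, hL⟩ := lip_bound (by norm_num) thin (a := (1 / 3 : ℝ)) (by norm_num) hK1 hK
  have hlog : ∀ n : ℕ, (1 : ℝ) ≤ 1 + Real.log n := fun n => by
    have : 0 ≤ Real.log (n : ℝ) := Real.log_natCast_nonneg n
    linarith
  have hpow : ∀ n : ℕ, (1 : ℝ) ≤ (1 + Real.log n) ^ (1 / 3 : ℝ) := fun n =>
    Real.one_le_rpow (hlog n) (by norm_num)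
  obtain ⟨C, hC, hfin⟩ := final_of (M := fun n => M * (1 + Real.log n) ^ (1 / 3 : ℝ))
    (fun n => by nlinarith [hpow n]) hL
  refine ⟨C / Real.sqrt M, by positivity, ?_⟩
  intro n μ hμ hlc s hs hv S hS
  have h1 := hfin n μ hμ hlc s hs hv S hS
  have hl0 : 0 ≤ 1 + Real.log (n : ℝ) := by linarith [hlog n]
  have e1 : Real.sqrt (M * (1 + Real.log n) ^ (1 / 3 : ℝ) * s) =
      Real.sqrt M * ((1 + Real.log n) ^ (1 / 6 : ℝ) * Real.sqrt s) := by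
    rw [Real.sqrt_mul (by positivity), Real.sqrt_mul (by linarith),
      Real.sqrt_eq_rpow ((1 + Real.log n) ^ (1 / 3 : ℝ)), ← Real.rpow_mul hl0]
    norm_num
    ring
  have e2 : C / Real.sqrt M / ((1 + Real.log n) ^ (1 / 6 : ℝ) * Real.sqrt s) =
      C / Real.sqrt (M * (1 + Real.log n) ^ (1 / 3 : ℝ) * s) := by
    rw [e1, div_div]
  rw [e2]
  exact h1

end Pool.Agent.Lib.MP_6d896a_gt.LG
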