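import Mathlib
import Pool.Agent.Lib.MP_6d896a_gt.LG.PQDefs
import Pool.Agent.Lib.MP_6d896a_gt.LG.PA1
import Pool.Agent.Lib.MP_6d896a_gt.LG.PA2
import Pool.Agent.Lib.MP_6d896a_gt.LG.PB3

/-!
Statements of the sub-pieces of PQ (not to be imported).
-/

set_option autoImplicit false

namespace Pool.Agent.Lib.MP_6d896a_gt.LG

open MeasureTheory Filter Topology Set
open scoped ENNReal NNReal

variable {n : ℕ}

section fam
variable {ι : Type} [Fintype ι] {V : Eu n → ℝ} {κ Λ c0 l η S Q : ℝ}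

/-- PQ1 (helper87): existence of approximate resolvents -/
theorem exists_ap (h : SP V κ Λ c0) (hl : 0 < l) (hP : UC.UR.HP V (1 / l))
    {G : ι → Eu n → ℝ} (hG : ∀ J, UC.TT (G J)) (hη : 0 < η) : ∃ U, Ap V l η G U := by sorry

/-- PQ2a: Bochner -/
theorem ap_e (h : SP V κ Λ c0) (hl : 0 < l) {G U : ι → Eu n → ℝ} (hG : ∀ J, UC.TT (G J))
    (hU : Ap V l η G U) :
    en V l (nx l U) ≤ en V l G + An V (nx l U) - κ / l * Nn V (nx l U) + η := by sorry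

/-- PQ2b: means of gradients -/
theorem ap_a (h : SP V κ Λ c0) (hl : 0 < l) (hS : 0 < S) (hc : CovLe V S) {G U : ι → Eu n → ℝ}
    (hG : ∀ J, UC.TT (G J)) (hU : Ap V l η G U) :
    An V (nx l U) ≤ l * S * (en V l G + Nn V (nx l U) + η) := by sorry

/-- PQ2c: means of gradients, second order -/
theorem ap_aa (h : SP V κ Λ c0) (hl : 0 < l) (hS : 0 < S) (hc : CovLe V S) (hQ0 : 0 ≤ Q)
    (hQ : TSq V Q) {H U : Fin n × ι → Eu n → ℝ} (hH : ∀ J, UC.TT (H J)) (hsy : Sy H)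
    (hU : Ap V l η H U) {U' : Fin n × (Fin n × ι) → Eu n → ℝ} (hU' : Ap V l η (nx l U) U') :
    An V (nx l U') ≤ 36 * (l * S) * (en V l H + η) +
      9 * (l ^ 2 * Q) * (en V l H + Nn V (nx l U) + η) +
      2 * (l * S) * (en V l (nx l U) / 4 + η) := by sorry

end fam

/-- PQ3: the iteration -/
theorem p4s : P4s n := by sorry

/-- PQ4a: the thin shell inequality for quadratic forms of `ν` -/
theorem thin_quad {C : ℝ} (hC : 0 ≤ C) (hW : Thin n C) {ν : Measure (Eu n)} {R s : ℝ}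
    (hν : IsProbabilityMeasure ν) (hR : BS R ν) (hpl : FP.PLm ν)
    (hs : ∀ w : Eu n, Cv ν (fun x => inner ℝ x w) (fun x => inner ℝ x w) ≤ s * ‖w‖ ^ 2)
    (B : Fin n → Fin n → ℝ) (hB : ∀ i j, B i j = B j i) :
    Cv ν (fun x => ∑ i, ∑ j, B i j * ((x i - mn ν i) * (x j - mn ν j)))
      (fun x => ∑ i, ∑ j, B i j * ((x i - mn ν i) * (x j - mn ν j))) ≤
      2 * C * s ^ 2 * ∑ i, ∑ j, B i j ^ 2 := by sorry

/-- PQ4b: `ulc_cubic` of Stubs3 from `P4s` -/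
theorem ulc_cubic_of {C : ℝ} (hC : 1 ≤ C) (hW : ∀ n, Thin n C) (h4 : ∀ n, P4s n) :
    ∃ K1 : ℝ, 1 ≤ K1 ∧ ∀ (n : ℕ) (ν : Measure (Eu n)) (R τ : ℝ), IsProbabilityMeasure ν →
      BS R ν → 0 < τ → τ ≤ 1 → ULC τ ν →
      (∀ w : Eu n, Cv ν (fun x => inner ℝ x w) (fun x => inner ℝ x w) ≤ 4 * ‖w‖ ^ 2) →
      ∀ f : Eu n → ℝ, ContDiff ℝ 1 f →
        Cv ν f f ≤ K1 * (1 / τ) ^ (1 / 3 : ℝ) * ∫ x, ‖fderiv ℝ f x‖ ^ 2 ∂ν := by sorry

end Pool.Agent.Lib.MP_6d896a_gt.LG
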