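import Mathlib
import Pool.Agent.Lib.MP_6d896a_gt.LG.Defs

/-!
Statements of the pieces (not to be imported).
-/

set_option autoImplicit false

namespace Pool.Agent.Lib.MP_6d896a_gt.LG

open MeasureTheory Filter Topology Set Matrix
open scoped ENNReal NNReal

variable {n : ℕ} {μ ν : Measure (Eu n)} {R B T η τ : ℝ}

/-! ### analysis pieces (A) -/

/-- A-P1 -/
theorem ulc_poincare (hν : IsProbabilityMeasure ν) (hR : BS R ν) (hτ : 0 < τ) (hu : ULC τ ν)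
    {f : Eu n → ℝ} (hf : ContDiff ℝ 1 f) :
    Cv ν f f ≤ 1 / τ * ∫ x, ‖fderiv ℝ f x‖ ^ 2 ∂ν := by sorry

/-- A-P2 -/
theorem ulc_improved (hν : IsProbabilityMeasure ν) (hR : BS R ν) (hτ : 0 < τ) (hu : ULC τ ν)
    {s : ℝ} (hs0 : 0 ≤ s)
    (hs : ∀ w : Eu n, Cv ν (fun x => inner ℝ x w) (fun x => inner ℝ x w) ≤ s * ‖w‖ ^ 2)
    {f : Eu n → ℝ} (hf : ContDiff ℝ 1 f) :
    Cv ν f f ≤ Real.sqrt (s / τ) * ∫ x, ‖fderiv ℝ f x‖ ^ 2 ∂ν := by sorry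

/-- A-P3 -/
theorem ulc_centered (hν : IsProbabilityMeasure ν) (hR : BS R ν) (hτ : 0 < τ) (hu : ULC τ ν)
    {s : ℝ} (hs0 : 0 ≤ s)
    (hs : ∀ w : Eu n, Cv ν (fun x => inner ℝ x w) (fun x => inner ℝ x w) ≤ s * ‖w‖ ^ 2)
    {f : Eu n → ℝ} (hf : ContDiff ℝ 1 f) (h0 : ∀ w, ∫ x, fderiv ℝ f x w ∂ν = 0) :
    Cv ν f f ≤ 1 / τ * (Real.sqrt (s * τ) / (1 + Real.sqrt (s * τ))) *
      ∫ x, ‖fderiv ℝ f x‖ ^ 2 ∂ν := by sorry

/-- A-P4 -/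
theorem thin_of_S {C : ℝ} (hC : 0 ≤ C) (hS : SIn n C) : Thin n (4 * C) := by sorry

/-! ### static pieces (B) -/

/-- B1a -/
theorem am_le (hν : IsProbabilityMeasure ν) (hR : BS R ν) (hτ : 0 < τ) (hu : ULC τ ν) :
    (1 - τ • Am ν).PosSemidef := by sorry

/-- B1b -/
theorem hm_le (hν : IsProbabilityMeasure ν) (hR : BS R ν) (hτ : 0 < τ) (hu : ULC τ ν) :
    ((4 / τ ^ 3) • (1 - τ • Am ν) - ∑ k, Hm ν k * Hm ν k).PosSemidef := by sorry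

/-- B2 -/
theorem t_bound (hν : IsProbabilityMeasure ν) (hR : BS R ν) (hτ : 0 < τ) (hu : ULC τ ν)
    {b : OrthonormalBasis (Fin n) ℝ (Eu n)} {a : Fin n → ℝ} (hb : Eig ν b a) (p : Fin n)
    {w : Fin n → Fin n → ℝ} (hw0 : ∀ i j, 0 ≤ w i j) (hws : ∀ i j, w i j = w j i)
    (hwp : ∀ i j, a p < a i → w i j = 0) {β : ℝ} (hβ0 : 0 ≤ β)
    (hβ : ∀ i j, w i j * (τ * a i + τ * a j) ≤ β) :
    ∑ i, ∑ j, w i j * T3 ν b p i j ^ 2 ≤ 2 * (τ * a p) * kap (τ * a p) * β / τ ^ 3 := by sorry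

/-- B3 -/
theorem t_boundW {C : ℝ} (hC : 0 ≤ C) (hW : Thin n C) (hν : IsProbabilityMeasure ν)
    (hR : BS R ν) (hpl : FP.PLm ν)
    {b : OrthonormalBasis (Fin n) ℝ (Eu n)} {a : Fin n → ℝ} (hb : Eig ν b a) (p : Fin n) :
    ∑ i, ∑ j, (if a i ≤ a p ∧ a j ≤ a p then T3 ν b p i j ^ 2 else 0) ≤ 2 * C * a p ^ 3 := by
  sorry

/-! ### step I (C) -/

/-- C1: the drift of the functional of step I at a single state -/
theorem step1_point (hν : IsProbabilityMeasure ν) (hR : BS R ν) (hτ : 0 < τ) (hu : ULC τ ν)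
    {b : OrthonormalBasis (Fin n) ℝ (Eu n)} {a : Fin n → ℝ} (hb : Eig ν b a)
    {u : ℝ} (hu0 : 0 < u) {A Z : Mat n} (hA : A = Am ν) (hZ : Z = (τ • A + u • 1)⁻¹) :
    1 / τ ^ 2 * ((A - τ • (A * A)).trace - u ^ 2 * (Z * Z * (A - τ • (A * A))).trace +
        u ^ 2 * τ ^ 2 * ∑ k, (Z * Z * Hm ν k * Z * Hm ν k).trace) -
      2 / τ ^ 3 * (τ * A.trace - n * u + u ^ 2 * Z.trace) ≤
    - (1 / τ ^ 3 * ∑ p, ((τ * a p) ^ 3 * (1 + τ * a p + 2 * u) / (τ * a p + u) ^ 2 -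
      2 * (τ * a p) * kap (τ * a p) * min 1 (6 * (τ * a p) / u))) := by sorry

/-- C2: the scalar inequality -/
theorem scalar_ineq (N : ℕ) {x : ℝ} (hx0 : 0 ≤ x) (hx1 : x ≤ 1) :
    x ^ 3 / 50 - 25 / 4 ^ N ≤ ∑ i ∈ Finset.range (N + 1), (1 / 8 : ℝ) ^ i *
      (x ^ 3 * (1 + x + 2 * ((1 / 2) ^ 22 / 4 ^ i)) / (x + (1 / 2) ^ 22 / 4 ^ i) ^ 2 -
        2 * x * kap x * min 1 (6 * x / ((1 / 2) ^ 22 / 4 ^ i))) := by sorry

/-- C3 -/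
theorem stepI (h : Nm μ R B) (hη : 0 < η) (hu : ULC η μ) (hT : 0 < T) :
    JJ μ T (fun t s => (Am (tl μ t s.1) * Am (tl μ t s.1) * Am (tl μ t s.1)).trace) ≤
      100 * 2 ^ 22 * (Am μ * Am μ).trace := by sorry

/-! ### step II (D) -/

theorem stepII (h : Nm μ R B) (hη : 0 < η) (hu : ULC η μ) (hT : 0 < T) {v : ℝ}
    (hv : JJ μ T (fun t s => (Am (tl μ t s.1) * Am (tl μ t s.1) * Am (tl μ t s.1)).trace) ≤ v) :
    EE μ T (fun s => (s.2 * s.2ᵀ * Am (tl μ T s.1)).trace) ≤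
      (Am μ).trace + T * (222 * v + 3 * n / T ^ 2) := by sorry

theorem sIn : SIn n (222 * (100 * 2 ^ 22)) := by sorry

end Pool.Agent.Lib.MP_6d896a_gt.LG
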