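import Mathlib
import Pool.Agent.Lib.MP_6d896a_gt.LG.Defs

/-!
Statements of the calculus of the random walk (not to be imported; proofs in Chain, ItCalc, Atoms,
Deriv).
-/

set_option autoImplicit false

namespace Pool.Agent.Lib.MP_6d896a_gt.LG

open MeasureTheory Filter Topology Set Matrix
open scoped ENNReal NNReal

variable {n : ℕ} {μ ν : Measure (Eu n)} {R B T η : ℝ}

/-! ### file Chain -/

lemma Rg.init (B : ℝ) : Rg B 0 ((0, 1) : St n) := by sorry

lemma Rg.step (h : Nm μ R B) {d t : ℝ} {s : St n} (ht : 0 ≤ t) (hs : Rg B t s)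
    (e : Fin n → Bool) : Rg B (t + d ^ 2) (stp μ d t s e) := by sorry

lemma EE_mono (h : Nm μ R B) (hT : 0 < T) {F G : St n → ℝ} (hF : Bt B T F) (hG : Bt B T G)
    (hle : ∀ s, Rg B T s → F s ≤ G s) : EE μ T F ≤ EE μ T G := by sorry

lemma EE_add (h : Nm μ R B) (hT : 0 < T) {F G : St n → ℝ} (hF : Bt B T F) (hG : Bt B T G) :
    EE μ T (fun s => F s + G s) = EE μ T F + EE μ T G := by sorry

lemma EE_cmul (h : Nm μ R B) (hT : 0 < T) {F : St n → ℝ} (hF : Bt B T F) (c : ℝ) :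
    EE μ T (fun s => c * F s) = c * EE μ T F := by sorry

lemma EE_const (h : Nm μ R B) (hT : 0 < T) (c : ℝ) : EE μ T (fun _ => c) = c := by sorry

lemma JJ_mono (h : Nm μ R B) (hT : 0 < T) {F G : ℝ → St n → ℝ} (hF : Bd B T F) (hG : Bd B T G)
    (hle : ∀ t s, 0 ≤ t → t ≤ T → Rg B t s → F t s ≤ G t s) : JJ μ T F ≤ JJ μ T G := by sorry

lemma JJ_add (h : Nm μ R B) (hT : 0 < T) {F G : ℝ → St n → ℝ} (hF : Bd B T F) (hG : Bd B T G) :
    JJ μ T (fun t s => F t s + G t s) = JJ μ T F + JJ μ T G := by sorry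

lemma JJ_cmul (h : Nm μ R B) (hT : 0 < T) {F : ℝ → St n → ℝ} (hF : Bd B T F) (c : ℝ) :
    JJ μ T (fun t s => c * F t s) = c * JJ μ T F := by sorry

lemma JJ_const (h : Nm μ R B) (hT : 0 < T) (c : ℝ) : JJ μ T (fun _ _ => c) = T * c := by sorry

theorem dynkin (h : Nm μ R B) (hT : 0 < T) {F b : ℝ → St n → ℝ} {σ : ℝ → St n → Fin n → ℝ}
    (hI : It μ B T F b σ) : EE μ T (F T) = F 0 (0, 1) + JJ μ T b := by sorry

/-! ### file ItCalc -/

section itc
variable {F G b c : ℝ → St n → ℝ} {σ ρ : ℝ → St n → Fin n → ℝ}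

lemma It.bF (hF : It μ B T F b σ) : Bd B T F := by sorry
lemma It.bb (hF : It μ B T F b σ) : Bd B T b := by sorry
lemma It.bs (hF : It μ B T F b σ) (k : Fin n) : Bd B T (fun t s => σ t s k) := by sorry

/-- only the values at reachable states matter -/
lemma It.congr (h : Nm μ R B) (hF : It μ B T F b σ)
    (e1 : ∀ t s, 0 ≤ t → t ≤ T → Rg B t s → F t s = G t s)
    (e2 : ∀ t s, 0 ≤ t → t ≤ T → Rg B t s → b t s = c t s)
    (e3 : ∀ t s, 0 ≤ t → t ≤ T → Rg B t s → σ t s = ρ t s) : It μ B T G c ρ := by sorry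

lemma It.const (h : Nm μ R B) (a : ℝ) :
    It μ B T (fun _ _ => a) (fun _ _ => 0) (fun _ _ _ => 0) := by sorry

lemma It.add (h : Nm μ R B) (hF : It μ B T F b σ) (hG : It μ B T G c ρ) :
    It μ B T (fun t s => F t s + G t s) (fun t s => b t s + c t s)
      (fun t s k => σ t s k + ρ t s k) := by sorry

lemma It.sub (h : Nm μ R B) (hF : It μ B T F b σ) (hG : It μ B T G c ρ) :
    It μ B T (fun t s => F t s - G t s) (fun t s => b t s - c t s)
      (fun t s k => σ t s k - ρ t s k) := by sorry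

lemma It.cmul (h : Nm μ R B) (hF : It μ B T F b σ) (a : ℝ) :
    It μ B T (fun t s => a * F t s) (fun t s => a * b t s) (fun t s k => a * σ t s k) := by sorry

lemma It.mul (h : Nm μ R B) (hF : It μ B T F b σ) (hG : It μ B T G c ρ) :
    It μ B T (fun t s => F t s * G t s)
      (fun t s => b t s * G t s + F t s * c t s + ∑ k, σ t s k * ρ t s k)
      (fun t s k => σ t s k * G t s + F t s * ρ t s k) := by sorry

lemma It.sum (h : Nm μ R B) {ι : Type*} (S : Finset ι) {F b : ι → ℝ → St n → ℝ}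
    {σ : ι → ℝ → St n → Fin n → ℝ} (hF : ∀ i ∈ S, It μ B T (F i) (b i) (σ i)) :
    It μ B T (fun t s => ∑ i ∈ S, F i t s) (fun t s => ∑ i ∈ S, b i t s)
      (fun t s k => ∑ i ∈ S, σ i t s k) := by sorry

/-- functions of the time -/
lemma It.time (h : Nm μ R B) {f f' : ℝ → ℝ} {C : ℝ}
    (h1 : ∀ t, 0 ≤ t → t ≤ T → |f t| ≤ C ∧ |f' t| ≤ C)
    (h2 : ∀ t t', 0 ≤ t → t ≤ t' → t' ≤ T → |f t' - f t - (t' - t) * f' t| ≤ C * (t' - t) ^ 2) :
    It μ B T (fun t _ => f t) (fun t _ => f' t) (fun _ _ _ => 0) := by sorry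

lemma It.tau (h : Nm μ R B) (η : ℝ) :
    It μ B T (fun t _ => η + t) (fun _ _ => 1) (fun _ _ _ => 0) := by sorry

lemma It.tau_inv (h : Nm μ R B) (hη : 0 < η) :
    It μ B T (fun t _ => (η + t)⁻¹) (fun t _ => - ((η + t)⁻¹) ^ 2) (fun _ _ _ => 0) := by sorry

lemma It.exp (h : Nm μ R B) (l : ℝ) :
    It μ B T (fun t _ => Real.exp (-(l * t))) (fun t _ => -(l * Real.exp (-(l * t))))
      (fun _ _ _ => 0) := by sorry

lemma It.inv (h : Nm μ R B) (hF : It μ B T F b σ) {u : ℝ} (hu : 0 < u)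
    (hle : ∀ t s, 0 ≤ t → t ≤ T → Rg B t s → u ≤ F t s) :
    It μ B T (fun t s => (F t s)⁻¹)
      (fun t s => - ((F t s)⁻¹) ^ 2 * b t s + ((F t s)⁻¹) ^ 3 * ∑ k, σ t s k ^ 2)
      (fun t s k => - ((F t s)⁻¹) ^ 2 * σ t s k) := by sorry

end itc

section mitc
variable {F G b c : ℝ → St n → Mat n} {σ ρ : ℝ → St n → Fin n → Mat n}
  {f a : ℝ → St n → ℝ} {g : ℝ → St n → Fin n → ℝ}

lemma MIt.congr (h : Nm μ R B) (hF : MIt μ B T F b σ)
    (e1 : ∀ t s, 0 ≤ t → t ≤ T → Rg B t s → F t s = G t s)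
    (e2 : ∀ t s, 0 ≤ t → t ≤ T → Rg B t s → b t s = c t s)
    (e3 : ∀ t s, 0 ≤ t → t ≤ T → Rg B t s → σ t s = ρ t s) : MIt μ B T G c ρ := by sorry

lemma MIt.const (h : Nm μ R B) (M : Mat n) :
    MIt μ B T (fun _ _ => M) (fun _ _ => 0) (fun _ _ _ => 0) := by sorry

lemma MIt.add (h : Nm μ R B) (hF : MIt μ B T F b σ) (hG : MIt μ B T G c ρ) :
    MIt μ B T (fun t s => F t s + G t s) (fun t s => b t s + c t s)
      (fun t s k => σ t s k + ρ t s k) := by sorry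

lemma MIt.sub (h : Nm μ R B) (hF : MIt μ B T F b σ) (hG : MIt μ B T G c ρ) :
    MIt μ B T (fun t s => F t s - G t s) (fun t s => b t s - c t s)
      (fun t s k => σ t s k - ρ t s k) := by sorry

lemma MIt.smul (h : Nm μ R B) (hf : It μ B T f a g) (hF : MIt μ B T F b σ) :
    MIt μ B T (fun t s => f t s • F t s)
      (fun t s => a t s • F t s + f t s • b t s + ∑ k, g t s k • σ t s k)
      (fun t s k => g t s k • F t s + f t s • σ t s k) := by sorry

lemma MIt.mul (h : Nm μ R B) (hF : MIt μ B T F b σ) (hG : MIt μ B T G c ρ) :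
    MIt μ B T (fun t s => F t s * G t s)
      (fun t s => b t s * G t s + F t s * c t s + ∑ k, σ t s k * ρ t s k)
      (fun t s k => σ t s k * G t s + F t s * ρ t s k) := by sorry

lemma MIt.transpose (hF : MIt μ B T F b σ) :
    MIt μ B T (fun t s => (F t s)ᵀ) (fun t s => (b t s)ᵀ) (fun t s k => (σ t s k)ᵀ) := by sorry

lemma MIt.trace (h : Nm μ R B) (hF : MIt μ B T F b σ) :
    It μ B T (fun t s => (F t s).trace) (fun t s => (b t s).trace)
      (fun t s k => (σ t s k).trace) := by sorry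

lemma MIt.inv (h : Nm μ R B) (hF : MIt μ B T F b σ) {u : ℝ} (hu : 0 < u)
    (hle : ∀ t s, 0 ≤ t → t ≤ T → Rg B t s → (F t s - u • (1 : Mat n)).PosSemidef) :
    MIt μ B T (fun t s => (F t s)⁻¹)
      (fun t s => - ((F t s)⁻¹ * b t s * (F t s)⁻¹) +
        ∑ k, (F t s)⁻¹ * σ t s k * (F t s)⁻¹ * σ t s k * (F t s)⁻¹)
      (fun t s k => - ((F t s)⁻¹ * σ t s k * (F t s)⁻¹)) := by sorry

end mitc

/-! ### file Atoms -/

theorem It.ev (h : Nm μ R B) {φ : Eu n → ℝ} (hm : Measurable φ) {M : ℝ}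
    (hb : ∀ᵐ x ∂μ, |φ x| ≤ M) :
    It μ B T (fun t s => ∫ x, φ x ∂(tl μ t s.1)) (fun _ _ => 0)
      (fun t s k => Cv (tl μ t s.1) (fun x => x k) φ) := by sorry

theorem MIt.P (h : Nm μ R B) :
    MIt μ B T (fun _ s => s.2) (fun t s => Am (tl μ t s.1) * s.2) (fun _ _ _ => 0) := by sorry

/-! ### file Deriv -/

theorem MIt.A (h : Nm μ R B) :
    MIt μ B T (fun t s => Am (tl μ t s.1)) (fun t s => - (Am (tl μ t s.1) * Am (tl μ t s.1)))
      (fun t s k => Hm (tl μ t s.1) k) := by sorry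

/-- covariances with bounded functions; the diffusion coefficients exist but are not needed -/
theorem MIt.N (h : Nm μ R B) {φ : Fin n → Eu n → ℝ} (hm : ∀ j, Measurable (φ j)) {M : ℝ}
    (hb : ∀ j, ∀ᵐ x ∂μ, |φ j x| ≤ M) :
    ∃ σ, MIt μ B T (fun t s => Nv (tl μ t s.1) φ)
      (fun t s => - (Am (tl μ t s.1) * Nv (tl μ t s.1) φ)) σ := by sorry

theorem It.var (h : Nm μ R B) {φ : Eu n → ℝ} (hm : Measurable φ) {M : ℝ}
    (hb : ∀ᵐ x ∂μ, |φ x| ≤ M) :
    ∃ σ, It μ B T (fun t s => Cv (tl μ t s.1) φ φ)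
      (fun t s => - ∑ k, Cv (tl μ t s.1) (fun x => x k) φ ^ 2) σ := by sorry

/-- the tilted measures -/
theorem tl_prob (h : Nm μ R B) (t : ℝ) (c : Eu n) : IsProbabilityMeasure (tl μ t c) := by sorry
theorem tl_BS (h : Nm μ R B) (t : ℝ) (c : Eu n) : BS R (tl μ t c) := by sorry
theorem tl_zero (h : Nm μ R B) : tl μ 0 0 = μ := by sorry
theorem tl_ULC (h : Nm μ R B) (hu : ULC η μ) (t : ℝ) (c : Eu n) : ULC (η + t) (tl μ t c) := by
  sorry

end Pool.Agent.Lib.MP_6d896a_gt.LG
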