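import Mathlib
import Pool.Agent.Lib.MP_6d896a_gt.LG.Defs
import Pool.Agent.Lib.MP_6d896a_gt.FP.EM

/-!
Statements of the pieces of steps IV, V and of the final assembly (not to be imported).
-/

set_option autoImplicit false

namespace Pool.Agent.Lib.MP_6d896a_gt.LG

open MeasureTheory Filter Topology Set Matrix
open scoped ENNReal NNReal Pointwise

variable {n : ℕ} {μ ν : Measure (Eu n)} {R B T η τ : ℝ}

/-- covariance at most `s` -/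
def CovL (ν : Measure (Eu n)) (s : ℝ) : Prop :=
  ∀ w : Eu n, Cv ν (fun x => inner ℝ x w) (fun x => inner ℝ x w) ≤ s * ‖w‖ ^ 2

/-- the potential of step IV -/
noncomputable def fq (q : ℕ) (ν : Measure (Eu n)) : ℝ :=
  (Am ν ^ q).trace / (1 + (Am ν ^ q).trace / 4 ^ q)

/-- PE1: `t_boundW` and the expansion of traces -/
theorem stepIV_EE {C : ℝ} (hC : 0 ≤ C) (hW : Thin n C) (h : Nm μ R B) (hpl : FP.PLm μ)
    (hcov : CovL μ 1) {q : ℕ} (hq : 2 ≤ q) (hT : 0 < T) :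
    EE μ T (fun s => fq q (tl μ T s.1)) ≤ Real.exp (12 * C * q ^ 2 * T) * n := by sorry

theorem stepIV_JJ {C : ℝ} (hC : 0 ≤ C) (hW : Thin n C) (h : Nm μ R B) (hpl : FP.PLm μ)
    (hcov : CovL μ 1) {q : ℕ} (hq : 2 ≤ q) (hT : 0 < T) :
    JJ μ T (fun t s => fq q (tl μ t s.1)) ≤ T * Real.exp (12 * C * q ^ 2 * T) * n := by sorry

theorem fq_bd (h : Nm μ R B) (q : ℕ) : Bd B T (fun t s => fq q (tl μ t s.1)) := by sorry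

theorem fq_nonneg (hν : IsProbabilityMeasure ν) (hR : BS R ν) (q : ℕ) : 0 ≤ fq q ν := by sorry

theorem fq_big (hν : IsProbabilityMeasure ν) (hR : BS R ν) (q : ℕ) (hb : ¬ CovL ν 4) :
    4 ^ q / 2 ≤ fq q ν := by sorry

/-- PF -/
theorem stepV {C : ℝ} (hC : 0 ≤ C) (hW : Thin n C) (h : Nm μ R B) (hpl : FP.PLm μ)
    (hcov : CovL μ 1) {q : ℕ} (hq : 2 ≤ q) (hT : 0 < T) (hT1 : T ≤ 1 / 8) {t0 : ℝ}
    (ht0 : 0 < t0) {K : ℝ} (hK0 : 0 ≤ K)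
    (hK : ∀ ν : Measure (Eu n), IsProbabilityMeasure ν → BS R ν → ULC T ν → CovL ν 4 →
      ∀ f : Eu n → ℝ, ContDiff ℝ 1 f → Cv ν f f ≤ K * ∫ x, ‖fderiv ℝ f x‖ ^ 2 ∂ν)
    {g : Eu n → ℝ} (hg : ContDiff ℝ 1 g) (hg1 : ∀ x, |g x| ≤ 1) {l : ℝ}
    (hl : ∀ x, ‖fderiv ℝ g x‖ ≤ l) :
    Cv μ g g ≤ 2 * (K * l ^ 2 + 2 / 4 ^ q * (Real.exp (12 * C * q ^ 2 * T) * n) + 3 * t0 * n +
      2 / (4 ^ q * t0) * (T * Real.exp (12 * C * q ^ 2 * T) * n)) := by sorry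

/-- PG1: choice of the parameters -/
theorem lip_bound {C : ℝ} (hC : 1 ≤ C) (hW : ∀ n, Thin n C) {a K1 : ℝ} (ha : 0 ≤ a)
    (hK1 : 1 ≤ K1)
    (hK : ∀ (n : ℕ) (ν : Measure (Eu n)) (R τ : ℝ), IsProbabilityMeasure ν → BS R ν → 0 < τ →
      τ ≤ 1 → ULC τ ν → CovL ν 4 →
      ∀ f : Eu n → ℝ, ContDiff ℝ 1 f → Cv ν f f ≤ K1 * (1 / τ) ^ a * ∫ x, ‖fderiv ℝ f x‖ ^ 2 ∂ν) :
    ∃ M : ℝ, 1 ≤ M ∧ ∀ (n : ℕ) (μ : Measure (Eu n)) (R : ℝ), IsProbabilityMeasure μ → BS R μ →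
      FP.PLm μ → CovL μ 1 → ∀ g : Eu n → ℝ, ContDiff ℝ 1 g → (∀ x, |g x| ≤ 1) →
      ∀ l : ℝ, (∀ x, ‖fderiv ℝ g x‖ ≤ l) →
        Cv μ g g ≤ M * (1 + Real.log n) ^ a * l ^ 2 + FP.eta0 / 2 := by sorry

/-- PG2: from Lipschitz functions to sets -/
theorem final_of {M : ℕ → ℝ} (hM : ∀ n, 1 ≤ M n)
    (H : ∀ (n : ℕ) (μ : Measure (Eu n)) (R : ℝ), IsProbabilityMeasure μ → BS R μ →
      FP.PLm μ → CovL μ 1 → ∀ g : Eu n → ℝ, ContDiff ℝ 1 g → (∀ x, |g x| ≤ 1) →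
      ∀ l : ℝ, (∀ x, ‖fderiv ℝ g x‖ ≤ l) → Cv μ g g ≤ M n * l ^ 2 + FP.eta0 / 2) :
    ∃ C : ℝ, 0 < C ∧ ∀ (n : ℕ) (μ : Measure (EuclideanSpace ℝ (Fin n))), IsProbabilityMeasure μ →
      (∀ (A B : Set (EuclideanSpace ℝ (Fin n))) (t : ℝ), IsCompact A → IsCompact B → 0 < t →
        t < 1 → (μ A) ^ t * (μ B) ^ (1 - t) ≤ μ (t • A + (1 - t) • B)) →
      ∀ s : ℝ, 0 < s →
      (∀ θ : EuclideanSpace ℝ (Fin n), ‖θ‖ = 1 →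
        ProbabilityTheory.variance (fun x => inner ℝ x θ) μ ≤ s) →
      ∀ S : Set (EuclideanSpace ℝ (Fin n)), MeasurableSet S →
        ENNReal.ofReal (C / Real.sqrt (M n * s)) * min (μ S) (μ Sᶜ) ≤
          Filter.liminf (fun ε : ℝ => (μ (Metric.thickening ε S) - μ S) / ENNReal.ofReal ε)
            (nhdsWithin 0 (Set.Ioi 0)) := by sorry

/-- PQ (stage 2): cubic Lichnerowicz inequality -/
theorem ulc_cubic {C : ℝ} (hC : 1 ≤ C) (hW : ∀ n, Thin n C) :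
    ∃ K1 : ℝ, 1 ≤ K1 ∧ ∀ (n : ℕ) (ν : Measure (Eu n)) (R τ : ℝ), IsProbabilityMeasure ν →
      BS R ν → 0 < τ → τ ≤ 1 → ULC τ ν → CovL ν 4 →
      ∀ f : Eu n → ℝ, ContDiff ℝ 1 f →
        Cv ν f f ≤ K1 * (1 / τ) ^ (1 / 3 : ℝ) * ∫ x, ‖fderiv ℝ f x‖ ^ 2 ∂ν := by sorry

end Pool.Agent.Lib.MP_6d896a_gt.LG
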